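import Mathlib

/-! # Hr: Horner forms of the level-3 polynomials

`hr β x i n = ∑_{a < n} β (i + a) x^a`;
`hr2 β x y i n = ∑_{a + b ≤ n} β (..) x^a y^b`, rows `b = 0, 1, ..., n` of lengths `n + 1 - b`
(the row `b` has the coefficients of `x^a y^b`, `a = 0 .. n - b`), `(n+1)(n+2)/2` coefficients. -/

set_option autoImplicit false

namespace Pool.H61.Rh

/-- Horner in one variable, `n` coefficients from index `i` -/
noncomputable def hr (β : ℕ → ℝ) (x : ℝ) : ℕ → ℕ → ℝ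
  | _, 0 => 0
  | i, 1 => β i
  | i, n + 2 => β i + x * hr β x (i + 1) (n + 1)

/-- Horner in two variables, total degree `n`, coefficients from index `i` -/
noncomputable def hr2 (β : ℕ → ℝ) (x y : ℝ) : ℕ → ℕ → ℝ
  | i, 0 => β i
  | i, n + 1 => hr β x i (n + 2) + y * hr2 β x y (i + (n + 2)) n

/-- blow-up form of `E` for the vertex `0`: total degree 7, no terms of degree 0 and 1;
`x = r X`, `y = r Y`; the value of `E` is `r²` times this.  33 coefficients:
`x^(a+2) y^b` (`a + b ≤ 5`, order of `hr2`), `x y^(b+1)` (`b ≤ 5`), `y^(b+2)` (`b ≤ 5`) -/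
noncomputable def E0h (β : ℕ → ℝ) (i : ℕ) (x y X Y : ℝ) : ℝ :=
  X * X * hr2 β x y i 5 + X * Y * hr β y (i + 21) 6 + Y * Y * hr β y (i + 27) 6

/-- blow-up form of a component of `G` for the vertex `0`: total degree 8, no constant term;
44 coefficients: `x^(a+1) y^b` (`a + b ≤ 7`), `y^(b+1)` (`b ≤ 7`) -/
noncomputable def G0h (β : ℕ → ℝ) (i : ℕ) (x y X Y : ℝ) : ℝ :=
  X * hr2 β x y i 7 + Y * hr β y (i + 36) 8

/-- `E` for the vertices `1`, `2`: 36 coefficients -/
noncomputable def E1f (β : ℕ → ℝ) (i : ℕ) (x y : ℝ) : ℝ := hr2 β x y i 7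

/-- a component of `G` for the vertices `1`, `2`: 45 coefficients -/
noncomputable def G1f (β : ℕ → ℝ) (i : ℕ) (x y : ℝ) : ℝ := hr2 β x y i 8

/-- `ct D`: 36 coefficients -/
noncomputable def C3f (β : ℕ → ℝ) (i : ℕ) (x y : ℝ) : ℝ := hr2 β x y i 7

/-- a component of `fq D`: 28 coefficients -/
noncomputable def Q3f (β : ℕ → ℝ) (i : ℕ) (x y : ℝ) : ℝ := hr2 β x y i 6

/-- `dt fp (ys + x)`: 15 coefficients -/
noncomputable def Y3f (β : ℕ → ℝ) (i : ℕ) (x y : ℝ) : ℝ := hr2 β x y i 4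

end Pool.H61.Rh
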