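import Pool.Agent.H47.K3.Defs

/-! # generated: level-3 table LA0E (polynomials in θ, exact) -/

set_option autoImplicit false

namespace Pool.H61.Rh

open Pool.H47.Kc Pool.H47.K3

def LA0E_0 : List Sym :=
  [⟨[⟨.ofNat 6787483403, 36⟩, ⟨.ofNat 135, 35⟩, ⟨.negSucc 3443996394, 36⟩, ⟨.ofNat 72627, 36⟩, ⟨.ofNat 737460877, 35⟩, ⟨.ofNat 512223, 35⟩, ⟨.negSucc 8016686, 33⟩, ⟨.ofNat 731739, 35⟩, ⟨.ofNat 1438113, 36⟩], 0⟩,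
   ⟨[⟨.negSucc 1901656000, 36⟩, ⟨.negSucc 1012, 35⟩, ⟨.negSucc 4351650222, 36⟩, ⟨.negSucc 545660, 36⟩, ⟨.ofNat 1541219119, 35⟩, ⟨.negSucc 7725818, 36⟩, ⟨.negSucc 47796190, 35⟩, ⟨.negSucc 11125394, 36⟩, ⟨.negSucc 2634362, 36⟩], 0⟩,
   ⟨[⟨.negSucc 10087895810, 36⟩, ⟨.ofNat 2413, 36⟩, ⟨.ofNat 1497952991, 33⟩, ⟨.ofNat 324823, 35⟩, ⟨.negSucc 7432671578, 36⟩, ⟨.ofNat 9188213, 36⟩, ⟨.ofNat 11689121, 33⟩, ⟨.ofNat 13201639, 36⟩, ⟨.ofNat 6368891, 36⟩], 0⟩,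
   ⟨[⟨.ofNat 67493955, 32⟩, ⟨.negSucc 492, 35⟩, ⟨.negSucc 818952084, 36⟩, ⟨.negSucc 265994, 36⟩, ⟨.ofNat 21093175, 31⟩, ⟨.negSucc 1889882, 35⟩, ⟨.negSucc 128912952, 36⟩, ⟨.negSucc 2741758, 35⟩, ⟨.ofNat 1203747, 34⟩], 0⟩,
   ⟨[⟨.negSucc 23166386, 36⟩, ⟨.negSucc 0, 29⟩, ⟨.ofNat 21316125, 36⟩, ⟨.negSucc 17210, 35⟩, ⟨.negSucc 1505354, 33⟩, ⟨.negSucc 243426, 35⟩, ⟨.ofNat 5265483, 36⟩, ⟨.negSucc 699456, 36⟩, ⟨.ofNat 18743, 34⟩], 0⟩,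
   ⟨[⟨.ofNat 0, 0⟩], 0⟩,
   ⟨[⟨.ofNat 19, 36⟩, ⟨.ofNat 18839953989, 36⟩, ⟨.ofNat 81753, 36⟩, ⟨.negSucc 3718825372, 35⟩, ⟨.ofNat 1104887, 34⟩, ⟨.ofNat 729370895, 36⟩, ⟨.ofNat 11422939, 35⟩, ⟨.negSucc 21211318, 34⟩, ⟨.ofNat 13681169, 36⟩], 0⟩,
   ⟨[⟨.negSucc 24, 36⟩, ⟨.negSucc 234345862, 36⟩, ⟨.negSucc 27218, 34⟩, ⟨.negSucc 463222364, 35⟩, ⟨.negSucc 5930962, 36⟩, ⟨.negSucc 706428032, 35⟩, ⟨.negSucc 15586542, 35⟩, ⟨.ofNat 126680455, 36⟩, ⟨.negSucc 2420722, 33⟩], 0⟩,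
   ⟨[⟨.ofNat 3, 36⟩, ⟨.negSucc 291413800, 36⟩, ⟨.ofNat 5801, 35⟩, ⟨.ofNat 3294027729, 36⟩, ⟨.ofNat 367715, 35⟩, ⟨.negSucc 851987598, 36⟩, ⟨.ofNat 1253657, 34⟩, ⟨.ofNat 6239981, 34⟩, ⟨.ofNat 1149575, 34⟩], 0⟩,
   ⟨[⟨.ofNat 1, 34⟩, ⟨.ofNat 1905557579, 36⟩, ⟨.ofNat 17223, 36⟩, ⟨.negSucc 1667686456, 35⟩, ⟨.ofNat 929735, 36⟩, ⟨.ofNat 314539001, 35⟩, ⟨.ofNat 2395163, 35⟩, ⟨.negSucc 16247734, 36⟩, ⟨.ofNat 1423001, 35⟩], 0⟩,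
   ⟨[⟨.ofNat 0, 0⟩, ⟨.negSucc 28713862, 35⟩, ⟨.negSucc 38, 31⟩, ⟨.ofNat 65424203, 35⟩, ⟨.negSucc 63298, 36⟩, ⟨.negSucc 72272304, 36⟩, ⟨.negSucc 280822, 36⟩, ⟨.ofNat 9988589, 36⟩, ⟨.negSucc 108246, 36⟩], 0⟩,
   ⟨[⟨.ofNat 7913442991, 35⟩, ⟨.negSucc 622, 36⟩, ⟨.ofNat 13764203943, 36⟩, ⟨.negSucc 168868, 36⟩, ⟨.ofNat 505318937, 35⟩, ⟨.negSucc 151822, 32⟩, ⟨.negSucc 1531416, 30⟩, ⟨.negSucc 1806582, 35⟩, ⟨.ofNat 6609759, 36⟩], 0⟩,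
   ⟨[⟨.negSucc 1315329632, 36⟩, ⟨.ofNat 575, 36⟩, ⟨.negSucc 369102740, 35⟩, ⟨.ofNat 155411, 36⟩, ⟨.negSucc 2229858362, 35⟩, ⟨.ofNat 2220711, 36⟩, ⟨.ofNat 473592037, 36⟩, ⟨.ofNat 3258493, 36⟩, ⟨.negSucc 4242540, 36⟩], 0⟩,
   ⟨[⟨.ofNat 1851772513, 35⟩, ⟨.ofNat 1309, 36⟩, ⟨.ofNat 523067937, 35⟩, ⟨.ofNat 351633, 36⟩, ⟨.ofNat 1865954089, 36⟩, ⟨.ofNat 1235929, 34⟩, ⟨.negSucc 119615930, 36⟩, ⟨.ofNat 3506717, 35⟩, ⟨.ofNat 8015415, 36⟩], 0⟩,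
   ⟨[⟨.negSucc 111958402, 36⟩, ⟨.ofNat 101, 36⟩, ⟨.ofNat 39350517, 35⟩, ⟨.ofNat 13611, 35⟩, ⟨.negSucc 3708162, 31⟩, ⟨.ofNat 382617, 36⟩, ⟨.ofNat 2990921, 32⟩, ⟨.ofNat 542425, 36⟩, ⟨.negSucc 1282066, 36⟩], 0⟩,
   ⟨[⟨.ofNat 7, 36⟩, ⟨.negSucc 300439346, 32⟩, ⟨.ofNat 29181, 36⟩, ⟨.ofNat 4808140619, 35⟩, ⟨.ofNat 6169, 28⟩, ⟨.ofNat 502594519, 35⟩, ⟨.ofNat 2045567, 34⟩, ⟨.negSucc 12214632, 34⟩, ⟨.ofNat 1230583, 34⟩], 0⟩]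

def LA0E_1 : List Sym :=
  [⟨[⟨.negSucc 4, 35⟩, ⟨.ofNat 6547832241, 36⟩, ⟨.negSucc 10900, 34⟩, ⟨.negSucc 2210409144, 34⟩, ⟨.negSucc 288976, 33⟩, ⟨.ofNat 238947511, 35⟩, ⟨.negSucc 11442080, 36⟩, ⟨.ofNat 24883079, 35⟩, ⟨.negSucc 3092230, 35⟩], 0⟩,
   ⟨[⟨.ofNat 0, 0⟩, ⟨.negSucc 102032830, 36⟩, ⟨.negSucc 602, 35⟩, ⟨.ofNat 96367079, 34⟩, ⟨.negSucc 31116, 35⟩, ⟨.negSucc 118306834, 36⟩, ⟨.negSucc 288528, 36⟩, ⟨.ofNat 5484641, 36⟩, ⟨.negSucc 129734, 36⟩], 0⟩,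
   ⟨[⟨.negSucc 608106350, 33⟩, ⟨.negSucc 162, 36⟩, ⟨.ofNat 6993636507, 36⟩, ⟨.negSucc 43806, 36⟩, ⟨.ofNat 880778253, 35⟩, ⟨.negSucc 38292, 32⟩, ⟨.negSucc 70377068, 36⟩, ⟨.negSucc 429752, 35⟩, ⟨.negSucc 1000302, 35⟩], 0⟩,
   ⟨[⟨.ofNat 146785363, 36⟩, ⟨.ofNat 47, 35⟩, ⟨.negSucc 136630240, 36⟩, ⟨.ofNat 25347, 36⟩, ⟨.negSucc 72955088, 35⟩, ⟨.ofNat 2781, 29⟩, ⟨.ofNat 49815981, 36⟩, ⟨.ofNat 503735, 36⟩, ⟨.negSucc 989854, 36⟩], 0⟩,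
   ⟨[⟨.ofNat 0, 0⟩, ⟨.negSucc 259026518, 36⟩, ⟨.ofNat 35, 33⟩, ⟨.ofNat 211713031, 35⟩, ⟨.ofNat 6847, 35⟩, ⟨.negSucc 64727540, 36⟩, ⟨.ofNat 55025, 36⟩, ⟨.negSucc 4138196, 36⟩, ⟨.ofNat 6339, 35⟩], 0⟩,
   ⟨[⟨.ofNat 3, 35⟩, ⟨.negSucc 433958024, 31⟩, ⟨.ofNat 1551, 32⟩, ⟨.ofNat 810605251, 33⟩, ⟨.ofNat 1364495, 36⟩, ⟨.ofNat 26785995, 36⟩, ⟨.ofNat 7315873, 36⟩, ⟨.negSucc 32081498, 36⟩, ⟨.ofNat 2369829, 35⟩], 0⟩,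
   ⟨[⟨.negSucc 26974356128, 36⟩, ⟨.negSucc 132, 33⟩, ⟨.negSucc 15436918694, 36⟩, ⟨.negSucc 35952, 33⟩, ⟨.negSucc 2248152760, 36⟩, ⟨.negSucc 2056410, 35⟩, ⟨.ofNat 13618781, 33⟩, ⟨.negSucc 3022874, 35⟩, ⟨.negSucc 1291604, 36⟩], 0⟩,
   ⟨[⟨.negSucc 6, 36⟩, ⟨.negSucc 16383840728, 36⟩, ⟨.negSucc 14610, 35⟩, ⟨.ofNat 1706401795, 34⟩, ⟨.negSucc 386160, 34⟩, ⟨.negSucc 1578878782, 36⟩, ⟨.negSucc 3796970, 35⟩, ⟨.ofNat 82495879, 36⟩, ⟨.negSucc 4040082, 36⟩], 0⟩,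
   ⟨[⟨.ofNat 491696189, 35⟩, ⟨.ofNat 617, 36⟩, ⟨.negSucc 602154242, 36⟩, ⟨.ofNat 165479, 36⟩, ⟨.negSucc 4717850020, 36⟩, ⟨.ofNat 1161927, 35⟩, ⟨.ofNat 15881841, 36⟩, ⟨.ofNat 3288663, 36⟩, ⟨.ofNat 2245419, 35⟩], 0⟩,
   ⟨[⟨.ofNat 1, 36⟩, ⟨.ofNat 4875427249, 36⟩, ⟨.ofNat 2857, 35⟩, ⟨.negSucc 2842946312, 35⟩, ⟨.ofNat 305735, 36⟩, ⟨.negSucc 64530140, 36⟩, ⟨.ofNat 772305, 35⟩, ⟨.ofNat 3045047, 35⟩, ⟨.ofNat 876675, 36⟩], 0⟩,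
   ⟨[⟨.ofNat 258743765, 36⟩, ⟨.negSucc 6, 36⟩, ⟨.negSucc 215331274, 36⟩, ⟨.negSucc 936, 35⟩, ⟨.negSucc 13624480, 35⟩, ⟨.negSucc 26648, 36⟩, ⟨.ofNat 1961245, 36⟩, ⟨.negSucc 19344, 35⟩, ⟨.ofNat 292211, 36⟩], 0⟩,
   ⟨[⟨.ofNat 1940562873, 35⟩, ⟨.ofNat 281, 33⟩, ⟨.ofNat 5053517053, 35⟩, ⟨.ofNat 151389, 34⟩, ⟨.ofNat 194215543, 35⟩, ⟨.ofNat 4290149, 35⟩, ⟨.negSucc 129385040, 35⟩, ⟨.ofNat 12375511, 36⟩, ⟨.ofNat 2157493, 34⟩], 0⟩,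
   ⟨[⟨.ofNat 1, 36⟩, ⟨.ofNat 4459990987, 34⟩, ⟨.ofNat 1425, 35⟩, ⟨.negSucc 5926126230, 35⟩, ⟨.ofNat 194941, 36⟩, ⟨.ofNat 229462767, 34⟩, ⟨.ofNat 367259, 34⟩, ⟨.ofNat 564039, 33⟩, ⟨.ofNat 1496041, 36⟩], 0⟩,
   ⟨[⟨.ofNat 7540039981, 35⟩, ⟨.ofNat 519, 36⟩, ⟨.negSucc 14715144622, 36⟩, ⟨.ofNat 139547, 36⟩, ⟨.ofNat 4917302787, 36⟩, ⟨.ofNat 122749, 32⟩, ⟨.ofNat 2024059, 30⟩, ⟨.ofNat 2792163, 36⟩, ⟨.negSucc 713546, 34⟩], 0⟩,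
   ⟨[⟨.negSucc 0, 35⟩, ⟨.negSucc 5176899202, 35⟩, ⟨.negSucc 5350, 35⟩, ⟨.ofNat 2179729469, 34⟩, ⟨.negSucc 563922, 36⟩, ⟨.ofNat 138611571, 36⟩, ⟨.negSucc 1375288, 35⟩, ⟨.negSucc 26434, 30⟩, ⟨.negSucc 1429556, 36⟩], 0⟩,
   ⟨[⟨.negSucc 4249011190, 35⟩, ⟨.ofNat 3, 32⟩, ⟨.ofNat 5768230505, 36⟩, ⟨.ofNat 6391, 35⟩, ⟨.negSucc 28699276, 36⟩, ⟨.ofNat 22537, 33⟩, ⟨.negSucc 20730100, 36⟩, ⟨.ofNat 32195, 33⟩, ⟨.ofNat 419, 31⟩], 0⟩]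

def LA0E_2 : List Sym :=
  [⟨[⟨.ofNat 0, 0⟩, ⟨.negSucc 107210706, 35⟩, ⟨.ofNat 119, 35⟩, ⟨.ofNat 21100769, 33⟩, ⟨.ofNat 12629, 36⟩, ⟨.negSucc 18693010, 36⟩, ⟨.ofNat 62731, 36⟩, ⟨.ofNat 365751, 36⟩, ⟨.ofNat 34165, 36⟩], 0⟩,
   ⟨[⟨.ofNat 17570820431, 34⟩, ⟨.ofNat 129, 35⟩, ⟨.negSucc 18585153394, 35⟩, ⟨.ofNat 69657, 36⟩, ⟨.negSucc 2278973924, 35⟩, ⟨.ofNat 496469, 35⟩, ⟨.ofNat 192508957, 36⟩, ⟨.ofNat 45317, 31⟩, ⟨.negSucc 1044470, 35⟩], 0⟩,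
   ⟨[⟨.negSucc 38372834732, 36⟩, ⟨.negSucc 418, 31⟩, ⟨.negSucc 6566446596, 32⟩, ⟨.negSucc 225902, 32⟩, ⟨.ofNat 58513641993, 36⟩, ⟨.negSucc 51308822, 36⟩, ⟨.negSucc 1230051022, 36⟩, ⟨.negSucc 2321606, 31⟩, ⟨.negSucc 10537202, 36⟩], 0⟩,
   ⟨[⟨.negSucc 24048632722, 34⟩, ⟨.ofNat 8377, 35⟩, ⟨.ofNat 66873797909, 34⟩, ⟨.ofNat 4521323, 36⟩, ⟨.negSucc 44137070484, 35⟩, ⟨.ofNat 32179565, 35⟩, ⟨.ofNat 2327177041, 36⟩, ⟨.ofNat 46862377, 35⟩, ⟨.negSucc 7469124, 36⟩], 0⟩,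
   ⟨[⟨.negSucc 2270769610, 36⟩, ⟨.negSucc 4574, 36⟩, ⟨.negSucc 5685122320, 34⟩, ⟨.negSucc 620958, 35⟩, ⟨.ofNat 12161038963, 36⟩, ⟨.negSucc 17939482, 36⟩, ⟨.negSucc 1442853822, 35⟩, ⟨.negSucc 6728074, 34⟩, ⟨.ofNat 37641589, 35⟩], 0⟩,
   ⟨[⟨.ofNat 2562665769, 35⟩, ⟨.negSucc 3688, 35⟩, ⟨.ofNat 7022784711, 35⟩, ⟨.negSucc 1980260, 36⟩, ⟨.negSucc 1029082198, 36⟩, ⟨.negSucc 13900944, 35⟩, ⟨.ofNat 151317243, 35⟩, ⟨.negSucc 39318142, 36⟩, ⟨.negSucc 28710932, 36⟩], 0⟩,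
   ⟨[⟨.negSucc 783714148, 36⟩, ⟨.ofNat 677, 35⟩, ⟨.negSucc 110933314, 33⟩, ⟨.ofNat 45695, 33⟩, ⟨.ofNat 666463191, 36⟩, ⟨.ofNat 5207883, 36⟩, ⟨.negSucc 77439090, 35⟩, ⟨.ofNat 3797711, 35⟩, ⟨.ofNat 1108685, 36⟩], 0⟩,
   ⟨[⟨.ofNat 18633579, 36⟩, ⟨.negSucc 214, 36⟩, ⟨.ofNat 7097947, 36⟩, ⟨.negSucc 57452, 36⟩, ⟨.negSucc 11145490, 35⟩, ⟨.negSucc 400488, 35⟩, ⟨.ofNat 6228389, 35⟩, ⟨.negSucc 557890, 35⟩, ⟨.negSucc 1859542, 36⟩], 0⟩,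
   ⟨[⟨.ofNat 0, 0⟩], 0⟩,
   ⟨[⟨.ofNat 75, 35⟩, ⟨.ofNat 478880357857, 36⟩, ⟨.ofNat 653877, 36⟩, ⟨.negSucc 25403136588, 34⟩, ⟨.ofNat 17664937, 35⟩, ⟨.ofNat 8365447971, 36⟩, ⟨.ofNat 182455895, 36⟩, ⟨.negSucc 882224440, 36⟩, ⟨.ofNat 109122821, 36⟩], 0⟩,
   ⟨[⟨.negSucc 152, 36⟩, ⟨.negSucc 442333788472, 36⟩, ⟨.negSucc 667768, 36⟩, ⟨.ofNat 129727702429, 36⟩, ⟨.negSucc 36880718, 36⟩, ⟨.negSucc 1757800522, 35⟩, ⟨.negSucc 199504668, 36⟩, ⟨.ofNat 77736207, 33⟩, ⟨.negSucc 131396378, 36⟩], 0⟩,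
   ⟨[⟨.negSucc 4, 36⟩, ⟨.negSucc 552857596, 34⟩, ⟨.negSucc 19306, 36⟩, ⟨.ofNat 6954560741, 33⟩, ⟨.negSucc 42826, 35⟩, ⟨.negSucc 679279598, 32⟩, ⟨.ofNat 10346641, 36⟩, ⟨.ofNat 73095429, 33⟩, ⟨.ofNat 20529811, 36⟩], 0⟩,
   ⟨[⟨.ofNat 35, 34⟩, ⟨.ofNat 29769621873, 36⟩, ⟨.ofNat 606691, 36⟩, ⟨.negSucc 11982719162, 34⟩, ⟨.ofNat 8066933, 34⟩, ⟨.ofNat 8570690975, 36⟩, ⟨.ofNat 40203357, 34⟩, ⟨.negSucc 38908388, 32⟩, ⟨.ofNat 44144473, 35⟩], 0⟩,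
   ⟨[⟨.negSucc 20, 36⟩, ⟨.negSucc 1497529244, 36⟩, ⟨.negSucc 46800, 35⟩, ⟨.ofNat 679845911, 35⟩, ⟨.negSucc 5126830, 36⟩, ⟨.negSucc 1409479958, 36⟩, ⟨.negSucc 27257034, 36⟩, ⟨.ofNat 217548157, 36⟩, ⟨.negSucc 8667222, 35⟩], 0⟩,
   ⟨[⟨.ofNat 3, 34⟩, ⟨.negSucc 234482896, 33⟩, ⟨.ofNat 52089, 36⟩, ⟨.ofNat 1615014565, 35⟩, ⟨.ofNat 1372467, 35⟩, ⟨.negSucc 548540586, 36⟩, ⟨.ofNat 13390013, 36⟩, ⟨.negSucc 29488754, 36⟩, ⟨.ofNat 6956085, 36⟩], 0⟩,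
   ⟨[⟨.ofNat 0, 0⟩, ⟨.ofNat 28673611, 35⟩, ⟨.ofNat 1389, 36⟩, ⟨.negSucc 16324320, 33⟩, ⟨.ofNat 66099, 36⟩, ⟨.ofNat 71989361, 36⟩, ⟨.ofNat 121041, 35⟩, ⟨.negSucc 4872810, 35⟩, ⟨.ofNat 16561, 36⟩], 0⟩]

def LA0E_3 : List Sym :=
  [⟨[⟨.ofNat 267468901735, 36⟩, ⟨.negSucc 4436, 36⟩, ⟨.negSucc 35903697552, 34⟩, ⟨.negSucc 1200050, 36⟩, ⟨.ofNat 31968469221, 36⟩, ⟨.negSucc 4293078, 34⟩, ⟨.negSucc 1932417142, 35⟩, ⟨.negSucc 25273848, 36⟩, ⟨.ofNat 91283667, 36⟩], 0⟩,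
   ⟨[⟨.ofNat 37193615551, 36⟩, ⟨.negSucc 9066, 36⟩, ⟨.negSucc 2602845750, 31⟩, ⟨.negSucc 36, 20⟩, ⟨.negSucc 3050646618, 34⟩, ⟨.negSucc 16868692, 35⟩, ⟨.ofNat 27216869, 29⟩, ⟨.negSucc 46781614, 36⟩, ⟨.negSucc 66718774, 35⟩], 0⟩,
   ⟨[⟨.negSucc 35578976302, 35⟩, ⟨.ofNat 20061, 36⟩, ⟨.ofNat 93010768501, 36⟩, ⟨.ofNat 672443, 33⟩, ⟨.negSucc 7495710138, 36⟩, ⟨.ofNat 75363113, 36⟩, ⟨.negSucc 42618488, 31⟩, ⟨.ofNat 106095229, 36⟩, ⟨.ofNat 109114865, 36⟩], 0⟩,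
   ⟨[⟨.ofNat 5087603391, 36⟩, ⟨.negSucc 2210, 34⟩, ⟨.negSucc 5704722210, 36⟩, ⟨.negSucc 1189514, 35⟩, ⟨.ofNat 6107420193, 36⟩, ⟨.negSucc 33594098, 36⟩, ⟨.negSucc 214566008, 36⟩, ⟨.negSucc 24048378, 35⟩, ⟨.negSucc 14701204, 36⟩], 0⟩,
   ⟨[⟨.negSucc 1881391642, 35⟩, ⟨.ofNat 765, 36⟩, ⟨.negSucc 938984958, 36⟩, ⟨.ofNat 102411, 35⟩, ⟨.negSucc 118145668, 32⟩, ⟨.ofNat 357137, 33⟩, ⟨.ofNat 43307659, 35⟩, ⟨.ofNat 1992195, 35⟩, ⟨.negSucc 5547250, 36⟩], 0⟩,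
   ⟨[⟨.ofNat 111801469, 36⟩, ⟨.negSucc 232, 36⟩, ⟨.negSucc 78403306, 36⟩, ⟨.negSucc 31280, 35⟩, ⟨.ofNat 118401997, 36⟩, ⟨.negSucc 441670, 35⟩, ⟨.negSucc 46678742, 36⟩, ⟨.negSucc 1264200, 36⟩, ⟨.ofNat 355429, 34⟩], 0⟩,
   ⟨[⟨.ofNat 7, 32⟩, ⟨.negSucc 19568300578, 35⟩, ⟨.ofNat 485105, 36⟩, ⟨.ofNat 17422404023, 34⟩, ⟨.ofNat 25934675, 36⟩, ⟨.negSucc 4861211808, 35⟩, ⟨.ofNat 65394473, 35⟩, ⟨.negSucc 238969142, 36⟩, ⟨.ofNat 73945583, 36⟩], 0⟩,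
   ⟨[⟨.negSucc 32, 35⟩, ⟨.negSucc 24259395594, 36⟩, ⟨.negSucc 71456, 34⟩, ⟨.negSucc 33030554002, 36⟩, ⟨.negSucc 7753770, 35⟩, ⟨.ofNat 491456247, 32⟩, ⟨.negSucc 80755132, 36⟩, ⟨.negSucc 66931150, 36⟩, ⟨.negSucc 24524636, 35⟩], 0⟩,
   ⟨[⟨.negSucc 6, 36⟩, ⟨.ofNat 1383699399, 34⟩, ⟨.negSucc 3334, 33⟩, ⟨.negSucc 5730125946, 36⟩, ⟨.negSucc 543978, 35⟩, ⟨.negSucc 2511640536, 36⟩, ⟨.negSucc 1687068, 36⟩, ⟨.ofNat 98745233, 35⟩, ⟨.ofNat 4072677, 36⟩], 0⟩,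
   ⟨[⟨.ofNat 21, 36⟩, ⟨.negSucc 814159052, 33⟩, ⟨.ofNat 44721, 35⟩, ⟨.ofNat 4357891499, 35⟩, ⟨.ofNat 4689885, 36⟩, ⟨.negSucc 201514726, 35⟩, ⟨.ofNat 2826687, 33⟩, ⟨.negSucc 19042686, 34⟩, ⟨.ofNat 11394693, 36⟩], 0⟩,
   ⟨[⟨.ofNat 0, 0⟩, ⟨.ofNat 12747065, 33⟩, ⟨.ofNat 421, 36⟩, ⟨.negSucc 384908612, 36⟩, ⟨.ofNat 5155, 34⟩, ⟨.ofNat 117874929, 36⟩, ⟨.ofNat 41413, 35⟩, ⟨.negSucc 5070868, 36⟩, ⟨.ofNat 9589, 35⟩], 0⟩,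
   ⟨[⟨.negSucc 29376263946, 35⟩, ⟨.negSucc 760, 35⟩, ⟨.ofNat 39239934491, 35⟩, ⟨.negSucc 412690, 36⟩, ⟨.negSucc 3057091666, 34⟩, ⟨.negSucc 5941472, 36⟩, ⟨.negSucc 524533762, 36⟩, ⟨.negSucc 4423438, 35⟩, ⟨.ofNat 18967355, 35⟩], 0⟩,
   ⟨[⟨.ofNat 14583653, 30⟩, ⟨.negSucc 1266, 36⟩, ⟨.negSucc 5646582316, 36⟩, ⟨.negSucc 84182, 34⟩, ⟨.ofNat 807154091, 33⟩, ⟨.negSucc 1151602, 34⟩, ⟨.ofNat 48590503, 36⟩, ⟨.negSucc 6150118, 36⟩, ⟨.negSucc 13060654, 35⟩], 0⟩,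
   ⟨[⟨.ofNat 1209788463, 34⟩, ⟨.ofNat 1799, 36⟩, ⟨.negSucc 6872640646, 36⟩, ⟨.ofNat 481133, 36⟩, ⟨.negSucc 1805467920, 36⟩, ⟨.ofNat 418549, 32⟩, ⟨.ofNat 27349993, 35⟩, ⟨.ofNat 4647533, 35⟩, ⟨.ofNat 3121719, 36⟩], 0⟩,
   ⟨[⟨.negSucc 73289804, 35⟩, ⟨.negSucc 28, 33⟩, ⟨.ofNat 136338515, 36⟩, ⟨.negSucc 31142, 35⟩, ⟨.ofNat 145771761, 36⟩, ⟨.negSucc 109640, 33⟩, ⟨.negSucc 24248318, 35⟩, ⟨.negSucc 1248406, 36⟩, ⟨.ofNat 137071, 33⟩], 0⟩,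
   ⟨[⟨.ofNat 7, 36⟩, ⟨.ofNat 5835464925, 35⟩, ⟨.ofNat 30991, 36⟩, ⟨.negSucc 4104308388, 35⟩, ⟨.ofNat 1668815, 36⟩, ⟨.negSucc 117583622, 34⟩, ⟨.ofNat 2135947, 34⟩, ⟨.ofNat 8145089, 35⟩, ⟨.ofNat 622809, 33⟩], 0⟩]

def LA0E_4 : List Sym :=
  [⟨[⟨.negSucc 0, 36⟩, ⟨.negSucc 4878794486, 36⟩, ⟨.negSucc 3590, 36⟩, ⟨.ofNat 5619313077, 36⟩, ⟨.negSucc 218956, 36⟩, ⟨.ofNat 26133377, 34⟩, ⟨.negSucc 701656, 35⟩, ⟨.negSucc 352050, 31⟩, ⟨.negSucc 294740, 34⟩], 0⟩,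
   ⟨[⟨.ofNat 0, 0⟩, ⟨.ofNat 258549831, 36⟩, ⟨.negSucc 1330, 36⟩, ⟨.negSucc 422321712, 36⟩, ⟨.negSucc 16244, 34⟩, ⟨.ofNat 16046345, 34⟩, ⟨.negSucc 258430, 36⟩, ⟨.ofNat 4430179, 36⟩, ⟨.negSucc 54584, 36⟩], 0⟩,
   ⟨[⟨.ofNat 8520896111, 36⟩, ⟨.ofNat 35, 36⟩, ⟨.negSucc 2870402852, 35⟩, ⟨.ofNat 4611, 35⟩, ⟨.ofNat 10633193, 36⟩, ⟨.ofNat 124075, 36⟩, ⟨.ofNat 19612309, 36⟩, ⟨.ofNat 79661, 35⟩, ⟨.ofNat 129977, 35⟩], 0⟩,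
   ⟨[⟨.negSucc 258381078, 36⟩, ⟨.negSucc 2, 36⟩, ⟨.ofNat 214907939, 36⟩, ⟨.negSucc 802, 36⟩, ⟨.ofNat 13569737, 35⟩, ⟨.negSucc 4466, 35⟩, ⟨.negSucc 105600, 32⟩, ⟨.negSucc 5596, 36⟩, ⟨.negSucc 165692, 35⟩], 0⟩,
   ⟨[⟨.ofNat 0, 0⟩, ⟨.ofNat 106960267, 35⟩, ⟨.negSucc 362, 36⟩, ⟨.negSucc 42001916, 34⟩, ⟨.negSucc 19500, 36⟩, ⟨.ofNat 4574953, 34⟩, ⟨.negSucc 12396, 33⟩, ⟨.negSucc 244572, 36⟩, ⟨.negSucc 57200, 36⟩], 0⟩,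
   ⟨[⟨.negSucc 2, 35⟩, ⟨.negSucc 79912439550, 35⟩, ⟨.negSucc 13890, 35⟩, ⟨.ofNat 8606149621, 36⟩, ⟨.negSucc 1486122, 36⟩, ⟨.ofNat 170858451, 35⟩, ⟨.negSucc 7503466, 36⟩, ⟨.ofNat 10293643, 35⟩, ⟨.negSucc 4252302, 36⟩], 0⟩,
   ⟨[⟨.negSucc 88547491428, 35⟩, ⟨.negSucc 5000, 36⟩, ⟨.ofNat 127003950955, 36⟩, ⟨.negSucc 1344560, 36⟩, ⟨.negSucc 3842997324, 34⟩, ⟨.negSucc 18963318, 36⟩, ⟨.ofNat 1257685297, 36⟩, ⟨.negSucc 27083968, 36⟩, ⟨.negSucc 17985542, 35⟩], 0⟩,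
   ⟨[⟨.negSucc 4, 34⟩, ⟨.ofNat 13093262219, 33⟩, ⟨.negSucc 89528, 36⟩, ⟨.negSucc 44896459674, 36⟩, ⟨.negSucc 4952082, 36⟩, ⟨.ofNat 2937470027, 36⟩, ⟨.negSucc 26862350, 36⟩, ⟨.ofNat 11759563, 36⟩, ⟨.negSucc 1110344, 32⟩], 0⟩,
   ⟨[⟨.ofNat 37758703145, 36⟩, ⟨.negSucc 1980, 36⟩, ⟨.negSucc 71687396422, 36⟩, ⟨.negSucc 132790, 34⟩, ⟨.ofNat 3014592357, 35⟩, ⟨.negSucc 3719992, 35⟩, ⟨.ofNat 29357917, 34⟩, ⟨.negSucc 10469170, 36⟩, ⟨.negSucc 3439406, 34⟩], 0⟩,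
   ⟨[⟨.ofNat 1, 35⟩, ⟨.negSucc 46134157064, 36⟩, ⟨.ofNat 7649, 36⟩, ⟨.ofNat 3819295467, 36⟩, ⟨.ofNat 47019, 33⟩, ⟨.ofNat 223371615, 35⟩, ⟨.ofNat 190763, 33⟩, ⟨.negSucc 34039538, 36⟩, ⟨.ofNat 5693, 30⟩], 0⟩,
   ⟨[⟨.negSucc 1142476556, 36⟩, ⟨.negSucc 230, 36⟩, ⟨.negSucc 178370470, 33⟩, ⟨.negSucc 31002, 35⟩, ⟨.ofNat 352719457, 36⟩, ⟨.negSucc 869202, 36⟩, ⟨.negSucc 10316536, 36⟩, ⟨.negSucc 612670, 35⟩, ⟨.negSucc 584356, 36⟩], 0⟩,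
   ⟨[⟨.ofNat 0, 0⟩, ⟨.negSucc 22247516, 36⟩, ⟨.ofNat 269, 35⟩, ⟨.negSucc 395680, 31⟩, ⟨.ofNat 26973, 36⟩, ⟨.ofNat 6768507, 36⟩, ⟨.ofNat 7257, 32⟩, ⟨.negSucc 746582, 36⟩, ⟨.ofNat 39109, 36⟩], 0⟩,
   ⟨[⟨.ofNat 0, 0⟩, ⟨.negSucc 0, 34⟩, ⟨.ofNat 166117, 36⟩, ⟨.negSucc 134, 33⟩, ⟨.negSucc 115144, 35⟩, ⟨.negSucc 15148, 36⟩, ⟨.ofNat 128279, 36⟩, ⟨.negSucc 21390, 36⟩, ⟨.negSucc 3118, 35⟩], 0⟩,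
   ⟨[⟨.negSucc 22, 36⟩, ⟨.ofNat 15873989463, 35⟩, ⟨.negSucc 12300, 33⟩, ⟨.ofNat 423813667, 36⟩, ⟨.negSucc 5344984, 36⟩, ⟨.negSucc 1427930016, 36⟩, ⟨.negSucc 13959300, 35⟩, ⟨.ofNat 138955595, 36⟩, ⟨.negSucc 17120022, 36⟩], 0⟩,
   ⟨[⟨.ofNat 49, 35⟩, ⟨.negSucc 28325326808, 34⟩, ⟨.ofNat 428351, 36⟩, ⟨.negSucc 9456156754, 36⟩, ⟨.ofNat 23396187, 36⟩, ⟨.ofNat 1825506191, 34⟩, ⟨.ofNat 30920593, 34⟩, ⟨.negSucc 312566912, 35⟩, ⟨.ofNat 77819353, 36⟩], 0⟩,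
   ⟨[⟨.negSucc 26, 34⟩, ⟨.ofNat 113831928075, 36⟩, ⟨.negSucc 14740, 31⟩, ⟨.ofNat 9323845471, 36⟩, ⟨.negSucc 25789036, 36⟩, ⟨.negSucc 3949505676, 35⟩, ⟨.negSucc 34154880, 34⟩, ⟨.ofNat 696399203, 36⟩, ⟨.negSucc 5398192, 32⟩], 0⟩]

def LA0E_5 : List Sym :=
  [⟨[⟨.ofNat 45, 36⟩, ⟨.ofNat 1860532901, 36⟩, ⟨.ofNat 97365, 35⟩, ⟨.ofNat 1123693215, 36⟩, ⟨.ofNat 5248653, 35⟩, ⟨.ofNat 1479374303, 36⟩, ⟨.ofNat 53975789, 36⟩, ⟨.negSucc 322211160, 36⟩, ⟨.ofNat 16034231, 35⟩], 0⟩,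
   ⟨[⟨.negSucc 14, 36⟩, ⟨.negSucc 129500724, 34⟩, ⟨.negSucc 16306, 34⟩, ⟨.ofNat 134495545, 35⟩, ⟨.negSucc 3444432, 36⟩, ⟨.negSucc 7155132, 33⟩, ⟨.negSucc 1054990, 32⟩, ⟨.ofNat 26914639, 36⟩, ⟨.negSucc 8867224, 36⟩], 0⟩,
   ⟨[⟨.negSucc 0, 36⟩, ⟨.ofNat 10306295, 36⟩, ⟨.negSucc 2264, 35⟩, ⟨.negSucc 11037984, 36⟩, ⟨.negSucc 14918, 32⟩, ⟨.ofNat 4790103, 36⟩, ⟨.negSucc 145860, 33⟩, ⟨.ofNat 388217, 35⟩, ⟨.negSucc 38540, 32⟩], 0⟩,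
   ⟨[⟨.ofNat 0, 0⟩, ⟨.ofNat 14439, 36⟩, ⟨.ofNat 51, 34⟩, ⟨.negSucc 5652, 36⟩, ⟨.ofNat 2367, 34⟩, ⟨.negSucc 22118, 35⟩, ⟨.ofNat 15669, 35⟩, ⟨.ofNat 945, 34⟩, ⟨.negSucc 2754, 35⟩], 0⟩,
   ⟨[⟨.ofNat 0, 0⟩], 0⟩,
   ⟨[⟨.ofNat 122699991017, 35⟩, ⟨.ofNat 8485, 35⟩, ⟨.negSucc 2692125542, 31⟩, ⟨.ofNat 2285137, 35⟩, ⟨.ofNat 50151206111, 36⟩, ⟨.ofNat 64721153, 36⟩, ⟨.negSucc 3095240312, 36⟩, ⟨.ofNat 46618679, 35⟩, ⟨.ofNat 18449225, 34⟩], 0⟩,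
   ⟨[⟨.negSucc 44549550470, 34⟩, ⟨.negSucc 15262, 36⟩, ⟨.ofNat 69526431303, 36⟩, ⟨.negSucc 2056046, 35⟩, ⟨.negSucc 40089359432, 36⟩, ⟨.negSucc 29146506, 35⟩, ⟨.ofNat 2562844897, 36⟩, ⟨.negSucc 84165110, 36⟩, ⟨.negSucc 68660268, 36⟩], 0⟩,
   ⟨[⟨.ofNat 1413567975, 34⟩, ⟨.ofNat 3807, 36⟩, ⟨.ofNat 32967019249, 36⟩, ⟨.ofNat 7971, 29⟩, ⟨.negSucc 7743451502, 36⟩, ⟨.ofNat 14274313, 36⟩, ⟨.negSucc 173906906, 34⟩, ⟨.ofNat 20044441, 36⟩, ⟨.ofNat 27013815, 35⟩], 0⟩,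
   ⟨[⟨.negSucc 2778437890, 35⟩, ⟨.negSucc 5996, 36⟩, ⟨.negSucc 1474828822, 33⟩, ⟨.negSucc 1606778, 36⟩, ⟨.ofNat 989131421, 35⟩, ⟨.negSucc 22463780, 36⟩, ⟨.negSucc 54393346, 36⟩, ⟨.negSucc 31479268, 36⟩, ⟨.negSucc 3467164, 36⟩], 0⟩,
   ⟨[⟨.negSucc 149735324, 36⟩, ⟨.ofNat 1079, 36⟩, ⟨.negSucc 186872614, 36⟩, ⟨.ofNat 291731, 36⟩, ⟨.ofNat 56456397, 33⟩, ⟨.ofNat 4174853, 36⟩, ⟨.negSucc 224757474, 36⟩, ⟨.ofNat 6144463, 36⟩, ⟨.ofNat 1053925, 35⟩], 0⟩,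
   ⟨[⟨.ofNat 9069771, 36⟩, ⟨.negSucc 178, 35⟩, ⟨.ofNat 6752399, 36⟩, ⟨.negSucc 96190, 36⟩, ⟨.negSucc 24029150, 36⟩, ⟨.negSucc 339006, 34⟩, ⟨.ofNat 9408103, 35⟩, ⟨.negSucc 120930, 32⟩, ⟨.negSucc 1518162, 35⟩], 0⟩,
   ⟨[⟨.ofNat 0, 0⟩, ⟨.negSucc 14, 35⟩, ⟨.ofNat 45271, 36⟩, ⟨.negSucc 8228, 36⟩, ⟨.negSucc 21930, 34⟩, ⟨.negSucc 117492, 36⟩, ⟨.ofNat 312677, 36⟩, ⟨.negSucc 172024, 36⟩, ⟨.ofNat 12083, 35⟩], 0⟩,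
   ⟨[⟨.negSucc 154, 36⟩, ⟨.negSucc 197431841208, 36⟩, ⟨.negSucc 336000, 35⟩, ⟨.ofNat 70165825499, 35⟩, ⟨.negSucc 4553366, 33⟩, ⟨.negSucc 2820490766, 34⟩, ⟨.negSucc 189438372, 36⟩, ⟨.ofNat 222702593, 34⟩, ⟨.negSucc 115021480, 36⟩], 0⟩,
   ⟨[⟨.ofNat 51, 36⟩, ⟨.negSucc 14230146870, 36⟩, ⟨.ofNat 27879, 33⟩, ⟨.ofNat 6536627189, 36⟩, ⟨.ofNat 12488679, 36⟩, ⟨.negSucc 580654688, 35⟩, ⟨.ofNat 69430305, 36⟩, ⟨.negSucc 102079756, 36⟩, ⟨.ofNat 48082293, 36⟩], 0⟩,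
   ⟨[⟨.ofNat 63, 36⟩, ⟨.ofNat 27260449705, 35⟩, ⟨.ofNat 271699, 36⟩, ⟨.negSucc 12733295726, 35⟩, ⟨.ofNat 7247243, 35⟩, ⟨.ofNat 2551280593, 35⟩, ⟨.ofNat 36355589, 35⟩, ⟨.negSucc 328062632, 36⟩, ⟨.ofNat 40501963, 36⟩], 0⟩,
   ⟨[⟨.negSucc 4, 34⟩, ⟨.negSucc 2276620014, 35⟩, ⟨.negSucc 21376, 34⟩, ⟨.ofNat 64742369, 35⟩, ⟨.negSucc 4698446, 36⟩, ⟨.negSucc 237469142, 34⟩, ⟨.negSucc 12576118, 35⟩, ⟨.ofNat 75122229, 35⟩, ⟨.negSucc 16236718, 36⟩], 0⟩]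

def LA0E_6 : List Sym :=
  [⟨[⟨.ofNat 9, 36⟩, ⟨.negSucc 1810298436, 36⟩, ⟨.ofNat 4629, 33⟩, ⟨.ofNat 402354627, 33⟩, ⟨.ofNat 1950763, 36⟩, ⟨.negSucc 554222836, 36⟩, ⟨.ofNat 594275, 32⟩, ⟨.negSucc 25534584, 36⟩, ⟨.ofNat 1232791, 34⟩], 0⟩,
   ⟨[⟨.ofNat 0, 0⟩, ⟨.ofNat 898243, 30⟩, ⟨.ofNat 763, 35⟩, ⟨.negSucc 65465662, 35⟩, ⟨.ofNat 5025, 32⟩, ⟨.ofNat 72373759, 36⟩, ⟨.ofNat 49045, 33⟩, ⟨.negSucc 10249956, 36⟩, ⟨.ofNat 205231, 36⟩], 0⟩,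
   ⟨[⟨.ofNat 5262233453, 36⟩, ⟨.ofNat 135, 32⟩, ⟨.ofNat 564595075, 31⟩, ⟨.ofNat 593927, 36⟩, ⟨.negSucc 7805771128, 36⟩, ⟨.ofNat 4420637, 35⟩, ⟨.ofNat 1907247521, 36⟩, ⟨.ofNat 14039357, 36⟩, ⟨.negSucc 2339908, 31⟩], 0⟩,
   ⟨[⟨.negSucc 16209039712, 35⟩, ⟨.ofNat 5203, 35⟩, ⟨.ofNat 21447913831, 36⟩, ⟨.ofNat 697575, 34⟩, ⟨.negSucc 1670092846, 34⟩, ⟨.ofNat 19540557, 35⟩, ⟨.negSucc 452198152, 35⟩, ⟨.ofNat 54990251, 36⟩, ⟨.ofNat 65291699, 36⟩], 0⟩,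
   ⟨[⟨.ofNat 1176641969, 35⟩, ⟨.negSucc 6392, 36⟩, ⟨.negSucc 153492298, 34⟩, ⟨.negSucc 860124, 35⟩, ⟨.ofNat 3118100633, 35⟩, ⟨.negSucc 24312372, 36⟩, ⟨.negSucc 471296946, 36⟩, ⟨.negSucc 2179634, 32⟩, ⟨.negSucc 499896, 32⟩], 0⟩,
   ⟨[⟨.negSucc 3717764028, 36⟩, ⟨.negSucc 288, 36⟩, ⟨.negSucc 267478258, 34⟩, ⟨.negSucc 39214, 35⟩, ⟨.negSucc 1886550244, 36⟩, ⟨.negSucc 1133674, 36⟩, ⟨.ofNat 28066911, 34⟩, ⟨.negSucc 1702740, 36⟩, ⟨.negSucc 7423758, 36⟩], 0⟩,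
   ⟨[⟨.ofNat 111906067, 36⟩, ⟨.negSucc 132, 36⟩, ⟨.negSucc 78633688, 36⟩, ⟨.negSucc 138, 28⟩, ⟨.ofNat 59166763, 35⟩, ⟨.negSucc 124982, 34⟩, ⟨.negSucc 47412766, 36⟩, ⟨.negSucc 354036, 35⟩, ⟨.ofNat 323645, 34⟩], 0⟩,
   ⟨[⟨.negSucc 36, 36⟩, ⟨.ofNat 44070677141, 36⟩, ⟨.negSucc 40594, 34⟩, ⟨.negSucc 7301918114, 35⟩, ⟨.negSucc 4445520, 35⟩, ⟨.ofNat 5373436837, 36⟩, ⟨.negSucc 737544, 30⟩, ⟨.negSucc 4109620, 31⟩, ⟨.negSucc 29840902, 36⟩], 0⟩,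
   ⟨[⟨.negSucc 6, 36⟩, ⟨.ofNat 409451473, 33⟩, ⟨.negSucc 31590, 36⟩, ⟨.negSucc 3961444116, 35⟩, ⟨.negSucc 753214, 35⟩, ⟨.negSucc 1058402254, 35⟩, ⟨.negSucc 5547446, 36⟩, ⟨.ofNat 38634851, 34⟩, ⟨.negSucc 422764, 36⟩], 0⟩,
   ⟨[⟨.ofNat 9, 35⟩, ⟨.negSucc 6519894590, 36⟩, ⟨.ofNat 19417, 34⟩, ⟨.ofNat 8790574247, 36⟩, ⟨.ofNat 1024949, 34⟩, ⟨.negSucc 415937226, 36⟩, ⟨.ofNat 20087179, 36⟩, ⟨.negSucc 75909924, 36⟩, ⟨.ofNat 2645609, 34⟩], 0⟩,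
   ⟨[⟨.ofNat 0, 0⟩, ⟨.ofNat 50935741, 35⟩, ⟨.ofNat 179, 33⟩, ⟨.negSucc 192578936, 35⟩, ⟨.ofNat 38415, 35⟩, ⟨.ofNat 118412469, 36⟩, ⟨.ofNat 390347, 36⟩, ⟨.negSucc 720968, 33⟩, ⟨.ofNat 112281, 35⟩], 0⟩,
   ⟨[⟨.negSucc 636216294, 35⟩, ⟨.negSucc 276, 33⟩, ⟨.ofNat 4524289, 32⟩, ⟨.negSucc 593134, 36⟩, ⟨.ofNat 3236288187, 35⟩, ⟨.negSucc 2066660, 34⟩, ⟨.negSucc 79917102, 36⟩, ⟨.negSucc 11509040, 36⟩, ⟨.negSucc 8855032, 35⟩], 0⟩,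
   ⟨[⟨.ofNat 1216745991, 34⟩, ⟨.ofNat 525, 35⟩, ⟨.negSucc 872950540, 33⟩, ⟨.ofNat 281309, 36⟩, ⟨.negSucc 1804854080, 36⟩, ⟨.ofNat 3927551, 36⟩, ⟨.ofNat 71539821, 36⟩, ⟨.ofNat 2744325, 35⟩, ⟨.ofNat 1123027, 35⟩], 0⟩,
   ⟨[⟨.negSucc 146716746, 36⟩, ⟨.negSucc 24, 34⟩, ⟨.ofNat 136831645, 36⟩, ⟨.negSucc 26670, 36⟩, ⟨.ofNat 145334319, 36⟩, ⟨.negSucc 186214, 35⟩, ⟨.negSucc 24783786, 35⟩, ⟨.negSucc 260330, 35⟩, ⟨.ofNat 486443, 35⟩], 0⟩,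
   ⟨[⟨.ofNat 1, 36⟩, ⟨.negSucc 308067450, 32⟩, ⟨.ofNat 2689, 36⟩, ⟨.ofNat 5718812995, 36⟩, ⟨.ofNat 123703, 36⟩, ⟨.ofNat 89443099, 36⟩, ⟨.ofNat 399471, 36⟩, ⟨.negSucc 14215842, 36⟩, ⟨.negSucc 17074, 34⟩], 0⟩,
   ⟨[⟨.ofNat 0, 0⟩, ⟨.ofNat 258705111, 36⟩, ⟨.negSucc 162, 35⟩, ⟨.negSucc 423048202, 36⟩, ⟨.negSucc 15872, 36⟩, ⟨.ofNat 64795115, 36⟩, ⟨.negSucc 31332, 35⟩, ⟨.ofNat 1026547, 34⟩, ⟨.negSucc 408, 31⟩], 0⟩]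

def LA0E_7 : List Sym :=
  [⟨[⟨.negSucc 258622812, 36⟩, ⟨.ofNat 3, 36⟩, ⟨.ofNat 215510605, 36⟩, ⟨.ofNat 171, 34⟩, ⟨.ofNat 26913069, 36⟩, ⟨.ofNat 10009, 36⟩, ⟨.negSucc 921064, 35⟩, ⟨.ofNat 15387, 36⟩, ⟨.negSucc 37190, 33⟩], 0⟩,
   ⟨[⟨.negSucc 20661422074, 34⟩, ⟨.negSucc 4858, 36⟩, ⟨.ofNat 13127024351, 35⟩, ⟨.negSucc 1307086, 36⟩, ⟨.negSucc 2171057486, 33⟩, ⟨.negSucc 18456302, 36⟩, ⟨.ofNat 1173430419, 36⟩, ⟨.negSucc 26424288, 36⟩, ⟨.negSucc 14453428, 35⟩], 0⟩,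
   ⟨[⟨.ofNat 11, 33⟩, ⟨.ofNat 26765973809, 34⟩, ⟨.ofNat 379299, 36⟩, ⟨.negSucc 47941580636, 35⟩, ⟨.ofNat 20291661, 36⟩, ⟨.ofNat 6133930899, 35⟩, ⟨.ofNat 102511361, 36⟩, ⟨.negSucc 351273970, 35⟩, ⟨.ofNat 29135681, 35⟩], 0⟩,
   ⟨[⟨.ofNat 9455913349, 36⟩, ⟨.negSucc 1054, 32⟩, ⟨.negSucc 46767624636, 36⟩, ⟨.negSucc 4544148, 36⟩, ⟨.ofNat 21908681477, 36⟩, ⟨.negSucc 64288240, 36⟩, ⟨.negSucc 1908558388, 36⟩, ⟨.negSucc 92419818, 36⟩, ⟨.ofNat 4261807, 35⟩], 0⟩,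
   ⟨[⟨.ofNat 105, 36⟩, ⟨.negSucc 6763943882, 34⟩, ⟨.ofNat 227879, 35⟩, ⟨.ofNat 15548555749, 35⟩, ⟨.ofNat 24159041, 36⟩, ⟨.negSucc 8162447312, 36⟩, ⟨.ofNat 29871531, 34⟩, ⟨.negSucc 298392058, 36⟩, ⟨.ofNat 8046577, 33⟩], 0⟩,
   ⟨[⟨.negSucc 1289868912, 33⟩, ⟨.negSucc 628, 34⟩, ⟨.ofNat 34323570485, 36⟩, ⟨.negSucc 169912, 34⟩, ⟨.negSucc 12801090890, 36⟩, ⟨.negSucc 9699682, 36⟩, ⟨.negSucc 4545070, 29⟩, ⟨.negSucc 1774316, 33⟩, ⟨.ofNat 4885727, 33⟩], 0⟩,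
   ⟨[⟨.ofNat 9, 36⟩, ⟨.ofNat 3100500167, 34⟩, ⟨.ofNat 37685, 36⟩, ⟨.negSucc 9108690376, 36⟩, ⟨.ofNat 15871, 29⟩, ⟨.negSucc 129142556, 34⟩, ⟨.ofNat 10428873, 36⟩, ⟨.ofNat 7586529, 35⟩, ⟨.ofNat 6127505, 36⟩], 0⟩,
   ⟨[⟨.ofNat 4247024953, 35⟩, ⟨.ofNat 51, 36⟩, ⟨.negSucc 5720500724, 36⟩, ⟨.ofNat 13591, 36⟩, ⟨.ofNat 2546199, 35⟩, ⟨.ofNat 92181, 35⟩, ⟨.ofNat 290975, 30⟩, ⟨.ofNat 241277, 36⟩, ⟨.ofNat 41741, 33⟩], 0⟩,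
   ⟨[⟨.ofNat 0, 0⟩, ⟨.ofNat 214321181, 36⟩, ⟨.negSucc 28, 33⟩, ⟨.negSucc 168821654, 36⟩, ⟨.negSucc 12302, 36⟩, ⟨.ofNat 18756405, 36⟩, ⟨.negSucc 60652, 36⟩, ⟨.negSucc 376016, 36⟩, ⟨.negSucc 32418, 36⟩], 0⟩]

def LA0E_L : List (List Sym) := [LA0E_0, LA0E_1, LA0E_2, LA0E_3, LA0E_4, LA0E_5, LA0E_6, LA0E_7]

noncomputable def LA0E (i : Nat) : Sym := sym16 LA0E_L i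

end Pool.H61.Rh
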