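import Pool.Agent.H47.K3.Defs

/-! # generated: level-3 table LA0R (polynomials in θ, exact) -/

set_option autoImplicit false

namespace Pool.H61.Rh

open Pool.H47.Kc Pool.H47.K3

def LA0R_0 : List Sym :=
  [⟨[⟨.ofNat 331191953, 29⟩, ⟨.ofNat 3, 32⟩, ⟨.negSucc 42813436, 32⟩, ⟨.ofNat 121, 31⟩, ⟨.negSucc 303922, 32⟩, ⟨.ofNat 393, 31⟩, ⟨.ofNat 9023, 31⟩], 0⟩,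
   ⟨[⟨.negSucc 1961069102, 31⟩, ⟨.negSucc 1856, 31⟩, ⟨.negSucc 114717020, 32⟩, ⟨.negSucc 85332, 30⟩, ⟨.ofNat 73007, 25⟩, ⟨.negSucc 1217028, 32⟩, ⟨.negSucc 1914004, 32⟩], 0⟩,
   ⟨[⟨.negSucc 258910018, 32⟩, ⟨.ofNat 51117, 32⟩, ⟨.negSucc 69704856, 32⟩, ⟨.ofNat 294215, 28⟩, ⟨.negSucc 52799580, 31⟩, ⟨.ofNat 16876181, 32⟩, ⟨.ofNat 22406809, 32⟩], 0⟩,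
   ⟨[⟨.ofNat 126140963, 32⟩, ⟨.negSucc 62374, 32⟩, ⟨.ofNat 91847123, 29⟩, ⟨.negSucc 5741356, 32⟩, ⟨.ofNat 169279223, 32⟩, ⟨.negSucc 20555206, 32⟩, ⟨.negSucc 34969842, 32⟩], 0⟩,
   ⟨[⟨.negSucc 297524290, 32⟩, ⟨.ofNat 3829, 30⟩, ⟨.negSucc 451238024, 31⟩, ⟨.ofNat 1412063, 32⟩, ⟨.ofNat 53616975, 32⟩, ⟨.ofNat 5077495, 32⟩, ⟨.negSucc 4645326, 32⟩], 0⟩,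
   ⟨[⟨.ofNat 12136309, 30⟩, ⟨.ofNat 4105, 31⟩, ⟨.ofNat 56304355, 32⟩, ⟨.ofNat 757479, 32⟩, ⟨.negSucc 44522890, 32⟩, ⟨.ofNat 1364671, 31⟩, ⟨.ofNat 7753851, 32⟩], 0⟩,
   ⟨[⟨.negSucc 1166174, 32⟩, ⟨.negSucc 2842, 31⟩, ⟨.negSucc 44090, 29⟩, ⟨.negSucc 523054, 32⟩, ⟨.ofNat 353813, 29⟩, ⟨.negSucc 1869880, 32⟩, ⟨.ofNat 332575, 32⟩], 0⟩,
   ⟨[⟨.ofNat 0, 0⟩], 0⟩,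
   ⟨[⟨.ofNat 5, 31⟩, ⟨.negSucc 329037314, 32⟩, ⟨.ofNat 3663, 30⟩, ⟨.ofNat 22570755, 31⟩, ⟨.ofNat 79287, 31⟩, ⟨.negSucc 114722, 31⟩, ⟨.negSucc 123774, 32⟩], 0⟩,
   ⟨[⟨.negSucc 290, 32⟩, ⟨.ofNat 628329689, 31⟩, ⟨.negSucc 461208, 32⟩, ⟨.ofNat 6026975, 27⟩, ⟨.negSucc 1027358, 29⟩, ⟨.ofNat 8116981, 31⟩, ⟨.negSucc 9731386, 32⟩], 0⟩,
   ⟨[⟨.ofNat 41, 32⟩, ⟨.negSucc 1652201440, 32⟩, ⟨.ofNat 16647, 30⟩, ⟨.negSucc 55271096, 28⟩, ⟨.ofNat 42581, 27⟩, ⟨.ofNat 57381543, 32⟩, ⟨.ofNat 1068601, 31⟩], 0⟩,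
   ⟨[⟨.ofNat 609, 32⟩, ⟨.ofNat 115173505, 30⟩, ⟨.ofNat 955999, 32⟩, ⟨.ofNat 990013001, 32⟩, ⟨.ofNat 4128087, 30⟩, ⟨.negSucc 157952476, 32⟩, ⟨.ofNat 18002929, 32⟩], 0⟩,
   ⟨[⟨.negSucc 82, 32⟩, ⟨.negSucc 6227588, 30⟩, ⟨.negSucc 66960, 31⟩, ⟨.ofNat 18259655, 30⟩, ⟨.negSucc 2618256, 32⟩, ⟨.ofNat 2519939, 29⟩, ⟨.negSucc 474756, 29⟩], 0⟩,
   ⟨[⟨.ofNat 21, 32⟩, ⟨.ofNat 118937107, 32⟩, ⟨.ofNat 33247, 32⟩, ⟨.negSucc 51324376, 30⟩, ⟨.ofNat 595127, 32⟩, ⟨.ofNat 2202707, 28⟩, ⟨.ofNat 709833, 32⟩], 0⟩,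
   ⟨[⟨.ofNat 73, 32⟩, ⟨.negSucc 1798208, 31⟩, ⟨.ofNat 28739, 30⟩, ⟨.ofNat 1871747, 30⟩, ⟨.ofNat 1974541, 32⟩, ⟨.negSucc 7429640, 32⟩, ⟨.ofNat 2117137, 32⟩], 0⟩,
   ⟨[⟨.negSucc 91686862, 30⟩, ⟨.negSucc 14746, 32⟩, ⟨.negSucc 350627820, 32⟩, ⟨.negSucc 170292, 29⟩, ⟨.negSucc 105140646, 31⟩, ⟨.negSucc 4925430, 32⟩, ⟨.ofNat 1225417, 31⟩], 0⟩]

def LA0R_1 : List Sym :=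
  [⟨[⟨.negSucc 1177649134, 32⟩, ⟨.negSucc 20512, 32⟩, ⟨.ofNat 2355386561, 32⟩, ⟨.negSucc 470316, 30⟩, ⟨.ofNat 225182691, 32⟩, ⟨.negSucc 833506, 29⟩, ⟨.negSucc 3583212, 30⟩], 0⟩,
   ⟨[⟨.ofNat 1729147353, 32⟩, ⟨.ofNat 6757, 31⟩, ⟨.negSucc 2011947326, 32⟩, ⟨.ofNat 311179, 30⟩, ⟨.ofNat 51241525, 31⟩, ⟨.ofNat 4464709, 32⟩, ⟨.ofNat 9321025, 32⟩], 0⟩,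
   ⟨[⟨.negSucc 126671782, 32⟩, ⟨.negSucc 1242, 31⟩, ⟨.ofNat 156710665, 32⟩, ⟨.negSucc 58904, 30⟩, ⟨.negSucc 314669482, 32⟩, ⟨.negSucc 909638, 32⟩, ⟨.ofNat 24677253, 32⟩], 0⟩,
   ⟨[⟨.ofNat 232145605, 32⟩, ⟨.negSucc 10130, 31⟩, ⟨.ofNat 15570977, 30⟩, ⟨.negSucc 466240, 30⟩, ⟨.ofNat 30568395, 30⟩, ⟨.negSucc 6676400, 32⟩, ⟨.negSucc 623722, 30⟩], 0⟩,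
   ⟨[⟨.negSucc 3498714, 31⟩, ⟨.ofNat 737, 30⟩, ⟨.ofNat 4872567, 32⟩, ⟨.ofNat 269553, 32⟩, ⟨.negSucc 4066668, 31⟩, ⟨.ofNat 236881, 30⟩, ⟨.ofNat 628405, 30⟩], 0⟩,
   ⟨[⟨.ofNat 233, 32⟩, ⟨.negSucc 132247032, 32⟩, ⟨.ofNat 45843, 29⟩, ⟨.negSucc 310273900, 31⟩, ⟨.ofNat 6432145, 32⟩, ⟨.ofNat 8357685, 30⟩, ⟨.ofNat 7299467, 32⟩], 0⟩,
   ⟨[⟨.ofNat 261, 32⟩, ⟨.ofNat 993695561, 32⟩, ⟨.ofNat 407881, 32⟩, ⟨.ofNat 306095555, 32⟩, ⟨.ofNat 429437, 28⟩, ⟨.negSucc 91682794, 32⟩, ⟨.ofNat 1736839, 30⟩], 0⟩,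
   ⟨[⟨.negSucc 200, 32⟩, ⟨.negSucc 383481238, 32⟩, ⟨.negSucc 78988, 30⟩, ⟨.ofNat 547747003, 32⟩, ⟨.negSucc 1370798, 30⟩, ⟨.ofNat 73018145, 32⟩, ⟨.negSucc 3028536, 31⟩], 0⟩,
   ⟨[⟨.ofNat 217, 32⟩, ⟨.ofNat 409911837, 32⟩, ⟨.ofNat 171577, 31⟩, ⟨.negSucc 552152002, 32⟩, ⟨.ofNat 3060957, 31⟩, ⟨.ofNat 19088299, 32⟩, ⟨.ofNat 7260987, 32⟩], 0⟩,
   ⟨[⟨.ofNat 19, 31⟩, ⟨.negSucc 6380812, 32⟩, ⟨.ofNat 60195, 32⟩, ⟨.ofNat 23729155, 32⟩, ⟨.ofNat 1037063, 32⟩, ⟨.negSucc 8933878, 32⟩, ⟨.ofNat 1121427, 32⟩], 0⟩,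
   ⟨[⟨.ofNat 471252481, 31⟩, ⟨.ofNat 3461, 32⟩, ⟨.negSucc 245598546, 30⟩, ⟨.ofNat 77869, 30⟩, ⟨.ofNat 79847665, 30⟩, ⟨.ofNat 1046237, 32⟩, ⟨.ofNat 6748725, 32⟩], 0⟩,
   ⟨[⟨.ofNat 480173, 25⟩, ⟨.negSucc 5890, 31⟩, ⟨.ofNat 31436509, 31⟩, ⟨.negSucc 1082594, 32⟩, ⟨.negSucc 77602774, 30⟩, ⟨.negSucc 3857534, 32⟩, ⟨.ofNat 1149709, 30⟩], 0⟩,
   ⟨[⟨.negSucc 152026614, 31⟩, ⟨.ofNat 5295, 32⟩, ⟨.ofNat 108620129, 30⟩, ⟨.ofNat 486293, 32⟩, ⟨.ofNat 13669015, 29⟩, ⟨.ofNat 1730625, 32⟩, ⟨.negSucc 1387462, 30⟩], 0⟩,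
   ⟨[⟨.ofNat 9174063, 32⟩, ⟨.ofNat 1107, 31⟩, ⟨.negSucc 8574082, 32⟩, ⟨.ofNat 25287, 29⟩, ⟨.negSucc 4827780, 31⟩, ⟨.ofNat 88725, 29⟩, ⟨.ofNat 2763567, 32⟩], 0⟩,
   ⟨[⟨.negSucc 52, 32⟩, ⟨.negSucc 647107202, 32⟩, ⟨.negSucc 82912, 32⟩, ⟨.ofNat 136156579, 30⟩, ⟨.negSucc 681706, 31⟩, ⟨.ofNat 2675923, 30⟩, ⟨.negSucc 639230, 31⟩], 0⟩,
   ⟨[⟨.ofNat 73, 32⟩, ⟨.ofNat 304707079, 32⟩, ⟨.ofNat 28449, 30⟩, ⟨.negSucc 354799318, 32⟩, ⟨.ofNat 478717, 30⟩, ⟨.negSucc 7066982, 32⟩, ⟨.ofNat 1931937, 32⟩], 0⟩]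

def LA0R_2 : List Sym :=
  [⟨[⟨.negSucc 30, 32⟩, ⟨.negSucc 16186096, 32⟩, ⟨.negSucc 12240, 30⟩, ⟨.ofNat 26758121, 32⟩, ⟨.negSucc 419802, 31⟩, ⟨.negSucc 702880, 30⟩, ⟨.negSucc 223974, 30⟩], 0⟩,
   ⟨[⟨.negSucc 531126396, 32⟩, ⟨.negSucc 6, 27⟩, ⟨.ofNat 22532377, 28⟩, ⟨.negSucc 20876, 32⟩, ⟨.negSucc 1732242, 32⟩, ⟨.negSucc 77560, 32⟩, ⟨.negSucc 38532, 27⟩], 0⟩,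
   ⟨[⟨.ofNat 16171493, 32⟩, ⟨.negSucc 366, 31⟩, ⟨.negSucc 6723324, 31⟩, ⟨.negSucc 67256, 32⟩, ⟨.negSucc 95138, 28⟩, ⟨.negSucc 59430, 30⟩, ⟨.ofNat 249947, 32⟩], 0⟩,
   ⟨[⟨.ofNat 1, 30⟩, ⟨.negSucc 13401700, 32⟩, ⟨.ofNat 5797, 32⟩, ⟨.ofNat 5257977, 31⟩, ⟨.ofNat 6117, 28⟩, ⟨.negSucc 1307286, 32⟩, ⟨.ofNat 49905, 31⟩], 0⟩,
   ⟨[⟨.negSucc 1696096946, 32⟩, ⟨.ofNat 7429, 32⟩, ⟨.ofNat 1235174747, 32⟩, ⟨.ofNat 686069, 32⟩, ⟨.negSucc 31960168, 31⟩, ⟨.ofNat 2478241, 32⟩, ⟨.ofNat 625281, 30⟩], 0⟩,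
   ⟨[⟨.ofNat 266030207, 29⟩, ⟨.negSucc 94698, 31⟩, ⟨.negSucc 2527035858, 32⟩, ⟨.negSucc 8747198, 31⟩, ⟨.ofNat 86255897, 29⟩, ⟨.negSucc 31616354, 31⟩, ⟨.negSucc 13247070, 30⟩], 0⟩,
   ⟨[⟨.ofNat 531654085, 31⟩, ⟨.ofNat 58031, 31⟩, ⟨.negSucc 531842050, 31⟩, ⟨.ofNat 5360779, 31⟩, ⟨.negSucc 345042042, 32⟩, ⟨.ofNat 605689, 26⟩, ⟨.ofNat 40889233, 32⟩], 0⟩,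
   ⟨[⟨.negSucc 503477398, 30⟩, ⟨.ofNat 7655, 28⟩, ⟨.ofNat 1951661577, 31⟩, ⟨.ofNat 11271483, 32⟩, ⟨.negSucc 407627306, 31⟩, ⟨.ofNat 40331047, 32⟩, ⟨.ofNat 65948851, 32⟩], 0⟩,
   ⟨[⟨.ofNat 707092091, 32⟩, ⟨.negSucc 96772, 32⟩, ⟨.negSucc 1536227454, 32⟩, ⟨.negSucc 8924646, 32⟩, ⟨.ofNat 605389715, 32⟩, ⟨.negSucc 16059742, 31⟩, ⟨.negSucc 7806680, 29⟩], 0⟩,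
   ⟨[⟨.negSucc 4933472, 30⟩, ⟨.ofNat 22857, 31⟩, ⟨.ofNat 26312691, 31⟩, ⟨.ofNat 4204711, 32⟩, ⟨.negSucc 50168988, 32⟩, ⟨.ofNat 3755785, 30⟩, ⟨.ofNat 1093783, 31⟩], 0⟩,
   ⟨[⟨.ofNat 0, 0⟩], 0⟩,
   ⟨[⟨.negSucc 82, 29⟩, ⟨.ofNat 442371641, 29⟩, ⟨.negSucc 1052612, 32⟩, ⟨.negSucc 862531918, 31⟩, ⟨.negSucc 9464478, 31⟩, ⟨.ofNat 148878095, 32⟩, ⟨.negSucc 5735260, 30⟩], 0⟩,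
   ⟨[⟨.ofNat 4575, 32⟩, ⟨.negSucc 555505914, 31⟩, ⟨.ofNat 7243535, 32⟩, ⟨.ofNat 3007945043, 32⟩, ⟨.ofNat 16178847, 29⟩, ⟨.negSucc 100809688, 29⟩, ⟨.ofNat 154344529, 32⟩], 0⟩,
   ⟨[⟨.negSucc 3384, 32⟩, ⟨.negSucc 902058830, 30⟩, ⟨.negSucc 2683680, 31⟩, ⟨.negSucc 165192990, 32⟩, ⟨.negSucc 96492010, 32⟩, ⟨.ofNat 112938997, 30⟩, ⟨.negSucc 58427208, 31⟩], 0⟩,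
   ⟨[⟨.negSucc 1114, 32⟩, ⟨.ofNat 455542065, 29⟩, ⟨.negSucc 1723256, 32⟩, ⟨.negSucc 3023963778, 32⟩, ⟨.negSucc 27655670, 32⟩, ⟨.ofNat 250781271, 31⟩, ⟨.negSucc 23618394, 32⟩], 0⟩,
   ⟨[⟨.ofNat 305, 31⟩, ⟨.negSucc 2254955862, 32⟩, ⟨.ofNat 959329, 32⟩, ⟨.ofNat 1875892333, 32⟩, ⟨.ofNat 8325933, 31⟩, ⟨.negSucc 349815938, 32⟩, ⟨.ofNat 18407799, 32⟩], 0⟩]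

def LA0R_3 : List Sym :=
  [⟨[⟨.negSucc 576, 32⟩, ⟨.ofNat 32945673, 31⟩, ⟨.negSucc 905728, 32⟩, ⟨.negSucc 85218332, 32⟩, ⟨.negSucc 15555106, 32⟩, ⟨.ofNat 3843757, 28⟩, ⟨.negSucc 16672006, 32⟩], 0⟩,
   ⟨[⟨.ofNat 3773410023, 32⟩, ⟨.negSucc 43566, 31⟩, ⟨.negSucc 5563532272, 32⟩, ⟨.negSucc 8025270, 32⟩, ⟨.ofNat 865300823, 32⟩, ⟨.negSucc 28779580, 32⟩, ⟨.negSucc 22608046, 31⟩], 0⟩,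
   ⟨[⟨.negSucc 2146831602, 31⟩, ⟨.ofNat 245475, 32⟩, ⟨.ofNat 1600051231, 30⟩, ⟨.ofNat 2817677, 29⟩, ⟨.negSucc 978483598, 31⟩, ⟨.ofNat 80177077, 32⟩, ⟨.ofNat 101781561, 31⟩], 0⟩,
   ⟨[⟨.negSucc 2146744004, 32⟩, ⟨.negSucc 112618, 31⟩, ⟨.ofNat 1844089547, 32⟩, ⟨.negSucc 5176176, 30⟩, ⟨.ofNat 59130647, 28⟩, ⟨.negSucc 4616072, 28⟩, ⟨.negSucc 163687608, 32⟩], 0⟩,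
   ⟨[⟨.ofNat 1330842765, 31⟩, ⟨.ofNat 86729, 31⟩, ⟨.negSucc 1861711042, 31⟩, ⟨.ofNat 15955753, 32⟩, ⟨.ofNat 319640007, 32⟩, ⟨.ofNat 57021257, 32⟩, ⟨.ofNat 6360135, 32⟩], 0⟩,
   ⟨[⟨.negSucc 78933488, 32⟩, ⟨.negSucc 20480, 32⟩, ⟨.ofNat 6432001, 28⟩, ⟨.negSucc 234398, 29⟩, ⟨.negSucc 5756842, 30⟩, ⟨.negSucc 6615608, 32⟩, ⟨.ofNat 1038139, 32⟩], 0⟩,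
   ⟨[⟨.ofNat 91, 29⟩, ⟨.negSucc 7150156734, 32⟩, ⟨.ofNat 1142147, 32⟩, ⟨.ofNat 1553472615, 31⟩, ⟨.ofNat 19676561, 32⟩, ⟨.negSucc 260521406, 32⟩, ⟨.ofNat 10635623, 31⟩], 0⟩,
   ⟨[⟨.negSucc 708, 32⟩, ⟨.ofNat 3440792979, 32⟩, ⟨.negSucc 273688, 30⟩, ⟨.negSucc 250356864, 28⟩, ⟨.negSucc 8762556, 31⟩, ⟨.ofNat 602406459, 32⟩, ⟨.negSucc 7429202, 31⟩], 0⟩,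
   ⟨[⟨.ofNat 673, 32⟩, ⟨.ofNat 287748629, 31⟩, ⟨.ofNat 522245, 31⟩, ⟨.ofNat 1591590747, 32⟩, ⟨.ofNat 4280647, 30⟩, ⟨.negSucc 180035418, 31⟩, ⟨.ofNat 15873113, 32⟩], 0⟩,
   ⟨[⟨.negSucc 656, 32⟩, ⟨.ofNat 43122443, 32⟩, ⟨.negSucc 257498, 30⟩, ⟨.negSucc 60601644, 31⟩, ⟨.negSucc 17658064, 32⟩, ⟨.ofNat 4699059, 28⟩, ⟨.negSucc 2353922, 29⟩], 0⟩,
   ⟨[⟨.negSucc 2224053896, 32⟩, ⟨.negSucc 10674, 31⟩, ⟨.ofNat 2246167525, 31⟩, ⟨.negSucc 1970420, 32⟩, ⟨.negSucc 102735060, 30⟩, ⟨.negSucc 3552962, 31⟩, ⟨.ofNat 3122311, 31⟩], 0⟩,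
   ⟨[⟨.ofNat 1330083381, 31⟩, ⟨.ofNat 21439, 31⟩, ⟨.negSucc 3802470724, 32⟩, ⟨.ofNat 3935229, 32⟩, ⟨.ofNat 410503991, 32⟩, ⟨.ofNat 13976177, 32⟩, ⟨.ofNat 3386909, 31⟩], 0⟩,
   ⟨[⟨.negSucc 78933492, 32⟩, ⟨.negSucc 20116, 32⟩, ⟨.ofNat 175988813, 32⟩, ⟨.negSucc 1841978, 32⟩, ⟨.negSucc 38870248, 32⟩, ⟨.negSucc 1624950, 30⟩, ⟨.ofNat 1911221, 32⟩], 0⟩,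
   ⟨[⟨.ofNat 75, 31⟩, ⟨.ofNat 2840299807, 32⟩, ⟨.ofNat 118271, 31⟩, ⟨.negSucc 35197764, 29⟩, ⟨.ofNat 259251, 28⟩, ⟨.negSucc 20862702, 32⟩, ⟨.ofNat 4709083, 32⟩], 0⟩,
   ⟨[⟨.negSucc 78, 32⟩, ⟨.negSucc 22768902, 32⟩, ⟨.negSucc 124266, 32⟩, ⟨.negSucc 35984956, 32⟩, ⟨.negSucc 2102956, 32⟩, ⟨.ofNat 427651, 27⟩, ⟨.negSucc 2159376, 32⟩], 0⟩,
   ⟨[⟨.negSucc 0, 30⟩, ⟨.ofNat 91, 30⟩, ⟨.ofNat 73076797, 32⟩, ⟨.ofNat 33213, 32⟩, ⟨.negSucc 7921438, 31⟩, ⟨.ofNat 115805, 32⟩, ⟨.ofNat 436541, 31⟩], 0⟩]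

def LA0R_4 : List Sym :=
  [⟨[⟨.negSucc 40, 29⟩, ⟨.ofNat 137622929, 29⟩, ⟨.negSucc 65120, 29⟩, ⟨.negSucc 61879432, 30⟩, ⟨.negSucc 9434954, 32⟩, ⟨.ofNat 33677681, 31⟩, ⟨.negSucc 11636152, 32⟩], 0⟩,
   ⟨[⟨.ofNat 451, 31⟩, ⟨.negSucc 2949723506, 32⟩, ⟨.ofNat 179045, 29⟩, ⟨.ofNat 823072185, 32⟩, ⟨.ofNat 12980001, 31⟩, ⟨.negSucc 191374528, 32⟩, ⟨.ofNat 32078003, 32⟩], 0⟩,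
   ⟨[⟨.ofNat 335, 32⟩, ⟨.negSucc 795083948, 32⟩, ⟨.ofNat 263333, 31⟩, ⟨.ofNat 462667989, 32⟩, ⟨.ofNat 9077927, 32⟩, ⟨.negSucc 132745094, 32⟩, ⟨.ofNat 9822369, 32⟩], 0⟩,
   ⟨[⟨.negSucc 444, 31⟩, ⟨.ofNat 3834469147, 32⟩, ⟨.negSucc 1403788, 32⟩, ⟨.negSucc 1818332358, 32⟩, ⟨.negSucc 24730026, 32⟩, ⟨.ofNat 359002857, 32⟩, ⟨.negSucc 28446790, 32⟩], 0⟩,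
   ⟨[⟨.ofNat 589, 32⟩, ⟨.negSucc 900941164, 32⟩, ⟨.ofNat 927969, 32⟩, ⟨.ofNat 592996479, 32⟩, ⟨.ofNat 16297193, 32⟩, ⟨.negSucc 127795750, 32⟩, ⟨.ofNat 2323263, 29⟩], 0⟩,
   ⟨[⟨.negSucc 64, 31⟩, ⟨.ofNat 1494523, 28⟩, ⟨.negSucc 101806, 31⟩, ⟨.negSucc 13387938, 31⟩, ⟨.negSucc 3517432, 32⟩, ⟨.ofNat 15377129, 32⟩, ⟨.negSucc 3833326, 32⟩], 0⟩,
   ⟨[⟨.ofNat 0, 0⟩], 0⟩,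
   ⟨[⟨.ofNat 131084411, 30⟩, ⟨.negSucc 46104, 30⟩, ⟨.negSucc 1603482624, 32⟩, ⟨.negSucc 17018496, 32⟩, ⟨.ofNat 6594441, 25⟩, ⟨.negSucc 61355038, 32⟩, ⟨.negSucc 31430778, 31⟩], 0⟩,
   ⟨[⟨.ofNat 204023883, 32⟩, ⟨.ofNat 228937, 32⟩, ⟨.ofNat 1197551423, 32⟩, ⟨.ofNat 1320525, 28⟩, ⟨.negSucc 725490388, 32⟩, ⟨.ofNat 38094907, 31⟩, ⟨.ofNat 80424327, 32⟩], 0⟩,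
   ⟨[⟨.negSucc 673427992, 30⟩, ⟨.ofNat 683, 31⟩, ⟨.ofNat 688217989, 30⟩, ⟨.ofNat 96881, 32⟩, ⟨.negSucc 663751286, 32⟩, ⟨.ofNat 31587, 31⟩, ⟨.ofNat 25547473, 32⟩], 0⟩,
   ⟨[⟨.ofNat 164685741, 30⟩, ⟨.negSucc 7626, 30⟩, ⟨.negSucc 206364494, 28⟩, ⟨.negSucc 1409734, 31⟩, ⟨.ofNat 39009231, 28⟩, ⟨.negSucc 5102784, 31⟩, ⟨.negSucc 13514586, 30⟩], 0⟩,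
   ⟨[⟨.ofNat 625694423, 32⟩, ⟨.ofNat 35541, 32⟩, ⟨.ofNat 1555384473, 32⟩, ⟨.ofNat 102213, 27⟩, ⟨.negSucc 78905072, 31⟩, ⟨.ofNat 365737, 27⟩, ⟨.ofNat 1359921, 31⟩], 0⟩,
   ⟨[⟨.negSucc 9793454, 31⟩, ⟨.ofNat 13, 32⟩, ⟨.negSucc 33647122, 32⟩, ⟨.ofNat 727, 31⟩, ⟨.ofNat 13847839, 31⟩, ⟨.ofNat 7361, 32⟩, ⟨.negSucc 1640770, 32⟩], 0⟩,
   ⟨[⟨.ofNat 241, 28⟩, ⟨.negSucc 982802834, 31⟩, ⟨.ofNat 6092321, 32⟩, ⟨.ofNat 1664786123, 32⟩, ⟨.ofNat 6740547, 28⟩, ⟨.negSucc 774085494, 32⟩, ⟨.ofNat 125570721, 32⟩], 0⟩,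
   ⟨[⟨.negSucc 3606, 32⟩, ⟨.ofNat 2319686319, 31⟩, ⟨.negSucc 2852082, 31⟩, ⟨.negSucc 1185934072, 31⟩, ⟨.negSucc 101461318, 32⟩, ⟨.ofNat 660063813, 32⟩, ⟨.negSucc 14951610, 29⟩], 0⟩,
   ⟨[⟨.ofNat 11, 32⟩, ⟨.ofNat 1015687957, 31⟩, ⟨.ofNat 41761, 32⟩, ⟨.ofNat 110278121, 31⟩, ⟨.ofNat 2544661, 32⟩, ⟨.ofNat 144478913, 32⟩, ⟨.ofNat 262787, 27⟩], 0⟩]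

def LA0R_5 : List Sym :=
  [⟨[⟨.ofNat 135, 32⟩, ⟨.negSucc 3742838492, 32⟩, ⟨.ofNat 6615, 27⟩, ⟨.ofNat 625182033, 32⟩, ⟨.ofNat 3575271, 32⟩, ⟨.negSucc 73265370, 31⟩, ⟨.ofNat 228609, 28⟩], 0⟩,
   ⟨[⟨.negSucc 152, 31⟩, ⟨.ofNat 32148135, 30⟩, ⟨.negSucc 480080, 32⟩, ⟨.negSucc 22448028, 31⟩, ⟨.negSucc 8257212, 32⟩, ⟨.ofNat 23662407, 32⟩, ⟨.negSucc 555448, 28⟩], 0⟩,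
   ⟨[⟨.negSucc 55874926, 30⟩, ⟨.ofNat 29599, 30⟩, ⟨.ofNat 1823991821, 31⟩, ⟨.ofNat 5421489, 31⟩, ⟨.negSucc 1452742466, 32⟩, ⟨.ofNat 19140895, 31⟩, ⟨.ofNat 152703757, 32⟩], 0⟩,
   ⟨[⟨.ofNat 837928743, 32⟩, ⟨.negSucc 134858, 32⟩, ⟨.negSucc 522249566, 29⟩, ⟨.negSucc 12389724, 32⟩, ⟨.ofNat 388210965, 31⟩, ⟨.negSucc 44127904, 32⟩, ⟨.negSucc 104401374, 32⟩], 0⟩,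
   ⟨[⟨.ofNat 322081801, 32⟩, ⟨.ofNat 108387, 32⟩, ⟨.ofNat 560684719, 32⟩, ⟨.ofNat 4985107, 31⟩, ⟨.ofNat 219065643, 32⟩, ⟨.ofNat 17815959, 31⟩, ⟨.ofNat 174741, 28⟩], 0⟩,
   ⟨[⟨.negSucc 5288502, 31⟩, ⟨.negSucc 11298, 32⟩, ⟨.negSucc 24517542, 30⟩, ⟨.negSucc 1034808, 32⟩, ⟨.ofNat 22614863, 32⟩, ⟨.negSucc 14270, 24⟩, ⟨.ofNat 2618991, 32⟩], 0⟩,
   ⟨[⟨.negSucc 204, 32⟩, ⟨.ofNat 1621065025, 32⟩, ⟨.negSucc 301996, 32⟩, ⟨.negSucc 1196302698, 32⟩, ⟨.negSucc 1887454, 31⟩, ⟨.ofNat 214763013, 31⟩, ⟨.ofNat 299587, 32⟩], 0⟩,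
   ⟨[⟨.ofNat 561, 32⟩, ⟨.negSucc 3717938454, 32⟩, ⟨.ofNat 218365, 30⟩, ⟨.ofNat 78327115, 29⟩, ⟨.ofNat 14548875, 32⟩, ⟨.negSucc 93496554, 31⟩, ⟨.ofNat 1777585, 29⟩], 0⟩,
   ⟨[⟨.negSucc 204, 31⟩, ⟨.ofNat 30284085, 30⟩, ⟨.negSucc 643398, 32⟩, ⟨.negSucc 71148310, 32⟩, ⟨.negSucc 5514660, 31⟩, ⟨.ofNat 20356681, 31⟩, ⟨.negSucc 734948, 28⟩], 0⟩,
   ⟨[⟨.negSucc 73978116, 30⟩, ⟨.ofNat 2941, 28⟩, ⟨.negSucc 530752168, 31⟩, ⟨.ofNat 4319397, 32⟩, ⟨.ofNat 384349713, 32⟩, ⟨.ofNat 959227, 28⟩, ⟨.ofNat 7344823, 32⟩], 0⟩,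
   ⟨[⟨.ofNat 563119, 28⟩, ⟨.negSucc 11312, 32⟩, ⟨.negSucc 64423048, 32⟩, ⟨.negSucc 1036262, 32⟩, ⟨.negSucc 5080814, 32⟩, ⟨.negSucc 3660736, 32⟩, ⟨.ofNat 2129881, 31⟩], 0⟩,
   ⟨[⟨.negSucc 12, 29⟩, ⟨.negSucc 932024, 29⟩, ⟨.negSucc 81658, 31⟩, ⟨.negSucc 6563062, 30⟩, ⟨.negSucc 2772108, 32⟩, ⟨.ofNat 4262739, 30⟩, ⟨.negSucc 2871998, 32⟩], 0⟩,
   ⟨[⟨.negSucc 24124226, 32⟩, ⟨.ofNat 9, 32⟩, ⟨.negSucc 7543886, 31⟩, ⟨.ofNat 405, 31⟩, ⟨.ofNat 1049707, 32⟩, ⟨.ofNat 1365, 31⟩, ⟨.ofNat 27405, 32⟩], 0⟩,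
   ⟨[⟨.ofNat 187831839, 32⟩, ⟨.negSucc 270, 30⟩, ⟨.negSucc 15905462, 32⟩, ⟨.negSucc 49716, 31⟩, ⟨.negSucc 4610558, 32⟩, ⟨.negSucc 352522, 32⟩, ⟨.negSucc 1528138, 32⟩], 0⟩,
   ⟨[⟨.negSucc 83158534, 32⟩, ⟨.ofNat 2371, 30⟩, ⟨.negSucc 25447284, 31⟩, ⟨.ofNat 870185, 32⟩, ⟨.negSucc 42553092, 31⟩, ⟨.ofNat 3088697, 32⟩, ⟨.ofNat 3507781, 30⟩], 0⟩,
   ⟨[⟨.ofNat 70788499, 31⟩, ⟨.negSucc 5670, 31⟩, ⟨.ofNat 47386991, 29⟩, ⟨.negSucc 521610, 31⟩, ⟨.negSucc 17646082, 32⟩, ⟨.negSucc 1863728, 31⟩, ⟨.ofNat 13791, 32⟩], 0⟩]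

def LA0R_6 : List Sym :=
  [⟨[⟨.negSucc 4896726, 32⟩, ⟨.ofNat 3, 32⟩, ⟨.negSucc 8411780, 32⟩, ⟨.ofNat 363, 32⟩, ⟨.ofNat 6923919, 32⟩, ⟨.ofNat 115, 28⟩, ⟨.negSucc 410192, 32⟩], 0⟩,
   ⟨[⟨.ofNat 15, 31⟩, ⟨.negSucc 766784, 24⟩, ⟨.ofNat 47199, 32⟩, ⟨.negSucc 5371642, 28⟩, ⟨.ofNat 819097, 32⟩, ⟨.negSucc 2947634, 31⟩, ⟨.ofNat 904147, 32⟩], 0⟩,
   ⟨[⟨.negSucc 2, 29⟩, ⟨.ofNat 82745337, 29⟩, ⟨.negSucc 2416, 28⟩, ⟨.ofNat 26773905, 30⟩, ⟨.negSucc 352886, 31⟩, ⟨.negSucc 12018538, 32⟩, ⟨.negSucc 441946, 31⟩], 0⟩,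
   ⟨[⟨.ofNat 11, 31⟩, ⟨.negSucc 386117986, 32⟩, ⟨.ofNat 36855, 32⟩, ⟨.negSucc 133641082, 31⟩, ⟨.ofNat 191397, 30⟩, ⟨.ofNat 6956079, 30⟩, ⟨.ofNat 1226049, 32⟩], 0⟩,
   ⟨[⟨.ofNat 17, 30⟩, ⟨.ofNat 15675299, 32⟩, ⟨.ofNat 26603, 30⟩, ⟨.ofNat 10080569, 32⟩, ⟨.ofNat 912237, 31⟩, ⟨.negSucc 4729712, 31⟩, ⟨.ofNat 973103, 31⟩], 0⟩,
   ⟨[⟨.negSucc 2743520, 31⟩, ⟨.negSucc 232, 32⟩, ⟨.negSucc 154694792, 30⟩, ⟨.negSucc 676, 27⟩, ⟨.negSucc 3453496, 30⟩, ⟨.negSucc 79838, 32⟩, ⟨.ofNat 885037, 32⟩], 0⟩,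
   ⟨[⟨.negSucc 743728860, 32⟩, ⟨.negSucc 1330, 32⟩, ⟨.ofNat 21838037, 27⟩, ⟨.negSucc 121774, 32⟩, ⟨.negSucc 8716710, 32⟩, ⟨.negSucc 107246, 30⟩, ⟨.negSucc 574940, 32⟩], 0⟩,
   ⟨[⟨.ofNat 2748231, 29⟩, ⟨.ofNat 573, 30⟩, ⟨.negSucc 20916882, 31⟩, ⟨.ofNat 52433, 30⟩, ⟨.ofNat 4486639, 32⟩, ⟨.ofNat 369359, 31⟩, ⟨.ofNat 402703, 31⟩], 0⟩,
   ⟨[⟨.ofNat 1, 32⟩, ⟨.negSucc 176544078, 30⟩, ⟨.ofNat 863, 31⟩, ⟨.ofNat 83518281, 32⟩, ⟨.ofNat 16421, 31⟩, ⟨.negSucc 968902, 32⟩, ⟨.ofNat 11261, 30⟩], 0⟩,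
   ⟨[⟨.negSucc 2, 31⟩, ⟨.ofNat 239261, 28⟩, ⟨.negSucc 9762, 32⟩, ⟨.ofNat 304147, 29⟩, ⟨.negSucc 20910, 29⟩, ⟨.ofNat 841531, 32⟩, ⟨.negSucc 178154, 32⟩], 0⟩,
   ⟨[⟨.ofNat 1, 32⟩, ⟨.negSucc 90, 32⟩, ⟨.negSucc 18269198, 32⟩, ⟨.negSucc 8302, 32⟩, ⟨.ofNat 3960719, 32⟩, ⟨.negSucc 28950, 32⟩, ⟨.negSucc 218270, 32⟩], 0⟩]

def LA0R_L : List (List Sym) := [LA0R_0, LA0R_1, LA0R_2, LA0R_3, LA0R_4, LA0R_5, LA0R_6]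

noncomputable def LA0R (i : Nat) : Sym := sym16 LA0R_L i

end Pool.H61.Rh
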