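import Pool.Agent.H47.K3.Defs

/-! # generated: level-3 table LA1E (polynomials in θ, exact) -/

set_option autoImplicit false

namespace Pool.H61.Rh

open Pool.H47.Kc Pool.H47.K3

def LA1E_0 : List Sym :=
  [⟨[⟨.ofNat 866329433, 36⟩, ⟨.ofNat 109531999, 34⟩, ⟨.negSucc 498784790, 36⟩, ⟨.negSucc 694712, 30⟩, ⟨.ofNat 13648035, 35⟩, ⟨.ofNat 71761, 33⟩, ⟨.negSucc 636438, 36⟩, ⟨.negSucc 5812, 36⟩, ⟨.ofNat 5619, 35⟩], 0⟩,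
   ⟨[⟨.negSucc 1011202794, 36⟩, ⟨.ofNat 666531321, 35⟩, ⟨.ofNat 421441295, 34⟩, ⟨.negSucc 414125064, 35⟩, ⟨.negSucc 167716734, 36⟩, ⟨.ofNat 4544179, 35⟩, ⟨.ofNat 4105951, 35⟩, ⟨.ofNat 2094275, 36⟩, ⟨.negSucc 602464, 36⟩], 0⟩,
   ⟨[⟨.negSucc 1539577548, 36⟩, ⟨.negSucc 2934985604, 36⟩, ⟨.ofNat 156181735, 32⟩, ⟨.ofNat 2765068879, 36⟩, ⟨.negSucc 61247102, 36⟩, ⟨.negSucc 442101632, 35⟩, ⟨.ofNat 8296361, 34⟩, ⟨.ofNat 65231219, 36⟩, ⟨.negSucc 9374474, 36⟩], 0⟩,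
   ⟨[⟨.ofNat 6058709051, 36⟩, ⟨.negSucc 1938269356, 35⟩, ⟨.negSucc 1691084978, 34⟩, ⟨.ofNat 4339237049, 36⟩, ⟨.ofNat 1486390763, 35⟩, ⟨.negSucc 721166684, 35⟩, ⟨.ofNat 83599437, 36⟩, ⟨.ofNat 30855315, 36⟩, ⟨.negSucc 1670288, 36⟩], 0⟩,
   ⟨[⟨.ofNat 6256221151, 36⟩, ⟨.ofNat 3131525189, 36⟩, ⟨.negSucc 7022456434, 36⟩, ⟨.negSucc 5212306454, 36⟩, ⟨.ofNat 3320149615, 36⟩, ⟨.ofNat 1259785747, 36⟩, ⟨.ofNat 65584027, 36⟩, ⟨.negSucc 89602758, 36⟩, ⟨.ofNat 2433179, 36⟩], 0⟩,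
   ⟨[⟨.ofNat 337383983, 36⟩, ⟨.ofNat 83449849, 32⟩, ⟨.ofNat 736434649, 36⟩, ⟨.negSucc 1710866650, 36⟩, ⟨.ofNat 14216591, 34⟩, ⟨.ofNat 121229951, 36⟩, ⟨.ofNat 59564077, 36⟩, ⟨.ofNat 304691, 34⟩, ⟨.negSucc 4135588, 36⟩], 0⟩,
   ⟨[⟨.negSucc 16406408, 36⟩, ⟨.negSucc 838436316, 35⟩, ⟨.negSucc 2888666, 36⟩, ⟨.ofNat 2886885373, 36⟩, ⟨.negSucc 2754944, 36⟩, ⟨.negSucc 259571276, 35⟩, ⟨.ofNat 1938029, 36⟩, ⟨.ofNat 1500745, 34⟩, ⟨.negSucc 1535642, 36⟩], 0⟩,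
   ⟨[⟨.ofNat 0, 0⟩, ⟨.ofNat 24866935, 35⟩, ⟨.ofNat 1081, 36⟩, ⟨.negSucc 113318042, 36⟩, ⟨.ofNat 27409, 35⟩, ⟨.ofNat 15647413, 34⟩, ⟨.ofNat 475, 27⟩, ⟨.negSucc 2162592, 34⟩, ⟨.ofNat 93745, 36⟩], 0⟩,
   ⟨[⟨.negSucc 1535288566, 35⟩, ⟨.ofNat 1069807325, 35⟩, ⟨.ofNat 1530540261, 36⟩, ⟨.negSucc 1448998612, 35⟩, ⟨.ofNat 620089547, 36⟩, ⟨.negSucc 148831696, 36⟩, ⟨.ofNat 17259221, 35⟩, ⟨.ofNat 2955425, 34⟩, ⟨.negSucc 1985352, 35⟩], 0⟩,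
   ⟨[⟨.negSucc 60983454, 31⟩, ⟨.negSucc 5821377072, 36⟩, ⟨.ofNat 1119518265, 36⟩, ⟨.negSucc 137025830, 36⟩, ⟨.negSucc 341973220, 34⟩, ⟨.negSucc 118737820, 35⟩, ⟨.ofNat 5872623, 31⟩, ⟨.ofNat 12774105, 36⟩, ⟨.negSucc 29992, 28⟩], 0⟩,
   ⟨[⟨.ofNat 447275561, 35⟩, ⟨.negSucc 12254176262, 36⟩, ⟨.negSucc 622706222, 34⟩, ⟨.ofNat 7767042723, 36⟩, ⟨.negSucc 4427338084, 36⟩, ⟨.ofNat 1011818423, 36⟩, ⟨.ofNat 235649101, 36⟩, ⟨.negSucc 25053248, 35⟩, ⟨.ofNat 7251, 31⟩], 0⟩,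
   ⟨[⟨.negSucc 408045014, 35⟩, ⟨.negSucc 1420182522, 36⟩, ⟨.ofNat 2906638429, 34⟩, ⟨.ofNat 1505966681, 36⟩, ⟨.negSucc 4381027836, 36⟩, ⟨.ofNat 387738079, 34⟩, ⟨.negSucc 244209294, 36⟩, ⟨.negSucc 14233580, 34⟩, ⟨.ofNat 20062689, 36⟩], 0⟩,
   ⟨[⟨.negSucc 1280689632, 35⟩, ⟨.ofNat 1076162337, 36⟩, ⟨.ofNat 1845804069, 36⟩, ⟨.negSucc 965459020, 35⟩, ⟨.ofNat 1623995963, 35⟩, ⟨.negSucc 10696968, 34⟩, ⟨.negSucc 449435892, 36⟩, ⟨.negSucc 3667246, 36⟩, ⟨.negSucc 198462, 36⟩], 0⟩,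
   ⟨[⟨.negSucc 3105458186, 36⟩, ⟨.negSucc 955206712, 36⟩, ⟨.negSucc 488571438, 35⟩, ⟨.ofNat 1691752175, 36⟩, ⟨.negSucc 96643570, 32⟩, ⟨.negSucc 37203640, 33⟩, ⟨.ofNat 75044033, 36⟩, ⟨.negSucc 6950646, 36⟩, ⟨.negSucc 1797584, 34⟩], 0⟩,
   ⟨[⟨.ofNat 96958821, 36⟩, ⟨.ofNat 28713775, 36⟩, ⟨.negSucc 68156470, 36⟩, ⟨.negSucc 32723888, 35⟩, ⟨.ofNat 102795277, 36⟩, ⟨.ofNat 8951199, 34⟩, ⟨.negSucc 20651502, 35⟩, ⟨.negSucc 341502, 32⟩, ⟨.ofNat 582213, 35⟩], 0⟩,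
   ⟨[⟨.ofNat 5281813691, 35⟩, ⟨.negSucc 6388628196, 36⟩, ⟨.negSucc 231569834, 33⟩, ⟨.ofNat 361987829, 33⟩, ⟨.ofNat 3934092215, 36⟩, ⟨.negSucc 840837822, 36⟩, ⟨.negSucc 321006, 36⟩, ⟨.ofNat 33194215, 36⟩, ⟨.negSucc 5917520, 36⟩], 0⟩]

def LA1E_1 : List Sym :=
  [⟨[⟨.ofNat 11651911865, 36⟩, ⟨.ofNat 14837628975, 36⟩, ⟨.negSucc 12980216100, 36⟩, ⟨.ofNat 1547858517, 35⟩, ⟨.ofNat 3028677533, 36⟩, ⟨.ofNat 241201383, 35⟩, ⟨.ofNat 22615729, 35⟩, ⟨.negSucc 83454080, 36⟩, ⟨.ofNat 6774243, 36⟩], 0⟩,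
   ⟨[⟨.negSucc 5197234914, 36⟩, ⟨.ofNat 7946441787, 36⟩, ⟨.negSucc 923863972, 33⟩, ⟨.negSucc 11825097064, 36⟩, ⟨.ofNat 10019399, 32⟩, ⟨.ofNat 53440833, 35⟩, ⟨.negSucc 135559380, 35⟩, ⟨.ofNat 54997863, 36⟩, ⟨.negSucc 15978220, 36⟩], 0⟩,
   ⟨[⟨.negSucc 3358360698, 35⟩, ⟨.ofNat 4879317189, 36⟩, ⟨.ofNat 145934535, 31⟩, ⟨.negSucc 2723405060, 35⟩, ⟨.ofNat 1598897905, 36⟩, ⟨.negSucc 1429390502, 36⟩, ⟨.negSucc 95592622, 35⟩, ⟨.ofNat 4747645, 34⟩, ⟨.negSucc 1267932, 35⟩], 0⟩,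
   ⟨[⟨.negSucc 814862538, 35⟩, ⟨.negSucc 2881979806, 35⟩, ⟨.negSucc 756456256, 36⟩, ⟨.ofNat 7642834501, 36⟩, ⟨.negSucc 421900216, 35⟩, ⟨.negSucc 396809886, 36⟩, ⟨.ofNat 48836993, 36⟩, ⟨.negSucc 52605772, 36⟩, ⟨.ofNat 3174637, 36⟩], 0⟩,
   ⟨[⟨.ofNat 27989601, 35⟩, ⟨.ofNat 88362973, 36⟩, ⟨.negSucc 1229670, 31⟩, ⟨.negSucc 333838964, 36⟩, ⟨.ofNat 7423063, 33⟩, ⟨.ofNat 12783177, 33⟩, ⟨.negSucc 23677494, 36⟩, ⟨.negSucc 5021050, 36⟩, ⟨.ofNat 753387, 36⟩], 0⟩,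
   ⟨[⟨.negSucc 1277714026, 33⟩, ⟨.negSucc 1142100490, 36⟩, ⟨.negSucc 4158076712, 35⟩, ⟨.ofNat 5055693149, 36⟩, ⟨.negSucc 5352328320, 36⟩, ⟨.negSucc 117520482, 36⟩, ⟨.ofNat 73960383, 36⟩, ⟨.negSucc 31343220, 36⟩, ⟨.ofNat 2014893, 35⟩], 0⟩,
   ⟨[⟨.ofNat 3658081227, 35⟩, ⟨.ofNat 2327463411, 36⟩, ⟨.ofNat 1619881981, 32⟩, ⟨.negSucc 18342550, 31⟩, ⟨.negSucc 1634918588, 36⟩, ⟨.ofNat 362897289, 36⟩, ⟨.negSucc 244465720, 36⟩, ⟨.negSucc 1970382, 32⟩, ⟨.ofNat 5584121, 36⟩], 0⟩,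
   ⟨[⟨.negSucc 6450022364, 36⟩, ⟨.ofNat 147219633, 32⟩, ⟨.ofNat 590333203, 34⟩, ⟨.negSucc 3903929232, 36⟩, ⟨.ofNat 2919021723, 36⟩, ⟨.negSucc 428033800, 35⟩, ⟨.ofNat 37827243, 36⟩, ⟨.negSucc 106630, 30⟩, ⟨.negSucc 477020, 35⟩], 0⟩,
   ⟨[⟨.ofNat 136413139, 31⟩, ⟨.negSucc 3449202506, 36⟩, ⟨.negSucc 3097662852, 35⟩, ⟨.ofNat 1125848469, 34⟩, ⟨.negSucc 175050460, 33⟩, ⟨.negSucc 7169690, 31⟩, ⟨.ofNat 16800657, 35⟩, ⟨.negSucc 30553558, 36⟩, ⟨.ofNat 1487653, 34⟩], 0⟩,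
   ⟨[⟨.negSucc 127119852, 36⟩, ⟨.ofNat 25508167, 35⟩, ⟨.ofNat 118325863, 36⟩, ⟨.negSucc 96378054, 35⟩, ⟨.ofNat 63196519, 35⟩, ⟨.ofNat 14711285, 34⟩, ⟨.negSucc 42997640, 36⟩, ⟨.negSucc 397320, 33⟩, ⟨.ofNat 922107, 36⟩], 0⟩,
   ⟨[⟨.negSucc 8541650176, 36⟩, ⟨.negSucc 7228166924, 36⟩, ⟨.ofNat 8379906853, 36⟩, ⟨.negSucc 266327418, 34⟩, ⟨.negSucc 852303884, 35⟩, ⟨.negSucc 303195932, 36⟩, ⟨.negSucc 27370690, 35⟩, ⟨.ofNat 32707821, 36⟩, ⟨.negSucc 865964, 35⟩], 0⟩,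
   ⟨[⟨.negSucc 4336631572, 35⟩, ⟨.ofNat 2135701009, 34⟩, ⟨.ofNat 4124494333, 36⟩, ⟨.negSucc 2890650692, 35⟩, ⟨.ofNat 350009311, 34⟩, ⟨.negSucc 44795232, 35⟩, ⟨.negSucc 11600444, 36⟩, ⟨.negSucc 8258194, 35⟩, ⟨.ofNat 594121, 34⟩], 0⟩,
   ⟨[⟨.ofNat 670615607, 34⟩, ⟨.negSucc 4314002098, 36⟩, ⟨.negSucc 3766496264, 36⟩, ⟨.ofNat 1229174163, 34⟩, ⟨.negSucc 375460218, 35⟩, ⟨.ofNat 25367887, 35⟩, ⟨.ofNat 2489913, 36⟩, ⟨.negSucc 1298082, 35⟩, ⟨.ofNat 1054303, 36⟩], 0⟩,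
   ⟨[⟨.negSucc 73392680, 36⟩, ⟨.ofNat 112161749, 35⟩, ⟨.ofNat 34157439, 35⟩, ⟨.negSucc 2864924, 29⟩, ⟨.ofNat 36471615, 35⟩, ⟨.ofNat 27938855, 35⟩, ⟨.negSucc 6238910, 34⟩, ⟨.ofNat 832979, 34⟩, ⟨.ofNat 483949, 36⟩], 0⟩,
   ⟨[⟨.negSucc 990802550, 36⟩, ⟨.ofNat 502947223, 33⟩, ⟨.negSucc 24230288, 35⟩, ⟨.negSucc 1518431756, 35⟩, ⟨.ofNat 16965593, 36⟩, ⟨.negSucc 22450076, 36⟩, ⟨.negSucc 5774300, 36⟩, ⟨.ofNat 309401, 35⟩, ⟨.ofNat 466817, 35⟩], 0⟩,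
   ⟨[⟨.ofNat 230927211, 31⟩, ⟨.negSucc 2610573514, 36⟩, ⟨.negSucc 1261125826, 34⟩, ⟨.ofNat 2901072839, 36⟩, ⟨.ofNat 4258359, 32⟩, ⟨.ofNat 2435355, 33⟩, ⟨.ofNat 7411857, 35⟩, ⟨.negSucc 1287980, 36⟩, ⟨.negSucc 216714, 35⟩], 0⟩]

def LA1E_2 : List Sym :=
  [⟨[⟨.negSucc 112039336, 35⟩, ⟨.ofNat 129513265, 36⟩, ⟨.ofNat 186482215, 36⟩, ⟨.negSucc 13231962, 32⟩, ⟨.ofNat 23591447, 36⟩, ⟨.ofNat 32386849, 36⟩, ⟨.negSucc 107874, 32⟩, ⟨.ofNat 2102605, 36⟩, ⟨.negSucc 259400, 36⟩], 0⟩,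
   ⟨[⟨.ofNat 4249011191, 36⟩, ⟨.negSucc 24999878, 36⟩, ⟨.negSucc 1456288960, 35⟩, ⟨.ofNat 4962959, 36⟩, ⟨.ofNat 49326519, 36⟩, ⟨.ofNat 167445, 35⟩, ⟨.ofNat 67215, 29⟩, ⟨.negSucc 297922, 36⟩, ⟨.negSucc 53370, 36⟩], 0⟩,
   ⟨[⟨.negSucc 129371882, 36⟩, ⟨.ofNat 185694395, 36⟩, ⟨.ofNat 13458179, 33⟩, ⟨.negSucc 146189478, 36⟩, ⟨.ofNat 1701693, 33⟩, ⟨.ofNat 16201947, 36⟩, ⟨.negSucc 1034948, 36⟩, ⟨.negSucc 297404, 36⟩, ⟨.negSucc 87846, 35⟩], 0⟩,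
   ⟨[⟨.ofNat 0, 0⟩, ⟨.ofNat 107210707, 36⟩, ⟨.negSucc 118, 36⟩, ⟨.negSucc 21100768, 34⟩, ⟨.negSucc 3156, 35⟩, ⟨.ofNat 9346505, 36⟩, ⟨.negSucc 31364, 36⟩, ⟨.negSucc 182874, 36⟩, ⟨.negSucc 17082, 36⟩], 0⟩,
   ⟨[⟨.negSucc 6384007666, 34⟩, ⟨.negSucc 1185593214, 35⟩, ⟨.ofNat 19932704689, 36⟩, ⟨.negSucc 1045429372, 34⟩, ⟨.negSucc 138577194, 34⟩, ⟨.ofNat 411884293, 36⟩, ⟨.ofNat 2262147, 35⟩, ⟨.negSucc 3274464, 33⟩, ⟨.ofNat 1570003, 35⟩], 0⟩,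
   ⟨[⟨.ofNat 17715885755, 36⟩, ⟨.negSucc 46812511484, 36⟩, ⟨.negSucc 8917956558, 35⟩, ⟨.ofNat 8938447535, 34⟩, ⟨.ofNat 1528873807, 36⟩, ⟨.negSucc 86291428, 30⟩, ⟨.negSucc 223528052, 35⟩, ⟨.ofNat 560742247, 36⟩, ⟨.negSucc 31447846, 35⟩], 0⟩,
   ⟨[⟨.ofNat 121608782263, 36⟩, ⟨.negSucc 23352628958, 36⟩, ⟨.negSucc 185449869956, 36⟩, ⟨.ofNat 35750787207, 35⟩, ⟨.ofNat 4679360941, 33⟩, ⟨.negSucc 20652373164, 36⟩, ⟨.ofNat 159841317, 36⟩, ⟨.ofNat 272556973, 35⟩, ⟨.negSucc 606404, 31⟩], 0⟩,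
   ⟨[⟨.ofNat 64904043011, 36⟩, ⟨.ofNat 466068627, 29⟩, ⟨.negSucc 66530177326, 35⟩, ⟨.negSucc 52391411558, 36⟩, ⟨.ofNat 17107488709, 35⟩, ⟨.ofNat 1539901941, 33⟩, ⟨.ofNat 315345393, 34⟩, ⟨.negSucc 634784348, 35⟩, ⟨.ofNat 2804893, 31⟩], 0⟩,
   ⟨[⟨.negSucc 16650137666, 36⟩, ⟨.ofNat 10817531313, 36⟩, ⟨.ofNat 24731012637, 36⟩, ⟨.negSucc 15823569292, 36⟩, ⟨.negSucc 7729965718, 36⟩, ⟨.ofNat 1214058699, 35⟩, ⟨.ofNat 285679127, 34⟩, ⟨.ofNat 121172623, 35⟩, ⟨.negSucc 75776998, 36⟩], 0⟩,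
   ⟨[⟨.negSucc 2911124910, 36⟩, ⟨.negSucc 33591489080, 36⟩, ⟨.negSucc 6613081458, 36⟩, ⟨.ofNat 3824483995, 33⟩, ⟨.ofNat 226092067, 34⟩, ⟨.negSucc 5541839700, 36⟩, ⟨.negSucc 171211934, 36⟩, ⟨.ofNat 163025945, 36⟩, ⟨.negSucc 486518, 35⟩], 0⟩,
   ⟨[⟨.negSucc 124778952, 34⟩, ⟨.ofNat 282547409, 36⟩, ⟨.ofNat 66617941, 35⟩, ⟨.negSucc 53156728, 33⟩, ⟨.negSucc 731866672, 36⟩, ⟨.ofNat 859511973, 36⟩, ⟨.ofNat 83578661, 36⟩, ⟨.negSucc 135269716, 36⟩, ⟨.ofNat 3866057, 36⟩], 0⟩,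
   ⟨[⟨.ofNat 9316785, 35⟩, ⟨.ofNat 1653320449, 36⟩, ⟨.negSucc 2828002, 34⟩, ⟨.negSucc 1421106562, 35⟩, ⟨.ofNat 17804369, 36⟩, ⟨.ofNat 246470433, 35⟩, ⟨.negSucc 5260684, 34⟩, ⟨.ofNat 8052797, 35⟩, ⟨.negSucc 3055430, 36⟩], 0⟩,
   ⟨[⟨.ofNat 0, 0⟩, ⟨.negSucc 49664150, 36⟩, ⟨.negSucc 1202, 36⟩, ⟨.ofNat 56549107, 35⟩, ⟨.negSucc 57242, 36⟩, ⟨.negSucc 62344614, 36⟩, ⟨.negSucc 209648, 36⟩, ⟨.ofNat 2109989, 34⟩, ⟨.negSucc 7170, 35⟩], 0⟩,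
   ⟨[⟨.ofNat 46595255205, 36⟩, ⟨.negSucc 17319505804, 35⟩, ⟨.negSucc 13655227342, 36⟩, ⟨.negSucc 24920012694, 36⟩, ⟨.ofNat 9771456033, 36⟩, ⟨.ofNat 274975781, 34⟩, ⟨.negSucc 902375560, 36⟩, ⟨.ofNat 11020025, 35⟩, ⟨.ofNat 9229833, 35⟩], 0⟩,
   ⟨[⟨.negSucc 25454667896, 35⟩, ⟨.ofNat 19299067567, 33⟩, ⟨.negSucc 44122499712, 36⟩, ⟨.negSucc 69890036868, 36⟩, ⟨.ofNat 875763107, 32⟩, ⟨.ofNat 124584369, 34⟩, ⟨.ofNat 149953097, 32⟩, ⟨.negSucc 10562466, 33⟩, ⟨.negSucc 12717064, 34⟩], 0⟩,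
   ⟨[⟨.negSucc 149417507426, 36⟩, ⟨.ofNat 94009102469, 35⟩, ⟨.ofNat 165717305425, 35⟩, ⟨.negSucc 62022599846, 36⟩, ⟨.negSucc 88760857180, 36⟩, ⟨.ofNat 2099840751, 35⟩, ⟨.ofNat 683305847, 36⟩, ⟨.negSucc 325643844, 36⟩, ⟨.ofNat 155465281, 36⟩], 0⟩]

def LA1E_3 : List Sym :=
  [⟨[⟨.negSucc 29381095308, 36⟩, ⟨.negSucc 25286522522, 35⟩, ⟨.ofNat 2391571051, 36⟩, ⟨.ofNat 5332037611, 36⟩, ⟨.ofNat 748951641, 31⟩, ⟨.ofNat 478996323, 36⟩, ⟨.negSucc 5045662016, 36⟩, ⟨.negSucc 83279796, 35⟩, ⟨.ofNat 5127753, 33⟩], 0⟩,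
   ⟨[⟨.ofNat 16950340031, 35⟩, ⟨.negSucc 10411132750, 36⟩, ⟨.negSucc 662222164, 30⟩, ⟨.ofNat 18855825085, 36⟩, ⟨.ofNat 3164527791, 36⟩, ⟨.negSucc 1780197218, 35⟩, ⟨.ofNat 492048799, 35⟩, ⟨.ofNat 106712585, 36⟩, ⟨.negSucc 35236668, 34⟩], 0⟩,
   ⟨[⟨.ofNat 173758943, 36⟩, ⟨.negSucc 107894322, 35⟩, ⟨.negSucc 258501618, 35⟩, ⟨.negSucc 314230426, 36⟩, ⟨.negSucc 382536364, 33⟩, ⟨.ofNat 1138328059, 36⟩, ⟨.ofNat 56033213, 35⟩, ⟨.negSucc 64060438, 36⟩, ⟨.ofNat 3945747, 34⟩], 0⟩,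
   ⟨[⟨.ofNat 1571840819, 35⟩, ⟨.ofNat 940376071, 36⟩, ⟨.ofNat 955986235, 36⟩, ⟨.negSucc 204940228, 33⟩, ⟨.ofNat 764450385, 35⟩, ⟨.ofNat 250920059, 36⟩, ⟨.negSucc 53519948, 36⟩, ⟨.ofNat 10313239, 35⟩, ⟨.ofNat 40169, 36⟩], 0⟩,
   ⟨[⟨.negSucc 756428, 29⟩, ⟨.negSucc 14336704, 35⟩, ⟨.ofNat 67898561, 36⟩, ⟨.ofNat 65351465, 36⟩, ⟨.negSucc 102572186, 36⟩, ⟨.negSucc 35229682, 36⟩, ⟨.ofNat 629749, 30⟩, ⟨.ofNat 5967641, 36⟩, ⟨.negSucc 619760, 35⟩], 0⟩,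
   ⟨[⟨.negSucc 16856397664, 34⟩, ⟨.ofNat 174210898127, 36⟩, ⟨.negSucc 4903309316, 36⟩, ⟨.ofNat 13784457031, 35⟩, ⟨.ofNat 659367965, 34⟩, ⟨.negSucc 3830721652, 36⟩, ⟨.ofNat 348330443, 36⟩, ⟨.negSucc 61720080, 35⟩, ⟨.ofNat 13088581, 35⟩], 0⟩,
   ⟨[⟨.negSucc 107110793776, 36⟩, ⟨.negSucc 400426237090, 36⟩, ⟨.ofNat 15478320115, 34⟩, ⟨.ofNat 91157238091, 36⟩, ⟨.negSucc 3297685700, 35⟩, ⟨.ofNat 4823719351, 36⟩, ⟨.ofNat 83477333, 36⟩, ⟨.ofNat 169931711, 36⟩, ⟨.negSucc 11812226, 33⟩], 0⟩,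
   ⟨[⟨.negSucc 9126978230, 36⟩, ⟨.ofNat 45077975011, 36⟩, ⟨.ofNat 31808449937, 36⟩, ⟨.negSucc 32497360718, 36⟩, ⟨.ofNat 647209719, 34⟩, ⟨.ofNat 577822821, 35⟩, ⟨.negSucc 129910064, 33⟩, ⟨.ofNat 281223241, 35⟩, ⟨.negSucc 19250522, 36⟩], 0⟩,
   ⟨[⟨.ofNat 31364439339, 36⟩, ⟨.negSucc 727947858, 33⟩, ⟨.negSucc 23017231486, 35⟩, ⟨.ofNat 9661078625, 35⟩, ⟨.ofNat 8048839, 27⟩, ⟨.negSucc 2200394908, 35⟩, ⟨.ofNat 769566831, 36⟩, ⟨.negSucc 18326822, 32⟩, ⟨.ofNat 5621419, 33⟩], 0⟩,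
   ⟨[⟨.ofNat 4858174477, 36⟩, ⟨.negSucc 2147829458, 35⟩, ⟨.negSucc 712790202, 35⟩, ⟨.ofNat 4725554021, 36⟩, ⟨.negSucc 1246465904, 35⟩, ⟨.ofNat 220053765, 33⟩, ⟨.ofNat 25948181, 34⟩, ⟨.negSucc 97038910, 36⟩, ⟨.ofNat 1293599, 36⟩], 0⟩,
   ⟨[⟨.ofNat 1659655451, 36⟩, ⟨.ofNat 2863199443, 35⟩, ⟨.ofNat 175563333, 34⟩, ⟨.negSucc 3807987366, 35⟩, ⟨.ofNat 213791199, 34⟩, ⟨.ofNat 385862205, 36⟩, ⟨.negSucc 4806162, 33⟩, ⟨.ofNat 421587, 29⟩, ⟨.negSucc 208978, 31⟩], 0⟩,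
   ⟨[⟨.negSucc 55900734, 36⟩, ⟨.negSucc 22078534, 34⟩, ⟨.ofNat 39201289, 36⟩, ⟨.ofNat 166685959, 35⟩, ⟨.negSucc 7402356, 33⟩, ⟨.negSucc 25410252, 34⟩, ⟨.ofNat 11633821, 35⟩, ⟨.ofNat 2511801, 35⟩, ⟨.negSucc 363732, 35⟩], 0⟩,
   ⟨[⟨.ofNat 72626493659, 35⟩, ⟨.negSucc 58465959012, 36⟩, ⟨.negSucc 9431778302, 35⟩, ⟨.ofNat 12475139165, 36⟩, ⟨.negSucc 102156, 21⟩, ⟨.ofNat 72470397, 35⟩, ⟨.negSucc 313576140, 35⟩, ⟨.ofNat 33572785, 35⟩, ⟨.ofNat 9790767, 35⟩], 0⟩,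
   ⟨[⟨.negSucc 41810081384, 36⟩, ⟨.negSucc 25264700380, 36⟩, ⟨.ofNat 13226646879, 36⟩, ⟨.negSucc 10280797876, 36⟩, ⟨.ofNat 1830315517, 36⟩, ⟨.ofNat 1490936105, 36⟩, ⟨.negSucc 125295552, 36⟩, ⟨.negSucc 52794440, 36⟩, ⟨.negSucc 11065664, 35⟩], 0⟩,
   ⟨[⟨.ofNat 20058490539, 36⟩, ⟨.ofNat 5167821865, 34⟩, ⟨.negSucc 10382136960, 34⟩, ⟨.ofNat 9578317045, 36⟩, ⟨.ofNat 7595897331, 36⟩, ⟨.negSucc 309742992, 33⟩, ⟨.ofNat 278245881, 36⟩, ⟨.negSucc 23267420, 36⟩, ⟨.negSucc 4088518, 36⟩], 0⟩,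
   ⟨[⟨.ofNat 5412091319, 36⟩, ⟨.negSucc 1392754828, 35⟩, ⟨.negSucc 34568876, 31⟩, ⟨.ofNat 2048236617, 36⟩, ⟨.negSucc 3711645184, 36⟩, ⟨.ofNat 786832643, 35⟩, ⟨.negSucc 17245302, 36⟩, ⟨.negSucc 30268944, 35⟩, ⟨.ofNat 9057753, 36⟩], 0⟩]

def LA1E_4 : List Sym :=
  [⟨[⟨.negSucc 4352076802, 36⟩, ⟨.ofNat 1715751953, 35⟩, ⟨.ofNat 6172640751, 36⟩, ⟨.negSucc 2220065492, 35⟩, ⟨.ofNat 1422414075, 36⟩, ⟨.ofNat 46914057, 34⟩, ⟨.negSucc 36887204, 36⟩, ⟨.ofNat 38317941, 36⟩, ⟨.negSucc 8264524, 36⟩], 0⟩,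
   ⟨[⟨.ofNat 63470833, 35⟩, ⟨.negSucc 50988058, 36⟩, ⟨.negSucc 29518206, 34⟩, ⟨.ofNat 24063531, 33⟩, ⟨.negSucc 63126178, 35⟩, ⟨.negSucc 29088924, 35⟩, ⟨.ofNat 41957907, 36⟩, ⟨.ofNat 1808293, 35⟩, ⟨.negSucc 959244, 36⟩], 0⟩,
   ⟨[⟨.negSucc 3395283778, 36⟩, ⟨.ofNat 7953191817, 36⟩, ⟨.ofNat 13664411647, 36⟩, ⟨.negSucc 347230256, 33⟩, ⟨.negSucc 513338482, 35⟩, ⟨.negSucc 53694396, 36⟩, ⟨.ofNat 14686905, 33⟩, ⟨.negSucc 3103018, 34⟩, ⟨.ofNat 7121155, 36⟩], 0⟩,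
   ⟨[⟨.ofNat 28325434899, 36⟩, ⟨.ofNat 9790928779, 35⟩, ⟨.negSucc 39622669790, 36⟩, ⟨.negSucc 1236262032, 36⟩, ⟨.ofNat 5580700771, 36⟩, ⟨.negSucc 49922250, 36⟩, ⟨.ofNat 106040449, 36⟩, ⟨.ofNat 2786035, 36⟩, ⟨.negSucc 2112942, 35⟩], 0⟩,
   ⟨[⟨.ofNat 3875758105, 35⟩, ⟨.negSucc 2136761806, 34⟩, ⟨.negSucc 997821390, 36⟩, ⟨.ofNat 6110203031, 36⟩, ⟨.negSucc 2319631910, 36⟩, ⟨.ofNat 171795885, 35⟩, ⟨.ofNat 3221809, 35⟩, ⟨.negSucc 1718862, 33⟩, ⟨.ofNat 6406297, 36⟩], 0⟩,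
   ⟨[⟨.negSucc 1334631734, 35⟩, ⟨.ofNat 4307065217, 36⟩, ⟨.ofNat 3705436683, 36⟩, ⟨.negSucc 613949566, 33⟩, ⟨.ofNat 772947675, 36⟩, ⟨.negSucc 69065102, 36⟩, ⟨.ofNat 3376073, 36⟩, ⟨.ofNat 4773821, 36⟩, ⟨.negSucc 2068784, 36⟩], 0⟩,
   ⟨[⟨.ofNat 73289805, 36⟩, ⟨.negSucc 111955302, 35⟩, ⟨.negSucc 68168104, 36⟩, ⟨.ofNat 365772475, 36⟩, ⟨.negSucc 36414802, 35⟩, ⟨.negSucc 27573802, 35⟩, ⟨.ofNat 24472127, 36⟩, ⟨.negSucc 3212444, 36⟩, ⟨.negSucc 125252, 34⟩], 0⟩,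
   ⟨[⟨.negSucc 133203780, 36⟩, ⟨.ofNat 23700982183, 36⟩, ⟨.ofNat 82009009, 35⟩, ⟨.negSucc 362603954, 33⟩, ⟨.negSucc 69906902, 36⟩, ⟨.negSucc 29715270, 36⟩, ⟨.ofNat 232501, 35⟩, ⟨.ofNat 14079573, 36⟩, ⟨.negSucc 418206, 34⟩], 0⟩,
   ⟨[⟨.ofNat 61965099, 31⟩, ⟨.negSucc 2362331554, 35⟩, ⟨.negSucc 88603118, 36⟩, ⟨.ofNat 1406924891, 35⟩, ⟨.negSucc 84460110, 36⟩, ⟨.ofNat 89333999, 35⟩, ⟨.ofNat 337121, 34⟩, ⟨.negSucc 7774792, 36⟩, ⟨.negSucc 679640, 35⟩], 0⟩,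
   ⟨[⟨.negSucc 7235778, 26⟩, ⟨.ofNat 1305910567, 35⟩, ⟨.ofNat 5055828337, 36⟩, ⟨.negSucc 2867184920, 36⟩, ⟨.negSucc 60455352, 36⟩, ⟨.negSucc 40287828, 36⟩, ⟨.negSucc 11882714, 36⟩, ⟨.ofNat 3505947, 36⟩, ⟨.ofNat 20951, 33⟩], 0⟩,
   ⟨[⟨.ofNat 111882289, 35⟩, ⟨.negSucc 129274912, 36⟩, ⟨.negSucc 186115068, 36⟩, ⟨.ofNat 13197597, 32⟩, ⟨.negSucc 2933872, 33⟩, ⟨.negSucc 32084952, 36⟩, ⟨.ofNat 796233, 35⟩, ⟨.negSucc 2210242, 36⟩, ⟨.ofNat 314281, 36⟩], 0⟩,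
   ⟨[⟨.ofNat 285619139, 35⟩, ⟨.negSucc 2532, 26⟩, ⟨.ofNat 720492567, 36⟩, ⟨.ofNat 530333, 36⟩, ⟨.negSucc 188527132, 36⟩, ⟨.ofNat 444153, 36⟩, ⟨.ofNat 9059879, 36⟩, ⟨.ofNat 209847, 35⟩, ⟨.ofNat 27695, 35⟩], 0⟩,
   ⟨[⟨.negSucc 532556006, 33⟩, ⟨.ofNat 22104169, 35⟩, ⟨.ofNat 2898959397, 36⟩, ⟨.negSucc 11099008, 36⟩, ⟨.negSucc 40340806, 36⟩, ⟨.negSucc 234810, 33⟩, ⟨.negSucc 4028212, 35⟩, ⟨.ofNat 252095, 36⟩, ⟨.negSucc 60980, 36⟩], 0⟩,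
   ⟨[⟨.ofNat 129190539, 36⟩, ⟨.negSucc 185260614, 36⟩, ⟨.negSucc 107453654, 36⟩, ⟨.ofNat 72749655, 35⟩, ⟨.negSucc 13552848, 36⟩, ⟨.negSucc 15843634, 36⟩, ⟨.ofNat 930697, 36⟩, ⟨.ofNat 214605, 36⟩, ⟨.ofNat 215231, 36⟩], 0⟩,
   ⟨[⟨.ofNat 0, 0⟩, ⟨.ofNat 11123759, 36⟩, ⟨.ofNat 19063, 36⟩, ⟨.ofNat 6353183, 36⟩, ⟨.negSucc 44252, 36⟩, ⟨.negSucc 3421212, 36⟩, ⟨.negSucc 25276, 35⟩, ⟨.ofNat 401049, 36⟩, ⟨.negSucc 1752, 32⟩], 0⟩,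
   ⟨[⟨.ofNat 0, 0⟩, ⟨.negSucc 13370032, 33⟩, ⟨.negSucc 2244, 30⟩, ⟨.ofNat 84004769, 36⟩, ⟨.ofNat 209187, 36⟩, ⟨.negSucc 9136786, 36⟩, ⟨.negSucc 61504, 36⟩, ⟨.ofNat 35203, 34⟩, ⟨.ofNat 34003, 36⟩], 0⟩]

def LA1E_5 : List Sym :=
  [⟨[⟨.ofNat 0, 0⟩, ⟨.ofNat 1, 35⟩, ⟨.negSucc 41528, 35⟩, ⟨.ofNat 135, 34⟩, ⟨.ofNat 115145, 36⟩, ⟨.ofNat 3787, 35⟩, ⟨.negSucc 16034, 34⟩, ⟨.ofNat 1337, 33⟩, ⟨.ofNat 3119, 36⟩], 0⟩,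
   ⟨[⟨.ofNat 17540476917, 36⟩, ⟨.ofNat 12789238525, 36⟩, ⟨.negSucc 3957926412, 35⟩, ⟨.negSucc 2818768412, 36⟩, ⟨.ofNat 623985639, 35⟩, ⟨.ofNat 739805663, 36⟩, ⟨.negSucc 114258146, 35⟩, ⟨.negSucc 16527604, 35⟩, ⟨.ofNat 12691995, 36⟩], 0⟩,
   ⟨[⟨.ofNat 8590536011, 35⟩, ⟨.ofNat 14864221449, 36⟩, ⟨.ofNat 1116401737, 33⟩, ⟨.ofNat 421481655, 33⟩, ⟨.negSucc 3243829200, 36⟩, ⟨.negSucc 1422171886, 36⟩, ⟨.ofNat 372938783, 35⟩, ⟨.ofNat 11095631, 34⟩, ⟨.negSucc 9478416, 34⟩], 0⟩,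
   ⟨[⟨.negSucc 7692963814, 34⟩, ⟨.negSucc 8771365380, 33⟩, ⟨.ofNat 48948083425, 36⟩, ⟨.ofNat 2852971823, 35⟩, ⟨.negSucc 1668659178, 35⟩, ⟨.negSucc 21313364, 32⟩, ⟨.negSucc 80392306, 33⟩, ⟨.ofNat 59120169, 35⟩, ⟨.ofNat 8589477, 35⟩], 0⟩,
   ⟨[⟨.negSucc 24901365074, 36⟩, ⟨.negSucc 61524006342, 36⟩, ⟨.negSucc 8916768636, 34⟩, ⟨.negSucc 5652605696, 36⟩, ⟨.ofNat 3897834321, 36⟩, ⟨.ofNat 2972764723, 36⟩, ⟨.ofNat 231346117, 36⟩, ⟨.negSucc 223377278, 36⟩, ⟨.ofNat 7847545, 36⟩], 0⟩,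
   ⟨[⟨.ofNat 14973968815, 36⟩, ⟨.ofNat 21604313833, 36⟩, ⟨.negSucc 9380052740, 35⟩, ⟨.negSucc 1168018696, 34⟩, ⟨.ofNat 42105125, 30⟩, ⟨.ofNat 282190863, 36⟩, ⟨.negSucc 516136094, 36⟩, ⟨.ofNat 156880575, 36⟩, ⟨.negSucc 103556, 34⟩], 0⟩,
   ⟨[⟨.ofNat 8111334403, 36⟩, ⟨.negSucc 646614548, 35⟩, ⟨.ofNat 21765194891, 36⟩, ⟨.ofNat 817076623, 36⟩, ⟨.negSucc 1609235050, 36⟩, ⟨.negSucc 130125190, 35⟩, ⟨.ofNat 2254403, 31⟩, ⟨.ofNat 8570893, 35⟩, ⟨.negSucc 1819654, 36⟩], 0⟩,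
   ⟨[⟨.negSucc 532644136, 36⟩, ⟨.ofNat 10373633, 35⟩, ⟨.negSucc 612753094, 36⟩, ⟨.negSucc 23041136, 36⟩, ⟨.ofNat 176082701, 36⟩, ⟨.ofNat 4550185, 35⟩, ⟨.ofNat 71646645, 36⟩, ⟨.negSucc 1744304, 34⟩, ⟨.ofNat 68295, 34⟩], 0⟩,
   ⟨[⟨.ofNat 4148799, 35⟩, ⟨.ofNat 7273, 35⟩, ⟨.ofNat 9397, 31⟩, ⟨.ofNat 4353, 35⟩, ⟨.ofNat 1470663, 36⟩, ⟨.ofNat 392979, 36⟩, ⟨.negSucc 5233206, 36⟩, ⟨.ofNat 495611, 36⟩, ⟨.ofNat 1075297, 36⟩], 0⟩,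
   ⟨[⟨.ofNat 0, 0⟩, ⟨.ofNat 13, 35⟩, ⟨.negSucc 39204, 36⟩, ⟨.ofNat 7127, 36⟩, ⟨.ofNat 18993, 34⟩, ⟨.ofNat 12719, 33⟩, ⟨.negSucc 135392, 35⟩, ⟨.ofNat 74489, 35⟩, ⟨.negSucc 326, 30⟩], 0⟩,
   ⟨[⟨.negSucc 15657420128, 34⟩, ⟨.negSucc 28461717860, 36⟩, ⟨.negSucc 14613311790, 36⟩, ⟨.ofNat 6461960953, 35⟩, ⟨.ofNat 290283341, 35⟩, ⟨.negSucc 576581882, 36⟩, ⟨.negSucc 727976950, 36⟩, ⟨.ofNat 102403115, 35⟩, ⟨.negSucc 3111698, 35⟩], 0⟩,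
   ⟨[⟨.ofNat 3245785043, 36⟩, ⟨.negSucc 88901145736, 36⟩, ⟨.negSucc 22481218180, 35⟩, ⟨.ofNat 6184233741, 36⟩, ⟨.ofNat 18115376679, 36⟩, ⟨.negSucc 3636505740, 35⟩, ⟨.negSucc 3257534, 31⟩, ⟨.ofNat 342096521, 36⟩, ⟨.negSucc 635148, 30⟩], 0⟩,
   ⟨[⟨.ofNat 92334779711, 36⟩, ⟨.ofNat 209473680733, 36⟩, ⟨.negSucc 36837523154, 36⟩, ⟨.negSucc 20168618054, 36⟩, ⟨.ofNat 19792965115, 36⟩, ⟨.ofNat 95667021, 35⟩, ⟨.ofNat 89867451, 34⟩, ⟨.negSucc 487635144, 36⟩, ⟨.ofNat 59494237, 36⟩], 0⟩,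
   ⟨[⟨.ofNat 6897815195, 36⟩, ⟨.ofNat 1300982465, 32⟩, ⟨.ofNat 4762443321, 36⟩, ⟨.ofNat 8605353851, 36⟩, ⟨.negSucc 1666323358, 36⟩, ⟨.ofNat 215250521, 33⟩, ⟨.ofNat 33180447, 35⟩, ⟨.negSucc 41507538, 36⟩, ⟨.negSucc 32479428, 36⟩], 0⟩,
   ⟨[⟨.ofNat 659381165, 36⟩, ⟨.negSucc 27441245236, 35⟩, ⟨.ofNat 7636927037, 36⟩, ⟨.ofNat 13309492717, 36⟩, ⟨.negSucc 388196174, 36⟩, ⟨.negSucc 3475579118, 36⟩, ⟨.ofNat 54762267, 36⟩, ⟨.ofNat 79137757, 35⟩, ⟨.negSucc 10027390, 35⟩], 0⟩,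
   ⟨[⟨.negSucc 788188038, 36⟩, ⟨.ofNat 2915637107, 36⟩, ⟨.negSucc 4244976, 30⟩, ⟨.ofNat 603025667, 36⟩, ⟨.negSucc 604120298, 36⟩, ⟨.ofNat 246732557, 35⟩, ⟨.ofNat 114570583, 36⟩, ⟨.negSucc 44198242, 35⟩, ⟨.ofNat 3494259, 35⟩], 0⟩]

def LA1E_6 : List Sym :=
  [⟨[⟨.ofNat 23441627, 36⟩, ⟨.ofNat 1596465099, 36⟩, ⟨.negSucc 11180308, 36⟩, ⟨.negSucc 2832405650, 36⟩, ⟨.ofNat 9647499, 35⟩, ⟨.ofNat 498321369, 36⟩, ⟨.negSucc 10614332, 35⟩, ⟨.ofNat 3346591, 34⟩, ⟨.negSucc 787370, 36⟩], 0⟩,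
   ⟨[⟨.ofNat 0, 0⟩, ⟨.negSucc 49785664, 36⟩, ⟨.negSucc 23956, 36⟩, ⟨.ofNat 113393969, 36⟩, ⟨.negSucc 12882, 35⟩, ⟨.negSucc 62618766, 36⟩, ⟨.negSucc 124032, 34⟩, ⟨.ofNat 560171, 32⟩, ⟨.negSucc 189818, 36⟩], 0⟩,
   ⟨[⟨.ofNat 43187381051, 35⟩, ⟨.ofNat 11794885205, 34⟩, ⟨.ofNat 6304683739, 36⟩, ⟨.negSucc 34720893408, 36⟩, ⟨.ofNat 24401191973, 36⟩, ⟨.negSucc 770212652, 34⟩, ⟨.ofNat 59185681, 36⟩, ⟨.ofNat 89141099, 35⟩, ⟨.negSucc 9988136, 36⟩], 0⟩,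
   ⟨[⟨.negSucc 167510682620, 36⟩, ⟨.ofNat 85602551607, 36⟩, ⟨.ofNat 71536553529, 36⟩, ⟨.negSucc 25026181396, 35⟩, ⟨.negSucc 23905988148, 35⟩, ⟨.ofNat 138999527, 33⟩, ⟨.ofNat 1283114827, 35⟩, ⟨.negSucc 238238698, 35⟩, ⟨.ofNat 921547, 30⟩], 0⟩,
   ⟨[⟨.ofNat 26431530111, 36⟩, ⟨.ofNat 15075595993, 36⟩, ⟨.negSucc 16640611756, 35⟩, ⟨.ofNat 3460152005, 36⟩, ⟨.ofNat 6636071723, 36⟩, ⟨.negSucc 99237670, 36⟩, ⟨.negSucc 3210691664, 36⟩, ⟨.ofNat 57921725, 35⟩, ⟨.ofNat 58969345, 36⟩], 0⟩,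
   ⟨[⟨.negSucc 177842370, 35⟩, ⟨.negSucc 23671514668, 36⟩, ⟨.ofNat 18656255023, 36⟩, ⟨.ofNat 2676492683, 34⟩, ⟨.ofNat 194597209, 32⟩, ⟨.negSucc 183854136, 32⟩, ⟨.ofNat 628312771, 36⟩, ⟨.ofNat 88234745, 36⟩, ⟨.negSucc 71877410, 36⟩], 0⟩,
   ⟨[⟨.ofNat 2547079741, 36⟩, ⟨.ofNat 1285656583, 36⟩, ⟨.negSucc 1230908964, 34⟩, ⟨.ofNat 281899021, 36⟩, ⟨.negSucc 393791248, 33⟩, ⟨.ofNat 934937003, 36⟩, ⟨.ofNat 163791675, 35⟩, ⟨.negSucc 6863372, 33⟩, ⟨.ofNat 14135983, 36⟩], 0⟩,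
   ⟨[⟨.ofNat 3104586245, 36⟩, ⟨.ofNat 907403211, 36⟩, ⟨.ofNat 534877571, 35⟩, ⟨.negSucc 1633420576, 36⟩, ⟨.ofNat 762851251, 35⟩, ⟨.ofNat 64185495, 34⟩, ⟨.negSucc 36528106, 35⟩, ⟨.ofNat 23342683, 36⟩, ⟨.ofNat 2656563, 36⟩], 0⟩,
   ⟨[⟨.negSucc 96913496, 36⟩, ⟨.negSucc 28743660, 36⟩, ⟨.ofNat 68098009, 36⟩, ⟨.ofNat 65496479, 36⟩, ⟨.negSucc 12815004, 33⟩, ⟨.negSucc 17876962, 35⟩, ⟨.ofNat 40864481, 36⟩, ⟨.ofNat 5738189, 36⟩, ⟨.negSucc 1223754, 36⟩], 0⟩,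
   ⟨[⟨.ofNat 9566180637, 36⟩, ⟨.negSucc 27871020110, 35⟩, ⟨.ofNat 7569605771, 34⟩, ⟨.ofNat 38489381407, 35⟩, ⟨.negSucc 13601389086, 36⟩, ⟨.ofNat 617367301, 36⟩, ⟨.ofNat 417478011, 35⟩, ⟨.ofNat 4349225, 33⟩, ⟨.negSucc 28094596, 36⟩], 0⟩,
   ⟨[⟨.ofNat 9065111153, 35⟩, ⟨.ofNat 25389583753, 36⟩, ⟨.ofNat 12348265027, 36⟩, ⟨.negSucc 229651954, 30⟩, ⟨.negSucc 1074854834, 34⟩, ⟨.ofNat 684166793, 33⟩, ⟨.negSucc 1107071654, 36⟩, ⟨.ofNat 169196939, 35⟩, ⟨.negSucc 638268, 32⟩], 0⟩,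
   ⟨[⟨.ofNat 6145465989, 35⟩, ⟨.negSucc 63806188380, 36⟩, ⟨.negSucc 4660313830, 35⟩, ⟨.ofNat 2887640409, 35⟩, ⟨.ofNat 3481083225, 36⟩, ⟨.negSucc 1574472506, 35⟩, ⟨.ofNat 641000961, 36⟩, ⟨.negSucc 20478866, 36⟩, ⟨.ofNat 5579313, 35⟩], 0⟩,
   ⟨[⟨.ofNat 6212870637, 36⟩, ⟨.negSucc 2362842186, 36⟩, ⟨.negSucc 3974491482, 36⟩, ⟨.ofNat 6600103777, 36⟩, ⟨.negSucc 2513543710, 36⟩, ⟨.ofNat 1442596625, 36⟩, ⟨.ofNat 105518063, 35⟩, ⟨.negSucc 35577818, 35⟩, ⟨.ofNat 3477227, 35⟩], 0⟩,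
   ⟨[⟨.ofNat 1636938375, 36⟩, ⟨.ofNat 5732178777, 36⟩, ⟨.ofNat 768454671, 36⟩, ⟨.negSucc 3840369344, 35⟩, ⟨.ofNat 853143529, 36⟩, ⟨.ofNat 199504801, 35⟩, ⟨.negSucc 48518294, 36⟩, ⟨.ofNat 56207877, 36⟩, ⟨.negSucc 4963176, 36⟩], 0⟩,
   ⟨[⟨.negSucc 27976516, 35⟩, ⟨.negSucc 88223224, 36⟩, ⟨.ofNat 9828901, 34⟩, ⟨.ofNat 333574295, 36⟩, ⟨.negSucc 14808324, 34⟩, ⟨.negSucc 102298240, 36⟩, ⟨.ofNat 11684167, 35⟩, ⟨.ofNat 5349057, 36⟩, ⟨.negSucc 841766, 36⟩], 0⟩,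
   ⟨[⟨.negSucc 631581870, 34⟩, ⟨.ofNat 4041744649, 35⟩, ⟨.negSucc 13048866942, 35⟩, ⟨.negSucc 3334003406, 34⟩, ⟨.ofNat 6931474735, 36⟩, ⟨.ofNat 727649813, 34⟩, ⟨.negSucc 108648632, 34⟩, ⟨.ofNat 3427113, 31⟩, ⟨.negSucc 23517282, 36⟩], 0⟩]

def LA1E_7 : List Sym :=
  [⟨[⟨.negSucc 10662541740, 35⟩, ⟨.negSucc 844817624, 32⟩, ⟨.negSucc 1881190982, 35⟩, ⟨.ofNat 3540564369, 36⟩, ⟨.ofNat 1957939045, 34⟩, ⟨.negSucc 2264388452, 36⟩, ⟨.ofNat 521997721, 36⟩, ⟨.ofNat 3779589, 32⟩, ⟨.negSucc 1119718, 32⟩], 0⟩,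
   ⟨[⟨.ofNat 7308131859, 36⟩, ⟨.negSucc 1666513334, 36⟩, ⟨.negSucc 3019883904, 35⟩, ⟨.ofNat 3130560417, 36⟩, ⟨.negSucc 1844181182, 35⟩, ⟨.ofNat 703223841, 35⟩, ⟨.ofNat 77657587, 36⟩, ⟨.negSucc 39130312, 36⟩, ⟨.ofNat 3802737, 35⟩], 0⟩,
   ⟨[⟨.negSucc 4376329242, 36⟩, ⟨.ofNat 3434957671, 36⟩, ⟨.ofNat 6269221549, 36⟩, ⟨.negSucc 1119425022, 34⟩, ⟨.ofNat 1421708317, 36⟩, ⟨.ofNat 49112561, 34⟩, ⟨.negSucc 49584396, 36⟩, ⟨.ofNat 1289707, 31⟩, ⟨.negSucc 7123618, 36⟩], 0⟩,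
   ⟨[⟨.ofNat 127060429, 36⟩, ⟨.negSucc 50935654, 36⟩, ⟨.negSucc 118500396, 36⟩, ⟨.ofNat 96301017, 35⟩, ⟨.negSucc 31475406, 34⟩, ⟨.negSucc 58883700, 36⟩, ⟨.ofNat 42731605, 36⟩, ⟨.ofNat 3334783, 36⟩, ⟨.negSucc 954824, 36⟩], 0⟩,
   ⟨[⟨.ofNat 3080308821, 35⟩, ⟨.negSucc 9877397362, 35⟩, ⟨.negSucc 8932976404, 35⟩, ⟨.ofNat 638371361, 34⟩, ⟨.ofNat 5422564895, 36⟩, ⟨.ofNat 144387497, 35⟩, ⟨.ofNat 29614043, 33⟩, ⟨.negSucc 13766402, 35⟩, ⟨.negSucc 2804662, 34⟩], 0⟩,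
   ⟨[⟨.ofNat 8813958705, 36⟩, ⟨.negSucc 9179017552, 36⟩, ⟨.negSucc 238296280, 32⟩, ⟨.ofNat 6892610857, 36⟩, ⟨.negSucc 1146700188, 35⟩, ⟨.ofNat 386383505, 36⟩, ⟨.ofNat 43046011, 36⟩, ⟨.negSucc 664886, 34⟩, ⟨.ofNat 845781, 35⟩], 0⟩,
   ⟨[⟨.negSucc 1341706062, 35⟩, ⟨.ofNat 543848969, 33⟩, ⟨.ofNat 3761587279, 36⟩, ⟨.negSucc 2499022124, 35⟩, ⟨.ofNat 192957017, 34⟩, ⟨.negSucc 54733910, 36⟩, ⟨.negSucc 1399062, 34⟩, ⟨.ofNat 1062357, 33⟩, ⟨.negSucc 608264, 34⟩], 0⟩,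
   ⟨[⟨.ofNat 73358373, 36⟩, ⟨.negSucc 56011286, 34⟩, ⟨.negSucc 17103884, 34⟩, ⟨.ofNat 183191913, 35⟩, ⟨.negSucc 72653412, 36⟩, ⟨.negSucc 55928000, 36⟩, ⟨.ofNat 12419029, 35⟩, ⟨.negSucc 823932, 34⟩, ⟨.negSucc 118776, 34⟩], 0⟩,
   ⟨[⟨.ofNat 990339389, 36⟩, ⟨.negSucc 5048218038, 36⟩, ⟨.negSucc 1313453204, 36⟩, ⟨.ofNat 25302319, 29⟩, ⟨.ofNat 225343925, 36⟩, ⟨.ofNat 205119041, 36⟩, ⟨.negSucc 5550430, 35⟩, ⟨.negSucc 3831366, 35⟩, ⟨.negSucc 2717108, 36⟩], 0⟩,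
   ⟨[⟨.negSucc 7386216384, 36⟩, ⟨.ofNat 1318659281, 35⟩, ⟨.ofNat 2519162999, 35⟩, ⟨.negSucc 364699380, 33⟩, ⟨.negSucc 55975170, 36⟩, ⟨.negSucc 32450486, 36⟩, ⟨.negSucc 2939888, 34⟩, ⟨.ofNat 4689001, 36⟩, ⟨.negSucc 98068, 34⟩], 0⟩,
   ⟨[⟨.ofNat 111986963, 35⟩, ⟨.negSucc 64676278, 35⟩, ⟨.negSucc 23329686, 33⟩, ⟨.ofNat 105761755, 35⟩, ⟨.negSucc 23299464, 36⟩, ⟨.negSucc 16203112, 35⟩, ⟨.ofNat 1626665, 36⟩, ⟨.negSucc 516604, 34⟩, ⟨.ofNat 264211, 36⟩], 0⟩,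
   ⟨[⟨.negSucc 4247024952, 36⟩, ⟨.ofNat 12494063, 35⟩, ⟨.ofNat 2888700177, 36⟩, ⟨.negSucc 22209988, 36⟩, ⟨.negSucc 18747670, 35⟩, ⟨.ofNat 2038865, 35⟩, ⟨.negSucc 7416310, 36⟩, ⟨.negSucc 503278, 36⟩, ⟨.negSucc 55998, 36⟩], 0⟩,
   ⟨[⟨.ofNat 129311407, 36⟩, ⟨.negSucc 46401896, 34⟩, ⟨.negSucc 107755100, 36⟩, ⟨.ofNat 36550875, 34⟩, ⟨.negSucc 13445878, 36⟩, ⟨.negSucc 1015532, 32⟩, ⟨.ofNat 121699, 33⟩, ⟨.ofNat 158973, 35⟩, ⟨.ofNat 22105, 33⟩], 0⟩,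
   ⟨[⟨.ofNat 0, 0⟩, ⟨.negSucc 53580294, 35⟩, ⟨.ofNat 29, 34⟩, ⟨.ofNat 21102707, 34⟩, ⟨.ofNat 769, 33⟩, ⟨.negSucc 4689100, 35⟩, ⟨.ofNat 15163, 35⟩, ⟨.ofNat 23501, 33⟩, ⟨.ofNat 8105, 35⟩], 0⟩]

def LA1E_L : List (List Sym) := [LA1E_0, LA1E_1, LA1E_2, LA1E_3, LA1E_4, LA1E_5, LA1E_6, LA1E_7]

noncomputable def LA1E (i : Nat) : Sym := sym16 LA1E_L i

end Pool.H61.Rh
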