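import Pool.Agent.H47.K3.Defs

/-! # generated: level-3 table LA1R (polynomials in θ, exact) -/

set_option autoImplicit false

namespace Pool.H61.Rh

open Pool.H47.Kc Pool.H47.K3

def LA1R_0 : List Sym :=
  [⟨[⟨.ofNat 930289991, 31⟩, ⟨.negSucc 372388872, 31⟩, ⟨.ofNat 6538431, 32⟩, ⟨.ofNat 5835757, 32⟩, ⟨.ofNat 579673, 32⟩, ⟨.ofNat 95625, 31⟩, ⟨.negSucc 11878, 30⟩], 0⟩,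
   ⟨[⟨.ofNat 2196623917, 32⟩, ⟨.ofNat 4817937, 31⟩, ⟨.ofNat 14824283, 30⟩, ⟨.negSucc 12855354, 31⟩, ⟨.negSucc 1761556, 30⟩, ⟨.negSucc 4394444, 32⟩, ⟨.ofNat 179001, 29⟩], 0⟩,
   ⟨[⟨.negSucc 91220244, 32⟩, ⟨.negSucc 50190188, 31⟩, ⟨.ofNat 84621293, 32⟩, ⟨.ofNat 88321217, 31⟩, ⟨.negSucc 68882500, 31⟩, ⟨.ofNat 672429, 27⟩, ⟨.negSucc 1074474, 32⟩], 0⟩,
   ⟨[⟨.ofNat 7689621, 31⟩, ⟨.negSucc 45723980, 30⟩, ⟨.ofNat 130880073, 31⟩, ⟨.negSucc 2752074, 29⟩, ⟨.negSucc 146766754, 32⟩, ⟨.ofNat 1932431, 32⟩, ⟨.ofNat 23301883, 32⟩], 0⟩,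
   ⟨[⟨.ofNat 119303285, 31⟩, ⟨.ofNat 96123819, 31⟩, ⟨.ofNat 19178117, 28⟩, ⟨.negSucc 306041318, 32⟩, ⟨.ofNat 8755049, 32⟩, ⟨.ofNat 64230839, 32⟩, ⟨.negSucc 6739302, 32⟩], 0⟩,
   ⟨[⟨.ofNat 30349509, 32⟩, ⟨.ofNat 83507623, 32⟩, ⟨.negSucc 1635576, 30⟩, ⟨.negSucc 106723142, 32⟩, ⟨.ofNat 10677757, 30⟩, ⟨.ofNat 5032509, 31⟩, ⟨.negSucc 5696040, 32⟩], 0⟩,
   ⟨[⟨.negSucc 291564, 30⟩, ⟨.negSucc 26200502, 30⟩, ⟨.ofNat 41745, 28⟩, ⟨.ofNat 180643611, 32⟩, ⟨.negSucc 1772410, 32⟩, ⟨.negSucc 31957056, 32⟩, ⟨.ofNat 659613, 32⟩], 0⟩,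
   ⟨[⟨.negSucc 62, 32⟩, ⟨.ofNat 3114589, 32⟩, ⟨.negSucc 99554, 32⟩, ⟨.negSucc 3241960, 31⟩, ⟨.negSucc 1710002, 32⟩, ⟨.ofNat 3217129, 31⟩, ⟨.negSucc 1833494, 32⟩], 0⟩,
   ⟨[⟨.negSucc 951877986, 30⟩, ⟨.negSucc 90608126, 32⟩, ⟨.ofNat 172714839, 32⟩, ⟨.negSucc 158585396, 32⟩, ⟨.ofNat 27593561, 32⟩, ⟨.negSucc 4346426, 31⟩, ⟨.ofNat 2897937, 32⟩], 0⟩,
   ⟨[⟨.negSucc 466939414, 32⟩, ⟨.ofNat 235973139, 31⟩, ⟨.negSucc 278606274, 32⟩, ⟨.negSucc 43075506, 32⟩, ⟨.negSucc 50788662, 32⟩, ⟨.negSucc 13514106, 32⟩, ⟨.ofNat 12631399, 32⟩], 0⟩,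
   ⟨[⟨.ofNat 55566859, 29⟩, ⟨.ofNat 295667113, 32⟩, ⟨.negSucc 35900890, 31⟩, ⟨.negSucc 15520874, 31⟩, ⟨.ofNat 138181587, 32⟩, ⟨.ofNat 32507541, 31⟩, ⟨.negSucc 8433756, 30⟩], 0⟩,
   ⟨[⟨.ofNat 227037741, 32⟩, ⟨.negSucc 80326366, 30⟩, ⟨.negSucc 323334248, 31⟩, ⟨.negSucc 329242186, 32⟩, ⟨.ofNat 93524361, 32⟩, ⟨.ofNat 10869373, 29⟩, ⟨.negSucc 1308710, 29⟩], 0⟩,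
   ⟨[⟨.negSucc 176341336, 32⟩, ⟨.ofNat 35362697, 31⟩, ⟨.ofNat 207653965, 32⟩, ⟨.negSucc 3559446, 28⟩, ⟨.ofNat 133381713, 32⟩, ⟨.negSucc 18706350, 31⟩, ⟨.negSucc 11706536, 32⟩], 0⟩,
   ⟨[⟨.negSucc 193847432, 32⟩, ⟨.negSucc 1862474, 27⟩, ⟨.negSucc 62959520, 32⟩, ⟨.ofNat 106135265, 32⟩, ⟨.negSucc 25135842, 30⟩, ⟨.negSucc 4431106, 31⟩, ⟨.negSucc 1388128, 32⟩], 0⟩,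
   ⟨[⟨.ofNat 1514979, 30⟩, ⟨.ofNat 224457, 29⟩, ⟨.negSucc 1069310, 30⟩, ⟨.negSucc 1988466, 31⟩, ⟨.ofNat 6056407, 32⟩, ⟨.ofNat 90445, 27⟩, ⟨.negSucc 3235426, 32⟩], 0⟩,
   ⟨[⟨.ofNat 30599725, 29⟩, ⟨.ofNat 227322957, 32⟩, ⟨.negSucc 801526264, 32⟩, ⟨.ofNat 209424641, 31⟩, ⟨.ofNat 25366397, 31⟩, ⟨.ofNat 28371817, 32⟩, ⟨.negSucc 1771196, 31⟩], 0⟩]

def LA1R_1 : List Sym :=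
  [⟨[⟨.negSucc 59894854, 32⟩, ⟨.negSucc 1132639898, 32⟩, ⟨.negSucc 206554222, 31⟩, ⟨.negSucc 151606894, 32⟩, ⟨.negSucc 1547672, 31⟩, ⟨.ofNat 40764139, 32⟩, ⟨.ofNat 528455, 29⟩], 0⟩,
   ⟨[⟨.negSucc 661783782, 32⟩, ⟨.ofNat 896486043, 32⟩, ⟨.ofNat 823443167, 32⟩, ⟨.ofNat 34861471, 30⟩, ⟨.ofNat 3272317, 30⟩, ⟨.ofNat 1786415, 31⟩, ⟨.negSucc 25084434, 32⟩], 0⟩,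
   ⟨[⟨.negSucc 398068860, 32⟩, ⟨.ofNat 299212843, 32⟩, ⟨.ofNat 96319587, 31⟩, ⟨.negSucc 226340546, 31⟩, ⟨.ofNat 55735243, 31⟩, ⟨.negSucc 5626836, 30⟩, ⟨.negSucc 15458206, 32⟩], 0⟩,
   ⟨[⟨.negSucc 102194960, 32⟩, ⟨.negSucc 360362218, 32⟩, ⟨.negSucc 45925730, 32⟩, ⟨.ofNat 241372573, 31⟩, ⟨.negSucc 7404196, 29⟩, ⟨.negSucc 18299504, 32⟩, ⟨.negSucc 569028, 29⟩], 0⟩,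
   ⟨[⟨.ofNat 1749341, 31⟩, ⟨.ofNat 690559, 29⟩, ⟨.negSucc 1244206, 31⟩, ⟨.negSucc 5171206, 30⟩, ⟨.ofNat 1584273, 31⟩, ⟨.ofNat 1815801, 30⟩, ⟨.negSucc 1113996, 31⟩], 0⟩,
   ⟨[⟨.ofNat 96314189, 31⟩, ⟨.negSucc 921713770, 32⟩, ⟨.ofNat 1202065265, 32⟩, ⟨.ofNat 369354025, 32⟩, ⟨.negSucc 18252236, 32⟩, ⟨.negSucc 4161858, 31⟩, ⟨.negSucc 8937796, 32⟩], 0⟩,
   ⟨[⟨.ofNat 536943945, 31⟩, ⟨.negSucc 200352172, 30⟩, ⟨.negSucc 772066986, 32⟩, ⟨.ofNat 63888621, 32⟩, ⟨.negSucc 100980104, 32⟩, ⟨.ofNat 18813559, 32⟩, ⟨.negSucc 2726050, 31⟩], 0⟩,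
   ⟨[⟨.negSucc 441262788, 32⟩, ⟨.ofNat 188233529, 32⟩, ⟨.ofNat 80351187, 30⟩, ⟨.negSucc 217973290, 32⟩, ⟨.ofNat 150381685, 32⟩, ⟨.negSucc 12939574, 30⟩, ⟨.negSucc 1007194, 30⟩], 0⟩,
   ⟨[⟨.ofNat 68352427, 30⟩, ⟨.negSucc 215909518, 32⟩, ⟨.negSucc 47652, 19⟩, ⟨.ofNat 140711177, 31⟩, ⟨.negSucc 22702486, 30⟩, ⟨.negSucc 2001334, 30⟩, ⟨.negSucc 2041350, 32⟩], 0⟩,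
   ⟨[⟨.negSucc 3972494, 31⟩, ⟨.ofNat 3188489, 32⟩, ⟨.ofNat 7395277, 32⟩, ⟨.negSucc 12039770, 32⟩, ⟨.ofNat 3921715, 31⟩, ⟨.ofNat 3852235, 32⟩, ⟨.negSucc 2954032, 32⟩], 0⟩,
   ⟨[⟨.negSucc 133463278, 30⟩, ⟨.ofNat 1250217657, 32⟩, ⟨.ofNat 481065077, 32⟩, ⟨.negSucc 44805306, 30⟩, ⟨.negSucc 49429556, 31⟩, ⟨.negSucc 3621732, 31⟩, ⟨.negSucc 1635518, 31⟩], 0⟩,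
   ⟨[⟨.negSucc 135519740, 30⟩, ⟨.ofNat 231187367, 31⟩, ⟨.ofNat 209495819, 32⟩, ⟨.negSucc 204011128, 31⟩, ⟨.ofNat 23950353, 30⟩, ⟨.negSucc 3687942, 32⟩, ⟨.negSucc 32108, 26⟩], 0⟩,
   ⟨[⟨.ofNat 83826955, 31⟩, ⟨.negSucc 269025188, 32⟩, ⟨.negSucc 234124714, 32⟩, ⟨.ofNat 4835231, 26⟩, ⟨.negSucc 23548422, 31⟩, ⟨.ofNat 1119051, 31⟩, ⟨.ofNat 63769, 32⟩], 0⟩,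
   ⟨[⟨.negSucc 1146750, 30⟩, ⟨.ofNat 876029, 28⟩, ⟨.ofNat 2164723, 31⟩, ⟨.negSucc 2909294, 29⟩, ⟨.ofNat 5554901, 32⟩, ⟨.ofNat 129997, 28⟩, ⟨.negSucc 605910, 32⟩], 0⟩,
   ⟨[⟨.negSucc 30962572, 31⟩, ⟨.ofNat 125736133, 31⟩, ⟨.ofNat 5154869, 28⟩, ⟨.negSucc 190465304, 32⟩, ⟨.negSucc 3517596, 30⟩, ⟨.negSucc 1708418, 32⟩, ⟨.ofNat 414027, 31⟩], 0⟩,
   ⟨[⟨.ofNat 115463601, 30⟩, ⟨.negSucc 163159090, 32⟩, ⟨.negSucc 317507326, 32⟩, ⟨.ofNat 180860851, 32⟩, ⟨.ofNat 2150263, 31⟩, ⟨.ofNat 127585, 28⟩, ⟨.ofNat 366589, 32⟩], 0⟩]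

def LA1R_2 : List Sym :=
  [⟨[⟨.negSucc 3501226, 30⟩, ⟨.ofNat 2023421, 30⟩, ⟨.ofNat 11669623, 32⟩, ⟨.negSucc 6660406, 31⟩, ⟨.ofNat 1738087, 32⟩, ⟨.ofNat 1611637, 32⟩, ⟨.ofNat 231489, 32⟩], 0⟩,
   ⟨[⟨.ofNat 132781599, 31⟩, ⟨.negSucc 1562372, 32⟩, ⟨.negSucc 91018988, 31⟩, ⟨.ofNat 174671, 29⟩, ⟨.ofNat 764237, 30⟩, ⟨.negSucc 241632, 32⟩, ⟨.ofNat 16581, 27⟩], 0⟩,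
   ⟨[⟨.negSucc 4042874, 31⟩, ⟨.ofNat 11606581, 32⟩, ⟨.ofNat 6718305, 32⟩, ⟨.negSucc 9073454, 32⟩, ⟨.ofNat 1321, 23⟩, ⟨.ofNat 1251005, 32⟩, ⟨.negSucc 52852, 30⟩], 0⟩,
   ⟨[⟨.negSucc 0, 31⟩, ⟨.ofNat 6700851, 32⟩, ⟨.negSucc 1448, 31⟩, ⟨.negSucc 5257976, 32⟩, ⟨.negSucc 6116, 29⟩, ⟨.ofNat 653643, 32⟩, ⟨.negSucc 49904, 32⟩], 0⟩,
   ⟨[⟨.ofNat 440322563, 32⟩, ⟨.ofNat 645553051, 32⟩, ⟨.negSucc 450449180, 32⟩, ⟨.negSucc 98662380, 32⟩, ⟨.ofNat 28519325, 32⟩, ⟨.negSucc 11357500, 32⟩, ⟨.ofNat 1760837, 32⟩], 0⟩,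
   ⟨[⟨.ofNat 4963189, 27⟩, ⟨.ofNat 446521965, 30⟩, ⟨.ofNat 14003583, 29⟩, ⟨.negSucc 342049336, 30⟩, ⟨.ofNat 2273995, 30⟩, ⟨.ofNat 145561981, 31⟩, ⟨.negSucc 40182624, 32⟩], 0⟩,
   ⟨[⟨.negSucc 1271999292, 32⟩, ⟨.ofNat 2471497, 28⟩, ⟨.ofNat 64260101, 28⟩, ⟨.negSucc 230975748, 30⟩, ⟨.ofNat 9992833, 30⟩, ⟨.ofNat 150359137, 31⟩, ⟨.negSucc 76347852, 32⟩], 0⟩,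
   ⟨[⟨.negSucc 414355090, 32⟩, ⟨.negSucc 3493074996, 32⟩, ⟨.negSucc 275454436, 32⟩, ⟨.ofNat 331518843, 29⟩, ⟨.ofNat 39827989, 32⟩, ⟨.negSucc 504611628, 32⟩, ⟨.ofNat 34684573, 32⟩], 0⟩,
   ⟨[⟨.ofNat 165645395, 30⟩, ⟨.negSucc 144154824, 30⟩, ⟨.negSucc 348122818, 31⟩, ⟨.ofNat 557992871, 31⟩, ⟨.negSucc 71764108, 32⟩, ⟨.negSucc 238089674, 32⟩, ⟨.ofNat 12885113, 30⟩], 0⟩,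
   ⟨[⟨.negSucc 4933378, 30⟩, ⟨.ofNat 473337787, 30⟩, ⟨.ofNat 16049639, 31⟩, ⟨.negSucc 393985144, 30⟩, ⟨.negSucc 13211632, 32⟩, ⟨.ofNat 34122827, 29⟩, ⟨.negSucc 10320432, 32⟩], 0⟩,
   ⟨[⟨.ofNat 125, 30⟩, ⟨.negSucc 57063578, 32⟩, ⟨.ofNat 383, 21⟩, ⟨.ofNat 73801241, 32⟩, ⟨.ofNat 6735559, 31⟩, ⟨.negSucc 53260658, 32⟩, ⟨.ofNat 14438381, 32⟩], 0⟩,
   ⟨[⟨.negSucc 305719312, 31⟩, ⟨.negSucc 1118047262, 31⟩, ⟨.ofNat 550371805, 31⟩, ⟨.ofNat 596313743, 32⟩, ⟨.negSucc 13667454, 28⟩, ⟨.negSucc 312480, 28⟩, ⟨.ofNat 12675487, 32⟩], 0⟩,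
   ⟨[⟨.negSucc 1972741984, 32⟩, ⟨.negSucc 2270928258, 32⟩, ⟨.ofNat 1260061737, 32⟩, ⟨.ofNat 408220593, 32⟩, ⟨.ofNat 273134623, 32⟩, ⟨.negSucc 48308610, 32⟩, ⟨.negSucc 67673088, 32⟩], 0⟩,
   ⟨[⟨.ofNat 748999939, 30⟩, ⟨.ofNat 1255214301, 32⟩, ⟨.negSucc 3484915548, 32⟩, ⟨.ofNat 140425197, 31⟩, ⟨.ofNat 226734179, 30⟩, ⟨.negSucc 146800380, 31⟩, ⟨.ofNat 6279301, 32⟩], 0⟩,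
   ⟨[⟨.ofNat 272633071, 29⟩, ⟨.ofNat 1954239619, 32⟩, ⟨.negSucc 2159179906, 32⟩, ⟨.negSucc 40656884, 31⟩, ⟨.negSucc 36531412, 29⟩, ⟨.negSucc 29916902, 32⟩, ⟨.ofNat 47022789, 31⟩], 0⟩,
   ⟨[⟨.negSucc 2314290760, 32⟩, ⟨.ofNat 1036351221, 32⟩, ⟨.ofNat 3300043841, 32⟩, ⟨.negSucc 436735242, 31⟩, ⟨.negSucc 343065538, 32⟩, ⟨.ofNat 49230473, 31⟩, ⟨.ofNat 2243937, 32⟩], 0⟩]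

def LA1R_3 : List Sym :=
  [⟨[⟨.ofNat 8544837, 29⟩, ⟨.negSucc 514498, 26⟩, ⟨.negSucc 22167888, 30⟩, ⟨.ofNat 44233131, 32⟩, ⟨.ofNat 13859921, 31⟩, ⟨.negSucc 25020770, 32⟩, ⟨.ofNat 1859237, 30⟩], 0⟩,
   ⟨[⟨.negSucc 679684306, 32⟩, ⟨.ofNat 45328681, 32⟩, ⟨.ofNat 1762870109, 32⟩, ⟨.negSucc 157853496, 30⟩, ⟨.negSucc 107396824, 31⟩, ⟨.ofNat 70289669, 31⟩, ⟨.negSucc 5738716, 32⟩], 0⟩,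
   ⟨[⟨.ofNat 594943735, 31⟩, ⟨.negSucc 116968288, 31⟩, ⟨.negSucc 700766226, 32⟩, ⟨.ofNat 291427027, 32⟩, ⟨.ofNat 14747767, 31⟩, ⟨.negSucc 79178516, 31⟩, ⟨.negSucc 2486038, 32⟩], 0⟩,
   ⟨[⟨.ofNat 1101391109, 32⟩, ⟨.negSucc 43017762, 32⟩, ⟨.negSucc 1027749262, 32⟩, ⟨.ofNat 1835739979, 32⟩, ⟨.negSucc 88473814, 30⟩, ⟨.negSucc 154330208, 31⟩, ⟨.ofNat 89816355, 32⟩], 0⟩,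
   ⟨[⟨.negSucc 1330843278, 32⟩, ⟨.negSucc 574761700, 32⟩, ⟨.ofNat 978321393, 31⟩, ⟨.negSucc 651790662, 31⟩, ⟨.negSucc 221243242, 32⟩, ⟨.ofNat 32446141, 29⟩, ⟨.negSucc 6767944, 32⟩], 0⟩,
   ⟨[⟨.ofNat 39467313, 32⟩, ⟨.negSucc 18667444, 31⟩, ⟨.negSucc 50564004, 32⟩, ⟨.ofNat 26475681, 30⟩, ⟨.ofNat 13403009, 31⟩, ⟨.negSucc 61804266, 32⟩, ⟨.ofNat 15789387, 32⟩], 0⟩,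
   ⟨[⟨.ofNat 810687343, 32⟩, ⟨.ofNat 3179809281, 32⟩, ⟨.negSucc 848630886, 31⟩, ⟨.negSucc 308716828, 31⟩, ⟨.ofNat 270447083, 32⟩, ⟨.ofNat 5287029, 32⟩, ⟨.negSucc 918250, 32⟩], 0⟩,
   ⟨[⟨.ofNat 1642382009, 32⟩, ⟨.ofNat 2063312635, 32⟩, ⟨.negSucc 3111698118, 32⟩, ⟨.ofNat 201937643, 31⟩, ⟨.ofNat 43659057, 29⟩, ⟨.negSucc 116074692, 32⟩, ⟨.ofNat 1070025, 30⟩], 0⟩,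
   ⟨[⟨.negSucc 2295885416, 32⟩, ⟨.negSucc 201667302, 31⟩, ⟨.ofNat 3331454565, 32⟩, ⟨.negSucc 687907056, 32⟩, ⟨.negSucc 380393340, 32⟩, ⟨.ofNat 119850627, 32⟩, ⟨.ofNat 2486057, 32⟩], 0⟩,
   ⟨[⟨.ofNat 68358739, 32⟩, ⟨.negSucc 2692974, 29⟩, ⟨.negSucc 151895784, 32⟩, ⟨.ofNat 62196845, 32⟩, ⟨.ofNat 5311457, 29⟩, ⟨.negSucc 7990868, 30⟩, ⟨.ofNat 3880263, 31⟩], 0⟩,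
   ⟨[⟨.ofNat 139858157, 32⟩, ⟨.ofNat 179080927, 31⟩, ⟨.negSucc 433663554, 31⟩, ⟨.negSucc 124811574, 32⟩, ⟨.ofNat 69883265, 32⟩, ⟨.ofNat 19386135, 32⟩, ⟨.negSucc 8973906, 32⟩], 0⟩,
   ⟨[⟨.negSucc 325120876, 30⟩, ⟨.negSucc 309574736, 29⟩, ⟨.ofNat 484406009, 30⟩, ⟨.ofNat 273912035, 32⟩, ⟨.negSucc 115781868, 31⟩, ⟨.ofNat 9784109, 32⟩, ⟨.negSucc 4021424, 32⟩], 0⟩,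
   ⟨[⟨.ofNat 39466815, 32⟩, ⟨.ofNat 19728507, 32⟩, ⟨.negSucc 21971696, 30⟩, ⟨.ofNat 8021219, 30⟩, ⟨.ofNat 21256339, 32⟩, ⟨.negSucc 4300754, 31⟩, ⟨.ofNat 914465, 32⟩], 0⟩,
   ⟨[⟨.negSucc 10, 30⟩, ⟨.negSucc 722341332, 31⟩, ⟨.ofNat 4225911, 31⟩, ⟨.ofNat 44358751, 30⟩, ⟨.negSucc 1961774, 31⟩, ⟨.ofNat 2425871, 32⟩, ⟨.negSucc 140876, 29⟩], 0⟩,
   ⟨[⟨.ofNat 43, 32⟩, ⟨.ofNat 1423017, 29⟩, ⟨.negSucc 63224228, 32⟩, ⟨.ofNat 17963715, 32⟩, ⟨.ofNat 14771813, 32⟩, ⟨.negSucc 3471352, 31⟩, ⟨.ofNat 161789, 31⟩], 0⟩,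
   ⟨[⟨.ofNat 1, 31⟩, ⟨.negSucc 90, 31⟩, ⟨.negSucc 18269198, 31⟩, ⟨.negSucc 16606, 32⟩, ⟨.ofNat 7921439, 32⟩, ⟨.negSucc 28950, 31⟩, ⟨.negSucc 436540, 32⟩], 0⟩]

def LA1R_4 : List Sym :=
  [⟨[⟨.negSucc 1091785870, 32⟩, ⟨.negSucc 28475204, 31⟩, ⟨.ofNat 42303397, 30⟩, ⟨.ofNat 39853411, 32⟩, ⟨.negSucc 2984838, 32⟩, ⟨.negSucc 11753616, 31⟩, ⟨.ofNat 1841783, 31⟩], 0⟩,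
   ⟨[⟨.negSucc 1102657844, 32⟩, ⟨.ofNat 225029125, 31⟩, ⟨.negSucc 759605634, 32⟩, ⟨.negSucc 29620782, 32⟩, ⟨.ofNat 24592869, 31⟩, ⟨.ofNat 17954891, 31⟩, ⟨.negSucc 74196, 26⟩], 0⟩,
   ⟨[⟨.ofNat 235222999, 29⟩, ⟨.ofNat 529544825, 32⟩, ⟨.negSucc 558578964, 31⟩, ⟨.ofNat 273149641, 32⟩, ⟨.ofNat 2055713, 29⟩, ⟨.ofNat 6033857, 31⟩, ⟨.ofNat 143829, 32⟩], 0⟩,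
   ⟨[⟨.ofNat 1607251809, 32⟩, ⟨.negSucc 932976308, 32⟩, ⟨.ofNat 2014256359, 32⟩, ⟨.ofNat 208275541, 31⟩, ⟨.negSucc 25722902, 30⟩, ⟨.negSucc 43717020, 31⟩, ⟨.negSucc 6223746, 32⟩], 0⟩,
   ⟨[⟨.negSucc 883100352, 32⟩, ⟨.negSucc 963079540, 32⟩, ⟨.ofNat 1168070741, 32⟩, ⟨.negSucc 387758, 27⟩, ⟨.negSucc 39959974, 30⟩, ⟨.negSucc 814166, 30⟩, ⟨.ofNat 5022915, 31⟩], 0⟩,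
   ⟨[⟨.negSucc 531768438, 32⟩, ⟨.ofNat 30165775, 32⟩, ⟨.negSucc 165065032, 29⟩, ⟨.negSucc 1130152, 28⟩, ⟨.ofNat 104742399, 32⟩, ⟨.negSucc 631586, 31⟩, ⟨.negSucc 1226584, 31⟩], 0⟩,
   ⟨[⟨.ofNat 8481381, 31⟩, ⟨.negSucc 2, 30⟩, ⟨.ofNat 29139263, 32⟩, ⟨.negSucc 1258, 32⟩, ⟨.negSucc 2998144, 29⟩, ⟨.negSucc 3186, 31⟩, ⟨.ofNat 1420949, 32⟩], 0⟩,
   ⟨[⟨.ofNat 347316287, 31⟩, ⟨.ofNat 1656678877, 32⟩, ⟨.ofNat 833197191, 32⟩, ⟨.negSucc 532764880, 32⟩, ⟨.negSucc 107749270, 31⟩, ⟨.ofNat 35074463, 31⟩, ⟨.ofNat 3621391, 30⟩], 0⟩,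
   ⟨[⟨.ofNat 910700599, 31⟩, ⟨.ofNat 2177060717, 32⟩, ⟨.negSucc 38647718, 31⟩, ⟨.ofNat 41496333, 30⟩, ⟨.negSucc 23202186, 30⟩, ⟨.ofNat 132161645, 32⟩, ⟨.negSucc 26582780, 31⟩], 0⟩,
   ⟨[⟨.ofNat 527205239, 32⟩, ⟨.negSucc 1906133716, 31⟩, ⟨.negSucc 27077612, 27⟩, ⟨.ofNat 381430775, 32⟩, ⟨.ofNat 14884669, 28⟩, ⟨.negSucc 70845338, 31⟩, ⟨.ofNat 13493917, 32⟩], 0⟩,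
   ⟨[⟨.negSucc 1010603664, 32⟩, ⟨.negSucc 2145263664, 32⟩, ⟨.negSucc 138625570, 31⟩, ⟨.ofNat 77957929, 31⟩, ⟨.ofNat 46869015, 31⟩, ⟨.negSucc 178231110, 32⟩, ⟨.ofNat 11481915, 30⟩], 0⟩,
   ⟨[⟨.negSucc 291399794, 32⟩, ⟨.ofNat 3244146027, 32⟩, ⟨.negSucc 766171278, 32⟩, ⟨.negSucc 595580852, 32⟩, ⟨.ofNat 39981545, 32⟩, ⟨.ofNat 16930703, 29⟩, ⟨.negSucc 822968, 32⟩], 0⟩,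
   ⟨[⟨.ofNat 1224215, 29⟩, ⟨.negSucc 111364412, 32⟩, ⟨.ofNat 17239323, 32⟩, ⟨.ofNat 2430025, 28⟩, ⟨.negSucc 6696882, 32⟩, ⟨.negSucc 20495924, 32⟩, ⟨.ofNat 8516913, 32⟩], 0⟩,
   ⟨[⟨.ofNat 559529981, 31⟩, ⟨.ofNat 20355917, 32⟩, ⟨.negSucc 890487134, 31⟩, ⟨.negSucc 23029246, 28⟩, ⟨.ofNat 1786129, 31⟩, ⟨.ofNat 115827189, 31⟩, ⟨.negSucc 47455756, 32⟩], 0⟩,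
   ⟨[⟨.negSucc 584792346, 32⟩, ⟨.negSucc 2300689884, 32⟩, ⟨.ofNat 1340419029, 32⟩, ⟨.ofNat 36294619, 31⟩, ⟨.ofNat 426095739, 32⟩, ⟨.negSucc 143123570, 32⟩, ⟨.negSucc 17486470, 32⟩], 0⟩,
   ⟨[⟨.negSucc 16724116, 26⟩, ⟨.negSucc 64567018, 28⟩, ⟨.ofNat 860715281, 31⟩, ⟨.negSucc 30524980, 31⟩, ⟨.negSucc 196356006, 32⟩, ⟨.negSucc 93186524, 32⟩, ⟨.ofNat 65122667, 32⟩], 0⟩]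

def LA1R_5 : List Sym :=
  [⟨[⟨.negSucc 16736370, 28⟩, ⟨.ofNat 1853588041, 32⟩, ⟨.negSucc 224137776, 31⟩, ⟨.negSucc 365099400, 32⟩, ⟨.negSucc 237329104, 32⟩, ⟨.ofNat 34221699, 31⟩, ⟨.negSucc 3175046, 32⟩], 0⟩,
   ⟨[⟨.ofNat 9160109, 32⟩, ⟨.negSucc 16071620, 30⟩, ⟨.ofNat 21292825, 30⟩, ⟨.ofNat 23344201, 32⟩, ⟨.negSucc 15456438, 32⟩, ⟨.negSucc 8667286, 32⟩, ⟨.ofNat 271935, 29⟩], 0⟩,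
   ⟨[⟨.negSucc 104889516, 29⟩, ⟨.negSucc 2702693840, 32⟩, ⟨.negSucc 84648772, 29⟩, ⟨.ofNat 150812697, 31⟩, ⟨.ofNat 242959889, 31⟩, ⟨.negSucc 11022078, 32⟩, ⟨.negSucc 6724814, 29⟩], 0⟩,
   ⟨[⟨.negSucc 1094421702, 32⟩, ⟨.negSucc 1023689264, 32⟩, ⟨.ofNat 55156109, 31⟩, ⟨.ofNat 433005683, 31⟩, ⟨.ofNat 15999537, 32⟩, ⟨.negSucc 150234788, 31⟩, ⟨.ofNat 68614507, 32⟩], 0⟩,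
   ⟨[⟨.negSucc 8724612, 28⟩, ⟨.ofNat 1600486451, 31⟩, ⟨.negSucc 117207422, 31⟩, ⟨.negSucc 579451096, 32⟩, ⟨.negSucc 82834914, 31⟩, ⟨.ofNat 37361539, 30⟩, ⟨.negSucc 3144438, 31⟩], 0⟩,
   ⟨[⟨.ofNat 2644429, 31⟩, ⟨.negSucc 52450748, 31⟩, ⟨.ofNat 49592285, 32⟩, ⟨.ofNat 62133649, 32⟩, ⟨.negSucc 877878, 31⟩, ⟨.negSucc 16716058, 31⟩, ⟨.ofNat 554641, 28⟩], 0⟩,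
   ⟨[⟨.negSucc 34500776, 32⟩, ⟨.ofNat 548959755, 32⟩, ⟨.negSucc 194324908, 32⟩, ⟨.ofNat 376395361, 32⟩, ⟨.ofNat 83170023, 32⟩, ⟨.negSucc 170768450, 32⟩, ⟨.negSucc 92546, 28⟩], 0⟩,
   ⟨[⟨.ofNat 257317827, 32⟩, ⟨.ofNat 1799038397, 32⟩, ⟨.ofNat 464935047, 31⟩, ⟨.negSucc 83071328, 30⟩, ⟨.negSucc 352272196, 32⟩, ⟨.ofNat 89680299, 32⟩, ⟨.negSucc 5190826, 31⟩], 0⟩,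
   ⟨[⟨.negSucc 7802600, 32⟩, ⟨.negSucc 60558372, 32⟩, ⟨.ofNat 1753553, 27⟩, ⟨.ofNat 18235793, 31⟩, ⟨.ofNat 1239347, 29⟩, ⟨.negSucc 8593194, 31⟩, ⟨.ofNat 1095265, 31⟩], 0⟩,
   ⟨[⟨.ofNat 147956167, 32⟩, ⟨.negSucc 887446, 32⟩, ⟨.ofNat 141388877, 30⟩, ⟨.negSucc 2313092, 31⟩, ⟨.negSucc 202931102, 32⟩, ⟨.negSucc 3433570, 32⟩, ⟨.negSucc 3272300, 32⟩], 0⟩,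
   ⟨[⟨.negSucc 2252430, 31⟩, ⟨.ofNat 6462915, 32⟩, ⟨.ofNat 16176481, 31⟩, ⟨.ofNat 23253249, 32⟩, ⟨.ofNat 1235281, 30⟩, ⟨.negSucc 12632, 22⟩, ⟨.ofNat 11167, 27⟩], 0⟩,
   ⟨[⟨.ofNat 13, 30⟩, ⟨.ofNat 932025, 30⟩, ⟨.ofNat 81659, 32⟩, ⟨.ofNat 6563063, 31⟩, ⟨.ofNat 1386055, 32⟩, ⟨.negSucc 4262738, 31⟩, ⟨.ofNat 44875, 27⟩], 0⟩,
   ⟨[⟨.negSucc 24124226, 32⟩, ⟨.ofNat 9, 32⟩, ⟨.negSucc 7543886, 31⟩, ⟨.ofNat 405, 31⟩, ⟨.ofNat 1049707, 32⟩, ⟨.ofNat 1365, 31⟩, ⟨.ofNat 27405, 32⟩], 0⟩,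
   ⟨[⟨.ofNat 187831839, 32⟩, ⟨.negSucc 270, 30⟩, ⟨.negSucc 15905462, 32⟩, ⟨.negSucc 49716, 31⟩, ⟨.negSucc 4610558, 32⟩, ⟨.negSucc 352522, 32⟩, ⟨.negSucc 1528138, 32⟩], 0⟩,
   ⟨[⟨.negSucc 83158534, 32⟩, ⟨.ofNat 2371, 30⟩, ⟨.negSucc 25447284, 31⟩, ⟨.ofNat 870185, 32⟩, ⟨.negSucc 42553092, 31⟩, ⟨.ofNat 3088697, 32⟩, ⟨.ofNat 3507781, 30⟩], 0⟩,
   ⟨[⟨.ofNat 70788499, 31⟩, ⟨.negSucc 5670, 31⟩, ⟨.ofNat 47386991, 29⟩, ⟨.negSucc 521610, 31⟩, ⟨.negSucc 17646082, 32⟩, ⟨.negSucc 1863728, 31⟩, ⟨.ofNat 13791, 32⟩], 0⟩]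

def LA1R_6 : List Sym :=
  [⟨[⟨.negSucc 4896726, 32⟩, ⟨.ofNat 3, 32⟩, ⟨.negSucc 8411780, 32⟩, ⟨.ofNat 363, 32⟩, ⟨.ofNat 6923919, 32⟩, ⟨.ofNat 115, 28⟩, ⟨.negSucc 410192, 32⟩], 0⟩,
   ⟨[⟨.ofNat 15, 31⟩, ⟨.negSucc 766784, 24⟩, ⟨.ofNat 47199, 32⟩, ⟨.negSucc 5371642, 28⟩, ⟨.ofNat 819097, 32⟩, ⟨.negSucc 2947634, 31⟩, ⟨.ofNat 904147, 32⟩], 0⟩,
   ⟨[⟨.negSucc 2, 29⟩, ⟨.ofNat 82745337, 29⟩, ⟨.negSucc 2416, 28⟩, ⟨.ofNat 26773905, 30⟩, ⟨.negSucc 352886, 31⟩, ⟨.negSucc 12018538, 32⟩, ⟨.negSucc 441946, 31⟩], 0⟩,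
   ⟨[⟨.ofNat 11, 31⟩, ⟨.negSucc 386117986, 32⟩, ⟨.ofNat 36855, 32⟩, ⟨.negSucc 133641082, 31⟩, ⟨.ofNat 191397, 30⟩, ⟨.ofNat 6956079, 30⟩, ⟨.ofNat 1226049, 32⟩], 0⟩,
   ⟨[⟨.ofNat 17, 30⟩, ⟨.ofNat 15675299, 32⟩, ⟨.ofNat 26603, 30⟩, ⟨.ofNat 10080569, 32⟩, ⟨.ofNat 912237, 31⟩, ⟨.negSucc 4729712, 31⟩, ⟨.ofNat 973103, 31⟩], 0⟩,
   ⟨[⟨.negSucc 2743520, 31⟩, ⟨.negSucc 232, 32⟩, ⟨.negSucc 154694792, 30⟩, ⟨.negSucc 676, 27⟩, ⟨.negSucc 3453496, 30⟩, ⟨.negSucc 79838, 32⟩, ⟨.ofNat 885037, 32⟩], 0⟩,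
   ⟨[⟨.negSucc 743728860, 32⟩, ⟨.negSucc 1330, 32⟩, ⟨.ofNat 21838037, 27⟩, ⟨.negSucc 121774, 32⟩, ⟨.negSucc 8716710, 32⟩, ⟨.negSucc 107246, 30⟩, ⟨.negSucc 574940, 32⟩], 0⟩,
   ⟨[⟨.ofNat 2748231, 29⟩, ⟨.ofNat 573, 30⟩, ⟨.negSucc 20916882, 31⟩, ⟨.ofNat 52433, 30⟩, ⟨.ofNat 4486639, 32⟩, ⟨.ofNat 369359, 31⟩, ⟨.ofNat 402703, 31⟩], 0⟩,
   ⟨[⟨.ofNat 1, 32⟩, ⟨.negSucc 176544078, 30⟩, ⟨.ofNat 863, 31⟩, ⟨.ofNat 83518281, 32⟩, ⟨.ofNat 16421, 31⟩, ⟨.negSucc 968902, 32⟩, ⟨.ofNat 11261, 30⟩], 0⟩,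
   ⟨[⟨.negSucc 2, 31⟩, ⟨.ofNat 239261, 28⟩, ⟨.negSucc 9762, 32⟩, ⟨.ofNat 304147, 29⟩, ⟨.negSucc 20910, 29⟩, ⟨.ofNat 841531, 32⟩, ⟨.negSucc 178154, 32⟩], 0⟩,
   ⟨[⟨.ofNat 1, 32⟩, ⟨.negSucc 90, 32⟩, ⟨.negSucc 18269198, 32⟩, ⟨.negSucc 8302, 32⟩, ⟨.ofNat 3960719, 32⟩, ⟨.negSucc 28950, 32⟩, ⟨.negSucc 218270, 32⟩], 0⟩]

def LA1R_L : List (List Sym) := [LA1R_0, LA1R_1, LA1R_2, LA1R_3, LA1R_4, LA1R_5, LA1R_6]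

noncomputable def LA1R (i : Nat) : Sym := sym16 LA1R_L i

end Pool.H61.Rh
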