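import Pool.Agent.H47.K3.Defs

/-! # generated: level-3 table LA2E (polynomials in θ, exact) -/

set_option autoImplicit false

namespace Pool.H61.Rh

open Pool.H47.Kc Pool.H47.K3

def LA2E_0 : List Sym :=
  [⟨[⟨.ofNat 866329433, 36⟩, ⟨.negSucc 438127992, 36⟩, ⟨.negSucc 31174050, 32⟩, ⟨.ofNat 22231253, 35⟩, ⟨.ofNat 13647377, 35⟩, ⟨.negSucc 140432, 34⟩, ⟨.negSucc 643112, 36⟩, ⟨.ofNat 23549, 36⟩, ⟨.ofNat 1853, 34⟩], 0⟩,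
   ⟨[⟨.negSucc 505601396, 35⟩, ⟨.negSucc 1333062716, 36⟩, ⟨.ofNat 842884657, 35⟩, ⟨.ofNat 207057507, 34⟩, ⟨.negSucc 167489130, 36⟩, ⟨.negSucc 9372602, 36⟩, ⟨.ofNat 4717851, 35⟩, ⟨.negSucc 2502474, 36⟩, ⟨.ofNat 194675, 36⟩], 0⟩,
   ⟨[⟨.negSucc 192447190, 33⟩, ⟨.ofNat 2934985113, 36⟩, ⟨.ofNat 624750333, 34⟩, ⟨.negSucc 2765201436, 36⟩, ⟨.negSucc 56156238, 36⟩, ⟨.ofNat 882324685, 36⟩, ⟨.ofNat 29936219, 35⟩, ⟨.negSucc 67941582, 36⟩, ⟨.ofNat 7115423, 36⟩], 0⟩,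
   ⟨[⟨.ofNat 6058709043, 36⟩, ⟨.ofNat 969134339, 34⟩, ⟨.negSucc 6764377408, 36⟩, ⟨.negSucc 2169800388, 35⟩, ⟨.ofNat 2970580291, 36⟩, ⟨.ofNat 1437250009, 36⟩, ⟨.ofNat 35127049, 35⟩, ⟨.negSucc 9493544, 34⟩, ⟨.negSucc 1535186, 33⟩], 0⟩,
   ⟨[⟨.ofNat 3128110561, 35⟩, ⟨.negSucc 3131525814, 36⟩, ⟨.negSucc 7022581024, 36⟩, ⟨.ofNat 5212138749, 36⟩, ⟨.ofNat 3313532677, 36⟩, ⟨.negSucc 315532374, 34⟩, ⟨.ofNat 32714647, 36⟩, ⟨.ofNat 5394957, 32⟩, ⟨.negSucc 15468900, 36⟩], 0⟩,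
   ⟨[⟨.ofNat 84345997, 34⟩, ⟨.negSucc 333799082, 34⟩, ⟨.ofNat 736453345, 36⟩, ⟨.ofNat 1711204015, 36⟩, ⟨.ofNat 3618451, 32⟩, ⟨.negSucc 14555302, 33⟩, ⟨.ofNat 16271619, 34⟩, ⟨.ofNat 5707621, 36⟩, ⟨.negSucc 139836, 34⟩], 0⟩,
   ⟨[⟨.negSucc 16406404, 36⟩, ⟨.ofNat 419218195, 34⟩, ⟨.negSucc 1435660, 35⟩, ⟨.negSucc 721711530, 34⟩, ⟨.negSucc 1816380, 36⟩, ⟨.ofNat 519697025, 36⟩, ⟨.ofNat 6798551, 36⟩, ⟨.negSucc 5208338, 36⟩, ⟨.ofNat 345867, 34⟩], 0⟩,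
   ⟨[⟨.ofNat 0, 0⟩, ⟨.negSucc 24866934, 35⟩, ⟨.negSucc 1080, 36⟩, ⟨.ofNat 113318043, 36⟩, ⟨.negSucc 27408, 35⟩, ⟨.negSucc 15647412, 34⟩, ⟨.negSucc 474, 27⟩, ⟨.ofNat 2162593, 34⟩, ⟨.negSucc 93744, 36⟩], 0⟩,
   ⟨[⟨.ofNat 3070577129, 36⟩, ⟨.ofNat 1069808255, 35⟩, ⟨.negSucc 1530563820, 36⟩, ⟨.negSucc 2897495820, 36⟩, ⟨.negSucc 621366030, 36⟩, ⟨.negSucc 141710894, 36⟩, ⟨.negSucc 160742, 28⟩, ⟨.ofNat 691925, 31⟩, ⟨.negSucc 48452, 36⟩], 0⟩,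
   ⟨[⟨.ofNat 975735277, 35⟩, ⟨.negSucc 5821375004, 36⟩, ⟨.negSucc 559771856, 35⟩, ⟨.negSucc 136470714, 36⟩, ⟨.ofNat 341634321, 34⟩, ⟨.negSucc 229680910, 36⟩, ⟨.negSucc 194705966, 36⟩, ⟨.ofNat 23800173, 36⟩, ⟨.ofNat 1956131, 35⟩], 0⟩,
   ⟨[⟨.negSucc 223637774, 34⟩, ⟨.negSucc 12254181216, 36⟩, ⟨.ofNat 2490921831, 36⟩, ⟨.ofNat 7765705625, 36⟩, ⟨.ofNat 4432506245, 36⟩, ⟨.ofNat 496392603, 35⟩, ⟨.negSucc 209747202, 36⟩, ⟨.negSucc 38910890, 35⟩, ⟨.ofNat 7100281, 35⟩], 0⟩,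
   ⟨[⟨.ofNat 816090047, 36⟩, ⟨.negSucc 710094090, 35⟩, ⟨.negSucc 11626478410, 36⟩, ⟨.ofNat 1504449629, 36⟩, ⟨.ofNat 4384978589, 36⟩, ⟨.ofNat 1529710683, 36⟩, ⟨.ofNat 263290991, 36⟩, ⟨.negSucc 10850210, 33⟩, ⟨.negSucc 2595436, 34⟩], 0⟩,
   ⟨[⟨.ofNat 2561379257, 36⟩, ⟨.ofNat 134520613, 33⟩, ⟨.negSucc 1845844314, 36⟩, ⟨.negSucc 1930227094, 36⟩, ⟨.negSucc 3250268926, 36⟩, ⟨.negSucc 33017752, 36⟩, ⟨.ofNat 436530697, 36⟩, ⟨.ofNat 10362507, 36⟩, ⟨.negSucc 9019854, 36⟩], 0⟩,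
   ⟨[⟨.ofNat 388182273, 33⟩, ⟨.negSucc 477602228, 35⟩, ⟨.ofNat 977128027, 36⟩, ⟨.ofNat 846178891, 35⟩, ⟨.ofNat 1545487945, 36⟩, ⟨.negSucc 144555364, 35⟩, ⟨.negSucc 79296890, 36⟩, ⟨.ofNat 5146021, 36⟩, ⟨.ofNat 4555493, 36⟩], 0⟩,
   ⟨[⟨.negSucc 96958820, 36⟩, ⟨.ofNat 28713951, 36⟩, ⟨.ofNat 68157719, 36⟩, ⟨.negSucc 16350156, 34⟩, ⟨.negSucc 51365988, 35⟩, ⟨.ofNat 36467509, 36⟩, ⟨.ofNat 41583829, 36⟩, ⟨.negSucc 4524540, 36⟩, ⟨.negSucc 1056178, 36⟩], 0⟩,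
   ⟨[⟨.ofNat 82528339, 29⟩, ⟨.ofNat 3194313605, 35⟩, ⟨.negSucc 1852518104, 36⟩, ⟨.negSucc 181010520, 32⟩, ⟨.ofNat 3936322793, 36⟩, ⟨.ofNat 418541661, 35⟩, ⟨.ofNat 2909037, 34⟩, ⟨.negSucc 19289164, 35⟩, ⟨.ofNat 1834307, 36⟩], 0⟩]

def LA2E_1 : List Sym :=
  [⟨[⟨.ofNat 2912977959, 34⟩, ⟨.negSucc 14837627670, 36⟩, ⟨.negSucc 12980343296, 36⟩, ⟨.negSucc 773841352, 34⟩, ⟨.ofNat 1510962681, 35⟩, ⟨.negSucc 238703668, 35⟩, ⟨.ofNat 11716685, 36⟩, ⟨.ofNat 11337325, 33⟩, ⟨.negSucc 11470156, 36⟩], 0⟩,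
   ⟨[⟨.negSucc 649654358, 33⟩, ⟨.negSucc 7946442946, 36⟩, ⟨.negSucc 923840636, 33⟩, ⟨.ofNat 2956196171, 34⟩, ⟨.ofNat 85188655, 35⟩, ⟨.negSucc 111307922, 36⟩, ⟨.negSucc 109690352, 35⟩, ⟨.negSucc 61381088, 36⟩, ⟨.ofNat 14563753, 36⟩], 0⟩,
   ⟨[⟨.negSucc 3358360698, 35⟩, ⟨.negSucc 4879319732, 36⟩, ⟨.ofNat 2334952763, 35⟩, ⟨.ofNat 5446126019, 36⟩, ⟨.ofNat 1598792173, 36⟩, ⟨.ofNat 709869791, 35⟩, ⟨.negSucc 193162958, 36⟩, ⟨.negSucc 16390740, 35⟩, ⟨.negSucc 2801522, 35⟩], 0⟩,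
   ⟨[⟨.negSucc 814862548, 35⟩, ⟨.ofNat 5763958179, 36⟩, ⟨.negSucc 378270752, 35⟩, ⟨.negSucc 3821610008, 35⟩, ⟨.negSucc 424164422, 35⟩, ⟨.ofNat 391389223, 36⟩, ⟨.ofNat 6581377, 34⟩, ⟨.ofNat 22457047, 35⟩, ⟨.negSucc 4563810, 35⟩], 0⟩,
   ⟨[⟨.ofNat 55979201, 36⟩, ⟨.negSucc 44181536, 35⟩, ⟨.negSucc 19675780, 35⟩, ⟨.ofNat 333811743, 36⟩, ⟨.ofNat 7409589, 33⟩, ⟨.negSucc 102648032, 36⟩, ⟨.negSucc 12088620, 35⟩, ⟨.ofNat 2239313, 35⟩, ⟨.ofNat 66085, 33⟩], 0⟩,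
   ⟨[⟨.ofNat 10221712223, 36⟩, ⟨.negSucc 17845340, 30⟩, ⟨.ofNat 8316186247, 36⟩, ⟨.ofNat 1263833621, 34⟩, ⟨.ofNat 5354045197, 36⟩, ⟨.negSucc 122580430, 36⟩, ⟨.negSucc 65729922, 36⟩, ⟨.negSucc 9643748, 34⟩, ⟨.ofNat 48377, 36⟩], 0⟩,
   ⟨[⟨.negSucc 7316162452, 36⟩, ⟨.ofNat 1163732867, 35⟩, ⟨.negSucc 25918106454, 36⟩, ⟨.negSucc 586336592, 36⟩, ⟨.ofNat 1635175543, 36⟩, ⟨.ofNat 185866597, 35⟩, ⟨.ofNat 122751435, 35⟩, ⟨.negSucc 18845940, 36⟩, ⟨.negSucc 5334100, 36⟩], 0⟩,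
   ⟨[⟨.ofNat 3225011187, 35⟩, ⟨.ofNat 2355514475, 36⟩, ⟨.negSucc 2361292646, 36⟩, ⟨.negSucc 3903838264, 36⟩, ⟨.negSucc 1458459228, 35⟩, ⟨.negSucc 213716392, 34⟩, ⟨.negSucc 108268, 28⟩, ⟨.negSucc 5352064, 36⟩, ⟨.ofNat 3003937, 35⟩], 0⟩,
   ⟨[⟨.negSucc 2182610218, 35⟩, ⟨.negSucc 1724601486, 35⟩, ⟨.ofNat 6195372477, 36⟩, ⟨.ofNat 4503268761, 36⟩, ⟨.ofNat 87679937, 32⟩, ⟨.negSucc 231184800, 36⟩, ⟨.negSucc 5349968, 34⟩, ⟨.negSucc 16514944, 35⟩, ⟨.ofNat 144317, 34⟩], 0⟩,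
   ⟨[⟨.ofNat 127119853, 36⟩, ⟨.ofNat 51016497, 36⟩, ⟨.negSucc 118324656, 36⟩, ⟨.negSucc 96356102, 35⟩, ⟨.negSucc 31582700, 34⟩, ⟨.ofNat 59461695, 36⟩, ⟨.ofNat 21643085, 35⟩, ⟨.negSucc 2306072, 36⟩, ⟨.negSucc 792372, 36⟩], 0⟩,
   ⟨[⟨.negSucc 8541650168, 36⟩, ⟨.ofNat 3614083007, 35⟩, ⟨.ofNat 4189971305, 35⟩, ⟨.ofNat 266266193, 34⟩, ⟨.negSucc 1702714590, 36⟩, ⟨.ofNat 74936099, 34⟩, ⟨.negSucc 45400326, 36⟩, ⟨.negSucc 37629420, 36⟩, ⟨.ofNat 51237, 30⟩], 0⟩,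
   ⟨[⟨.negSucc 2168315788, 34⟩, ⟨.negSucc 4271402206, 35⟩, ⟨.ofNat 4124449785, 36⟩, ⟨.ofNat 2890599907, 35⟩, ⟨.ofNat 1397654665, 36⟩, ⟨.ofNat 44081985, 35⟩, ⟨.negSucc 11813416, 35⟩, ⟨.ofNat 3624347, 34⟩, ⟨.negSucc 2218570, 35⟩], 0⟩,
   ⟨[⟨.ofNat 2682462431, 36⟩, ⟨.ofNat 4314002119, 36⟩, ⟨.negSucc 941620990, 34⟩, ⟨.negSucc 4916691446, 36⟩, ⟨.negSucc 750262336, 36⟩, ⟨.negSucc 50665932, 36⟩, ⟨.ofNat 5814347, 36⟩, ⟨.ofNat 1342651, 35⟩, ⟨.ofNat 1470677, 35⟩], 0⟩,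
   ⟨[⟨.negSucc 73392680, 36⟩, ⟨.negSucc 224323592, 36⟩, ⟨.ofNat 68315363, 36⟩, ⟨.ofNat 366685053, 36⟩, ⟨.ofNat 18241737, 34⟩, ⟨.negSucc 28116838, 35⟩, ⟨.negSucc 24860336, 36⟩, ⟨.negSucc 3835650, 36⟩, ⟨.ofNat 505907, 36⟩], 0⟩,
   ⟨[⟨.ofNat 990802553, 36⟩, ⟨.ofNat 502947169, 33⟩, ⟨.ofNat 48469459, 36⟩, ⟨.negSucc 3036979772, 36⟩, ⟨.negSucc 4124624, 34⟩, ⟨.negSucc 6022914, 34⟩, ⟨.ofNat 8042567, 36⟩, ⟨.negSucc 1731428, 36⟩, ⟨.ofNat 231397, 36⟩], 0⟩,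
   ⟨[⟨.negSucc 7389670752, 36⟩, ⟨.negSucc 2610573380, 36⟩, ⟨.ofNat 1261124597, 34⟩, ⟨.ofNat 2901108801, 36⟩, ⟨.negSucc 68396534, 36⟩, ⟨.ofNat 9994633, 35⟩, ⟨.negSucc 4036608, 34⟩, ⟨.negSucc 141760, 34⟩, ⟨.negSucc 155490, 35⟩], 0⟩]

def LA2E_2 : List Sym :=
  [⟨[⟨.ofNat 112039337, 35⟩, ⟨.ofNat 129513253, 36⟩, ⟨.negSucc 93241246, 35⟩, ⟨.negSucc 211714654, 36⟩, ⟨.negSucc 5901284, 34⟩, ⟨.ofNat 8085173, 34⟩, ⟨.ofNat 1670975, 36⟩, ⟨.ofNat 254449, 33⟩, ⟨.ofNat 61681, 34⟩], 0⟩,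
   ⟨[⟨.ofNat 4249011191, 36⟩, ⟨.ofNat 3124979, 33⟩, ⟨.negSucc 364072284, 33⟩, ⟨.negSucc 4975632, 36⟩, ⟨.ofNat 12326879, 34⟩, ⟨.negSucc 128366, 34⟩, ⟨.ofNat 531829, 32⟩, ⟨.ofNat 21711, 35⟩, ⟨.negSucc 52308, 35⟩], 0⟩,
   ⟨[⟨.negSucc 129371882, 36⟩, ⟨.negSucc 46423596, 34⟩, ⟨.ofNat 26916461, 34⟩, ⟨.ofNat 146191353, 36⟩, ⟨.ofNat 6817709, 35⟩, ⟨.negSucc 8087648, 35⟩, ⟨.negSucc 115786, 33⟩, ⟨.ofNat 168047, 35⟩, ⟨.negSucc 58258, 35⟩], 0⟩,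
   ⟨[⟨.ofNat 0, 0⟩, ⟨.ofNat 107210707, 36⟩, ⟨.negSucc 118, 36⟩, ⟨.negSucc 21100768, 34⟩, ⟨.negSucc 3156, 35⟩, ⟨.ofNat 9346505, 36⟩, ⟨.negSucc 31364, 36⟩, ⟨.negSucc 182874, 36⟩, ⟨.negSucc 17082, 36⟩], 0⟩,
   ⟨[⟨.negSucc 6384007668, 34⟩, ⟨.ofNat 2371186475, 36⟩, ⟨.ofNat 9966335039, 35⟩, ⟨.ofNat 2090864843, 35⟩, ⟨.negSucc 278093418, 35⟩, ⟨.negSucc 51463954, 33⟩, ⟨.negSucc 5265148, 36⟩, ⟨.ofNat 26444395, 36⟩, ⟨.negSucc 2836326, 36⟩], 0⟩,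
   ⟨[⟨.ofNat 2214485743, 33⟩, ⟨.ofNat 23406257087, 35⟩, ⟨.negSucc 4458771988, 34⟩, ⟨.negSucc 35753067096, 36⟩, ⟨.ofNat 1573777293, 36⟩, ⟨.ofNat 5532850673, 36⟩, ⟨.negSucc 211549342, 36⟩, ⟨.negSucc 546170688, 36⟩, ⟨.ofNat 5174861, 32⟩], 0⟩,
   ⟨[⟨.ofNat 121608782281, 36⟩, ⟨.ofNat 1459538573, 32⟩, ⟨.negSucc 92724899482, 35⟩, ⟨.negSucc 4364302, 22⟩, ⟨.ofNat 37436810787, 36⟩, ⟨.ofNat 20607875371, 36⟩, ⟨.ofNat 148134289, 36⟩, ⟨.negSucc 304098914, 35⟩, ⟨.negSucc 55415616, 36⟩], 0⟩,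
   ⟨[⟨.ofNat 64904042583, 36⟩, ⟨.negSucc 59656786344, 36⟩, ⟨.negSucc 16632776194, 33⟩, ⟨.ofNat 52390851485, 36⟩, ⟨.ofNat 34116020411, 36⟩, ⟨.negSucc 12327062044, 36⟩, ⟨.ofNat 47798231, 32⟩, ⟨.ofNat 1258511095, 36⟩, ⟨.negSucc 187588232, 36⟩], 0⟩,
   ⟨[⟨.negSucc 16650137520, 36⟩, ⟨.negSucc 5408758494, 35⟩, ⟨.ofNat 24731646871, 36⟩, ⟨.ofNat 15827425817, 36⟩, ⟨.negSucc 3847640046, 35⟩, ⟨.negSucc 1186768666, 35⟩, ⟨.ofNat 1326486857, 36⟩, ⟨.negSucc 163821532, 36⟩, ⟨.ofNat 40142033, 36⟩], 0⟩,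
   ⟨[⟨.negSucc 2911124858, 36⟩, ⟨.ofNat 33591494639, 36⟩, ⟨.negSucc 3306429804, 35⟩, ⟨.negSucc 30594382758, 36⟩, ⟨.ofNat 916072695, 36⟩, ⟨.ofNat 5562654567, 36⟩, ⟨.negSucc 14246874, 33⟩, ⟨.negSucc 66935954, 35⟩, ⟨.ofNat 7230537, 34⟩], 0⟩,
   ⟨[⟨.negSucc 31194738, 32⟩, ⟨.negSucc 141274282, 35⟩, ⟨.ofNat 133181529, 36⟩, ⟨.ofNat 424940999, 36⟩, ⟨.negSucc 367372770, 35⟩, ⟨.negSucc 26999494, 31⟩, ⟨.ofNat 34674541, 35⟩, ⟨.ofNat 128702363, 36⟩, ⟨.negSucc 1917298, 35⟩], 0⟩,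
   ⟨[⟨.ofNat 18633585, 36⟩, ⟨.negSucc 1653320282, 36⟩, ⟨.negSucc 5624862, 35⟩, ⟨.ofNat 710564397, 34⟩, ⟨.ofNat 5269293, 34⟩, ⟨.negSucc 61540270, 33⟩, ⟨.negSucc 5186014, 36⟩, ⟨.negSucc 15247244, 36⟩, ⟨.ofNat 314583, 32⟩], 0⟩,
   ⟨[⟨.ofNat 0, 0⟩, ⟨.ofNat 49664151, 36⟩, ⟨.ofNat 1203, 36⟩, ⟨.negSucc 56549106, 35⟩, ⟨.ofNat 57243, 36⟩, ⟨.ofNat 62344615, 36⟩, ⟨.ofNat 209649, 36⟩, ⟨.negSucc 2109988, 34⟩, ⟨.ofNat 7171, 35⟩], 0⟩,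
   ⟨[⟨.negSucc 46595255208, 36⟩, ⟨.negSucc 8659754120, 34⟩, ⟨.ofNat 13655211945, 36⟩, ⟨.negSucc 6230331388, 34⟩, ⟨.negSucc 1221528718, 33⟩, ⟨.ofNat 135163269, 33⟩, ⟨.ofNat 899031611, 36⟩, ⟨.negSucc 4766496, 36⟩, ⟨.negSucc 19605634, 36⟩], 0⟩,
   ⟨[⟨.ofNat 50909335837, 36⟩, ⟨.ofNat 154392524393, 36⟩, ⟨.ofNat 44122684195, 36⟩, ⟨.negSucc 2184199938, 31⟩, ⟨.negSucc 14002673698, 36⟩, ⟨.ofNat 218046863, 35⟩, ⟨.negSucc 1177437224, 35⟩, ⟨.negSucc 175634134, 36⟩, ⟨.ofNat 35457449, 35⟩], 0⟩,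
   ⟨[⟨.ofNat 149417507467, 36⟩, ⟨.ofNat 94009069979, 35⟩, ⟨.negSucc 165717221084, 35⟩, ⟨.negSucc 31020017372, 35⟩, ⟨.ofNat 11096178967, 33⟩, ⟨.ofNat 3955073629, 36⟩, ⟨.negSucc 322482486, 35⟩, ⟨.negSucc 335529196, 35⟩, ⟨.negSucc 140058542, 36⟩], 0⟩]

def LA2E_3 : List Sym :=
  [⟨[⟨.ofNat 29381095155, 36⟩, ⟨.negSucc 50573005486, 36⟩, ⟨.negSucc 299030060, 33⟩, ⟨.ofNat 5342702113, 36⟩, ⟨.negSucc 12001432128, 35⟩, ⟨.ofNat 630397427, 36⟩, ⟨.ofNat 4855011593, 36⟩, ⟨.ofNat 52666431, 36⟩, ⟨.negSucc 158215454, 36⟩], 0⟩,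
   ⟨[⟨.negSucc 8475170046, 34⟩, ⟨.negSucc 650694032, 32⟩, ⟨.ofNat 21190837085, 35⟩, ⟨.ofNat 4715846731, 34⟩, ⟨.negSucc 3193330164, 36⟩, ⟨.negSucc 863672366, 34⟩, ⟨.negSucc 70367918, 32⟩, ⟨.ofNat 31852097, 33⟩, ⟨.ofNat 4097637, 32⟩], 0⟩,
   ⟨[⟨.negSucc 21719866, 33⟩, ⟨.negSucc 215799852, 36⟩, ⟨.ofNat 258515969, 35⟩, ⟨.negSucc 317245890, 36⟩, ⟨.ofNat 3061989749, 36⟩, ⟨.ofNat 273931409, 34⟩, ⟨.negSucc 101619348, 36⟩, ⟨.negSucc 125119760, 36⟩, ⟨.negSucc 114052, 30⟩], 0⟩,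
   ⟨[⟨.negSucc 3143681650, 36⟩, ⟨.ofNat 940377287, 36⟩, ⟨.negSucc 478021008, 35⟩, ⟨.negSucc 819598250, 35⟩, ⟨.negSucc 382956804, 34⟩, ⟨.ofNat 3991475, 30⟩, ⟨.ofNat 39393935, 36⟩, ⟨.ofNat 26938821, 36⟩, ⟨.negSucc 3587824, 35⟩], 0⟩,
   ⟨[⟨.ofNat 756429, 29⟩, ⟨.negSucc 28673812, 36⟩, ⟨.negSucc 33949974, 35⟩, ⟨.ofNat 65243103, 36⟩, ⟨.ofNat 12813261, 33⟩, ⟨.negSucc 36759676, 36⟩, ⟨.negSucc 20273008, 35⟩, ⟨.ofNat 3777981, 36⟩, ⟨.ofNat 1222961, 36⟩], 0⟩,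
   ⟨[⟨.negSucc 67425590748, 36⟩, ⟨.negSucc 87105447170, 35⟩, ⟨.negSucc 2451847846, 35⟩, ⟨.negSucc 13783948658, 35⟩, ⟨.ofNat 2616664139, 36⟩, ⟨.ofNat 1922515763, 35⟩, ⟨.ofNat 241645075, 36⟩, ⟨.ofNat 143784775, 36⟩, ⟨.negSucc 36605254, 36⟩], 0⟩,
   ⟨[⟨.negSucc 107110793532, 36⟩, ⟨.ofNat 400426220127, 36⟩, ⟨.ofNat 30957169197, 35⟩, ⟨.negSucc 356100764, 28⟩, ⟨.negSucc 6538727938, 36⟩, ⟨.negSucc 4887872914, 36⟩, ⟨.ofNat 370069043, 36⟩, ⟨.negSucc 8161260, 31⟩, ⟨.ofNat 17189017, 34⟩], 0⟩,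
   ⟨[⟨.negSucc 9126978106, 36⟩, ⟨.negSucc 11269496404, 34⟩, ⟨.ofNat 31808977645, 36⟩, ⟨.ofNat 4061816091, 33⟩, ⟨.ofNat 1307523717, 35⟩, ⟨.negSucc 597433240, 35⟩, ⟨.negSucc 29055944, 31⟩, ⟨.negSucc 616282590, 36⟩, ⟨.ofNat 6071671, 35⟩], 0⟩,
   ⟨[⟨.ofNat 1960277441, 32⟩, ⟨.ofNat 5823572335, 36⟩, ⟨.negSucc 1438615316, 31⟩, ⟨.negSucc 19324971600, 36⟩, ⟨.ofNat 506960067, 33⟩, ⟨.ofNat 545220953, 33⟩, ⟨.ofNat 443381563, 36⟩, ⟨.ofNat 119759389, 35⟩, ⟨.negSucc 67457398, 35⟩], 0⟩,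
   ⟨[⟨.ofNat 2429087239, 35⟩, ⟨.ofNat 268479173, 32⟩, ⟨.negSucc 356393242, 34⟩, ⟨.negSucc 36901882, 29⟩, ⟨.negSucc 622963348, 34⟩, ⟨.negSucc 432635858, 34⟩, ⟨.ofNat 116896107, 36⟩, ⟨.ofNat 17497023, 33⟩, ⟨.ofNat 18897037, 36⟩], 0⟩,
   ⟨[⟨.ofNat 829827741, 35⟩, ⟨.negSucc 5726399394, 36⟩, ⟨.ofNat 43899139, 32⟩, ⟨.ofNat 3807919353, 35⟩, ⟨.ofNat 862124113, 36⟩, ⟨.negSucc 48467974, 33⟩, ⟨.negSucc 4994734, 36⟩, ⟨.negSucc 56538918, 36⟩, ⟨.ofNat 10029293, 36⟩], 0⟩,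
   ⟨[⟨.negSucc 27950366, 35⟩, ⟨.ofNat 88314373, 36⟩, ⟨.ofNat 19601009, 35⟩, ⟨.negSucc 83327338, 34⟩, ⟨.negSucc 59183140, 36⟩, ⟨.ofNat 51262177, 35⟩, ⟨.ofNat 23411101, 36⟩, ⟨.negSucc 3759400, 36⟩, ⟨.negSucc 347124, 35⟩], 0⟩,
   ⟨[⟨.negSucc 36313246838, 34⟩, ⟨.negSucc 58465958092, 36⟩, ⟨.ofNat 18863393261, 36⟩, ⟨.ofNat 6237695769, 35⟩, ⟨.ofNat 834726619, 34⟩, ⟨.ofNat 148680365, 36⟩, ⟨.ofNat 585718107, 36⟩, ⟨.ofNat 18257613, 34⟩, ⟨.negSucc 10138366, 34⟩], 0⟩,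
   ⟨[⟨.ofNat 20905040707, 35⟩, ⟨.negSucc 25264703616, 36⟩, ⟨.negSucc 1653315452, 33⟩, ⟨.negSucc 10281681520, 36⟩, ⟨.negSucc 1824051664, 36⟩, ⟨.ofNat 738999261, 35⟩, ⟨.ofNat 76591159, 35⟩, ⟨.negSucc 72701384, 36⟩, ⟨.ofNat 32873545, 36⟩], 0⟩,
   ⟨[⟨.negSucc 10029245240, 35⟩, ⟨.ofNat 2583909445, 33⟩, ⟨.ofNat 10382198131, 34⟩, ⟨.ofNat 9575125481, 36⟩, ⟨.negSucc 3791558644, 35⟩, ⟨.negSucc 2522671458, 36⟩, ⟨.negSucc 54293888, 34⟩, ⟨.negSucc 10783796, 33⟩, ⟨.ofNat 34147267, 36⟩], 0⟩,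
   ⟨[⟨.negSucc 5412091338, 36⟩, ⟨.negSucc 2785508790, 36⟩, ⟨.ofNat 1106113865, 36⟩, ⟨.ofNat 1024238831, 35⟩, ⟨.ofNat 926645747, 34⟩, ⟨.ofNat 1577347833, 36⟩, ⟨.negSucc 5483946, 35⟩, ⟨.negSucc 54429374, 36⟩, ⟨.negSucc 14266610, 35⟩], 0⟩]

def LA2E_4 : List Sym :=
  [⟨[⟨.ofNat 2176038391, 35⟩, ⟨.ofNat 1715753287, 35⟩, ⟨.negSucc 6172734704, 36⟩, ⟨.negSucc 2219708734, 35⟩, ⟨.negSucc 713667450, 35⟩, ⟨.ofNat 98790957, 35⟩, ⟨.ofNat 6612371, 35⟩, ⟨.ofNat 52077815, 36⟩, ⟨.negSucc 3570554, 36⟩], 0⟩,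
   ⟨[⟨.negSucc 63470832, 35⟩, ⟨.negSucc 12747114, 34⟩, ⟨.ofNat 118072407, 36⟩, ⟨.ofNat 192400365, 36⟩, ⟨.ofNat 63115869, 35⟩, ⟨.negSucc 59697078, 36⟩, ⟨.negSucc 21020366, 35⟩, ⟨.ofNat 1454283, 36⟩, ⟨.ofNat 940067, 36⟩], 0⟩,
   ⟨[⟨.negSucc 1697641902, 35⟩, ⟨.negSucc 3976594400, 35⟩, ⟨.ofNat 3416073527, 34⟩, ⟨.ofNat 2778653147, 36⟩, ⟨.negSucc 1033035400, 36⟩, ⟨.ofNat 65154647, 36⟩, ⟨.ofNat 84593649, 36⟩, ⟨.ofNat 28839615, 36⟩, ⟨.negSucc 12584024, 36⟩], 0⟩,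
   ⟨[⟨.ofNat 28325434897, 36⟩, ⟨.negSucc 9790929424, 35⟩, ⟨.negSucc 1238208810, 31⟩, ⟨.ofNat 617957645, 35⟩, ⟨.ofNat 1395037679, 34⟩, ⟨.ofNat 22526737, 35⟩, ⟨.ofNat 13047657, 33⟩, ⟨.negSucc 2418274, 34⟩, ⟨.negSucc 464310, 33⟩], 0⟩,
   ⟨[⟨.ofNat 7751516221, 36⟩, ⟨.ofNat 4273523047, 35⟩, ⟨.negSucc 997773752, 36⟩, ⟨.negSucc 1527627128, 34⟩, ⟨.negSucc 2317080948, 36⟩, ⟨.negSucc 347922522, 36⟩, ⟨.ofNat 19342417, 36⟩, ⟨.ofNat 1875409, 34⟩, ⟨.ofNat 13710031, 36⟩], 0⟩,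
   ⟨[⟨.negSucc 1334631734, 35⟩, ⟨.negSucc 1076766678, 34⟩, ⟨.ofNat 231589751, 32⟩, ⟨.ofNat 4911196085, 36⟩, ⟨.ofNat 772867895, 36⟩, ⟨.ofNat 63509101, 36⟩, ⟨.ofNat 2483577, 36⟩, ⟨.negSucc 12431454, 36⟩, ⟨.negSucc 1603814, 35⟩], 0⟩,
   ⟨[⟨.ofNat 73289805, 36⟩, ⟨.ofNat 111955419, 35⟩, ⟨.negSucc 34085204, 35⟩, ⟨.negSucc 365710188, 36⟩, ⟨.negSucc 72942154, 36⟩, ⟨.ofNat 28012367, 35⟩, ⟨.ofNat 24024511, 36⟩, ⟨.ofNat 4460851, 36⟩, ⟨.negSucc 148888, 34⟩], 0⟩,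
   ⟨[⟨.ofNat 66601887, 35⟩, ⟨.ofNat 23700982407, 36⟩, ⟨.negSucc 20506066, 33⟩, ⟨.negSucc 2900770124, 36⟩, ⟨.ofNat 68299197, 36⟩, ⟨.negSucc 14404680, 35⟩, ⟨.negSucc 8299240, 36⟩, ⟨.ofNat 15488941, 36⟩, ⟨.negSucc 2379238, 36⟩], 0⟩,
   ⟨[⟨.negSucc 495720792, 34⟩, ⟨.negSucc 4724663264, 36⟩, ⟨.ofNat 44291187, 35⟩, ⟨.ofNat 1406904161, 35⟩, ⟨.ofNat 41677733, 35⟩, ⟨.ofNat 178084539, 36⟩, ⟨.negSucc 3434108, 35⟩, ⟨.negSucc 4302278, 35⟩, ⟨.negSucc 1690110, 36⟩], 0⟩,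
   ⟨[⟨.ofNat 7409437697, 36⟩, ⟨.ofNat 2611821231, 36⟩, ⟨.negSucc 5055825676, 36⟩, ⟨.negSucc 716789792, 34⟩, ⟨.ofNat 60618859, 36⟩, ⟨.negSucc 39935322, 36⟩, ⟨.ofNat 12942857, 36⟩, ⟨.ofNat 248593, 32⟩, ⟨.ofNat 366827, 35⟩], 0⟩,
   ⟨[⟨.negSucc 111882288, 35⟩, ⟨.negSucc 64637458, 35⟩, ⟨.ofNat 11632275, 32⟩, ⟨.ofNat 211160161, 36⟩, ⟨.ofNat 5883991, 34⟩, ⟨.negSucc 32100426, 36⟩, ⟨.negSucc 667016, 35⟩, ⟨.negSucc 2219936, 36⟩, ⟨.negSucc 16230, 32⟩], 0⟩,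
   ⟨[⟨.ofNat 285619139, 35⟩, ⟨.ofNat 2593989, 36⟩, ⟨.ofNat 180123041, 34⟩, ⟨.negSucc 477326, 36⟩, ⟨.negSucc 188548554, 36⟩, ⟨.ofNat 37909, 33⟩, ⟨.ofNat 4476821, 35⟩, ⟨.ofNat 647171, 36⟩, ⟨.negSucc 546, 35⟩], 0⟩,
   ⟨[⟨.negSucc 532556006, 33⟩, ⟨.negSucc 44208376, 36⟩, ⟨.ofNat 724739993, 34⟩, ⟨.ofNat 11088685, 36⟩, ⟨.negSucc 40312382, 36⟩, ⟨.ofNat 1737415, 36⟩, ⟨.negSucc 7939502, 36⟩, ⟨.negSucc 55002, 33⟩, ⟨.negSucc 15014, 35⟩], 0⟩,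
   ⟨[⟨.ofNat 129190539, 36⟩, ⟨.ofNat 185260619, 36⟩, ⟨.negSucc 26863570, 34⟩, ⟨.negSucc 145498506, 36⟩, ⟨.negSucc 13586624, 36⟩, ⟨.ofNat 15852569, 36⟩, ⟨.ofNat 758919, 36⟩, ⟨.negSucc 13062, 32⟩, ⟨.ofNat 116155, 36⟩], 0⟩,
   ⟨[⟨.ofNat 0, 0⟩, ⟨.ofNat 5561881, 35⟩, ⟨.negSucc 19712, 36⟩, ⟨.ofNat 3176923, 35⟩, ⟨.ofNat 5627, 35⟩, ⟨.negSucc 1705876, 35⟩, ⟨.negSucc 95764, 36⟩, ⟨.ofNat 207437, 35⟩, ⟨.negSucc 27770, 36⟩], 0⟩,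
   ⟨[⟨.ofNat 0, 0⟩, ⟨.negSucc 106960270, 36⟩, ⟨.ofNat 144043, 36⟩, ⟨.ofNat 84002899, 36⟩, ⟨.negSucc 94842, 35⟩, ⟨.negSucc 9163024, 36⟩, ⟨.ofNat 160681, 36⟩, ⟨.ofNat 103761, 36⟩, ⟨.ofNat 11599, 35⟩], 0⟩]

def LA2E_5 : List Sym :=
  [⟨[⟨.ofNat 0, 0⟩, ⟨.ofNat 1, 35⟩, ⟨.negSucc 41528, 35⟩, ⟨.ofNat 135, 34⟩, ⟨.ofNat 115145, 36⟩, ⟨.ofNat 3787, 35⟩, ⟨.negSucc 16034, 34⟩, ⟨.ofNat 1337, 33⟩, ⟨.ofNat 3119, 36⟩], 0⟩,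
   ⟨[⟨.negSucc 2192559612, 33⟩, ⟨.ofNat 6394616767, 35⟩, ⟨.ofNat 989488555, 33⟩, ⟨.negSucc 1410056482, 35⟩, ⟨.negSucc 19452758, 30⟩, ⟨.ofNat 360377299, 35⟩, ⟨.ofNat 243866749, 36⟩, ⟨.negSucc 60531930, 36⟩, ⟨.negSucc 1832482, 35⟩], 0⟩,
   ⟨[⟨.negSucc 8590536026, 35⟩, ⟨.ofNat 3716060639, 34⟩, ⟨.negSucc 2232838404, 34⟩, ⟨.ofNat 3377543197, 36⟩, ⟨.ofNat 1618137973, 35⟩, ⟨.negSucc 335349700, 34⟩, ⟨.negSucc 784923730, 36⟩, ⟨.ofNat 80669907, 35⟩, ⟨.ofNat 1815167, 33⟩], 0⟩,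
   ⟨[⟨.ofNat 15385927623, 35⟩, ⟨.negSucc 2192842108, 31⟩, ⟨.negSucc 48948141246, 36⟩, ⟨.ofNat 178104485, 31⟩, ⟨.ofNat 416788273, 33⟩, ⟨.negSucc 435133208, 36⟩, ⟨.ofNat 78604161, 33⟩, ⟨.negSucc 9669072, 35⟩, ⟨.negSucc 24104154, 36⟩], 0⟩,
   ⟨[⟨.ofNat 24901365159, 36⟩, ⟨.negSucc 61523993314, 36⟩, ⟨.ofNat 17833721567, 35⟩, ⟨.negSucc 5649096850, 36⟩, ⟨.negSucc 1938799752, 35⟩, ⟨.ofNat 1511238087, 35⟩, ⟨.negSucc 61639668, 35⟩, ⟨.negSucc 151676514, 36⟩, ⟨.ofNat 61433197, 36⟩], 0⟩,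
   ⟨[⟨.negSucc 233968262, 30⟩, ⟨.ofNat 10802152223, 35⟩, ⟨.ofNat 9380015685, 35⟩, ⟨.negSucc 2337300260, 35⟩, ⟨.negSucc 1349434120, 35⟩, ⟨.ofNat 123251655, 35⟩, ⟨.ofNat 246585775, 35⟩, ⟨.ofNat 105717257, 36⟩, ⟨.negSucc 15564602, 36⟩], 0⟩,
   ⟨[⟨.negSucc 8111334388, 36⟩, ⟨.negSucc 323306892, 34⟩, ⟨.negSucc 5441283466, 34⟩, ⟨.ofNat 817487123, 36⟩, ⟨.ofNat 806229863, 35⟩, ⟨.negSucc 63611826, 34⟩, ⟨.negSucc 28156970, 35⟩, ⟨.ofNat 25471245, 36⟩, ⟨.ofNat 10162391, 36⟩], 0⟩,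
   ⟨[⟨.ofNat 532644143, 36⟩, ⟨.ofNat 5186865, 34⟩, ⟨.ofNat 76596997, 33⟩, ⟨.negSucc 22988550, 36⟩, ⟨.negSucc 174869396, 36⟩, ⟨.ofNat 4931145, 35⟩, ⟨.negSucc 32819340, 35⟩, ⟨.negSucc 182092, 31⟩, ⟨.ofNat 1490473, 35⟩], 0⟩,
   ⟨[⟨.negSucc 4148798, 35⟩, ⟨.ofNat 14353, 36⟩, ⟨.negSucc 18802, 32⟩, ⟨.negSucc 5396, 33⟩, ⟨.negSucc 1476374, 36⟩, ⟨.negSucc 338888, 36⟩, ⟨.ofNat 5226963, 36⟩, ⟨.negSucc 549954, 36⟩, ⟨.negSucc 261894, 34⟩], 0⟩,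
   ⟨[⟨.ofNat 0, 0⟩, ⟨.negSucc 12, 35⟩, ⟨.ofNat 39205, 36⟩, ⟨.negSucc 7126, 36⟩, ⟨.negSucc 18992, 34⟩, ⟨.negSucc 12718, 33⟩, ⟨.ofNat 135393, 35⟩, ⟨.negSucc 74488, 35⟩, ⟨.ofNat 327, 30⟩], 0⟩,
   ⟨[⟨.negSucc 15657420110, 34⟩, ⟨.ofNat 7115430647, 34⟩, ⟨.negSucc 3653249584, 34⟩, ⟨.negSucc 3230662742, 34⟩, ⟨.ofNat 298745067, 35⟩, ⟨.ofNat 594510737, 36⟩, ⟨.negSucc 10011320, 30⟩, ⟨.negSucc 179187818, 36⟩, ⟨.ofNat 11439867, 34⟩], 0⟩,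
   ⟨[⟨.ofNat 3245785115, 36⟩, ⟨.ofNat 88901128013, 36⟩, ⟨.negSucc 22481063134, 35⟩, ⟨.negSucc 1547250456, 34⟩, ⟨.ofNat 9065748847, 35⟩, ⟨.ofNat 7205670523, 36⟩, ⟨.negSucc 7028154, 34⟩, ⟨.negSucc 438556476, 36⟩, ⟨.negSucc 1137712, 34⟩], 0⟩,
   ⟨[⟨.ofNat 92334779461, 36⟩, ⟨.negSucc 104736832692, 35⟩, ⟨.negSucc 18419304020, 35⟩, ⟨.ofNat 20172758093, 36⟩, ⟨.ofNat 9867530711, 35⟩, ⟨.negSucc 132456172, 36⟩, ⟨.ofNat 68534107, 36⟩, ⟨.ofNat 143299843, 34⟩, ⟨.negSucc 25900776, 34⟩], 0⟩,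
   ⟨[⟨.ofNat 1724453815, 34⟩, ⟨.negSucc 20815709848, 36⟩, ⟨.ofNat 2381363761, 35⟩, ⟨.negSucc 8602785508, 36⟩, ⟨.negSucc 412558890, 34⟩, ⟨.negSucc 1686151286, 36⟩, ⟨.ofNat 39381713, 34⟩, ⟨.ofNat 91579271, 36⟩, ⟨.ofNat 32338351, 36⟩], 0⟩,
   ⟨[⟨.ofNat 329690613, 35⟩, ⟨.ofNat 13720623009, 34⟩, ⟨.ofNat 7637190281, 36⟩, ⟨.negSucc 831817546, 32⟩, ⟨.negSucc 93585862, 34⟩, ⟨.ofNat 3481103385, 36⟩, ⟨.ofNat 61047029, 35⟩, ⟨.negSucc 151253616, 36⟩, ⟨.ofNat 908615, 32⟩], 0⟩,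
   ⟨[⟨.negSucc 394094028, 35⟩, ⟨.negSucc 22778414, 29⟩, ⟨.negSucc 271761040, 36⟩, ⟨.negSucc 150757848, 34⟩, ⟨.negSucc 608553946, 36⟩, ⟨.negSucc 61702886, 33⟩, ⟨.ofNat 91941351, 36⟩, ⟨.ofNat 87937883, 36⟩, ⟨.negSucc 6216022, 36⟩], 0⟩]

def LA2E_6 : List Sym :=
  [⟨[⟨.ofNat 23441635, 36⟩, ⟨.negSucc 798232360, 35⟩, ⟨.negSucc 11142824, 36⟩, ⟨.ofNat 708126795, 34⟩, ⟨.ofNat 2656903, 33⟩, ⟨.negSucc 124221514, 34⟩, ⟨.negSucc 11840146, 36⟩, ⟨.negSucc 11326326, 36⟩, ⟨.ofNat 961665, 34⟩], 0⟩,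
   ⟨[⟨.ofNat 0, 0⟩, ⟨.ofNat 1555803, 31⟩, ⟨.negSucc 10656, 35⟩, ⟨.negSucc 113385738, 36⟩, ⟨.ofNat 113491, 36⟩, ⟨.ofNat 15684065, 34⟩, ⟨.ofNat 183455, 36⟩, ⟨.negSucc 8790710, 36⟩, ⟨.ofNat 165653, 36⟩], 0⟩,
   ⟨[⟨.negSucc 86374762106, 36⟩, ⟨.ofNat 47179523269, 36⟩, ⟨.negSucc 788088080, 33⟩, ⟨.negSucc 34725627612, 36⟩, ⟨.negSucc 24402221582, 36⟩, ⟨.negSucc 393520296, 33⟩, ⟨.negSucc 31692432, 35⟩, ⟨.ofNat 40249955, 35⟩, ⟨.ofNat 8935191, 36⟩], 0⟩,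
   ⟨[⟨.ofNat 167510682799, 36⟩, ⟨.ofNat 85602529421, 36⟩, ⟨.negSucc 71535785710, 36⟩, ⟨.negSucc 50058307988, 36⟩, ⟨.ofNat 11963193901, 34⟩, ⟨.ofNat 1028858427, 36⟩, ⟨.negSucc 2363258388, 36⟩, ⟨.negSucc 593034068, 36⟩, ⟨.ofNat 52165177, 36⟩], 0⟩,
   ⟨[⟨.negSucc 26431530256, 36⟩, ⟨.ofNat 15075600765, 36⟩, ⟨.ofNat 33280587061, 36⟩, ⟨.ofNat 865363179, 34⟩, ⟨.negSucc 3335364026, 35⟩, ⟨.negSucc 80270360, 36⟩, ⟨.ofNat 3028799053, 36⟩, ⟨.ofNat 144790693, 36⟩, ⟨.negSucc 171348902, 36⟩], 0⟩,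
   ⟨[⟨.ofNat 88921173, 34⟩, ⟨.negSucc 23671489188, 36⟩, ⟨.negSucc 4664117262, 34⟩, ⟨.ofNat 10712798841, 36⟩, ⟨.negSucc 3124643300, 36⟩, ⟨.negSucc 2846170152, 36⟩, ⟨.negSucc 85021302, 33⟩, ⟨.ofNat 55545535, 34⟩, ⟨.ofNat 48146785, 36⟩], 0⟩,
   ⟨[⟨.negSucc 2547079720, 36⟩, ⟨.ofNat 1285647949, 36⟩, ⟨.ofNat 4923722843, 36⟩, ⟨.ofNat 279575931, 36⟩, ⟨.ofNat 3155100741, 36⟩, ⟨.ofNat 902119119, 36⟩, ⟨.negSucc 75534392, 34⟩, ⟨.negSucc 50967384, 35⟩, ⟨.ofNat 272431, 33⟩], 0⟩,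
   ⟨[⟨.negSucc 1552293126, 35⟩, ⟨.ofNat 56712671, 32⟩, ⟨.negSucc 1069794964, 36⟩, ⟨.negSucc 1633549368, 36⟩, ⟨.negSucc 1527798202, 36⟩, ⟨.ofNat 127441585, 35⟩, ⟨.ofNat 15716157, 34⟩, ⟨.ofNat 20559217, 36⟩, ⟨.negSucc 494540, 32⟩], 0⟩,
   ⟨[⟨.ofNat 96913497, 36⟩, ⟨.negSucc 28743890, 36⟩, ⟨.negSucc 68099534, 36⟩, ⟨.ofNat 32717423, 35⟩, ⟨.ofNat 12804955, 33⟩, ⟨.negSucc 36619832, 36⟩, ⟨.negSucc 41256840, 36⟩, ⟨.ofNat 563971, 33⟩, ⟨.ofNat 254631, 34⟩], 0⟩,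
   ⟨[⟨.ofNat 9566180705, 36⟩, ⟨.ofNat 55742046251, 36⟩, ⟨.ofNat 15139358245, 35⟩, ⟨.negSucc 1202767804, 30⟩, ⟨.negSucc 13585770182, 36⟩, ⟨.negSucc 148598878, 34⟩, ⟨.ofNat 912912167, 36⟩, ⟨.negSucc 874700, 35⟩, ⟨.ofNat 7376853, 35⟩], 0⟩,
   ⟨[⟨.ofNat 18130222485, 36⟩, ⟨.negSucc 25389592004, 36⟩, ⟨.ofNat 12349037629, 36⟩, ⟨.ofNat 7347750917, 35⟩, ⟨.negSucc 4258951000, 36⟩, ⟨.negSucc 1376213152, 34⟩, ⟨.negSucc 912465548, 36⟩, ⟨.negSucc 383895456, 36⟩, ⟨.ofNat 43522039, 35⟩], 0⟩,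
   ⟨[⟨.ofNat 6145465923, 35⟩, ⟨.ofNat 3987886301, 32⟩, ⟨.negSucc 9321200018, 36⟩, ⟨.negSucc 2888650592, 35⟩, ⟨.ofNat 3450191669, 36⟩, ⟨.ofNat 780234331, 34⟩, ⟨.ofNat 481972077, 36⟩, ⟨.negSucc 9024048, 35⟩, ⟨.negSucc 82937544, 36⟩], 0⟩,
   ⟨[⟨.ofNat 3106435313, 35⟩, ⟨.ofNat 590712593, 34⟩, ⟨.negSucc 496816858, 33⟩, ⟨.negSucc 6597901928, 36⟩, ⟨.negSucc 2515458332, 36⟩, ⟨.negSucc 352874780, 34⟩, ⟨.ofNat 205942075, 36⟩, ⟨.ofNat 115699031, 36⟩, ⟨.ofNat 10146251, 36⟩], 0⟩,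
   ⟨[⟨.ofNat 1636938401, 36⟩, ⟨.negSucc 5732178338, 36⟩, ⟨.ofNat 384284123, 35⟩, ⟨.ofNat 7680857281, 36⟩, ⟨.ofNat 214782125, 34⟩, ⟨.negSucc 49663550, 33⟩, ⟨.negSucc 9655792, 35⟩, ⟨.negSucc 26845718, 35⟩, ⟨.ofNat 10261437, 36⟩], 0⟩,
   ⟨[⟨.negSucc 55953032, 36⟩, ⟨.ofNat 88223357, 36⟩, ⟨.ofNat 39318085, 36⟩, ⟨.negSucc 333538710, 36⟩, ⟨.negSucc 29550112, 35⟩, ⟨.ofNat 25699543, 34⟩, ⟨.ofNat 12022217, 35⟩, ⟨.negSucc 2320490, 35⟩, ⟨.negSucc 452812, 36⟩], 0⟩,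
   ⟨[⟨.ofNat 2526327415, 36⟩, ⟨.ofNat 2020871781, 34⟩, ⟨.ofNat 26097435769, 36⟩, ⟨.negSucc 13336603880, 36⟩, ⟨.negSucc 6947364604, 36⟩, ⟨.ofNat 2902074987, 36⟩, ⟨.ofNat 11093971, 31⟩, ⟨.ofNat 48445381, 35⟩, ⟨.negSucc 10370728, 35⟩], 0⟩]

def LA2E_7 : List Sym :=
  [⟨[⟨.ofNat 21325083525, 36⟩, ⟨.negSucc 13517086972, 36⟩, ⟨.ofNat 1881282659, 35⟩, ⟨.ofNat 3539225525, 36⟩, ⟨.negSucc 3910935092, 35⟩, ⟨.negSucc 2283332018, 36⟩, ⟨.negSucc 235603106, 35⟩, ⟨.ofNat 519447, 30⟩, ⟨.ofNat 47864253, 36⟩], 0⟩,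
   ⟨[⟨.negSucc 1827032966, 34⟩, ⟨.negSucc 1666516386, 36⟩, ⟨.ofNat 3019865927, 35⟩, ⟨.ofNat 195609119, 32⟩, ⟨.ofNat 3686266259, 36⟩, ⟨.ofNat 21799665, 30⟩, ⟨.negSucc 90183470, 36⟩, ⟨.negSucc 54567036, 36⟩, ⟨.negSucc 8642020, 35⟩], 0⟩,
   ⟨[⟨.ofNat 547041153, 33⟩, ⟨.ofNat 3434959131, 36⟩, ⟨.negSucc 6269302898, 36⟩, ⟨.negSucc 4477309294, 36⟩, ⟨.negSucc 356500438, 34⟩, ⟨.ofNat 100949617, 35⟩, ⟨.ofNat 28556143, 36⟩, ⟨.ofNat 48863353, 36⟩, ⟨.negSucc 3945076, 36⟩], 0⟩,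
   ⟨[⟨.negSucc 63530214, 35⟩, ⟨.negSucc 50935826, 36⟩, ⟨.ofNat 118498965, 36⟩, ⟨.ofNat 192555839, 36⟩, ⟨.ofNat 62912399, 35⟩, ⟨.negSucc 930136, 30⟩, ⟨.negSucc 1347560, 31⟩, ⟨.ofNat 2432969, 36⟩, ⟨.ofNat 730263, 36⟩], 0⟩,
   ⟨[⟨.ofNat 6160617631, 36⟩, ⟨.ofNat 9877398037, 35⟩, ⟨.negSucc 8933000676, 35⟩, ⟨.negSucc 1276560136, 35⟩, ⟨.ofNat 5419988297, 36⟩, ⟨.negSucc 70882052, 34⟩, ⟨.ofNat 56030493, 34⟩, ⟨.ofNat 35316475, 36⟩, ⟨.negSucc 18197172, 36⟩], 0⟩,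
   ⟨[⟨.ofNat 137718105, 30⟩, ⟨.ofNat 2294754775, 34⟩, ⟨.negSucc 1906337122, 35⟩, ⟨.negSucc 6892197062, 36⟩, ⟨.negSucc 2289815626, 36⟩, ⟨.negSucc 380629856, 36⟩, ⟨.ofNat 61598913, 36⟩, ⟨.ofNat 10629135, 36⟩, ⟨.ofNat 12791175, 36⟩], 0⟩,
   ⟨[⟨.negSucc 670853030, 34⟩, ⟨.negSucc 4350792672, 36⟩, ⟨.ofNat 1880798381, 35⟩, ⟨.ofNat 4997797535, 36⟩, ⟨.ofNat 772300227, 36⟩, ⟨.ofNat 12822781, 34⟩, ⟨.negSucc 1802104, 35⟩, ⟨.negSucc 13304650, 36⟩, ⟨.negSucc 908606, 35⟩], 0⟩,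
   ⟨[⟨.ofNat 73358373, 36⟩, ⟨.ofNat 3500707, 30⟩, ⟨.negSucc 68416104, 36⟩, ⟨.negSucc 91589288, 34⟩, ⟨.negSucc 36340452, 35⟩, ⟨.ofNat 56300431, 36⟩, ⟨.ofNat 24729517, 36⟩, ⟨.ofNat 3816395, 36⟩, ⟨.negSucc 248888, 35⟩], 0⟩,
   ⟨[⟨.negSucc 247584848, 34⟩, ⟨.negSucc 1262054448, 34⟩, ⟨.ofNat 328355519, 34⟩, ⟨.ofNat 101211317, 31⟩, ⟨.negSucc 113511726, 35⟩, ⟨.ofNat 103021771, 35⟩, ⟨.ofNat 2462165, 36⟩, ⟨.negSucc 6332310, 36⟩, ⟨.negSucc 595468, 34⟩], 0⟩,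
   ⟨[⟨.ofNat 7386216385, 36⟩, ⟨.ofNat 2637318693, 36⟩, ⟨.negSucc 5038329516, 36⟩, ⟨.negSucc 364695034, 33⟩, ⟨.ofNat 55806519, 36⟩, ⟨.negSucc 15986410, 35⟩, ⟨.ofNat 5563645, 35⟩, ⟨.ofNat 666627, 33⟩, ⟨.ofNat 321453, 36⟩], 0⟩,
   ⟨[⟨.negSucc 111986962, 35⟩, ⟨.negSucc 129352552, 36⟩, ⟨.ofNat 93318911, 35⟩, ⟨.ofNat 105762347, 35⟩, ⟨.ofNat 11657669, 35⟩, ⟨.negSucc 16194444, 35⟩, ⟨.negSucc 781998, 35⟩, ⟨.negSucc 254970, 33⟩, ⟨.negSucc 251122, 36⟩], 0⟩,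
   ⟨[⟨.negSucc 4247024952, 36⟩, ⟨.negSucc 24988178, 36⟩, ⟨.ofNat 1444349823, 35⟩, ⟨.ofNat 11098085, 35⟩, ⟨.negSucc 37523554, 36⟩, ⟨.negSucc 2132782, 35⟩, ⟨.negSucc 1889274, 34⟩, ⟨.ofNat 64075, 34⟩, ⟨.negSucc 16710, 33⟩], 0⟩,
   ⟨[⟨.ofNat 129311407, 36⟩, ⟨.ofNat 92803793, 35⟩, ⟨.negSucc 6734718, 32⟩, ⟨.negSucc 18275522, 33⟩, ⟨.negSucc 13467188, 36⟩, ⟨.ofNat 16238519, 36⟩, ⟨.ofNat 434269, 35⟩, ⟨.negSucc 166666, 35⟩, ⟨.ofNat 7543, 32⟩], 0⟩,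
   ⟨[⟨.ofNat 0, 0⟩, ⟨.negSucc 53580294, 35⟩, ⟨.ofNat 29, 34⟩, ⟨.ofNat 21102707, 34⟩, ⟨.ofNat 769, 33⟩, ⟨.negSucc 4689100, 35⟩, ⟨.ofNat 15163, 35⟩, ⟨.ofNat 23501, 33⟩, ⟨.ofNat 8105, 35⟩], 0⟩]

def LA2E_L : List (List Sym) := [LA2E_0, LA2E_1, LA2E_2, LA2E_3, LA2E_4, LA2E_5, LA2E_6, LA2E_7]

noncomputable def LA2E (i : Nat) : Sym := sym16 LA2E_L i

end Pool.H61.Rh
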