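import Pool.Agent.H47.K3.Defs

/-! # generated: level-3 table LA2R (polynomials in θ, exact) -/

set_option autoImplicit false

namespace Pool.H61.Rh

open Pool.H47.Kc Pool.H47.K3

def LA2R_0 : List Sym :=
  [⟨[⟨.ofNat 1860579983, 32⟩, ⟨.ofNat 744777651, 32⟩, ⟨.ofNat 3270253, 31⟩, ⟨.negSucc 730562, 29⟩, ⟨.ofNat 615377, 32⟩, ⟨.negSucc 222586, 32⟩, ⟨.negSucc 9088, 32⟩], 0⟩,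
   ⟨[⟨.ofNat 549155941, 30⟩, ⟨.negSucc 9634878, 32⟩, ⟨.ofNat 3690991, 28⟩, ⟨.ofNat 25804203, 32⟩, ⟨.negSucc 1420260, 29⟩, ⟨.ofNat 593505, 29⟩, ⟨.negSucc 3724818, 32⟩], 0⟩,
   ⟨[⟨.negSucc 22804808, 30⟩, ⟨.ofNat 25100333, 30⟩, ⟨.ofNat 86221735, 32⟩, ⟨.negSucc 174726002, 32⟩, ⟨.negSucc 54506096, 31⟩, ⟨.negSucc 3694274, 30⟩, ⟨.ofNat 33655443, 32⟩], 0⟩,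
   ⟨[⟨.ofNat 15379087, 32⟩, ⟨.ofNat 182926455, 32⟩, ⟨.ofNat 261504745, 32⟩, ⟨.ofNat 1551367, 28⟩, ⟨.negSucc 76028822, 31⟩, ⟨.ofNat 8062661, 32⟩, ⟨.ofNat 7406085, 31⟩], 0⟩,
   ⟨[⟨.ofNat 238606789, 32⟩, ⟨.negSucc 96135934, 31⟩, ⟨.ofNat 307196283, 32⟩, ⟨.ofNat 37975871, 29⟩, ⟨.ofNat 14818659, 32⟩, ⟨.negSucc 72268140, 32⟩, ⟨.ofNat 60351, 31⟩], 0⟩,
   ⟨[⟨.ofNat 474213, 26⟩, ⟨.negSucc 10438524, 29⟩, ⟨.negSucc 6349312, 32⟩, ⟨.ofNat 53333811, 31⟩, ⟨.ofNat 46026945, 32⟩, ⟨.negSucc 10287686, 32⟩, ⟨.negSucc 2135232, 32⟩], 0⟩,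
   ⟨[⟨.negSucc 1166266, 32⟩, ⟨.ofNat 104807829, 32⟩, ⟨.ofNat 163757, 30⟩, ⟨.negSucc 2814196, 26⟩, ⟨.negSucc 1063418, 31⟩, ⟨.ofNat 16933989, 31⟩, ⟨.negSucc 132124, 32⟩], 0⟩,
   ⟨[⟨.ofNat 63, 32⟩, ⟨.negSucc 3114588, 32⟩, ⟨.ofNat 99555, 32⟩, ⟨.ofNat 3241961, 31⟩, ⟨.ofNat 1710003, 32⟩, ⟨.negSucc 3217128, 31⟩, ⟨.ofNat 1833495, 32⟩], 0⟩,
   ⟨[⟨.ofNat 1903756055, 31⟩, ⟨.negSucc 90625044, 32⟩, ⟨.negSucc 172460750, 32⟩, ⟨.negSucc 40035044, 30⟩, ⟨.negSucc 23172950, 32⟩, ⟨.negSucc 14234970, 32⟩, ⟨.ofNat 2020315, 32⟩], 0⟩,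
   ⟨[⟨.ofNat 466939327, 32⟩, ⟨.ofNat 235971333, 31⟩, ⟨.ofNat 139233705, 31⟩, ⟨.negSucc 43395744, 32⟩, ⟨.ofNat 48373811, 32⟩, ⟨.negSucc 14541186, 32⟩, ⟨.negSucc 15304188, 32⟩], 0⟩,
   ⟨[⟨.negSucc 444535584, 32⟩, ⟨.ofNat 147851537, 31⟩, ⟨.ofNat 35341321, 31⟩, ⟨.negSucc 13883728, 31⟩, ⟨.negSucc 39372496, 30⟩, ⟨.ofNat 76388077, 32⟩, ⟨.ofNat 12759179, 32⟩], 0⟩,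
   ⟨[⟨.negSucc 56759550, 30⟩, ⟨.negSucc 321364454, 32⟩, ⟨.ofNat 322973821, 31⟩, ⟨.negSucc 334669504, 32⟩, ⟨.negSucc 105590214, 32⟩, ⟨.ofNat 4221643, 28⟩, ⟨.negSucc 747484, 31⟩], 0⟩,
   ⟨[⟨.ofNat 88170717, 31⟩, ⟨.ofNat 4420493, 28⟩, ⟨.negSucc 103748702, 31⟩, ⟨.negSucc 56716022, 32⟩, ⟨.negSucc 130398430, 32⟩, ⟨.negSucc 36515998, 32⟩, ⟨.ofNat 15825893, 32⟩], 0⟩,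
   ⟨[⟨.ofNat 12115455, 28⟩, ⟨.negSucc 7453538, 29⟩, ⟨.ofNat 62719161, 32⟩, ⟨.ofNat 1616461, 26⟩, ⟨.ofNat 12048759, 29⟩, ⟨.negSucc 1155258, 28⟩, ⟨.negSucc 1569458, 31⟩], 0⟩,
   ⟨[⟨.negSucc 6059988, 32⟩, ⟨.ofNat 900381, 31⟩, ⟨.ofNat 260143, 28⟩, ⟨.negSucc 1755026, 31⟩, ⟨.negSucc 2007736, 30⟩, ⟨.ofNat 4535401, 32⟩, ⟨.ofNat 559145, 31⟩], 0⟩,
   ⟨[⟨.ofNat 122399141, 31⟩, ⟨.negSucc 227312862, 32⟩, ⟨.negSucc 200192578, 30⟩, ⟨.negSucc 417917798, 32⟩, ⟨.ofNat 7962277, 29⟩, ⟨.negSucc 25013588, 32⟩, ⟨.ofNat 10292453, 32⟩], 0⟩]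

def LA2R_1 : List Sym :=
  [⟨[⟨.negSucc 14973732, 30⟩, ⟨.ofNat 1132643017, 32⟩, ⟨.negSucc 206617036, 31⟩, ⟨.ofNat 151894513, 32⟩, ⟨.negSucc 87410, 26⟩, ⟨.negSucc 39728994, 32⟩, ⟨.ofNat 128117, 30⟩], 0⟩,
   ⟨[⟨.negSucc 661783498, 32⟩, ⟨.negSucc 224123684, 30⟩, ⟨.ofNat 823893779, 32⟩, ⟨.negSucc 35058654, 30⟩, ⟨.ofNat 5317851, 30⟩, ⟨.negSucc 6282070, 32⟩, ⟨.negSucc 14959274, 32⟩], 0⟩,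
   ⟨[⟨.negSucc 12439646, 27⟩, ⟨.negSucc 299179020, 32⟩, ⟨.ofNat 192884979, 32⟩, ⟨.ofNat 455800695, 32⟩, ⟨.ofNat 57805581, 31⟩, ⟨.ofNat 33738105, 32⟩, ⟨.negSucc 11282212, 32⟩], 0⟩,
   ⟨[⟨.negSucc 51097332, 31⟩, ⟨.ofNat 360377595, 32⟩, ⟨.negSucc 45460326, 32⟩, ⟨.negSucc 481327120, 32⟩, ⟨.negSucc 25491336, 31⟩, ⟨.ofNat 11700927, 31⟩, ⟨.ofNat 2539561, 31⟩], 0⟩,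
   ⟨[⟨.ofNat 874687, 30⟩, ⟨.negSucc 1381854, 30⟩, ⟨.negSucc 2384152, 32⟩, ⟨.ofNat 20415275, 32⟩, ⟨.ofNat 620599, 29⟩, ⟨.negSucc 1026340, 29⟩, ⟨.negSucc 285624, 32⟩], 0⟩,
   ⟨[⟨.negSucc 96314298, 31⟩, ⟨.negSucc 14401894, 26⟩, ⟨.negSucc 1202410640, 32⟩, ⟨.ofNat 368657893, 32⟩, ⟨.ofNat 3054791, 30⟩, ⟨.negSucc 10863968, 32⟩, ⟨.ofNat 135069, 28⟩], 0⟩,
   ⟨[⟨.negSucc 1073888072, 32⟩, ⟨.negSucc 400709698, 31⟩, ⟨.ofNat 192945169, 30⟩, ⟨.ofNat 62905033, 32⟩, ⟨.ofNat 96155421, 32⟩, ⟨.ofNat 15309963, 32⟩, ⟨.ofNat 35605, 28⟩], 0⟩,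
   ⟨[⟨.ofNat 441262787, 32⟩, ⟨.ofNat 188227161, 32⟩, ⟨.negSucc 321411622, 32⟩, ⟨.negSucc 218561646, 32⟩, ⟨.negSucc 150824004, 32⟩, ⟨.negSucc 13471628, 30⟩, ⟨.ofNat 160515, 28⟩], 0⟩,
   ⟨[⟨.negSucc 68352504, 30⟩, ⟨.negSucc 215903712, 32⟩, ⟨.ofNat 389879265, 32⟩, ⟨.ofNat 70488333, 30⟩, ⟨.ofNat 20521631, 30⟩, ⟨.negSucc 1534520, 30⟩, ⟨.negSucc 2008768, 30⟩], 0⟩,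
   ⟨[⟨.ofNat 993119, 29⟩, ⟨.ofNat 798081, 30⟩, ⟨.negSucc 465966, 28⟩, ⟨.negSucc 1461172, 29⟩, ⟨.negSucc 4440246, 31⟩, ⟨.ofNat 1270411, 30⟩, ⟨.ofNat 1832605, 32⟩], 0⟩,
   ⟨[⟨.negSucc 266926570, 31⟩, ⟨.negSucc 1250219058, 32⟩, ⟨.ofNat 240512435, 31⟩, ⟨.ofNat 89549301, 31⟩, ⟨.negSucc 24879498, 30⟩, ⟨.ofNat 6867305, 32⟩, ⟨.negSucc 971092, 30⟩], 0⟩,
   ⟨[⟨.negSucc 542078984, 32⟩, ⟨.negSucc 462369390, 32⟩, ⟨.ofNat 52366119, 30⟩, ⟨.ofNat 408513257, 32⟩, ⟨.ofNat 11918105, 29⟩, ⟨.ofNat 2718933, 31⟩, ⟨.negSucc 1147804, 31⟩], 0⟩,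
   ⟨[⟨.ofNat 167653995, 32⟩, ⟨.ofNat 269015253, 32⟩, ⟨.negSucc 914030, 24⟩, ⟨.negSucc 310365582, 32⟩, ⟨.negSucc 5606380, 29⟩, ⟨.negSucc 2731036, 31⟩, ⟨.ofNat 2365395, 32⟩], 0⟩,
   ⟨[⟨.negSucc 2293528, 31⟩, ⟨.negSucc 7009338, 31⟩, ⟨.ofNat 4244637, 32⟩, ⟨.ofNat 360501, 26⟩, ⟨.ofNat 4100661, 32⟩, ⟨.negSucc 348718, 29⟩, ⟨.negSucc 2157654, 32⟩], 0⟩,
   ⟨[⟨.ofNat 30962583, 31⟩, ⟨.ofNat 62868235, 30⟩, ⟨.negSucc 82446290, 32⟩, ⟨.negSucc 95201576, 31⟩, ⟨.ofNat 14561141, 32⟩, ⟨.negSucc 724, 21⟩, ⟨.negSucc 459682, 32⟩], 0⟩,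
   ⟨[⟨.negSucc 461854440, 32⟩, ⟨.negSucc 81579488, 31⟩, ⟨.ofNat 39681211, 29⟩, ⟨.ofNat 180870891, 32⟩, ⟨.negSucc 2629364, 31⟩, ⟨.ofNat 2073543, 32⟩, ⟨.negSucc 648376, 31⟩], 0⟩]

def LA2R_2 : List Sym :=
  [⟨[⟨.ofNat 14004939, 32⟩, ⟨.ofNat 8092413, 32⟩, ⟨.negSucc 5810328, 31⟩, ⟨.negSucc 13437306, 32⟩, ⟨.negSucc 449240, 31⟩, ⟨.ofNat 1199887, 32⟩, ⟨.ofNat 332205, 31⟩], 0⟩,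
   ⟨[⟨.ofNat 265563195, 32⟩, ⟨.ofNat 1562971, 32⟩, ⟨.negSucc 182043818, 32⟩, ⟨.negSucc 41940, 27⟩, ⟨.ofNat 2953445, 32⟩, ⟨.ofNat 440937, 32⟩, ⟨.ofNat 409843, 32⟩], 0⟩,
   ⟨[⟨.negSucc 8085742, 32⟩, ⟨.negSucc 11605846, 32⟩, ⟨.ofNat 6728345, 32⟩, ⟨.ofNat 9140711, 32⟩, ⟨.ofNat 52867, 28⟩, ⟨.negSucc 1013280, 32⟩, ⟨.negSucc 38534, 32⟩], 0⟩,
   ⟨[⟨.negSucc 0, 31⟩, ⟨.ofNat 6700851, 32⟩, ⟨.negSucc 1448, 31⟩, ⟨.negSucc 5257976, 32⟩, ⟨.negSucc 6116, 29⟩, ⟨.ofNat 653643, 32⟩, ⟨.negSucc 49904, 32⟩], 0⟩,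
   ⟨[⟨.ofNat 55040309, 29⟩, ⟨.negSucc 322774674, 31⟩, ⟨.negSucc 112647964, 30⟩, ⟨.ofNat 49501391, 31⟩, ⟨.ofNat 6510841, 30⟩, ⟨.ofNat 12573893, 32⟩, ⟨.negSucc 485500, 31⟩], 0⟩,
   ⟨[⟨.ofNat 158823747, 32⟩, ⟨.negSucc 446533210, 30⟩, ⟨.ofNat 28674227, 30⟩, ⟨.ofNat 341018799, 30⟩, ⟨.ofNat 27532405, 31⟩, ⟨.negSucc 76425014, 30⟩, ⟨.ofNat 9496193, 32⟩], 0⟩,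
   ⟨[⟨.negSucc 317999058, 30⟩, ⟨.negSucc 9923686, 30⟩, ⟨.ofNat 64561941, 28⟩, ⟨.ofNat 455008459, 31⟩, ⟨.ofNat 62699855, 31⟩, ⟨.negSucc 175245150, 31⟩, ⟨.ofNat 2871121, 29⟩], 0⟩,
   ⟨[⟨.negSucc 51794542, 29⟩, ⟨.ofNat 1746515725, 31⟩, ⟨.negSucc 138715450, 31⟩, ⟨.negSucc 2656146618, 32⟩, ⟨.ofNat 628007, 29⟩, ⟨.ofNat 490428825, 32⟩, ⟨.negSucc 5338472, 32⟩], 0⟩,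
   ⟨[⟨.ofNat 662580225, 32⟩, ⟨.ofNat 144160073, 30⟩, ⟨.negSucc 349190120, 31⟩, ⟨.negSucc 1114033158, 32⟩, ⟨.negSucc 109105062, 32⟩, ⟨.ofNat 479063, 23⟩, ⟨.ofNat 4689133, 31⟩], 0⟩,
   ⟨[⟨.negSucc 19732868, 32⟩, ⟨.negSucc 1893396504, 32⟩, ⟨.ofNat 33129845, 32⟩, ⟨.ofNat 392941937, 30⟩, ⟨.ofNat 5733591, 32⟩, ⟨.negSucc 287900886, 32⟩, ⟨.ofNat 1729933, 29⟩], 0⟩,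
   ⟨[⟨.negSucc 124, 30⟩, ⟨.ofNat 57063579, 32⟩, ⟨.negSucc 382, 21⟩, ⟨.negSucc 73801240, 32⟩, ⟨.negSucc 6735558, 31⟩, ⟨.ofNat 53260659, 32⟩, ⟨.negSucc 14438380, 32⟩], 0⟩,
   ⟨[⟨.ofNat 152859599, 30⟩, ⟨.negSucc 2236099636, 32⟩, ⟨.negSucc 1101103978, 32⟩, ⟨.ofNat 148964319, 30⟩, ⟨.ofNat 212583309, 32⟩, ⟨.negSucc 6496856, 32⟩, ⟨.negSucc 295422, 26⟩], 0⟩,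
   ⟨[⟨.ofNat 1972743647, 32⟩, ⟨.negSucc 283871442, 29⟩, ⟨.negSucc 628733354, 31⟩, ⟨.ofNat 12629461, 27⟩, ⟨.negSucc 57358160, 30⟩, ⟨.negSucc 15955930, 30⟩, ⟨.ofNat 1746177, 26⟩], 0⟩,
   ⟨[⟨.negSucc 1497997840, 31⟩, ⟨.ofNat 1255332815, 32⟩, ⟨.ofNat 27275921, 25⟩, ⟨.ofNat 145891689, 31⟩, ⟨.negSucc 796013458, 32⟩, ⟨.negSucc 15888718, 28⟩, ⟨.ofNat 115631395, 32⟩], 0⟩,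
   ⟨[⟨.negSucc 2181063204, 32⟩, ⟨.ofNat 977053883, 31⟩, ⟨.ofNat 2161298793, 32⟩, ⟨.negSucc 23379146, 30⟩, ⟨.ofNat 163546923, 31⟩, ⟨.negSucc 74255278, 32⟩, ⟨.negSucc 61543624, 32⟩], 0⟩,
   ⟨[⟨.ofNat 2314290973, 32⟩, ⟨.ofNat 1036547533, 32⟩, ⟨.negSucc 3299713366, 32⟩, ⟨.negSucc 855395420, 32⟩, ⟨.ofNat 21786571, 28⟩, ⟨.ofNat 163221811, 32⟩, ⟨.ofNat 396617, 29⟩], 0⟩]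

def LA2R_3 : List Sym :=
  [⟨[⟨.negSucc 34179058, 31⟩, ⟨.negSucc 16481704, 31⟩, ⟨.ofNat 89577285, 32⟩, ⟨.ofNat 20492601, 31⟩, ⟨.negSucc 12164734, 32⟩, ⟨.negSucc 36479340, 32⟩, ⟨.ofNat 4617529, 31⟩], 0⟩,
   ⟨[⟨.negSucc 339842186, 31⟩, ⟨.negSucc 45302846, 32⟩, ⟨.ofNat 1762755283, 32⟩, ⟨.ofNat 633813421, 32⟩, ⟨.negSucc 108768318, 31⟩, ⟨.negSucc 65889026, 31⟩, ⟨.negSucc 690862, 28⟩], 0⟩,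
   ⟨[⟨.ofNat 1189889183, 32⟩, ⟨.ofNat 58450251, 30⟩, ⟨.negSucc 698039908, 32⟩, ⟨.negSucc 303960870, 32⟩, ⟨.ofNat 9908261, 29⟩, ⟨.ofNat 56475307, 31⟩, ⟨.ofNat 14971319, 30⟩], 0⟩,
   ⟨[⟨.ofNat 1101390391, 32⟩, ⟨.ofNat 21506231, 31⟩, ⟨.negSucc 1028875424, 32⟩, ⟨.negSucc 459062802, 30⟩, ⟨.negSucc 373270464, 32⟩, ⟨.ofNat 306604725, 32⟩, ⟨.ofNat 68963741, 32⟩], 0⟩,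
   ⟨[⟨.negSucc 1330842578, 32⟩, ⟨.ofNat 8978441, 26⟩, ⟨.ofNat 489433871, 30⟩, ⟨.ofNat 645275969, 31⟩, ⟨.negSucc 202914084, 32⟩, ⟨.negSucc 153141762, 31⟩, ⟨.ofNat 2893355, 30⟩], 0⟩,
   ⟨[⟨.ofNat 616659, 26⟩, ⟨.ofNat 37355371, 32⟩, ⟨.negSucc 52348010, 32⟩, ⟨.negSucc 26006882, 30⟩, ⟨.negSucc 3778646, 32⟩, ⟨.ofNat 68419875, 32⟩, ⟨.negSucc 16827526, 32⟩], 0⟩,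
   ⟨[⟨.negSucc 405343926, 31⟩, ⟨.ofNat 397469925, 29⟩, ⟨.ofNat 1696451771, 32⟩, ⟨.negSucc 622009312, 32⟩, ⟨.negSucc 284984488, 32⟩, ⟨.negSucc 2735334, 30⟩, ⟨.negSucc 259062, 26⟩], 0⟩,
   ⟨[⟨.negSucc 1642380920, 32⟩, ⟨.ofNat 2063348319, 32⟩, ⟨.ofNat 3113415575, 32⟩, ⟨.ofNat 1590311, 24⟩, ⟨.negSucc 159522264, 31⟩, ⟨.negSucc 13106638, 29⟩, ⟨.ofNat 7581879, 30⟩], 0⟩,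
   ⟨[⟨.ofNat 2295885641, 32⟩, ⟨.negSucc 403286496, 32⟩, ⟨.negSucc 1665545820, 31⟩, ⟨.negSucc 683480904, 32⟩, ⟨.ofNat 193717727, 31⟩, ⟨.ofNat 67838385, 31⟩, ⟨.ofNat 3760615, 31⟩], 0⟩,
   ⟨[⟨.negSucc 34179040, 31⟩, ⟨.negSucc 21578642, 32⟩, ⟨.ofNat 152925781, 32⟩, ⟨.ofNat 14751611, 30⟩, ⟨.negSucc 24833590, 32⟩, ⟨.negSucc 43221466, 32⟩, ⟨.ofNat 5535429, 31⟩], 0⟩,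
   ⟨[⟨.ofNat 34964583, 30⟩, ⟨.negSucc 89541990, 30⟩, ⟨.negSucc 867054860, 32⟩, ⟨.ofNat 124261839, 32⟩, ⟨.ofNat 74418571, 32⟩, ⟨.negSucc 21231254, 32⟩, ⟨.negSucc 4545370, 32⟩], 0⟩,
   ⟨[⟨.negSucc 1300483302, 32⟩, ⟨.ofNat 2476586643, 32⟩, ⟨.ofNat 968974183, 31⟩, ⟨.negSucc 274952776, 32⟩, ⟨.negSucc 225810542, 32⟩, ⟨.negSucc 1694786, 29⟩, ⟨.ofNat 2706619, 32⟩], 0⟩,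
   ⟨[⟨.ofNat 19733339, 31⟩, ⟨.negSucc 9854194, 31⟩, ⟨.negSucc 88102024, 32⟩, ⟨.negSucc 30242896, 32⟩, ⟨.ofNat 8806955, 31⟩, ⟨.ofNat 7550657, 31⟩, ⟨.negSucc 1412842, 31⟩], 0⟩,
   ⟨[⟨.negSucc 30, 32⟩, ⟨.negSucc 1444683876, 32⟩, ⟨.negSucc 8570752, 32⟩, ⟨.ofNat 44330869, 30⟩, ⟨.ofNat 442193, 30⟩, ⟨.ofNat 2026571, 32⟩, ⟨.negSucc 763168, 31⟩], 0⟩,
   ⟨[⟨.ofNat 37, 32⟩, ⟨.ofNat 11384767, 32⟩, ⟨.ofNat 3959281, 28⟩, ⟨.ofNat 9010621, 31⟩, ⟨.negSucc 1583606, 29⟩, ⟨.negSucc 3371062, 31⟩, ⟨.ofNat 229475, 29⟩], 0⟩,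
   ⟨[⟨.ofNat 1, 31⟩, ⟨.negSucc 90, 31⟩, ⟨.negSucc 18269198, 31⟩, ⟨.negSucc 16606, 32⟩, ⟨.ofNat 7921439, 32⟩, ⟨.negSucc 28950, 31⟩, ⟨.negSucc 436540, 32⟩], 0⟩]

def LA2R_4 : List Sym :=
  [⟨[⟨.ofNat 1091786073, 32⟩, ⟨.negSucc 1779374, 27⟩, ⟨.negSucc 84445688, 31⟩, ⟨.ofNat 40818515, 32⟩, ⟨.ofNat 8840269, 32⟩, ⟨.negSucc 19984278, 32⟩, ⟨.ofNat 3599199, 32⟩], 0⟩,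
   ⟨[⟨.ofNat 1102657599, 32⟩, ⟨.ofNat 14062829, 27⟩, ⟨.ofNat 189802719, 30⟩, ⟨.negSucc 34037416, 32⟩, ⟨.negSucc 28321458, 31⟩, ⟨.ofNat 310343, 26⟩, ⟨.negSucc 5371978, 32⟩], 0⟩,
   ⟨[⟨.negSucc 940892308, 31⟩, ⟨.ofNat 529573155, 32⟩, ⟨.ofNat 558084735, 31⟩, ⟨.ofNat 275781637, 32⟩, ⟨.negSucc 33932020, 32⟩, ⟨.ofNat 5432345, 30⟩, ⟨.negSucc 20458258, 32⟩], 0⟩,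
   ⟨[⟨.negSucc 1607251792, 32⟩, ⟨.negSucc 932896160, 32⟩, ⟨.negSucc 2014223732, 32⟩, ⟨.ofNat 211961233, 31⟩, ⟨.ofNat 103976967, 32⟩, ⟨.negSucc 61101398, 32⟩, ⟨.ofNat 4513899, 31⟩], 0⟩,
   ⟨[⟨.ofNat 441549997, 31⟩, ⟨.negSucc 60194990, 28⟩, ⟨.negSucc 584317510, 31⟩, ⟨.negSucc 16127556, 32⟩, ⟨.ofNat 75002183, 31⟩, ⟨.negSucc 8327636, 31⟩, ⟨.negSucc 2629750, 29⟩], 0⟩,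
   ⟨[⟨.ofNat 531768325, 32⟩, ⟨.ofNat 30193907, 32⟩, ⟨.ofNat 1320341081, 32⟩, ⟨.negSucc 15494220, 32⟩, ⟨.negSucc 53901168, 31⟩, ⟨.ofNat 3995767, 31⟩, ⟨.negSucc 386370, 31⟩], 0⟩,
   ⟨[⟨.negSucc 8481380, 31⟩, ⟨.ofNat 3, 30⟩, ⟨.negSucc 29139262, 32⟩, ⟨.ofNat 1259, 32⟩, ⟨.ofNat 2998145, 29⟩, ⟨.ofNat 3187, 31⟩, ⟨.negSucc 1420948, 32⟩], 0⟩,
   ⟨[⟨.ofNat 694632677, 32⟩, ⟨.negSucc 414148246, 30⟩, ⟨.ofNat 833346861, 32⟩, ⟨.ofNat 540699297, 32⟩, ⟨.negSucc 213770328, 32⟩, ⟨.negSucc 20730300, 31⟩, ⟨.ofNat 6848559, 31⟩], 0⟩,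
   ⟨[⟨.ofNat 455350935, 30⟩, ⟨.negSucc 2177215310, 32⟩, ⟨.negSucc 36633902, 31⟩, ⟨.negSucc 22533114, 29⟩, ⟨.negSucc 20585912, 32⟩, ⟨.negSucc 45943372, 30⟩, ⟨.ofNat 33740121, 32⟩], 0⟩,
   ⟨[⟨.ofNat 527203529, 32⟩, ⟨.ofNat 3812208805, 32⟩, ⟨.negSucc 217299256, 30⟩, ⟨.negSucc 193396426, 31⟩, ⟨.ofNat 11826249, 28⟩, ⟨.ofNat 61415993, 31⟩, ⟨.negSucc 46209922, 32⟩], 0⟩,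
   ⟨[⟨.negSucc 505302546, 31⟩, ⟨.ofNat 2145314001, 32⟩, ⟨.negSucc 279484242, 32⟩, ⟨.negSucc 9454578, 28⟩, ⟨.ofNat 56047721, 32⟩, ⟨.ofNat 48736005, 30⟩, ⟨.ofNat 3790183, 31⟩], 0⟩,
   ⟨[⟨.negSucc 72849874, 30⟩, ⟨.negSucc 3244189412, 32⟩, ⟨.negSucc 765704530, 32⟩, ⟨.ofNat 591590341, 32⟩, ⟨.ofNat 24174003, 31⟩, ⟨.negSucc 149702408, 32⟩, ⟨.ofNat 9236939, 32⟩], 0⟩,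
   ⟨[⟨.ofNat 4896595, 31⟩, ⟨.ofNat 6960275, 28⟩, ⟨.ofNat 16407799, 32⟩, ⟨.negSucc 19440926, 31⟩, ⟨.negSucc 20998794, 32⟩, ⟨.ofNat 20488565, 32⟩, ⟨.negSucc 3438070, 31⟩], 0⟩,
   ⟨[⟨.negSucc 559530826, 31⟩, ⟨.ofNat 316757, 26⟩, ⟨.ofNat 222286677, 29⟩, ⟨.negSucc 188092664, 31⟩, ⟨.negSucc 25804308, 31⟩, ⟨.ofNat 50922071, 30⟩, ⟨.negSucc 10236368, 32⟩], 0⟩,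
   ⟨[⟨.ofNat 584795541, 32⟩, ⟨.negSucc 1150244376, 31⟩, ⟨.negSucc 333842794, 30⟩, ⟨.ofNat 91091151, 32⟩, ⟨.negSucc 336560244, 32⟩, ⟨.negSucc 19248702, 30⟩, ⟨.ofNat 122258133, 32⟩], 0⟩,
   ⟨[⟨.ofNat 535172193, 31⟩, ⟨.negSucc 129154842, 29⟩, ⟨.negSucc 1720041522, 32⟩, ⟨.negSucc 76376082, 32⟩, ⟨.ofNat 218658715, 32⟩, ⟨.negSucc 148115730, 32⟩, ⟨.negSucc 46053494, 32⟩], 0⟩]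

def LA2R_5 : List Sym :=
  [⟨[⟨.ofNat 267781615, 32⟩, ⟨.ofNat 926860721, 31⟩, ⟨.ofNat 27985839, 28⟩, ⟨.negSucc 352822014, 32⟩, ⟨.ofNat 28603343, 29⟩, ⟨.ofNat 112381145, 32⟩, ⟨.negSucc 5578396, 32⟩], 0⟩,
   ⟨[⟨.negSucc 9159802, 32⟩, ⟨.negSucc 8038256, 29⟩, ⟨.negSucc 21172804, 30⟩, ⟨.ofNat 10775929, 31⟩, ⟨.ofNat 5928413, 30⟩, ⟨.negSucc 937194, 28⟩, ⟨.ofNat 6711705, 32⟩], 0⟩,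
   ⟨[⟨.negSucc 52444692, 28⟩, ⟨.ofNat 2702587249, 32⟩, ⟨.negSucc 2638800, 24⟩, ⟨.negSucc 311420082, 32⟩, ⟨.ofNat 515285677, 32⟩, ⟨.negSucc 1492492, 28⟩, ⟨.negSucc 9783306, 31⟩], 0⟩,
   ⟨[⟨.negSucc 273605650, 30⟩, ⟨.ofNat 1023805267, 32⟩, ⟨.ofNat 54455069, 31⟩, ⟨.negSucc 855368518, 32⟩, ⟨.negSucc 7277134, 32⟩, ⟨.ofNat 338233767, 32⟩, ⟨.ofNat 23069879, 31⟩], 0⟩,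
   ⟨[⟨.negSucc 545284, 24⟩, ⟨.negSucc 3201079988, 32⟩, ⟨.negSucc 233088656, 32⟩, ⟨.ofNat 569598065, 32⟩, ⟨.negSucc 17899032, 29⟩, ⟨.negSucc 46170582, 30⟩, ⟨.ofNat 8454923, 31⟩], 0⟩,
   ⟨[⟨.ofNat 1322037, 30⟩, ⟨.ofNat 104912797, 32⟩, ⟨.ofNat 24238943, 31⟩, ⟨.negSucc 7637354, 29⟩, ⟨.negSucc 651846, 27⟩, ⟨.ofNat 18542747, 31⟩, ⟨.negSucc 11493246, 32⟩], 0⟩,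
   ⟨[⟨.ofNat 17250609, 31⟩, ⟨.ofNat 548962039, 32⟩, ⟨.ofNat 48751693, 30⟩, ⟨.ofNat 376588387, 32⟩, ⟨.negSucc 18048414, 30⟩, ⟨.negSucc 85122682, 31⟩, ⟨.ofNat 5485591, 31⟩], 0⟩,
   ⟨[⟨.negSucc 257318328, 32⟩, ⟨.ofNat 899549499, 31⟩, ⟨.negSucc 465325602, 31⟩, ⟨.negSucc 40839804, 29⟩, ⟨.ofNat 339373605, 32⟩, ⟨.ofNat 27375281, 30⟩, ⟨.negSucc 937742, 31⟩], 0⟩,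
   ⟨[⟨.ofNat 7803011, 32⟩, ⟨.negSucc 60577966, 32⟩, ⟨.negSucc 27735148, 31⟩, ⟨.ofNat 34676725, 32⟩, ⟨.ofNat 557273, 31⟩, ⟨.negSucc 5881742, 30⟩, ⟨.ofNat 4784327, 31⟩], 0⟩,
   ⟨[⟨.ofNat 9247263, 28⟩, ⟨.ofNat 6637, 25⟩, ⟨.ofNat 565621383, 32⟩, ⟨.ofNat 285917, 30⟩, ⟨.negSucc 100867232, 31⟩, ⟨.negSucc 2241278, 30⟩, ⟨.negSucc 1789508, 32⟩], 0⟩,
   ⟨[⟨.negSucc 2252520, 31⟩, ⟨.negSucc 3225800, 31⟩, ⟨.ofNat 32070087, 32⟩, ⟨.negSucc 11108492, 31⟩, ⟨.ofNat 69845, 31⟩, ⟨.ofNat 16596929, 32⟩, ⟨.negSucc 4617104, 32⟩], 0⟩,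
   ⟨[⟨.ofNat 13, 30⟩, ⟨.ofNat 932025, 30⟩, ⟨.ofNat 81659, 32⟩, ⟨.ofNat 6563063, 31⟩, ⟨.ofNat 1386055, 32⟩, ⟨.negSucc 4262738, 31⟩, ⟨.ofNat 44875, 27⟩], 0⟩,
   ⟨[⟨.negSucc 24124226, 32⟩, ⟨.ofNat 9, 32⟩, ⟨.negSucc 7543886, 31⟩, ⟨.ofNat 405, 31⟩, ⟨.ofNat 1049707, 32⟩, ⟨.ofNat 1365, 31⟩, ⟨.ofNat 27405, 32⟩], 0⟩,
   ⟨[⟨.ofNat 187831839, 32⟩, ⟨.negSucc 270, 30⟩, ⟨.negSucc 15905462, 32⟩, ⟨.negSucc 49716, 31⟩, ⟨.negSucc 4610558, 32⟩, ⟨.negSucc 352522, 32⟩, ⟨.negSucc 1528138, 32⟩], 0⟩,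
   ⟨[⟨.negSucc 83158534, 32⟩, ⟨.ofNat 2371, 30⟩, ⟨.negSucc 25447284, 31⟩, ⟨.ofNat 870185, 32⟩, ⟨.negSucc 42553092, 31⟩, ⟨.ofNat 3088697, 32⟩, ⟨.ofNat 3507781, 30⟩], 0⟩,
   ⟨[⟨.ofNat 70788499, 31⟩, ⟨.negSucc 5670, 31⟩, ⟨.ofNat 47386991, 29⟩, ⟨.negSucc 521610, 31⟩, ⟨.negSucc 17646082, 32⟩, ⟨.negSucc 1863728, 31⟩, ⟨.ofNat 13791, 32⟩], 0⟩]

def LA2R_6 : List Sym :=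
  [⟨[⟨.negSucc 4896726, 32⟩, ⟨.ofNat 3, 32⟩, ⟨.negSucc 8411780, 32⟩, ⟨.ofNat 363, 32⟩, ⟨.ofNat 6923919, 32⟩, ⟨.ofNat 115, 28⟩, ⟨.negSucc 410192, 32⟩], 0⟩,
   ⟨[⟨.ofNat 15, 31⟩, ⟨.negSucc 766784, 24⟩, ⟨.ofNat 47199, 32⟩, ⟨.negSucc 5371642, 28⟩, ⟨.ofNat 819097, 32⟩, ⟨.negSucc 2947634, 31⟩, ⟨.ofNat 904147, 32⟩], 0⟩,
   ⟨[⟨.negSucc 2, 29⟩, ⟨.ofNat 82745337, 29⟩, ⟨.negSucc 2416, 28⟩, ⟨.ofNat 26773905, 30⟩, ⟨.negSucc 352886, 31⟩, ⟨.negSucc 12018538, 32⟩, ⟨.negSucc 441946, 31⟩], 0⟩,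
   ⟨[⟨.ofNat 11, 31⟩, ⟨.negSucc 386117986, 32⟩, ⟨.ofNat 36855, 32⟩, ⟨.negSucc 133641082, 31⟩, ⟨.ofNat 191397, 30⟩, ⟨.ofNat 6956079, 30⟩, ⟨.ofNat 1226049, 32⟩], 0⟩,
   ⟨[⟨.ofNat 17, 30⟩, ⟨.ofNat 15675299, 32⟩, ⟨.ofNat 26603, 30⟩, ⟨.ofNat 10080569, 32⟩, ⟨.ofNat 912237, 31⟩, ⟨.negSucc 4729712, 31⟩, ⟨.ofNat 973103, 31⟩], 0⟩,
   ⟨[⟨.negSucc 2743520, 31⟩, ⟨.negSucc 232, 32⟩, ⟨.negSucc 154694792, 30⟩, ⟨.negSucc 676, 27⟩, ⟨.negSucc 3453496, 30⟩, ⟨.negSucc 79838, 32⟩, ⟨.ofNat 885037, 32⟩], 0⟩,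
   ⟨[⟨.negSucc 743728860, 32⟩, ⟨.negSucc 1330, 32⟩, ⟨.ofNat 21838037, 27⟩, ⟨.negSucc 121774, 32⟩, ⟨.negSucc 8716710, 32⟩, ⟨.negSucc 107246, 30⟩, ⟨.negSucc 574940, 32⟩], 0⟩,
   ⟨[⟨.ofNat 2748231, 29⟩, ⟨.ofNat 573, 30⟩, ⟨.negSucc 20916882, 31⟩, ⟨.ofNat 52433, 30⟩, ⟨.ofNat 4486639, 32⟩, ⟨.ofNat 369359, 31⟩, ⟨.ofNat 402703, 31⟩], 0⟩,
   ⟨[⟨.ofNat 1, 32⟩, ⟨.negSucc 176544078, 30⟩, ⟨.ofNat 863, 31⟩, ⟨.ofNat 83518281, 32⟩, ⟨.ofNat 16421, 31⟩, ⟨.negSucc 968902, 32⟩, ⟨.ofNat 11261, 30⟩], 0⟩,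
   ⟨[⟨.negSucc 2, 31⟩, ⟨.ofNat 239261, 28⟩, ⟨.negSucc 9762, 32⟩, ⟨.ofNat 304147, 29⟩, ⟨.negSucc 20910, 29⟩, ⟨.ofNat 841531, 32⟩, ⟨.negSucc 178154, 32⟩], 0⟩,
   ⟨[⟨.ofNat 1, 32⟩, ⟨.negSucc 90, 32⟩, ⟨.negSucc 18269198, 32⟩, ⟨.negSucc 8302, 32⟩, ⟨.ofNat 3960719, 32⟩, ⟨.negSucc 28950, 32⟩, ⟨.negSucc 218270, 32⟩], 0⟩]

def LA2R_L : List (List Sym) := [LA2R_0, LA2R_1, LA2R_2, LA2R_3, LA2R_4, LA2R_5, LA2R_6]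

noncomputable def LA2R (i : Nat) : Sym := sym16 LA2R_L i

end Pool.H61.Rh
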