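import Pool.Agent.H47.K3.Defs

/-! # generated: level-3 table LB0E (polynomials in θ, exact) -/

set_option autoImplicit false

namespace Pool.H61.Rh

open Pool.H47.Kc Pool.H47.K3

def LB0E_0 : List Sym :=
  [⟨[⟨.ofNat 6462945009, 35⟩, ⟨.ofNat 1897, 36⟩, ⟨.ofNat 5625889749, 34⟩, ⟨.ofNat 510809, 36⟩, ⟨.negSucc 7502656550, 36⟩, ⟨.ofNat 3615129, 35⟩, ⟨.ofNat 261232851, 36⟩, ⟨.ofNat 10405287, 36⟩, ⟨.ofNat 200361, 35⟩], 0⟩,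
   ⟨[⟨.negSucc 15053090076, 36⟩, ⟨.ofNat 1257, 36⟩, ⟨.negSucc 28394751762, 36⟩, ⟨.ofNat 340653, 36⟩, ⟨.ofNat 2830784377, 36⟩, ⟨.ofNat 4901015, 36⟩, ⟨.negSucc 95024438, 36⟩, ⟨.ofNat 7293919, 36⟩, ⟨.negSucc 2880178, 36⟩], 0⟩,
   ⟨[⟨.negSucc 1930679198, 35⟩, ⟨.negSucc 1444, 35⟩, ⟨.negSucc 14468977348, 36⟩, ⟨.negSucc 389802, 35⟩, ⟨.ofNat 3179398987, 34⟩, ⟨.negSucc 5543048, 35⟩, ⟨.negSucc 2956908, 32⟩, ⟨.negSucc 16111964, 36⟩, ⟨.negSucc 2731572, 34⟩], 0⟩,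
   ⟨[⟨.ofNat 202858095, 33⟩, ⟨.ofNat 247, 34⟩, ⟨.ofNat 964061615, 36⟩, ⟨.ofNat 267423, 36⟩, ⟨.negSucc 484848966, 36⟩, ⟨.ofNat 1916165, 35⟩, ⟨.ofNat 248481485, 36⟩, ⟨.ofNat 2828917, 35⟩, ⟨.negSucc 8837708, 36⟩], 0⟩,
   ⟨[⟨.negSucc 45104604, 36⟩, ⟨.ofNat 351, 36⟩, ⟨.ofNat 7346787, 36⟩, ⟨.ofNat 23605, 34⟩, ⟨.ofNat 4165259, 36⟩, ⟨.ofNat 1334717, 36⟩, ⟨.ofNat 16241, 34⟩, ⟨.ofNat 119713, 32⟩, ⟨.negSucc 279118, 36⟩], 0⟩,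
   ⟨[⟨.ofNat 0, 0⟩], 0⟩,
   ⟨[⟨.negSucc 8, 35⟩, ⟨.ofNat 57997349709, 36⟩, ⟨.negSucc 76410, 36⟩, ⟨.ofNat 959839625, 32⟩, ⟨.negSucc 2079332, 35⟩, ⟨.negSucc 186053184, 33⟩, ⟨.negSucc 21819430, 36⟩, ⟨.ofNat 78765887, 35⟩, ⟨.negSucc 3378872, 34⟩], 0⟩,
   ⟨[⟨.ofNat 9, 34⟩, ⟨.negSucc 403885308, 31⟩, ⟨.ofNat 155393, 36⟩, ⟨.negSucc 6266912586, 34⟩, ⟨.ofNat 8350425, 36⟩, ⟨.ofNat 1985729655, 36⟩, ⟨.ofNat 10657281, 34⟩, ⟨.negSucc 116783138, 35⟩, ⟨.ofNat 6222491, 34⟩], 0⟩,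
   ⟨[⟨.negSucc 4, 36⟩, ⟨.ofNat 109233835, 35⟩, ⟨.negSucc 24168, 36⟩, ⟨.ofNat 49096539, 32⟩, ⟨.negSucc 356426, 34⟩, ⟨.ofNat 901201781, 35⟩, ⟨.negSucc 4353228, 35⟩, ⟨.negSucc 43941930, 35⟩, ⟨.negSucc 6975936, 36⟩], 0⟩,
   ⟨[⟨.negSucc 4, 35⟩, ⟨.negSucc 68385168, 33⟩, ⟨.negSucc 43682, 36⟩, ⟨.ofNat 1013414535, 35⟩, ⟨.negSucc 2354240, 36⟩, ⟨.negSucc 23855760, 30⟩, ⟨.negSucc 12086604, 36⟩, ⟨.ofNat 21984567, 35⟩, ⟨.negSucc 1780934, 34⟩], 0⟩,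
   ⟨[⟨.ofNat 1, 36⟩, ⟨.ofNat 17782047, 36⟩, ⟨.ofNat 2079, 35⟩, ⟨.negSucc 71885284, 36⟩, ⟨.ofNat 53149, 34⟩, ⟨.ofNat 79525769, 36⟩, ⟨.ofNat 963435, 36⟩, ⟨.negSucc 13197948, 35⟩, ⟨.ofNat 200773, 35⟩], 0⟩,
   ⟨[⟨.negSucc 8076150636, 36⟩, ⟨.negSucc 3810, 36⟩, ⟨.ofNat 29121872979, 35⟩, ⟨.negSucc 1027948, 36⟩, ⟨.negSucc 8825426066, 36⟩, ⟨.negSucc 456680, 31⟩, ⟨.ofNat 448741839, 35⟩, ⟨.negSucc 21221956, 36⟩, ⟨.negSucc 4623642, 34⟩], 0⟩,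
   ⟨[⟨.ofNat 4255494671, 36⟩, ⟨.negSucc 162, 36⟩, ⟨.negSucc 9057967562, 36⟩, ⟨.negSucc 43304, 36⟩, ⟨.negSucc 4133057110, 36⟩, ⟨.negSucc 593498, 36⟩, ⟨.negSucc 12677402, 30⟩, ⟨.negSucc 198320, 34⟩, ⟨.ofNat 9633071, 35⟩], 0⟩,
   ⟨[⟨.ofNat 9042481159, 36⟩, ⟨.negSucc 2510, 36⟩, ⟨.ofNat 1537672661, 36⟩, ⟨.negSucc 674034, 36⟩, ⟨.ofNat 457768023, 33⟩, ⟨.negSucc 9468642, 36⟩, ⟨.ofNat 13451723, 36⟩, ⟨.negSucc 6704522, 35⟩, ⟨.negSucc 14171808, 36⟩], 0⟩,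
   ⟨[⟨.negSucc 279000384, 36⟩, ⟨.negSucc 82, 36⟩, ⟨.ofNat 103620809, 36⟩, ⟨.negSucc 22392, 36⟩, ⟨.negSucc 9261220, 34⟩, ⟨.negSucc 39662, 33⟩, ⟨.ofNat 20496339, 36⟩, ⟨.negSucc 457510, 36⟩, ⟨.ofNat 2767041, 36⟩], 0⟩,
   ⟨[⟨.ofNat 7, 36⟩, ⟨.negSucc 1443753604, 34⟩, ⟨.ofNat 16193, 35⟩, ⟨.ofNat 13663012457, 36⟩, ⟨.ofNat 1778567, 36⟩, ⟨.ofNat 3099831371, 36⟩, ⟨.ofNat 9501321, 36⟩, ⟨.negSucc 33500274, 34⟩, ⟨.ofNat 6083063, 36⟩], 0⟩]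

def LB0E_1 : List Sym :=
  [⟨[⟨.ofNat 7, 36⟩, ⟨.ofNat 2603534545, 34⟩, ⟨.ofNat 30445, 36⟩, ⟨.negSucc 9468621226, 36⟩, ⟨.ofNat 1617413, 36⟩, ⟨.negSucc 352827684, 34⟩, ⟨.ofNat 4020123, 35⟩, ⟨.ofNat 36505625, 36⟩, ⟨.ofNat 4388507, 36⟩], 0⟩,
   ⟨[⟨.ofNat 1, 36⟩, ⟨.negSucc 77127940, 36⟩, ⟨.ofNat 407, 33⟩, ⟨.ofNat 56884437, 33⟩, ⟨.ofNat 163961, 36⟩, ⟨.negSucc 9981664, 35⟩, ⟨.ofNat 713389, 36⟩, ⟨.negSucc 30709750, 36⟩, ⟨.ofNat 254095, 36⟩], 0⟩,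
   ⟨[⟨.negSucc 206178770, 35⟩, ⟨.ofNat 69, 35⟩, ⟨.ofNat 1011918229, 34⟩, ⟨.ofNat 37249, 36⟩, ⟨.ofNat 1533301329, 34⟩, ⟨.ofNat 265339, 35⟩, ⟨.negSucc 142449228, 36⟩, ⟨.ofNat 773871, 36⟩, ⟨.negSucc 307636, 33⟩], 0⟩,
   ⟨[⟨.ofNat 6443649, 36⟩, ⟨.negSucc 12, 36⟩, ⟨.ofNat 63806379, 35⟩, ⟨.negSucc 3690, 36⟩, ⟨.negSucc 337653240, 36⟩, ⟨.negSucc 55440, 36⟩, ⟨.ofNat 73607447, 36⟩, ⟨.negSucc 89298, 36⟩, ⟨.ofNat 2562271, 36⟩], 0⟩,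
   ⟨[⟨.ofNat 0, 0⟩, ⟨.negSucc 82864478, 34⟩, ⟨.negSucc 58, 31⟩, ⟨.ofNat 616331481, 36⟩, ⟨.negSucc 101430, 36⟩, ⟨.negSucc 29264328, 35⟩, ⟨.negSucc 517064, 36⟩, ⟨.negSucc 7499802, 36⟩, ⟨.negSucc 149608, 35⟩], 0⟩,
   ⟨[⟨.negSucc 2, 34⟩, ⟨.negSucc 1840649674, 32⟩, ⟨.negSucc 27192, 35⟩, ⟨.negSucc 745578814, 35⟩, ⟨.negSucc 738892, 34⟩, ⟨.ofNat 390679927, 36⟩, ⟨.negSucc 15450226, 36⟩, ⟨.ofNat 6212329, 34⟩, ⟨.negSucc 1184306, 33⟩], 0⟩,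
   ⟨[⟨.negSucc 33298719942, 36⟩, ⟨.ofNat 2003, 35⟩, ⟨.negSucc 40714850644, 36⟩, ⟨.ofNat 1079391, 36⟩, ⟨.ofNat 201926855, 31⟩, ⟨.ofNat 15308295, 36⟩, ⟨.negSucc 756807072, 36⟩, ⟨.ofNat 11060911, 35⟩, ⟨.ofNat 8150567, 35⟩], 0⟩,
   ⟨[⟨.negSucc 10, 36⟩, ⟨.negSucc 21598143112, 36⟩, ⟨.negSucc 22998, 35⟩, ⟨.negSucc 1170854010, 36⟩, ⟨.negSucc 2375234, 36⟩, ⟨.negSucc 6247178012, 36⟩, ⟨.negSucc 11021388, 36⟩, ⟨.ofNat 153971197, 36⟩, ⟨.negSucc 4923420, 36⟩], 0⟩,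
   ⟨[⟨.ofNat 389980787, 32⟩, ⟨.ofNat 397, 33⟩, ⟨.negSucc 418782480, 36⟩, ⟨.ofNat 854313, 36⟩, ⟨.negSucc 2992921526, 34⟩, ⟨.ofNat 12062229, 36⟩, ⟨.ofNat 35090737, 34⟩, ⟨.ofNat 4316799, 34⟩, ⟨.ofNat 17352871, 36⟩], 0⟩,
   ⟨[⟨.negSucc 0, 33⟩, ⟨.ofNat 11198646205, 36⟩, ⟨.negSucc 34158, 36⟩, ⟨.negSucc 11247209866, 36⟩, ⟨.negSucc 1808940, 36⟩, ⟨.negSucc 152542528, 36⟩, ⟨.negSucc 4464970, 35⟩, ⟨.ofNat 36286765, 35⟩, ⟨.negSucc 4797482, 36⟩], 0⟩,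
   ⟨[⟨.ofNat 142722017, 35⟩, ⟨.ofNat 35, 35⟩, ⟨.ofNat 23991949, 36⟩, ⟨.ofNat 9351, 35⟩, ⟨.negSucc 300608356, 36⟩, ⟨.ofNat 261863, 36⟩, ⟨.ofNat 53111107, 36⟩, ⟨.ofNat 92053, 34⟩, ⟨.negSucc 102384, 35⟩], 0⟩,
   ⟨[⟨.ofNat 1787250555, 33⟩, ⟨.ofNat 1167, 36⟩, ⟨.ofNat 1172971149, 34⟩, ⟨.ofNat 314633, 36⟩, ⟨.ofNat 684229491, 34⟩, ⟨.ofNat 4464689, 36⟩, ⟨.negSucc 248958936, 36⟩, ⟨.ofNat 6459609, 36⟩, ⟨.ofNat 1901349, 34⟩], 0⟩,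
   ⟨[⟨.negSucc 8, 36⟩, ⟨.ofNat 14191957841, 36⟩, ⟨.negSucc 4784, 33⟩, ⟨.negSucc 555991858, 36⟩, ⟨.negSucc 2054380, 36⟩, ⟨.ofNat 429564599, 35⟩, ⟨.negSucc 10456152, 36⟩, ⟨.ofNat 8884257, 33⟩, ⟨.negSucc 6059396, 36⟩], 0⟩,
   ⟨[⟨.ofNat 362137717, 31⟩, ⟨.ofNat 13, 36⟩, ⟨.negSucc 4729932392, 36⟩, ⟨.ofNat 3415, 36⟩, ⟨.ofNat 615552739, 35⟩, ⟨.ofNat 49839, 36⟩, ⟨.ofNat 598636251, 36⟩, ⟨.ofNat 76453, 36⟩, ⟨.negSucc 6838186, 35⟩], 0⟩,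
   ⟨[⟨.negSucc 4, 35⟩, ⟨.negSucc 10266028422, 36⟩, ⟨.negSucc 20934, 35⟩, ⟨.ofNat 1745243837, 34⟩, ⟨.negSucc 2237372, 36⟩, ⟨.ofNat 1798640163, 36⟩, ⟨.negSucc 5636322, 35⟩, ⟨.ofNat 815957, 34⟩, ⟨.negSucc 795512, 33⟩], 0⟩,
   ⟨[⟨.negSucc 2343737436, 34⟩, ⟨.negSucc 54, 35⟩, ⟨.ofNat 2556760115, 36⟩, ⟨.negSucc 29424, 36⟩, ⟨.ofNat 2030594669, 36⟩, ⟨.negSucc 102888, 34⟩, ⟨.ofNat 35334875, 36⟩, ⟨.negSucc 577488, 36⟩, ⟨.negSucc 1043740, 34⟩], 0⟩]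

def LB0E_2 : List Sym :=
  [⟨[⟨.ofNat 0, 0⟩, ⟨.negSucc 29568490, 33⟩, ⟨.negSucc 492, 35⟩, ⟨.ofNat 22342675, 34⟩, ⟨.negSucc 52796, 36⟩, ⟨.ofNat 5120055, 33⟩, ⟨.negSucc 133508, 35⟩, ⟨.negSucc 3185948, 36⟩, ⟨.negSucc 151766, 36⟩], 0⟩,
   ⟨[⟨.ofNat 59136782857, 35⟩, ⟨.ofNat 3937, 35⟩, ⟨.ofNat 96652771395, 36⟩, ⟨.ofNat 2123931, 36⟩, ⟨.negSucc 42149216936, 35⟩, ⟨.ofNat 15096719, 35⟩, ⟨.ofNat 2508044039, 36⟩, ⟨.ofNat 43849007, 36⟩, ⟨.negSucc 3649876, 34⟩], 0⟩,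
   ⟨[⟨.negSucc 82096232118, 35⟩, ⟨.negSucc 980, 35⟩, ⟨.negSucc 65360809946, 35⟩, ⟨.negSucc 133700, 34⟩, ⟨.ofNat 127989897113, 36⟩, ⟨.negSucc 7796660, 36⟩, ⟨.negSucc 4260702296, 36⟩, ⟨.negSucc 5955586, 35⟩, ⟨.ofNat 50656293, 36⟩], 0⟩,
   ⟨[⟨.negSucc 3495858292, 33⟩, ⟨.negSucc 8576, 36⟩, ⟨.negSucc 4234350202, 33⟩, ⟨.negSucc 2303342, 36⟩, ⟨.ofNat 6073633597, 36⟩, ⟨.negSucc 2024442, 32⟩, ⟨.ofNat 305190945, 32⟩, ⟨.negSucc 22987784, 35⟩, ⟨.negSucc 68701322, 35⟩], 0⟩,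
   ⟨[⟨.ofNat 17465140813, 35⟩, ⟨.ofNat 12611, 36⟩, ⟨.negSucc 9825822544, 36⟩, ⟨.ofNat 3387809, 36⟩, ⟨.negSucc 3345691060, 35⟩, ⟨.ofNat 47679495, 36⟩, ⟨.ofNat 14001315, 33⟩, ⟨.ofNat 67788919, 36⟩, ⟨.ofNat 2514211, 32⟩], 0⟩,
   ⟨[⟨.ofNat 3725861787, 36⟩, ⟨.ofNat 691, 35⟩, ⟨.ofNat 2060166387, 36⟩, ⟨.ofNat 185311, 35⟩, ⟨.ofNat 364630449, 32⟩, ⟨.ofNat 649185, 33⟩, ⟨.negSucc 443307958, 36⟩, ⟨.ofNat 914607, 33⟩, ⟨.ofNat 18341585, 36⟩], 0⟩,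
   ⟨[⟨.negSucc 845249568, 35⟩, ⟨.negSucc 602, 35⟩, ⟨.negSucc 18360306, 36⟩, ⟨.negSucc 325504, 36⟩, ⟨.negSucc 1199867148, 36⟩, ⟨.negSucc 2318984, 35⟩, ⟨.ofNat 109801691, 34⟩, ⟨.negSucc 6767282, 36⟩, ⟨.negSucc 7539436, 36⟩], 0⟩,
   ⟨[⟨.ofNat 46434881, 36⟩, ⟨.ofNat 527, 36⟩, ⟨.negSucc 1465404, 32⟩, ⟨.ofNat 141149, 36⟩, ⟨.ofNat 29531433, 36⟩, ⟨.ofNat 983785, 35⟩, ⟨.negSucc 30650522, 36⟩, ⟨.ofNat 1370071, 35⟩, ⟨.ofNat 4620343, 36⟩], 0⟩,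
   ⟨[⟨.ofNat 0, 0⟩], 0⟩,
   ⟨[⟨.ofNat 35, 33⟩, ⟨.ofNat 138351218905, 35⟩, ⟨.ofNat 610519, 35⟩, ⟨.negSucc 181177378006, 36⟩, ⟨.ofNat 33500097, 35⟩, ⟨.ofNat 5391662935, 35⟩, ⟨.ofNat 357610141, 36⟩, ⟨.negSucc 1371849062, 36⟩, ⟨.ofNat 229398499, 36⟩], 0⟩,
   ⟨[⟨.negSucc 182, 36⟩, ⟨.negSucc 157036399004, 35⟩, ⟨.negSucc 201630, 34⟩, ⟨.ofNat 100119198317, 36⟩, ⟨.negSucc 45709888, 36⟩, ⟨.negSucc 5072063400, 36⟩, ⟨.negSucc 260128332, 36⟩, ⟨.ofNat 323225759, 36⟩, ⟨.negSucc 187675228, 36⟩], 0⟩,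
   ⟨[⟨.negSucc 50, 36⟩, ⟨.ofNat 40342721047, 36⟩, ⟨.negSucc 215096, 36⟩, ⟨.ofNat 14226782301, 36⟩, ⟨.negSucc 10531880, 36⟩, ⟨.ofNat 2901278383, 35⟩, ⟨.negSucc 41951872, 36⟩, ⟨.negSucc 385978652, 36⟩, ⟨.negSucc 8135766, 36⟩], 0⟩,
   ⟨[⟨.negSucc 32, 35⟩, ⟨.ofNat 3817241249, 34⟩, ⟨.negSucc 143818, 35⟩, ⟨.negSucc 1454069432, 33⟩, ⟨.negSucc 7635906, 35⟩, ⟨.negSucc 30449536, 31⟩, ⟨.negSucc 37928870, 35⟩, ⟨.ofNat 70886211, 34⟩, ⟨.negSucc 41441926, 36⟩], 0⟩,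
   ⟨[⟨.ofNat 3, 34⟩, ⟨.negSucc 277617756, 35⟩, ⟨.ofNat 54493, 36⟩, ⟨.ofNat 1081151937, 36⟩, ⟨.ofNat 1505987, 35⟩, ⟨.negSucc 553175066, 34⟩, ⟨.ofNat 8151625, 35⟩, ⟨.ofNat 10074071, 36⟩, ⟨.ofNat 5353797, 35⟩], 0⟩,
   ⟨[⟨.negSucc 2, 36⟩, ⟨.ofNat 552034717, 36⟩, ⟨.negSucc 100, 29⟩, ⟨.negSucc 1022897170, 35⟩, ⟨.negSucc 666080, 36⟩, ⟨.ofNat 95917309, 32⟩, ⟨.negSucc 3072262, 36⟩, ⟨.negSucc 4885760, 34⟩, ⟨.negSucc 1342990, 36⟩], 0⟩,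
   ⟨[⟨.negSucc 0, 36⟩, ⟨.negSucc 17757052, 36⟩, ⟨.negSucc 5922, 36⟩, ⟨.ofNat 8972457, 33⟩, ⟨.negSucc 146930, 35⟩, ⟨.negSucc 79114072, 36⟩, ⟨.negSucc 612970, 35⟩, ⟨.ofNat 26364131, 36⟩, ⟨.negSucc 354964, 36⟩], 0⟩]

def LB0E_3 : List Sym :=
  [⟨[⟨.ofNat 51729135875, 35⟩, ⟨.negSucc 23764, 34⟩, ⟨.ofNat 167402644121, 36⟩, ⟨.negSucc 25635600, 36⟩, ⟨.negSucc 139143942070, 36⟩, ⟨.negSucc 364276234, 36⟩, ⟨.ofNat 6528746491, 36⟩, ⟨.negSucc 528538528, 36⟩, ⟨.negSucc 119471416, 36⟩], 0⟩,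
   ⟨[⟨.ofNat 41507736903, 36⟩, ⟨.ofNat 717, 32⟩, ⟨.negSucc 88410192278, 36⟩, ⟨.ofNat 3136453, 36⟩, ⟨.ofNat 8206777483, 35⟩, ⟨.ofNat 1440037, 31⟩, ⟨.negSucc 4088812694, 36⟩, ⟨.ofNat 71448187, 36⟩, ⟨.ofNat 77303315, 36⟩], 0⟩,
   ⟨[⟨.negSucc 27367971192, 36⟩, ⟨.negSucc 8088, 36⟩, ⟨.ofNat 67418581769, 36⟩, ⟨.negSucc 2169414, 36⟩, ⟨.negSucc 126705228, 34⟩, ⟨.negSucc 30403858, 36⟩, ⟨.negSucc 34500982, 32⟩, ⟨.negSucc 21424232, 35⟩, ⟨.negSucc 1842276, 35⟩], 0⟩,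
   ⟨[⟨.negSucc 455788114, 35⟩, ⟨.ofNat 525, 35⟩, ⟨.ofNat 1049295315, 36⟩, ⟨.ofNat 71043, 34⟩, ⟨.ofNat 3608356477, 35⟩, ⟨.ofNat 1018047, 34⟩, ⟨.ofNat 634691225, 36⟩, ⟨.ofNat 375279, 32⟩, ⟨.negSucc 9976396, 35⟩], 0⟩,
   ⟨[⟨.negSucc 9099236588, 36⟩, ⟨.ofNat 807, 35⟩, ⟨.negSucc 697562210, 35⟩, ⟨.ofNat 107973, 34⟩, ⟨.negSucc 936943092, 34⟩, ⟨.ofNat 6022915, 36⟩, ⟨.ofNat 14200033, 36⟩, ⟨.ofNat 262357, 31⟩, ⟨.ofNat 7213317, 35⟩], 0⟩,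
   ⟨[⟨.ofNat 278609305, 36⟩, ⟨.ofNat 87, 36⟩, ⟨.negSucc 51570952, 35⟩, ⟨.ofNat 23859, 36⟩, ⟨.ofNat 36808819, 36⟩, ⟨.ofNat 350731, 36⟩, ⟨.negSucc 20549972, 36⟩, ⟨.ofNat 271707, 35⟩, ⟨.negSucc 2790544, 36⟩], 0⟩,
   ⟨[⟨.ofNat 91, 35⟩, ⟨.negSucc 2934399554, 36⟩, ⟨.ofNat 789641, 36⟩, ⟨.ofNat 26816577909, 35⟩, ⟨.ofNat 42406785, 36⟩, ⟨.negSucc 16429531918, 36⟩, ⟨.ofNat 107895653, 35⟩, ⟨.ofNat 481222565, 36⟩, ⟨.ofNat 30994683, 34⟩], 0⟩,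
   ⟨[⟨.ofNat 171, 36⟩, ⟨.ofNat 4314367253, 35⟩, ⟨.ofNat 185153, 34⟩, ⟨.negSucc 39360263160, 36⟩, ⟨.ofNat 39111839, 36⟩, ⟨.ofNat 1816554227, 33⟩, ⟨.ofNat 191766655, 36⟩, ⟨.negSucc 408810144, 35⟩, ⟨.ofNat 101027833, 36⟩], 0⟩,
   ⟨[⟨.negSucc 8, 35⟩, ⟨.ofNat 771541759, 33⟩, ⟨.negSucc 9814, 33⟩, ⟨.negSucc 7232304548, 36⟩, ⟨.negSucc 4304730, 36⟩, ⟨.negSucc 5520082968, 36⟩, ⟨.negSucc 22951042, 36⟩, ⟨.ofNat 198174123, 35⟩, ⟨.negSucc 14733420, 36⟩], 0⟩,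
   ⟨[⟨.ofNat 5, 36⟩, ⟨.negSucc 5187932468, 35⟩, ⟨.ofNat 10859, 35⟩, ⟨.ofNat 9283715775, 36⟩, ⟨.ofNat 568301, 35⟩, ⟨.ofNat 96439771, 32⟩, ⟨.ofNat 5463561, 36⟩, ⟨.negSucc 79790934, 36⟩, ⟨.ofNat 2752077, 36⟩], 0⟩,
   ⟨[⟨.negSucc 0, 35⟩, ⟨.ofNat 38617979, 35⟩, ⟨.negSucc 3198, 35⟩, ⟨.negSucc 113631788, 34⟩, ⟨.negSucc 315990, 36⟩, ⟨.ofNat 2478693, 33⟩, ⟨.negSucc 650950, 35⟩, ⟨.ofNat 31270031, 36⟩, ⟨.negSucc 176272, 35⟩], 0⟩,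
   ⟨[⟨.negSucc 18784563878, 36⟩, ⟨.ofNat 18367, 36⟩, ⟨.ofNat 37433885645, 36⟩, ⟨.ofNat 76523, 30⟩, ⟨.negSucc 2028296586, 35⟩, ⟨.ofNat 67631053, 36⟩, ⟨.negSucc 957572054, 35⟩, ⟨.ofNat 92239697, 36⟩, ⟨.ofNat 53442233, 34⟩], 0⟩,
   ⟨[⟨.negSucc 5850227090, 36⟩, ⟨.negSucc 13998, 36⟩, ⟨.negSucc 13944230, 29⟩, ⟨.negSucc 941494, 34⟩, ⟨.ofNat 6093614591, 35⟩, ⟨.negSucc 830972, 30⟩, ⟨.ofNat 188561443, 36⟩, ⟨.negSucc 38077708, 35⟩, ⟨.negSucc 32096314, 36⟩], 0⟩,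
   ⟨[⟨.ofNat 406280527, 36⟩, ⟨.ofNat 1799, 36⟩, ⟨.negSucc 3999853784, 36⟩, ⟨.ofNat 480883, 36⟩, ⟨.negSucc 6087843772, 36⟩, ⟨.ofNat 3342535, 35⟩, ⟨.ofNat 23174897, 34⟩, ⟨.ofNat 9254687, 36⟩, ⟨.ofNat 6977717, 36⟩], 0⟩,
   ⟨[⟨.negSucc 804326, 33⟩, ⟨.negSucc 54, 35⟩, ⟨.negSucc 127378938, 36⟩, ⟨.negSucc 14510, 35⟩, ⟨.ofNat 336795867, 36⟩, ⟨.negSucc 97302, 34⟩, ⟨.negSucc 18025432, 34⟩, ⟨.negSucc 495526, 36⟩, ⟨.negSucc 641352, 34⟩], 0⟩,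
   ⟨[⟨.ofNat 11, 35⟩, ⟨.ofNat 6007815631, 35⟩, ⟨.ofNat 12373, 33⟩, ⟨.negSucc 6305204400, 36⟩, ⟨.ofNat 5902485, 36⟩, ⟨.negSucc 2900856916, 36⟩, ⟨.ofNat 36619485, 36⟩, ⟨.ofNat 154745071, 36⟩, ⟨.ofNat 14882615, 35⟩], 0⟩]

def LB0E_4 : List Sym :=
  [⟨[⟨.ofNat 19, 36⟩, ⟨.negSucc 11226381094, 36⟩, ⟨.ofNat 82997, 36⟩, ⟨.ofNat 11234764089, 36⟩, ⟨.ofNat 2174689, 35⟩, ⟨.ofNat 179639361, 36⟩, ⟨.ofNat 10473495, 35⟩, ⟨.negSucc 95526084, 36⟩, ⟨.ofNat 10533555, 36⟩], 0⟩,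
   ⟨[⟨.ofNat 0, 0⟩, ⟨.ofNat 41373543, 33⟩, ⟨.ofNat 291, 34⟩, ⟨.negSucc 76892916, 33⟩, ⟨.ofNat 68947, 36⟩, ⟨.ofNat 14487551, 34⟩, ⟨.ofNat 26379, 32⟩, ⟨.ofNat 951661, 33⟩, ⟨.ofNat 334039, 36⟩], 0⟩,
   ⟨[⟨.ofNat 4700091925, 35⟩, ⟨.ofNat 525, 34⟩, ⟨.negSucc 634772694, 34⟩, ⟨.ofNat 561373, 36⟩, ⟨.negSucc 253422512, 33⟩, ⟨.ofNat 3900529, 35⟩, ⟨.negSucc 73586246, 36⟩, ⟨.ofNat 10789935, 36⟩, ⟨.ofNat 7717365, 36⟩], 0⟩,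
   ⟨[⟨.negSucc 285043920, 36⟩, ⟨.negSucc 182, 36⟩, ⟨.negSucc 24054270, 36⟩, ⟨.negSucc 24514, 35⟩, ⟨.ofNat 299782539, 36⟩, ⟨.negSucc 685332, 36⟩, ⟨.negSucc 25810022, 35⟩, ⟨.negSucc 960084, 36⟩, ⟨.ofNat 53171, 34⟩], 0⟩,
   ⟨[⟨.ofNat 0, 0⟩, ⟨.ofNat 58998833, 34⟩, ⟨.ofNat 819, 35⟩, ⟨.negSucc 22209130, 34⟩, ⟨.ofNat 91077, 36⟩, ⟨.negSucc 10248352, 34⟩, ⟨.ofNat 498025, 36⟩, ⟨.ofNat 2707387, 36⟩, ⟨.ofNat 331619, 36⟩], 0⟩,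
   ⟨[⟨.negSucc 124, 36⟩, ⟨.negSucc 19279301244, 34⟩, ⟨.negSucc 544730, 36⟩, ⟨.ofNat 63797855961, 36⟩, ⟨.negSucc 29409594, 36⟩, ⟨.negSucc 3311096362, 36⟩, ⟨.negSucc 75808938, 35⟩, ⟨.ofNat 327619005, 35⟩, ⟨.negSucc 45157360, 35⟩], 0⟩,
   ⟨[⟨.negSucc 92327177686, 36⟩, ⟨.ofNat 4111, 32⟩, ⟨.negSucc 1228443342, 30⟩, ⟨.ofNat 8856613, 35⟩, ⟨.ofNat 90200666119, 36⟩, ⟨.ofNat 62702149, 34⟩, ⟨.negSucc 3846696262, 35⟩, ⟨.ofNat 180603365, 35⟩, ⟨.ofNat 107475105, 35⟩], 0⟩,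
   ⟨[⟨.negSucc 0, 30⟩, ⟨.ofNat 24528019783, 36⟩, ⟨.negSucc 67206, 34⟩, ⟨.ofNat 5351009081, 36⟩, ⟨.negSucc 6376672, 35⟩, ⟨.negSucc 550873106, 33⟩, ⟨.negSucc 22942688, 35⟩, ⟨.ofNat 770584665, 36⟩, ⟨.negSucc 426958, 35⟩], 0⟩,
   ⟨[⟨.ofNat 10509770897, 35⟩, ⟨.ofNat 18443, 35⟩, ⟨.negSucc 13388548838, 35⟩, ⟨.ofNat 9905595, 36⟩, ⟨.negSucc 10710379590, 36⟩, ⟨.ofNat 139275199, 36⟩, ⟨.ofNat 1178012055, 34⟩, ⟨.ofNat 1543657, 29⟩, ⟨.negSucc 2978820, 32⟩], 0⟩,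
   ⟨[⟨.negSucc 190, 36⟩, ⟨.negSucc 10911500476, 36⟩, ⟨.negSucc 206458, 34⟩, ⟨.negSucc 8926177200, 35⟩, ⟨.negSucc 43458738, 36⟩, ⟨.ofNat 5751312111, 36⟩, ⟨.negSucc 211314076, 36⟩, ⟨.ofNat 530492117, 36⟩, ⟨.negSucc 108873312, 36⟩], 0⟩,
   ⟨[⟨.negSucc 1260370952, 36⟩, ⟨.ofNat 4783, 36⟩, ⟨.negSucc 39232768, 36⟩, ⟨.ofNat 322109, 34⟩, ⟨.negSucc 643726598, 36⟩, ⟨.ofNat 2281657, 33⟩, ⟨.ofNat 314394943, 36⟩, ⟨.ofNat 26307959, 36⟩, ⟨.negSucc 6701120, 34⟩], 0⟩,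
   ⟨[⟨.negSucc 0, 34⟩, ⟨.negSucc 6135666, 34⟩, ⟨.negSucc 7904, 35⟩, ⟨.ofNat 2120381, 36⟩, ⟨.negSucc 106140, 33⟩, ⟨.negSucc 1721712, 35⟩, ⟨.negSucc 4321142, 36⟩, ⟨.ofNat 4887497, 35⟩, ⟨.negSucc 2481048, 36⟩], 0⟩,
   ⟨[⟨.ofNat 0, 0⟩, ⟨.ofNat 7, 35⟩, ⟨.ofNat 91381, 35⟩, ⟨.ofNat 3851, 36⟩, ⟨.negSucc 204508, 36⟩, ⟨.ofNat 54611, 36⟩, ⟨.negSucc 68286, 36⟩, ⟨.ofNat 78855, 36⟩, ⟨.negSucc 6224, 35⟩], 0⟩,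
   ⟨[⟨.negSucc 68, 35⟩, ⟨.ofNat 153213985413, 36⟩, ⟨.negSucc 301374, 35⟩, ⟨.ofNat 6068774295, 35⟩, ⟨.negSucc 4103278, 33⟩, ⟨.negSucc 9989159360, 36⟩, ⟨.negSucc 1347344, 29⟩, ⟨.ofNat 219811067, 34⟩, ⟨.negSucc 26772696, 34⟩], 0⟩,
   ⟨[⟨.ofNat 75, 36⟩, ⟨.negSucc 229497869714, 36⟩, ⟨.ofNat 325891, 36⟩, ⟨.negSucc 10134866394, 33⟩, ⟨.ofNat 4468469, 34⟩, ⟨.ofNat 5374498479, 35⟩, ⟨.ofNat 95323687, 36⟩, ⟨.negSucc 284445876, 35⟩, ⟨.ofNat 61086453, 36⟩], 0⟩,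
   ⟨[⟨.ofNat 19, 36⟩, ⟨.negSucc 24885206186, 35⟩, ⟨.ofNat 41673, 35⟩, ⟨.ofNat 112456887589, 36⟩, ⟨.ofNat 2451425, 35⟩, ⟨.negSucc 1724144922, 35⟩, ⟨.ofNat 29795415, 36⟩, ⟨.ofNat 7030201, 33⟩, ⟨.ofNat 11848093, 35⟩], 0⟩]

def LB0E_5 : List Sym :=
  [⟨[⟨.ofNat 17, 36⟩, ⟨.ofNat 7117561921, 36⟩, ⟨.ofNat 2233, 31⟩, ⟨.negSucc 6171376104, 36⟩, ⟨.ofNat 3579547, 36⟩, ⟨.ofNat 4921001135, 36⟩, ⟨.ofNat 7645447, 35⟩, ⟨.negSucc 8752982, 32⟩, ⟨.ofNat 4829809, 36⟩], 0⟩,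
   ⟨[⟨.negSucc 22, 36⟩, ⟨.negSucc 279450442, 35⟩, ⟨.negSucc 12534, 33⟩, ⟨.ofNat 22169531, 34⟩, ⟨.negSucc 2692582, 35⟩, ⟨.negSucc 265563032, 36⟩, ⟨.negSucc 27434586, 36⟩, ⟨.ofNat 146254861, 36⟩, ⟨.negSucc 7949542, 35⟩], 0⟩,
   ⟨[⟨.ofNat 5, 36⟩, ⟨.ofNat 10683713, 36⟩, ⟨.ofNat 22143, 36⟩, ⟨.negSucc 1072834, 34⟩, ⟨.ofNat 300227, 34⟩, ⟨.negSucc 524592, 36⟩, ⟨.ofNat 6253287, 36⟩, ⟨.negSucc 10497394, 36⟩, ⟨.ofNat 1904863, 35⟩], 0⟩,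
   ⟨[⟨.ofNat 0, 0⟩, ⟨.ofNat 18011, 35⟩, ⟨.negSucc 534, 36⟩, ⟨.negSucc 35726, 36⟩, ⟨.negSucc 25108, 36⟩, ⟨.ofNat 12551, 33⟩, ⟨.negSucc 21432, 34⟩, ⟨.ofNat 11227, 36⟩, ⟨.ofNat 9391, 36⟩], 0⟩,
   ⟨[⟨.ofNat 0, 0⟩], 0⟩,
   ⟨[⟨.ofNat 261902749557, 36⟩, ⟨.ofNat 37295, 36⟩, ⟨.ofNat 144034635651, 36⟩, ⟨.ofNat 10058361, 36⟩, ⟨.ofNat 15699817825, 34⟩, ⟨.ofNat 8934435, 32⟩, ⟨.negSucc 1172664452, 35⟩, ⟨.ofNat 207489615, 36⟩, ⟨.ofNat 26308859, 35⟩], 0⟩,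
   ⟨[⟨.negSucc 55943679882, 36⟩, ⟨.ofNat 2807, 35⟩, ⟨.negSucc 169003223330, 35⟩, ⟨.ofNat 756313, 35⟩, ⟨.ofNat 80211481737, 36⟩, ⟨.ofNat 21445867, 36⟩, ⟨.ofNat 330707153, 36⟩, ⟨.ofNat 15473163, 35⟩, ⟨.negSucc 10013010, 33⟩], 0⟩,
   ⟨[⟨.ofNat 19416670411, 36⟩, ⟨.ofNat 1805, 35⟩, ⟨.ofNat 2011790475, 35⟩, ⟨.ofNat 958061, 36⟩, ⟨.negSucc 413797270, 32⟩, ⟨.ofNat 6531325, 35⟩, ⟨.ofNat 723114687, 35⟩, ⟨.ofNat 2160213, 33⟩, ⟨.negSucc 36868716, 36⟩], 0⟩,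
   ⟨[⟨.negSucc 2479121408, 35⟩, ⟨.ofNat 4931, 36⟩, ⟨.ofNat 6834442943, 36⟩, ⟨.ofNat 662695, 35⟩, ⟨.negSucc 3335658984, 36⟩, ⟨.ofNat 9340373, 35⟩, ⟨.negSucc 287615872, 35⟩, ⟨.ofNat 26643755, 36⟩, ⟨.ofNat 19826007, 36⟩], 0⟩,
   ⟨[⟨.negSucc 281040390, 34⟩, ⟨.negSucc 2020, 36⟩, ⟨.negSucc 133634864, 34⟩, ⟨.negSucc 545380, 36⟩, ⟨.negSucc 916594174, 36⟩, ⟨.negSucc 7758226, 36⟩, ⟨.ofNat 58712567, 33⟩, ⟨.negSucc 705176, 32⟩, ⟨.negSucc 5980232, 35⟩], 0⟩,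
   ⟨[⟨.ofNat 37689739, 36⟩, ⟨.ofNat 369, 35⟩, ⟨.negSucc 12198384, 36⟩, ⟨.ofNat 198281, 36⟩, ⟨.ofNat 3316993, 33⟩, ⟨.ofNat 2792781, 36⟩, ⟨.negSucc 36641102, 36⟩, ⟨.ofNat 1988833, 35⟩, ⟨.ofNat 3251139, 35⟩], 0⟩,
   ⟨[⟨.ofNat 0, 0⟩, ⟨.ofNat 59, 36⟩, ⟨.negSucc 15340, 36⟩, ⟨.ofNat 16047, 36⟩, ⟨.negSucc 17242, 36⟩, ⟨.ofNat 230909, 36⟩, ⟨.negSucc 474918, 36⟩, ⟨.ofNat 171717, 35⟩, ⟨.negSucc 83138, 36⟩], 0⟩,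
   ⟨[⟨.negSucc 148, 36⟩, ⟨.ofNat 87736162955, 35⟩, ⟨.negSucc 650968, 36⟩, ⟨.ofNat 55567664955, 35⟩, ⟨.negSucc 18017118, 35⟩, ⟨.ofNat 20513587, 36⟩, ⟨.negSucc 195668256, 36⟩, ⟨.negSucc 33312342, 36⟩, ⟨.negSucc 129389900, 36⟩], 0⟩,
   ⟨[⟨.negSucc 22, 36⟩, ⟨.negSucc 5149372330, 36⟩, ⟨.negSucc 12194, 33⟩, ⟨.negSucc 4706783898, 35⟩, ⟨.negSucc 5101908, 36⟩, ⟨.ofNat 3713329219, 36⟩, ⟨.negSucc 12098926, 35⟩, ⟨.negSucc 808940730, 36⟩, ⟨.negSucc 1369936, 33⟩], 0⟩,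
   ⟨[⟨.negSucc 0, 29⟩, ⟨.ofNat 3629042955, 34⟩, ⟨.negSucc 556750, 36⟩, ⟨.ofNat 3550769191, 34⟩, ⟨.negSucc 29803690, 36⟩, ⟨.negSucc 96567396, 32⟩, ⟨.negSucc 37681962, 34⟩, ⟨.ofNat 145396573, 35⟩, ⟨.negSucc 85766870, 36⟩], 0⟩,
   ⟨[⟨.ofNat 3, 34⟩, ⟨.negSucc 177802558, 32⟩, ⟨.ofNat 51515, 36⟩, ⟨.negSucc 674148614, 36⟩, ⟨.ofNat 2915233, 36⟩, ⟨.negSucc 580342968, 34⟩, ⟨.ofNat 16549657, 36⟩, ⟨.negSucc 3502508, 35⟩, ⟨.ofNat 5954227, 35⟩], 0⟩]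

def LB0E_6 : List Sym :=
  [⟨[⟨.negSucc 4, 36⟩, ⟨.ofNat 616599929, 36⟩, ⟨.negSucc 21756, 36⟩, ⟨.negSucc 513190704, 34⟩, ⟨.negSucc 564934, 35⟩, ⟨.ofNat 1527893141, 36⟩, ⟨.negSucc 5316330, 36⟩, ⟨.negSucc 19103716, 36⟩, ⟨.negSucc 2479854, 36⟩], 0⟩,
   ⟨[⟨.negSucc 0, 36⟩, ⟨.negSucc 8778862, 35⟩, ⟨.negSucc 4142, 36⟩, ⟨.ofNat 71642481, 36⟩, ⟨.negSucc 26464, 33⟩, ⟨.negSucc 79433862, 36⟩, ⟨.negSucc 239854, 34⟩, ⟨.ofNat 13189737, 35⟩, ⟨.negSucc 50330, 33⟩], 0⟩,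
   ⟨[⟨.negSucc 218216476, 34⟩, ⟨.negSucc 5332, 33⟩, ⟨.negSucc 5939840546, 35⟩, ⟨.negSucc 2859858, 34⟩, ⟨.ofNat 18673379547, 36⟩, ⟨.negSucc 160213136, 36⟩, ⟨.ofNat 407607753, 36⟩, ⟨.negSucc 112696770, 35⟩, ⟨.negSucc 40226418, 34⟩], 0⟩,
   ⟨[⟨.ofNat 2284651891, 33⟩, ⟨.ofNat 1441, 36⟩, ⟨.ofNat 9083664011, 36⟩, ⟨.ofNat 417987, 36⟩, ⟨.negSucc 16214419774, 36⟩, ⟨.ofNat 218107, 31⟩, ⟨.negSucc 139880090, 33⟩, ⟨.ofNat 3312117, 34⟩, ⟨.negSucc 3131864, 36⟩], 0⟩,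
   ⟨[⟨.negSucc 2402766238, 35⟩, ⟨.negSucc 308, 36⟩, ⟨.ofNat 3615197055, 36⟩, ⟨.negSucc 77626, 36⟩, ⟨.ofNat 8940528715, 36⟩, ⟨.negSucc 902972, 36⟩, ⟨.ofNat 166993653, 35⟩, ⟨.negSucc 178538, 34⟩, ⟨.negSucc 6427566, 34⟩], 0⟩,
   ⟨[⟨.negSucc 9030218310, 36⟩, ⟨.ofNat 1323, 36⟩, ⟨.negSucc 1490927008, 36⟩, ⟨.ofNat 355877, 36⟩, ⟨.negSucc 475729952, 33⟩, ⟨.ofNat 314113, 32⟩, ⟨.ofNat 35821757, 36⟩, ⟨.ofNat 1799833, 34⟩, ⟨.ofNat 13966025, 36⟩], 0⟩,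
   ⟨[⟨.ofNat 69717491, 34⟩, ⟨.ofNat 123, 36⟩, ⟨.negSucc 51818250, 35⟩, ⟨.ofNat 33379, 36⟩, ⟨.ofNat 36625099, 36⟩, ⟨.ofNat 59921, 33⟩, ⟨.negSucc 10266556, 35⟩, ⟨.ofNat 355067, 35⟩, ⟨.negSucc 2868188, 36⟩], 0⟩,
   ⟨[⟨.ofNat 109, 36⟩, ⟨.ofNat 7179950809, 35⟩, ⟨.ofNat 467003, 36⟩, ⟨.ofNat 8299878871, 36⟩, ⟨.ofNat 11925243, 35⟩, ⟨.ofNat 7616051425, 36⟩, ⟨.ofNat 6726745, 32⟩, ⟨.negSucc 427705336, 35⟩, ⟨.ofNat 43796255, 36⟩], 0⟩,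
   ⟨[⟨.negSucc 22, 36⟩, ⟨.ofNat 3268416111, 35⟩, ⟨.negSucc 3172, 31⟩, ⟨.negSucc 375495912, 31⟩, ⟨.negSucc 5747482, 36⟩, ⟨.negSucc 5267674082, 36⟩, ⟨.negSucc 16297238, 35⟩, ⟨.ofNat 113761225, 35⟩, ⟨.negSucc 11638034, 35⟩], 0⟩,
   ⟨[⟨.negSucc 0, 34⟩, ⟨.negSucc 5213171794, 35⟩, ⟨.negSucc 19280, 36⟩, ⟨.ofNat 4683666661, 35⟩, ⟨.negSucc 1030888, 36⟩, ⟨.ofNat 1545855745, 36⟩, ⟨.negSucc 5197464, 36⟩, ⟨.negSucc 36676948, 35⟩, ⟨.negSucc 732564, 34⟩], 0⟩,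
   ⟨[⟨.negSucc 0, 36⟩, ⟨.ofNat 77086885, 36⟩, ⟨.negSucc 360, 33⟩, ⟨.negSucc 227498158, 35⟩, ⟨.negSucc 70930, 35⟩, ⟨.ofNat 20407053, 36⟩, ⟨.negSucc 144042, 34⟩, ⟨.ofNat 30301621, 36⟩, ⟨.negSucc 73148, 35⟩], 0⟩,
   ⟨[⟨.negSucc 4511100232, 35⟩, ⟨.negSucc 12126, 36⟩, ⟨.ofNat 1179854183, 36⟩, ⟨.negSucc 3259874, 36⟩, ⟨.ofNat 56016041, 28⟩, ⟨.negSucc 45949150, 36⟩, ⟨.negSucc 512984618, 36⟩, ⟨.negSucc 32769498, 35⟩, ⟨.negSucc 14691496, 36⟩], 0⟩,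
   ⟨[⟨.ofNat 227284717, 35⟩, ⟨.negSucc 888, 36⟩, ⟨.negSucc 2024336352, 35⟩, ⟨.negSucc 238744, 36⟩, ⟨.negSucc 3093378324, 35⟩, ⟨.negSucc 3357530, 36⟩, ⟨.ofNat 75487259, 35⟩, ⟨.negSucc 4765056, 36⟩, ⟨.ofNat 1399515, 35⟩], 0⟩,
   ⟨[⟨.negSucc 6440636, 36⟩, ⟨.ofNat 1, 33⟩, ⟨.negSucc 63646754, 35⟩, ⟨.ofNat 2381, 36⟩, ⟨.ofNat 10528691, 31⟩, ⟨.ofNat 40799, 36⟩, ⟨.negSucc 18336136, 34⟩, ⟨.ofNat 79719, 36⟩, ⟨.negSucc 2572704, 36⟩], 0⟩,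
   ⟨[⟨.ofNat 15, 36⟩, ⟨.negSucc 5658668952, 35⟩, ⟨.ofNat 63671, 36⟩, ⟨.ofNat 707742335, 32⟩, ⟨.ofNat 843289, 34⟩, ⟨.ofNat 193550415, 36⟩, ⟨.ofNat 16665695, 36⟩, ⟨.negSucc 100382786, 36⟩, ⟨.ofNat 2241877, 34⟩], 0⟩,
   ⟨[⟨.ofNat 1, 36⟩, ⟨.ofNat 331081963, 36⟩, ⟨.ofNat 2231, 36⟩, ⟨.negSucc 308035858, 35⟩, ⟨.ofNat 30523, 34⟩, ⟨.ofNat 14734863, 34⟩, ⟨.ofNat 646709, 36⟩, ⟨.ofNat 3564267, 35⟩, ⟨.ofNat 101253, 34⟩], 0⟩]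

def LB0E_7 : List Sym :=
  [⟨[⟨.negSucc 285310600, 36⟩, ⟨.negSucc 6, 33⟩, ⟨.negSucc 23672348, 36⟩, ⟨.negSucc 14950, 36⟩, ⟨.ofNat 150137885, 35⟩, ⟨.negSucc 51914, 34⟩, ⟨.negSucc 53286352, 36⟩, ⟨.negSucc 286980, 36⟩, ⟨.ofNat 26543, 33⟩], 0⟩,
   ⟨[⟨.negSucc 123875819192, 36⟩, ⟨.negSucc 8030, 34⟩, ⟨.ofNat 34492357479, 36⟩, ⟨.negSucc 2161560, 34⟩, ⟨.negSucc 81658175428, 36⟩, ⟨.negSucc 122266050, 36⟩, ⟨.ofNat 1569768671, 34⟩, ⟨.negSucc 43900396, 34⟩, ⟨.negSucc 82289140, 35⟩], 0⟩,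
   ⟨[⟨.negSucc 16, 36⟩, ⟨.negSucc 121558477026, 36⟩, ⟨.negSucc 9820, 33⟩, ⟨.negSucc 62825336052, 36⟩, ⟨.negSucc 2529070, 35⟩, ⟨.ofNat 5884468295, 35⟩, ⟨.negSucc 17635534, 35⟩, ⟨.negSucc 400263548, 36⟩, ⟨.negSucc 4153090, 33⟩], 0⟩,
   ⟨[⟨.negSucc 31285654472, 35⟩, ⟨.negSucc 13672, 35⟩, ⟨.ofNat 22325662307, 35⟩, ⟨.negSucc 3673824, 35⟩, ⟨.ofNat 2959091659, 36⟩, ⟨.negSucc 25862460, 34⟩, ⟨.negSucc 203203458, 32⟩, ⟨.negSucc 147200412, 36⟩, ⟨.ofNat 2888529, 36⟩], 0⟩,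
   ⟨[⟨.ofNat 201, 36⟩, ⟨.ofNat 4603587339, 35⟩, ⟨.ofNat 216901, 34⟩, ⟨.negSucc 17227602994, 36⟩, ⟨.ofNat 11491141, 34⟩, ⟨.negSucc 10729738116, 36⟩, ⟨.ofNat 227065905, 36⟩, ⟨.negSucc 587084476, 36⟩, ⟨.ofNat 30510447, 34⟩], 0⟩,
   ⟨[⟨.ofNat 17079202733, 35⟩, ⟨.negSucc 1750, 35⟩, ⟨.negSucc 20944913730, 36⟩, ⟨.negSucc 236690, 34⟩, ⟨.negSucc 6239731784, 35⟩, ⟨.negSucc 3383872, 34⟩, ⟨.negSucc 1366285630, 36⟩, ⟨.negSucc 19878370, 36⟩, ⟨.ofNat 71362773, 36⟩], 0⟩,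
   ⟨[⟨.ofNat 11, 35⟩, ⟨.ofNat 1821218589, 33⟩, ⟨.ofNat 96329, 36⟩, ⟨.negSucc 9197400046, 36⟩, ⟨.ofNat 1297089, 34⟩, ⟨.negSucc 2563182400, 36⟩, ⟨.ofNat 13297805, 35⟩, ⟨.ofNat 4648273, 35⟩, ⟨.ofNat 15604781, 36⟩], 0⟩,
   ⟨[⟨.ofNat 585660459, 32⟩, ⟨.ofNat 265, 36⟩, ⟨.negSucc 310012932, 33⟩, ⟨.ofNat 35407, 35⟩, ⟨.negSucc 2071776954, 36⟩, ⟨.ofNat 123495, 33⟩, ⟨.negSucc 23086576, 35⟩, ⟨.ofNat 689363, 35⟩, ⟨.ofNat 5484249, 36⟩], 0⟩,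
   ⟨[⟨.ofNat 0, 0⟩, ⟨.ofNat 29554669, 33⟩, ⟨.ofNat 977, 36⟩, ⟨.negSucc 89432918, 36⟩, ⟨.ofNat 52235, 36⟩, ⟨.negSucc 40901464, 36⟩, ⟨.ofNat 263461, 36⟩, ⟨.ofNat 3206387, 36⟩, ⟨.ofNat 74331, 35⟩], 0⟩]

def LB0E_L : List (List Sym) := [LB0E_0, LB0E_1, LB0E_2, LB0E_3, LB0E_4, LB0E_5, LB0E_6, LB0E_7]

noncomputable def LB0E (i : Nat) : Sym := sym16 LB0E_L i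

end Pool.H61.Rh
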