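import Pool.Agent.H47.K3.Defs

/-! # generated: level-3 table LB0R (polynomials in θ, exact) -/

set_option autoImplicit false

namespace Pool.H61.Rh

open Pool.H47.Kc Pool.H47.K3

def LB0R_0 : List Sym :=
  [⟨[⟨.ofNat 2288123883, 32⟩, ⟨.negSucc 308, 32⟩, ⟨.negSucc 17491262, 30⟩, ⟨.negSucc 13970, 31⟩, ⟨.ofNat 8955547, 31⟩, ⟨.negSucc 11914, 29⟩, ⟨.negSucc 57550, 28⟩], 0⟩,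
   ⟨[⟨.negSucc 1239323320, 31⟩, ⟨.negSucc 3862, 28⟩, ⟨.negSucc 533574682, 32⟩, ⟨.negSucc 2845590, 31⟩, ⟨.ofNat 47589987, 31⟩, ⟨.negSucc 318668, 26⟩, ⟨.negSucc 26494300, 32⟩], 0⟩,
   ⟨[⟨.negSucc 257223846, 32⟩, ⟨.ofNat 12753, 31⟩, ⟨.ofNat 32471193, 32⟩, ⟨.ofNat 581929, 30⟩, ⟨.negSucc 34438592, 30⟩, ⟨.ofNat 8137521, 32⟩, ⟨.ofNat 39095763, 32⟩], 0⟩,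
   ⟨[⟨.negSucc 64828050, 27⟩, ⟨.ofNat 8541, 32⟩, ⟨.ofNat 1270938345, 32⟩, ⟨.ofNat 198595, 30⟩, ⟨.ofNat 20671177, 29⟩, ⟨.ofNat 2925655, 32⟩, ⟨.ofNat 7248799, 31⟩], 0⟩,
   ⟨[⟨.negSucc 221419492, 32⟩, ⟨.ofNat 7191, 30⟩, ⟨.negSucc 1303486, 25⟩, ⟨.ofNat 2643937, 32⟩, ⟨.negSucc 334243454, 32⟩, ⟨.ofNat 9430063, 32⟩, ⟨.ofNat 6672767, 31⟩], 0⟩,
   ⟨[⟨.ofNat 26353837, 30⟩, ⟨.negSucc 11274, 31⟩, ⟨.ofNat 1086871, 31⟩, ⟨.negSucc 2080554, 32⟩, ⟨.ofNat 79916869, 32⟩, ⟨.negSucc 937162, 29⟩, ⟨.negSucc 22412056, 32⟩], 0⟩,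
   ⟨[⟨.negSucc 1453198, 31⟩, ⟨.ofNat 14077, 32⟩, ⟨.ofNat 624057, 31⟩, ⟨.ofNat 1294993, 32⟩, ⟨.negSucc 2702156, 31⟩, ⟨.ofNat 4629143, 32⟩, ⟨.negSucc 835202, 32⟩], 0⟩,
   ⟨[⟨.ofNat 0, 0⟩], 0⟩,
   ⟨[⟨.ofNat 263, 32⟩, ⟨.negSucc 20045964, 26⟩, ⟨.ofNat 415187, 32⟩, ⟨.ofNat 188780723, 32⟩, ⟨.ofNat 454945, 28⟩, ⟨.negSucc 8714630, 32⟩, ⟨.ofNat 8255525, 32⟩], 0⟩,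
   ⟨[⟨.negSucc 550, 32⟩, ⟨.ofNat 420551995, 29⟩, ⟨.negSucc 436144, 31⟩, ⟨.ofNat 258612899, 32⟩, ⟨.negSucc 15632480, 32⟩, ⟨.ofNat 31661497, 32⟩, ⟨.negSucc 1173930, 28⟩], 0⟩,
   ⟨[⟨.ofNat 367, 32⟩, ⟨.negSucc 1770810022, 32⟩, ⟨.ofNat 596957, 32⟩, ⟨.negSucc 814375814, 31⟩, ⟨.ofNat 11865281, 32⟩, ⟨.negSucc 3823944, 31⟩, ⟨.ofNat 17704925, 32⟩], 0⟩,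
   ⟨[⟨.negSucc 756, 32⟩, ⟨.negSucc 95344882, 31⟩, ⟨.negSucc 149624, 29⟩, ⟨.ofNat 907058727, 32⟩, ⟨.negSucc 10611450, 31⟩, ⟨.ofNat 5441833, 31⟩, ⟨.negSucc 6207264, 30⟩], 0⟩,
   ⟨[⟨.negSucc 130, 30⟩, ⟨.negSucc 8535040, 31⟩, ⟨.negSucc 407768, 31⟩, ⟨.negSucc 27538638, 32⟩, ⟨.negSucc 6783716, 31⟩, ⟨.ofNat 76236625, 31⟩, ⟨.negSucc 13174290, 32⟩], 0⟩,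
   ⟨[⟨.ofNat 151, 32⟩, ⟨.negSucc 33694310, 32⟩, ⟨.ofNat 237751, 32⟩, ⟨.ofNat 125348687, 32⟩, ⟨.ofNat 1035599, 30⟩, ⟨.negSucc 101526262, 32⟩, ⟨.ofNat 578497, 29⟩], 0⟩,
   ⟨[⟨.negSucc 190, 32⟩, ⟨.ofNat 1130063, 32⟩, ⟨.negSucc 298974, 32⟩, ⟨.negSucc 2694336, 32⟩, ⟨.negSucc 5140476, 32⟩, ⟨.ofNat 1571171, 29⟩, ⟨.negSucc 690904, 29⟩], 0⟩,
   ⟨[⟨.ofNat 4436907, 30⟩, ⟨.ofNat 10099, 31⟩, ⟨.negSucc 697440056, 32⟩, ⟨.ofNat 1845089, 32⟩, ⟨.negSucc 18792018, 32⟩, ⟨.ofNat 6468375, 32⟩, ⟨.ofNat 1160365, 28⟩], 0⟩]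

def LB0R_1 : List Sym :=
  [⟨[⟨.negSucc 1770352832, 32⟩, ⟨.negSucc 32900, 30⟩, ⟨.ofNat 1310782979, 31⟩, ⟨.negSucc 12105082, 32⟩, ⟨.ofNat 575747873, 32⟩, ⟨.negSucc 43254600, 32⟩, ⟨.negSucc 40624762, 31⟩], 0⟩,
   ⟨[⟨.ofNat 1246488009, 32⟩, ⟨.ofNat 72791, 31⟩, ⟨.negSucc 1108957508, 31⟩, ⟨.ofNat 3350905, 30⟩, ⟨.negSucc 360331610, 32⟩, ⟨.ofNat 48018951, 32⟩, ⟨.ofNat 11874369, 30⟩], 0⟩,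
   ⟨[⟨.ofNat 160502471, 32⟩, ⟨.negSucc 62038, 32⟩, ⟨.negSucc 152980786, 32⟩, ⟨.negSucc 2850436, 31⟩, ⟨.negSucc 161501638, 31⟩, ⟨.negSucc 2539644, 29⟩, ⟨.negSucc 22374852, 31⟩], 0⟩,
   ⟨[⟨.ofNat 566754099, 32⟩, ⟨.ofNat 5903, 29⟩, ⟨.ofNat 87992863, 32⟩, ⟨.ofNat 543305, 29⟩, ⟨.ofNat 220526113, 32⟩, ⟨.ofNat 7778507, 31⟩, ⟨.negSucc 4525856, 31⟩], 0⟩,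
   ⟨[⟨.negSucc 8718726, 31⟩, ⟨.negSucc 6884, 32⟩, ⟨.ofNat 1646157, 30⟩, ⟨.negSucc 630630, 32⟩, ⟨.negSucc 155398, 30⟩, ⟨.negSucc 556932, 30⟩, ⟨.ofNat 616795, 30⟩], 0⟩,
   ⟨[⟨.ofNat 29, 28⟩, ⟨.ofNat 141662403, 31⟩, ⟨.ofNat 738775, 32⟩, ⟨.negSucc 25217784, 27⟩, ⟨.ofNat 13475939, 32⟩, ⟨.ofNat 13863239, 30⟩, ⟨.ofNat 16881613, 32⟩], 0⟩,
   ⟨[⟨.ofNat 497, 31⟩, ⟨.negSucc 417977964, 32⟩, ⟨.ofNat 776373, 31⟩, ⟨.ofNat 674480065, 31⟩, ⟨.ofNat 1633361, 28⟩, ⟨.negSucc 488263144, 32⟩, ⟨.ofNat 823783, 27⟩], 0⟩,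
   ⟨[⟨.negSucc 276, 30⟩, ⟨.negSucc 329518826, 32⟩, ⟨.negSucc 1739446, 32⟩, ⟨.ofNat 135274927, 30⟩, ⟨.negSucc 29997156, 32⟩, ⟨.ofNat 312521605, 32⟩, ⟨.negSucc 16270668, 31⟩], 0⟩,
   ⟨[⟨.ofNat 233, 31⟩, ⟨.ofNat 324518887, 31⟩, ⟨.ofNat 182041, 30⟩, ⟨.negSucc 292972262, 31⟩, ⟨.ofNat 12330705, 32⟩, ⟨.negSucc 55427298, 31⟩, ⟨.ofNat 12688063, 32⟩], 0⟩,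
   ⟨[⟨.negSucc 226, 32⟩, ⟨.negSucc 4798200, 32⟩, ⟨.negSucc 356706, 32⟩, ⟨.ofNat 30585643, 32⟩, ⟨.negSucc 3061732, 31⟩, ⟨.ofNat 7773823, 32⟩, ⟨.negSucc 3277532, 31⟩], 0⟩,
   ⟨[⟨.ofNat 724275027, 32⟩, ⟨.ofNat 39779, 32⟩, ⟨.negSucc 162952258, 31⟩, ⟨.ofNat 56973, 26⟩, ⟨.ofNat 32413335, 32⟩, ⟨.ofNat 6452837, 31⟩, ⟨.ofNat 17295077, 31⟩], 0⟩,
   ⟨[⟨.ofNat 389981435, 32⟩, ⟨.negSucc 63228, 32⟩, ⟨.ofNat 21758043, 32⟩, ⟨.negSucc 5821182, 32⟩, ⟨.negSucc 168430750, 30⟩, ⟨.negSucc 20852336, 32⟩, ⟨.ofNat 14868805, 32⟩], 0⟩,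
   ⟨[⟨.negSucc 12886230, 31⟩, ⟨.ofNat 11315, 32⟩, ⟨.ofNat 252489919, 32⟩, ⟨.ofNat 1037895, 32⟩, ⟨.ofNat 188063959, 31⟩, ⟨.ofNat 920231, 30⟩, ⟨.negSucc 4565736, 31⟩], 0⟩,
   ⟨[⟨.ofNat 100699, 30⟩, ⟨.negSucc 1654, 30⟩, ⟨.ofNat 4040049, 31⟩, ⟨.negSucc 606870, 32⟩, ⟨.negSucc 19466414, 32⟩, ⟨.negSucc 268566, 29⟩, ⟨.ofNat 1442997, 30⟩], 0⟩,
   ⟨[⟨.negSucc 34, 30⟩, ⟨.negSucc 641613152, 32⟩, ⟨.negSucc 216190, 32⟩, ⟨.ofNat 218585591, 31⟩, ⟨.negSucc 851600, 30⟩, ⟨.ofNat 29035769, 30⟩, ⟨.negSucc 2711128, 32⟩], 0⟩,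
   ⟨[⟨.ofNat 415, 32⟩, ⟨.ofNat 349937313, 31⟩, ⟨.ofNat 163261, 30⟩, ⟨.negSucc 706331584, 32⟩, ⟨.ofNat 5692999, 31⟩, ⟨.negSucc 6551190, 30⟩, ⟨.ofNat 12728197, 32⟩], 0⟩]

def LB0R_2 : List Sym :=
  [⟨[⟨.negSucc 64, 32⟩, ⟨.negSucc 10354864, 31⟩, ⟨.negSucc 102152, 32⟩, ⟨.ofNat 1222833, 27⟩, ⟨.negSucc 868858, 31⟩, ⟨.negSucc 287146, 30⟩, ⟨.negSucc 905994, 31⟩], 0⟩,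
   ⟨[⟨.negSucc 585934474, 32⟩, ⟨.ofNat 2829, 30⟩, ⟨.ofNat 79809465, 31⟩, ⟨.ofNat 1038461, 32⟩, ⟨.ofNat 124096769, 32⟩, ⟨.ofNat 3686901, 32⟩, ⟨.ofNat 141393, 32⟩], 0⟩,
   ⟨[⟨.ofNat 17840249, 32⟩, ⟨.ofNat 265, 32⟩, ⟨.ofNat 1495471, 32⟩, ⟨.ofNat 1485, 28⟩, ⟨.negSucc 9422408, 31⟩, ⟨.ofNat 79195, 32⟩, ⟨.ofNat 413101, 29⟩], 0⟩,
   ⟨[⟨.negSucc 6, 30⟩, ⟨.negSucc 14781466, 32⟩, ⟨.negSucc 22210, 31⟩, ⟨.ofNat 1462669, 30⟩, ⟨.negSucc 754728, 32⟩, ⟨.ofNat 3646957, 32⟩, ⟨.negSucc 196040, 30⟩], 0⟩,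
   ⟨[⟨.negSucc 2410560312, 32⟩, ⟨.ofNat 116793, 32⟩, ⟨.ofNat 322673805, 30⟩, ⟨.ofNat 5395569, 31⟩, ⟨.negSucc 91928410, 30⟩, ⟨.ofNat 39035021, 32⟩, ⟨.ofNat 15178779, 31⟩], 0⟩,
   ⟨[⟨.ofNat 1485431817, 32⟩, ⟨.negSucc 18226, 30⟩, ⟨.negSucc 95618712, 28⟩, ⟨.negSucc 6731056, 32⟩, ⟨.ofNat 403485757, 32⟩, ⟨.negSucc 12148496, 31⟩, ⟨.negSucc 33260120, 32⟩], 0⟩,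
   ⟨[⟨.ofNat 2705805031, 32⟩, ⟨.negSucc 110812, 32⟩, ⟨.negSucc 1151487094, 32⟩, ⟨.negSucc 10204426, 32⟩, ⟨.ofNat 151716097, 32⟩, ⟨.negSucc 36577574, 32⟩, ⟨.negSucc 5713984, 29⟩], 0⟩,
   ⟨[⟨.negSucc 78240448, 29⟩, ⟨.ofNat 46837, 32⟩, ⟨.ofNat 332812179, 30⟩, ⟨.ofNat 2163237, 31⟩, ⟨.negSucc 133752000, 32⟩, ⟨.ofNat 3909959, 30⟩, ⟨.ofNat 17953771, 31⟩], 0⟩,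
   ⟨[⟨.ofNat 122057939, 32⟩, ⟨.negSucc 17954, 32⟩, ⟨.negSucc 169326456, 30⟩, ⟨.negSucc 824062, 31⟩, ⟨.ofNat 27774167, 31⟩, ⟨.negSucc 5855562, 32⟩, ⟨.ofNat 17935673, 32⟩], 0⟩,
   ⟨[⟨.negSucc 3253008, 32⟩, ⟨.negSucc 5972, 31⟩, ⟨.ofNat 5312745, 30⟩, ⟨.negSucc 1099250, 32⟩, ⟨.negSucc 4330678, 31⟩, ⟨.negSucc 1965898, 31⟩, ⟨.ofNat 541069, 30⟩], 0⟩,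
   ⟨[⟨.ofNat 0, 0⟩], 0⟩,
   ⟨[⟨.ofNat 729, 32⟩, ⟨.ofNat 466761597, 32⟩, ⟨.ofNat 584269, 31⟩, ⟨.ofNat 46713771, 30⟩, ⟨.ofNat 2743035, 29⟩, ⟨.negSucc 294983542, 32⟩, ⟨.ofNat 29445697, 32⟩], 0⟩,
   ⟨[⟨.ofNat 2723, 32⟩, ⟨.ofNat 924675621, 32⟩, ⟨.ofNat 4309539, 32⟩, ⟨.ofNat 1603114717, 32⟩, ⟨.ofNat 76813619, 32⟩, ⟨.negSucc 256215768, 32⟩, ⟨.ofNat 90998825, 32⟩], 0⟩,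
   ⟨[⟨.negSucc 306, 32⟩, ⟨.negSucc 204733612, 32⟩, ⟨.negSucc 517794, 32⟩, ⟨.negSucc 1297884572, 32⟩, ⟨.negSucc 5818598, 31⟩, ⟨.ofNat 67788231, 30⟩, ⟨.negSucc 10521708, 31⟩], 0⟩,
   ⟨[⟨.ofNat 711, 32⟩, ⟨.ofNat 44368435, 29⟩, ⟨.ofNat 1123451, 32⟩, ⟨.negSucc 497902308, 32⟩, ⟨.ofNat 155037, 25⟩, ⟨.negSucc 34700412, 32⟩, ⟨.ofNat 11480043, 31⟩], 0⟩,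
   ⟨[⟨.ofNat 7, 28⟩, ⟨.negSucc 194942768, 30⟩, ⟨.ofNat 176709, 32⟩, ⟨.negSucc 30723312, 30⟩, ⟨.ofNat 388477, 29⟩, ⟨.ofNat 16651297, 30⟩, ⟨.ofNat 1775195, 31⟩], 0⟩]

def LB0R_3 : List Sym :=
  [⟨[⟨.ofNat 41, 30⟩, ⟨.ofNat 23474941, 32⟩, ⟨.ofNat 256633, 32⟩, ⟨.negSucc 10814248, 32⟩, ⟨.ofNat 4412183, 32⟩, ⟨.negSucc 11043738, 32⟩, ⟨.ofNat 4743301, 32⟩], 0⟩,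
   ⟨[⟨.ofNat 810249655, 30⟩, ⟨.ofNat 144259, 30⟩, ⟨.negSucc 44786128, 26⟩, ⟨.ofNat 53270083, 32⟩, ⟨.negSucc 91376634, 30⟩, ⟨.ofNat 192246537, 32⟩, ⟨.ofNat 118343405, 32⟩], 0⟩,
   ⟨[⟨.negSucc 2381647940, 32⟩, ⟨.ofNat 15257, 30⟩, ⟨.ofNat 1898285419, 31⟩, ⟨.ofNat 340019, 28⟩, ⟨.negSucc 323512796, 31⟩, ⟨.ofNat 2217247, 29⟩, ⟨.ofNat 102753121, 32⟩], 0⟩,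
   ⟨[⟨.negSucc 1150082028, 32⟩, ⟨.negSucc 126218, 32⟩, ⟨.ofNat 102723131, 29⟩, ⟨.negSucc 11646330, 32⟩, ⟨.ofNat 186672783, 32⟩, ⟨.negSucc 41973574, 32⟩, ⟨.negSucc 91060868, 32⟩], 0⟩,
   ⟨[⟨.ofNat 232254129, 31⟩, ⟨.ofNat 76081, 32⟩, ⟨.negSucc 955345680, 31⟩, ⟨.ofNat 109301, 26⟩, ⟨.ofNat 93944197, 31⟩, ⟨.ofNat 12484045, 31⟩, ⟨.negSucc 6062098, 32⟩], 0⟩,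
   ⟨[⟨.negSucc 813286, 28⟩, ⟨.ofNat 823, 29⟩, ⟨.ofNat 44611973, 32⟩, ⟨.ofNat 301047, 31⟩, ⟨.negSucc 41689376, 32⟩, ⟨.ofNat 264689, 29⟩, ⟨.ofNat 4822043, 32⟩], 0⟩,
   ⟨[⟨.negSucc 10038, 32⟩, ⟨.negSucc 1753878638, 32⟩, ⟨.negSucc 989144, 28⟩, ⟨.negSucc 100724280, 29⟩, ⟨.negSucc 34710808, 29⟩, ⟨.ofNat 1141155273, 32⟩, ⟨.negSucc 315694286, 32⟩], 0⟩,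
   ⟨[⟨.negSucc 196, 30⟩, ⟨.ofNat 39054545, 30⟩, ⟨.negSucc 1154820, 32⟩, ⟨.negSucc 1549611388, 32⟩, ⟨.negSucc 13698038, 32⟩, ⟨.ofNat 117677311, 31⟩, ⟨.ofNat 4399935, 32⟩], 0⟩,
   ⟨[⟨.ofNat 127, 31⟩, ⟨.negSucc 76643056, 31⟩, ⟨.ofNat 394437, 32⟩, ⟨.ofNat 518511035, 31⟩, ⟨.ofNat 810001, 29⟩, ⟨.negSucc 169057146, 31⟩, ⟨.ofNat 6065845, 32⟩], 0⟩,
   ⟨[⟨.negSucc 40, 28⟩, ⟨.ofNat 14430981, 32⟩, ⟨.negSucc 1029382, 32⟩, ⟨.negSucc 73007298, 32⟩, ⟨.negSucc 2209130, 29⟩, ⟨.ofNat 15037987, 30⟩, ⟨.negSucc 2365590, 29⟩], 0⟩,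
   ⟨[⟨.negSucc 1211363056, 32⟩, ⟨.negSucc 13654, 30⟩, ⟨.ofNat 828501305, 31⟩, ⟨.negSucc 1211710, 30⟩, ⟨.ofNat 688908455, 32⟩, ⟨.negSucc 15587398, 32⟩, ⟨.negSucc 4767118, 26⟩], 0⟩,
   ⟨[⟨.ofNat 232127875, 31⟩, ⟨.ofNat 131529, 31⟩, ⟨.negSucc 1940684544, 32⟩, ⟨.ofNat 24206077, 32⟩, ⟨.ofNat 54290459, 31⟩, ⟨.ofNat 86587273, 32⟩, ⟨.negSucc 7376088, 31⟩], 0⟩,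
   ⟨[⟨.negSucc 6506144, 31⟩, ⟨.negSucc 22902, 32⟩, ⟨.ofNat 30787015, 31⟩, ⟨.negSucc 1048316, 31⟩, ⟨.negSucc 4111116, 31⟩, ⟨.negSucc 7393780, 32⟩, ⟨.negSucc 188048, 29⟩], 0⟩,
   ⟨[⟨.negSucc 148, 30⟩, ⟨.ofNat 623333685, 32⟩, ⟨.negSucc 969118, 32⟩, ⟨.ofNat 569867923, 31⟩, ⟨.negSucc 1197948, 28⟩, ⟨.negSucc 326531944, 32⟩, ⟨.negSucc 28254660, 32⟩], 0⟩,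
   ⟨[⟨.negSucc 204, 30⟩, ⟨.negSucc 1130494, 29⟩, ⟨.negSucc 10046, 25⟩, ⟨.negSucc 62193048, 32⟩, ⟨.negSucc 22085230, 32⟩, ⟨.ofNat 71195687, 32⟩, ⟨.negSucc 23668028, 32⟩], 0⟩,
   ⟨[⟨.ofNat 151, 31⟩, ⟨.negSucc 29486, 32⟩, ⟨.ofNat 16962057, 32⟩, ⟨.negSucc 337340, 29⟩, ⟨.ofNat 16733571, 31⟩, ⟨.negSucc 9511292, 32⟩, ⟨.negSucc 6326434, 32⟩], 0⟩]

def LB0R_4 : List Sym :=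
  [⟨[⟨.negSucc 50, 27⟩, ⟨.ofNat 684230305, 30⟩, ⟨.negSucc 1296706, 31⟩, ⟨.negSucc 507414934, 32⟩, ⟨.negSucc 23548138, 31⟩, ⟨.ofNat 316134697, 32⟩, ⟨.negSucc 58468614, 32⟩], 0⟩,
   ⟨[⟨.negSucc 890, 31⟩, ⟨.negSucc 1824968176, 31⟩, ⟨.negSucc 1411784, 31⟩, ⟨.negSucc 323943810, 31⟩, ⟨.negSucc 25299160, 31⟩, ⟨.ofNat 194468351, 31⟩, ⟨.negSucc 949684, 26⟩], 0⟩,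
   ⟨[⟨.ofNat 1791, 32⟩, ⟨.negSucc 1163553426, 32⟩, ⟨.ofNat 2831505, 32⟩, ⟨.ofNat 1071101037, 32⟩, ⟨.ofNat 50232909, 32⟩, ⟨.negSucc 160927280, 30⟩, ⟨.ofNat 58873697, 32⟩], 0⟩,
   ⟨[⟨.ofNat 21, 28⟩, ⟨.ofNat 1906508075, 32⟩, ⟨.ofNat 132069, 30⟩, ⟨.ofNat 777188365, 32⟩, ⟨.ofNat 1145911, 29⟩, ⟨.negSucc 43391404, 30⟩, ⟨.ofNat 10128525, 32⟩], 0⟩,
   ⟨[⟨.negSucc 430, 32⟩, ⟨.negSucc 7117632, 28⟩, ⟨.negSucc 171198, 30⟩, ⟨.negSucc 233486200, 31⟩, ⟨.negSucc 12417822, 32⟩, ⟨.ofNat 197625689, 32⟩, ⟨.negSucc 1919100, 29⟩], 0⟩,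
   ⟨[⟨.ofNat 153, 31⟩, ⟨.ofNat 426717, 30⟩, ⟨.ofNat 240699, 31⟩, ⟨.ofNat 10663865, 32⟩, ⟨.ofNat 2093279, 30⟩, ⟨.negSucc 6361300, 30⟩, ⟨.ofNat 9299073, 32⟩], 0⟩,
   ⟨[⟨.ofNat 0, 0⟩], 0⟩,
   ⟨[⟨.negSucc 835596542, 32⟩, ⟨.negSucc 200540, 31⟩, ⟨.ofNat 181880831, 30⟩, ⟨.negSucc 2311470, 28⟩, ⟨.ofNat 108170947, 30⟩, ⟨.negSucc 33262164, 30⟩, ⟨.negSucc 124002770, 32⟩], 0⟩,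
   ⟨[⟨.negSucc 215227024, 29⟩, ⟨.negSucc 264334, 32⟩, ⟨.negSucc 5042198, 27⟩, ⟨.negSucc 12147060, 31⟩, ⟨.ofNat 1210222897, 32⟩, ⟨.negSucc 1353310, 26⟩, ⟨.negSucc 106467860, 32⟩], 0⟩,
   ⟨[⟨.negSucc 11858934, 30⟩, ⟨.ofNat 27519, 30⟩, ⟨.ofNat 23540033, 28⟩, ⟨.ofNat 1275299, 29⟩, ⟨.negSucc 557447136, 31⟩, ⟨.ofNat 37218889, 32⟩, ⟨.ofNat 35258437, 30⟩], 0⟩,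
   ⟨[⟨.ofNat 282240983, 30⟩, ⟨.negSucc 90888, 32⟩, ⟨.negSucc 8310238, 31⟩, ⟨.negSucc 4187056, 31⟩, ⟨.negSucc 679278356, 32⟩, ⟨.negSucc 30058478, 32⟩, ⟨.ofNat 8744315, 29⟩], 0⟩,
   ⟨[⟨.ofNat 34735003, 28⟩, ⟨.negSucc 20198, 31⟩, ⟨.negSucc 307829892, 32⟩, ⟨.negSucc 930240, 30⟩, ⟨.ofNat 562502579, 32⟩, ⟨.negSucc 13345870, 32⟩, ⟨.negSucc 1647412, 32⟩], 0⟩,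
   ⟨[⟨.negSucc 17966492, 32⟩, ⟨.ofNat 635, 31⟩, ⟨.ofNat 20052759, 32⟩, ⟨.ofNat 57523, 31⟩, ⟨.negSucc 22479784, 32⟩, ⟨.ofNat 394119, 32⟩, ⟨.ofNat 9048025, 32⟩], 0⟩,
   ⟨[⟨.ofNat 3385, 31⟩, ⟨.negSucc 866515272, 32⟩, ⟨.ofNat 10666073, 32⟩, ⟨.negSucc 1122770782, 32⟩, ⟨.ofNat 186639945, 32⟩, ⟨.negSucc 1072837662, 32⟩, ⟨.ofNat 210690087, 32⟩], 0⟩,
   ⟨[⟨.ofNat 603, 29⟩, ⟨.ofNat 2421234079, 32⟩, ⟨.ofNat 7553271, 32⟩, ⟨.ofNat 607582889, 31⟩, ⟨.ofNat 128600923, 32⟩, ⟨.negSucc 612242938, 32⟩, ⟨.ofNat 134227817, 32⟩], 0⟩,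
   ⟨[⟨.negSucc 4, 29⟩, ⟨.ofNat 82208843, 30⟩, ⟨.negSucc 43264, 31⟩, ⟨.ofNat 1093524595, 32⟩, ⟨.negSucc 405734, 29⟩, ⟨.ofNat 167603377, 30⟩, ⟨.negSucc 9021128, 32⟩], 0⟩]

def LB0R_5 : List Sym :=
  [⟨[⟨.ofNat 815, 31⟩, ⟨.negSucc 179065550, 30⟩, ⟨.ofNat 80235, 27⟩, ⟨.negSucc 833622708, 31⟩, ⟨.ofNat 11234303, 30⟩, ⟨.ofNat 77308865, 32⟩, ⟨.ofNat 25369981, 31⟩], 0⟩,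
   ⟨[⟨.ofNat 113, 31⟩, ⟨.ofNat 4645269, 29⟩, ⟨.ofNat 354549, 32⟩, ⟨.ofNat 25326955, 32⟩, ⟨.ofNat 1530549, 30⟩, ⟨.negSucc 13717732, 31⟩, ⟨.ofNat 832767, 29⟩], 0⟩,
   ⟨[⟨.ofNat 3877008795, 32⟩, ⟨.ofNat 72895, 32⟩, ⟨.negSucc 712882352, 30⟩, ⟨.ofNat 6601341, 32⟩, ⟨.negSucc 39652910, 29⟩, ⟨.ofNat 22575537, 32⟩, ⟨.ofNat 112774655, 31⟩], 0⟩,
   ⟨[⟨.ofNat 30228917, 26⟩, ⟨.negSucc 167642, 32⟩, ⟨.negSucc 822810928, 32⟩, ⟨.negSucc 15528478, 32⟩, ⟨.negSucc 677119376, 31⟩, ⟨.negSucc 56546150, 32⟩, ⟨.ofNat 84533743, 31⟩], 0⟩,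
   ⟨[⟨.negSucc 2319537310, 32⟩, ⟨.negSucc 796, 26⟩, ⟨.ofNat 1579950871, 32⟩, ⟨.negSucc 294728, 28⟩, ⟨.ofNat 1132336045, 32⟩, ⟨.negSucc 17083250, 32⟩, ⟨.negSucc 124518, 28⟩], 0⟩,
   ⟨[⟨.ofNat 68721081, 32⟩, ⟨.ofNat 1903, 29⟩, ⟨.negSucc 103048536, 32⟩, ⟨.ofNat 1390683, 32⟩, ⟨.negSucc 24947526, 31⟩, ⟨.ofNat 1218919, 30⟩, ⟨.ofNat 2840027, 29⟩], 0⟩,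
   ⟨[⟨.negSucc 270, 32⟩, ⟨.negSucc 1106864312, 32⟩, ⟨.negSucc 397682, 32⟩, ⟨.ofNat 502140173, 30⟩, ⟨.negSucc 4837798, 32⟩, ⟨.ofNat 70785249, 29⟩, ⟨.ofNat 113717, 29⟩], 0⟩,
   ⟨[⟨.ofNat 1633, 32⟩, ⟨.negSucc 643943674, 32⟩, ⟨.ofNat 2582291, 32⟩, ⟨.negSucc 1752260702, 32⟩, ⟨.ofNat 11467673, 30⟩, ⟨.ofNat 40626469, 31⟩, ⟨.ofNat 3364009, 28⟩], 0⟩,
   ⟨[⟨.ofNat 93, 32⟩, ⟨.negSucc 34663144, 32⟩, ⟨.ofNat 147469, 32⟩, ⟨.ofNat 78247719, 32⟩, ⟨.ofNat 2602339, 32⟩, ⟨.negSucc 6270744, 31⟩, ⟨.ofNat 3000259, 32⟩], 0⟩,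
   ⟨[⟨.negSucc 2847119062, 32⟩, ⟨.ofNat 1753, 27⟩, ⟨.ofNat 1798831867, 32⟩, ⟨.ofNat 2572421, 31⟩, ⟨.ofNat 567741515, 32⟩, ⟨.ofNat 18237655, 32⟩, ⟨.ofNat 575847, 31⟩], 0⟩,
   ⟨[⟨.ofNat 43343787, 31⟩, ⟨.ofNat 6977, 31⟩, ⟨.negSucc 7693830, 28⟩, ⟨.ofNat 637819, 31⟩, ⟨.negSucc 6853816, 30⟩, ⟨.ofNat 4481557, 32⟩, ⟨.ofNat 13672191, 32⟩], 0⟩,
   ⟨[⟨.negSucc 32, 30⟩, ⟨.negSucc 71825296, 32⟩, ⟨.negSucc 207078, 32⟩, ⟨.ofNat 13230191, 30⟩, ⟨.negSucc 1759928, 31⟩, ⟨.ofNat 1861747, 29⟩, ⟨.negSucc 915468, 30⟩], 0⟩,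
   ⟨[⟨.negSucc 68054158, 31⟩, ⟨.ofNat 213, 31⟩, ⟨.negSucc 128675222, 32⟩, ⟨.ofNat 39631, 32⟩, ⟨.ofNat 3103229, 29⟩, ⟨.ofNat 145591, 32⟩, ⟨.negSucc 470348, 31⟩], 0⟩,
   ⟨[⟨.ofNat 451728623, 31⟩, ⟨.negSucc 340, 27⟩, ⟨.negSucc 188916534, 31⟩, ⟨.negSucc 1000982, 32⟩, ⟨.ofNat 85802807, 32⟩, ⟨.negSucc 3549918, 32⟩, ⟨.negSucc 10677654, 31⟩], 0⟩,
   ⟨[⟨.ofNat 785181069, 32⟩, ⟨.ofNat 7605, 31⟩, ⟨.negSucc 224893704, 31⟩, ⟨.ofNat 1399343, 32⟩, ⟨.negSucc 13611380, 31⟩, ⟨.ofNat 2501507, 31⟩, ⟨.negSucc 186188, 28⟩], 0⟩,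
   ⟨[⟨.ofNat 12646587, 29⟩, ⟨.ofNat 2989, 32⟩, ⟨.negSucc 41616504, 32⟩, ⟨.ofNat 274569, 32⟩, ⟨.ofNat 31760379, 30⟩, ⟨.ofNat 488601, 31⟩, ⟨.negSucc 285598, 32⟩], 0⟩]

def LB0R_6 : List Sym :=
  [⟨[⟨.negSucc 4491622, 32⟩, ⟨.ofNat 317, 32⟩, ⟨.ofNat 2506595, 31⟩, ⟨.ofNat 28761, 32⟩, ⟨.negSucc 2809972, 31⟩, ⟨.ofNat 49265, 31⟩, ⟨.ofNat 1131003, 31⟩], 0⟩,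
   ⟨[⟨.ofNat 25, 30⟩, ⟨.negSucc 559664336, 31⟩, ⟨.ofNat 39359, 30⟩, ⟨.ofNat 51808181, 31⟩, ⟨.ofNat 1368575, 31⟩, ⟨.negSucc 2176278, 31⟩, ⟨.ofNat 3037019, 32⟩], 0⟩,
   ⟨[⟨.ofNat 21, 31⟩, ⟨.ofNat 117730127, 29⟩, ⟨.ofNat 63115, 32⟩, ⟨.ofNat 201684071, 31⟩, ⟨.ofNat 223727, 30⟩, ⟨.negSucc 25508638, 32⟩, ⟨.ofNat 381367, 32⟩], 0⟩,
   ⟨[⟨.negSucc 4, 29⟩, ⟨.ofNat 20812325, 32⟩, ⟨.negSucc 15706, 30⟩, ⟨.negSucc 192783592, 31⟩, ⟨.negSucc 561972, 31⟩, ⟨.ofNat 31781457, 32⟩, ⟨.negSucc 41980, 27⟩], 0⟩,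
   ⟨[⟨.ofNat 1, 28⟩, ⟨.ofNat 3421803, 32⟩, ⟨.ofNat 24479, 32⟩, ⟨.ofNat 9035301, 32⟩, ⟨.ofNat 427503, 32⟩, ⟨.negSucc 1024482, 30⟩, ⟨.ofNat 479709, 32⟩], 0⟩,
   ⟨[⟨.negSucc 5153812, 28⟩, ⟨.ofNat 12427, 32⟩, ⟨.negSucc 400357222, 32⟩, ⟨.ofNat 1138339, 32⟩, ⟨.ofNat 6221127, 32⟩, ⟨.ofNat 4021437, 32⟩, ⟨.ofNat 5082875, 30⟩], 0⟩,
   ⟨[⟨.negSucc 418958974, 31⟩, ⟨.negSucc 2174, 29⟩, ⟨.ofNat 484964765, 31⟩, ⟨.negSucc 1601286, 32⟩, ⟨.ofNat 86432437, 32⟩, ⟨.negSucc 358114, 28⟩, ⟨.ofNat 1016275, 32⟩], 0⟩,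
   ⟨[⟨.ofNat 24925041, 32⟩, ⟨.ofNat 1843, 32⟩, ⟨.negSucc 41928316, 32⟩, ⟨.ofNat 84193, 31⟩, ⟨.ofNat 3568527, 32⟩, ⟨.ofNat 591011, 32⟩, ⟨.ofNat 2212537, 32⟩], 0⟩,
   ⟨[⟨.ofNat 41, 32⟩, ⟨.negSucc 73737266, 31⟩, ⟨.ofNat 4223, 28⟩, ⟨.negSucc 283328592, 32⟩, ⟨.ofNat 1386713, 32⟩, ⟨.ofNat 91668429, 32⟩, ⟨.ofNat 2176733, 32⟩], 0⟩,
   ⟨[⟨.ofNat 43, 30⟩, ⟨.negSucc 7847666, 31⟩, ⟨.ofNat 134867, 31⟩, ⟨.ofNat 28778453, 32⟩, ⟨.ofNat 4641343, 32⟩, ⟨.negSucc 3518856, 30⟩, ⟨.ofNat 2500769, 31⟩], 0⟩,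
   ⟨[⟨.negSucc 74, 32⟩, ⟨.ofNat 1843, 30⟩, ⟨.negSucc 2120256, 31⟩, ⟨.ofNat 337341, 31⟩, ⟨.negSucc 4183392, 31⟩, ⟨.ofNat 2377823, 32⟩, ⟨.ofNat 1581609, 32⟩], 0⟩]

def LB0R_L : List (List Sym) := [LB0R_0, LB0R_1, LB0R_2, LB0R_3, LB0R_4, LB0R_5, LB0R_6]

noncomputable def LB0R (i : Nat) : Sym := sym16 LB0R_L i

end Pool.H61.Rh
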