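import Pool.Agent.H47.K3.Defs

/-! # generated: level-3 table LB1E (polynomials in θ, exact) -/

set_option autoImplicit false

namespace Pool.H61.Rh

open Pool.H47.Kc Pool.H47.K3

def LB1E_0 : List Sym :=
  [⟨[⟨.ofNat 4117733463, 36⟩, ⟨.ofNat 1778895895, 36⟩, ⟨.negSucc 1310098906, 35⟩, ⟨.negSucc 126464, 28⟩, ⟨.ofNat 122302225, 35⟩, ⟨.negSucc 7454206, 35⟩, ⟨.negSucc 5102652, 35⟩, ⟨.ofNat 1400331, 36⟩, ⟨.ofNat 18183, 35⟩], 0⟩,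
   ⟨[⟨.ofNat 356253851, 34⟩, ⟨.ofNat 3438897513, 35⟩, ⟨.negSucc 64669296, 34⟩, ⟨.negSucc 5088993048, 36⟩, ⟨.ofNat 1161923341, 36⟩, ⟨.ofNat 499893893, 36⟩, ⟨.negSucc 58281788, 36⟩, ⟨.negSucc 18194022, 35⟩, ⟨.ofNat 776075, 33⟩], 0⟩,
   ⟨[⟨.negSucc 4296244310, 36⟩, ⟨.negSucc 322510558, 33⟩, ⟨.ofNat 11329935427, 35⟩, ⟨.negSucc 11505460010, 36⟩, ⟨.negSucc 4042626942, 36⟩, ⟨.ofNat 3831994681, 36⟩, ⟨.ofNat 6964419, 36⟩, ⟨.negSucc 230879694, 36⟩, ⟨.ofNat 25247881, 36⟩], 0⟩,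
   ⟨[⟨.ofNat 1765857949, 35⟩, ⟨.negSucc 11594879412, 36⟩, ⟨.ofNat 25331314941, 36⟩, ⟨.ofNat 5534056995, 36⟩, ⟨.negSucc 12506199140, 36⟩, ⟨.ofNat 606252729, 34⟩, ⟨.ofNat 13433771, 36⟩, ⟨.negSucc 62760220, 36⟩, ⟨.ofNat 4223147, 35⟩], 0⟩,
   ⟨[⟨.ofNat 2944365073, 35⟩, ⟨.negSucc 1879002198, 36⟩, ⟨.ofNat 3401528333, 36⟩, ⟨.ofNat 3045974475, 35⟩, ⟨.negSucc 1625466792, 34⟩, ⟨.negSucc 2816128060, 36⟩, ⟨.negSucc 195560204, 36⟩, ⟨.ofNat 191180385, 36⟩, ⟨.negSucc 1734832, 34⟩], 0⟩,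
   ⟨[⟨.ofNat 170285631, 33⟩, ⟨.ofNat 2613965163, 35⟩, ⟨.ofNat 1078713, 35⟩, ⟨.negSucc 3750340700, 36⟩, ⟨.ofNat 555623613, 35⟩, ⟨.negSucc 221066404, 35⟩, ⟨.negSucc 63665584, 35⟩, ⟨.ofNat 12464573, 36⟩, ⟨.ofNat 4301485, 35⟩], 0⟩,
   ⟨[⟨.negSucc 11799446, 34⟩, ⟨.ofNat 348677345, 36⟩, ⟨.ofNat 25939649, 36⟩, ⟨.negSucc 782222766, 35⟩, ⟨.negSucc 23151866, 36⟩, ⟨.ofNat 1243336263, 36⟩, ⟨.ofNat 22158599, 36⟩, ⟨.negSucc 16913194, 36⟩, ⟨.ofNat 4199433, 36⟩], 0⟩,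
   ⟨[⟨.negSucc 0, 36⟩, ⟨.negSucc 1924962, 33⟩, ⟨.negSucc 3600, 36⟩, ⟨.ofNat 62254483, 36⟩, ⟨.negSucc 184112, 36⟩, ⟨.negSucc 8608916, 33⟩, ⟨.negSucc 834358, 36⟩, ⟨.ofNat 11429759, 35⟩, ⟨.negSucc 347748, 36⟩], 0⟩,
   ⟨[⟨.negSucc 10028331304, 36⟩, ⟨.negSucc 3155013770, 36⟩, ⟨.ofNat 2664497783, 35⟩, ⟨.negSucc 471752884, 36⟩, ⟨.ofNat 770917607, 36⟩, ⟨.negSucc 156031098, 35⟩, ⟨.ofNat 9290849, 36⟩, ⟨.ofNat 8785479, 35⟩, ⟨.negSucc 400038, 33⟩], 0⟩,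
   ⟨[⟨.negSucc 4738817204, 35⟩, ⟨.negSucc 1734705118, 32⟩, ⟨.ofNat 3580991105, 35⟩, ⟨.ofNat 1107875757, 36⟩, ⟨.ofNat 18339205, 31⟩, ⟨.negSucc 422972954, 34⟩, ⟨.ofNat 64641513, 36⟩, ⟨.ofNat 21075975, 34⟩, ⟨.negSucc 15573606, 36⟩], 0⟩,
   ⟨[⟨.ofNat 5289398185, 36⟩, ⟨.negSucc 12204219846, 35⟩, ⟨.negSucc 1462180168, 31⟩, ⟨.ofNat 4544993989, 34⟩, ⟨.ofNat 595613049, 34⟩, ⟨.negSucc 1832085596, 36⟩, ⟨.negSucc 224124706, 35⟩, ⟨.ofNat 122840111, 36⟩, ⟨.negSucc 4641374, 34⟩], 0⟩,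
   ⟨[⟨.ofNat 8667146241, 35⟩, ⟨.ofNat 1100420615, 33⟩, ⟨.negSucc 9628760988, 36⟩, ⟨.ofNat 1540850469, 33⟩, ⟨.ofNat 3308359321, 34⟩, ⟨.negSucc 377062276, 35⟩, ⟨.negSucc 4856004, 32⟩, ⟨.ofNat 31202037, 34⟩, ⟨.negSucc 1975946, 33⟩], 0⟩,
   ⟨[⟨.negSucc 948223018, 33⟩, ⟨.ofNat 5704341393, 36⟩, ⟨.ofNat 3582660015, 35⟩, ⟨.negSucc 3694243722, 35⟩, ⟨.ofNat 1232711429, 35⟩, ⟨.ofNat 240820209, 36⟩, ⟨.ofNat 850991691, 36⟩, ⟨.ofNat 24045469, 35⟩, ⟨.negSucc 4473418, 36⟩], 0⟩,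
   ⟨[⟨.negSucc 7720631480, 36⟩, ⟨.ofNat 154949467, 36⟩, ⟨.negSucc 640931920, 35⟩, ⟨.negSucc 349450944, 35⟩, ⟨.negSucc 401188724, 33⟩, ⟨.ofNat 160162229, 34⟩, ⟨.ofNat 1870879, 36⟩, ⟨.ofNat 2469881, 34⟩, ⟨.ofNat 3462501, 34⟩], 0⟩,
   ⟨[⟨.ofNat 241621421, 36⟩, ⟨.negSucc 8890950, 36⟩, ⟨.negSucc 22435082, 34⟩, ⟨.ofNat 8990509, 34⟩, ⟨.ofNat 31975513, 36⟩, ⟨.negSucc 39488090, 36⟩, ⟨.negSucc 4558016, 34⟩, ⟨.ofNat 13594165, 36⟩, ⟨.negSucc 2597100, 36⟩], 0⟩,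
   ⟨[⟨.ofNat 6021026547, 35⟩, ⟨.negSucc 5307100734, 36⟩, ⟨.ofNat 1263233045, 34⟩, ⟨.ofNat 554486807, 36⟩, ⟨.ofNat 1643749749, 36⟩, ⟨.negSucc 1254647282, 36⟩, ⟨.ofNat 129231239, 35⟩, ⟨.negSucc 4418074, 36⟩, ⟨.negSucc 587938, 33⟩], 0⟩]

def LB1E_1 : List Sym :=
  [⟨[⟨.ofNat 6420945481, 34⟩, ⟨.ofNat 9367511491, 34⟩, ⟨.negSucc 21575040458, 36⟩, ⟨.ofNat 21718376529, 36⟩, ⟨.negSucc 38361574, 33⟩, ⟨.ofNat 311664923, 36⟩, ⟨.ofNat 653898563, 36⟩, ⟨.negSucc 172145366, 36⟩, ⟨.ofNat 2013361, 33⟩], 0⟩,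
   ⟨[⟨.ofNat 1717972213, 34⟩, ⟨.negSucc 1560447992, 36⟩, ⟨.negSucc 24332156044, 36⟩, ⟨.negSucc 29360810314, 36⟩, ⟨.ofNat 480309533, 35⟩, ⟨.ofNat 988287617, 35⟩, ⟨.ofNat 16575959, 32⟩, ⟨.negSucc 75730458, 35⟩, ⟨.ofNat 21125483, 36⟩], 0⟩,
   ⟨[⟨.negSucc 11545231664, 36⟩, ⟨.ofNat 8692609045, 36⟩, ⟨.ofNat 3174313819, 35⟩, ⟨.negSucc 5224223834, 35⟩, ⟨.ofNat 335803383, 33⟩, ⟨.negSucc 243412356, 33⟩, ⟨.ofNat 301155097, 36⟩, ⟨.ofNat 12944097, 34⟩, ⟨.negSucc 494068, 32⟩], 0⟩,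
   ⟨[⟨.negSucc 4237407466, 36⟩, ⟨.negSucc 574965212, 32⟩, ⟨.negSucc 52311524, 32⟩, ⟨.ofNat 8277086791, 36⟩, ⟨.negSucc 2002156864, 36⟩, ⟨.ofNat 1165475427, 36⟩, ⟨.ofNat 16090665, 35⟩, ⟨.ofNat 307037, 36⟩, ⟨.negSucc 529080, 35⟩], 0⟩,
   ⟨[⟨.ofNat 4359381, 31⟩, ⟨.ofNat 33397399, 35⟩, ⟨.negSucc 51813224, 36⟩, ⟨.negSucc 3078872, 29⟩, ⟨.ofNat 18380447, 36⟩, ⟨.ofNat 17447403, 36⟩, ⟨.negSucc 5432990, 35⟩, ⟨.ofNat 6706045, 34⟩, ⟨.negSucc 1603572, 36⟩], 0⟩,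
   ⟨[⟨.negSucc 5709030758, 35⟩, ⟨.ofNat 1715190701, 35⟩, ⟨.negSucc 7313697184, 35⟩, ⟨.ofNat 399261159, 32⟩, ⟨.negSucc 4320382298, 35⟩, ⟨.ofNat 2407094075, 36⟩, ⟨.negSucc 244030108, 35⟩, ⟨.negSucc 26461638, 35⟩, ⟨.ofNat 7516939, 35⟩], 0⟩,
   ⟨[⟨.ofNat 2575718515, 36⟩, ⟨.ofNat 2494588131, 34⟩, ⟨.ofNat 26155744665, 35⟩, ⟨.negSucc 3902336246, 36⟩, ⟨.negSucc 1408153116, 35⟩, ⟨.ofNat 1838658913, 35⟩, ⟨.negSucc 557116386, 36⟩, ⟨.negSucc 27203664, 36⟩, ⟨.ofNat 8751369, 36⟩], 0⟩,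
   ⟨[⟨.negSucc 11769380036, 36⟩, ⟨.ofNat 3052898765, 35⟩, ⟨.negSucc 271258592, 34⟩, ⟨.negSucc 1361902726, 33⟩, ⟨.ofNat 2248389399, 34⟩, ⟨.negSucc 144786048, 34⟩, ⟨.negSucc 183343558, 36⟩, ⟨.ofNat 50621047, 35⟩, ⟨.negSucc 938430, 32⟩], 0⟩,
   ⟨[⟨.ofNat 134960319, 34⟩, ⟨.negSucc 1384287078, 34⟩, ⟨.negSucc 885246270, 34⟩, ⟨.ofNat 2489958313, 35⟩, ⟨.negSucc 2634869038, 35⟩, ⟨.ofNat 606703587, 36⟩, ⟨.ofNat 28998167, 34⟩, ⟨.ofNat 157343, 35⟩, ⟨.negSucc 47022, 31⟩], 0⟩,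
   ⟨[⟨.negSucc 1395090, 34⟩, ⟨.ofNat 19281991, 35⟩, ⟨.negSucc 110517518, 36⟩, ⟨.negSucc 28441818, 33⟩, ⟨.ofNat 9135447, 31⟩, ⟨.ofNat 5014839, 35⟩, ⟨.negSucc 64102612, 36⟩, ⟨.ofNat 15432211, 36⟩, ⟨.negSucc 2346038, 36⟩], 0⟩,
   ⟨[⟨.negSucc 2396205604, 34⟩, ⟨.negSucc 6651547408, 36⟩, ⟨.ofNat 3880689335, 36⟩, ⟨.negSucc 5933106398, 35⟩, ⟨.ofNat 1063027651, 35⟩, ⟨.negSucc 2509369014, 36⟩, ⟨.negSucc 9220166, 31⟩, ⟨.ofNat 16283651, 36⟩, ⟨.ofNat 1026413, 35⟩], 0⟩,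
   ⟨[⟨.negSucc 7308651430, 35⟩, ⟨.ofNat 891426753, 33⟩, ⟨.ofNat 1574507447, 36⟩, ⟨.negSucc 1751065790, 36⟩, ⟨.ofNat 5408970287, 36⟩, ⟨.negSucc 466567480, 34⟩, ⟨.ofNat 1189823, 36⟩, ⟨.negSucc 20532104, 35⟩, ⟨.negSucc 2043696, 35⟩], 0⟩,
   ⟨[⟨.ofNat 139940499, 34⟩, ⟨.negSucc 4890659688, 35⟩, ⟨.negSucc 1094534212, 35⟩, ⟨.ofNat 4815629115, 35⟩, ⟨.negSucc 3138168264, 36⟩, ⟨.ofNat 17927597, 33⟩, ⟨.ofNat 53590363, 35⟩, ⟨.negSucc 59023644, 36⟩, ⟨.ofNat 2991873, 36⟩], 0⟩,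
   ⟨[⟨.negSucc 50340, 30⟩, ⟨.ofNat 143525491, 35⟩, ⟨.negSucc 7975592, 33⟩, ⟨.negSucc 533756874, 36⟩, ⟨.ofNat 168914463, 36⟩, ⟨.ofNat 50715025, 36⟩, ⟨.negSucc 9088982, 34⟩, ⟨.ofNat 6539669, 36⟩, ⟨.negSucc 1022004, 36⟩], 0⟩,
   ⟨[⟨.negSucc 546522688, 35⟩, ⟨.ofNat 147478963, 32⟩, ⟨.negSucc 2237798, 32⟩, ⟨.negSucc 371781180, 35⟩, ⟨.negSucc 479660998, 36⟩, ⟨.negSucc 426965644, 35⟩, ⟨.negSucc 11803952, 36⟩, ⟨.negSucc 9114586, 36⟩, ⟨.ofNat 8108635, 36⟩], 0⟩,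
   ⟨[⟨.ofNat 8152225173, 36⟩, ⟨.negSucc 2905404212, 35⟩, ⟨.negSucc 2293199818, 36⟩, ⟨.ofNat 694427693, 33⟩, ⟨.negSucc 1672275612, 36⟩, ⟨.ofNat 110226899, 36⟩, ⟨.negSucc 18454318, 35⟩, ⟨.negSucc 17570838, 35⟩, ⟨.ofNat 6315801, 36⟩], 0⟩]

def LB1E_2 : List Sym :=
  [⟨[⟨.negSucc 247201784, 36⟩, ⟨.ofNat 82864449, 35⟩, ⟨.negSucc 20776692, 36⟩, ⟨.negSucc 308181936, 36⟩, ⟨.ofNat 260385189, 36⟩, ⟨.ofNat 29037549, 36⟩, ⟨.negSucc 11434258, 34⟩, ⟨.ofNat 3431021, 36⟩, ⟨.ofNat 326945, 36⟩], 0⟩,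
   ⟨[⟨.ofNat 2343737437, 35⟩, ⟨.negSucc 6894884, 34⟩, ⟨.negSucc 1345944692, 36⟩, ⟨.ofNat 1281497, 34⟩, ⟨.negSucc 235463386, 34⟩, ⟨.negSucc 1235206, 34⟩, ⟨.negSucc 11795678, 35⟩, ⟨.ofNat 352035, 34⟩, ⟨.ofNat 1928107, 36⟩], 0⟩,
   ⟨[⟨.negSucc 142722016, 36⟩, ⟨.ofNat 6401765, 31⟩, ⟨.negSucc 749694, 32⟩, ⟨.negSucc 9675830, 33⟩, ⟨.ofNat 75174951, 35⟩, ⟨.negSucc 17801856, 35⟩, ⟨.negSucc 26324308, 36⟩, ⟨.ofNat 2575007, 36⟩, ⟨.ofNat 233819, 36⟩], 0⟩,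
   ⟨[⟨.ofNat 0, 0⟩, ⟨.ofNat 29568491, 34⟩, ⟨.ofNat 493, 36⟩, ⟨.negSucc 22342674, 35⟩, ⟨.ofNat 13199, 35⟩, ⟨.negSucc 5120054, 34⟩, ⟨.ofNat 133509, 36⟩, ⟨.ofNat 1592975, 36⟩, ⟨.ofNat 18971, 34⟩], 0⟩,
   ⟨[⟨.negSucc 19137488602, 36⟩, ⟨.negSucc 5664439244, 36⟩, ⟨.ofNat 5419139111, 35⟩, ⟨.negSucc 9827560118, 36⟩, ⟨.negSucc 1644346264, 35⟩, ⟨.ofNat 4309283861, 36⟩, ⟨.ofNat 129158819, 35⟩, ⟨.negSucc 201401944, 35⟩, ⟨.ofNat 22759035, 35⟩], 0⟩,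
   ⟨[⟨.ofNat 40000816721, 36⟩, ⟨.negSucc 20930444278, 35⟩, ⟨.ofNat 38299205157, 35⟩, ⟨.negSucc 8697167656, 34⟩, ⟨.negSucc 58671063024, 36⟩, ⟨.ofNat 7086391387, 34⟩, ⟨.negSucc 37639330, 33⟩, ⟨.negSucc 218046924, 34⟩, ⟨.ofNat 32656847, 35⟩], 0⟩,
   ⟨[⟨.ofNat 44217536113, 35⟩, ⟨.ofNat 7353379611, 36⟩, ⟨.ofNat 18754459625, 34⟩, ⟨.ofNat 16617647845, 36⟩, ⟨.negSucc 32296558838, 35⟩, ⟨.negSucc 5959382778, 36⟩, ⟨.negSucc 1918704856, 36⟩, ⟨.ofNat 1453769589, 36⟩, ⟨.negSucc 110336094, 36⟩], 0⟩,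
   ⟨[⟨.ofNat 530361319, 32⟩, ⟨.ofNat 27064339465, 36⟩, ⟨.ofNat 6713228429, 35⟩, ⟨.ofNat 11415645929, 36⟩, ⟨.ofNat 74066613, 35⟩, ⟨.negSucc 1551683524, 34⟩, ⟨.negSucc 1088977224, 35⟩, ⟨.ofNat 26259753, 36⟩, ⟨.ofNat 80821135, 36⟩], 0⟩,
   ⟨[⟨.negSucc 15996169352, 36⟩, ⟨.ofNat 5111162459, 36⟩, ⟨.ofNat 14158022229, 36⟩, ⟨.negSucc 8549265466, 35⟩, ⟨.negSucc 219797588, 36⟩, ⟨.ofNat 1753274193, 35⟩, ⟨.ofNat 21938897, 34⟩, ⟨.negSucc 20334532, 34⟩, ⟨.negSucc 3469788, 34⟩], 0⟩,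
   ⟨[⟨.negSucc 5307397718, 36⟩, ⟨.negSucc 1964138396, 34⟩, ⟨.ofNat 1335841509, 36⟩, ⟨.negSucc 7838208914, 36⟩, ⟨.negSucc 947661246, 36⟩, ⟨.ofNat 24188293, 29⟩, ⟨.negSucc 163079796, 36⟩, ⟨.ofNat 49627339, 35⟩, ⟨.negSucc 10375362, 36⟩], 0⟩,
   ⟨[⟨.negSucc 1338230228, 36⟩, ⟨.negSucc 4524188778, 36⟩, ⟨.negSucc 27926774, 32⟩, ⟨.ofNat 203672235, 32⟩, ⟨.negSucc 38349830, 33⟩, ⟨.ofNat 129353835, 34⟩, ⟨.negSucc 86044726, 35⟩, ⟨.negSucc 23722582, 36⟩, ⟨.ofNat 5458703, 36⟩], 0⟩,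
   ⟨[⟨.ofNat 11608721, 34⟩, ⟨.negSucc 180105766, 35⟩, ⟨.negSucc 8871850, 35⟩, ⟨.ofNat 1579582171, 36⟩, ⟨.ofNat 1785619, 34⟩, ⟨.negSucc 313575844, 34⟩, ⟨.negSucc 2246418, 36⟩, ⟨.ofNat 10194177, 36⟩, ⟨.negSucc 4034874, 36⟩], 0⟩,
   ⟨[⟨.ofNat 1, 36⟩, ⟨.ofNat 15378059, 36⟩, ⟨.ofNat 2565, 35⟩, ⟨.negSucc 31081502, 35⟩, ⟨.ofNat 63623, 34⟩, ⟨.ofNat 68514797, 36⟩, ⟨.ofNat 1061697, 36⟩, ⟨.negSucc 22832006, 36⟩, ⟨.ofNat 307409, 36⟩], 0⟩,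
   ⟨[⟨.ofNat 12127709283, 35⟩, ⟨.negSucc 24899120076, 36⟩, ⟨.negSucc 538338776, 36⟩, ⟨.ofNat 52020173815, 36⟩, ⟨.negSucc 4289167792, 35⟩, ⟨.negSucc 3189024458, 35⟩, ⟨.negSucc 307070792, 35⟩, ⟨.ofNat 277504457, 35⟩, ⟨.negSucc 107962918, 36⟩], 0⟩,
   ⟨[⟨.negSucc 108863494750, 36⟩, ⟨.ofNat 48611210327, 35⟩, ⟨.negSucc 100132661034, 35⟩, ⟨.ofNat 36733056513, 36⟩, ⟨.ofNat 16693929535, 33⟩, ⟨.negSucc 6185745200, 35⟩, ⟨.negSucc 1035024532, 36⟩, ⟨.ofNat 492647047, 35⟩, ⟨.negSucc 209552374, 36⟩], 0⟩,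
   ⟨[⟨.negSucc 2083408600, 35⟩, ⟨.ofNat 29984503895, 34⟩, ⟨.ofNat 18917871255, 36⟩, ⟨.negSucc 24014674290, 35⟩, ⟨.negSucc 184516620, 30⟩, ⟨.ofNat 57002769, 36⟩, ⟨.ofNat 483044433, 32⟩, ⟨.negSucc 89280270, 35⟩, ⟨.negSucc 972598, 32⟩], 0⟩]

def LB1E_3 : List Sym :=
  [⟨[⟨.negSucc 979161008, 36⟩, ⟨.negSucc 33104201826, 36⟩, ⟨.ofNat 12094962217, 36⟩, ⟨.negSucc 20188763904, 36⟩, ⟨.negSucc 414119496, 34⟩, ⟨.ofNat 2110070515, 35⟩, ⟨.negSucc 670096776, 36⟩, ⟨.ofNat 101862495, 36⟩, ⟨.ofNat 167451801, 36⟩], 0⟩,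
   ⟨[⟨.negSucc 11739829272, 36⟩, ⟨.negSucc 8671221382, 36⟩, ⟨.negSucc 13420414722, 35⟩, ⟨.ofNat 4959240401, 36⟩, ⟨.ofNat 5122298663, 36⟩, ⟨.negSucc 124813676, 35⟩, ⟨.ofNat 74661139, 34⟩, ⟨.ofNat 3242819, 35⟩, ⟨.negSucc 11113334, 36⟩], 0⟩,
   ⟨[⟨.ofNat 6105468447, 36⟩, ⟨.negSucc 5551252006, 36⟩, ⟨.negSucc 2567144698, 35⟩, ⟨.ofNat 808581731, 33⟩, ⟨.negSucc 5440347156, 36⟩, ⟨.negSucc 6030670, 35⟩, ⟨.negSucc 77914258, 36⟩, ⟨.negSucc 16001990, 35⟩, ⟨.negSucc 388716, 35⟩], 0⟩,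
   ⟨[⟨.ofNat 7749012267, 36⟩, ⟨.negSucc 157537200, 36⟩, ⟨.ofNat 1246319043, 36⟩, ⟨.ofNat 709233811, 36⟩, ⟨.ofNat 1632194245, 35⟩, ⟨.negSucc 20020472, 31⟩, ⟨.negSucc 37996824, 36⟩, ⟨.negSucc 15159348, 36⟩, ⟨.negSucc 5580192, 36⟩], 0⟩,
   ⟨[⟨.negSucc 241282734, 36⟩, ⟨.ofNat 8878451, 36⟩, ⟨.ofNat 11165809, 33⟩, ⟨.negSucc 35910490, 36⟩, ⟨.negSucc 31730440, 36⟩, ⟨.ofNat 19626647, 35⟩, ⟨.ofNat 9204885, 35⟩, ⟨.negSucc 13652674, 36⟩, ⟨.ofNat 1297083, 35⟩], 0⟩,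
   ⟨[⟨.negSucc 11265249474, 35⟩, ⟨.ofNat 54609393661, 35⟩, ⟨.negSucc 89636614812, 36⟩, ⟨.negSucc 10300772638, 34⟩, ⟨.ofNat 3174588335, 32⟩, ⟨.negSucc 12197050580, 35⟩, ⟨.ofNat 189557613, 32⟩, ⟨.ofNat 53161729, 34⟩, ⟨.negSucc 39674850, 35⟩], 0⟩,
   ⟨[⟨.negSucc 36967380218, 36⟩, ⟨.negSucc 123699396748, 35⟩, ⟨.negSucc 60921133600, 36⟩, ⟨.ofNat 1986357699, 31⟩, ⟨.ofNat 11360540187, 34⟩, ⟨.ofNat 10978057905, 36⟩, ⟨.ofNat 1946047675, 35⟩, ⟨.negSucc 2430755190, 36⟩, ⟨.ofNat 86630171, 35⟩], 0⟩,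
   ⟨[⟨.negSucc 9992806256, 36⟩, ⟨.ofNat 8559864413, 34⟩, ⟨.ofNat 19175178285, 36⟩, ⟨.negSucc 33355174752, 36⟩, ⟨.negSucc 2079807238, 34⟩, ⟨.ofNat 9850260717, 36⟩, ⟨.ofNat 286715987, 35⟩, ⟨.ofNat 833587369, 36⟩, ⟨.negSucc 96635560, 35⟩], 0⟩,
   ⟨[⟨.ofNat 1043426737, 33⟩, ⟨.negSucc 954637658, 33⟩, ⟨.negSucc 17050049928, 35⟩, ⟨.ofNat 9417940521, 36⟩, ⟨.ofNat 2115797263, 36⟩, ⟨.negSucc 2977831504, 35⟩, ⟨.negSucc 180304548, 36⟩, ⟨.ofNat 232908887, 35⟩, ⟨.negSucc 41895524, 36⟩], 0⟩,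
   ⟨[⟨.ofNat 9917397591, 36⟩, ⟨.negSucc 9072710084, 36⟩, ⟨.negSucc 301369070, 33⟩, ⟨.ofNat 10525370673, 36⟩, ⟨.negSucc 2094995062, 35⟩, ⟨.ofNat 675230521, 34⟩, ⟨.negSucc 117112154, 35⟩, ⟨.negSucc 69058468, 34⟩, ⟨.ofNat 4289113, 34⟩], 0⟩,
   ⟨[⟨.ofNat 4266183021, 36⟩, ⟨.ofNat 9183754317, 36⟩, ⟨.ofNat 765285323, 36⟩, ⟨.negSucc 516174834, 32⟩, ⟨.ofNat 2041019901, 36⟩, ⟨.negSucc 605644300, 35⟩, ⟨.negSucc 63584182, 36⟩, ⟨.ofNat 45255945, 36⟩, ⟨.negSucc 9423806, 36⟩], 0⟩,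
   ⟨[⟨.negSucc 139304650, 36⟩, ⟨.negSucc 33444172, 35⟩, ⟨.ofNat 25788247, 35⟩, ⟨.ofNat 196810067, 35⟩, ⟨.negSucc 18130752, 36⟩, ⟨.negSucc 8674126, 35⟩, ⟨.ofNat 11402467, 36⟩, ⟨.negSucc 6838086, 34⟩, ⟨.ofNat 850293, 35⟩], 0⟩,
   ⟨[⟨.ofNat 74926752715, 36⟩, ⟨.negSucc 23920572256, 36⟩, ⟨.ofNat 168901028245, 36⟩, ⟨.negSucc 12902891674, 35⟩, ⟨.negSucc 117477448278, 36⟩, ⟨.ofNat 3250989845, 34⟩, ⟨.ofNat 83066665, 33⟩, ⟨.negSucc 899130236, 36⟩, ⟨.ofNat 113995397, 36⟩], 0⟩,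
   ⟨[⟨.negSucc 27268985562, 36⟩, ⟨.negSucc 6817523990, 35⟩, ⟨.negSucc 20713908204, 36⟩, ⟨.negSucc 32488560970, 36⟩, ⟨.ofNat 31576246401, 36⟩, ⟨.ofNat 2238111855, 34⟩, ⟨.negSucc 8452416278, 36⟩, ⟨.ofNat 191467857, 35⟩, ⟨.negSucc 35708578, 35⟩], 0⟩,
   ⟨[⟨.negSucc 20519357380, 36⟩, ⟨.negSucc 842517530, 35⟩, ⟨.negSucc 317059240, 34⟩, ⟨.ofNat 20078214733, 36⟩, ⟨.ofNat 2540474473, 36⟩, ⟨.negSucc 7658022244, 36⟩, ⟨.ofNat 103945709, 32⟩, ⟨.ofNat 350408341, 36⟩, ⟨.negSucc 58667586, 34⟩], 0⟩,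
   ⟨[⟨.ofNat 12894445719, 36⟩, ⟨.negSucc 1593625844, 34⟩, ⟨.negSucc 3309191762, 36⟩, ⟨.ofNat 3909460353, 35⟩, ⟨.negSucc 4460482262, 35⟩, ⟨.ofNat 1758227553, 36⟩, ⟨.ofNat 20685105, 34⟩, ⟨.negSucc 92776022, 35⟩, ⟨.ofNat 31372191, 36⟩], 0⟩]

def LB1E_4 : List Sym :=
  [⟨[⟨.negSucc 556454700, 36⟩, ⟨.ofNat 5517327337, 36⟩, ⟨.ofNat 901396069, 34⟩, ⟨.negSucc 2443516336, 35⟩, ⟨.ofNat 5240108897, 36⟩, ⟨.negSucc 680238952, 36⟩, ⟨.negSucc 48783334, 35⟩, ⟨.ofNat 11485125, 36⟩, ⟨.negSucc 931228, 34⟩], 0⟩,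
   ⟨[⟨.ofNat 2786271, 35⟩, ⟨.negSucc 9654470, 34⟩, ⟨.ofNat 27579149, 34⟩, ⟨.ofNat 28411089, 33⟩, ⟨.negSucc 291515780, 36⟩, ⟨.negSucc 1197212, 33⟩, ⟨.ofNat 31546441, 35⟩, ⟨.negSucc 15205876, 36⟩, ⟨.ofNat 2397985, 36⟩], 0⟩,
   ⟨[⟨.negSucc 8444575874, 36⟩, ⟨.ofNat 4641252951, 36⟩, ⟨.ofNat 935976703, 35⟩, ⟨.ofNat 10493859439, 36⟩, ⟨.ofNat 5997821515, 36⟩, ⟨.negSucc 4420161274, 35⟩, ⟨.negSucc 1998956096, 36⟩, ⟨.ofNat 609690187, 36⟩, ⟨.negSucc 24956838, 36⟩], 0⟩,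
   ⟨[⟨.ofNat 1434384171, 33⟩, ⟨.ofNat 2521513157, 36⟩, ⟨.negSucc 9698166068, 35⟩, ⟨.ofNat 9150521273, 36⟩, ⟨.negSucc 605399666, 35⟩, ⟨.negSucc 1650553892, 36⟩, ⟨.ofNat 1504457381, 36⟩, ⟨.negSucc 25612208, 31⟩, ⟨.ofNat 38388159, 36⟩], 0⟩,
   ⟨[⟨.ofNat 7228188337, 35⟩, ⟨.negSucc 4536180840, 35⟩, ⟨.negSucc 476506306, 36⟩, ⟨.ofNat 2790592455, 35⟩, ⟨.negSucc 2782629512, 35⟩, ⟨.ofNat 463895883, 34⟩, ⟨.negSucc 200320106, 36⟩, ⟨.negSucc 33606114, 36⟩, ⟨.negSucc 557714, 32⟩], 0⟩,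
   ⟨[⟨.negSucc 17382120, 31⟩, ⟨.ofNat 9829973293, 36⟩, ⟨.ofNat 1082352777, 35⟩, ⟨.negSucc 4884731228, 35⟩, ⟨.ofNat 778366997, 34⟩, ⟨.negSucc 110047192, 36⟩, ⟨.negSucc 22765360, 34⟩, ⟨.ofNat 16294525, 34⟩, ⟨.negSucc 607770, 32⟩], 0⟩,
   ⟨[⟨.ofNat 804327, 34⟩, ⟨.negSucc 286644258, 36⟩, ⟨.ofNat 63688461, 36⟩, ⟨.ofNat 532744267, 36⟩, ⟨.negSucc 42114410, 34⟩, ⟨.negSucc 49991742, 36⟩, ⟨.ofNat 8921337, 34⟩, ⟨.negSucc 6345536, 36⟩, ⟨.ofNat 248355, 34⟩], 0⟩,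
   ⟨[⟨.negSucc 73474638, 35⟩, ⟨.ofNat 1303944013, 34⟩, ⟨.ofNat 70468085, 35⟩, ⟨.ofNat 8748582737, 36⟩, ⟨.ofNat 234922351, 36⟩, ⟨.negSucc 697266852, 34⟩, ⟨.negSucc 69645350, 35⟩, ⟨.negSucc 56934662, 34⟩, ⟨.ofNat 66646539, 36⟩], 0⟩,
   ⟨[⟨.ofNat 2187500737, 36⟩, ⟨.negSucc 407730448, 33⟩, ⟨.negSucc 293634128, 35⟩, ⟨.ofNat 207314447, 35⟩, ⟨.ofNat 255129921, 36⟩, ⟨.ofNat 1377106259, 36⟩, ⟨.negSucc 93493442, 35⟩, ⟨.negSucc 88617238, 36⟩, ⟨.ofNat 197565, 34⟩], 0⟩,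
   ⟨[⟨.negSucc 8174031902, 36⟩, ⟨.ofNat 2912052031, 35⟩, ⟨.ofNat 2282112325, 36⟩, ⟨.negSucc 5549161024, 36⟩, ⟨.ofNat 864595593, 35⟩, ⟨.negSucc 129767270, 36⟩, ⟨.ofNat 39351643, 36⟩, ⟨.ofNat 38143253, 36⟩, ⟨.negSucc 10519278, 36⟩], 0⟩,
   ⟨[⟨.ofNat 61713819, 34⟩, ⟨.negSucc 165494012, 36⟩, ⟨.ofNat 5207757, 34⟩, ⟨.ofNat 307614129, 36⟩, ⟨.negSucc 32456720, 33⟩, ⟨.negSucc 28381586, 36⟩, ⟨.ofNat 44493239, 36⟩, ⟨.negSucc 2975184, 36⟩, ⟨.negSucc 351208, 36⟩], 0⟩,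
   ⟨[⟨.ofNat 630185477, 36⟩, ⟨.negSucc 2864010, 36⟩, ⟨.ofNat 14321433, 36⟩, ⟨.ofNat 489971, 36⟩, ⟨.ofNat 321883319, 36⟩, ⟨.negSucc 3939376, 35⟩, ⟨.negSucc 154925754, 36⟩, ⟨.negSucc 15471442, 36⟩, ⟨.ofNat 6983779, 35⟩], 0⟩,
   ⟨[⟨.negSucc 2350045960, 35⟩, ⟨.ofNat 48768813, 36⟩, ⟨.ofNat 668594781, 35⟩, ⟨.negSucc 15157314, 36⟩, ⟨.ofNat 940951499, 36⟩, ⟨.negSucc 4332738, 36⟩, ⟨.ofNat 11371141, 34⟩, ⟨.negSucc 3124034, 34⟩, ⟨.negSucc 1883828, 36⟩], 0⟩,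
   ⟨[⟨.ofNat 17815245, 33⟩, ⟨.negSucc 204377860, 36⟩, ⟨.ofNat 12025717, 36⟩, ⟨.ofNat 38479601, 35⟩, ⟨.negSucc 4686566, 31⟩, ⟨.ofNat 35844003, 36⟩, ⟨.ofNat 25378721, 36⟩, ⟨.negSucc 1864622, 36⟩, ⟨.negSucc 98382, 34⟩], 0⟩,
   ⟨[⟨.ofNat 1, 35⟩, ⟨.ofNat 3067835, 34⟩, ⟨.ofNat 7275, 34⟩, ⟨.negSucc 1006246, 36⟩, ⟨.ofNat 392325, 36⟩, ⟨.ofNat 1656749, 36⟩, ⟨.ofNat 1060803, 35⟩, ⟨.negSucc 2400316, 35⟩, ⟨.ofNat 1218263, 36⟩], 0⟩,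
   ⟨[⟨.ofNat 0, 0⟩, ⟨.negSucc 58998838, 35⟩, ⟨.negSucc 19886, 33⟩, ⟨.ofNat 44414927, 36⟩, ⟨.ofNat 32893, 34⟩, ⟨.ofNat 5112353, 34⟩, ⟨.negSucc 94936, 35⟩, ⟨.negSucc 44436, 31⟩, ⟨.negSucc 38756, 34⟩], 0⟩]

def LB1E_5 : List Sym :=
  [⟨[⟨.ofNat 0, 0⟩, ⟨.negSucc 6, 36⟩, ⟨.negSucc 91380, 36⟩, ⟨.negSucc 1924, 36⟩, ⟨.ofNat 102255, 36⟩, ⟨.negSucc 27304, 36⟩, ⟨.ofNat 1067, 31⟩, ⟨.negSucc 39426, 36⟩, ⟨.ofNat 6225, 36⟩], 0⟩,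
   ⟨[⟨.ofNat 20684692241, 35⟩, ⟨.ofNat 17336115637, 36⟩, ⟨.negSucc 5603192230, 34⟩, ⟨.negSucc 262376886, 34⟩, ⟨.ofNat 441192651, 34⟩, ⟨.ofNat 3758246605, 36⟩, ⟨.negSucc 1032756902, 36⟩, ⟨.negSucc 94552872, 35⟩, ⟨.ofNat 66907695, 36⟩], 0⟩,
   ⟨[⟨.ofNat 14042627509, 35⟩, ⟨.ofNat 135033196563, 36⟩, ⟨.negSucc 33620854026, 35⟩, ⟨.negSucc 4931217684, 36⟩, ⟨.ofNat 9921668865, 36⟩, ⟨.ofNat 1649780281, 35⟩, ⟨.negSucc 304050198, 36⟩, ⟨.negSucc 265979830, 36⟩, ⟨.ofNat 12564357, 35⟩], 0⟩,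
   ⟨[⟨.negSucc 39319632214, 35⟩, ⟨.ofNat 8794087933, 32⟩, ⟨.ofNat 11708349567, 35⟩, ⟨.negSucc 58978113330, 36⟩, ⟨.ofNat 13851988213, 35⟩, ⟨.negSucc 3280469184, 36⟩, ⟨.negSucc 814015718, 35⟩, ⟨.ofNat 172543067, 35⟩, ⟨.negSucc 13488856, 36⟩], 0⟩,
   ⟨[⟨.negSucc 16964719072, 35⟩, ⟨.ofNat 1267454529, 33⟩, ⟨.ofNat 21283920277, 36⟩, ⟨.negSucc 49662113260, 36⟩, ⟨.negSucc 18062985686, 36⟩, ⟨.negSucc 2176796152, 35⟩, ⟨.ofNat 2219093391, 36⟩, ⟨.ofNat 2098461, 35⟩, ⟨.negSucc 6877470, 33⟩], 0⟩,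
   ⟨[⟨.ofNat 40771055703, 36⟩, ⟨.ofNat 433926691, 35⟩, ⟨.negSucc 14918123548, 36⟩, ⟨.ofNat 6497936135, 35⟩, ⟨.negSucc 6387248246, 36⟩, ⟨.negSucc 2923198664, 36⟩, ⟨.ofNat 622511201, 36⟩, ⟨.negSucc 108681518, 36⟩, ⟨.ofNat 24937045, 36⟩], 0⟩,
   ⟨[⟨.ofNat 2915201515, 35⟩, ⟨.negSucc 117126068, 34⟩, ⟨.negSucc 1750676884, 35⟩, ⟨.negSucc 564820036, 36⟩, ⟨.ofNat 8266103521, 36⟩, ⟨.ofNat 83404585, 34⟩, ⟨.negSucc 110235968, 36⟩, ⟨.negSucc 45620928, 35⟩, ⟨.ofNat 2653733, 34⟩], 0⟩,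
   ⟨[⟨.negSucc 232134628, 35⟩, ⟨.ofNat 11947247, 36⟩, ⟨.ofNat 106714909, 34⟩, ⟨.ofNat 545875, 35⟩, ⟨.negSucc 258805338, 36⟩, ⟨.negSucc 229994, 35⟩, ⟨.negSucc 12341574, 35⟩, ⟨.ofNat 13396083, 36⟩, ⟨.negSucc 352892, 34⟩], 0⟩,
   ⟨[⟨.ofNat 3805569, 35⟩, ⟨.ofNat 35809, 36⟩, ⟨.negSucc 9736430, 36⟩, ⟨.negSucc 88482, 36⟩, ⟨.ofNat 1235943, 35⟩, ⟨.negSucc 5610, 29⟩, ⟨.ofNat 1319589, 34⟩, ⟨.negSucc 1057742, 36⟩, ⟨.negSucc 412892, 34⟩], 0⟩,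
   ⟨[⟨.ofNat 0, 0⟩, ⟨.negSucc 50, 36⟩, ⟨.ofNat 13285, 36⟩, ⟨.negSucc 13896, 36⟩, ⟨.ofNat 14933, 36⟩, ⟨.negSucc 199972, 36⟩, ⟨.ofNat 102823, 34⟩, ⟨.negSucc 297422, 36⟩, ⟨.ofNat 72001, 36⟩], 0⟩,
   ⟨[⟨.negSucc 35172127044, 34⟩, ⟨.negSucc 10533603632, 36⟩, ⟨.ofNat 22727069035, 35⟩, ⟨.negSucc 1490261220, 33⟩, ⟨.negSucc 46671860570, 36⟩, ⟨.ofNat 18655357097, 36⟩, ⟨.negSucc 670115218, 35⟩, ⟨.negSucc 340850350, 35⟩, ⟨.ofNat 66238803, 35⟩], 0⟩,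
   ⟨[⟨.negSucc 80534061508, 35⟩, ⟨.negSucc 128991600144, 35⟩, ⟨.ofNat 13374710585, 32⟩, ⟨.negSucc 65434014160, 36⟩, ⟨.negSucc 75366023556, 36⟩, ⟨.ofNat 7708453467, 36⟩, ⟨.negSucc 2295290550, 36⟩, ⟨.ofNat 423774487, 35⟩, ⟨.negSucc 55424672, 36⟩], 0⟩,
   ⟨[⟨.ofNat 33676875831, 36⟩, ⟨.ofNat 10635368853, 36⟩, ⟨.ofNat 9764555593, 32⟩, ⟨.ofNat 132840140377, 36⟩, ⟨.negSucc 14493840336, 35⟩, ⟨.negSucc 11191796434, 36⟩, ⟨.negSucc 612147406, 35⟩, ⟨.ofNat 280399287, 35⟩, ⟨.ofNat 1841665, 32⟩], 0⟩,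
   ⟨[⟨.ofNat 34710250907, 36⟩, ⟨.ofNat 21129978251, 36⟩, ⟨.negSucc 30601004458, 36⟩, ⟨.negSucc 2806736178, 35⟩, ⟨.ofNat 280408751, 34⟩, ⟨.ofNat 12716588743, 36⟩, ⟨.negSucc 17410666, 31⟩, ⟨.negSucc 6566402, 31⟩, ⟨.ofNat 3380081, 33⟩], 0⟩,
   ⟨[⟨.negSucc 3933030388, 36⟩, ⟨.negSucc 2819764924, 35⟩, ⟨.ofNat 1690237129, 36⟩, ⟨.negSucc 7667563832, 34⟩, ⟨.ofNat 1031741683, 34⟩, ⟨.ofNat 3443077137, 36⟩, ⟨.negSucc 410319634, 36⟩, ⟨.ofNat 316867267, 36⟩, ⟨.negSucc 4891142, 34⟩], 0⟩,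
   ⟨[⟨.negSucc 1573271684, 36⟩, ⟨.negSucc 2582539126, 36⟩, ⟨.negSucc 128309690, 35⟩, ⟨.ofNat 4799123155, 36⟩, ⟨.negSucc 461526564, 36⟩, ⟨.ofNat 608408647, 36⟩, ⟨.negSucc 80048790, 35⟩, ⟨.negSucc 14777596, 36⟩, ⟨.ofNat 1169633, 34⟩], 0⟩]

def LB1E_6 : List Sym :=
  [⟨[⟨.ofNat 25436311, 35⟩, ⟨.negSucc 208074696, 35⟩, ⟨.negSucc 23413056, 36⟩, ⟨.ofNat 792666977, 35⟩, ⟨.ofNat 8868325, 36⟩, ⟨.negSucc 1248542242, 36⟩, ⟨.ofNat 773471, 34⟩, ⟨.ofNat 8735109, 36⟩, ⟨.negSucc 241908, 32⟩], 0⟩,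
   ⟨[⟨.ofNat 1, 36⟩, ⟨.ofNat 15205407, 36⟩, ⟨.ofNat 5629, 35⟩, ⟨.negSucc 7756528, 33⟩, ⟨.ofNat 23997, 33⟩, ⟨.ofNat 68676289, 36⟩, ⟨.ofNat 534171, 35⟩, ⟨.negSucc 5754252, 34⟩, ⟨.ofNat 390273, 36⟩], 0⟩,
   ⟨[⟨.ofNat 77488930887, 35⟩, ⟨.negSucc 37301979754, 35⟩, ⟨.ofNat 2551914935, 36⟩, ⟨.negSucc 17510317618, 34⟩, ⟨.ofNat 129720886605, 36⟩, ⟨.negSucc 3955039812, 35⟩, ⟨.negSucc 89314594, 31⟩, ⟨.ofNat 381870131, 35⟩, ⟨.negSucc 47282038, 36⟩], 0⟩,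
   ⟨[⟨.ofNat 4252546681, 35⟩, ⟨.negSucc 80814379058, 36⟩, ⟨.negSucc 310409743126, 36⟩, ⟨.negSucc 31540894748, 35⟩, ⟨.ofNat 136370363, 28⟩, ⟨.negSucc 10037772784, 36⟩, ⟨.ofNat 8346297813, 36⟩, ⟨.ofNat 139004303, 36⟩, ⟨.negSucc 44560728, 35⟩], 0⟩,
   ⟨[⟨.ofNat 34667970263, 35⟩, ⟨.ofNat 4386570971, 36⟩, ⟨.negSucc 11013243754, 36⟩, ⟨.ofNat 7824778895, 36⟩, ⟨.negSucc 25877497206, 36⟩, ⟨.ofNat 237183055, 35⟩, ⟨.ofNat 1454108855, 35⟩, ⟨.negSucc 98531188, 36⟩, ⟨.ofNat 202433323, 36⟩], 0⟩,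
   ⟨[⟨.negSucc 52578839936, 36⟩, ⟨.negSucc 5882093242, 36⟩, ⟨.ofNat 11479910947, 35⟩, ⟨.negSucc 2442934550, 34⟩, ⟨.ofNat 9984734971, 35⟩, ⟨.ofNat 191534885, 34⟩, ⟨.ofNat 8559571, 33⟩, ⟨.negSucc 96136626, 36⟩, ⟨.ofNat 44926901, 36⟩], 0⟩,
   ⟨[⟨.ofNat 9493686283, 36⟩, ⟨.negSucc 4499169040, 36⟩, ⟨.negSucc 7347675198, 36⟩, ⟨.ofNat 464161427, 32⟩, ⟨.negSucc 3478337826, 35⟩, ⟨.ofNat 39148589, 36⟩, ⟨.ofNat 205069715, 36⟩, ⟨.negSucc 7885162, 35⟩, ⟨.negSucc 2245690, 35⟩], 0⟩,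
   ⟨[⟨.ofNat 3844558989, 35⟩, ⟨.negSucc 189982492, 36⟩, ⟨.ofNat 1329609839, 36⟩, ⟨.ofNat 712543521, 36⟩, ⟨.ofNat 1657367329, 35⟩, ⟨.negSucc 635625718, 36⟩, ⟨.negSucc 55557328, 36⟩, ⟨.negSucc 7466318, 35⟩, ⟨.negSucc 4409272, 36⟩], 0⟩,
   ⟨[⟨.negSucc 241508472, 36⟩, ⟨.ofNat 2194689, 34⟩, ⟨.ofNat 89753915, 36⟩, ⟨.negSucc 35850146, 36⟩, ⟨.negSucc 15806202, 35⟩, ⟨.ofNat 19650893, 35⟩, ⟨.ofNat 4565477, 34⟩, ⟨.negSucc 13804730, 36⟩, ⟨.ofNat 41957, 30⟩], 0⟩,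
   ⟨[⟨.ofNat 3825048419, 32⟩, ⟨.ofNat 193281640203, 36⟩, ⟨.negSucc 2178416166, 32⟩, ⟨.ofNat 129741447185, 36⟩, ⟨.negSucc 5749590458, 35⟩, ⟨.ofNat 1552479581, 36⟩, ⟨.ofNat 1694166357, 36⟩, ⟨.negSucc 466832920, 36⟩, ⟨.ofNat 18572395, 35⟩], 0⟩,
   ⟨[⟨.ofNat 25525371855, 35⟩, ⟨.negSucc 4421391082, 35⟩, ⟨.negSucc 20943397424, 35⟩, ⟨.ofNat 12250940031, 36⟩, ⟨.negSucc 1263884620, 33⟩, ⟨.ofNat 17487898037, 36⟩, ⟨.negSucc 1140349272, 36⟩, ⟨.ofNat 259224897, 36⟩, ⟨.negSucc 33791616, 36⟩], 0⟩,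
   ⟨[⟨.negSucc 15715798034, 36⟩, ⟨.negSucc 1209374198, 33⟩, ⟨.negSucc 1097489248, 35⟩, ⟨.negSucc 31317098484, 36⟩, ⟨.ofNat 5314761229, 35⟩, ⟨.negSucc 633025480, 36⟩, ⟨.negSucc 600669304, 36⟩, ⟨.ofNat 250589129, 34⟩, ⟨.negSucc 24832538, 34⟩], 0⟩,
   ⟨[⟨.ofNat 371044637, 31⟩, ⟨.negSucc 9449173892, 36⟩, ⟨.negSucc 1845800688, 35⟩, ⟨.ofNat 7347730123, 35⟩, ⟨.negSucc 1267553186, 34⟩, ⟨.ofNat 620916179, 34⟩, ⟨.negSucc 765492, 31⟩, ⟨.negSucc 153520528, 36⟩, ⟨.ofNat 26194917, 36⟩], 0⟩,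
   ⟨[⟨.ofNat 4231408715, 36⟩, ⟨.ofNat 1153449845, 33⟩, ⟨.ofNat 813924905, 36⟩, ⟨.negSucc 4165783470, 35⟩, ⟨.ofNat 64739503, 31⟩, ⟨.negSucc 606182536, 35⟩, ⟨.negSucc 33046100, 35⟩, ⟨.ofNat 20203591, 35⟩, ⟨.negSucc 2083064, 35⟩], 0⟩,
   ⟨[⟨.negSucc 139434980, 36⟩, ⟨.negSucc 33379630, 35⟩, ⟨.ofNat 3238797, 32⟩, ⟨.ofNat 24626355, 32⟩, ⟨.negSucc 18189692, 36⟩, ⟨.negSucc 17912710, 36⟩, ⟨.ofNat 336423, 31⟩, ⟨.negSucc 26597040, 36⟩, ⟨.ofNat 195099, 33⟩], 0⟩,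
   ⟨[⟨.negSucc 296130382, 33⟩, ⟨.negSucc 2838590296, 35⟩, ⟨.ofNat 670085341, 36⟩, ⟨.ofNat 6197994491, 36⟩, ⟨.ofNat 7377261051, 36⟩, ⟨.ofNat 1261965425, 35⟩, ⟨.ofNat 177519623, 34⟩, ⟨.ofNat 350958727, 36⟩, ⟨.negSucc 16838700, 34⟩], 0⟩]

def LB1E_7 : List Sym :=
  [⟨[⟨.negSucc 65849073562, 36⟩, ⟨.negSucc 1233079140, 36⟩, ⟨.ofNat 47830611599, 36⟩, ⟨.negSucc 2378446198, 35⟩, ⟨.ofNat 5268169611, 35⟩, ⟨.negSucc 926824696, 34⟩, ⟨.ofNat 250843837, 34⟩, ⟨.ofNat 356599901, 36⟩, ⟨.negSucc 4021972, 32⟩], 0⟩,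
   ⟨[⟨.ofNat 15627716589, 36⟩, ⟨.negSucc 3320526750, 35⟩, ⟨.negSucc 5829080470, 36⟩, ⟨.ofNat 10300712689, 36⟩, ⟨.negSucc 42151934, 28⟩, ⟨.ofNat 811661405, 35⟩, ⟨.ofNat 698985313, 36⟩, ⟨.negSucc 113658606, 36⟩, ⟨.ofNat 8930219, 35⟩], 0⟩,
   ⟨[⟨.negSucc 149616384, 34⟩, ⟨.ofNat 692852933, 33⟩, ⟨.ofNat 3648288681, 36⟩, ⟨.negSucc 4928869804, 36⟩, ⟨.ofNat 5326565335, 36⟩, ⟨.negSucc 672111438, 36⟩, ⟨.negSucc 35812666, 34⟩, ⟨.ofNat 2570477, 33⟩, ⟨.ofNat 1364875, 35⟩], 0⟩,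
   ⟨[⟨.ofNat 1394439, 34⟩, ⟨.negSucc 38543448, 36⟩, ⟨.ofNat 110240857, 36⟩, ⟨.ofNat 227496097, 36⟩, ⟨.negSucc 291708712, 36⟩, ⟨.negSucc 2559714, 34⟩, ⟨.ofNat 63806327, 36⟩, ⟨.negSucc 15219848, 36⟩, ⟨.ofNat 2301177, 36⟩], 0⟩,
   ⟨[⟨.negSucc 6645177882, 35⟩, ⟨.negSucc 1505641454, 34⟩, ⟨.ofNat 4952999667, 35⟩, ⟨.negSucc 328789822, 32⟩, ⟨.ofNat 769383827, 34⟩, ⟨.ofNat 1309852591, 35⟩, ⟨.ofNat 674241975, 36⟩, ⟨.ofNat 17306519, 34⟩, ⟨.negSucc 43306444, 36⟩], 0⟩,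
   ⟨[⟨.ofNat 4000795551, 34⟩, ⟨.negSucc 11291642154, 36⟩, ⟨.negSucc 1882818016, 36⟩, ⟨.ofNat 8087926319, 36⟩, ⟨.negSucc 6646974656, 36⟩, ⟨.ofNat 781254081, 35⟩, ⟨.ofNat 182956333, 36⟩, ⟨.ofNat 63606007, 36⟩, ⟨.negSucc 2315924, 36⟩], 0⟩,
   ⟨[⟨.negSucc 290351330, 35⟩, ⟨.ofNat 154827803, 30⟩, ⟨.ofNat 2189787117, 36⟩, ⟨.negSucc 4923296396, 35⟩, ⟨.ofNat 3163558255, 36⟩, ⟨.negSucc 116422160, 36⟩, ⟨.negSucc 117547332, 36⟩, ⟨.ofNat 19219601, 34⟩, ⟨.negSucc 1578078, 34⟩], 0⟩,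
   ⟨[⟨.ofNat 1610159, 35⟩, ⟨.negSucc 286725394, 36⟩, ⟨.ofNat 63644823, 36⟩, ⟨.ofNat 66691571, 33⟩, ⟨.negSucc 168564790, 36⟩, ⟨.negSucc 25531730, 35⟩, ⟨.ofNat 36112207, 36⟩, ⟨.negSucc 6213350, 36⟩, ⟨.ofNat 467801, 35⟩], 0⟩,
   ⟨[⟨.ofNat 1092534415, 36⟩, ⟨.negSucc 2256409772, 35⟩, ⟨.negSucc 602674608, 36⟩, ⟨.ofNat 1870569681, 36⟩, ⟨.negSucc 297628110, 36⟩, ⟨.ofNat 612562327, 35⟩, ⟨.ofNat 19118753, 34⟩, ⟨.ofNat 3448249, 35⟩, ⟨.negSucc 13758718, 36⟩], 0⟩,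
   ⟨[⟨.negSucc 8148414346, 36⟩, ⟨.ofNat 733756933, 33⟩, ⟨.ofNat 2231107289, 36⟩, ⟨.negSucc 2796907424, 35⟩, ⟨.ofNat 220988821, 33⟩, ⟨.negSucc 130644792, 36⟩, ⟨.ofNat 2156119, 33⟩, ⟨.ofNat 6174989, 33⟩, ⟨.negSucc 1000758, 33⟩], 0⟩,
   ⟨[⟨.ofNat 61771557, 34⟩, ⟨.negSucc 165540932, 36⟩, ⟨.ofNat 5124935, 34⟩, ⟨.ofNat 308048807, 36⟩, ⟨.negSucc 260107490, 36⟩, ⟨.negSucc 29289886, 36⟩, ⟨.ofNat 45823981, 36⟩, ⟨.negSucc 1657866, 35⟩, ⟨.negSucc 386400, 36⟩], 0⟩,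
   ⟨[⟨.negSucc 585660458, 33⟩, ⟨.ofNat 27566663, 36⟩, ⟨.ofNat 653791153, 35⟩, ⟨.negSucc 13222442, 36⟩, ⟨.ofNat 962317685, 36⟩, ⟨.negSucc 1956018, 35⟩, ⟨.ofNat 28385379, 36⟩, ⟨.ofNat 561875, 36⟩, ⟨.negSucc 1471596, 35⟩], 0⟩,
   ⟨[⟨.ofNat 35663825, 34⟩, ⟨.negSucc 204760724, 36⟩, ⟨.ofNat 11835329, 36⟩, ⟨.ofNat 77458655, 36⟩, ⟨.negSucc 75091560, 35⟩, ⟨.ofNat 17762769, 35⟩, ⟨.ofNat 26415013, 36⟩, ⟨.negSucc 1316660, 35⟩, ⟨.negSucc 234916, 36⟩], 0⟩,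
   ⟨[⟨.ofNat 0, 0⟩, ⟨.negSucc 29554668, 34⟩, ⟨.negSucc 60, 33⟩, ⟨.ofNat 11179115, 34⟩, ⟨.negSucc 26116, 36⟩, ⟨.ofNat 20450733, 36⟩, ⟨.negSucc 65864, 35⟩, ⟨.negSucc 1603192, 36⟩, ⟨.negSucc 74330, 36⟩], 0⟩]

def LB1E_L : List (List Sym) := [LB1E_0, LB1E_1, LB1E_2, LB1E_3, LB1E_4, LB1E_5, LB1E_6, LB1E_7]

noncomputable def LB1E (i : Nat) : Sym := sym16 LB1E_L i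

end Pool.H61.Rh
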