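import Pool.Agent.H47.K3.Defs

/-! # generated: level-3 table LB1R (polynomials in θ, exact) -/

set_option autoImplicit false

namespace Pool.H61.Rh

open Pool.H47.Kc Pool.H47.K3

def LB1R_0 : List Sym :=
  [⟨[⟨.ofNat 1817384833, 32⟩, ⟨.negSucc 277828028, 31⟩, ⟨.negSucc 153635834, 32⟩, ⟨.ofNat 3675029, 30⟩, ⟨.ofNat 1673827, 28⟩, ⟨.negSucc 7459922, 32⟩, ⟨.ofNat 112495, 31⟩], 0⟩,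
   ⟨[⟨.ofNat 1330018427, 31⟩, ⟨.ofNat 50690447, 31⟩, ⟨.negSucc 389911882, 32⟩, ⟨.negSucc 163394336, 32⟩, ⟨.ofNat 169937343, 32⟩, ⟨.negSucc 38590714, 32⟩, ⟨.ofNat 264483, 29⟩], 0⟩,
   ⟨[⟨.ofNat 1103623425, 32⟩, ⟨.negSucc 368292782, 32⟩, ⟨.negSucc 257461792, 31⟩, ⟨.negSucc 69123054, 32⟩, ⟨.ofNat 91522397, 32⟩, ⟨.ofNat 109464601, 32⟩, ⟨.negSucc 23474810, 31⟩], 0⟩,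
   ⟨[⟨.ofNat 770764087, 32⟩, ⟨.negSucc 720517874, 32⟩, ⟨.negSucc 465837564, 32⟩, ⟨.ofNat 477211705, 32⟩, ⟨.ofNat 9650793, 32⟩, ⟨.negSucc 37968026, 32⟩, ⟨.negSucc 12135486, 32⟩], 0⟩,
   ⟨[⟨.ofNat 88784993, 30⟩, ⟨.negSucc 116733178, 32⟩, ⟨.negSucc 56328004, 31⟩, ⟨.ofNat 22989591, 28⟩, ⟨.ofNat 83663417, 32⟩, ⟨.negSucc 83437210, 31⟩, ⟨.ofNat 8054803, 31⟩], 0⟩,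
   ⟨[⟨.ofNat 83215393, 32⟩, ⟨.ofNat 81677489, 30⟩, ⟨.ofNat 1806755, 28⟩, ⟨.negSucc 236073716, 32⟩, ⟨.ofNat 24133173, 32⟩, ⟨.negSucc 17816418, 31⟩, ⟨.ofNat 17313543, 32⟩], 0⟩,
   ⟨[⟨.negSucc 2906194, 32⟩, ⟨.ofNat 21786625, 32⟩, ⟨.ofNat 300745, 30⟩, ⟨.negSucc 49124462, 31⟩, ⟨.ofNat 184099, 30⟩, ⟨.ofNat 76793123, 32⟩, ⟨.ofNat 100761, 31⟩], 0⟩,
   ⟨[⟨.ofNat 165, 32⟩, ⟨.negSucc 978662, 32⟩, ⟨.ofNat 32365, 29⟩, ⟨.ofNat 583341, 30⟩, ⟨.ofNat 556473, 29⟩, ⟨.negSucc 680336, 28⟩, ⟨.ofNat 2393365, 31⟩], 0⟩,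
   ⟨[⟨.negSucc 3749183034, 32⟩, ⟨.negSucc 535935602, 31⟩, ⟨.ofNat 183929981, 30⟩, ⟨.ofNat 34204737, 31⟩, ⟨.negSucc 13657640, 31⟩, ⟨.negSucc 7876976, 31⟩, ⟨.ofNat 533443, 29⟩], 0⟩,
   ⟨[⟨.negSucc 1065003782, 31⟩, ⟨.negSucc 35937560, 28⟩, ⟨.ofNat 131028201, 31⟩, ⟨.ofNat 689271473, 32⟩, ⟨.negSucc 266115512, 32⟩, ⟨.negSucc 50091684, 31⟩, ⟨.ofNat 65259257, 32⟩], 0⟩,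
   ⟨[⟨.negSucc 319444996, 31⟩, ⟨.ofNat 723916293, 32⟩, ⟨.ofNat 26319679, 29⟩, ⟨.ofNat 303984081, 31⟩, ⟨.ofNat 22991029, 32⟩, ⟨.negSucc 52033892, 31⟩, ⟨.negSucc 1001952, 29⟩], 0⟩,
   ⟨[⟨.ofNat 1102801867, 32⟩, ⟨.ofNat 264472143, 32⟩, ⟨.ofNat 973997, 32⟩, ⟨.negSucc 102151448, 30⟩, ⟨.negSucc 20669192, 30⟩, ⟨.negSucc 527968, 27⟩, ⟨.ofNat 13363691, 32⟩], 0⟩,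
   ⟨[⟨.negSucc 117676766, 30⟩, ⟨.ofNat 371491025, 32⟩, ⟨.ofNat 199201743, 31⟩, ⟨.negSucc 424294658, 32⟩, ⟨.ofNat 252218929, 32⟩, ⟨.negSucc 4175864, 31⟩, ⟨.ofNat 812167, 27⟩], 0⟩,
   ⟨[⟨.negSucc 482614688, 32⟩, ⟨.ofNat 9397359, 32⟩, ⟨.negSucc 19689864, 30⟩, ⟨.negSucc 11646862, 30⟩, ⟨.negSucc 48662260, 30⟩, ⟨.ofNat 29018199, 32⟩, ⟨.ofNat 8200649, 32⟩], 0⟩,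
   ⟨[⟨.ofNat 15101373, 32⟩, ⟨.negSucc 559068, 32⟩, ⟨.negSucc 5552966, 32⟩, ⟨.ofNat 1893311, 32⟩, ⟨.ofNat 3108557, 32⟩, ⟨.negSucc 1088852, 30⟩, ⟨.ofNat 626979, 32⟩], 0⟩,
   ⟨[⟨.ofNat 9716235, 28⟩, ⟨.ofNat 418602649, 30⟩, ⟨.negSucc 192022866, 31⟩, ⟨.ofNat 116074013, 32⟩, ⟨.negSucc 92106414, 32⟩, ⟨.ofNat 33349845, 32⟩, ⟨.negSucc 11525776, 32⟩], 0⟩]

def LB1R_1 : List Sym :=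
  [⟨[⟨.ofNat 186107049, 32⟩, ⟨.negSucc 422665988, 30⟩, ⟨.ofNat 132649247, 31⟩, ⟨.negSucc 9289628, 26⟩, ⟨.negSucc 117705362, 31⟩, ⟨.ofNat 82879563, 32⟩, ⟨.ofNat 10476963, 30⟩], 0⟩,
   ⟨[⟨.negSucc 367792646, 32⟩, ⟨.ofNat 400747341, 32⟩, ⟨.ofNat 1101763215, 32⟩, ⟨.ofNat 331241601, 32⟩, ⟨.ofNat 6046695, 32⟩, ⟨.negSucc 6212258, 32⟩, ⟨.ofNat 5788439, 32⟩], 0⟩,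
   ⟨[⟨.negSucc 20938840, 27⟩, ⟨.ofNat 517173275, 32⟩, ⟨.ofNat 24609891, 29⟩, ⟨.negSucc 364416156, 31⟩, ⟨.ofNat 108421975, 31⟩, ⟨.negSucc 60271714, 31⟩, ⟨.ofNat 35965315, 32⟩], 0⟩,
   ⟨[⟨.negSucc 265637740, 32⟩, ⟨.negSucc 574518974, 32⟩, ⟨.negSucc 48660716, 32⟩, ⟨.ofNat 517638339, 32⟩, ⟨.negSucc 31909432, 30⟩, ⟨.ofNat 74533627, 32⟩, ⟨.ofNat 30397, 27⟩], 0⟩,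
   ⟨[⟨.ofNat 2179731, 30⟩, ⟨.ofNat 2079403, 31⟩, ⟨.negSucc 2983396, 32⟩, ⟨.negSucc 6543156, 30⟩, ⟨.ofNat 5613875, 32⟩, ⟨.negSucc 2809230, 31⟩, ⟨.ofNat 4443263, 32⟩], 0⟩,
   ⟨[⟨.ofNat 240804213, 31⟩, ⟨.negSucc 197167314, 32⟩, ⟨.ofNat 638986821, 32⟩, ⟨.negSucc 140886658, 32⟩, ⟨.negSucc 15144728, 31⟩, ⟨.ofNat 8919025, 28⟩, ⟨.negSucc 80495868, 32⟩], 0⟩,
   ⟨[⟨.ofNat 1620200773, 32⟩, ⟨.ofNat 33770443, 30⟩, ⟨.negSucc 393019202, 30⟩, ⟨.negSucc 716244700, 32⟩, ⟨.negSucc 50114266, 31⟩, ⟨.ofNat 226636685, 32⟩, ⟨.negSucc 2067534, 29⟩], 0⟩,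
   ⟨[⟨.negSucc 413021642, 31⟩, ⟨.ofNat 183623867, 31⟩, ⟨.ofNat 142843785, 31⟩, ⟨.negSucc 266361562, 31⟩, ⟨.ofNat 513602729, 32⟩, ⟨.negSucc 23777394, 30⟩, ⟨.ofNat 1365543, 31⟩], 0⟩,
   ⟨[⟨.ofNat 8781305, 30⟩, ⟨.negSucc 43145518, 29⟩, ⟨.negSucc 227805840, 32⟩, ⟨.ofNat 153428219, 31⟩, ⟨.negSucc 164074672, 31⟩, ⟨.ofNat 21581401, 31⟩, ⟨.ofNat 5217251, 32⟩], 0⟩,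
   ⟨[⟨.negSucc 174358, 31⟩, ⟨.ofNat 2404833, 32⟩, ⟨.negSucc 6819216, 32⟩, ⟨.negSucc 1845906, 29⟩, ⟨.ofNat 9960071, 31⟩, ⟨.negSucc 2026224, 32⟩, ⟨.negSucc 1721154, 32⟩], 0⟩,
   ⟨[⟨.negSucc 37440722, 28⟩, ⟨.ofNat 204007077, 31⟩, ⟨.ofNat 111025105, 31⟩, ⟨.ofNat 333904871, 32⟩, ⟨.ofNat 51493407, 31⟩, ⟨.negSucc 36629696, 30⟩, ⟨.negSucc 24882310, 32⟩], 0⟩,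
   ⟨[⟨.negSucc 456790998, 31⟩, ⟨.ofNat 471895747, 32⟩, ⟨.ofNat 37143833, 31⟩, ⟨.negSucc 47326938, 29⟩, ⟨.ofNat 297348103, 32⟩, ⟨.negSucc 8786754, 30⟩, ⟨.negSucc 3037172, 30⟩], 0⟩,
   ⟨[⟨.ofNat 17492421, 31⟩, ⟨.negSucc 612863876, 32⟩, ⟨.negSucc 137106530, 32⟩, ⟨.ofNat 306731551, 31⟩, ⟨.negSucc 201771614, 32⟩, ⟨.ofNat 16400991, 32⟩, ⟨.negSucc 3324452, 32⟩], 0⟩,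
   ⟨[⟨.negSucc 201340, 32⟩, ⟨.ofNat 8969231, 31⟩, ⟨.negSucc 1975790, 31⟩, ⟨.negSucc 33584706, 32⟩, ⟨.ofNat 11238115, 32⟩, ⟨.ofNat 1034487, 31⟩, ⟨.negSucc 1316764, 32⟩], 0⟩,
   ⟨[⟨.negSucc 68315182, 32⟩, ⟨.ofNat 147464011, 32⟩, ⟨.ofNat 38466337, 32⟩, ⟨.negSucc 1502024, 27⟩, ⟨.ofNat 21844297, 32⟩, ⟨.negSucc 7246844, 29⟩, ⟨.negSucc 3491572, 32⟩], 0⟩,
   ⟨[⟨.ofNat 509513931, 32⟩, ⟨.negSucc 363161490, 32⟩, ⟨.negSucc 143822216, 32⟩, ⟨.ofNat 348319955, 32⟩, ⟨.negSucc 56247628, 31⟩, ⟨.ofNat 13113827, 32⟩, ⟨.negSucc 6232282, 32⟩], 0⟩]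

def LB1R_2 : List Sym :=
  [⟨[⟨.negSucc 15450076, 32⟩, ⟨.ofNat 2588659, 30⟩, ⟨.negSucc 1244038, 32⟩, ⟨.negSucc 19585904, 32⟩, ⟨.ofNat 8594475, 31⟩, ⟨.ofNat 505709, 32⟩, ⟨.negSucc 489012, 30⟩], 0⟩,
   ⟨[⟨.ofNat 292967233, 32⟩, ⟨.negSucc 864486, 31⟩, ⟨.negSucc 84038870, 32⟩, ⟨.ofNat 173363, 31⟩, ⟨.negSucc 57577844, 32⟩, ⟨.negSucc 1421852, 32⟩, ⟨.negSucc 581110, 32⟩], 0⟩,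
   ⟨[⟨.negSucc 2230024, 30⟩, ⟨.ofNat 12800993, 32⟩, ⟨.negSucc 709264, 32⟩, ⟨.negSucc 2539356, 31⟩, ⟨.ofNat 1259503, 29⟩, ⟨.negSucc 3197954, 32⟩, ⟨.negSucc 486648, 31⟩], 0⟩,
   ⟨[⟨.ofNat 7, 31⟩, ⟨.ofNat 7390733, 32⟩, ⟨.ofNat 22211, 32⟩, ⟨.negSucc 1462668, 31⟩, ⟨.ofNat 377365, 32⟩, ⟨.negSucc 1823478, 32⟩, ⟨.ofNat 196041, 31⟩], 0⟩,
   ⟨[⟨.negSucc 104463466, 30⟩, ⟨.ofNat 1069933401, 32⟩, ⟨.ofNat 58896767, 31⟩, ⟨.ofNat 115648253, 31⟩, ⟨.ofNat 13346443, 31⟩, ⟨.negSucc 195740244, 32⟩, ⟨.ofNat 15529467, 31⟩], 0⟩,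
   ⟨[⟨.negSucc 1153420190, 32⟩, ⟨.ofNat 34134177, 27⟩, ⟨.ofNat 420118927, 31⟩, ⟨.ofNat 239433653, 32⟩, ⟨.negSucc 43670774, 32⟩, ⟨.negSucc 257330612, 32⟩, ⟨.ofNat 34647477, 31⟩], 0⟩,
   ⟨[⟨.negSucc 169164928, 29⟩, ⟨.negSucc 991105050, 32⟩, ⟨.ofNat 616391513, 31⟩, ⟨.negSucc 522973666, 31⟩, ⟨.negSucc 3634686, 26⟩, ⟨.ofNat 421259883, 32⟩, ⟨.negSucc 18732628, 32⟩], 0⟩,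
   ⟨[⟨.negSucc 557151602, 32⟩, ⟨.negSucc 1393865674, 32⟩, ⟨.ofNat 135565631, 32⟩, ⟨.negSucc 291906020, 31⟩, ⟨.negSucc 92445264, 32⟩, ⟨.ofNat 300759323, 32⟩, ⟨.negSucc 13356648, 30⟩], 0⟩,
   ⟨[⟨.ofNat 31443279, 30⟩, ⟨.ofNat 42332189, 29⟩, ⟨.negSucc 100462000, 30⟩, ⟨.ofNat 162583431, 30⟩, ⟨.ofNat 69370865, 32⟩, ⟨.negSucc 91509204, 31⟩, ⟨.negSucc 8592502, 32⟩], 0⟩,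
   ⟨[⟨.negSucc 813396, 30⟩, ⟨.ofNat 5150089, 25⟩, ⟨.ofNat 12824577, 32⟩, ⟨.ofNat 25206357, 30⟩, ⟨.negSucc 10266292, 31⟩, ⟨.negSucc 8916180, 30⟩, ⟨.negSucc 1319446, 29⟩], 0⟩,
   ⟨[⟨.negSucc 70, 31⟩, ⟨.negSucc 20329894, 32⟩, ⟨.negSucc 222250, 32⟩, ⟨.ofNat 9365415, 32⟩, ⟨.negSucc 1910530, 31⟩, ⟨.ofNat 9564159, 32⟩, ⟨.negSucc 4107818, 32⟩], 0⟩,
   ⟨[⟨.ofNat 1695819029, 32⟩, ⟨.negSucc 730887060, 31⟩, ⟨.negSucc 354080698, 32⟩, ⟨.negSucc 455000826, 32⟩, ⟨.negSucc 348825702, 32⟩, ⟨.ofNat 145601959, 31⟩, ⟨.ofNat 18140547, 31⟩], 0⟩,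
   ⟨[⟨.ofNat 381820027, 32⟩, ⟨.negSucc 1728345212, 32⟩, ⟨.negSucc 39832378, 32⟩, ⟨.negSucc 437030778, 31⟩, ⟨.negSucc 227750774, 31⟩, ⟨.ofNat 122532589, 30⟩, ⟨.negSucc 82169498, 32⟩], 0⟩,
   ⟨[⟨.ofNat 353453735, 32⟩, ⟨.ofNat 105399741, 30⟩, ⟨.negSucc 978722456, 31⟩, ⟨.ofNat 613350741, 32⟩, ⟨.ofNat 51046349, 28⟩, ⟨.negSucc 64697864, 31⟩, ⟨.negSucc 27899018, 30⟩], 0⟩,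
   ⟨[⟨.ofNat 1093718335, 32⟩, ⟨.ofNat 430561749, 31⟩, ⟨.negSucc 265574602, 30⟩, ⟨.ofNat 1203859593, 32⟩, ⟨.ofNat 7652243, 31⟩, ⟨.negSucc 139528772, 31⟩, ⟨.ofNat 20556217, 32⟩], 0⟩,
   ⟨[⟨.negSucc 201897104, 31⟩, ⟨.ofNat 180708297, 31⟩, ⟨.ofNat 1676586121, 32⟩, ⟨.ofNat 37594121, 32⟩, ⟨.negSucc 199393618, 32⟩, ⟨.ofNat 6632647, 31⟩, ⟨.negSucc 21428056, 32⟩], 0⟩]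

def LB1R_3 : List Sym :=
  [⟨[⟨.ofNat 11269153, 32⟩, ⟨.negSucc 2935792, 30⟩, ⟨.negSucc 19381708, 31⟩, ⟨.ofNat 76339, 26⟩, ⟨.ofNat 2118623, 28⟩, ⟨.ofNat 1844025, 31⟩, ⟨.negSucc 3273830, 31⟩], 0⟩,
   ⟨[⟨.negSucc 143424524, 31⟩, ⟨.negSucc 61896040, 31⟩, ⟨.ofNat 37199165, 29⟩, ⟨.negSucc 778269352, 32⟩, ⟨.ofNat 190705625, 31⟩, ⟨.ofNat 211967491, 31⟩, ⟨.negSucc 89575100, 31⟩], 0⟩,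
   ⟨[⟨.ofNat 182492427, 31⟩, ⟨.ofNat 55954817, 32⟩, ⟨.negSucc 486052882, 31⟩, ⟨.negSucc 622248322, 32⟩, ⟨.ofNat 22701471, 27⟩, ⟨.negSucc 160573832, 31⟩, ⟨.negSucc 31417250, 31⟩], 0⟩,
   ⟨[⟨.ofNat 598949565, 32⟩, ⟨.ofNat 555816611, 32⟩, ⟨.negSucc 444411052, 32⟩, ⟨.ofNat 845912909, 31⟩, ⟨.negSucc 87746842, 32⟩, ⟨.negSucc 203456206, 31⟩, ⟨.ofNat 15177767, 30⟩], 0⟩,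
   ⟨[⟨.negSucc 232254562, 32⟩, ⟨.ofNat 28302211, 30⟩, ⟨.ofNat 490813461, 31⟩, ⟨.negSucc 902856754, 32⟩, ⟨.negSucc 85818412, 32⟩, ⟨.ofNat 309957723, 32⟩, ⟨.negSucc 1525142, 28⟩], 0⟩,
   ⟨[⟨.ofNat 406679, 28⟩, ⟨.negSucc 1562610, 29⟩, ⟨.negSucc 21414514, 32⟩, ⟨.ofNat 7865641, 29⟩, ⟨.ofNat 36149997, 32⟩, ⟨.negSucc 53151870, 32⟩, ⟨.ofNat 6989137, 31⟩], 0⟩,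
   ⟨[⟨.negSucc 1176552522, 32⟩, ⟨.ofNat 671729807, 31⟩, ⟨.ofNat 128567877, 32⟩, ⟨.ofNat 1155792579, 32⟩, ⟨.ofNat 489273755, 32⟩, ⟨.negSucc 733674848, 32⟩, ⟨.ofNat 66396047, 31⟩], 0⟩,
   ⟨[⟨.ofNat 521096325, 31⟩, ⟨.ofNat 958096249, 32⟩, ⟨.negSucc 299439716, 30⟩, ⟨.ofNat 26748287, 26⟩, ⟨.negSucc 116006742, 30⟩, ⟨.negSucc 365766674, 32⟩, ⟨.ofNat 172138699, 32⟩], 0⟩,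
   ⟨[⟨.negSucc 100189578, 30⟩, ⟨.ofNat 43969173, 32⟩, ⟨.ofNat 1686122905, 32⟩, ⟨.negSucc 269610072, 31⟩, ⟨.negSucc 119597188, 32⟩, ⟨.ofNat 159043735, 32⟩, ⟨.negSucc 8362008, 31⟩], 0⟩,
   ⟨[⟨.ofNat 5634651, 31⟩, ⟨.negSucc 899456, 29⟩, ⟨.negSucc 52809982, 32⟩, ⟨.ofNat 9579847, 30⟩, ⟨.ofNat 3989297, 30⟩, ⟨.negSucc 5918192, 30⟩, ⟨.ofNat 5382603, 31⟩], 0⟩,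
   ⟨[⟨.ofNat 445416283, 32⟩, ⟨.ofNat 11630179, 30⟩, ⟨.negSucc 58129240, 31⟩, ⟨.ofNat 122108877, 32⟩, ⟨.negSucc 389642744, 32⟩, ⟨.negSucc 58772034, 32⟩, ⟨.ofNat 39854205, 30⟩], 0⟩,
   ⟨[⟨.negSucc 227247576, 32⟩, ⟨.negSucc 33960060, 28⟩, ⟨.ofNat 487100643, 31⟩, ⟨.negSucc 124282752, 29⟩, ⟨.negSucc 1781736, 32⟩, ⟨.ofNat 249066361, 32⟩, ⟨.ofNat 16063891, 32⟩], 0⟩,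
   ⟨[⟨.ofNat 6506855, 32⟩, ⟨.ofNat 3921875, 31⟩, ⟨.negSucc 7418322, 30⟩, ⟨.ofNat 27454539, 31⟩, ⟨.ofNat 1452343, 28⟩, ⟨.negSucc 57960382, 32⟩, ⟨.ofNat 21249311, 32⟩], 0⟩,
   ⟨[⟨.ofNat 99, 30⟩, ⟨.negSucc 157860100, 31⟩, ⟨.ofNat 2559237, 32⟩, ⟨.negSucc 276385752, 31⟩, ⟨.ofNat 1860359, 29⟩, ⟨.ofNat 78321707, 31⟩, ⟨.ofNat 7218793, 31⟩], 0⟩,
   ⟨[⟨.ofNat 149, 32⟩, ⟨.ofNat 1136879, 30⟩, ⟨.negSucc 3511640, 30⟩, ⟨.ofNat 8358423, 30⟩, ⟨.negSucc 4485194, 30⟩, ⟨.negSucc 13680410, 31⟩, ⟨.ofNat 4328217, 30⟩], 0⟩,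
   ⟨[⟨.negSucc 150, 32⟩, ⟨.ofNat 14743, 32⟩, ⟨.negSucc 8481028, 32⟩, ⟨.ofNat 337341, 30⟩, ⟨.negSucc 16733570, 32⟩, ⟨.ofNat 2377823, 31⟩, ⟨.ofNat 1581609, 31⟩], 0⟩]

def LB1R_4 : List Sym :=
  [⟨[⟨.negSucc 2574987062, 32⟩, ⟨.ofNat 366035739, 31⟩, ⟨.ofNat 291037875, 31⟩, ⟨.negSucc 11969284, 28⟩, ⟨.ofNat 14428707, 30⟩, ⟨.negSucc 14819958, 29⟩, ⟨.ofNat 566197, 27⟩], 0⟩,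
   ⟨[⟨.negSucc 228316838, 29⟩, ⟨.ofNat 651052055, 32⟩, ⟨.ofNat 303269891, 30⟩, ⟨.negSucc 106368826, 31⟩, ⟨.negSucc 392438574, 32⟩, ⟨.negSucc 58971252, 32⟩, ⟨.ofNat 7542517, 30⟩], 0⟩,
   ⟨[⟨.ofNat 4839192257, 32⟩, ⟨.negSucc 183777682, 32⟩, ⟨.negSucc 798094392, 31⟩, ⟨.ofNat 91076343, 31⟩, ⟨.negSucc 387389420, 32⟩, ⟨.ofNat 223891513, 32⟩, ⟨.ofNat 3385549, 29⟩], 0⟩,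
   ⟨[⟨.ofNat 2259239159, 32⟩, ⟨.negSucc 166247364, 32⟩, ⟨.negSucc 1267534936, 32⟩, ⟨.negSucc 161021454, 32⟩, ⟨.ofNat 890548295, 32⟩, ⟨.ofNat 97880323, 32⟩, ⟨.negSucc 17202888, 31⟩], 0⟩,
   ⟨[⟨.negSucc 154309820, 28⟩, ⟨.negSucc 120441760, 31⟩, ⟨.ofNat 441280999, 31⟩, ⟨.negSucc 23156022, 28⟩, ⟨.ofNat 376667203, 32⟩, ⟨.negSucc 17420772, 31⟩, ⟨.negSucc 271732, 26⟩], 0⟩,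
   ⟨[⟨.negSucc 438080402, 32⟩, ⟨.ofNat 7520415, 32⟩, ⟨.ofNat 27278075, 29⟩, ⟨.ofNat 9645407, 32⟩, ⟨.negSucc 3715636, 25⟩, ⟨.ofNat 118611, 27⟩, ⟨.ofNat 1516091, 32⟩], 0⟩,
   ⟨[⟨.ofNat 972465, 28⟩, ⟨.negSucc 274, 30⟩, ⟨.negSucc 17366198, 32⟩, ⟨.negSucc 6226, 28⟩, ⟨.ofNat 19468065, 32⟩, ⟨.negSucc 341316, 32⟩, ⟨.negSucc 1958954, 30⟩], 0⟩,
   ⟨[⟨.ofNat 2674131479, 32⟩, ⟨.negSucc 500766742, 32⟩, ⟨.negSucc 216641736, 30⟩, ⟨.ofNat 111282277, 30⟩, ⟨.negSucc 75119706, 30⟩, ⟨.negSucc 69819690, 32⟩, ⟨.ofNat 93852997, 32⟩], 0⟩,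
   ⟨[⟨.ofNat 63465127, 26⟩, ⟨.ofNat 1651623241, 32⟩, ⟨.negSucc 280382646, 29⟩, ⟨.ofNat 1123405429, 32⟩, ⟨.negSucc 485010012, 32⟩, ⟨.ofNat 263007171, 32⟩, ⟨.ofNat 7920105, 31⟩], 0⟩,
   ⟨[⟨.negSucc 1406335190, 32⟩, ⟨.negSucc 1443108452, 32⟩, ⟨.negSucc 37650062, 31⟩, ⟨.negSucc 5604088, 24⟩, ⟨.ofNat 43059097, 29⟩, ⟨.ofNat 32398651, 28⟩, ⟨.negSucc 33445830, 30⟩], 0⟩,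
   ⟨[⟨.negSucc 3101840130, 32⟩, ⟨.negSucc 745522708, 32⟩, ⟨.ofNat 405747033, 30⟩, ⟨.negSucc 849409806, 32⟩, ⟨.ofNat 169336461, 31⟩, ⟨.negSucc 168395010, 31⟩, ⟨.negSucc 8565768, 30⟩], 0⟩,
   ⟨[⟨.negSucc 24923792, 29⟩, ⟨.ofNat 299884737, 31⟩, ⟨.ofNat 52107841, 32⟩, ⟨.ofNat 181429035, 29⟩, ⟨.negSucc 294019114, 32⟩, ⟨.negSucc 92497336, 32⟩, ⟨.negSucc 25197734, 32⟩], 0⟩,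
   ⟨[⟨.ofNat 8983051, 32⟩, ⟨.negSucc 32184002, 32⟩, ⟨.negSucc 2583356, 30⟩, ⟨.negSucc 21991308, 32⟩, ⟨.ofNat 5937915, 32⟩, ⟨.ofNat 23562751, 32⟩, ⟨.negSucc 10293590, 32⟩], 0⟩,
   ⟨[⟨.ofNat 1319824283, 31⟩, ⟨.negSucc 510416118, 31⟩, ⟨.negSucc 1770403664, 32⟩, ⟨.ofNat 429424731, 31⟩, ⟨.negSucc 25996400, 28⟩, ⟨.ofNat 559643635, 32⟩, ⟨.negSucc 26978494, 31⟩], 0⟩,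
   ⟨[⟨.negSucc 1413874022, 32⟩, ⟨.negSucc 1570068836, 32⟩, ⟨.ofNat 24491189, 26⟩, ⟨.negSucc 23894360, 31⟩, ⟨.ofNat 460054797, 32⟩, ⟨.ofNat 367514505, 32⟩, ⟨.negSucc 192948396, 32⟩], 0⟩,
   ⟨[⟨.negSucc 1744868902, 31⟩, ⟨.negSucc 183140970, 32⟩, ⟨.ofNat 1795935833, 32⟩, ⟨.negSucc 283143418, 31⟩, ⟨.ofNat 960898195, 32⟩, ⟨.negSucc 307596254, 32⟩, ⟨.negSucc 98206638, 32⟩], 0⟩]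

def LB1R_5 : List Sym :=
  [⟨[⟨.ofNat 1031053157, 31⟩, ⟨.ofNat 293135807, 32⟩, ⟨.negSucc 721378732, 31⟩, ⟨.ofNat 442033839, 31⟩, ⟨.negSucc 15275742, 26⟩, ⟨.negSucc 6334272, 30⟩, ⟨.negSucc 727000, 27⟩], 0⟩,
   ⟨[⟨.negSucc 29757156, 31⟩, ⟨.negSucc 4648564, 30⟩, ⟨.ofNat 89065377, 32⟩, ⟨.negSucc 3466960, 30⟩, ⟨.ofNat 20074643, 31⟩, ⟨.ofNat 4747637, 31⟩, ⟨.negSucc 2875918, 29⟩], 0⟩,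
   ⟨[⟨.negSucc 3964120656, 32⟩, ⟨.negSucc 593222852, 32⟩, ⟨.ofNat 534870379, 30⟩, ⟨.negSucc 33400598, 27⟩, ⟨.ofNat 259294761, 31⟩, ⟨.ofNat 268989147, 32⟩, ⟨.negSucc 161640648, 32⟩], 0⟩,
   ⟨[⟨.negSucc 3483549340, 32⟩, ⟨.ofNat 144583543, 30⟩, ⟨.ofNat 980023429, 31⟩, ⟨.negSucc 611455602, 31⟩, ⟨.ofNat 342184993, 31⟩, ⟨.negSucc 190008726, 31⟩, ⟨.negSucc 19445548, 30⟩], 0⟩,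
   ⟨[⟨.ofNat 1238258099, 32⟩, ⟨.ofNat 527288035, 32⟩, ⟨.negSucc 885235720, 32⟩, ⟨.ofNat 1522920597, 32⟩, ⟨.negSucc 35718902, 28⟩, ⟨.negSucc 72239068, 32⟩, ⟨.negSucc 38295116, 32⟩], 0⟩,
   ⟨[⟨.negSucc 34360620, 32⟩, ⟨.ofNat 937861, 27⟩, ⟨.ofNat 51396557, 32⟩, ⟨.negSucc 34229926, 31⟩, ⟨.ofNat 22693835, 32⟩, ⟨.ofNat 8423411, 32⟩, ⟨.negSucc 13958408, 32⟩], 0⟩,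
   ⟨[⟨.negSucc 82987966, 30⟩, ⟨.ofNat 388478219, 31⟩, ⟨.ofNat 114483123, 31⟩, ⟨.negSucc 369430400, 32⟩, ⟨.ofNat 7206419, 32⟩, ⟨.negSucc 161476184, 31⟩, ⟨.negSucc 7150248, 32⟩], 0⟩,
   ⟨[⟨.ofNat 2475783441, 32⟩, ⟨.ofNat 248544925, 32⟩, ⟨.negSucc 1584198146, 32⟩, ⟨.ofNat 453140491, 31⟩, ⟨.negSucc 252443814, 31⟩, ⟨.negSucc 37413016, 32⟩, ⟨.negSucc 4033478, 29⟩], 0⟩,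
   ⟨[⟨.negSucc 9384210, 29⟩, ⟨.ofNat 270617, 26⟩, ⟨.ofNat 106535115, 32⟩, ⟨.negSucc 20114296, 31⟩, ⟨.ofNat 22441149, 32⟩, ⟨.ofNat 2389603, 32⟩, ⟨.negSucc 6670296, 31⟩], 0⟩,
   ⟨[⟨.ofNat 1423559563, 32⟩, ⟨.negSucc 8406918, 32⟩, ⟨.negSucc 223109854, 30⟩, ⟨.ofNat 4028329, 32⟩, ⟨.negSucc 33547200, 29⟩, ⟨.negSucc 9349774, 32⟩, ⟨.negSucc 3121460, 32⟩], 0⟩,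
   ⟨[⟨.negSucc 5417958, 29⟩, ⟨.ofNat 62195555, 32⟩, ⟨.ofNat 964531, 26⟩, ⟨.negSucc 46468544, 32⟩, ⟨.ofNat 1047245, 28⟩, ⟨.negSucc 3784834, 30⟩, ⟨.negSucc 1832408, 31⟩], 0⟩,
   ⟨[⟨.ofNat 33, 31⟩, ⟨.ofNat 35912649, 32⟩, ⟨.ofNat 25885, 30⟩, ⟨.negSucc 13230190, 31⟩, ⟨.ofNat 1759929, 32⟩, ⟨.negSucc 1861746, 30⟩, ⟨.ofNat 915469, 31⟩], 0⟩,
   ⟨[⟨.negSucc 68054158, 31⟩, ⟨.ofNat 213, 31⟩, ⟨.negSucc 128675222, 32⟩, ⟨.ofNat 39631, 32⟩, ⟨.ofNat 3103229, 29⟩, ⟨.ofNat 145591, 32⟩, ⟨.negSucc 470348, 31⟩], 0⟩,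
   ⟨[⟨.ofNat 451728623, 31⟩, ⟨.negSucc 340, 27⟩, ⟨.negSucc 188916534, 31⟩, ⟨.negSucc 1000982, 32⟩, ⟨.ofNat 85802807, 32⟩, ⟨.negSucc 3549918, 32⟩, ⟨.negSucc 10677654, 31⟩], 0⟩,
   ⟨[⟨.ofNat 785181069, 32⟩, ⟨.ofNat 7605, 31⟩, ⟨.negSucc 224893704, 31⟩, ⟨.ofNat 1399343, 32⟩, ⟨.negSucc 13611380, 31⟩, ⟨.ofNat 2501507, 31⟩, ⟨.negSucc 186188, 28⟩], 0⟩,
   ⟨[⟨.ofNat 12646587, 29⟩, ⟨.ofNat 2989, 32⟩, ⟨.negSucc 41616504, 32⟩, ⟨.ofNat 274569, 32⟩, ⟨.ofNat 31760379, 30⟩, ⟨.ofNat 488601, 31⟩, ⟨.negSucc 285598, 32⟩], 0⟩]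

def LB1R_6 : List Sym :=
  [⟨[⟨.negSucc 4491622, 32⟩, ⟨.ofNat 317, 32⟩, ⟨.ofNat 2506595, 31⟩, ⟨.ofNat 28761, 32⟩, ⟨.negSucc 2809972, 31⟩, ⟨.ofNat 49265, 31⟩, ⟨.ofNat 1131003, 31⟩], 0⟩,
   ⟨[⟨.ofNat 25, 30⟩, ⟨.negSucc 559664336, 31⟩, ⟨.ofNat 39359, 30⟩, ⟨.ofNat 51808181, 31⟩, ⟨.ofNat 1368575, 31⟩, ⟨.negSucc 2176278, 31⟩, ⟨.ofNat 3037019, 32⟩], 0⟩,
   ⟨[⟨.ofNat 21, 31⟩, ⟨.ofNat 117730127, 29⟩, ⟨.ofNat 63115, 32⟩, ⟨.ofNat 201684071, 31⟩, ⟨.ofNat 223727, 30⟩, ⟨.negSucc 25508638, 32⟩, ⟨.ofNat 381367, 32⟩], 0⟩,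
   ⟨[⟨.negSucc 4, 29⟩, ⟨.ofNat 20812325, 32⟩, ⟨.negSucc 15706, 30⟩, ⟨.negSucc 192783592, 31⟩, ⟨.negSucc 561972, 31⟩, ⟨.ofNat 31781457, 32⟩, ⟨.negSucc 41980, 27⟩], 0⟩,
   ⟨[⟨.ofNat 1, 28⟩, ⟨.ofNat 3421803, 32⟩, ⟨.ofNat 24479, 32⟩, ⟨.ofNat 9035301, 32⟩, ⟨.ofNat 427503, 32⟩, ⟨.negSucc 1024482, 30⟩, ⟨.ofNat 479709, 32⟩], 0⟩,
   ⟨[⟨.negSucc 5153812, 28⟩, ⟨.ofNat 12427, 32⟩, ⟨.negSucc 400357222, 32⟩, ⟨.ofNat 1138339, 32⟩, ⟨.ofNat 6221127, 32⟩, ⟨.ofNat 4021437, 32⟩, ⟨.ofNat 5082875, 30⟩], 0⟩,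
   ⟨[⟨.negSucc 418958974, 31⟩, ⟨.negSucc 2174, 29⟩, ⟨.ofNat 484964765, 31⟩, ⟨.negSucc 1601286, 32⟩, ⟨.ofNat 86432437, 32⟩, ⟨.negSucc 358114, 28⟩, ⟨.ofNat 1016275, 32⟩], 0⟩,
   ⟨[⟨.ofNat 24925041, 32⟩, ⟨.ofNat 1843, 32⟩, ⟨.negSucc 41928316, 32⟩, ⟨.ofNat 84193, 31⟩, ⟨.ofNat 3568527, 32⟩, ⟨.ofNat 591011, 32⟩, ⟨.ofNat 2212537, 32⟩], 0⟩,
   ⟨[⟨.ofNat 41, 32⟩, ⟨.negSucc 73737266, 31⟩, ⟨.ofNat 4223, 28⟩, ⟨.negSucc 283328592, 32⟩, ⟨.ofNat 1386713, 32⟩, ⟨.ofNat 91668429, 32⟩, ⟨.ofNat 2176733, 32⟩], 0⟩,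
   ⟨[⟨.ofNat 43, 30⟩, ⟨.negSucc 7847666, 31⟩, ⟨.ofNat 134867, 31⟩, ⟨.ofNat 28778453, 32⟩, ⟨.ofNat 4641343, 32⟩, ⟨.negSucc 3518856, 30⟩, ⟨.ofNat 2500769, 31⟩], 0⟩,
   ⟨[⟨.negSucc 74, 32⟩, ⟨.ofNat 1843, 30⟩, ⟨.negSucc 2120256, 31⟩, ⟨.ofNat 337341, 31⟩, ⟨.negSucc 4183392, 31⟩, ⟨.ofNat 2377823, 32⟩, ⟨.ofNat 1581609, 32⟩], 0⟩]

def LB1R_L : List (List Sym) := [LB1R_0, LB1R_1, LB1R_2, LB1R_3, LB1R_4, LB1R_5, LB1R_6]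

noncomputable def LB1R (i : Nat) : Sym := sym16 LB1R_L i

end Pool.H61.Rh
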