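import Pool.Agent.H47.K3.Defs

/-! # generated: level-3 table LB2E (polynomials in θ, exact) -/

set_option autoImplicit false

namespace Pool.H61.Rh

open Pool.H47.Kc Pool.H47.K3

def LB2E_0 : List Sym :=
  [⟨[⟨.ofNat 514716683, 33⟩, ⟨.negSucc 889447936, 35⟩, ⟨.negSucc 1310098028, 35⟩, ⟨.ofNat 32380689, 36⟩, ⟨.ofNat 122349275, 35⟩, ⟨.ofNat 14987491, 36⟩, ⟨.negSucc 76002, 29⟩, ⟨.negSucc 644602, 35⟩, ⟨.ofNat 309329, 36⟩], 0⟩,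
   ⟨[⟨.ofNat 1425015391, 36⟩, ⟨.negSucc 3438897292, 35⟩, ⟨.negSucc 258730638, 36⟩, ⟨.ofNat 5089111499, 36⟩, ⟨.ofNat 1159004615, 36⟩, ⟨.negSucc 124554484, 34⟩, ⟨.negSucc 4606454, 32⟩, ⟨.ofNat 38798003, 36⟩, ⟨.negSucc 3483056, 36⟩], 0⟩,
   ⟨[⟨.negSucc 4296244360, 36⟩, ⟨.ofNat 2580085427, 36⟩, ⟨.ofNat 22659651919, 36⟩, ⟨.ofNat 5752857379, 35⟩, ⟨.negSucc 2027204666, 35⟩, ⟨.negSucc 1914238006, 35⟩, ⟨.negSucc 13342714, 34⟩, ⟨.ofNat 235680187, 36⟩, ⟨.negSucc 5099212, 35⟩], 0⟩,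
   ⟨[⟨.ofNat 55183061, 30⟩, ⟨.ofNat 11594881991, 36⟩, ⟨.ofNat 25331345317, 36⟩, ⟨.negSucc 5533365826, 36⟩, ⟨.negSucc 12504322206, 36⟩, ⟨.negSucc 2415330248, 36⟩, ⟨.ofNat 25801837, 36⟩, ⟨.ofNat 76382921, 36⟩, ⟨.ofNat 19451079, 36⟩], 0⟩,
   ⟨[⟨.ofNat 1472182551, 34⟩, ⟨.ofNat 1879003489, 36⟩, ⟨.ofNat 3401778561, 36⟩, ⟨.negSucc 6091602224, 36⟩, ⟨.negSucc 6488443672, 36⟩, ⟨.ofNat 1410503837, 35⟩, ⟨.negSucc 127342252, 36⟩, ⟨.negSucc 184240410, 36⟩, ⟨.ofNat 16172439, 35⟩], 0⟩,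
   ⟨[⟨.ofNat 85142815, 32⟩, ⟨.negSucc 5227931712, 36⟩, ⟨.ofNat 2119557, 36⟩, ⟨.ofNat 3749966163, 36⟩, ⟨.ofNat 554580241, 35⟩, ⟨.ofNat 109196029, 34⟩, ⟨.negSucc 34640270, 34⟩, ⟨.negSucc 1269064, 32⟩, ⟨.ofNat 648159, 35⟩], 0⟩,
   ⟨[⟨.negSucc 5899724, 33⟩, ⟨.negSucc 43584706, 33⟩, ⟨.ofNat 25889901, 36⟩, ⟨.ofNat 1564361615, 36⟩, ⟨.negSucc 25840232, 36⟩, ⟨.negSucc 1244523878, 36⟩, ⟨.ofNat 8276157, 36⟩, ⟨.ofNat 15204853, 36⟩, ⟨.negSucc 1021590, 34⟩], 0⟩,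
   ⟨[⟨.ofNat 1, 36⟩, ⟨.ofNat 1924963, 33⟩, ⟨.ofNat 3601, 36⟩, ⟨.negSucc 62254482, 36⟩, ⟨.ofNat 184113, 36⟩, ⟨.ofNat 8608917, 33⟩, ⟨.ofNat 834359, 36⟩, ⟨.negSucc 11429758, 35⟩, ⟨.ofNat 347749, 36⟩], 0⟩,
   ⟨[⟨.ofNat 2507082825, 34⟩, ⟨.negSucc 1577506334, 35⟩, ⟨.negSucc 83265918, 30⟩, ⟨.negSucc 471456136, 36⟩, ⟨.negSucc 772174746, 36⟩, ⟨.negSucc 307847894, 36⟩, ⟨.negSucc 15794370, 36⟩, ⟨.ofNat 11839313, 35⟩, ⟨.negSucc 176320, 34⟩], 0⟩,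
   ⟨[⟨.ofNat 9477634369, 36⟩, ⟨.negSucc 13877635254, 35⟩, ⟨.negSucc 1790540636, 34⟩, ⟨.ofNat 138868035, 33⟩, ⟨.negSucc 596430014, 36⟩, ⟨.negSucc 1648430224, 36⟩, ⟨.negSucc 112189648, 36⟩, ⟨.ofNat 18366701, 33⟩, ⟨.negSucc 10322814, 36⟩], 0⟩,
   ⟨[⟨.negSucc 5289398222, 36⟩, ⟨.negSucc 12204215428, 35⟩, ⟨.ofNat 46789604895, 36⟩, ⟨.ofNat 18182346747, 36⟩, ⟨.negSucc 2390754158, 36⟩, ⟨.negSucc 1798826592, 36⟩, ⟨.ofNat 409541465, 36⟩, ⟨.ofNat 169801523, 36⟩, ⟨.ofNat 230205, 34⟩], 0⟩,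
   ⟨[⟨.negSucc 8667146246, 35⟩, ⟨.ofNat 8803369189, 36⟩, ⟨.ofNat 9628708627, 36⟩, ⟨.ofNat 12327948879, 36⟩, ⟨.negSucc 13236003754, 36⟩, ⟨.negSucc 738068486, 36⟩, ⟨.ofNat 67370495, 36⟩, ⟨.ofNat 147452537, 36⟩, ⟨.ofNat 13438135, 36⟩], 0⟩,
   ⟨[⟨.ofNat 7585784165, 36⟩, ⟨.ofNat 5704340235, 36⟩, ⟨.negSucc 1791315916, 34⟩, ⟨.negSucc 3694399698, 35⟩, ⟨.negSucc 1231115790, 35⟩, ⟨.ofNat 236396019, 36⟩, ⟨.negSucc 416439392, 35⟩, ⟨.ofNat 20848381, 35⟩, ⟨.ofNat 8719911, 35⟩], 0⟩,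
   ⟨[⟨.ofNat 3860315745, 35⟩, ⟨.ofNat 77472369, 35⟩, ⟨.ofNat 1281901391, 36⟩, ⟨.negSucc 87521470, 33⟩, ⟨.ofNat 3211550225, 36⟩, ⟨.ofNat 311396547, 35⟩, ⟨.ofNat 8791801, 36⟩, ⟨.negSucc 15458240, 36⟩, ⟨.negSucc 7322338, 36⟩], 0⟩,
   ⟨[⟨.negSucc 120810710, 35⟩, ⟨.negSucc 8891094, 36⟩, ⟨.ofNat 44868087, 35⟩, ⟨.ofNat 35923249, 36⟩, ⟨.negSucc 8047026, 34⟩, ⟨.negSucc 20018838, 35⟩, ⟨.ofNat 17268633, 36⟩, ⟨.ofNat 12801733, 36⟩, ⟨.ofNat 2195555, 36⟩], 0⟩,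
   ⟨[⟨.ofNat 12042053091, 36⟩, ⟨.ofNat 5307097713, 36⟩, ⟨.ofNat 5052917995, 36⟩, ⟨.negSucc 138824810, 34⟩, ⟨.ofNat 821448261, 35⟩, ⟨.ofNat 310798449, 34⟩, ⟨.ofNat 126543197, 35⟩, ⟨.negSucc 11925658, 36⟩, ⟨.negSucc 4593032, 35⟩], 0⟩]

def LB2E_1 : List Sym :=
  [⟨[⟨.ofNat 25683781831, 36⟩, ⟨.negSucc 18735023238, 35⟩, ⟨.negSucc 21575440218, 36⟩, ⟨.negSucc 10859255598, 35⟩, ⟨.negSucc 328199758, 36⟩, ⟨.negSucc 313445170, 36⟩, ⟨.ofNat 547215223, 36⟩, ⟨.ofNat 84980213, 35⟩, ⟨.negSucc 1346182, 31⟩], 0⟩,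
   ⟨[⟨.ofNat 6871888789, 36⟩, ⟨.ofNat 1560458661, 36⟩, ⟨.negSucc 24332426854, 36⟩, ⟨.ofNat 29363681965, 36⟩, ⟨.ofNat 946502805, 36⟩, ⟨.negSucc 1935961778, 36⟩, ⟨.ofNat 24764911, 33⟩, ⟨.ofNat 209802965, 36⟩, ⟨.negSucc 11311166, 36⟩], 0⟩,
   ⟨[⟨.negSucc 11545231642, 36⟩, ⟨.negSucc 2173151172, 34⟩, ⟨.ofNat 1587180221, 34⟩, ⟨.ofNat 5224808077, 35⟩, ⟨.ofNat 672886421, 34⟩, ⟨.ofNat 981852963, 35⟩, ⟨.ofNat 328491983, 36⟩, ⟨.negSucc 28566388, 36⟩, ⟨.ofNat 9634991, 36⟩], 0⟩,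
   ⟨[⟨.negSucc 4237407448, 36⟩, ⟨.ofNat 9199446211, 36⟩, ⟨.negSucc 836905804, 36⟩, ⟨.negSucc 517270884, 32⟩, ⟨.negSucc 1997974332, 36⟩, ⟨.negSucc 288725116, 34⟩, ⟨.ofNat 53056207, 36⟩, ⟨.ofNat 3668805, 34⟩, ⟨.ofNat 10454603, 36⟩], 0⟩,
   ⟨[⟨.ofNat 139500193, 36⟩, ⟨.negSucc 66794714, 36⟩, ⟨.negSucc 51807584, 36⟩, ⟨.ofNat 394118137, 36⟩, ⟨.ofNat 18664437, 36⟩, ⟨.negSucc 17130098, 36⟩, ⟨.negSucc 9630356, 36⟩, ⟨.negSucc 26366668, 36⟩, ⟨.negSucc 290866, 34⟩], 0⟩,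
   ⟨[⟨.ofNat 356814423, 31⟩, ⟨.ofNat 3430375985, 36⟩, ⟨.ofNat 7313737953, 35⟩, ⟨.ofNat 399170247, 32⟩, ⟨.ofNat 1080636211, 33⟩, ⟨.ofNat 298330677, 33⟩, ⟨.ofNat 127372311, 34⟩, ⟨.negSucc 10240496, 33⟩, ⟨.negSucc 3426082, 36⟩], 0⟩,
   ⟨[⟨.negSucc 321964814, 33⟩, ⟨.ofNat 9978355133, 36⟩, ⟨.negSucc 13077877772, 34⟩, ⟨.negSucc 1950812550, 35⟩, ⟨.ofNat 703755151, 34⟩, ⟨.ofNat 1843841801, 35⟩, ⟨.ofNat 274623159, 35⟩, ⟨.negSucc 5692204, 35⟩, ⟨.negSucc 7538524, 35⟩], 0⟩,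
   ⟨[⟨.ofNat 11769380001, 36⟩, ⟨.ofNat 6105804447, 36⟩, ⟨.ofNat 1084877647, 36⟩, ⟨.negSucc 10893361070, 36⟩, ⟨.negSucc 4500964676, 35⟩, ⟨.negSucc 17277294, 31⟩, ⟨.ofNat 35300001, 34⟩, ⟨.ofNat 138842487, 36⟩, ⟨.negSucc 8722392, 36⟩], 0⟩,
   ⟨[⟨.negSucc 539841284, 36⟩, ⟨.negSucc 5537147996, 36⟩, ⟨.ofNat 3540948479, 36⟩, ⟨.ofNat 4980002375, 36⟩, ⟨.ofNat 1316951421, 34⟩, ⟨.ofNat 75989591, 33⟩, ⟨.negSucc 125461070, 36⟩, ⟨.ofNat 514633, 34⟩, ⟨.negSucc 870018, 34⟩], 0⟩,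
   ⟨[⟨.ofNat 5580363, 36⟩, ⟨.ofNat 38563959, 36⟩, ⟨.ofNat 55257131, 35⟩, ⟨.negSucc 227540944, 36⟩, ⟨.negSucc 292498264, 36⟩, ⟨.ofNat 2483413, 34⟩, ⟨.ofNat 7923653, 33⟩, ⟨.ofNat 3819385, 34⟩, ⟨.ofNat 2091945, 36⟩], 0⟩,
   ⟨[⟨.negSucc 2396205604, 34⟩, ⟨.ofNat 3325773535, 35⟩, ⟨.ofNat 3880690355, 36⟩, ⟨.ofNat 11866121043, 36⟩, ⟨.ofNat 1063029247, 35⟩, ⟨.ofNat 156753299, 32⟩, ⟨.negSucc 147812070, 35⟩, ⟨.negSucc 9115006, 35⟩, ⟨.ofNat 444393, 35⟩], 0⟩,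
   ⟨[⟨.negSucc 7308651438, 35⟩, ⟨.negSucc 1782854318, 34⟩, ⟨.ofNat 393609251, 34⟩, ⟨.ofNat 1750191079, 36⟩, ⟨.ofNat 5405125133, 36⟩, ⟨.ofNat 1853919241, 36⟩, ⟨.negSucc 19092420, 36⟩, ⟨.ofNat 1461415, 32⟩, ⟨.negSucc 16740864, 36⟩], 0⟩,
   ⟨[⟨.ofNat 559761983, 36⟩, ⟨.ofNat 4890659739, 35⟩, ⟨.negSucc 1094562648, 35⟩, ⟨.negSucc 1203903928, 33⟩, ⟨.negSucc 785296336, 34⟩, ⟨.negSucc 143048872, 36⟩, ⟨.ofNat 92225711, 36⟩, ⟨.ofNat 59536413, 36⟩, ⟨.negSucc 5125646, 36⟩], 0⟩,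
   ⟨[⟨.negSucc 3221824, 36⟩, ⟨.negSucc 287050968, 36⟩, ⟨.negSucc 31904006, 35⟩, ⟨.ofNat 266880283, 35⟩, ⟨.ofNat 84369389, 35⟩, ⟨.negSucc 197888, 28⟩, ⟨.negSucc 18625756, 35⟩, ⟨.negSucc 3225184, 35⟩, ⟨.negSucc 770132, 35⟩], 0⟩,
   ⟨[⟨.ofNat 1093045389, 36⟩, ⟨.ofNat 73739477, 31⟩, ⟨.ofNat 35852555, 36⟩, ⟨.negSucc 743601840, 36⟩, ⟨.ofNat 241105253, 35⟩, ⟨.negSucc 213628546, 34⟩, ⟨.ofNat 12306555, 35⟩, ⟨.negSucc 10025154, 36⟩, ⟨.negSucc 924626, 36⟩], 0⟩,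
   ⟨[⟨.negSucc 8152225164, 36⟩, ⟨.negSucc 5810808764, 36⟩, ⟨.ofNat 1146616977, 35⟩, ⟨.ofNat 2777665343, 35⟩, ⟨.ofNat 1674083389, 36⟩, ⟨.ofNat 108951899, 36⟩, ⟨.ofNat 22917175, 35⟩, ⟨.negSucc 18471712, 35⟩, ⟨.negSucc 379636, 34⟩], 0⟩]

def LB2E_2 : List Sym :=
  [⟨[⟨.ofNat 247201785, 36⟩, ⟨.ofNat 165729019, 36⟩, ⟨.ofNat 20778581, 36⟩, ⟨.negSucc 38518692, 33⟩, ⟨.negSucc 130141878, 35⟩, ⟨.ofNat 29491109, 36⟩, ⟨.ofNat 11563525, 34⟩, ⟨.ofNat 2034391, 35⟩, ⟨.negSucc 27726, 36⟩], 0⟩,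
   ⟨[⟨.ofNat 2343737437, 35⟩, ⟨.ofNat 27579635, 36⟩, ⟨.negSucc 1345942348, 36⟩, ⟨.negSucc 5100610, 36⟩, ⟨.negSucc 235432310, 34⟩, ⟨.ofNat 1323937, 34⟩, ⟨.negSucc 2871980, 33⟩, ⟨.negSucc 910154, 36⟩, ⟨.ofNat 1130653, 35⟩], 0⟩,
   ⟨[⟨.negSucc 142722016, 36⟩, ⟨.negSucc 102428274, 35⟩, ⟨.negSucc 2999206, 34⟩, ⟨.ofNat 77387945, 36⟩, ⟨.ofNat 150258455, 36⟩, ⟨.ofNat 17670925, 35⟩, ⟨.negSucc 13393398, 35⟩, ⟨.negSucc 2943218, 36⟩, ⟨.negSucc 29048, 36⟩], 0⟩,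
   ⟨[⟨.ofNat 0, 0⟩, ⟨.ofNat 29568491, 34⟩, ⟨.ofNat 493, 36⟩, ⟨.negSucc 22342674, 35⟩, ⟨.ofNat 13199, 35⟩, ⟨.negSucc 5120054, 34⟩, ⟨.ofNat 133509, 36⟩, ⟨.ofNat 1592975, 36⟩, ⟨.ofNat 18971, 34⟩], 0⟩,
   ⟨[⟨.negSucc 19137488732, 36⟩, ⟨.ofNat 5664438073, 36⟩, ⟨.ofNat 5418856305, 35⟩, ⟨.ofNat 9827244815, 36⟩, ⟨.negSucc 829854052, 34⟩, ⟨.negSucc 134804412, 31⟩, ⟨.ofNat 48902291, 35⟩, ⟨.ofNat 396406243, 36⟩, ⟨.negSucc 52960114, 36⟩], 0⟩,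
   ⟨[⟨.ofNat 40000816631, 36⟩, ⟨.ofNat 654076587, 30⟩, ⟨.ofNat 9574753411, 33⟩, ⟨.ofNat 34792164381, 36⟩, ⟨.negSucc 58690230554, 36⟩, ⟨.negSucc 28296444068, 36⟩, ⟨.negSucc 382831384, 36⟩, ⟨.ofNat 470938747, 35⟩, ⟨.ofNat 39549943, 36⟩], 0⟩,
   ⟨[⟨.ofNat 88435072757, 36⟩, ⟨.negSucc 7353383362, 36⟩, ⟨.ofNat 37510069567, 35⟩, ⟨.negSucc 8309330196, 35⟩, ⟨.negSucc 16117507940, 34⟩, ⟨.ofNat 5944970933, 36⟩, ⟨.negSucc 648460122, 35⟩, ⟨.negSucc 184342724, 33⟩, ⟨.ofNat 121380335, 35⟩], 0⟩,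
   ⟨[⟨.ofNat 8485780995, 36⟩, ⟨.negSucc 6766088234, 34⟩, ⟨.ofNat 13425977317, 36⟩, ⟨.negSucc 11419266120, 36⟩, ⟨.ofNat 121239719, 36⟩, ⟨.ofNat 1538945413, 34⟩, ⟨.negSucc 290983438, 33⟩, ⟨.negSucc 98706584, 36⟩, ⟨.negSucc 729616, 31⟩], 0⟩,
   ⟨[⟨.negSucc 1999521174, 33⟩, ⟨.negSucc 5111174702, 36⟩, ⟨.ofNat 1769727267, 33⟩, ⟨.ofNat 4273811307, 34⟩, ⟨.negSucc 57657424, 34⟩, ⟨.negSucc 3552657488, 36⟩, ⟨.ofNat 8515555, 34⟩, ⟨.ofNat 16186961, 36⟩, ⟨.negSucc 167494, 28⟩], 0⟩,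
   ⟨[⟨.negSucc 5307397700, 36⟩, ⟨.ofNat 7856552831, 36⟩, ⟨.ofNat 667959069, 35⟩, ⟨.ofNat 7838008873, 36⟩, ⟨.negSucc 471811726, 35⟩, ⟨.negSucc 3098801900, 36⟩, ⟨.negSucc 143362316, 36⟩, ⟨.negSucc 51372808, 35⟩, ⟨.negSucc 17538, 35⟩], 0⟩,
   ⟨[⟨.negSucc 1338230244, 36⟩, ⟨.ofNat 1131047263, 34⟩, ⟨.negSucc 446898914, 36⟩, ⟨.negSucc 3258679960, 36⟩, ⟨.negSucc 38824548, 33⟩, ⟨.negSucc 258130710, 35⟩, ⟨.negSucc 191558826, 36⟩, ⟨.ofNat 25627943, 36⟩, ⟨.negSucc 2990986, 35⟩], 0⟩,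
   ⟨[⟨.ofNat 5804361, 33⟩, ⟨.ofNat 180105451, 35⟩, ⟨.negSucc 8863836, 35⟩, ⟨.negSucc 1579751618, 36⟩, ⟨.ofNat 2012761, 34⟩, ⟨.ofNat 625969381, 35⟩, ⟨.ofNat 2919415, 36⟩, ⟨.negSucc 13495012, 36⟩, ⟨.negSucc 333126, 36⟩], 0⟩,
   ⟨[⟨.negSucc 0, 36⟩, ⟨.negSucc 15378058, 36⟩, ⟨.negSucc 2564, 35⟩, ⟨.ofNat 31081503, 35⟩, ⟨.negSucc 63622, 34⟩, ⟨.negSucc 68514796, 36⟩, ⟨.negSucc 1061696, 36⟩, ⟨.ofNat 22832007, 36⟩, ⟨.negSucc 307408, 36⟩], 0⟩,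
   ⟨[⟨.negSucc 12127709392, 35⟩, ⟨.negSucc 6224760388, 34⟩, ⟨.ofNat 134346839, 34⟩, ⟨.ofNat 13010332441, 34⟩, ⟨.ofNat 8527662265, 36⟩, ⟨.negSucc 6078116536, 36⟩, ⟨.ofNat 90173741, 34⟩, ⟨.ofNat 494056353, 35⟩, ⟨.negSucc 32691858, 36⟩], 0⟩,
   ⟨[⟨.ofNat 108863494709, 36⟩, ⟨.ofNat 97222436921, 36⟩, ⟨.ofNat 50066286551, 34⟩, ⟨.ofNat 18368656335, 35⟩, ⟨.negSucc 33389881722, 34⟩, ⟨.negSucc 12315632076, 36⟩, ⟨.ofNat 1008918655, 36⟩, ⟨.ofNat 526182495, 35⟩, ⟨.ofNat 107076127, 35⟩], 0⟩,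
   ⟨[⟨.ofNat 4166817677, 36⟩, ⟨.ofNat 119937977717, 36⟩, ⟨.negSucc 2364475662, 33⟩, ⟨.negSucc 48039526234, 36⟩, ⟨.ofNat 11921045811, 36⟩, ⟨.negSucc 10804458, 33⟩, ⟨.negSucc 7146609142, 36⟩, ⟨.negSucc 383018752, 36⟩, ⟨.ofNat 368133919, 36⟩], 0⟩]

def LB2E_3 : List Sym :=
  [⟨[⟨.ofNat 489580595, 35⟩, ⟨.negSucc 16552136598, 35⟩, ⟨.negSucc 12094185286, 36⟩, ⟨.negSucc 20207932636, 36⟩, ⟨.ofNat 1696612745, 36⟩, ⟨.ofNat 987634029, 34⟩, ⟨.ofNat 428221181, 35⟩, ⟨.negSucc 70232764, 34⟩, ⟨.negSucc 42107722, 35⟩], 0⟩,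
   ⟨[⟨.ofNat 5869914655, 35⟩, ⟨.negSucc 2167801282, 34⟩, ⟨.ofNat 26840991057, 36⟩, ⟨.ofNat 2481812385, 35⟩, ⟨.negSucc 5113909190, 36⟩, ⟨.negSucc 93632036, 35⟩, ⟨.negSucc 64790604, 34⟩, ⟨.ofNat 48576347, 35⟩, ⟨.ofNat 29662755, 36⟩], 0⟩,
   ⟨[⟨.negSucc 3052734212, 35⟩, ⟨.negSucc 5551257636, 36⟩, ⟨.ofNat 5134381375, 36⟩, ⟨.ofNat 6467139759, 36⟩, ⟨.ofNat 2722517003, 35⟩, ⟨.negSucc 33427702, 36⟩, ⟨.ofNat 98940203, 36⟩, ⟨.negSucc 62555614, 36⟩, ⟨.ofNat 2287193, 34⟩], 0⟩,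
   ⟨[⟨.negSucc 3874506130, 35⟩, ⟨.negSucc 39383716, 34⟩, ⟨.negSucc 1246299170, 36⟩, ⟨.ofNat 709859199, 36⟩, ⟨.negSucc 1631691046, 35⟩, ⟨.negSucc 631905970, 36⟩, ⟨.ofNat 42438417, 36⟩, ⟨.negSucc 2879880, 36⟩, ⟨.ofNat 7239367, 36⟩], 0⟩,
   ⟨[⟨.ofNat 15080171, 32⟩, ⟨.ofNat 4439301, 35⟩, ⟨.negSucc 89320548, 36⟩, ⟨.negSucc 35869164, 36⟩, ⟨.ofNat 32024303, 36⟩, ⟨.ofNat 39860779, 36⟩, ⟨.negSucc 4295956, 34⟩, ⟨.negSucc 12711454, 36⟩, ⟨.negSucc 69974, 31⟩], 0⟩,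
   ⟨[⟨.negSucc 22530499104, 36⟩, ⟨.negSucc 54609393628, 35⟩, ⟨.negSucc 44818637482, 35⟩, ⟨.ofNat 41203094209, 36⟩, ⟨.ofNat 12690197437, 34⟩, ⟨.ofNat 24393663931, 36⟩, ⟨.ofNat 2898923873, 36⟩, ⟨.negSucc 107386016, 35⟩, ⟨.negSucc 56601790, 35⟩], 0⟩,
   ⟨[⟨.negSucc 36967380786, 36⟩, ⟨.ofNat 247398900853, 36⟩, ⟨.negSucc 15230895728, 34⟩, ⟨.negSucc 63534588668, 36⟩, ⟨.ofNat 2832101337, 32⟩, ⟨.negSucc 5285649906, 35⟩, ⟨.ofNat 204405753, 32⟩, ⟨.ofNat 752742705, 34⟩, ⟨.negSucc 4501090, 31⟩], 0⟩,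
   ⟨[⟨.negSucc 4996402702, 35⟩, ⟨.negSucc 4279929340, 33⟩, ⟨.ofNat 9589436985, 35⟩, ⟨.ofNat 33361248301, 36⟩, ⟨.negSucc 2030127346, 34⟩, ⟨.negSucc 4883892918, 35⟩, ⟨.ofNat 794180387, 35⟩, ⟨.negSucc 725447222, 36⟩, ⟨.ofNat 6209295, 30⟩], 0⟩,
   ⟨[⟨.ofNat 8347414081, 36⟩, ⟨.ofNat 3818545231, 35⟩, ⟨.negSucc 17049653282, 35⟩, ⟨.negSucc 4710429060, 35⟩, ⟨.ofNat 134770099, 32⟩, ⟨.ofNat 5914127549, 36⟩, ⟨.ofNat 1328497, 35⟩, ⟨.negSucc 263140452, 35⟩, ⟨.ofNat 32624739, 36⟩], 0⟩,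
   ⟨[⟨.ofNat 9917397539, 36⟩, ⟨.ofNat 9072709607, 36⟩, ⟨.negSucc 602794016, 34⟩, ⟨.negSucc 1315687802, 33⟩, ⟨.negSucc 1050464970, 34⟩, ⟨.negSucc 2702892112, 36⟩, ⟨.negSucc 293227832, 36⟩, ⟨.ofNat 136543767, 35⟩, ⟨.negSucc 7577600, 35⟩], 0⟩,
   ⟨[⟨.ofNat 1066545759, 34⟩, ⟨.negSucc 9183756536, 36⟩, ⟨.ofNat 191337639, 34⟩, ⟨.ofNat 8258202011, 36⟩, ⟨.ofNat 127780457, 32⟩, ⟨.ofNat 150368723, 33⟩, ⟨.negSucc 11579520, 34⟩, ⟨.negSucc 56989744, 36⟩, ⟨.ofNat 15171, 34⟩], 0⟩,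
   ⟨[⟨.negSucc 69652326, 35⟩, ⟨.ofNat 33444129, 35⟩, ⟨.ofNat 12891353, 34⟩, ⟨.negSucc 393643992, 36⟩, ⟨.negSucc 9339032, 35⟩, ⟨.ofNat 16997523, 36⟩, ⟨.ofNat 4573753, 35⟩, ⟨.ofNat 13404467, 35⟩, ⟨.ofNat 1089959, 36⟩], 0⟩,
   ⟨[⟨.negSucc 18731688170, 34⟩, ⟨.negSucc 5980142370, 34⟩, ⟨.negSucc 84450448972, 35⟩, ⟨.negSucc 25805041888, 36⟩, ⟨.ofNat 58741808217, 35⟩, ⟨.ofNat 13014263337, 36⟩, ⟨.negSucc 642439634, 36⟩, ⟨.negSucc 442463274, 35⟩, ⟨.negSucc 56790144, 35⟩], 0⟩,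
   ⟨[⟨.ofNat 27268984925, 36⟩, ⟨.negSucc 6817484470, 35⟩, ⟨.ofNat 20711151037, 36⟩, ⟨.negSucc 16233675744, 35⟩, ⟨.negSucc 31722802394, 36⟩, ⟨.ofNat 9250077835, 36⟩, ⟨.ofNat 1930758003, 34⟩, ⟨.ofNat 401717767, 35⟩, ⟨.negSucc 327627594, 36⟩], 0⟩,
   ⟨[⟨.ofNat 20519357247, 36⟩, ⟨.negSucc 842497628, 35⟩, ⟨.ofNat 633832219, 35⟩, ⟨.ofNat 20088842759, 36⟩, ⟨.negSucc 1284768776, 35⟩, ⟨.negSucc 3755373080, 35⟩, ⟨.negSucc 1792264898, 36⟩, ⟨.ofNat 138214055, 34⟩, ⟨.ofNat 46236901, 34⟩], 0⟩,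
   ⟨[⟨.negSucc 3223611412, 34⟩, ⟨.negSucc 6374529686, 36⟩, ⟨.ofNat 3309480727, 36⟩, ⟨.ofNat 976480563, 33⟩, ⟨.ofNat 2234084153, 34⟩, ⟨.ofNat 207290301, 33⟩, ⟨.negSucc 3028972, 35⟩, ⟨.negSucc 328538198, 36⟩, ⟨.ofNat 10926315, 36⟩], 0⟩]

def LB2E_4 : List Sym :=
  [⟨[⟨.ofNat 278227349, 35⟩, ⟨.ofNat 5517330807, 36⟩, ⟨.negSucc 3605598036, 36⟩, ⟨.negSucc 1221525998, 34⟩, ⟨.negSucc 1310211896, 34⟩, ⟨.negSucc 667287402, 36⟩, ⟨.ofNat 23450461, 34⟩, ⟨.ofNat 29540245, 36⟩, ⟨.ofNat 1527947, 36⟩], 0⟩,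
   ⟨[⟨.negSucc 1393134, 34⟩, ⟨.negSucc 19309036, 35⟩, ⟨.negSucc 55155098, 35⟩, ⟨.ofNat 56809611, 34⟩, ⟨.ofNat 291831773, 36⟩, ⟨.negSucc 160184, 30⟩, ⟨.negSucc 15447744, 34⟩, ⟨.negSucc 8032076, 35⟩, ⟨.negSucc 2045438, 36⟩], 0⟩,
   ⟨[⟨.negSucc 4222287900, 35⟩, ⟨.negSucc 290081024, 32⟩, ⟨.ofNat 1872269685, 36⟩, ⟨.negSucc 5252763042, 35⟩, ⟨.ofNat 6014505307, 36⟩, ⟨.ofNat 8676337089, 36⟩, ⟨.negSucc 1917262874, 36⟩, ⟨.negSucc 105274398, 33⟩, ⟨.ofNat 569533, 31⟩], 0⟩,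
   ⟨[⟨.ofNat 2868768211, 34⟩, ⟨.negSucc 1260759704, 35⟩, ⟨.negSucc 19398598796, 36⟩, ⟨.negSucc 4576079130, 35⟩, ⟨.negSucc 10398850, 29⟩, ⟨.ofNat 1629032637, 36⟩, ⟨.ofNat 908475301, 36⟩, ⟨.ofNat 793571371, 36⟩, ⟨.negSucc 142289962, 35⟩], 0⟩,
   ⟨[⟨.ofNat 7228188355, 35⟩, ⟨.ofNat 9072379301, 36⟩, ⟨.negSucc 119086202, 34⟩, ⟨.negSucc 5576450552, 36⟩, ⟨.negSucc 2777672518, 35⟩, ⟨.negSucc 1788920986, 36⟩, ⟨.negSucc 135919736, 36⟩, ⟨.ofNat 16059565, 33⟩, ⟨.ofNat 5828751, 33⟩], 0⟩,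
   ⟨[⟨.negSucc 2172764, 28⟩, ⟨.negSucc 9829975540, 36⟩, ⟨.ofNat 541210387, 34⟩, ⟨.ofNat 9768860447, 36⟩, ⟨.ofNat 3120596499, 36⟩, ⟨.ofNat 50819695, 35⟩, ⟨.negSucc 56709782, 36⟩, ⟨.negSucc 38467820, 35⟩, ⟨.ofNat 946803, 33⟩], 0⟩,
   ⟨[⟨.ofNat 804327, 34⟩, ⟨.ofNat 286644369, 36⟩, ⟨.ofNat 63690477, 36⟩, ⟨.negSucc 532715244, 36⟩, ⟨.negSucc 168338222, 36⟩, ⟨.ofNat 50380955, 36⟩, ⟨.ofNat 284503, 29⟩, ⟨.ofNat 855133, 33⟩, ⟨.ofNat 196499, 33⟩], 0⟩,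
   ⟨[⟨.ofNat 146949463, 36⟩, ⟨.ofNat 5215764225, 36⟩, ⟨.negSucc 140139514, 36⟩, ⟨.ofNat 8745405973, 36⟩, ⟨.negSucc 48263186, 34⟩, ⟨.negSucc 354220046, 33⟩, ⟨.ofNat 171133223, 35⟩, ⟨.negSucc 291235940, 36⟩, ⟨.ofNat 4636177, 33⟩], 0⟩,
   ⟨[⟨.negSucc 2187500766, 36⟩, ⟨.negSucc 1630916674, 35⟩, ⟨.ofNat 587137009, 36⟩, ⟨.ofNat 417390237, 36⟩, ⟨.negSucc 262757606, 36⟩, ⟨.ofNat 88520117, 32⟩, ⟨.ofNat 141671175, 36⟩, ⟨.negSucc 31804522, 36⟩, ⟨.negSucc 553884, 30⟩], 0⟩,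
   ⟨[⟨.ofNat 2043507971, 34⟩, ⟨.ofNat 2912053799, 35⟩, ⟨.negSucc 2282194522, 36⟩, ⟨.negSucc 5548215774, 36⟩, ⟨.negSucc 433373674, 34⟩, ⟨.negSucc 116622988, 36⟩, ⟨.negSucc 15007802, 34⟩, ⟨.ofNat 14087525, 34⟩, ⟨.ofNat 23255, 33⟩], 0⟩,
   ⟨[⟨.negSucc 246855276, 36⟩, ⟨.negSucc 82747164, 35⟩, ⟨.negSucc 20832190, 36⟩, ⟨.ofNat 307529207, 36⟩, ⟨.ofNat 259584821, 36⟩, ⟨.negSucc 14784308, 35⟩, ⟨.negSucc 44915302, 36⟩, ⟨.negSucc 2319050, 35⟩, ⟨.ofNat 8585, 35⟩], 0⟩,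
   ⟨[⟨.ofNat 157546369, 34⟩, ⟨.ofNat 1429631, 35⟩, ⟨.ofNat 7158377, 35⟩, ⟨.negSucc 1769006, 36⟩, ⟨.ofNat 80400867, 34⟩, ⟨.negSucc 19994, 27⟩, ⟨.negSucc 156675270, 36⟩, ⟨.negSucc 5313684, 35⟩, ⟨.ofNat 6258553, 35⟩], 0⟩,
   ⟨[⟨.negSucc 587511490, 33⟩, ⟨.negSucc 48770860, 36⟩, ⟨.ofNat 668582611, 35⟩, ⟨.ofNat 14609971, 36⟩, ⟨.ofNat 469819715, 35⟩, ⟨.negSucc 3272196, 36⟩, ⟨.ofNat 38754751, 36⟩, ⟨.ofNat 990515, 35⟩, ⟨.negSucc 5816900, 36⟩], 0⟩,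
   ⟨[⟨.ofNat 142521961, 36⟩, ⟨.ofNat 51094511, 34⟩, ⟨.ofNat 6014277, 35⟩, ⟨.negSucc 19227542, 34⟩, ⟨.negSucc 149812394, 36⟩, ⟨.negSucc 17579334, 35⟩, ⟨.ofNat 26241325, 36⟩, ⟨.ofNat 2824709, 36⟩, ⟨.ofNat 180849, 36⟩], 0⟩,
   ⟨[⟨.ofNat 1, 35⟩, ⟨.ofNat 1533917, 33⟩, ⟨.negSucc 13504, 36⟩, ⟨.negSucc 1007280, 36⟩, ⟨.ofNat 445069, 36⟩, ⟨.ofNat 410409, 34⟩, ⟨.ofNat 1068775, 35⟩, ⟨.negSucc 2411900, 35⟩, ⟨.ofNat 1224177, 36⟩], 0⟩,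
   ⟨[⟨.ofNat 0, 0⟩, ⟨.negSucc 58998826, 35⟩, ⟨.ofNat 78729, 35⟩, ⟨.ofNat 44421597, 36⟩, ⟨.negSucc 27830, 33⟩, ⟨.ofNat 20544001, 36⟩, ⟨.negSucc 308150, 36⟩, ⟨.negSucc 321350, 34⟩, ⟨.negSucc 176590, 36⟩], 0⟩]

def LB2E_5 : List Sym :=
  [⟨[⟨.ofNat 0, 0⟩, ⟨.negSucc 6, 36⟩, ⟨.negSucc 91380, 36⟩, ⟨.negSucc 1924, 36⟩, ⟨.ofNat 102255, 36⟩, ⟨.negSucc 27304, 36⟩, ⟨.ofNat 1067, 31⟩, ⟨.negSucc 39426, 36⟩, ⟨.ofNat 6225, 36⟩], 0⟩,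
   ⟨[⟨.negSucc 41369384408, 36⟩, ⟨.ofNat 17336088883, 36⟩, ⟨.ofNat 11206543119, 35⟩, ⟨.negSucc 264178650, 34⟩, ⟨.negSucc 1747683700, 36⟩, ⟨.ofNat 1828056637, 35⟩, ⟨.ofNat 17505405, 30⟩, ⟨.negSucc 84114514, 34⟩, ⟨.negSucc 7696832, 35⟩], 0⟩,
   ⟨[⟨.negSucc 28085254980, 36⟩, ⟨.ofNat 135033215275, 36⟩, ⟨.ofNat 525327065, 29⟩, ⟨.negSucc 4926146664, 36⟩, ⟨.negSucc 9913582626, 36⟩, ⟨.ofNat 3372496553, 36⟩, ⟨.ofNat 42727211, 33⟩, ⟨.negSucc 157490914, 36⟩, ⟨.negSucc 7765424, 36⟩], 0⟩,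
   ⟨[⟨.ofNat 78639264245, 36⟩, ⟨.ofNat 140705413645, 36⟩, ⟨.negSucc 23417503122, 36⟩, ⟨.negSucc 29488143302, 35⟩, ⟨.negSucc 13873939788, 35⟩, ⟨.negSucc 406746932, 33⟩, ⟨.ofNat 698090245, 35⟩, ⟨.ofNat 96279253, 34⟩, ⟨.negSucc 65865132, 35⟩], 0⟩,
   ⟨[⟨.ofNat 33929438091, 36⟩, ⟨.ofNat 5069824185, 35⟩, ⟨.negSucc 10642079486, 35⟩, ⟨.negSucc 12414716076, 34⟩, ⟨.ofNat 18050219001, 36⟩, ⟨.negSucc 4308294582, 36⟩, ⟨.negSucc 2283466432, 36⟩, ⟨.ofNat 67267523, 36⟩, ⟨.ofNat 1177039, 32⟩], 0⟩,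
   ⟨[⟨.negSucc 10192763922, 34⟩, ⟨.ofNat 54240481, 32⟩, ⟨.ofNat 7459085523, 35⟩, ⟨.ofNat 12994347399, 36⟩, ⟨.ofNat 6390004297, 36⟩, ⟨.negSucc 736142728, 34⟩, ⟨.negSucc 303049764, 35⟩, ⟨.negSucc 138798472, 36⟩, ⟨.negSucc 6058230, 35⟩], 0⟩,
   ⟨[⟨.negSucc 2915201512, 35⟩, ⟨.negSucc 234251118, 35⟩, ⟨.ofNat 437671269, 33⟩, ⟨.negSucc 8816712, 30⟩, ⟨.negSucc 8265228688, 36⟩, ⟨.ofNat 341466889, 36⟩, ⟨.ofNat 114643303, 36⟩, ⟨.negSucc 39887162, 35⟩, ⟨.negSucc 8112144, 36⟩], 0⟩,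
   ⟨[⟨.ofNat 464269249, 36⟩, ⟨.ofNat 11945491, 36⟩, ⟨.negSucc 213449564, 35⟩, ⟨.ofNat 618439, 36⟩, ⟨.ofNat 256681939, 36⟩, ⟨.negSucc 7173000, 36⟩, ⟨.ofNat 13835729, 36⟩, ⟨.ofNat 923385, 34⟩, ⟨.negSucc 2459822, 35⟩], 0⟩,
   ⟨[⟨.negSucc 3805568, 35⟩, ⟨.ofNat 36169, 36⟩, ⟨.ofNat 2434277, 34⟩, ⟨.ofNat 8521, 36⟩, ⟨.negSucc 76188, 31⟩, ⟨.ofNat 657331, 36⟩, ⟨.negSucc 1283832, 34⟩, ⟨.ofNat 928787, 36⟩, ⟨.ofNat 845931, 35⟩], 0⟩,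
   ⟨[⟨.ofNat 0, 0⟩, ⟨.ofNat 51, 36⟩, ⟨.negSucc 13284, 36⟩, ⟨.ofNat 13897, 36⟩, ⟨.negSucc 14932, 36⟩, ⟨.ofNat 199973, 36⟩, ⟨.negSucc 102822, 34⟩, ⟨.ofNat 297423, 36⟩, ⟨.negSucc 72000, 36⟩], 0⟩,
   ⟨[⟨.negSucc 35172127086, 34⟩, ⟨.ofNat 5266808665, 35⟩, ⟨.ofNat 11363352035, 34⟩, ⟨.ofNat 745360835, 32⟩, ⟨.negSucc 46712058820, 36⟩, ⟨.negSucc 4650843590, 34⟩, ⟨.negSucc 1556442914, 36⟩, ⟨.ofNat 756039469, 36⟩, ⟨.negSucc 8449488, 36⟩], 0⟩,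
   ⟨[⟨.negSucc 161068122674, 36⟩, ⟨.ofNat 257983149253, 36⟩, ⟨.ofNat 53499212825, 34⟩, ⟨.ofNat 32710137211, 35⟩, ⟨.negSucc 1176376862, 30⟩, ⟨.negSucc 7902850704, 36⟩, ⟨.negSucc 1917261836, 36⟩, ⟨.negSucc 563523290, 35⟩, ⟨.ofNat 69351395, 35⟩], 0⟩,
   ⟨[⟨.ofNat 33676875735, 36⟩, ⟨.negSucc 2658851640, 34⟩, ⟨.ofNat 156232464971, 36⟩, ⟨.negSucc 66425122866, 35⟩, ⟨.negSucc 29012183344, 36⟩, ⟨.ofNat 11050480605, 36⟩, ⟨.negSucc 1368003158, 36⟩, ⟨.negSucc 379471568, 35⟩, ⟨.negSucc 78018690, 36⟩], 0⟩,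
   ⟨[⟨.ofNat 8677562695, 34⟩, ⟨.negSucc 21129982778, 36⟩, ⟨.negSucc 30601552340, 36⟩, ⟨.ofNat 1403070891, 34⟩, ⟨.ofNat 1092581203, 36⟩, ⟨.negSucc 12732337640, 36⟩, ⟨.negSucc 700833464, 36⟩, ⟨.ofNat 190720355, 36⟩, ⟨.negSucc 25004704, 35⟩], 0⟩,
   ⟨[⟨.negSucc 1966515160, 35⟩, ⟨.ofNat 5639526269, 36⟩, ⟨.ofNat 1690524351, 36⟩, ⟨.ofNat 7667324793, 34⟩, ⟨.ofNat 4141923019, 36⟩, ⟨.negSucc 1728165412, 35⟩, ⟨.negSucc 339365132, 36⟩, ⟨.negSucc 167547800, 35⟩, ⟨.ofNat 7332821, 35⟩], 0⟩,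
   ⟨[⟨.negSucc 1573271702, 36⟩, ⟨.ofNat 2582538865, 36⟩, ⟨.negSucc 256699412, 36⟩, ⟨.negSucc 599898820, 33⟩, ⟨.negSucc 232909708, 35⟩, ⟨.negSucc 609256652, 36⟩, ⟨.negSucc 181883266, 36⟩, ⟨.ofNat 6939465, 35⟩, ⟨.negSucc 1939270, 34⟩], 0⟩]

def LB2E_6 : List Sym :=
  [⟨[⟨.ofNat 25436311, 35⟩, ⟨.ofNat 416148501, 36⟩, ⟨.negSucc 23411910, 36⟩, ⟨.negSucc 396393500, 34⟩, ⟨.ofNat 8983171, 36⟩, ⟨.ofNat 622578227, 35⟩, ⟨.ofNat 4284591, 36⟩, ⟨.negSucc 6785622, 35⟩, ⟨.negSucc 1180368, 35⟩], 0⟩,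
   ⟨[⟨.negSucc 0, 36⟩, ⟨.negSucc 7602732, 35⟩, ⟨.ofNat 4083, 36⟩, ⟨.ofNat 62036185, 36⟩, ⟨.negSucc 174732, 36⟩, ⟨.negSucc 34453598, 35⟩, ⟨.negSucc 593422, 36⟩, ⟨.ofNat 22673577, 36⟩, ⟨.negSucc 153566, 35⟩], 0⟩,
   ⟨[⟨.negSucc 4843058182, 31⟩, ⟨.negSucc 9325493622, 33⟩, ⟨.negSucc 2552260588, 36⟩, ⟨.negSucc 70038450624, 36⟩, ⟨.negSucc 64869057398, 35⟩, ⟨.negSucc 7870670832, 36⟩, ⟨.ofNat 2785330641, 36⟩, ⟨.ofNat 204735309, 34⟩, ⟨.ofNat 12573055, 35⟩], 0⟩,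
   ⟨[⟨.negSucc 1063136616, 33⟩, ⟨.negSucc 80814415278, 36⟩, ⟨.ofNat 310411594837, 36⟩, ⟨.negSucc 31545764878, 35⟩, ⟨.negSucc 34810717152, 36⟩, ⟨.negSucc 10175193942, 36⟩, ⟨.negSucc 7829204226, 36⟩, ⟨.negSucc 57320304, 36⟩, ⟨.ofNat 397659595, 36⟩], 0⟩,
   ⟨[⟨.negSucc 69335940216, 36⟩, ⟨.ofNat 2193236605, 35⟩, ⟨.ofNat 11014580307, 36⟩, ⟨.ofNat 3899281911, 35⟩, ⟨.ofNat 25947629997, 36⟩, ⟨.ofNat 13389631, 33⟩, ⟨.negSucc 642425776, 34⟩, ⟨.negSucc 307753742, 35⟩, ⟨.negSucc 15999090, 35⟩], 0⟩,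
   ⟨[⟨.ofNat 52578839999, 36⟩, ⟨.negSucc 5882088274, 36⟩, ⟨.negSucc 22959558162, 36⟩, ⟨.negSucc 152662010, 30⟩, ⟨.negSucc 19955895096, 36⟩, ⟨.ofNat 786642937, 36⟩, ⟨.negSucc 374642, 32⟩, ⟨.negSucc 63267532, 36⟩, ⟨.negSucc 8868378, 35⟩], 0⟩,
   ⟨[⟨.negSucc 9493686278, 36⟩, ⟨.negSucc 2249586858, 35⟩, ⟨.ofNat 7347694321, 36⟩, ⟨.ofNat 1856332451, 34⟩, ⟨.ofNat 3478729745, 35⟩, ⟨.ofNat 10818147, 35⟩, ⟨.negSucc 25480052, 33⟩, ⟨.negSucc 20149130, 35⟩, ⟨.ofNat 1455401, 36⟩], 0⟩,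
   ⟨[⟨.negSucc 7689117970, 36⟩, ⟨.negSucc 94990344, 35⟩, ⟨.negSucc 664790636, 35⟩, ⟨.ofNat 89128637, 33⟩, ⟨.negSucc 207078102, 32⟩, ⟨.negSucc 628747930, 36⟩, ⟨.ofNat 62567069, 36⟩, ⟨.negSucc 5019762, 36⟩, ⟨.ofNat 965131, 33⟩], 0⟩,
   ⟨[⟨.ofNat 241508473, 36⟩, ⟨.ofNat 4389485, 35⟩, ⟨.negSucc 22437442, 34⟩, ⟨.negSucc 35792332, 36⟩, ⟨.ofNat 15912063, 35⟩, ⟨.ofNat 40132077, 36⟩, ⟨.negSucc 2162810, 33⟩, ⟨.negSucc 12574742, 36⟩, ⟨.negSucc 285324, 33⟩], 0⟩,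
   ⟨[⟨.ofNat 61200774549, 36⟩, ⟨.negSucc 48320397648, 34⟩, ⟨.negSucc 34855324748, 36⟩, ⟨.negSucc 8108007544, 32⟩, ⟨.negSucc 11533675992, 36⟩, ⟨.negSucc 1364942250, 36⟩, ⟨.ofNat 1532752899, 36⟩, ⟨.ofNat 733398577, 36⟩, ⟨.negSucc 37435056, 36⟩], 0⟩,
   ⟨[⟨.ofNat 51050744173, 36⟩, ⟨.ofNat 8842829107, 36⟩, ⟨.negSucc 2617799302, 32⟩, ⟨.negSucc 12238377984, 36⟩, ⟨.negSucc 10003731496, 36⟩, ⟨.negSucc 2164102360, 33⟩, ⟨.negSucc 149529246, 34⟩, ⟨.negSucc 7758604, 35⟩, ⟨.ofNat 17080447, 32⟩], 0⟩,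
   ⟨[⟨.negSucc 1964474700, 33⟩, ⟨.ofNat 9674974571, 36⟩, ⟨.negSucc 2193142658, 36⟩, ⟨.ofNat 15655975521, 35⟩, ⟨.ofNat 10725320937, 36⟩, ⟨.ofNat 279627365, 35⟩, ⟨.negSucc 144110420, 36⟩, ⟨.negSucc 555628032, 35⟩, ⟨.ofNat 123176541, 36⟩], 0⟩,
   ⟨[⟨.ofNat 5936714161, 35⟩, ⟨.ofNat 590573117, 32⟩, ⟨.negSucc 3691874030, 36⟩, ⟨.negSucc 14696546026, 36⟩, ⟨.negSucc 2542663446, 35⟩, ⟨.negSucc 2499140408, 36⟩, ⟨.negSucc 53396326, 35⟩, ⟨.ofNat 130931209, 36⟩, ⟨.negSucc 7120538, 34⟩], 0⟩,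
   ⟨[⟨.ofNat 2115704357, 35⟩, ⟨.negSucc 4613800234, 35⟩, ⟨.ofNat 813919403, 36⟩, ⟨.ofNat 8331106861, 36⟩, ⟨.ofNat 2071373899, 36⟩, ⟨.ofNat 301466713, 34⟩, ⟨.negSucc 16877460, 34⟩, ⟨.negSucc 49717158, 36⟩, ⟨.negSucc 1225568, 34⟩], 0⟩,
   ⟨[⟨.negSucc 69717490, 35⟩, ⟨.ofNat 66759139, 36⟩, ⟨.ofNat 51815749, 36⟩, ⟨.negSucc 394055058, 36⟩, ⟨.negSucc 18435404, 36⟩, ⟨.ofNat 8716671, 35⟩, ⟨.ofNat 9767577, 36⟩, ⟨.ofNat 25886907, 36⟩, ⟨.ofNat 326849, 34⟩], 0⟩,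
   ⟨[⟨.ofNat 2369042831, 36⟩, ⟨.negSucc 5677166606, 36⟩, ⟨.negSucc 671093876, 36⟩, ⟨.ofNat 6201750409, 36⟩, ⟨.negSucc 7430602444, 36⟩, ⟨.ofNat 644183421, 34⟩, ⟨.negSucc 243131058, 34⟩, ⟨.ofNat 106458407, 34⟩, ⟨.negSucc 9017660, 33⟩], 0⟩]

def LB2E_7 : List Sym :=
  [⟨[⟨.ofNat 65849073479, 36⟩, ⟨.negSucc 38533636, 31⟩, ⟨.negSucc 11957741996, 34⟩, ⟨.negSucc 2378090522, 35⟩, ⟨.negSucc 10554064478, 36⟩, ⟨.negSucc 1849163012, 35⟩, ⟨.negSucc 269431790, 34⟩, ⟨.ofNat 366220503, 36⟩, ⟨.ofNat 5319537, 33⟩], 0⟩,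
   ⟨[⟨.negSucc 7813858262, 35⟩, ⟨.negSucc 6641075480, 36⟩, ⟨.ofNat 5829353735, 36⟩, ⟨.ofNat 10294802257, 36⟩, ⟨.ofNat 5402870383, 35⟩, ⟨.ofNat 1539925387, 36⟩, ⟨.negSucc 310720674, 35⟩, ⟨.negSucc 14554358, 32⟩, ⟨.ofNat 29597441, 36⟩], 0⟩,
   ⟨[⟨.ofNat 299232773, 35⟩, ⟨.ofNat 5542822143, 36⟩, ⟨.negSucc 1824131418, 35⟩, ⟨.negSucc 616153038, 33⟩, ⟨.negSucc 2662597182, 35⟩, ⟨.negSucc 169272070, 34⟩, ⟨.ofNat 37511065, 34⟩, ⟨.ofNat 6763301, 35⟩, ⟨.ofNat 237451, 34⟩], 0⟩,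
   ⟨[⟨.negSucc 5577754, 36⟩, ⟨.negSucc 38543434, 36⟩, ⟨.negSucc 110237968, 36⟩, ⟨.ofNat 227500221, 36⟩, ⟨.ofNat 291850575, 36⟩, ⟨.negSucc 5084096, 35⟩, ⟨.negSucc 63230154, 36⟩, ⟨.negSucc 3770442, 34⟩, ⟨.negSucc 2154878, 36⟩], 0⟩,
   ⟨[⟨.negSucc 6645177864, 35⟩, ⟨.ofNat 6022571173, 36⟩, ⟨.ofNat 2476538423, 34⟩, ⟨.ofNat 5262082531, 36⟩, ⟨.ofNat 1542855041, 35⟩, ⟨.negSucc 2599102198, 36⟩, ⟨.ofNat 714640345, 36⟩, ⟨.negSucc 4893610, 33⟩, ⟨.negSucc 21444302, 36⟩], 0⟩,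
   ⟨[⟨.ofNat 2000397779, 33⟩, ⟨.ofNat 11291654843, 36⟩, ⟨.negSucc 941347668, 35⟩, ⟨.negSucc 4042258162, 35⟩, ⟨.negSucc 6640296418, 36⟩, ⟨.negSucc 378615916, 34⟩, ⟨.ofNat 6811883, 31⟩, ⟨.ofNat 2429593, 35⟩, ⟨.ofNat 19272381, 36⟩], 0⟩,
   ⟨[⟨.negSucc 290351318, 35⟩, ⟨.negSucc 4954489360, 35⟩, ⟨.ofNat 2189890035, 36⟩, ⟨.ofNat 4923386395, 35⟩, ⟨.ofNat 396126067, 33⟩, ⟨.ofNat 29737925, 34⟩, ⟨.negSucc 90645266, 36⟩, ⟨.negSucc 73293854, 36⟩, ⟨.ofNat 31735, 28⟩], 0⟩,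
   ⟨[⟨.ofNat 3220319, 36⟩, ⟨.ofNat 286725387, 36⟩, ⟨.ofNat 63648687, 36⟩, ⟨.negSucc 533534948, 36⟩, ⟨.negSucc 168353320, 36⟩, ⟨.ofNat 51022663, 36⟩, ⟨.ofNat 9308085, 34⟩, ⟨.ofNat 47919, 29⟩, ⟨.ofNat 1637103, 36⟩], 0⟩,
   ⟨[⟨.negSucc 1092534438, 36⟩, ⟨.negSucc 4512820158, 36⟩, ⟨.ofNat 37660589, 32⟩, ⟨.ofNat 935202753, 35⟩, ⟨.ofNat 145983595, 35⟩, ⟨.ofNat 305707541, 34⟩, ⟨.negSucc 105443060, 36⟩, ⟨.ofNat 3682639, 36⟩, ⟨.negSucc 1585500, 35⟩], 0⟩,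
   ⟨[⟨.ofNat 8148414333, 36⟩, ⟨.ofNat 5870055711, 36⟩, ⟨.negSucc 278896382, 33⟩, ⟨.negSucc 699218598, 33⟩, ⟨.negSucc 221411256, 33⟩, ⟨.negSucc 129729560, 36⟩, ⟨.negSucc 8488658, 34⟩, ⟨.ofNat 6332223, 33⟩, ⟨.negSucc 994380, 36⟩], 0⟩,
   ⟨[⟨.negSucc 247086228, 36⟩, ⟨.negSucc 82770514, 35⟩, ⟨.negSucc 20501970, 36⟩, ⟨.ofNat 308022911, 36⟩, ⟨.ofNat 259985399, 36⟩, ⟨.negSucc 29649564, 36⟩, ⟨.negSucc 23235344, 35⟩, ⟨.negSucc 59574, 30⟩, ⟨.negSucc 18610, 36⟩], 0⟩,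
   ⟨[⟨.negSucc 585660458, 33⟩, ⟨.negSucc 13783456, 35⟩, ⟨.ofNat 1307584953, 36⟩, ⟨.ofNat 3288829, 34⟩, ⟨.ofNat 962458481, 36⟩, ⟨.ofNat 1487747, 35⟩, ⟨.ofNat 29087355, 36⟩, ⟨.negSucc 1868934, 36⟩, ⟨.negSucc 639200, 34⟩], 0⟩,
   ⟨[⟨.ofNat 142655301, 36⟩, ⟨.ofNat 204760781, 36⟩, ⟨.ofNat 2959255, 34⟩, ⟨.negSucc 9680462, 33⟩, ⟨.negSucc 150092648, 36⟩, ⟨.negSucc 17658938, 35⟩, ⟨.ofNat 6717835, 34⟩, ⟨.ofNat 2920303, 36⟩, ⟨.ofNat 22573, 36⟩], 0⟩,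
   ⟨[⟨.ofNat 0, 0⟩, ⟨.negSucc 29554668, 34⟩, ⟨.negSucc 60, 33⟩, ⟨.ofNat 11179115, 34⟩, ⟨.negSucc 26116, 36⟩, ⟨.ofNat 20450733, 36⟩, ⟨.negSucc 65864, 35⟩, ⟨.negSucc 1603192, 36⟩, ⟨.negSucc 74330, 36⟩], 0⟩]

def LB2E_L : List (List Sym) := [LB2E_0, LB2E_1, LB2E_2, LB2E_3, LB2E_4, LB2E_5, LB2E_6, LB2E_7]

noncomputable def LB2E (i : Nat) : Sym := sym16 LB2E_L i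

end Pool.H61.Rh
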