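import Pool.Agent.H47.K3.Defs

/-! # generated: level-3 table LB2R (polynomials in θ, exact) -/

set_option autoImplicit false

namespace Pool.H61.Rh

open Pool.H47.Kc Pool.H47.K3

def LB2R_0 : List Sym :=
  [⟨[⟨.ofNat 908692379, 31⟩, ⟨.ofNat 4341067, 25⟩, ⟨.negSucc 19219178, 29⟩, ⟨.negSucc 7326032, 31⟩, ⟨.ofNat 12374133, 31⟩, ⟨.ofNat 1908783, 30⟩, ⟨.negSucc 498412, 30⟩], 0⟩,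
   ⟨[⟨.ofNat 1330017575, 31⟩, ⟨.negSucc 50700874, 31⟩, ⟨.negSucc 49076224, 29⟩, ⟨.ofNat 161494291, 32⟩, ⟨.ofNat 7611189, 28⟩, ⟨.ofNat 31980101, 32⟩, ⟨.negSucc 27565088, 31⟩], 0⟩,
   ⟨[⟨.ofNat 1103624105, 32⟩, ⟨.ofNat 92060295, 30⟩, ⟨.negSucc 256921016, 31⟩, ⟨.ofNat 64387589, 32⟩, ⟨.ofNat 55640849, 31⟩, ⟨.negSucc 63139236, 31⟩, ⟨.negSucc 11043432, 31⟩], 0⟩,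
   ⟨[⟨.ofNat 385382267, 31⟩, ⟨.ofNat 720508787, 32⟩, ⟨.negSucc 465129172, 32⟩, ⟨.negSucc 119510922, 30⟩, ⟨.ofNat 5591967, 30⟩, ⟨.ofNat 35033025, 32⟩, ⟨.ofNat 3212749, 32⟩], 0⟩,
   ⟨[⟨.ofNat 355139641, 32⟩, ⟨.ofNat 29180323, 30⟩, ⟨.negSucc 113178054, 32⟩, ⟨.negSucc 368921066, 32⟩, ⟨.ofNat 37275693, 31⟩, ⟨.ofNat 81522127, 31⟩, ⟨.ofNat 5869193, 32⟩], 0⟩,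
   ⟨[⟨.ofNat 10401875, 29⟩, ⟨.negSucc 326710704, 32⟩, ⟨.ofNat 1768163, 28⟩, ⟨.ofNat 59002653, 30⟩, ⟨.ofNat 13476203, 32⟩, ⟨.ofNat 8866039, 30⟩, ⟨.ofNat 5719131, 32⟩], 0⟩,
   ⟨[⟨.negSucc 726542, 30⟩, ⟨.negSucc 5450104, 30⟩, ⟨.ofNat 1243069, 32⟩, ⟨.ofNat 6061217, 28⟩, ⟨.ofNat 900711, 31⟩, ⟨.negSucc 81334596, 32⟩, ⟨.ofNat 313503, 29⟩], 0⟩,
   ⟨[⟨.negSucc 164, 32⟩, ⟨.ofNat 978663, 32⟩, ⟨.negSucc 32364, 29⟩, ⟨.negSucc 583340, 30⟩, ⟨.negSucc 556472, 29⟩, ⟨.ofNat 680337, 28⟩, ⟨.negSucc 2393364, 31⟩], 0⟩,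
   ⟨[⟨.ofNat 3749183733, 32⟩, ⟨.negSucc 535969794, 31⟩, ⟨.negSucc 367313186, 31⟩, ⟨.ofNat 62116019, 32⟩, ⟨.ofNat 46083991, 32⟩, ⟨.negSucc 38274952, 32⟩, ⟨.ofNat 15814369, 32⟩], 0⟩,
   ⟨[⟨.ofNat 1065004523, 31⟩, ⟨.negSucc 287556480, 31⟩, ⟨.negSucc 259738242, 32⟩, ⟨.ofNat 339519703, 31⟩, ⟨.ofNat 305698043, 32⟩, ⟨.negSucc 34018630, 30⟩, ⟨.negSucc 11754496, 31⟩], 0⟩,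
   ⟨[⟨.ofNat 159722865, 30⟩, ⟨.ofNat 90496345, 29⟩, ⟨.negSucc 208272792, 32⟩, ⟨.ofNat 76621123, 29⟩, ⟨.ofNat 15214729, 32⟩, ⟨.negSucc 43144406, 31⟩, ⟨.ofNat 45772467, 32⟩], 0⟩,
   ⟨[⟨.negSucc 551400360, 31⟩, ⟨.ofNat 264505083, 32⟩, ⟨.ofNat 51085, 28⟩, ⟨.negSucc 405568560, 32⟩, ⟨.ofNat 56584999, 31⟩, ⟨.negSucc 746164, 29⟩, ⟨.ofNat 9238473, 31⟩], 0⟩,
   ⟨[⟨.ofNat 117676939, 30⟩, ⟨.ofNat 11609063, 27⟩, ⟨.negSucc 198664076, 31⟩, ⟨.negSucc 424405134, 32⟩, ⟨.negSucc 117046514, 31⟩, ⟨.negSucc 8920598, 32⟩, ⟨.negSucc 477556, 28⟩], 0⟩,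
   ⟨[⟨.ofNat 482614815, 32⟩, ⟨.ofNat 4722805, 31⟩, ⟨.ofNat 9869505, 29⟩, ⟨.negSucc 21069688, 31⟩, ⟨.ofNat 98987459, 31⟩, ⟨.ofNat 5626039, 29⟩, ⟨.negSucc 4796786, 32⟩], 0⟩,
   ⟨[⟨.negSucc 15101182, 32⟩, ⟨.negSucc 285496, 31⟩, ⟨.ofNat 5851943, 32⟩, ⟨.ofNat 400513, 31⟩, ⟨.ofNat 126995, 28⟩, ⟨.negSucc 2053488, 30⟩, ⟨.ofNat 4900261, 32⟩], 0⟩,
   ⟨[⟨.ofNat 155462551, 32⟩, ⟨.negSucc 1674371322, 32⟩, ⟨.negSucc 189822658, 31⟩, ⟨.negSucc 112479082, 32⟩, ⟨.negSucc 7397092, 31⟩, ⟨.negSucc 20673476, 32⟩, ⟨.ofNat 76666001, 32⟩], 0⟩]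

def LB2R_1 : List Sym :=
  [⟨[⟨.ofNat 186108041, 32⟩, ⟨.ofNat 1690699917, 32⟩, ⟨.ofNat 266823127, 32⟩, ⟨.ofNat 149456367, 30⟩, ⟨.negSucc 211548868, 32⟩, ⟨.negSucc 71305620, 32⟩, ⟨.ofNat 60297487, 32⟩], 0⟩,
   ⟨[⟨.negSucc 367791586, 32⟩, ⟨.negSucc 400879020, 32⟩, ⟨.ofNat 4310307, 24⟩, ⟨.negSucc 171700530, 31⟩, ⟨.ofNat 35741519, 32⟩, ⟨.negSucc 37697906, 32⟩, ⟨.ofNat 5056951, 29⟩], 0⟩,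
   ⟨[⟨.negSucc 670043628, 32⟩, ⟨.negSucc 517183076, 32⟩, ⟨.ofNat 195747213, 32⟩, ⟨.ofNat 727918131, 32⟩, ⟨.ofNat 49201625, 30⟩, ⟨.ofNat 14644357, 29⟩, ⟨.ofNat 12648577, 32⟩], 0⟩,
   ⟨[⟨.negSucc 132818666, 31⟩, ⟨.ofNat 574483059, 32⟩, ⟨.negSucc 24011670, 31⟩, ⟨.negSucc 520950124, 32⟩, ⟨.negSucc 7298432, 28⟩, ⟨.negSucc 21611696, 30⟩, ⟨.ofNat 773215, 28⟩], 0⟩,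
   ⟨[⟨.ofNat 4359265, 31⟩, ⟨.negSucc 4151920, 32⟩, ⟨.negSucc 3601230, 32⟩, ⟨.ofNat 26803259, 32⟩, ⟨.negSucc 4992278, 32⟩, ⟨.ofNat 3923097, 31⟩, ⟨.negSucc 1727610, 30⟩], 0⟩,
   ⟨[⟨.negSucc 481608820, 32⟩, ⟨.negSucc 12318336, 28⟩, ⟨.negSucc 639606060, 32⟩, ⟨.negSucc 16770318, 29⟩, ⟨.ofNat 9833499, 31⟩, ⟨.ofNat 82997197, 31⟩, ⟨.ofNat 69119731, 32⟩], 0⟩,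
   ⟨[⟨.negSucc 810100440, 31⟩, ⟨.ofNat 134966967, 32⟩, ⟨.ofNat 1571915745, 32⟩, ⟨.negSucc 363406450, 31⟩, ⟨.ofNat 49111565, 31⟩, ⟨.ofNat 47198655, 30⟩, ⟨.ofNat 8366563, 31⟩], 0⟩,
   ⟨[⟨.ofNat 51627789, 28⟩, ⟨.ofNat 11476103, 27⟩, ⟨.negSucc 283576892, 32⟩, ⟨.negSucc 533885770, 32⟩, ⟨.negSucc 476530522, 32⟩, ⟨.negSucc 49722484, 31⟩, ⟨.ofNat 39529445, 32⟩], 0⟩,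
   ⟨[⟨.negSucc 17562702, 31⟩, ⟨.negSucc 345161012, 32⟩, ⟨.ofNat 227517839, 32⟩, ⟨.ofNat 307146341, 32⟩, ⟨.ofNat 161693427, 31⟩, ⟨.ofNat 44210097, 32⟩, ⟨.negSucc 9767004, 32⟩], 0⟩,
   ⟨[⟨.ofNat 348945, 32⟩, ⟨.ofNat 2393367, 32⟩, ⟨.ofNat 1793981, 30⟩, ⟨.negSucc 15818386, 32⟩, ⟨.negSucc 13796676, 32⟩, ⟨.negSucc 2873798, 31⟩, ⟨.ofNat 8276221, 32⟩], 0⟩,
   ⟨[⟨.negSucc 599051144, 32⟩, ⟨.negSucc 204011426, 31⟩, ⟨.ofNat 111366457, 31⟩, ⟨.negSucc 334704180, 32⟩, ⟨.ofNat 116102447, 32⟩, ⟨.ofNat 143672047, 32⟩, ⟨.negSucc 3286418, 31⟩], 0⟩,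
   ⟨[⟨.negSucc 913581520, 32⟩, ⟨.negSucc 471831336, 32⟩, ⟨.ofNat 75038055, 32⟩, ⟨.ofNat 96135829, 30⟩, ⟨.ofNat 310344743, 32⟩, ⟨.ofNat 56360383, 32⟩, ⟨.ofNat 526997, 30⟩], 0⟩,
   ⟨[⟨.ofNat 34985409, 32⟩, ⟨.ofNat 612863609, 32⟩, ⟨.negSucc 136214534, 32⟩, ⟨.negSucc 306744944, 31⟩, ⟨.negSucc 93097538, 31⟩, ⟨.negSucc 4129400, 30⟩, ⟨.ofNat 3540329, 30⟩], 0⟩,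
   ⟨[⟨.negSucc 100726, 31⟩, ⟨.negSucc 8965920, 31⟩, ⟨.negSucc 1032128, 30⟩, ⟨.ofNat 17095789, 31⟩, ⟨.ofNat 8228299, 32⟩, ⟨.ofNat 39781, 31⟩, ⟨.negSucc 556902, 29⟩], 0⟩,
   ⟨[⟨.ofNat 68315239, 32⟩, ⟨.ofNat 36872143, 30⟩, ⟨.negSucc 38382656, 32⟩, ⟨.negSucc 45819578, 32⟩, ⟨.negSucc 20717842, 32⟩, ⟨.negSucc 50087538, 32⟩, ⟨.ofNat 3745589, 32⟩], 0⟩,
   ⟨[⟨.negSucc 254757170, 31⟩, ⟨.negSucc 363149186, 32⟩, ⟨.ofNat 143175005, 32⟩, ⟨.ofNat 174724013, 31⟩, ⟨.ofNat 101209203, 32⟩, ⟨.ofNat 8554495, 31⟩, ⟨.negSucc 3194720, 31⟩], 0⟩]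

def LB2R_2 : List Sym :=
  [⟨[⟨.ofNat 7725071, 31⟩, ⟨.ofNat 5177547, 31⟩, ⟨.ofNat 84137, 28⟩, ⟨.negSucc 19544750, 32⟩, ⟨.negSucc 482850, 27⟩, ⟨.ofNat 642879, 32⟩, ⟨.ofNat 3768043, 32⟩], 0⟩,
   ⟨[⟨.ofNat 146483621, 31⟩, ⟨.ofNat 858839, 31⟩, ⟨.negSucc 84025846, 32⟩, ⟨.negSucc 345798, 30⟩, ⟨.negSucc 28668822, 31⟩, ⟨.negSucc 2256922, 32⟩, ⟨.negSucc 272978, 32⟩], 0⟩,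
   ⟨[⟨.negSucc 8920148, 32⟩, ⟨.negSucc 6400628, 31⟩, ⟨.negSucc 393102, 31⟩, ⟨.ofNat 2527477, 31⟩, ⟨.ofNat 4384397, 31⟩, ⟨.ofNat 389845, 29⟩, ⟨.negSucc 1165754, 31⟩], 0⟩,
   ⟨[⟨.ofNat 7, 31⟩, ⟨.ofNat 7390733, 32⟩, ⟨.ofNat 22211, 32⟩, ⟨.negSucc 1462668, 31⟩, ⟨.ofNat 377365, 32⟩, ⟨.negSucc 1823478, 32⟩, ⟨.ofNat 196041, 31⟩], 0⟩,
   ⟨[⟨.negSucc 52231896, 29⟩, ⟨.negSucc 534945922, 31⟩, ⟨.ofNat 28934351, 30⟩, ⟨.negSucc 227481016, 32⟩, ⟨.negSucc 8950720, 32⟩, ⟨.ofNat 52326649, 30⟩, ⟨.negSucc 2035998, 30⟩], 0⟩,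
   ⟨[⟨.negSucc 576711466, 31⟩, ⟨.negSucc 1092144106, 32⟩, ⟨.ofNat 208976921, 30⟩, ⟨.negSucc 112829970, 31⟩, ⟨.negSucc 60045754, 31⟩, ⟨.ofNat 306716837, 32⟩, ⟨.negSucc 19003108, 32⟩], 0⟩,
   ⟨[⟨.negSucc 1353318640, 32⟩, ⟨.ofNat 61948683, 28⟩, ⟨.ofNat 154253483, 29⟩, ⟨.ofNat 1052739445, 32⟩, ⟨.negSucc 52734492, 30⟩, ⟨.negSucc 397022432, 32⟩, ⟨.ofNat 5486127, 32⟩], 0⟩,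
   ⟨[⟨.negSucc 17410944, 27⟩, ⟨.ofNat 1393852143, 32⟩, ⟨.ofNat 68855715, 31⟩, ⟨.ofNat 72818419, 29⟩, ⟨.negSucc 55021186, 32⟩, ⟨.negSucc 305476024, 32⟩, ⟨.negSucc 5753000, 31⟩], 0⟩,
   ⟨[⟨.ofNat 125773003, 32⟩, ⟨.negSucc 338625734, 32⟩, ⟨.negSucc 402036772, 32⟩, ⟨.negSucc 647413666, 32⟩, ⟨.ofNat 65213547, 32⟩, ⟨.ofNat 96711945, 31⟩, ⟨.negSucc 992270, 28⟩], 0⟩,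
   ⟨[⟨.negSucc 3252798, 32⟩, ⟨.negSucc 164799820, 30⟩, ⟨.ofNat 7029451, 31⟩, ⟨.negSucc 99711736, 32⟩, ⟨.ofNat 105529, 30⟩, ⟨.ofNat 39643791, 32⟩, ⟨.ofNat 5573705, 31⟩], 0⟩,
   ⟨[⟨.ofNat 71, 31⟩, ⟨.ofNat 20329895, 32⟩, ⟨.ofNat 222251, 32⟩, ⟨.negSucc 9365414, 32⟩, ⟨.ofNat 1910531, 31⟩, ⟨.negSucc 9564158, 32⟩, ⟨.ofNat 4107819, 32⟩], 0⟩,
   ⟨[⟨.negSucc 1695823546, 32⟩, ⟨.negSucc 1461942608, 32⟩, ⟨.ofNat 346945007, 32⟩, ⟨.negSucc 235251444, 31⟩, ⟨.ofNat 222671769, 32⟩, ⟨.ofNat 235763703, 32⟩, ⟨.negSucc 182705374, 32⟩], 0⟩,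
   ⟨[⟨.negSucc 95456900, 30⟩, ⟨.negSucc 1728153454, 32⟩, ⟨.ofNat 27911221, 32⟩, ⟨.negSucc 428176042, 31⟩, ⟨.ofNat 248097913, 32⟩, ⟨.ofNat 554109477, 32⟩, ⟨.negSucc 74176762, 31⟩], 0⟩,
   ⟨[⟨.negSucc 176727866, 31⟩, ⟨.ofNat 105468225, 30⟩, ⟨.ofNat 488588755, 30⟩, ⟨.ofNat 159648553, 30⟩, ⟨.negSucc 433197388, 31⟩, ⟨.negSucc 19369494, 31⟩, ⟨.ofNat 34530279, 31⟩], 0⟩,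
   ⟨[⟨.negSucc 546859674, 31⟩, ⟨.ofNat 860851957, 32⟩, ⟨.ofNat 1060708963, 32⟩, ⟨.ofNat 1178830331, 32⟩, ⟨.negSucc 21181334, 31⟩, ⟨.negSucc 92251798, 30⟩, ⟨.negSucc 48787402, 32⟩], 0⟩,
   ⟨[⟨.ofNat 403792659, 32⟩, ⟨.ofNat 361484967, 32⟩, ⟨.negSucc 1679020316, 32⟩, ⟨.ofNat 43862489, 32⟩, ⟨.ofNat 78748459, 31⟩, ⟨.ofNat 35461715, 32⟩, ⟨.negSucc 11876200, 31⟩], 0⟩]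

def LB2R_3 : List Sym :=
  [⟨[⟨.negSucc 11269316, 32⟩, ⟨.negSucc 11731768, 32⟩, ⟨.ofNat 38506785, 32⟩, ⟨.ofNat 2964277, 31⟩, ⟨.negSucc 38310150, 32⟩, ⟨.ofNat 7355689, 32⟩, ⟨.ofNat 1804361, 32⟩], 0⟩,
   ⟨[⟨.negSucc 143424078, 31⟩, ⟨.ofNat 123249459, 32⟩, ⟨.ofNat 299018655, 32⟩, ⟨.ofNat 91034263, 29⟩, ⟨.ofNat 101955653, 30⟩, ⟨.negSucc 150852662, 30⟩, ⟨.negSucc 9041372, 28⟩], 0⟩,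
   ⟨[⟨.ofNat 182487993, 31⟩, ⟨.negSucc 55976750, 32⟩, ⟨.negSucc 986109770, 32⟩, ⟨.ofNat 77557687, 29⟩, ⟨.ofNat 119742519, 30⟩, ⟨.ofNat 317023365, 32⟩, ⟨.negSucc 174868762, 31⟩], 0⟩,
   ⟨[⟨.ofNat 598946927, 32⟩, ⟨.negSucc 277718854, 31⟩, ⟨.negSucc 448485336, 32⟩, ⟨.negSucc 828449018, 31⟩, ⟨.negSucc 38231596, 30⟩, ⟨.ofNat 532459071, 32⟩, ⟨.ofNat 2856399, 31⟩], 0⟩,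
   ⟨[⟨.negSucc 232253144, 32⟩, ⟨.negSucc 28334676, 30⟩, ⟨.ofNat 245964621, 30⟩, ⟨.ofNat 890939137, 32⟩, ⟨.negSucc 46878858, 32⟩, ⟨.negSucc 176137240, 31⟩, ⟨.ofNat 19253891, 32⟩], 0⟩,
   ⟨[⟨.ofNat 25413, 24⟩, ⟨.ofNat 12494305, 32⟩, ⟨.negSucc 11598728, 31⟩, ⟨.negSucc 31763610, 31⟩, ⟨.ofNat 1384845, 30⟩, ⟨.ofNat 51034359, 32⟩, ⟨.negSucc 18800316, 32⟩], 0⟩,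
   ⟨[⟨.ofNat 1176561451, 32⟩, ⟨.ofNat 671809343, 31⟩, ⟨.negSucc 14313524, 29⟩, ⟨.ofNat 585231893, 31⟩, ⟨.negSucc 243655932, 32⟩, ⟨.negSucc 680867980, 32⟩, ⟨.ofNat 143290721, 32⟩], 0⟩,
   ⟨[⟨.negSucc 1042193272, 32⟩, ⟨.ofNat 478940795, 31⟩, ⟨.ofNat 299166855, 30⟩, ⟨.ofNat 846119711, 31⟩, ⟨.ofNat 436702499, 32⟩, ⟨.negSucc 435071796, 32⟩, ⟨.negSucc 56991226, 30⟩], 0⟩,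
   ⟨[⟨.ofNat 400756659, 32⟩, ⟨.ofNat 22178131, 31⟩, ⟨.negSucc 1688718340, 32⟩, ⟨.negSucc 251803504, 31⟩, ⟨.ofNat 18821383, 30⟩, ⟨.ofNat 286375813, 32⟩, ⟨.negSucc 14992484, 31⟩], 0⟩,
   ⟨[⟨.negSucc 5634322, 31⟩, ⟨.negSucc 3617662, 31⟩, ⟨.ofNat 53839365, 32⟩, ⟨.ofNat 34687911, 32⟩, ⟨.ofNat 428965, 30⟩, ⟨.negSucc 4559896, 29⟩, ⟨.ofNat 4079761, 31⟩], 0⟩,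
   ⟨[⟨.ofNat 445415455, 32⟩, ⟨.negSucc 23244890, 31⟩, ⟨.negSucc 14693944, 29⟩, ⟨.negSucc 119419858, 32⟩, ⟨.negSucc 205722824, 31⟩, ⟨.ofNat 66851521, 32⟩, ⟨.ofNat 68681831, 31⟩], 0⟩,
   ⟨[⟨.negSucc 227248226, 32⟩, ⟨.ofNat 543043975, 32⟩, ⟨.ofNat 243285711, 30⟩, ⟨.ofNat 482559577, 31⟩, ⟨.negSucc 22836228, 32⟩, ⟨.negSucc 88262392, 30⟩, ⟨.negSucc 15278318, 32⟩], 0⟩,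
   ⟨[⟨.ofNat 6505435, 32⟩, ⟨.negSucc 7820846, 32⟩, ⟨.negSucc 15950368, 31⟩, ⟨.negSucc 13203110, 30⟩, ⟨.negSucc 7507626, 31⟩, ⟨.ofNat 16338541, 30⟩, ⟨.negSucc 9872458, 31⟩], 0⟩,
   ⟨[⟨.ofNat 237, 32⟩, ⟨.negSucc 315704646, 32⟩, ⟨.negSucc 1533630, 32⟩, ⟨.negSucc 275666390, 31⟩, ⟨.ofNat 1310387, 30⟩, ⟨.ofNat 40465397, 30⟩, ⟨.ofNat 7402001, 31⟩], 0⟩,
   ⟨[⟨.ofNat 671, 32⟩, ⟨.ofNat 4496443, 32⟩, ⟨.ofNat 3833145, 30⟩, ⟨.ofNat 14379679, 31⟩, ⟨.ofNat 40026011, 32⟩, ⟨.negSucc 43834864, 32⟩, ⟨.ofNat 6355161, 32⟩], 0⟩,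
   ⟨[⟨.negSucc 150, 32⟩, ⟨.ofNat 14743, 32⟩, ⟨.negSucc 8481028, 32⟩, ⟨.ofNat 337341, 30⟩, ⟨.negSucc 16733570, 32⟩, ⟨.ofNat 2377823, 31⟩, ⟨.ofNat 1581609, 31⟩], 0⟩]

def LB2R_4 : List Sym :=
  [⟨[⟨.ofNat 2574988199, 32⟩, ⟨.ofNat 366062387, 31⟩, ⟨.negSucc 290135312, 31⟩, ⟨.negSucc 46641934, 30⟩, ⟨.negSucc 12459160, 31⟩, ⟨.negSucc 50262504, 31⟩, ⟨.ofNat 22648459, 32⟩], 0⟩,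
   ⟨[⟨.ofNat 456634121, 30⟩, ⟨.ofNat 162740881, 30⟩, ⟨.negSucc 1210277976, 32⟩, ⟨.negSucc 110448960, 31⟩, ⟨.ofNat 442235939, 32⟩, ⟨.negSucc 44148336, 31⟩, ⟨.ofNat 3553193, 29⟩], 0⟩,
   ⟨[⟨.negSucc 1209798058, 30⟩, ⟨.negSucc 184034076, 32⟩, ⟨.ofNat 1596206441, 32⟩, ⟨.ofNat 158545213, 32⟩, ⟨.ofNat 96622121, 30⟩, ⟨.ofNat 139301029, 32⟩, ⟨.negSucc 31825778, 32⟩], 0⟩,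
   ⟨[⟨.negSucc 2259238786, 32⟩, ⟨.negSucc 2597110, 26⟩, ⟨.ofNat 634057573, 31⟩, ⟨.negSucc 9876068, 28⟩, ⟨.negSucc 880892198, 32⟩, ⟨.ofNat 3405577, 27⟩, ⟨.ofNat 43795939, 32⟩], 0⟩,
   ⟨[⟨.ofNat 1234478887, 31⟩, ⟨.negSucc 120446486, 31⟩, ⟨.negSucc 440778538, 31⟩, ⟨.negSucc 92837850, 30⟩, ⟨.negSucc 179556328, 31⟩, ⟨.negSucc 37755132, 32⟩, ⟨.ofNat 4641525, 29⟩], 0⟩,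
   ⟨[⟨.ofNat 219040183, 31⟩, ⟨.ofNat 233373, 27⟩, ⟨.negSucc 109142136, 31⟩, ⟨.ofNat 4814685, 32⟩, ⟨.ofNat 474466015, 32⟩, ⟨.negSucc 6750766, 31⟩, ⟨.negSucc 1536732, 31⟩], 0⟩,
   ⟨[⟨.negSucc 972464, 28⟩, ⟨.ofNat 275, 30⟩, ⟨.ofNat 17366199, 32⟩, ⟨.ofNat 6227, 28⟩, ⟨.negSucc 19468064, 32⟩, ⟨.ofNat 341317, 32⟩, ⟨.ofNat 1958955, 30⟩], 0⟩,
   ⟨[⟨.ofNat 2674130123, 32⟩, ⟨.ofNat 501144717, 32⟩, ⟨.negSucc 217183420, 30⟩, ⟨.negSucc 205132952, 31⟩, ⟨.negSucc 340650996, 32⟩, ⟨.ofNat 97671851, 31⟩, ⟨.ofNat 41571477, 32⟩], 0⟩,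
   ⟨[⟨.ofNat 2030886147, 31⟩, ⟨.negSucc 1651370266, 32⟩, ⟨.negSucc 2236498954, 32⟩, ⟨.negSucc 550085448, 31⟩, ⟨.negSucc 92565580, 30⟩, ⟨.negSucc 180322096, 32⟩, ⟨.ofNat 9072379, 28⟩], 0⟩,
   ⟨[⟨.negSucc 175791172, 29⟩, ⟨.ofNat 1442964461, 32⟩, ⟨.negSucc 66186982, 32⟩, ⟨.ofNat 1421326373, 32⟩, ⟨.ofNat 501309477, 32⟩, ⟨.negSucc 566720604, 32⟩, ⟨.ofNat 35317037, 32⟩], 0⟩,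
   ⟨[⟨.negSucc 6058280, 23⟩, ⟨.ofNat 46598931, 28⟩, ⟨.ofNat 1623367521, 32⟩, ⟨.ofNat 854947085, 32⟩, ⟨.ofNat 85772015, 30⟩, ⟨.ofNat 356586949, 32⟩, ⟨.negSucc 36103122, 32⟩], 0⟩,
   ⟨[⟨.negSucc 49847126, 30⟩, ⟨.negSucc 599719340, 32⟩, ⟨.ofNat 27497239, 31⟩, ⟨.negSucc 1446820460, 32⟩, ⟨.negSucc 60989716, 30⟩, ⟨.ofNat 108981405, 32⟩, ⟨.ofNat 29927701, 32⟩], 0⟩,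
   ⟨[⟨.ofNat 4491721, 31⟩, ⟨.ofNat 32182733, 32⟩, ⟨.negSucc 9719330, 32⟩, ⟨.ofNat 2734533, 29⟩, ⟨.ofNat 8270935, 31⟩, ⟨.negSucc 11978434, 31⟩, ⟨.ofNat 622783, 31⟩], 0⟩,
   ⟨[⟨.negSucc 2639656524, 32⟩, ⟨.negSucc 1021071748, 32⟩, ⟨.ofNat 219732145, 29⟩, ⟨.ofNat 836827623, 32⟩, ⟨.ofNat 3059677, 26⟩, ⟨.ofNat 481040859, 32⟩, ⟨.negSucc 196300492, 32⟩], 0⟩,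
   ⟨[⟨.ofNat 1413869003, 32⟩, ⟨.negSucc 392484346, 30⟩, ⟨.negSucc 393820580, 30⟩, ⟨.negSucc 4468222, 29⟩, ⟨.negSucc 296308876, 31⟩, ⟨.ofNat 205041345, 31⟩, ⟨.ofNat 57752803, 32⟩], 0⟩,
   ⟨[⟨.ofNat 1744869101, 31⟩, ⟨.negSucc 11456950, 28⟩, ⟨.negSucc 897644128, 31⟩, ⟨.negSucc 582008260, 32⟩, ⟨.negSucc 947818470, 32⟩, ⟨.negSucc 45546948, 29⟩, ⟨.ofNat 118372531, 32⟩], 0⟩]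

def LB2R_5 : List Sym :=
  [⟨[⟨.negSucc 2062107942, 32⟩, ⟨.ofNat 293035659, 32⟩, ⟨.ofNat 1440190951, 32⟩, ⟨.ofNat 874816369, 32⟩, ⟨.ofNat 932722449, 32⟩, ⟨.negSucc 29389990, 31⟩, ⟨.negSucc 13739274, 31⟩], 0⟩,
   ⟨[⟨.ofNat 59514089, 32⟩, ⟨.negSucc 4641972, 30⟩, ⟨.negSucc 44709962, 31⟩, ⟨.negSucc 5729554, 31⟩, ⟨.negSucc 23135740, 31⟩, ⟨.ofNat 560631, 27⟩, ⟨.ofNat 127697, 25⟩], 0⟩,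
   ⟨[⟨.negSucc 1982059920, 31⟩, ⟨.ofNat 74138959, 29⟩, ⟨.ofNat 2140745807, 32⟩, ⟨.ofNat 529364313, 31⟩, ⟨.ofNat 269575945, 31⟩, ⟨.negSucc 37964454, 29⟩, ⟨.negSucc 35789032, 30⟩], 0⟩,
   ⟨[⟨.negSucc 3483549972, 32⟩, ⟨.negSucc 144524292, 30⟩, ⟨.ofNat 979537951, 31⟩, ⟨.ofNat 1244812161, 32⟩, ⟨.ofNat 334606733, 31⟩, ⟨.ofNat 459264607, 32⟩, ⟨.negSucc 44726044, 31⟩], 0⟩,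
   ⟨[⟨.ofNat 1238260503, 32⟩, ⟨.negSucc 263618290, 31⟩, ⟨.negSucc 881439212, 32⟩, ⟨.negSucc 1518164112, 32⟩, ⟨.negSucc 252190590, 31⟩, ⟨.ofNat 89467557, 32⟩, ⟨.ofNat 4939535, 29⟩], 0⟩,
   ⟨[⟨.negSucc 34360458, 32⟩, ⟨.negSucc 3753346, 29⟩, ⟨.ofNat 51651981, 32⟩, ⟨.ofNat 67069171, 32⟩, ⟨.ofNat 13600609, 31⟩, ⟨.negSucc 13299086, 32⟩, ⟨.negSucc 8761806, 32⟩], 0⟩,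
   ⟨[⟨.ofNat 331951823, 32⟩, ⟨.ofNat 388455795, 31⟩, ⟨.negSucc 114535946, 31⟩, ⟨.negSucc 373553492, 32⟩, ⟨.negSucc 11631392, 32⟩, ⟨.negSucc 337665272, 32⟩, ⟨.negSucc 5578086, 32⟩], 0⟩,
   ⟨[⟨.negSucc 1237892670, 31⟩, ⟨.ofNat 124306397, 31⟩, ⟨.ofNat 1581195137, 32⟩, ⟨.ofNat 114061799, 29⟩, ⟨.ofNat 451791453, 32⟩, ⟨.negSucc 968558, 28⟩, ⟨.negSucc 29300630, 32⟩], 0⟩,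
   ⟨[⟨.ofNat 75073595, 32⟩, ⟨.ofNat 17343657, 32⟩, ⟨.negSucc 13335322, 29⟩, ⟨.negSucc 38019124, 32⟩, ⟨.negSucc 782608, 27⟩, ⟨.ofNat 10151887, 32⟩, ⟨.ofNat 10340335, 32⟩], 0⟩,
   ⟨[⟨.ofNat 1423559595, 32⟩, ⟨.ofNat 2085383, 30⟩, ⟨.negSucc 446194468, 31⟩, ⟨.negSucc 2505800, 30⟩, ⟨.negSucc 267436086, 32⟩, ⟨.negSucc 1485104, 29⟩, ⟨.negSucc 1883926, 32⟩], 0⟩,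
   ⟨[⟨.negSucc 21671950, 31⟩, ⟨.negSucc 62209508, 32⟩, ⟨.ofNat 3835707, 28⟩, ⟨.ofNat 11298227, 30⟩, ⟨.ofNat 2664837, 30⟩, ⟨.ofNat 10657783, 32⟩, ⟨.negSucc 10007372, 32⟩], 0⟩,
   ⟨[⟨.ofNat 33, 31⟩, ⟨.ofNat 35912649, 32⟩, ⟨.ofNat 25885, 30⟩, ⟨.negSucc 13230190, 31⟩, ⟨.ofNat 1759929, 32⟩, ⟨.negSucc 1861746, 30⟩, ⟨.ofNat 915469, 31⟩], 0⟩,
   ⟨[⟨.negSucc 68054158, 31⟩, ⟨.ofNat 213, 31⟩, ⟨.negSucc 128675222, 32⟩, ⟨.ofNat 39631, 32⟩, ⟨.ofNat 3103229, 29⟩, ⟨.ofNat 145591, 32⟩, ⟨.negSucc 470348, 31⟩], 0⟩,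
   ⟨[⟨.ofNat 451728623, 31⟩, ⟨.negSucc 340, 27⟩, ⟨.negSucc 188916534, 31⟩, ⟨.negSucc 1000982, 32⟩, ⟨.ofNat 85802807, 32⟩, ⟨.negSucc 3549918, 32⟩, ⟨.negSucc 10677654, 31⟩], 0⟩,
   ⟨[⟨.ofNat 785181069, 32⟩, ⟨.ofNat 7605, 31⟩, ⟨.negSucc 224893704, 31⟩, ⟨.ofNat 1399343, 32⟩, ⟨.negSucc 13611380, 31⟩, ⟨.ofNat 2501507, 31⟩, ⟨.negSucc 186188, 28⟩], 0⟩,
   ⟨[⟨.ofNat 12646587, 29⟩, ⟨.ofNat 2989, 32⟩, ⟨.negSucc 41616504, 32⟩, ⟨.ofNat 274569, 32⟩, ⟨.ofNat 31760379, 30⟩, ⟨.ofNat 488601, 31⟩, ⟨.negSucc 285598, 32⟩], 0⟩]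

def LB2R_6 : List Sym :=
  [⟨[⟨.negSucc 4491622, 32⟩, ⟨.ofNat 317, 32⟩, ⟨.ofNat 2506595, 31⟩, ⟨.ofNat 28761, 32⟩, ⟨.negSucc 2809972, 31⟩, ⟨.ofNat 49265, 31⟩, ⟨.ofNat 1131003, 31⟩], 0⟩,
   ⟨[⟨.ofNat 25, 30⟩, ⟨.negSucc 559664336, 31⟩, ⟨.ofNat 39359, 30⟩, ⟨.ofNat 51808181, 31⟩, ⟨.ofNat 1368575, 31⟩, ⟨.negSucc 2176278, 31⟩, ⟨.ofNat 3037019, 32⟩], 0⟩,
   ⟨[⟨.ofNat 21, 31⟩, ⟨.ofNat 117730127, 29⟩, ⟨.ofNat 63115, 32⟩, ⟨.ofNat 201684071, 31⟩, ⟨.ofNat 223727, 30⟩, ⟨.negSucc 25508638, 32⟩, ⟨.ofNat 381367, 32⟩], 0⟩,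
   ⟨[⟨.negSucc 4, 29⟩, ⟨.ofNat 20812325, 32⟩, ⟨.negSucc 15706, 30⟩, ⟨.negSucc 192783592, 31⟩, ⟨.negSucc 561972, 31⟩, ⟨.ofNat 31781457, 32⟩, ⟨.negSucc 41980, 27⟩], 0⟩,
   ⟨[⟨.ofNat 1, 28⟩, ⟨.ofNat 3421803, 32⟩, ⟨.ofNat 24479, 32⟩, ⟨.ofNat 9035301, 32⟩, ⟨.ofNat 427503, 32⟩, ⟨.negSucc 1024482, 30⟩, ⟨.ofNat 479709, 32⟩], 0⟩,
   ⟨[⟨.negSucc 5153812, 28⟩, ⟨.ofNat 12427, 32⟩, ⟨.negSucc 400357222, 32⟩, ⟨.ofNat 1138339, 32⟩, ⟨.ofNat 6221127, 32⟩, ⟨.ofNat 4021437, 32⟩, ⟨.ofNat 5082875, 30⟩], 0⟩,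
   ⟨[⟨.negSucc 418958974, 31⟩, ⟨.negSucc 2174, 29⟩, ⟨.ofNat 484964765, 31⟩, ⟨.negSucc 1601286, 32⟩, ⟨.ofNat 86432437, 32⟩, ⟨.negSucc 358114, 28⟩, ⟨.ofNat 1016275, 32⟩], 0⟩,
   ⟨[⟨.ofNat 24925041, 32⟩, ⟨.ofNat 1843, 32⟩, ⟨.negSucc 41928316, 32⟩, ⟨.ofNat 84193, 31⟩, ⟨.ofNat 3568527, 32⟩, ⟨.ofNat 591011, 32⟩, ⟨.ofNat 2212537, 32⟩], 0⟩,
   ⟨[⟨.ofNat 41, 32⟩, ⟨.negSucc 73737266, 31⟩, ⟨.ofNat 4223, 28⟩, ⟨.negSucc 283328592, 32⟩, ⟨.ofNat 1386713, 32⟩, ⟨.ofNat 91668429, 32⟩, ⟨.ofNat 2176733, 32⟩], 0⟩,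
   ⟨[⟨.ofNat 43, 30⟩, ⟨.negSucc 7847666, 31⟩, ⟨.ofNat 134867, 31⟩, ⟨.ofNat 28778453, 32⟩, ⟨.ofNat 4641343, 32⟩, ⟨.negSucc 3518856, 30⟩, ⟨.ofNat 2500769, 31⟩], 0⟩,
   ⟨[⟨.negSucc 74, 32⟩, ⟨.ofNat 1843, 30⟩, ⟨.negSucc 2120256, 31⟩, ⟨.ofNat 337341, 31⟩, ⟨.negSucc 4183392, 31⟩, ⟨.ofNat 2377823, 32⟩, ⟨.ofNat 1581609, 32⟩], 0⟩]

def LB2R_L : List (List Sym) := [LB2R_0, LB2R_1, LB2R_2, LB2R_3, LB2R_4, LB2R_5, LB2R_6]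

noncomputable def LB2R (i : Nat) : Sym := sym16 LB2R_L i

end Pool.H61.Rh
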