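import Pool.Agent.H47.Kc.Rel
import Pool.Agent.H47.K3.Defs
import Pool.Agent.H81.Lv.Hr

/-! # Zf: coordinates in a zone

Symbols `β`: the level-3 coefficients from `0`, then `128, 129` = `y*`, `130` = `f*`,
`131, 132` = `n*`, `133` = `√3`, `134, 135` = the linear function `yt`, `136`, `137` = `.957`, `.493`. -/

set_option autoImplicit false

namespace Pool.H61.Rh

open Pool.H47.Kc Pool.H47.K3

/-- one step of the evaluation of a program -/
theorem rco {α : Type} {A : Alg α} {op : Op} {P : List Op} {st : List α} {v : α} {o : List ℕ}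
    {R : List α} (h : step A st op = v)
    (h' : o.map (fun k => get A.dflt (run A P (v :: st)) k) = R) :
    o.map (fun k => get A.dflt (run A (op :: P) st) k) = R := by
  subst h
  exact h'

noncomputable def zXh (β : ℕ → ℝ) (px ex : Int) (s : ℝ) : ℝ :=
  ((px : ℝ) / 2 ^ 21 - β 134) + s * ((ex : ℝ) / 2 ^ 21)
noncomputable def zYh (β : ℕ → ℝ) (py ey : Int) (s : ℝ) : ℝ :=
  ((py : ℝ) / 2 ^ 21 - β 135) + s * ((ey : ℝ) / 2 ^ 21)
noncomputable def zX (β : ℕ → ℝ) (px ex : Int) (r s : ℝ) : ℝ := r * zXh β px ex s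
noncomputable def zY (β : ℕ → ℝ) (py ey : Int) (r s : ℝ) : ℝ := r * zYh β py ey s
noncomputable def zn (β : ℕ → ℝ) (px py ex ey : Int) (s : ℝ) : ℝ :=
  zXh β px ex s * zXh β px ex s + zYh β py ey s * zYh β py ey s
noncomputable def zf (β : ℕ → ℝ) (px py ex ey : Int) (r s : ℝ) : ℝ :=
  β 130 + (β 131 * zX β px ex r s + β 132 * zY β py ey r s)
noncomputable def zD0 (β : ℕ → ℝ) (px ex : Int) (r s : ℝ) : ℝ :=
  1 - ((β 128 + zX β px ex r s) + (β 128 + zX β px ex r s))
noncomputable def zD1 (β : ℕ → ℝ) (px py ex ey : Int) (r s : ℝ) : ℝ :=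
  (1 + (β 128 + zX β px ex r s)) - β 133 * (β 129 + zY β py ey r s)
noncomputable def zD2 (β : ℕ → ℝ) (px py ex ey : Int) (r s : ℝ) : ℝ :=
  (1 + (β 128 + zX β px ex r s)) + β 133 * (β 129 + zY β py ey r s)

end Pool.H61.Rh
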