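import Pool.Agent.H47.K3.Defs
import Pool.Agent.H81.Lv.Zf

/-! # generated: zone program, C0, C1, P1, P2, H, vertex 2 -/

set_option autoImplicit false
set_option maxRecDepth 100000
set_option linter.unusedVariables false

namespace Pool.H61.Rh

open Pool.H47.Kc Pool.H47.K3

/-- program -/
def pZA2 (px py ex ey cb pb hb : Int) : List Op :=
  [.x, .y, .cst px 21, .base 134, .sub 1 0, .cst ex 21, .mul 4 0, .add 2 0, .cst py 21, 
   .base 135, .sub 1 0, .cst ey 21, .mul 10 0, .add 2 0, .mul 13 6, .mul 14 1, .base 130, 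
   .base 131, .mul 0 3, .base 132, .mul 0 4, .add 2 0, .add 5 0, .cst 1 0, .base 133, 
   .base 129, .add 0 10, .mul 2 0, .base 128, .add 0 14, .add 6 0, .add 0 3, .base 35, 
   .base 34, .base 33, .mul 20 1, .add 1 0, .mul 21 4, .add 1 0, .base 32, .base 31, 
   .mul 26 1, .add 1 0, .base 30, .mul 29 1, .add 1 0, .mul 30 7, .add 1 0, .base 29, 
   .base 28, .mul 35 1, .add 1 0, .base 27, .mul 38 1, .add 1 0, .base 26, .mul 41 1, 
   .add 1 0, .mul 42 10, .add 1 0, .base 25, .base 24, .mul 47 1, .add 1 0, .base 23, 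
   .mul 50 1, .add 1 0, .base 22, .mul 53 1, .add 1 0, .base 21, .mul 56 1, .add 1 0, 
   .mul 57 13, .add 1 0, .base 20, .base 19, .mul 62 1, .add 1 0, .base 18, .mul 65 1, 
   .add 1 0, .base 17, .mul 68 1, .add 1 0, .base 16, .mul 71 1, .add 1 0, .base 15, 
   .mul 74 1, .add 1 0, .mul 75 16, .add 1 0, .base 14, .base 13, .mul 80 1, .add 1 0, 
   .base 12, .mul 83 1, .add 1 0, .base 11, .mul 86 1, .add 1 0, .base 10, .mul 89 1, 
   .add 1 0, .base 9, .mul 92 1, .add 1 0, .base 8, .mul 95 1, .add 1 0, .mul 96 19, 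
   .add 1 0, .base 7, .base 6, .mul 101 1, .add 1 0, .base 5, .mul 104 1, .add 1 0, 
   .base 4, .mul 107 1, .add 1 0, .base 3, .mul 110 1, .add 1 0, .base 2, .mul 113 1, 
   .add 1 0, .base 1, .mul 116 1, .add 1 0, .base 0, .mul 119 1, .add 1 0, .mul 120 22, 
   .add 1 0, .base 106, .base 105, .base 104, .mul 126 1, .add 1 0, .mul 127 4, .add 1 0, 
   .base 103, .base 102, .mul 132 1, .add 1 0, .base 101, .mul 135 1, .add 1 0, 
   .mul 136 7, .add 1 0, .base 100, .base 99, .mul 141 1, .add 1 0, .base 98, .mul 144 1, 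
   .add 1 0, .base 97, .mul 147 1, .add 1 0, .mul 148 10, .add 1 0, .base 96, .base 95, 
   .mul 153 1, .add 1 0, .base 94, .mul 156 1, .add 1 0, .base 93, .mul 159 1, .add 1 0, 
   .base 92, .mul 162 1, .add 1 0, .mul 163 13, .add 1 0, .mul 158 158, .cst 1 14, 
   .cst 1 16, .sub 46 1, .cst cb 8, .mul 4 163, .mul 0 155, .mul 2 0, .sub 0 51, 
   .sub 0 7, .cst pb 8, .mul 0 10, .sub 0 12, .sub 0 10, .add 2 14, .sub 0 12, 
   .cst hb 10, .mul 0 0, .mul 169 169, .mul 173 173, .add 1 0, .sub 3 0]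

/-- value -/
noncomputable def vZA2_C0 (β : ℕ → ℝ) (px py ex ey cb pb hb : Int) (r s : ℝ) : ℝ :=
  ((hr2 β (zX β px ex r s) (zY β py ey r s) 0 7) - (1 / 16384 : ℝ))

/-- value -/
noncomputable def vZA2_C1 (β : ℕ → ℝ) (px py ex ey cb pb hb : Int) (r s : ℝ) : ℝ :=
  (((((cb : ℝ) / 2 ^ 8) * ((((zf β px py ex ey r s) * (zf β px py ex ey r s)) * (zf β px py ex ey r s)) * (zD2 β px py ex ey r s))) - (hr2 β (zX β px ex r s) (zY β py ey r s) 0 7)) - (1 / 16384 : ℝ))

/-- value -/
noncomputable def vZA2_P1 (β : ℕ → ℝ) (px py ex ey cb pb hb : Int) (r s : ℝ) : ℝ :=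
  (((((pb : ℝ) / 2 ^ 8) * ((zf β px py ex ey r s) * (zf β px py ex ey r s))) - (hr2 β (zX β px ex r s) (zY β py ey r s) 92 4)) - (1 / 65536 : ℝ))

/-- value -/
noncomputable def vZA2_P2 (β : ℕ → ℝ) (px py ex ey cb pb hb : Int) (r s : ℝ) : ℝ :=
  (((((pb : ℝ) / 2 ^ 8) * ((zf β px py ex ey r s) * (zf β px py ex ey r s))) + (hr2 β (zX β px ex r s) (zY β py ey r s) 92 4)) - (1 / 65536 : ℝ))

/-- value -/
noncomputable def vZA2_H (β : ℕ → ℝ) (px py ex ey cb pb hb : Int) (r s : ℝ) : ℝ :=
  ((((hb : ℝ) / 2 ^ 10) * ((hb : ℝ) / 2 ^ 10)) - ((((β 128) + (zX β px ex r s)) * ((β 128) + (zX β px ex r s))) + (((β 129) + (zY β py ey r s)) * ((β 129) + (zY β py ey r s)))))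

def qZA2_b12 {α : Type} (px py ex ey cb pb hb : Int) (A : Alg α) (v26 v29 v180 v181 v183 v184 v190 v191 : α) : List α :=
  let v192 := A.mul v191 v181
  let v193 := A.sub v192 v180
  let v194 := A.sub v193 v183
  let v195 := A.add v192 v180
  let v196 := A.sub v195 v183
  let v197 := A.cst hb 10
  let v198 := A.mul v197 v197
  let v199 := A.mul v29 v29
  let v200 := A.mul v26 v26
  let v201 := A.add v199 v200
  let v202 := A.sub v198 v201
  [v184, v190, v194, v196, v202]

def qZA2_b11 {α : Type} (px py ex ey cb pb hb : Int) (A : Alg α) (v14 v15 v22 v26 v29 v31 v137 v165 v175 : α) : List α :=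
  let v176 := A.base 92
  let v177 := A.mul v14 v175
  let v178 := A.add v176 v177
  let v179 := A.mul v15 v165
  let v180 := A.add v178 v179
  let v181 := A.mul v22 v22
  let v182 := A.cst (1) 14
  let v183 := A.cst (1) 16
  let v184 := A.sub v137 v182
  let v185 := A.cst cb 8
  let v186 := A.mul v181 v22
  let v187 := A.mul v186 v31
  let v188 := A.mul v185 v187
  let v189 := A.sub v188 v137
  let v190 := A.sub v189 v182
  let v191 := A.cst pb 8
  qZA2_b12 px py ex ey cb pb hb A v26 v29 v180 v181 v183 v184 v190 v191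

def qZA2_b10 {α : Type} (px py ex ey cb pb hb : Int) (A : Alg α) (v14 v15 v22 v26 v29 v31 v137 v153 v158 v159 : α) : List α :=
  let v160 := A.add v158 v159
  let v161 := A.base 97
  let v162 := A.mul v14 v160
  let v163 := A.add v161 v162
  let v164 := A.mul v15 v153
  let v165 := A.add v163 v164
  let v166 := A.base 96
  let v167 := A.base 95
  let v168 := A.mul v14 v166
  let v169 := A.add v167 v168
  let v170 := A.base 94
  let v171 := A.mul v14 v169
  let v172 := A.add v170 v171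
  let v173 := A.base 93
  let v174 := A.mul v14 v172
  let v175 := A.add v173 v174
  qZA2_b11 px py ex ey cb pb hb A v14 v15 v22 v26 v29 v31 v137 v165 v175

def qZA2_b9 {α : Type} (px py ex ey cb pb hb : Int) (A : Alg α) (v14 v15 v22 v26 v29 v31 v137 v142 v143 : α) : List α :=
  let v144 := A.add v142 v143
  let v145 := A.base 103
  let v146 := A.base 102
  let v147 := A.mul v14 v145
  let v148 := A.add v146 v147
  let v149 := A.base 101
  let v150 := A.mul v14 v148
  let v151 := A.add v149 v150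
  let v152 := A.mul v15 v144
  let v153 := A.add v151 v152
  let v154 := A.base 100
  let v155 := A.base 99
  let v156 := A.mul v14 v154
  let v157 := A.add v155 v156
  let v158 := A.base 98
  let v159 := A.mul v14 v157
  qZA2_b10 px py ex ey cb pb hb A v14 v15 v22 v26 v29 v31 v137 v153 v158 v159

def qZA2_b8 {α : Type} (px py ex ey cb pb hb : Int) (A : Alg α) (v14 v15 v22 v26 v29 v31 v113 v126 v127 : α) : List α :=
  let v128 := A.mul v14 v126
  let v129 := A.add v127 v128
  let v130 := A.base 1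
  let v131 := A.mul v14 v129
  let v132 := A.add v130 v131
  let v133 := A.base 0
  let v134 := A.mul v14 v132
  let v135 := A.add v133 v134
  let v136 := A.mul v15 v113
  let v137 := A.add v135 v136
  let v138 := A.base 106
  let v139 := A.base 105
  let v140 := A.base 104
  let v141 := A.mul v14 v139
  let v142 := A.add v140 v141
  let v143 := A.mul v15 v138
  qZA2_b9 px py ex ey cb pb hb A v14 v15 v22 v26 v29 v31 v137 v142 v143

def qZA2_b7 {α : Type} (px py ex ey cb pb hb : Int) (A : Alg α) (v14 v15 v22 v26 v29 v31 v92 v111 : α) : List α :=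
  let v112 := A.mul v15 v92
  let v113 := A.add v111 v112
  let v114 := A.base 7
  let v115 := A.base 6
  let v116 := A.mul v14 v114
  let v117 := A.add v115 v116
  let v118 := A.base 5
  let v119 := A.mul v14 v117
  let v120 := A.add v118 v119
  let v121 := A.base 4
  let v122 := A.mul v14 v120
  let v123 := A.add v121 v122
  let v124 := A.base 3
  let v125 := A.mul v14 v123
  let v126 := A.add v124 v125
  let v127 := A.base 2
  qZA2_b8 px py ex ey cb pb hb A v14 v15 v22 v26 v29 v31 v113 v126 v127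

def qZA2_b6 {α : Type} (px py ex ey cb pb hb : Int) (A : Alg α) (v14 v15 v22 v26 v29 v31 v92 v94 v95 : α) : List α :=
  let v96 := A.add v94 v95
  let v97 := A.base 12
  let v98 := A.mul v14 v96
  let v99 := A.add v97 v98
  let v100 := A.base 11
  let v101 := A.mul v14 v99
  let v102 := A.add v100 v101
  let v103 := A.base 10
  let v104 := A.mul v14 v102
  let v105 := A.add v103 v104
  let v106 := A.base 9
  let v107 := A.mul v14 v105
  let v108 := A.add v106 v107
  let v109 := A.base 8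
  let v110 := A.mul v14 v108
  let v111 := A.add v109 v110
  qZA2_b7 px py ex ey cb pb hb A v14 v15 v22 v26 v29 v31 v92 v111

def qZA2_b5 {α : Type} (px py ex ey cb pb hb : Int) (A : Alg α) (v14 v15 v22 v26 v29 v31 v74 v78 v79 : α) : List α :=
  let v80 := A.mul v14 v78
  let v81 := A.add v79 v80
  let v82 := A.base 17
  let v83 := A.mul v14 v81
  let v84 := A.add v82 v83
  let v85 := A.base 16
  let v86 := A.mul v14 v84
  let v87 := A.add v85 v86
  let v88 := A.base 15
  let v89 := A.mul v14 v87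
  let v90 := A.add v88 v89
  let v91 := A.mul v15 v74
  let v92 := A.add v90 v91
  let v93 := A.base 14
  let v94 := A.base 13
  let v95 := A.mul v14 v93
  qZA2_b6 px py ex ey cb pb hb A v14 v15 v22 v26 v29 v31 v92 v94 v95

def qZA2_b4 {α : Type} (px py ex ey cb pb hb : Int) (A : Alg α) (v14 v15 v22 v26 v29 v31 v59 v63 : α) : List α :=
  let v64 := A.base 23
  let v65 := A.mul v14 v63
  let v66 := A.add v64 v65
  let v67 := A.base 22
  let v68 := A.mul v14 v66
  let v69 := A.add v67 v68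
  let v70 := A.base 21
  let v71 := A.mul v14 v69
  let v72 := A.add v70 v71
  let v73 := A.mul v15 v59
  let v74 := A.add v72 v73
  let v75 := A.base 20
  let v76 := A.base 19
  let v77 := A.mul v14 v75
  let v78 := A.add v76 v77
  let v79 := A.base 18
  qZA2_b5 px py ex ey cb pb hb A v14 v15 v22 v26 v29 v31 v74 v78 v79

def qZA2_b3 {α : Type} (px py ex ey cb pb hb : Int) (A : Alg α) (v14 v15 v22 v26 v29 v31 v47 : α) : List α :=
  let v48 := A.base 29
  let v49 := A.base 28
  let v50 := A.mul v14 v48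
  let v51 := A.add v49 v50
  let v52 := A.base 27
  let v53 := A.mul v14 v51
  let v54 := A.add v52 v53
  let v55 := A.base 26
  let v56 := A.mul v14 v54
  let v57 := A.add v55 v56
  let v58 := A.mul v15 v47
  let v59 := A.add v57 v58
  let v60 := A.base 25
  let v61 := A.base 24
  let v62 := A.mul v14 v60
  let v63 := A.add v61 v62
  qZA2_b4 px py ex ey cb pb hb A v14 v15 v22 v26 v29 v31 v59 v63

def qZA2_b2 {α : Type} (px py ex ey cb pb hb : Int) (A : Alg α) (v14 v15 v22 v26 v29 v31 : α) : List α :=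
  let v32 := A.base 35
  let v33 := A.base 34
  let v34 := A.base 33
  let v35 := A.mul v14 v33
  let v36 := A.add v34 v35
  let v37 := A.mul v15 v32
  let v38 := A.add v36 v37
  let v39 := A.base 32
  let v40 := A.base 31
  let v41 := A.mul v14 v39
  let v42 := A.add v40 v41
  let v43 := A.base 30
  let v44 := A.mul v14 v42
  let v45 := A.add v43 v44
  let v46 := A.mul v15 v38
  let v47 := A.add v45 v46
  qZA2_b3 px py ex ey cb pb hb A v14 v15 v22 v26 v29 v31 v47

def qZA2_b1 {α : Type} (px py ex ey cb pb hb : Int) (A : Alg α) (v14 v15 : α) : List α :=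
  let v16 := A.base 130
  let v17 := A.base 131
  let v18 := A.mul v17 v14
  let v19 := A.base 132
  let v20 := A.mul v19 v15
  let v21 := A.add v18 v20
  let v22 := A.add v16 v21
  let v23 := A.cst (1) 0
  let v24 := A.base 133
  let v25 := A.base 129
  let v26 := A.add v25 v15
  let v27 := A.mul v24 v26
  let v28 := A.base 128
  let v29 := A.add v28 v14
  let v30 := A.add v23 v29
  let v31 := A.add v30 v27
  qZA2_b2 px py ex ey cb pb hb A v14 v15 v22 v26 v29 v31

def qZA2_f {α : Type} (px py ex ey cb pb hb : Int) (A : Alg α) : List α :=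
  let v0 := A.x
  let v1 := A.y
  let v2 := A.cst px 21
  let v3 := A.base 134
  let v4 := A.sub v2 v3
  let v5 := A.cst ex 21
  let v6 := A.mul v1 v5
  let v7 := A.add v4 v6
  let v8 := A.cst py 21
  let v9 := A.base 135
  let v10 := A.sub v8 v9
  let v11 := A.cst ey 21
  let v12 := A.mul v1 v11
  let v13 := A.add v10 v12
  let v14 := A.mul v0 v7
  let v15 := A.mul v0 v13
  qZA2_b1 px py ex ey cb pb hb A v14 v15

theorem qZA2_h {α : Type} (px py ex ey cb pb hb : Int) (A : Alg α) : qZA2_f px py ex ey cb pb hb A = outs A (pZA2 px py ex ey cb pb hb) [18, 12, 8, 6, 0] := rfl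

def qZA2 (px py ex ey cb pb hb : Int) : Prg :=
  ⟨pZA2 px py ex ey cb pb hb, [18, 12, 8, 6, 0], qZA2_f px py ex ey cb pb hb, qZA2_h px py ex ey cb pb hb⟩

set_option maxHeartbeats 4000000 in
theorem pZA2_val (β : ℕ → ℝ) (r s : ℝ) (px py ex ey cb pb hb : Int) :
    outs (realAlg β r s) (pZA2 px py ex ey cb pb hb) [18, 12, 8, 6, 0] =
      [vZA2_C0 β px py ex ey cb pb hb r s,
        vZA2_C1 β px py ex ey cb pb hb r s,
        vZA2_P1 β px py ex ey cb pb hb r s,
        vZA2_P2 β px py ex ey cb pb hb r s,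
        vZA2_H β px py ex ey cb pb hb r s] := by
  unfold outs pZA2
  refine rco (v := r) rfl ?_
  refine rco (v := s) rfl ?_
  refine rco (v := ((px : ℝ) / 2 ^ 21)) rfl ?_
  refine rco (v := (β 134)) rfl ?_
  refine rco (v := (((px : ℝ) / 2 ^ 21) - (β 134))) rfl ?_
  refine rco (v := ((ex : ℝ) / 2 ^ 21)) rfl ?_
  refine rco (v := (s * ((ex : ℝ) / 2 ^ 21))) rfl ?_
  refine rco (v := (zXh β px ex s)) rfl ?_
  refine rco (v := ((py : ℝ) / 2 ^ 21)) rfl ?_
  refine rco (v := (β 135)) rfl ?_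
  refine rco (v := (((py : ℝ) / 2 ^ 21) - (β 135))) rfl ?_
  refine rco (v := ((ey : ℝ) / 2 ^ 21)) rfl ?_
  refine rco (v := (s * ((ey : ℝ) / 2 ^ 21))) rfl ?_
  refine rco (v := (zYh β py ey s)) rfl ?_
  refine rco (v := (zX β px ex r s)) rfl ?_
  refine rco (v := (zY β py ey r s)) rfl ?_
  refine rco (v := (β 130)) rfl ?_
  refine rco (v := (β 131)) rfl ?_
  refine rco (v := ((β 131) * (zX β px ex r s))) rfl ?_
  refine rco (v := (β 132)) rfl ?_
  refine rco (v := ((β 132) * (zY β py ey r s))) rfl ?_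
  refine rco (v := (((β 131) * (zX β px ex r s)) + ((β 132) * (zY β py ey r s)))) rfl ?_
  refine rco (v := (zf β px py ex ey r s)) rfl ?_
  refine rco (v := (1 : ℝ)) (by norm_num [step, realAlg]) ?_
  refine rco (v := (β 133)) rfl ?_
  refine rco (v := (β 129)) rfl ?_
  refine rco (v := ((β 129) + (zY β py ey r s))) rfl ?_
  refine rco (v := ((β 133) * ((β 129) + (zY β py ey r s)))) rfl ?_
  refine rco (v := (β 128)) rfl ?_
  refine rco (v := ((β 128) + (zX β px ex r s))) rfl ?_
  refine rco (v := ((1 : ℝ) + ((β 128) + (zX β px ex r s)))) rfl ?_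
  refine rco (v := (zD2 β px py ex ey r s)) rfl ?_
  refine rco (v := (β 35)) rfl ?_
  refine rco (v := (β 34)) rfl ?_
  refine rco (v := (β 33)) rfl ?_
  refine rco (v := ((zX β px ex r s) * (β 34))) rfl ?_
  refine rco (v := (hr β (zX β px ex r s) 33 2)) rfl ?_
  refine rco (v := ((zY β py ey r s) * (β 35))) rfl ?_
  refine rco (v := (hr2 β (zX β px ex r s) (zY β py ey r s) 33 1)) rfl ?_
  refine rco (v := (β 32)) rfl ?_
  refine rco (v := (β 31)) rfl ?_
  refine rco (v := ((zX β px ex r s) * (β 32))) rfl ?_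
  refine rco (v := (hr β (zX β px ex r s) 31 2)) rfl ?_
  refine rco (v := (β 30)) rfl ?_
  refine rco (v := ((zX β px ex r s) * (hr β (zX β px ex r s) 31 2))) rfl ?_
  refine rco (v := (hr β (zX β px ex r s) 30 3)) rfl ?_
  refine rco (v := ((zY β py ey r s) * (hr2 β (zX β px ex r s) (zY β py ey r s) 33 1))) rfl ?_
  refine rco (v := (hr2 β (zX β px ex r s) (zY β py ey r s) 30 2)) rfl ?_
  refine rco (v := (β 29)) rfl ?_
  refine rco (v := (β 28)) rfl ?_
  refine rco (v := ((zX β px ex r s) * (β 29))) rfl ?_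
  refine rco (v := (hr β (zX β px ex r s) 28 2)) rfl ?_
  refine rco (v := (β 27)) rfl ?_
  refine rco (v := ((zX β px ex r s) * (hr β (zX β px ex r s) 28 2))) rfl ?_
  refine rco (v := (hr β (zX β px ex r s) 27 3)) rfl ?_
  refine rco (v := (β 26)) rfl ?_
  refine rco (v := ((zX β px ex r s) * (hr β (zX β px ex r s) 27 3))) rfl ?_
  refine rco (v := (hr β (zX β px ex r s) 26 4)) rfl ?_
  refine rco (v := ((zY β py ey r s) * (hr2 β (zX β px ex r s) (zY β py ey r s) 30 2))) rfl ?_
  refine rco (v := (hr2 β (zX β px ex r s) (zY β py ey r s) 26 3)) rfl ?_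
  refine rco (v := (β 25)) rfl ?_
  refine rco (v := (β 24)) rfl ?_
  refine rco (v := ((zX β px ex r s) * (β 25))) rfl ?_
  refine rco (v := (hr β (zX β px ex r s) 24 2)) rfl ?_
  refine rco (v := (β 23)) rfl ?_
  refine rco (v := ((zX β px ex r s) * (hr β (zX β px ex r s) 24 2))) rfl ?_
  refine rco (v := (hr β (zX β px ex r s) 23 3)) rfl ?_
  refine rco (v := (β 22)) rfl ?_
  refine rco (v := ((zX β px ex r s) * (hr β (zX β px ex r s) 23 3))) rfl ?_
  refine rco (v := (hr β (zX β px ex r s) 22 4)) rfl ?_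
  refine rco (v := (β 21)) rfl ?_
  refine rco (v := ((zX β px ex r s) * (hr β (zX β px ex r s) 22 4))) rfl ?_
  refine rco (v := (hr β (zX β px ex r s) 21 5)) rfl ?_
  refine rco (v := ((zY β py ey r s) * (hr2 β (zX β px ex r s) (zY β py ey r s) 26 3))) rfl ?_
  refine rco (v := (hr2 β (zX β px ex r s) (zY β py ey r s) 21 4)) rfl ?_
  refine rco (v := (β 20)) rfl ?_
  refine rco (v := (β 19)) rfl ?_
  refine rco (v := ((zX β px ex r s) * (β 20))) rfl ?_
  refine rco (v := (hr β (zX β px ex r s) 19 2)) rfl ?_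
  refine rco (v := (β 18)) rfl ?_
  refine rco (v := ((zX β px ex r s) * (hr β (zX β px ex r s) 19 2))) rfl ?_
  refine rco (v := (hr β (zX β px ex r s) 18 3)) rfl ?_
  refine rco (v := (β 17)) rfl ?_
  refine rco (v := ((zX β px ex r s) * (hr β (zX β px ex r s) 18 3))) rfl ?_
  refine rco (v := (hr β (zX β px ex r s) 17 4)) rfl ?_
  refine rco (v := (β 16)) rfl ?_
  refine rco (v := ((zX β px ex r s) * (hr β (zX β px ex r s) 17 4))) rfl ?_
  refine rco (v := (hr β (zX β px ex r s) 16 5)) rfl ?_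
  refine rco (v := (β 15)) rfl ?_
  refine rco (v := ((zX β px ex r s) * (hr β (zX β px ex r s) 16 5))) rfl ?_
  refine rco (v := (hr β (zX β px ex r s) 15 6)) rfl ?_
  refine rco (v := ((zY β py ey r s) * (hr2 β (zX β px ex r s) (zY β py ey r s) 21 4))) rfl ?_
  refine rco (v := (hr2 β (zX β px ex r s) (zY β py ey r s) 15 5)) rfl ?_
  refine rco (v := (β 14)) rfl ?_
  refine rco (v := (β 13)) rfl ?_
  refine rco (v := ((zX β px ex r s) * (β 14))) rfl ?_
  refine rco (v := (hr β (zX β px ex r s) 13 2)) rfl ?_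
  refine rco (v := (β 12)) rfl ?_
  refine rco (v := ((zX β px ex r s) * (hr β (zX β px ex r s) 13 2))) rfl ?_
  refine rco (v := (hr β (zX β px ex r s) 12 3)) rfl ?_
  refine rco (v := (β 11)) rfl ?_
  refine rco (v := ((zX β px ex r s) * (hr β (zX β px ex r s) 12 3))) rfl ?_
  refine rco (v := (hr β (zX β px ex r s) 11 4)) rfl ?_
  refine rco (v := (β 10)) rfl ?_
  refine rco (v := ((zX β px ex r s) * (hr β (zX β px ex r s) 11 4))) rfl ?_
  refine rco (v := (hr β (zX β px ex r s) 10 5)) rfl ?_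
  refine rco (v := (β 9)) rfl ?_
  refine rco (v := ((zX β px ex r s) * (hr β (zX β px ex r s) 10 5))) rfl ?_
  refine rco (v := (hr β (zX β px ex r s) 9 6)) rfl ?_
  refine rco (v := (β 8)) rfl ?_
  refine rco (v := ((zX β px ex r s) * (hr β (zX β px ex r s) 9 6))) rfl ?_
  refine rco (v := (hr β (zX β px ex r s) 8 7)) rfl ?_
  refine rco (v := ((zY β py ey r s) * (hr2 β (zX β px ex r s) (zY β py ey r s) 15 5))) rfl ?_
  refine rco (v := (hr2 β (zX β px ex r s) (zY β py ey r s) 8 6)) rfl ?_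
  refine rco (v := (β 7)) rfl ?_
  refine rco (v := (β 6)) rfl ?_
  refine rco (v := ((zX β px ex r s) * (β 7))) rfl ?_
  refine rco (v := (hr β (zX β px ex r s) 6 2)) rfl ?_
  refine rco (v := (β 5)) rfl ?_
  refine rco (v := ((zX β px ex r s) * (hr β (zX β px ex r s) 6 2))) rfl ?_
  refine rco (v := (hr β (zX β px ex r s) 5 3)) rfl ?_
  refine rco (v := (β 4)) rfl ?_
  refine rco (v := ((zX β px ex r s) * (hr β (zX β px ex r s) 5 3))) rfl ?_
  refine rco (v := (hr β (zX β px ex r s) 4 4)) rfl ?_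
  refine rco (v := (β 3)) rfl ?_
  refine rco (v := ((zX β px ex r s) * (hr β (zX β px ex r s) 4 4))) rfl ?_
  refine rco (v := (hr β (zX β px ex r s) 3 5)) rfl ?_
  refine rco (v := (β 2)) rfl ?_
  refine rco (v := ((zX β px ex r s) * (hr β (zX β px ex r s) 3 5))) rfl ?_
  refine rco (v := (hr β (zX β px ex r s) 2 6)) rfl ?_
  refine rco (v := (β 1)) rfl ?_
  refine rco (v := ((zX β px ex r s) * (hr β (zX β px ex r s) 2 6))) rfl ?_
  refine rco (v := (hr β (zX β px ex r s) 1 7)) rfl ?_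
  refine rco (v := (β 0)) rfl ?_
  refine rco (v := ((zX β px ex r s) * (hr β (zX β px ex r s) 1 7))) rfl ?_
  refine rco (v := (hr β (zX β px ex r s) 0 8)) rfl ?_
  refine rco (v := ((zY β py ey r s) * (hr2 β (zX β px ex r s) (zY β py ey r s) 8 6))) rfl ?_
  refine rco (v := (hr2 β (zX β px ex r s) (zY β py ey r s) 0 7)) rfl ?_
  refine rco (v := (β 106)) rfl ?_
  refine rco (v := (β 105)) rfl ?_
  refine rco (v := (β 104)) rfl ?_
  refine rco (v := ((zX β px ex r s) * (β 105))) rfl ?_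
  refine rco (v := (hr β (zX β px ex r s) 104 2)) rfl ?_
  refine rco (v := ((zY β py ey r s) * (β 106))) rfl ?_
  refine rco (v := (hr2 β (zX β px ex r s) (zY β py ey r s) 104 1)) rfl ?_
  refine rco (v := (β 103)) rfl ?_
  refine rco (v := (β 102)) rfl ?_
  refine rco (v := ((zX β px ex r s) * (β 103))) rfl ?_
  refine rco (v := (hr β (zX β px ex r s) 102 2)) rfl ?_
  refine rco (v := (β 101)) rfl ?_
  refine rco (v := ((zX β px ex r s) * (hr β (zX β px ex r s) 102 2))) rfl ?_
  refine rco (v := (hr β (zX β px ex r s) 101 3)) rfl ?_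
  refine rco (v := ((zY β py ey r s) * (hr2 β (zX β px ex r s) (zY β py ey r s) 104 1))) rfl ?_
  refine rco (v := (hr2 β (zX β px ex r s) (zY β py ey r s) 101 2)) rfl ?_
  refine rco (v := (β 100)) rfl ?_
  refine rco (v := (β 99)) rfl ?_
  refine rco (v := ((zX β px ex r s) * (β 100))) rfl ?_
  refine rco (v := (hr β (zX β px ex r s) 99 2)) rfl ?_
  refine rco (v := (β 98)) rfl ?_
  refine rco (v := ((zX β px ex r s) * (hr β (zX β px ex r s) 99 2))) rfl ?_
  refine rco (v := (hr β (zX β px ex r s) 98 3)) rfl ?_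
  refine rco (v := (β 97)) rfl ?_
  refine rco (v := ((zX β px ex r s) * (hr β (zX β px ex r s) 98 3))) rfl ?_
  refine rco (v := (hr β (zX β px ex r s) 97 4)) rfl ?_
  refine rco (v := ((zY β py ey r s) * (hr2 β (zX β px ex r s) (zY β py ey r s) 101 2))) rfl ?_
  refine rco (v := (hr2 β (zX β px ex r s) (zY β py ey r s) 97 3)) rfl ?_
  refine rco (v := (β 96)) rfl ?_
  refine rco (v := (β 95)) rfl ?_
  refine rco (v := ((zX β px ex r s) * (β 96))) rfl ?_
  refine rco (v := (hr β (zX β px ex r s) 95 2)) rfl ?_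
  refine rco (v := (β 94)) rfl ?_
  refine rco (v := ((zX β px ex r s) * (hr β (zX β px ex r s) 95 2))) rfl ?_
  refine rco (v := (hr β (zX β px ex r s) 94 3)) rfl ?_
  refine rco (v := (β 93)) rfl ?_
  refine rco (v := ((zX β px ex r s) * (hr β (zX β px ex r s) 94 3))) rfl ?_
  refine rco (v := (hr β (zX β px ex r s) 93 4)) rfl ?_
  refine rco (v := (β 92)) rfl ?_
  refine rco (v := ((zX β px ex r s) * (hr β (zX β px ex r s) 93 4))) rfl ?_
  refine rco (v := (hr β (zX β px ex r s) 92 5)) rfl ?_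
  refine rco (v := ((zY β py ey r s) * (hr2 β (zX β px ex r s) (zY β py ey r s) 97 3))) rfl ?_
  refine rco (v := (hr2 β (zX β px ex r s) (zY β py ey r s) 92 4)) rfl ?_
  refine rco (v := ((zf β px py ex ey r s) * (zf β px py ex ey r s))) rfl ?_
  refine rco (v := (1 / 16384 : ℝ)) (by norm_num [step, realAlg]) ?_
  refine rco (v := (1 / 65536 : ℝ)) (by norm_num [step, realAlg]) ?_
  refine rco (v := ((hr2 β (zX β px ex r s) (zY β py ey r s) 0 7) - (1 / 16384 : ℝ))) rfl ?_
  refine rco (v := ((cb : ℝ) / 2 ^ 8)) rfl ?_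
  refine rco (v := (((zf β px py ex ey r s) * (zf β px py ex ey r s)) * (zf β px py ex ey r s))) rfl ?_
  refine rco (v := ((((zf β px py ex ey r s) * (zf β px py ex ey r s)) * (zf β px py ex ey r s)) * (zD2 β px py ex ey r s))) rfl ?_
  refine rco (v := (((cb : ℝ) / 2 ^ 8) * ((((zf β px py ex ey r s) * (zf β px py ex ey r s)) * (zf β px py ex ey r s)) * (zD2 β px py ex ey r s)))) rfl ?_
  refine rco (v := ((((cb : ℝ) / 2 ^ 8) * ((((zf β px py ex ey r s) * (zf β px py ex ey r s)) * (zf β px py ex ey r s)) * (zD2 β px py ex ey r s))) - (hr2 β (zX β px ex r s) (zY β py ey r s) 0 7))) rfl ?_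
  refine rco (v := (((((cb : ℝ) / 2 ^ 8) * ((((zf β px py ex ey r s) * (zf β px py ex ey r s)) * (zf β px py ex ey r s)) * (zD2 β px py ex ey r s))) - (hr2 β (zX β px ex r s) (zY β py ey r s) 0 7)) - (1 / 16384 : ℝ))) rfl ?_
  refine rco (v := ((pb : ℝ) / 2 ^ 8)) rfl ?_
  refine rco (v := (((pb : ℝ) / 2 ^ 8) * ((zf β px py ex ey r s) * (zf β px py ex ey r s)))) rfl ?_
  refine rco (v := ((((pb : ℝ) / 2 ^ 8) * ((zf β px py ex ey r s) * (zf β px py ex ey r s))) - (hr2 β (zX β px ex r s) (zY β py ey r s) 92 4))) rfl ?_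
  refine rco (v := (((((pb : ℝ) / 2 ^ 8) * ((zf β px py ex ey r s) * (zf β px py ex ey r s))) - (hr2 β (zX β px ex r s) (zY β py ey r s) 92 4)) - (1 / 65536 : ℝ))) rfl ?_
  refine rco (v := ((((pb : ℝ) / 2 ^ 8) * ((zf β px py ex ey r s) * (zf β px py ex ey r s))) + (hr2 β (zX β px ex r s) (zY β py ey r s) 92 4))) rfl ?_
  refine rco (v := (((((pb : ℝ) / 2 ^ 8) * ((zf β px py ex ey r s) * (zf β px py ex ey r s))) + (hr2 β (zX β px ex r s) (zY β py ey r s) 92 4)) - (1 / 65536 : ℝ))) rfl ?_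
  refine rco (v := ((hb : ℝ) / 2 ^ 10)) rfl ?_
  refine rco (v := (((hb : ℝ) / 2 ^ 10) * ((hb : ℝ) / 2 ^ 10))) rfl ?_
  refine rco (v := (((β 128) + (zX β px ex r s)) * ((β 128) + (zX β px ex r s)))) rfl ?_
  refine rco (v := (((β 129) + (zY β py ey r s)) * ((β 129) + (zY β py ey r s)))) rfl ?_
  refine rco (v := ((((β 128) + (zX β px ex r s)) * ((β 128) + (zX β px ex r s))) + (((β 129) + (zY β py ey r s)) * ((β 129) + (zY β py ey r s))))) rfl ?_
  refine rco (v := ((((hb : ℝ) / 2 ^ 10) * ((hb : ℝ) / 2 ^ 10)) - ((((β 128) + (zX β px ex r s)) * ((β 128) + (zX β px ex r s))) + (((β 129) + (zY β py ey r s)) * ((β 129) + (zY β py ey r s)))))) rfl ?_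
  rfl

theorem qZA2_val (β : ℕ → ℝ) (r s : ℝ) (px py ex ey cb pb hb : Int) (k : ℕ) :
    (qZA2 px py ex ey cb pb hb).val (realAlg β r s) k = get2 0
      [vZA2_C0 β px py ex ey cb pb hb r s,
        vZA2_C1 β px py ex ey cb pb hb r s,
        vZA2_P1 β px py ex ey cb pb hb r s,
        vZA2_P2 β px py ex ey cb pb hb r s,
        vZA2_H β px py ex ey cb pb hb r s] k := by
  unfold Prg.val
  rw [(qZA2 px py ex ey cb pb hb).h]
  show get2 0 (outs (realAlg β r s) (pZA2 px py ex ey cb pb hb) [18, 12, 8, 6, 0]) k = _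
  rw [pZA2_val]

end Pool.H61.Rh
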