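import Pool.Agent.H47.K3.Defs
import Pool.Agent.H81.Lv.Zf

/-! # generated: zone program, Q, W, vertex 0 -/

set_option autoImplicit false
set_option maxRecDepth 100000
set_option linter.unusedVariables false

namespace Pool.H61.Rh

open Pool.H47.Kc Pool.H47.K3

/-- program -/
def pZB0 (px py ex ey lam K0 K1 Ph Qb : Int) : List Op :=
  [.x, .y, .cst px 21, .base 134, .sub 1 0, .cst ex 21, .mul 4 0, .add 2 0, .cst py 21, 
   .base 135, .sub 1 0, .cst ey 21, .mul 10 0, .add 2 0, .mul 13 6, .mul 14 1, .base 130, 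
   .base 131, .mul 0 3, .base 132, .mul 0 4, .add 2 0, .add 5 0, .cst 1 0, .base 128, 
   .add 0 10, .add 0 0, .sub 3 0, .base 35, .base 34, .base 33, .mul 16 1, .add 1 0, 
   .mul 17 4, .add 1 0, .base 32, .base 31, .mul 22 1, .add 1 0, .base 30, .mul 25 1, 
   .add 1 0, .mul 26 7, .add 1 0, .base 29, .base 28, .mul 31 1, .add 1 0, .base 27, 
   .mul 34 1, .add 1 0, .base 26, .mul 37 1, .add 1 0, .mul 38 10, .add 1 0, .base 25, 
   .base 24, .mul 43 1, .add 1 0, .base 23, .mul 46 1, .add 1 0, .base 22, .mul 49 1, 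
   .add 1 0, .base 21, .mul 52 1, .add 1 0, .mul 53 13, .add 1 0, .base 20, .base 19, 
   .mul 58 1, .add 1 0, .base 18, .mul 61 1, .add 1 0, .base 17, .mul 64 1, .add 1 0, 
   .base 16, .mul 67 1, .add 1 0, .base 15, .mul 70 1, .add 1 0, .mul 71 16, .add 1 0, 
   .base 14, .base 13, .mul 76 1, .add 1 0, .base 12, .mul 79 1, .add 1 0, .base 11, 
   .mul 82 1, .add 1 0, .base 10, .mul 85 1, .add 1 0, .base 9, .mul 88 1, .add 1 0, 
   .base 8, .mul 91 1, .add 1 0, .mul 92 19, .add 1 0, .base 7, .base 6, .mul 97 1, 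
   .add 1 0, .base 5, .mul 100 1, .add 1 0, .base 4, .mul 103 1, .add 1 0, .base 3, 
   .mul 106 1, .add 1 0, .base 2, .mul 109 1, .add 1 0, .base 1, .mul 112 1, .add 1 0, 
   .base 0, .mul 115 1, .add 1 0, .mul 116 22, .add 1 0, .base 63, .base 62, .base 61, 
   .mul 122 1, .add 1 0, .mul 123 4, .add 1 0, .base 60, .base 59, .mul 128 1, .add 1 0, 
   .base 58, .mul 131 1, .add 1 0, .mul 132 7, .add 1 0, .base 57, .base 56, .mul 137 1, 
   .add 1 0, .base 55, .mul 140 1, .add 1 0, .base 54, .mul 143 1, .add 1 0, .mul 144 10, 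
   .add 1 0, .base 53, .base 52, .mul 149 1, .add 1 0, .base 51, .mul 152 1, .add 1 0, 
   .base 50, .mul 155 1, .add 1 0, .base 49, .mul 158 1, .add 1 0, .mul 159 13, .add 1 0, 
   .base 48, .base 47, .mul 164 1, .add 1 0, .base 46, .mul 167 1, .add 1 0, .base 45, 
   .mul 170 1, .add 1 0, .base 44, .mul 173 1, .add 1 0, .base 43, .mul 176 1, .add 1 0, 
   .mul 177 16, .add 1 0, .base 42, .base 41, .mul 182 1, .add 1 0, .base 40, .mul 185 1, 
   .add 1 0, .base 39, .mul 188 1, .add 1 0, .base 38, .mul 191 1, .add 1 0, .base 37, 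
   .mul 194 1, .add 1 0, .base 36, .mul 197 1, .add 1 0, .mul 198 19, .add 1 0, .base 91, 
   .base 90, .base 89, .mul 204 1, .add 1 0, .mul 205 4, .add 1 0, .base 88, .base 87, 
   .mul 210 1, .add 1 0, .base 86, .mul 213 1, .add 1 0, .mul 214 7, .add 1 0, .base 85, 
   .base 84, .mul 219 1, .add 1 0, .base 83, .mul 222 1, .add 1 0, .base 82, .mul 225 1, 
   .add 1 0, .mul 226 10, .add 1 0, .base 81, .base 80, .mul 231 1, .add 1 0, .base 79, 
   .mul 234 1, .add 1 0, .base 78, .mul 237 1, .add 1 0, .base 77, .mul 240 1, .add 1 0, 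
   .mul 241 13, .add 1 0, .base 76, .base 75, .mul 246 1, .add 1 0, .base 74, .mul 249 1, 
   .add 1 0, .base 73, .mul 252 1, .add 1 0, .base 72, .mul 255 1, .add 1 0, .base 71, 
   .mul 258 1, .add 1 0, .mul 259 16, .add 1 0, .base 70, .base 69, .mul 264 1, .add 1 0, 
   .base 68, .mul 267 1, .add 1 0, .base 67, .mul 270 1, .add 1 0, .base 66, .mul 273 1, 
   .add 1 0, .base 65, .mul 276 1, .add 1 0, .base 64, .mul 279 1, .add 1 0, .mul 280 19, 
   .add 1 0, .base 106, .base 105, .base 104, .mul 286 1, .add 1 0, .mul 287 4, .add 1 0, 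
   .base 103, .base 102, .mul 292 1, .add 1 0, .base 101, .mul 295 1, .add 1 0, 
   .mul 296 7, .add 1 0, .base 100, .base 99, .mul 301 1, .add 1 0, .base 98, .mul 304 1, 
   .add 1 0, .base 97, .mul 307 1, .add 1 0, .mul 308 10, .add 1 0, .base 96, .base 95, 
   .mul 313 1, .add 1 0, .base 94, .mul 316 1, .add 1 0, .base 93, .mul 319 1, .add 1 0, 
   .base 92, .mul 322 1, .add 1 0, .mul 323 13, .add 1 0, .mul 318 318, .mul 314 314, 
   .cst 257 8, .cst 1 16, .cst Qb 8, .mul 0 0, .mul 5 4, .mul 1 0, .mul 133 133, 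
   .mul 52 52, .add 1 0, .mul 0 8, .sub 4 0, .cst 257 26, .sub 1 0, .base 129, 
   .add 0 341, .base 136, .mul 0 225, .cst lam 6, .mul 0 333, .mul 0 336, .mul 340 147, 
   .mul 4 338, .add 1 0, .sub 3 0, .mul 5 9, .mul 345 70, .mul 9 11, .add 1 0, .sub 3 0, 
   .cst K0 14, .cst K1 14, .mul 0 373, .add 2 0, .cst 4 0, .mul 16 0, .mul 355 35, 
   .mul 1 0, .mul 4 38, .base 137, .sub 41 37, .mul 1 0, .add 3 0, .mul 5 0, .cst Ph 10, 
   .mul 20 20, .mul 16 16, .add 1 0, .mul 0 46, .cst 257 24, .add 1 0, .mul 6 0, .sub 8 0]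

/-- value -/
noncomputable def vZB0_Q (β : ℕ → ℝ) (px py ex ey lam K0 K1 Ph Qb : Int) (r s : ℝ) : ℝ :=
  ((((((Qb : ℝ) / 2 ^ 8) * ((Qb : ℝ) / 2 ^ 8)) * (((zf β px py ex ey r s) * (zf β px py ex ey r s)) * ((zD0 β px ex r s) * (zD0 β px ex r s)))) - ((((hr2 β (zX β px ex r s) (zY β py ey r s) 36 6) * (hr2 β (zX β px ex r s) (zY β py ey r s) 36 6)) + ((hr2 β (zX β px ex r s) (zY β py ey r s) 64 6) * (hr2 β (zX β px ex r s) (zY β py ey r s) 64 6))) * (257 / 256 : ℝ))) - (257 / 67108864 : ℝ))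

/-- value -/
noncomputable def vZB0_W (β : ℕ → ℝ) (px py ex ey lam K0 K1 Ph Qb : Int) (r s : ℝ) : ℝ :=
  ((((((lam : ℝ) / 2 ^ 6) * (4 : ℝ)) * ((zf β px py ex ey r s) * ((zD0 β px ex r s) * (zD0 β px ex r s)))) * (((((K0 : ℝ) / 2 ^ 14) + (((K1 : ℝ) / 2 ^ 14) * r)) * ((zf β px py ex ey r s) * (zf β px py ex ey r s))) + ((β 137) * ((hr2 β (zX β px ex r s) (zY β py ey r s) 92 4) - (1 / 65536 : ℝ))))) - (((Ph : ℝ) / 2 ^ 10) * (((((((((lam : ℝ) / 2 ^ 6) * (zD0 β px ex r s)) * ((β 128) + (zX β px ex r s))) - (((zf β px py ex ey r s) * (hr2 β (zX β px ex r s) (zY β py ey r s) 36 6)) + (((β 136) * (hr2 β (zX β px ex r s) (zY β py ey r s) 0 7)) * ((β 128) + (zX β px ex r s))))) * (((((lam : ℝ) / 2 ^ 6) * (zD0 β px ex r s)) * ((β 128) + (zX β px ex r s))) - (((zf β px py ex ey r s) * (hr2 β (zX β px ex r s) (zY β py ey r s) 36 6)) + (((β 136) * (hr2 β (zX β px ex r s) (zY β py ey r s) 0 7)) * ((β 128) + (zX β px ex r s)))))) + ((((((lam : ℝ) / 2 ^ 6) * (zD0 β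 px ex r s)) * ((β 129) + (zY β py ey r s))) - (((zf β px py ex ey r s) * (hr2 β (zX β px ex r s) (zY β py ey r s) 64 6)) + (((β 136) * (hr2 β (zX β px ex r s) (zY β py ey r s) 0 7)) * ((β 129) + (zY β py ey r s))))) * (((((lam : ℝ) / 2 ^ 6) * (zD0 β px ex r s)) * ((β 129) + (zY β py ey r s))) - (((zf β px py ex ey r s) * (hr2 β (zX β px ex r s) (zY β py ey r s) 64 6)) + (((β 136) * (hr2 β (zX β px ex r s) (zY β py ey r s) 0 7)) * ((β 129) + (zY β py ey r s))))))) * (257 / 256 : ℝ)) + (257 / 16777216 : ℝ))))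

def qZB0_b24 {α : Type} (px py ex ey lam K0 K1 Ph Qb : Int) (A : Alg α) (v343 v355 v366 v371 v379 v380 v383 : α) : List α :=
  let v384 := A.add v380 v383
  let v385 := A.mul v379 v384
  let v386 := A.cst Ph 10
  let v387 := A.mul v366 v366
  let v388 := A.mul v371 v371
  let v389 := A.add v387 v388
  let v390 := A.mul v389 v343
  let v391 := A.cst (257) 24
  let v392 := A.add v390 v391
  let v393 := A.mul v386 v392
  let v394 := A.sub v385 v393
  [v355, v394]

def qZB0_b23 {α : Type} (px py ex ey lam K0 K1 Ph Qb : Int) (A : Alg α) (v0 v22 v297 v340 v341 v342 v343 v344 v355 v357 v359 v360 v366 v367 : α) : List α :=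
  let v368 := A.mul v22 v297
  let v369 := A.mul v359 v357
  let v370 := A.add v368 v369
  let v371 := A.sub v367 v370
  let v372 := A.cst K0 14
  let v373 := A.cst K1 14
  let v374 := A.mul v373 v0
  let v375 := A.add v372 v374
  let v376 := A.cst (4) 0
  let v377 := A.mul v360 v376
  let v378 := A.mul v22 v342
  let v379 := A.mul v377 v378
  let v380 := A.mul v375 v341
  let v381 := A.base 137
  let v382 := A.sub v340 v344
  let v383 := A.mul v381 v382
  qZB0_b24 px py ex ey lam K0 K1 Ph Qb A v343 v355 v366 v371 v379 v380 v383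

def qZB0_b22 {α : Type} (px py ex ey lam K0 K1 Ph Qb : Int) (A : Alg α) (v0 v15 v22 v25 v27 v133 v215 v297 v340 v341 v342 v343 v344 v348 v351 : α) : List α :=
  let v352 := A.mul v351 v343
  let v353 := A.sub v348 v352
  let v354 := A.cst (257) 26
  let v355 := A.sub v353 v354
  let v356 := A.base 129
  let v357 := A.add v356 v15
  let v358 := A.base 136
  let v359 := A.mul v358 v133
  let v360 := A.cst lam 6
  let v361 := A.mul v360 v27
  let v362 := A.mul v361 v25
  let v363 := A.mul v22 v215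
  let v364 := A.mul v359 v25
  let v365 := A.add v363 v364
  let v366 := A.sub v362 v365
  let v367 := A.mul v361 v357
  qZB0_b23 px py ex ey lam K0 K1 Ph Qb A v0 v22 v297 v340 v341 v342 v343 v344 v355 v357 v359 v360 v366 v367

def qZB0_b21 {α : Type} (px py ex ey lam K0 K1 Ph Qb : Int) (A : Alg α) (v0 v14 v15 v22 v25 v27 v133 v215 v297 v325 v335 : α) : List α :=
  let v336 := A.base 92
  let v337 := A.mul v14 v335
  let v338 := A.add v336 v337
  let v339 := A.mul v15 v325
  let v340 := A.add v338 v339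
  let v341 := A.mul v22 v22
  let v342 := A.mul v27 v27
  let v343 := A.cst (257) 8
  let v344 := A.cst (1) 16
  let v345 := A.cst Qb 8
  let v346 := A.mul v345 v345
  let v347 := A.mul v341 v342
  let v348 := A.mul v346 v347
  let v349 := A.mul v215 v215
  let v350 := A.mul v297 v297
  let v351 := A.add v349 v350
  qZB0_b22 px py ex ey lam K0 K1 Ph Qb A v0 v15 v22 v25 v27 v133 v215 v297 v340 v341 v342 v343 v344 v348 v351

def qZB0_b20 {α : Type} (px py ex ey lam K0 K1 Ph Qb : Int) (A : Alg α) (v0 v14 v15 v22 v25 v27 v133 v215 v297 v313 v318 v319 : α) : List α :=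
  let v320 := A.add v318 v319
  let v321 := A.base 97
  let v322 := A.mul v14 v320
  let v323 := A.add v321 v322
  let v324 := A.mul v15 v313
  let v325 := A.add v323 v324
  let v326 := A.base 96
  let v327 := A.base 95
  let v328 := A.mul v14 v326
  let v329 := A.add v327 v328
  let v330 := A.base 94
  let v331 := A.mul v14 v329
  let v332 := A.add v330 v331
  let v333 := A.base 93
  let v334 := A.mul v14 v332
  let v335 := A.add v333 v334
  qZB0_b21 px py ex ey lam K0 K1 Ph Qb A v0 v14 v15 v22 v25 v27 v133 v215 v297 v325 v335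

def qZB0_b19 {α : Type} (px py ex ey lam K0 K1 Ph Qb : Int) (A : Alg α) (v0 v14 v15 v22 v25 v27 v133 v215 v297 v302 v303 : α) : List α :=
  let v304 := A.add v302 v303
  let v305 := A.base 103
  let v306 := A.base 102
  let v307 := A.mul v14 v305
  let v308 := A.add v306 v307
  let v309 := A.base 101
  let v310 := A.mul v14 v308
  let v311 := A.add v309 v310
  let v312 := A.mul v15 v304
  let v313 := A.add v311 v312
  let v314 := A.base 100
  let v315 := A.base 99
  let v316 := A.mul v14 v314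
  let v317 := A.add v315 v316
  let v318 := A.base 98
  let v319 := A.mul v14 v317
  qZB0_b20 px py ex ey lam K0 K1 Ph Qb A v0 v14 v15 v22 v25 v27 v133 v215 v297 v313 v318 v319

def qZB0_b18 {α : Type} (px py ex ey lam K0 K1 Ph Qb : Int) (A : Alg α) (v0 v14 v15 v22 v25 v27 v133 v215 v276 v286 v287 : α) : List α :=
  let v288 := A.mul v14 v286
  let v289 := A.add v287 v288
  let v290 := A.base 65
  let v291 := A.mul v14 v289
  let v292 := A.add v290 v291
  let v293 := A.base 64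
  let v294 := A.mul v14 v292
  let v295 := A.add v293 v294
  let v296 := A.mul v15 v276
  let v297 := A.add v295 v296
  let v298 := A.base 106
  let v299 := A.base 105
  let v300 := A.base 104
  let v301 := A.mul v14 v299
  let v302 := A.add v300 v301
  let v303 := A.mul v15 v298
  qZB0_b19 px py ex ey lam K0 K1 Ph Qb A v0 v14 v15 v22 v25 v27 v133 v215 v297 v302 v303

def qZB0_b17 {α : Type} (px py ex ey lam K0 K1 Ph Qb : Int) (A : Alg α) (v0 v14 v15 v22 v25 v27 v133 v215 v258 v271 : α) : List α :=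
  let v272 := A.base 71
  let v273 := A.mul v14 v271
  let v274 := A.add v272 v273
  let v275 := A.mul v15 v258
  let v276 := A.add v274 v275
  let v277 := A.base 70
  let v278 := A.base 69
  let v279 := A.mul v14 v277
  let v280 := A.add v278 v279
  let v281 := A.base 68
  let v282 := A.mul v14 v280
  let v283 := A.add v281 v282
  let v284 := A.base 67
  let v285 := A.mul v14 v283
  let v286 := A.add v284 v285
  let v287 := A.base 66
  qZB0_b18 px py ex ey lam K0 K1 Ph Qb A v0 v14 v15 v22 v25 v27 v133 v215 v276 v286 v287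

def qZB0_b16 {α : Type} (px py ex ey lam K0 K1 Ph Qb : Int) (A : Alg α) (v0 v14 v15 v22 v25 v27 v133 v215 v243 v254 v255 : α) : List α :=
  let v256 := A.add v254 v255
  let v257 := A.mul v15 v243
  let v258 := A.add v256 v257
  let v259 := A.base 76
  let v260 := A.base 75
  let v261 := A.mul v14 v259
  let v262 := A.add v260 v261
  let v263 := A.base 74
  let v264 := A.mul v14 v262
  let v265 := A.add v263 v264
  let v266 := A.base 73
  let v267 := A.mul v14 v265
  let v268 := A.add v266 v267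
  let v269 := A.base 72
  let v270 := A.mul v14 v268
  let v271 := A.add v269 v270
  qZB0_b17 px py ex ey lam K0 K1 Ph Qb A v0 v14 v15 v22 v25 v27 v133 v215 v258 v271

def qZB0_b15 {α : Type} (px py ex ey lam K0 K1 Ph Qb : Int) (A : Alg α) (v0 v14 v15 v22 v25 v27 v133 v215 v231 v238 v239 : α) : List α :=
  let v240 := A.mul v14 v238
  let v241 := A.add v239 v240
  let v242 := A.mul v15 v231
  let v243 := A.add v241 v242
  let v244 := A.base 81
  let v245 := A.base 80
  let v246 := A.mul v14 v244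
  let v247 := A.add v245 v246
  let v248 := A.base 79
  let v249 := A.mul v14 v247
  let v250 := A.add v248 v249
  let v251 := A.base 78
  let v252 := A.mul v14 v250
  let v253 := A.add v251 v252
  let v254 := A.base 77
  let v255 := A.mul v14 v253
  qZB0_b16 px py ex ey lam K0 K1 Ph Qb A v0 v14 v15 v22 v25 v27 v133 v215 v243 v254 v255

def qZB0_b14 {α : Type} (px py ex ey lam K0 K1 Ph Qb : Int) (A : Alg α) (v0 v14 v15 v22 v25 v27 v133 v215 v222 v223 : α) : List α :=
  let v224 := A.base 87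
  let v225 := A.mul v14 v223
  let v226 := A.add v224 v225
  let v227 := A.base 86
  let v228 := A.mul v14 v226
  let v229 := A.add v227 v228
  let v230 := A.mul v15 v222
  let v231 := A.add v229 v230
  let v232 := A.base 85
  let v233 := A.base 84
  let v234 := A.mul v14 v232
  let v235 := A.add v233 v234
  let v236 := A.base 83
  let v237 := A.mul v14 v235
  let v238 := A.add v236 v237
  let v239 := A.base 82
  qZB0_b15 px py ex ey lam K0 K1 Ph Qb A v0 v14 v15 v22 v25 v27 v133 v215 v231 v238 v239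

def qZB0_b13 {α : Type} (px py ex ey lam K0 K1 Ph Qb : Int) (A : Alg α) (v0 v14 v15 v22 v25 v27 v133 v194 v207 : α) : List α :=
  let v208 := A.base 37
  let v209 := A.mul v14 v207
  let v210 := A.add v208 v209
  let v211 := A.base 36
  let v212 := A.mul v14 v210
  let v213 := A.add v211 v212
  let v214 := A.mul v15 v194
  let v215 := A.add v213 v214
  let v216 := A.base 91
  let v217 := A.base 90
  let v218 := A.base 89
  let v219 := A.mul v14 v217
  let v220 := A.add v218 v219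
  let v221 := A.mul v15 v216
  let v222 := A.add v220 v221
  let v223 := A.base 88
  qZB0_b14 px py ex ey lam K0 K1 Ph Qb A v0 v14 v15 v22 v25 v27 v133 v215 v222 v223

def qZB0_b12 {α : Type} (px py ex ey lam K0 K1 Ph Qb : Int) (A : Alg α) (v0 v14 v15 v22 v25 v27 v133 v176 v190 v191 : α) : List α :=
  let v192 := A.add v190 v191
  let v193 := A.mul v15 v176
  let v194 := A.add v192 v193
  let v195 := A.base 42
  let v196 := A.base 41
  let v197 := A.mul v14 v195
  let v198 := A.add v196 v197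
  let v199 := A.base 40
  let v200 := A.mul v14 v198
  let v201 := A.add v199 v200
  let v202 := A.base 39
  let v203 := A.mul v14 v201
  let v204 := A.add v202 v203
  let v205 := A.base 38
  let v206 := A.mul v14 v204
  let v207 := A.add v205 v206
  qZB0_b13 px py ex ey lam K0 K1 Ph Qb A v0 v14 v15 v22 v25 v27 v133 v194 v207

def qZB0_b11 {α : Type} (px py ex ey lam K0 K1 Ph Qb : Int) (A : Alg α) (v0 v14 v15 v22 v25 v27 v133 v174 v175 : α) : List α :=
  let v176 := A.add v174 v175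
  let v177 := A.base 48
  let v178 := A.base 47
  let v179 := A.mul v14 v177
  let v180 := A.add v178 v179
  let v181 := A.base 46
  let v182 := A.mul v14 v180
  let v183 := A.add v181 v182
  let v184 := A.base 45
  let v185 := A.mul v14 v183
  let v186 := A.add v184 v185
  let v187 := A.base 44
  let v188 := A.mul v14 v186
  let v189 := A.add v187 v188
  let v190 := A.base 43
  let v191 := A.mul v14 v189
  qZB0_b12 px py ex ey lam K0 K1 Ph Qb A v0 v14 v15 v22 v25 v27 v133 v176 v190 v191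

def qZB0_b10 {α : Type} (px py ex ey lam K0 K1 Ph Qb : Int) (A : Alg α) (v0 v14 v15 v22 v25 v27 v133 v149 v159 : α) : List α :=
  let v160 := A.mul v15 v149
  let v161 := A.add v159 v160
  let v162 := A.base 53
  let v163 := A.base 52
  let v164 := A.mul v14 v162
  let v165 := A.add v163 v164
  let v166 := A.base 51
  let v167 := A.mul v14 v165
  let v168 := A.add v166 v167
  let v169 := A.base 50
  let v170 := A.mul v14 v168
  let v171 := A.add v169 v170
  let v172 := A.base 49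
  let v173 := A.mul v14 v171
  let v174 := A.add v172 v173
  let v175 := A.mul v15 v161
  qZB0_b11 px py ex ey lam K0 K1 Ph Qb A v0 v14 v15 v22 v25 v27 v133 v174 v175

def qZB0_b9 {α : Type} (px py ex ey lam K0 K1 Ph Qb : Int) (A : Alg α) (v0 v14 v15 v22 v25 v27 v133 v140 v142 v143 : α) : List α :=
  let v144 := A.add v142 v143
  let v145 := A.base 58
  let v146 := A.mul v14 v144
  let v147 := A.add v145 v146
  let v148 := A.mul v15 v140
  let v149 := A.add v147 v148
  let v150 := A.base 57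
  let v151 := A.base 56
  let v152 := A.mul v14 v150
  let v153 := A.add v151 v152
  let v154 := A.base 55
  let v155 := A.mul v14 v153
  let v156 := A.add v154 v155
  let v157 := A.base 54
  let v158 := A.mul v14 v156
  let v159 := A.add v157 v158
  qZB0_b10 px py ex ey lam K0 K1 Ph Qb A v0 v14 v15 v22 v25 v27 v133 v149 v159

def qZB0_b8 {α : Type} (px py ex ey lam K0 K1 Ph Qb : Int) (A : Alg α) (v0 v14 v15 v22 v25 v27 v109 v126 v127 : α) : List α :=
  let v128 := A.add v126 v127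
  let v129 := A.base 0
  let v130 := A.mul v14 v128
  let v131 := A.add v129 v130
  let v132 := A.mul v15 v109
  let v133 := A.add v131 v132
  let v134 := A.base 63
  let v135 := A.base 62
  let v136 := A.base 61
  let v137 := A.mul v14 v135
  let v138 := A.add v136 v137
  let v139 := A.mul v15 v134
  let v140 := A.add v138 v139
  let v141 := A.base 60
  let v142 := A.base 59
  let v143 := A.mul v14 v141
  qZB0_b9 px py ex ey lam K0 K1 Ph Qb A v0 v14 v15 v22 v25 v27 v133 v140 v142 v143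

def qZB0_b7 {α : Type} (px py ex ey lam K0 K1 Ph Qb : Int) (A : Alg α) (v0 v14 v15 v22 v25 v27 v109 v110 v111 : α) : List α :=
  let v112 := A.mul v14 v110
  let v113 := A.add v111 v112
  let v114 := A.base 5
  let v115 := A.mul v14 v113
  let v116 := A.add v114 v115
  let v117 := A.base 4
  let v118 := A.mul v14 v116
  let v119 := A.add v117 v118
  let v120 := A.base 3
  let v121 := A.mul v14 v119
  let v122 := A.add v120 v121
  let v123 := A.base 2
  let v124 := A.mul v14 v122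
  let v125 := A.add v123 v124
  let v126 := A.base 1
  let v127 := A.mul v14 v125
  qZB0_b8 px py ex ey lam K0 K1 Ph Qb A v0 v14 v15 v22 v25 v27 v109 v126 v127

def qZB0_b6 {α : Type} (px py ex ey lam K0 K1 Ph Qb : Int) (A : Alg α) (v0 v14 v15 v22 v25 v27 v88 v95 : α) : List α :=
  let v96 := A.base 11
  let v97 := A.mul v14 v95
  let v98 := A.add v96 v97
  let v99 := A.base 10
  let v100 := A.mul v14 v98
  let v101 := A.add v99 v100
  let v102 := A.base 9
  let v103 := A.mul v14 v101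
  let v104 := A.add v102 v103
  let v105 := A.base 8
  let v106 := A.mul v14 v104
  let v107 := A.add v105 v106
  let v108 := A.mul v15 v88
  let v109 := A.add v107 v108
  let v110 := A.base 7
  let v111 := A.base 6
  qZB0_b7 px py ex ey lam K0 K1 Ph Qb A v0 v14 v15 v22 v25 v27 v109 v110 v111

def qZB0_b5 {α : Type} (px py ex ey lam K0 K1 Ph Qb : Int) (A : Alg α) (v0 v14 v15 v22 v25 v27 v70 v78 v79 : α) : List α :=
  let v80 := A.add v78 v79
  let v81 := A.base 16
  let v82 := A.mul v14 v80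
  let v83 := A.add v81 v82
  let v84 := A.base 15
  let v85 := A.mul v14 v83
  let v86 := A.add v84 v85
  let v87 := A.mul v15 v70
  let v88 := A.add v86 v87
  let v89 := A.base 14
  let v90 := A.base 13
  let v91 := A.mul v14 v89
  let v92 := A.add v90 v91
  let v93 := A.base 12
  let v94 := A.mul v14 v92
  let v95 := A.add v93 v94
  qZB0_b6 px py ex ey lam K0 K1 Ph Qb A v0 v14 v15 v22 v25 v27 v88 v95

def qZB0_b4 {α : Type} (px py ex ey lam K0 K1 Ph Qb : Int) (A : Alg α) (v0 v14 v15 v22 v25 v27 v55 v62 v63 : α) : List α :=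
  let v64 := A.mul v14 v62
  let v65 := A.add v63 v64
  let v66 := A.base 21
  let v67 := A.mul v14 v65
  let v68 := A.add v66 v67
  let v69 := A.mul v15 v55
  let v70 := A.add v68 v69
  let v71 := A.base 20
  let v72 := A.base 19
  let v73 := A.mul v14 v71
  let v74 := A.add v72 v73
  let v75 := A.base 18
  let v76 := A.mul v14 v74
  let v77 := A.add v75 v76
  let v78 := A.base 17
  let v79 := A.mul v14 v77
  qZB0_b5 px py ex ey lam K0 K1 Ph Qb A v0 v14 v15 v22 v25 v27 v70 v78 v79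

def qZB0_b3 {α : Type} (px py ex ey lam K0 K1 Ph Qb : Int) (A : Alg α) (v0 v14 v15 v22 v25 v27 v43 v47 : α) : List α :=
  let v48 := A.base 27
  let v49 := A.mul v14 v47
  let v50 := A.add v48 v49
  let v51 := A.base 26
  let v52 := A.mul v14 v50
  let v53 := A.add v51 v52
  let v54 := A.mul v15 v43
  let v55 := A.add v53 v54
  let v56 := A.base 25
  let v57 := A.base 24
  let v58 := A.mul v14 v56
  let v59 := A.add v57 v58
  let v60 := A.base 23
  let v61 := A.mul v14 v59
  let v62 := A.add v60 v61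
  let v63 := A.base 22
  qZB0_b4 px py ex ey lam K0 K1 Ph Qb A v0 v14 v15 v22 v25 v27 v55 v62 v63

def qZB0_b2 {α : Type} (px py ex ey lam K0 K1 Ph Qb : Int) (A : Alg α) (v0 v14 v15 v22 v25 v27 v28 v30 v31 : α) : List α :=
  let v32 := A.add v30 v31
  let v33 := A.mul v15 v28
  let v34 := A.add v32 v33
  let v35 := A.base 32
  let v36 := A.base 31
  let v37 := A.mul v14 v35
  let v38 := A.add v36 v37
  let v39 := A.base 30
  let v40 := A.mul v14 v38
  let v41 := A.add v39 v40
  let v42 := A.mul v15 v34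
  let v43 := A.add v41 v42
  let v44 := A.base 29
  let v45 := A.base 28
  let v46 := A.mul v14 v44
  let v47 := A.add v45 v46
  qZB0_b3 px py ex ey lam K0 K1 Ph Qb A v0 v14 v15 v22 v25 v27 v43 v47

def qZB0_b1 {α : Type} (px py ex ey lam K0 K1 Ph Qb : Int) (A : Alg α) (v0 v14 v15 : α) : List α :=
  let v16 := A.base 130
  let v17 := A.base 131
  let v18 := A.mul v17 v14
  let v19 := A.base 132
  let v20 := A.mul v19 v15
  let v21 := A.add v18 v20
  let v22 := A.add v16 v21
  let v23 := A.cst (1) 0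
  let v24 := A.base 128
  let v25 := A.add v24 v14
  let v26 := A.add v25 v25
  let v27 := A.sub v23 v26
  let v28 := A.base 35
  let v29 := A.base 34
  let v30 := A.base 33
  let v31 := A.mul v14 v29
  qZB0_b2 px py ex ey lam K0 K1 Ph Qb A v0 v14 v15 v22 v25 v27 v28 v30 v31

def qZB0_f {α : Type} (px py ex ey lam K0 K1 Ph Qb : Int) (A : Alg α) : List α :=
  let v0 := A.x
  let v1 := A.y
  let v2 := A.cst px 21
  let v3 := A.base 134
  let v4 := A.sub v2 v3
  let v5 := A.cst ex 21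
  let v6 := A.mul v1 v5
  let v7 := A.add v4 v6
  let v8 := A.cst py 21
  let v9 := A.base 135
  let v10 := A.sub v8 v9
  let v11 := A.cst ey 21
  let v12 := A.mul v1 v11
  let v13 := A.add v10 v12
  let v14 := A.mul v0 v7
  let v15 := A.mul v0 v13
  qZB0_b1 px py ex ey lam K0 K1 Ph Qb A v0 v14 v15

theorem qZB0_h {α : Type} (px py ex ey lam K0 K1 Ph Qb : Int) (A : Alg α) : qZB0_f px py ex ey lam K0 K1 Ph Qb A = outs A (pZB0 px py ex ey lam K0 K1 Ph Qb) [39, 0] := rfl

def qZB0 (px py ex ey lam K0 K1 Ph Qb : Int) : Prg :=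
  ⟨pZB0 px py ex ey lam K0 K1 Ph Qb, [39, 0], qZB0_f px py ex ey lam K0 K1 Ph Qb, qZB0_h px py ex ey lam K0 K1 Ph Qb⟩

set_option maxHeartbeats 4000000 in
theorem pZB0_val (β : ℕ → ℝ) (r s : ℝ) (px py ex ey lam K0 K1 Ph Qb : Int) :
    outs (realAlg β r s) (pZB0 px py ex ey lam K0 K1 Ph Qb) [39, 0] =
      [vZB0_Q β px py ex ey lam K0 K1 Ph Qb r s,
        vZB0_W β px py ex ey lam K0 K1 Ph Qb r s] := by
  unfold outs pZB0
  refine rco (v := r) rfl ?_
  refine rco (v := s) rfl ?_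
  refine rco (v := ((px : ℝ) / 2 ^ 21)) rfl ?_
  refine rco (v := (β 134)) rfl ?_
  refine rco (v := (((px : ℝ) / 2 ^ 21) - (β 134))) rfl ?_
  refine rco (v := ((ex : ℝ) / 2 ^ 21)) rfl ?_
  refine rco (v := (s * ((ex : ℝ) / 2 ^ 21))) rfl ?_
  refine rco (v := (zXh β px ex s)) rfl ?_
  refine rco (v := ((py : ℝ) / 2 ^ 21)) rfl ?_
  refine rco (v := (β 135)) rfl ?_
  refine rco (v := (((py : ℝ) / 2 ^ 21) - (β 135))) rfl ?_
  refine rco (v := ((ey : ℝ) / 2 ^ 21)) rfl ?_
  refine rco (v := (s * ((ey : ℝ) / 2 ^ 21))) rfl ?_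
  refine rco (v := (zYh β py ey s)) rfl ?_
  refine rco (v := (zX β px ex r s)) rfl ?_
  refine rco (v := (zY β py ey r s)) rfl ?_
  refine rco (v := (β 130)) rfl ?_
  refine rco (v := (β 131)) rfl ?_
  refine rco (v := ((β 131) * (zX β px ex r s))) rfl ?_
  refine rco (v := (β 132)) rfl ?_
  refine rco (v := ((β 132) * (zY β py ey r s))) rfl ?_
  refine rco (v := (((β 131) * (zX β px ex r s)) + ((β 132) * (zY β py ey r s)))) rfl ?_
  refine rco (v := (zf β px py ex ey r s)) rfl ?_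
  refine rco (v := (1 : ℝ)) (by norm_num [step, realAlg]) ?_
  refine rco (v := (β 128)) rfl ?_
  refine rco (v := ((β 128) + (zX β px ex r s))) rfl ?_
  refine rco (v := (((β 128) + (zX β px ex r s)) + ((β 128) + (zX β px ex r s)))) rfl ?_
  refine rco (v := (zD0 β px ex r s)) rfl ?_
  refine rco (v := (β 35)) rfl ?_
  refine rco (v := (β 34)) rfl ?_
  refine rco (v := (β 33)) rfl ?_
  refine rco (v := ((zX β px ex r s) * (β 34))) rfl ?_
  refine rco (v := (hr β (zX β px ex r s) 33 2)) rfl ?_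
  refine rco (v := ((zY β py ey r s) * (β 35))) rfl ?_
  refine rco (v := (hr2 β (zX β px ex r s) (zY β py ey r s) 33 1)) rfl ?_
  refine rco (v := (β 32)) rfl ?_
  refine rco (v := (β 31)) rfl ?_
  refine rco (v := ((zX β px ex r s) * (β 32))) rfl ?_
  refine rco (v := (hr β (zX β px ex r s) 31 2)) rfl ?_
  refine rco (v := (β 30)) rfl ?_
  refine rco (v := ((zX β px ex r s) * (hr β (zX β px ex r s) 31 2))) rfl ?_
  refine rco (v := (hr β (zX β px ex r s) 30 3)) rfl ?_
  refine rco (v := ((zY β py ey r s) * (hr2 β (zX β px ex r s) (zY β py ey r s) 33 1))) rfl ?_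
  refine rco (v := (hr2 β (zX β px ex r s) (zY β py ey r s) 30 2)) rfl ?_
  refine rco (v := (β 29)) rfl ?_
  refine rco (v := (β 28)) rfl ?_
  refine rco (v := ((zX β px ex r s) * (β 29))) rfl ?_
  refine rco (v := (hr β (zX β px ex r s) 28 2)) rfl ?_
  refine rco (v := (β 27)) rfl ?_
  refine rco (v := ((zX β px ex r s) * (hr β (zX β px ex r s) 28 2))) rfl ?_
  refine rco (v := (hr β (zX β px ex r s) 27 3)) rfl ?_
  refine rco (v := (β 26)) rfl ?_
  refine rco (v := ((zX β px ex r s) * (hr β (zX β px ex r s) 27 3))) rfl ?_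
  refine rco (v := (hr β (zX β px ex r s) 26 4)) rfl ?_
  refine rco (v := ((zY β py ey r s) * (hr2 β (zX β px ex r s) (zY β py ey r s) 30 2))) rfl ?_
  refine rco (v := (hr2 β (zX β px ex r s) (zY β py ey r s) 26 3)) rfl ?_
  refine rco (v := (β 25)) rfl ?_
  refine rco (v := (β 24)) rfl ?_
  refine rco (v := ((zX β px ex r s) * (β 25))) rfl ?_
  refine rco (v := (hr β (zX β px ex r s) 24 2)) rfl ?_
  refine rco (v := (β 23)) rfl ?_
  refine rco (v := ((zX β px ex r s) * (hr β (zX β px ex r s) 24 2))) rfl ?_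
  refine rco (v := (hr β (zX β px ex r s) 23 3)) rfl ?_
  refine rco (v := (β 22)) rfl ?_
  refine rco (v := ((zX β px ex r s) * (hr β (zX β px ex r s) 23 3))) rfl ?_
  refine rco (v := (hr β (zX β px ex r s) 22 4)) rfl ?_
  refine rco (v := (β 21)) rfl ?_
  refine rco (v := ((zX β px ex r s) * (hr β (zX β px ex r s) 22 4))) rfl ?_
  refine rco (v := (hr β (zX β px ex r s) 21 5)) rfl ?_
  refine rco (v := ((zY β py ey r s) * (hr2 β (zX β px ex r s) (zY β py ey r s) 26 3))) rfl ?_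
  refine rco (v := (hr2 β (zX β px ex r s) (zY β py ey r s) 21 4)) rfl ?_
  refine rco (v := (β 20)) rfl ?_
  refine rco (v := (β 19)) rfl ?_
  refine rco (v := ((zX β px ex r s) * (β 20))) rfl ?_
  refine rco (v := (hr β (zX β px ex r s) 19 2)) rfl ?_
  refine rco (v := (β 18)) rfl ?_
  refine rco (v := ((zX β px ex r s) * (hr β (zX β px ex r s) 19 2))) rfl ?_
  refine rco (v := (hr β (zX β px ex r s) 18 3)) rfl ?_
  refine rco (v := (β 17)) rfl ?_
  refine rco (v := ((zX β px ex r s) * (hr β (zX β px ex r s) 18 3))) rfl ?_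
  refine rco (v := (hr β (zX β px ex r s) 17 4)) rfl ?_
  refine rco (v := (β 16)) rfl ?_
  refine rco (v := ((zX β px ex r s) * (hr β (zX β px ex r s) 17 4))) rfl ?_
  refine rco (v := (hr β (zX β px ex r s) 16 5)) rfl ?_
  refine rco (v := (β 15)) rfl ?_
  refine rco (v := ((zX β px ex r s) * (hr β (zX β px ex r s) 16 5))) rfl ?_
  refine rco (v := (hr β (zX β px ex r s) 15 6)) rfl ?_
  refine rco (v := ((zY β py ey r s) * (hr2 β (zX β px ex r s) (zY β py ey r s) 21 4))) rfl ?_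
  refine rco (v := (hr2 β (zX β px ex r s) (zY β py ey r s) 15 5)) rfl ?_
  refine rco (v := (β 14)) rfl ?_
  refine rco (v := (β 13)) rfl ?_
  refine rco (v := ((zX β px ex r s) * (β 14))) rfl ?_
  refine rco (v := (hr β (zX β px ex r s) 13 2)) rfl ?_
  refine rco (v := (β 12)) rfl ?_
  refine rco (v := ((zX β px ex r s) * (hr β (zX β px ex r s) 13 2))) rfl ?_
  refine rco (v := (hr β (zX β px ex r s) 12 3)) rfl ?_
  refine rco (v := (β 11)) rfl ?_
  refine rco (v := ((zX β px ex r s) * (hr β (zX β px ex r s) 12 3))) rfl ?_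
  refine rco (v := (hr β (zX β px ex r s) 11 4)) rfl ?_
  refine rco (v := (β 10)) rfl ?_
  refine rco (v := ((zX β px ex r s) * (hr β (zX β px ex r s) 11 4))) rfl ?_
  refine rco (v := (hr β (zX β px ex r s) 10 5)) rfl ?_
  refine rco (v := (β 9)) rfl ?_
  refine rco (v := ((zX β px ex r s) * (hr β (zX β px ex r s) 10 5))) rfl ?_
  refine rco (v := (hr β (zX β px ex r s) 9 6)) rfl ?_
  refine rco (v := (β 8)) rfl ?_
  refine rco (v := ((zX β px ex r s) * (hr β (zX β px ex r s) 9 6))) rfl ?_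
  refine rco (v := (hr β (zX β px ex r s) 8 7)) rfl ?_
  refine rco (v := ((zY β py ey r s) * (hr2 β (zX β px ex r s) (zY β py ey r s) 15 5))) rfl ?_
  refine rco (v := (hr2 β (zX β px ex r s) (zY β py ey r s) 8 6)) rfl ?_
  refine rco (v := (β 7)) rfl ?_
  refine rco (v := (β 6)) rfl ?_
  refine rco (v := ((zX β px ex r s) * (β 7))) rfl ?_
  refine rco (v := (hr β (zX β px ex r s) 6 2)) rfl ?_
  refine rco (v := (β 5)) rfl ?_
  refine rco (v := ((zX β px ex r s) * (hr β (zX β px ex r s) 6 2))) rfl ?_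
  refine rco (v := (hr β (zX β px ex r s) 5 3)) rfl ?_
  refine rco (v := (β 4)) rfl ?_
  refine rco (v := ((zX β px ex r s) * (hr β (zX β px ex r s) 5 3))) rfl ?_
  refine rco (v := (hr β (zX β px ex r s) 4 4)) rfl ?_
  refine rco (v := (β 3)) rfl ?_
  refine rco (v := ((zX β px ex r s) * (hr β (zX β px ex r s) 4 4))) rfl ?_
  refine rco (v := (hr β (zX β px ex r s) 3 5)) rfl ?_
  refine rco (v := (β 2)) rfl ?_
  refine rco (v := ((zX β px ex r s) * (hr β (zX β px ex r s) 3 5))) rfl ?_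
  refine rco (v := (hr β (zX β px ex r s) 2 6)) rfl ?_
  refine rco (v := (β 1)) rfl ?_
  refine rco (v := ((zX β px ex r s) * (hr β (zX β px ex r s) 2 6))) rfl ?_
  refine rco (v := (hr β (zX β px ex r s) 1 7)) rfl ?_
  refine rco (v := (β 0)) rfl ?_
  refine rco (v := ((zX β px ex r s) * (hr β (zX β px ex r s) 1 7))) rfl ?_
  refine rco (v := (hr β (zX β px ex r s) 0 8)) rfl ?_
  refine rco (v := ((zY β py ey r s) * (hr2 β (zX β px ex r s) (zY β py ey r s) 8 6))) rfl ?_
  refine rco (v := (hr2 β (zX β px ex r s) (zY β py ey r s) 0 7)) rfl ?_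
  refine rco (v := (β 63)) rfl ?_
  refine rco (v := (β 62)) rfl ?_
  refine rco (v := (β 61)) rfl ?_
  refine rco (v := ((zX β px ex r s) * (β 62))) rfl ?_
  refine rco (v := (hr β (zX β px ex r s) 61 2)) rfl ?_
  refine rco (v := ((zY β py ey r s) * (β 63))) rfl ?_
  refine rco (v := (hr2 β (zX β px ex r s) (zY β py ey r s) 61 1)) rfl ?_
  refine rco (v := (β 60)) rfl ?_
  refine rco (v := (β 59)) rfl ?_
  refine rco (v := ((zX β px ex r s) * (β 60))) rfl ?_
  refine rco (v := (hr β (zX β px ex r s) 59 2)) rfl ?_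
  refine rco (v := (β 58)) rfl ?_
  refine rco (v := ((zX β px ex r s) * (hr β (zX β px ex r s) 59 2))) rfl ?_
  refine rco (v := (hr β (zX β px ex r s) 58 3)) rfl ?_
  refine rco (v := ((zY β py ey r s) * (hr2 β (zX β px ex r s) (zY β py ey r s) 61 1))) rfl ?_
  refine rco (v := (hr2 β (zX β px ex r s) (zY β py ey r s) 58 2)) rfl ?_
  refine rco (v := (β 57)) rfl ?_
  refine rco (v := (β 56)) rfl ?_
  refine rco (v := ((zX β px ex r s) * (β 57))) rfl ?_
  refine rco (v := (hr β (zX β px ex r s) 56 2)) rfl ?_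
  refine rco (v := (β 55)) rfl ?_
  refine rco (v := ((zX β px ex r s) * (hr β (zX β px ex r s) 56 2))) rfl ?_
  refine rco (v := (hr β (zX β px ex r s) 55 3)) rfl ?_
  refine rco (v := (β 54)) rfl ?_
  refine rco (v := ((zX β px ex r s) * (hr β (zX β px ex r s) 55 3))) rfl ?_
  refine rco (v := (hr β (zX β px ex r s) 54 4)) rfl ?_
  refine rco (v := ((zY β py ey r s) * (hr2 β (zX β px ex r s) (zY β py ey r s) 58 2))) rfl ?_
  refine rco (v := (hr2 β (zX β px ex r s) (zY β py ey r s) 54 3)) rfl ?_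
  refine rco (v := (β 53)) rfl ?_
  refine rco (v := (β 52)) rfl ?_
  refine rco (v := ((zX β px ex r s) * (β 53))) rfl ?_
  refine rco (v := (hr β (zX β px ex r s) 52 2)) rfl ?_
  refine rco (v := (β 51)) rfl ?_
  refine rco (v := ((zX β px ex r s) * (hr β (zX β px ex r s) 52 2))) rfl ?_
  refine rco (v := (hr β (zX β px ex r s) 51 3)) rfl ?_
  refine rco (v := (β 50)) rfl ?_
  refine rco (v := ((zX β px ex r s) * (hr β (zX β px ex r s) 51 3))) rfl ?_
  refine rco (v := (hr β (zX β px ex r s) 50 4)) rfl ?_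
  refine rco (v := (β 49)) rfl ?_
  refine rco (v := ((zX β px ex r s) * (hr β (zX β px ex r s) 50 4))) rfl ?_
  refine rco (v := (hr β (zX β px ex r s) 49 5)) rfl ?_
  refine rco (v := ((zY β py ey r s) * (hr2 β (zX β px ex r s) (zY β py ey r s) 54 3))) rfl ?_
  refine rco (v := (hr2 β (zX β px ex r s) (zY β py ey r s) 49 4)) rfl ?_
  refine rco (v := (β 48)) rfl ?_
  refine rco (v := (β 47)) rfl ?_
  refine rco (v := ((zX β px ex r s) * (β 48))) rfl ?_
  refine rco (v := (hr β (zX β px ex r s) 47 2)) rfl ?_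
  refine rco (v := (β 46)) rfl ?_
  refine rco (v := ((zX β px ex r s) * (hr β (zX β px ex r s) 47 2))) rfl ?_
  refine rco (v := (hr β (zX β px ex r s) 46 3)) rfl ?_
  refine rco (v := (β 45)) rfl ?_
  refine rco (v := ((zX β px ex r s) * (hr β (zX β px ex r s) 46 3))) rfl ?_
  refine rco (v := (hr β (zX β px ex r s) 45 4)) rfl ?_
  refine rco (v := (β 44)) rfl ?_
  refine rco (v := ((zX β px ex r s) * (hr β (zX β px ex r s) 45 4))) rfl ?_
  refine rco (v := (hr β (zX β px ex r s) 44 5)) rfl ?_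
  refine rco (v := (β 43)) rfl ?_
  refine rco (v := ((zX β px ex r s) * (hr β (zX β px ex r s) 44 5))) rfl ?_
  refine rco (v := (hr β (zX β px ex r s) 43 6)) rfl ?_
  refine rco (v := ((zY β py ey r s) * (hr2 β (zX β px ex r s) (zY β py ey r s) 49 4))) rfl ?_
  refine rco (v := (hr2 β (zX β px ex r s) (zY β py ey r s) 43 5)) rfl ?_
  refine rco (v := (β 42)) rfl ?_
  refine rco (v := (β 41)) rfl ?_
  refine rco (v := ((zX β px ex r s) * (β 42))) rfl ?_
  refine rco (v := (hr β (zX β px ex r s) 41 2)) rfl ?_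
  refine rco (v := (β 40)) rfl ?_
  refine rco (v := ((zX β px ex r s) * (hr β (zX β px ex r s) 41 2))) rfl ?_
  refine rco (v := (hr β (zX β px ex r s) 40 3)) rfl ?_
  refine rco (v := (β 39)) rfl ?_
  refine rco (v := ((zX β px ex r s) * (hr β (zX β px ex r s) 40 3))) rfl ?_
  refine rco (v := (hr β (zX β px ex r s) 39 4)) rfl ?_
  refine rco (v := (β 38)) rfl ?_
  refine rco (v := ((zX β px ex r s) * (hr β (zX β px ex r s) 39 4))) rfl ?_
  refine rco (v := (hr β (zX β px ex r s) 38 5)) rfl ?_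
  refine rco (v := (β 37)) rfl ?_
  refine rco (v := ((zX β px ex r s) * (hr β (zX β px ex r s) 38 5))) rfl ?_
  refine rco (v := (hr β (zX β px ex r s) 37 6)) rfl ?_
  refine rco (v := (β 36)) rfl ?_
  refine rco (v := ((zX β px ex r s) * (hr β (zX β px ex r s) 37 6))) rfl ?_
  refine rco (v := (hr β (zX β px ex r s) 36 7)) rfl ?_
  refine rco (v := ((zY β py ey r s) * (hr2 β (zX β px ex r s) (zY β py ey r s) 43 5))) rfl ?_
  refine rco (v := (hr2 β (zX β px ex r s) (zY β py ey r s) 36 6)) rfl ?_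
  refine rco (v := (β 91)) rfl ?_
  refine rco (v := (β 90)) rfl ?_
  refine rco (v := (β 89)) rfl ?_
  refine rco (v := ((zX β px ex r s) * (β 90))) rfl ?_
  refine rco (v := (hr β (zX β px ex r s) 89 2)) rfl ?_
  refine rco (v := ((zY β py ey r s) * (β 91))) rfl ?_
  refine rco (v := (hr2 β (zX β px ex r s) (zY β py ey r s) 89 1)) rfl ?_
  refine rco (v := (β 88)) rfl ?_
  refine rco (v := (β 87)) rfl ?_
  refine rco (v := ((zX β px ex r s) * (β 88))) rfl ?_
  refine rco (v := (hr β (zX β px ex r s) 87 2)) rfl ?_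
  refine rco (v := (β 86)) rfl ?_
  refine rco (v := ((zX β px ex r s) * (hr β (zX β px ex r s) 87 2))) rfl ?_
  refine rco (v := (hr β (zX β px ex r s) 86 3)) rfl ?_
  refine rco (v := ((zY β py ey r s) * (hr2 β (zX β px ex r s) (zY β py ey r s) 89 1))) rfl ?_
  refine rco (v := (hr2 β (zX β px ex r s) (zY β py ey r s) 86 2)) rfl ?_
  refine rco (v := (β 85)) rfl ?_
  refine rco (v := (β 84)) rfl ?_
  refine rco (v := ((zX β px ex r s) * (β 85))) rfl ?_
  refine rco (v := (hr β (zX β px ex r s) 84 2)) rfl ?_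
  refine rco (v := (β 83)) rfl ?_
  refine rco (v := ((zX β px ex r s) * (hr β (zX β px ex r s) 84 2))) rfl ?_
  refine rco (v := (hr β (zX β px ex r s) 83 3)) rfl ?_
  refine rco (v := (β 82)) rfl ?_
  refine rco (v := ((zX β px ex r s) * (hr β (zX β px ex r s) 83 3))) rfl ?_
  refine rco (v := (hr β (zX β px ex r s) 82 4)) rfl ?_
  refine rco (v := ((zY β py ey r s) * (hr2 β (zX β px ex r s) (zY β py ey r s) 86 2))) rfl ?_
  refine rco (v := (hr2 β (zX β px ex r s) (zY β py ey r s) 82 3)) rfl ?_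
  refine rco (v := (β 81)) rfl ?_
  refine rco (v := (β 80)) rfl ?_
  refine rco (v := ((zX β px ex r s) * (β 81))) rfl ?_
  refine rco (v := (hr β (zX β px ex r s) 80 2)) rfl ?_
  refine rco (v := (β 79)) rfl ?_
  refine rco (v := ((zX β px ex r s) * (hr β (zX β px ex r s) 80 2))) rfl ?_
  refine rco (v := (hr β (zX β px ex r s) 79 3)) rfl ?_
  refine rco (v := (β 78)) rfl ?_
  refine rco (v := ((zX β px ex r s) * (hr β (zX β px ex r s) 79 3))) rfl ?_
  refine rco (v := (hr β (zX β px ex r s) 78 4)) rfl ?_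
  refine rco (v := (β 77)) rfl ?_
  refine rco (v := ((zX β px ex r s) * (hr β (zX β px ex r s) 78 4))) rfl ?_
  refine rco (v := (hr β (zX β px ex r s) 77 5)) rfl ?_
  refine rco (v := ((zY β py ey r s) * (hr2 β (zX β px ex r s) (zY β py ey r s) 82 3))) rfl ?_
  refine rco (v := (hr2 β (zX β px ex r s) (zY β py ey r s) 77 4)) rfl ?_
  refine rco (v := (β 76)) rfl ?_
  refine rco (v := (β 75)) rfl ?_
  refine rco (v := ((zX β px ex r s) * (β 76))) rfl ?_
  refine rco (v := (hr β (zX β px ex r s) 75 2)) rfl ?_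
  refine rco (v := (β 74)) rfl ?_
  refine rco (v := ((zX β px ex r s) * (hr β (zX β px ex r s) 75 2))) rfl ?_
  refine rco (v := (hr β (zX β px ex r s) 74 3)) rfl ?_
  refine rco (v := (β 73)) rfl ?_
  refine rco (v := ((zX β px ex r s) * (hr β (zX β px ex r s) 74 3))) rfl ?_
  refine rco (v := (hr β (zX β px ex r s) 73 4)) rfl ?_
  refine rco (v := (β 72)) rfl ?_
  refine rco (v := ((zX β px ex r s) * (hr β (zX β px ex r s) 73 4))) rfl ?_
  refine rco (v := (hr β (zX β px ex r s) 72 5)) rfl ?_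
  refine rco (v := (β 71)) rfl ?_
  refine rco (v := ((zX β px ex r s) * (hr β (zX β px ex r s) 72 5))) rfl ?_
  refine rco (v := (hr β (zX β px ex r s) 71 6)) rfl ?_
  refine rco (v := ((zY β py ey r s) * (hr2 β (zX β px ex r s) (zY β py ey r s) 77 4))) rfl ?_
  refine rco (v := (hr2 β (zX β px ex r s) (zY β py ey r s) 71 5)) rfl ?_
  refine rco (v := (β 70)) rfl ?_
  refine rco (v := (β 69)) rfl ?_
  refine rco (v := ((zX β px ex r s) * (β 70))) rfl ?_
  refine rco (v := (hr β (zX β px ex r s) 69 2)) rfl ?_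
  refine rco (v := (β 68)) rfl ?_
  refine rco (v := ((zX β px ex r s) * (hr β (zX β px ex r s) 69 2))) rfl ?_
  refine rco (v := (hr β (zX β px ex r s) 68 3)) rfl ?_
  refine rco (v := (β 67)) rfl ?_
  refine rco (v := ((zX β px ex r s) * (hr β (zX β px ex r s) 68 3))) rfl ?_
  refine rco (v := (hr β (zX β px ex r s) 67 4)) rfl ?_
  refine rco (v := (β 66)) rfl ?_
  refine rco (v := ((zX β px ex r s) * (hr β (zX β px ex r s) 67 4))) rfl ?_
  refine rco (v := (hr β (zX β px ex r s) 66 5)) rfl ?_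
  refine rco (v := (β 65)) rfl ?_
  refine rco (v := ((zX β px ex r s) * (hr β (zX β px ex r s) 66 5))) rfl ?_
  refine rco (v := (hr β (zX β px ex r s) 65 6)) rfl ?_
  refine rco (v := (β 64)) rfl ?_
  refine rco (v := ((zX β px ex r s) * (hr β (zX β px ex r s) 65 6))) rfl ?_
  refine rco (v := (hr β (zX β px ex r s) 64 7)) rfl ?_
  refine rco (v := ((zY β py ey r s) * (hr2 β (zX β px ex r s) (zY β py ey r s) 71 5))) rfl ?_
  refine rco (v := (hr2 β (zX β px ex r s) (zY β py ey r s) 64 6)) rfl ?_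
  refine rco (v := (β 106)) rfl ?_
  refine rco (v := (β 105)) rfl ?_
  refine rco (v := (β 104)) rfl ?_
  refine rco (v := ((zX β px ex r s) * (β 105))) rfl ?_
  refine rco (v := (hr β (zX β px ex r s) 104 2)) rfl ?_
  refine rco (v := ((zY β py ey r s) * (β 106))) rfl ?_
  refine rco (v := (hr2 β (zX β px ex r s) (zY β py ey r s) 104 1)) rfl ?_
  refine rco (v := (β 103)) rfl ?_
  refine rco (v := (β 102)) rfl ?_
  refine rco (v := ((zX β px ex r s) * (β 103))) rfl ?_
  refine rco (v := (hr β (zX β px ex r s) 102 2)) rfl ?_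
  refine rco (v := (β 101)) rfl ?_
  refine rco (v := ((zX β px ex r s) * (hr β (zX β px ex r s) 102 2))) rfl ?_
  refine rco (v := (hr β (zX β px ex r s) 101 3)) rfl ?_
  refine rco (v := ((zY β py ey r s) * (hr2 β (zX β px ex r s) (zY β py ey r s) 104 1))) rfl ?_
  refine rco (v := (hr2 β (zX β px ex r s) (zY β py ey r s) 101 2)) rfl ?_
  refine rco (v := (β 100)) rfl ?_
  refine rco (v := (β 99)) rfl ?_
  refine rco (v := ((zX β px ex r s) * (β 100))) rfl ?_
  refine rco (v := (hr β (zX β px ex r s) 99 2)) rfl ?_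
  refine rco (v := (β 98)) rfl ?_
  refine rco (v := ((zX β px ex r s) * (hr β (zX β px ex r s) 99 2))) rfl ?_
  refine rco (v := (hr β (zX β px ex r s) 98 3)) rfl ?_
  refine rco (v := (β 97)) rfl ?_
  refine rco (v := ((zX β px ex r s) * (hr β (zX β px ex r s) 98 3))) rfl ?_
  refine rco (v := (hr β (zX β px ex r s) 97 4)) rfl ?_
  refine rco (v := ((zY β py ey r s) * (hr2 β (zX β px ex r s) (zY β py ey r s) 101 2))) rfl ?_
  refine rco (v := (hr2 β (zX β px ex r s) (zY β py ey r s) 97 3)) rfl ?_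
  refine rco (v := (β 96)) rfl ?_
  refine rco (v := (β 95)) rfl ?_
  refine rco (v := ((zX β px ex r s) * (β 96))) rfl ?_
  refine rco (v := (hr β (zX β px ex r s) 95 2)) rfl ?_
  refine rco (v := (β 94)) rfl ?_
  refine rco (v := ((zX β px ex r s) * (hr β (zX β px ex r s) 95 2))) rfl ?_
  refine rco (v := (hr β (zX β px ex r s) 94 3)) rfl ?_
  refine rco (v := (β 93)) rfl ?_
  refine rco (v := ((zX β px ex r s) * (hr β (zX β px ex r s) 94 3))) rfl ?_
  refine rco (v := (hr β (zX β px ex r s) 93 4)) rfl ?_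
  refine rco (v := (β 92)) rfl ?_
  refine rco (v := ((zX β px ex r s) * (hr β (zX β px ex r s) 93 4))) rfl ?_
  refine rco (v := (hr β (zX β px ex r s) 92 5)) rfl ?_
  refine rco (v := ((zY β py ey r s) * (hr2 β (zX β px ex r s) (zY β py ey r s) 97 3))) rfl ?_
  refine rco (v := (hr2 β (zX β px ex r s) (zY β py ey r s) 92 4)) rfl ?_
  refine rco (v := ((zf β px py ex ey r s) * (zf β px py ex ey r s))) rfl ?_
  refine rco (v := ((zD0 β px ex r s) * (zD0 β px ex r s))) rfl ?_
  refine rco (v := (257 / 256 : ℝ)) (by norm_num [step, realAlg]) ?_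
  refine rco (v := (1 / 65536 : ℝ)) (by norm_num [step, realAlg]) ?_
  refine rco (v := ((Qb : ℝ) / 2 ^ 8)) rfl ?_
  refine rco (v := (((Qb : ℝ) / 2 ^ 8) * ((Qb : ℝ) / 2 ^ 8))) rfl ?_
  refine rco (v := (((zf β px py ex ey r s) * (zf β px py ex ey r s)) * ((zD0 β px ex r s) * (zD0 β px ex r s)))) rfl ?_
  refine rco (v := ((((Qb : ℝ) / 2 ^ 8) * ((Qb : ℝ) / 2 ^ 8)) * (((zf β px py ex ey r s) * (zf β px py ex ey r s)) * ((zD0 β px ex r s) * (zD0 β px ex r s))))) rfl ?_
  refine rco (v := ((hr2 β (zX β px ex r s) (zY β py ey r s) 36 6) * (hr2 β (zX β px ex r s) (zY β py ey r s) 36 6))) rfl ?_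
  refine rco (v := ((hr2 β (zX β px ex r s) (zY β py ey r s) 64 6) * (hr2 β (zX β px ex r s) (zY β py ey r s) 64 6))) rfl ?_
  refine rco (v := (((hr2 β (zX β px ex r s) (zY β py ey r s) 36 6) * (hr2 β (zX β px ex r s) (zY β py ey r s) 36 6)) + ((hr2 β (zX β px ex r s) (zY β py ey r s) 64 6) * (hr2 β (zX β px ex r s) (zY β py ey r s) 64 6)))) rfl ?_
  refine rco (v := ((((hr2 β (zX β px ex r s) (zY β py ey r s) 36 6) * (hr2 β (zX β px ex r s) (zY β py ey r s) 36 6)) + ((hr2 β (zX β px ex r s) (zY β py ey r s) 64 6) * (hr2 β (zX β px ex r s) (zY β py ey r s) 64 6))) * (257 / 256 : ℝ))) rfl ?_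
  refine rco (v := (((((Qb : ℝ) / 2 ^ 8) * ((Qb : ℝ) / 2 ^ 8)) * (((zf β px py ex ey r s) * (zf β px py ex ey r s)) * ((zD0 β px ex r s) * (zD0 β px ex r s)))) - ((((hr2 β (zX β px ex r s) (zY β py ey r s) 36 6) * (hr2 β (zX β px ex r s) (zY β py ey r s) 36 6)) + ((hr2 β (zX β px ex r s) (zY β py ey r s) 64 6) * (hr2 β (zX β px ex r s) (zY β py ey r s) 64 6))) * (257 / 256 : ℝ)))) rfl ?_
  refine rco (v := (257 / 67108864 : ℝ)) (by norm_num [step, realAlg]) ?_
  refine rco (v := ((((((Qb : ℝ) / 2 ^ 8) * ((Qb : ℝ) / 2 ^ 8)) * (((zf β px py ex ey r s) * (zf β px py ex ey r s)) * ((zD0 β px ex r s) * (zD0 β px ex r s)))) - ((((hr2 β (zX β px ex r s) (zY β py ey r s) 36 6) * (hr2 β (zX β px ex r s) (zY β py ey r s) 36 6)) + ((hr2 β (zX β px ex r s) (zY β py ey r s) 64 6) * (hr2 β (zX β px ex r s) (zY β py ey r s) 64 6))) * (257 / 256 : ℝ))) - (257 / 67108864 : ℝ))) rfl ?_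
  refine rco (v := (β 129)) rfl ?_
  refine rco (v := ((β 129) + (zY β py ey r s))) rfl ?_
  refine rco (v := (β 136)) rfl ?_
  refine rco (v := ((β 136) * (hr2 β (zX β px ex r s) (zY β py ey r s) 0 7))) rfl ?_
  refine rco (v := ((lam : ℝ) / 2 ^ 6)) rfl ?_
  refine rco (v := (((lam : ℝ) / 2 ^ 6) * (zD0 β px ex r s))) rfl ?_
  refine rco (v := ((((lam : ℝ) / 2 ^ 6) * (zD0 β px ex r s)) * ((β 128) + (zX β px ex r s)))) rfl ?_
  refine rco (v := ((zf β px py ex ey r s) * (hr2 β (zX β px ex r s) (zY β py ey r s) 36 6))) rfl ?_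
  refine rco (v := (((β 136) * (hr2 β (zX β px ex r s) (zY β py ey r s) 0 7)) * ((β 128) + (zX β px ex r s)))) rfl ?_
  refine rco (v := (((zf β px py ex ey r s) * (hr2 β (zX β px ex r s) (zY β py ey r s) 36 6)) + (((β 136) * (hr2 β (zX β px ex r s) (zY β py ey r s) 0 7)) * ((β 128) + (zX β px ex r s))))) rfl ?_
  refine rco (v := (((((lam : ℝ) / 2 ^ 6) * (zD0 β px ex r s)) * ((β 128) + (zX β px ex r s))) - (((zf β px py ex ey r s) * (hr2 β (zX β px ex r s) (zY β py ey r s) 36 6)) + (((β 136) * (hr2 β (zX β px ex r s) (zY β py ey r s) 0 7)) * ((β 128) + (zX β px ex r s)))))) rfl ?_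
  refine rco (v := ((((lam : ℝ) / 2 ^ 6) * (zD0 β px ex r s)) * ((β 129) + (zY β py ey r s)))) rfl ?_
  refine rco (v := ((zf β px py ex ey r s) * (hr2 β (zX β px ex r s) (zY β py ey r s) 64 6))) rfl ?_
  refine rco (v := (((β 136) * (hr2 β (zX β px ex r s) (zY β py ey r s) 0 7)) * ((β 129) + (zY β py ey r s)))) rfl ?_
  refine rco (v := (((zf β px py ex ey r s) * (hr2 β (zX β px ex r s) (zY β py ey r s) 64 6)) + (((β 136) * (hr2 β (zX β px ex r s) (zY β py ey r s) 0 7)) * ((β 129) + (zY β py ey r s))))) rfl ?_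
  refine rco (v := (((((lam : ℝ) / 2 ^ 6) * (zD0 β px ex r s)) * ((β 129) + (zY β py ey r s))) - (((zf β px py ex ey r s) * (hr2 β (zX β px ex r s) (zY β py ey r s) 64 6)) + (((β 136) * (hr2 β (zX β px ex r s) (zY β py ey r s) 0 7)) * ((β 129) + (zY β py ey r s)))))) rfl ?_
  refine rco (v := ((K0 : ℝ) / 2 ^ 14)) rfl ?_
  refine rco (v := ((K1 : ℝ) / 2 ^ 14)) rfl ?_
  refine rco (v := (((K1 : ℝ) / 2 ^ 14) * r)) rfl ?_
  refine rco (v := (((K0 : ℝ) / 2 ^ 14) + (((K1 : ℝ) / 2 ^ 14) * r))) rfl ?_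
  refine rco (v := (4 : ℝ)) (by norm_num [step, realAlg]) ?_
  refine rco (v := (((lam : ℝ) / 2 ^ 6) * (4 : ℝ))) rfl ?_
  refine rco (v := ((zf β px py ex ey r s) * ((zD0 β px ex r s) * (zD0 β px ex r s)))) rfl ?_
  refine rco (v := ((((lam : ℝ) / 2 ^ 6) * (4 : ℝ)) * ((zf β px py ex ey r s) * ((zD0 β px ex r s) * (zD0 β px ex r s))))) rfl ?_
  refine rco (v := ((((K0 : ℝ) / 2 ^ 14) + (((K1 : ℝ) / 2 ^ 14) * r)) * ((zf β px py ex ey r s) * (zf β px py ex ey r s)))) rfl ?_
  refine rco (v := (β 137)) rfl ?_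
  refine rco (v := ((hr2 β (zX β px ex r s) (zY β py ey r s) 92 4) - (1 / 65536 : ℝ))) rfl ?_
  refine rco (v := ((β 137) * ((hr2 β (zX β px ex r s) (zY β py ey r s) 92 4) - (1 / 65536 : ℝ)))) rfl ?_
  refine rco (v := (((((K0 : ℝ) / 2 ^ 14) + (((K1 : ℝ) / 2 ^ 14) * r)) * ((zf β px py ex ey r s) * (zf β px py ex ey r s))) + ((β 137) * ((hr2 β (zX β px ex r s) (zY β py ey r s) 92 4) - (1 / 65536 : ℝ))))) rfl ?_
  refine rco (v := (((((lam : ℝ) / 2 ^ 6) * (4 : ℝ)) * ((zf β px py ex ey r s) * ((zD0 β px ex r s) * (zD0 β px ex r s)))) * (((((K0 : ℝ) / 2 ^ 14) + (((K1 : ℝ) / 2 ^ 14) * r)) * ((zf β px py ex ey r s) * (zf β px py ex ey r s))) + ((β 137) * ((hr2 β (zX β px ex r s) (zY β py ey r s) 92 4) - (1 / 65536 : ℝ)))))) rfl ?_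
  refine rco (v := ((Ph : ℝ) / 2 ^ 10)) rfl ?_
  refine rco (v := ((((((lam : ℝ) / 2 ^ 6) * (zD0 β px ex r s)) * ((β 128) + (zX β px ex r s))) - (((zf β px py ex ey r s) * (hr2 β (zX β px ex r s) (zY β py ey r s) 36 6)) + (((β 136) * (hr2 β (zX β px ex r s) (zY β py ey r s) 0 7)) * ((β 128) + (zX β px ex r s))))) * (((((lam : ℝ) / 2 ^ 6) * (zD0 β px ex r s)) * ((β 128) + (zX β px ex r s))) - (((zf β px py ex ey r s) * (hr2 β (zX β px ex r s) (zY β py ey r s) 36 6)) + (((β 136) * (hr2 β (zX β px ex r s) (zY β py ey r s) 0 7)) * ((β 128) + (zX β px ex r s))))))) rfl ?_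
  refine rco (v := ((((((lam : ℝ) / 2 ^ 6) * (zD0 β px ex r s)) * ((β 129) + (zY β py ey r s))) - (((zf β px py ex ey r s) * (hr2 β (zX β px ex r s) (zY β py ey r s) 64 6)) + (((β 136) * (hr2 β (zX β px ex r s) (zY β py ey r s) 0 7)) * ((β 129) + (zY β py ey r s))))) * (((((lam : ℝ) / 2 ^ 6) * (zD0 β px ex r s)) * ((β 129) + (zY β py ey r s))) - (((zf β px py ex ey r s) * (hr2 β (zX β px ex r s) (zY β py ey r s) 64 6)) + (((β 136) * (hr2 β (zX β px ex r s) (zY β py ey r s) 0 7)) * ((β 129) + (zY β py ey r s))))))) rfl ?_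
  refine rco (v := (((((((lam : ℝ) / 2 ^ 6) * (zD0 β px ex r s)) * ((β 128) + (zX β px ex r s))) - (((zf β px py ex ey r s) * (hr2 β (zX β px ex r s) (zY β py ey r s) 36 6)) + (((β 136) * (hr2 β (zX β px ex r s) (zY β py ey r s) 0 7)) * ((β 128) + (zX β px ex r s))))) * (((((lam : ℝ) / 2 ^ 6) * (zD0 β px ex r s)) * ((β 128) + (zX β px ex r s))) - (((zf β px py ex ey r s) * (hr2 β (zX β px ex r s) (zY β py ey r s) 36 6)) + (((β 136) * (hr2 β (zX β px ex r s) (zY β py ey r s) 0 7)) * ((β 128) + (zX β px ex r s)))))) + ((((((lam : ℝ) / 2 ^ 6) * (zD0 β px ex r s)) * ((β 129) + (zY β py ey r s))) - (((zf β px py ex ey r s) * (hr2 β (zX β px ex r s) (zY β py ey r s) 64 6)) + (((β 136) * (hr2 β (zX β px ex r s) (zY β py ey r s) 0 7)) * ((β 129) + (zY β py ey r s))))) * (((((lam : ℝ) / 2 ^ 6) * (zD0 β px ex r s)) * ((β 129) + (zY β py ey r s))) - (((zf β px py ex ey r s) * (hr2 β (zX β px ex r s) (zY β py ey r s) 64 6)) + (((β 136) * (hr2 β (zX β px ex r s)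 (zY β py ey r s) 0 7)) * ((β 129) + (zY β py ey r s)))))))) rfl ?_
  refine rco (v := ((((((((lam : ℝ) / 2 ^ 6) * (zD0 β px ex r s)) * ((β 128) + (zX β px ex r s))) - (((zf β px py ex ey r s) * (hr2 β (zX β px ex r s) (zY β py ey r s) 36 6)) + (((β 136) * (hr2 β (zX β px ex r s) (zY β py ey r s) 0 7)) * ((β 128) + (zX β px ex r s))))) * (((((lam : ℝ) / 2 ^ 6) * (zD0 β px ex r s)) * ((β 128) + (zX β px ex r s))) - (((zf β px py ex ey r s) * (hr2 β (zX β px ex r s) (zY β py ey r s) 36 6)) + (((β 136) * (hr2 β (zX β px ex r s) (zY β py ey r s) 0 7)) * ((β 128) + (zX β px ex r s)))))) + ((((((lam : ℝ) / 2 ^ 6) * (zD0 β px ex r s)) * ((β 129) + (zY β py ey r s))) - (((zf β px py ex ey r s) * (hr2 β (zX β px ex r s) (zY β py ey r s) 64 6)) + (((β 136) * (hr2 β (zX β px ex r s) (zY β py ey r s) 0 7)) * ((β 129) + (zY β py ey r s))))) * (((((lam : ℝ) / 2 ^ 6) * (zD0 β px ex r s)) * ((β 129) + (zY β py ey r s))) - (((zf β px py ex ey r s) * (hr2 β (zX β px ex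 r s) (zY β py ey r s) 64 6)) + (((β 136) * (hr2 β (zX β px ex r s) (zY β py ey r s) 0 7)) * ((β 129) + (zY β py ey r s))))))) * (257 / 256 : ℝ))) rfl ?_
  refine rco (v := (257 / 16777216 : ℝ)) (by norm_num [step, realAlg]) ?_
  refine rco (v := (((((((((lam : ℝ) / 2 ^ 6) * (zD0 β px ex r s)) * ((β 128) + (zX β px ex r s))) - (((zf β px py ex ey r s) * (hr2 β (zX β px ex r s) (zY β py ey r s) 36 6)) + (((β 136) * (hr2 β (zX β px ex r s) (zY β py ey r s) 0 7)) * ((β 128) + (zX β px ex r s))))) * (((((lam : ℝ) / 2 ^ 6) * (zD0 β px ex r s)) * ((β 128) + (zX β px ex r s))) - (((zf β px py ex ey r s) * (hr2 β (zX β px ex r s) (zY β py ey r s) 36 6)) + (((β 136) * (hr2 β (zX β px ex r s) (zY β py ey r s) 0 7)) * ((β 128) + (zX β px ex r s)))))) + ((((((lam : ℝ) / 2 ^ 6) * (zD0 β px ex r s)) * ((β 129) + (zY β py ey r s))) - (((zf β px py ex ey r s) * (hr2 β (zX β px ex r s) (zY β py ey r s) 64 6)) + (((β 136) * (hr2 β (zX β px ex r s) (zY β py ey r s) 0 7))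 * ((β 129) + (zY β py ey r s))))) * (((((lam : ℝ) / 2 ^ 6) * (zD0 β px ex r s)) * ((β 129) + (zY β py ey r s))) - (((zf β px py ex ey r s) * (hr2 β (zX β px ex r s) (zY β py ey r s) 64 6)) + (((β 136) * (hr2 β (zX β px ex r s) (zY β py ey r s) 0 7)) * ((β 129) + (zY β py ey r s))))))) * (257 / 256 : ℝ)) + (257 / 16777216 : ℝ))) rfl ?_
  refine rco (v := (((Ph : ℝ) / 2 ^ 10) * (((((((((lam : ℝ) / 2 ^ 6) * (zD0 β px ex r s)) * ((β 128) + (zX β px ex r s))) - (((zf β px py ex ey r s) * (hr2 β (zX β px ex r s) (zY β py ey r s) 36 6)) + (((β 136) * (hr2 β (zX β px ex r s) (zY β py ey r s) 0 7)) * ((β 128) + (zX β px ex r s))))) * (((((lam : ℝ) / 2 ^ 6) * (zD0 β px ex r s)) * ((β 128) + (zX β px ex r s))) - (((zf β px py ex ey r s) * (hr2 β (zX β px ex r s) (zY β py ey r s) 36 6)) + (((β 136) * (hr2 β (zX β px ex r s) (zY β py ey r s) 0 7)) * ((β 128) + (zX β px ex r s)))))) + ((((((lam : ℝ) / 2 ^ 6) * (zD0 β px ex r s)) * ((β 129) + (zY β py ey r s))) -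 (((zf β px py ex ey r s) * (hr2 β (zX β px ex r s) (zY β py ey r s) 64 6)) + (((β 136) * (hr2 β (zX β px ex r s) (zY β py ey r s) 0 7)) * ((β 129) + (zY β py ey r s))))) * (((((lam : ℝ) / 2 ^ 6) * (zD0 β px ex r s)) * ((β 129) + (zY β py ey r s))) - (((zf β px py ex ey r s) * (hr2 β (zX β px ex r s) (zY β py ey r s) 64 6)) + (((β 136) * (hr2 β (zX β px ex r s) (zY β py ey r s) 0 7)) * ((β 129) + (zY β py ey r s))))))) * (257 / 256 : ℝ)) + (257 / 16777216 : ℝ)))) rfl ?_
  refine rco (v := ((((((lam : ℝ) / 2 ^ 6) * (4 : ℝ)) * ((zf β px py ex ey r s) * ((zD0 β px ex r s) * (zD0 β px ex r s)))) * (((((K0 : ℝ) / 2 ^ 14) + (((K1 : ℝ) / 2 ^ 14) * r)) * ((zf β px py ex ey r s) * (zf β px py ex ey r s))) + ((β 137) * ((hr2 β (zX β px ex r s) (zY β py ey r s) 92 4) - (1 / 65536 : ℝ))))) - (((Ph : ℝ) / 2 ^ 10) * (((((((((lam : ℝ) / 2 ^ 6) * (zD0 β px ex r s)) * ((β 128) + (zX β px ex r s))) - (((zf β px py ex ey r s) * (hr2 β (zX β px ex r s) (zY β py ey r s)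 36 6)) + (((β 136) * (hr2 β (zX β px ex r s) (zY β py ey r s) 0 7)) * ((β 128) + (zX β px ex r s))))) * (((((lam : ℝ) / 2 ^ 6) * (zD0 β px ex r s)) * ((β 128) + (zX β px ex r s))) - (((zf β px py ex ey r s) * (hr2 β (zX β px ex r s) (zY β py ey r s) 36 6)) + (((β 136) * (hr2 β (zX β px ex r s) (zY β py ey r s) 0 7)) * ((β 128) + (zX β px ex r s)))))) + ((((((lam : ℝ) / 2 ^ 6) * (zD0 β px ex r s)) * ((β 129) + (zY β py ey r s))) - (((zf β px py ex ey r s) * (hr2 β (zX β px ex r s) (zY β py ey r s) 64 6)) + (((β 136) * (hr2 β (zX β px ex r s) (zY β py ey r s) 0 7)) * ((β 129) + (zY β py ey r s))))) * (((((lam : ℝ) / 2 ^ 6) * (zD0 β px ex r s)) * ((β 129) + (zY β py ey r s))) - (((zf β px py ex ey r s) * (hr2 β (zX β px ex r s) (zY β py ey r s) 64 6)) + (((β 136) * (hr2 β (zX β px ex r s) (zY β py ey r s) 0 7)) * ((β 129) + (zY β py ey r s))))))) * (257 / 256 : ℝ)) + (257 / 16777216 : ℝ))))) rfl ?_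
  rfl

theorem qZB0_val (β : ℕ → ℝ) (r s : ℝ) (px py ex ey lam K0 K1 Ph Qb : Int) (k : ℕ) :
    (qZB0 px py ex ey lam K0 K1 Ph Qb).val (realAlg β r s) k = get2 0
      [vZB0_Q β px py ex ey lam K0 K1 Ph Qb r s,
        vZB0_W β px py ex ey lam K0 K1 Ph Qb r s] k := by
  unfold Prg.val
  rw [(qZB0 px py ex ey lam K0 K1 Ph Qb).h]
  show get2 0 (outs (realAlg β r s) (pZB0 px py ex ey lam K0 K1 Ph Qb) [39, 0]) k = _
  rw [pZB0_val]

end Pool.H61.Rh
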