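import Pool.Agent.H47.K3.Defs
import Pool.Agent.H81.Lv.Zf

/-! # generated: zone program, Q, W, vertex 2 -/

set_option autoImplicit false
set_option maxRecDepth 100000
set_option linter.unusedVariables false

namespace Pool.H61.Rh

open Pool.H47.Kc Pool.H47.K3

/-- program -/
def pZB2 (px py ex ey lam K0 K1 Ph Qb : Int) : List Op :=
  [.x, .y, .cst px 21, .base 134, .sub 1 0, .cst ex 21, .mul 4 0, .add 2 0, .cst py 21, 
   .base 135, .sub 1 0, .cst ey 21, .mul 10 0, .add 2 0, .mul 13 6, .mul 14 1, .base 130, 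
   .base 131, .mul 0 3, .base 132, .mul 0 4, .add 2 0, .add 5 0, .cst 1 0, .base 133, 
   .base 129, .add 0 10, .mul 2 0, .base 128, .add 0 14, .add 6 0, .add 0 3, .base 35, 
   .base 34, .base 33, .mul 20 1, .add 1 0, .mul 21 4, .add 1 0, .base 32, .base 31, 
   .mul 26 1, .add 1 0, .base 30, .mul 29 1, .add 1 0, .mul 30 7, .add 1 0, .base 29, 
   .base 28, .mul 35 1, .add 1 0, .base 27, .mul 38 1, .add 1 0, .base 26, .mul 41 1, 
   .add 1 0, .mul 42 10, .add 1 0, .base 25, .base 24, .mul 47 1, .add 1 0, .base 23, 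
   .mul 50 1, .add 1 0, .base 22, .mul 53 1, .add 1 0, .base 21, .mul 56 1, .add 1 0, 
   .mul 57 13, .add 1 0, .base 20, .base 19, .mul 62 1, .add 1 0, .base 18, .mul 65 1, 
   .add 1 0, .base 17, .mul 68 1, .add 1 0, .base 16, .mul 71 1, .add 1 0, .base 15, 
   .mul 74 1, .add 1 0, .mul 75 16, .add 1 0, .base 14, .base 13, .mul 80 1, .add 1 0, 
   .base 12, .mul 83 1, .add 1 0, .base 11, .mul 86 1, .add 1 0, .base 10, .mul 89 1, 
   .add 1 0, .base 9, .mul 92 1, .add 1 0, .base 8, .mul 95 1, .add 1 0, .mul 96 19, 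
   .add 1 0, .base 7, .base 6, .mul 101 1, .add 1 0, .base 5, .mul 104 1, .add 1 0, 
   .base 4, .mul 107 1, .add 1 0, .base 3, .mul 110 1, .add 1 0, .base 2, .mul 113 1, 
   .add 1 0, .base 1, .mul 116 1, .add 1 0, .base 0, .mul 119 1, .add 1 0, .mul 120 22, 
   .add 1 0, .base 63, .base 62, .base 61, .mul 126 1, .add 1 0, .mul 127 4, .add 1 0, 
   .base 60, .base 59, .mul 132 1, .add 1 0, .base 58, .mul 135 1, .add 1 0, .mul 136 7, 
   .add 1 0, .base 57, .base 56, .mul 141 1, .add 1 0, .base 55, .mul 144 1, .add 1 0, 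
   .base 54, .mul 147 1, .add 1 0, .mul 148 10, .add 1 0, .base 53, .base 52, .mul 153 1, 
   .add 1 0, .base 51, .mul 156 1, .add 1 0, .base 50, .mul 159 1, .add 1 0, .base 49, 
   .mul 162 1, .add 1 0, .mul 163 13, .add 1 0, .base 48, .base 47, .mul 168 1, .add 1 0, 
   .base 46, .mul 171 1, .add 1 0, .base 45, .mul 174 1, .add 1 0, .base 44, .mul 177 1, 
   .add 1 0, .base 43, .mul 180 1, .add 1 0, .mul 181 16, .add 1 0, .base 42, .base 41, 
   .mul 186 1, .add 1 0, .base 40, .mul 189 1, .add 1 0, .base 39, .mul 192 1, .add 1 0, 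
   .base 38, .mul 195 1, .add 1 0, .base 37, .mul 198 1, .add 1 0, .base 36, .mul 201 1, 
   .add 1 0, .mul 202 19, .add 1 0, .base 91, .base 90, .base 89, .mul 208 1, .add 1 0, 
   .mul 209 4, .add 1 0, .base 88, .base 87, .mul 214 1, .add 1 0, .base 86, .mul 217 1, 
   .add 1 0, .mul 218 7, .add 1 0, .base 85, .base 84, .mul 223 1, .add 1 0, .base 83, 
   .mul 226 1, .add 1 0, .base 82, .mul 229 1, .add 1 0, .mul 230 10, .add 1 0, .base 81, 
   .base 80, .mul 235 1, .add 1 0, .base 79, .mul 238 1, .add 1 0, .base 78, .mul 241 1, 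
   .add 1 0, .base 77, .mul 244 1, .add 1 0, .mul 245 13, .add 1 0, .base 76, .base 75, 
   .mul 250 1, .add 1 0, .base 74, .mul 253 1, .add 1 0, .base 73, .mul 256 1, .add 1 0, 
   .base 72, .mul 259 1, .add 1 0, .base 71, .mul 262 1, .add 1 0, .mul 263 16, .add 1 0, 
   .base 70, .base 69, .mul 268 1, .add 1 0, .base 68, .mul 271 1, .add 1 0, .base 67, 
   .mul 274 1, .add 1 0, .base 66, .mul 277 1, .add 1 0, .base 65, .mul 280 1, .add 1 0, 
   .base 64, .mul 283 1, .add 1 0, .mul 284 19, .add 1 0, .base 106, .base 105, 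
   .base 104, .mul 290 1, .add 1 0, .mul 291 4, .add 1 0, .base 103, .base 102, 
   .mul 296 1, .add 1 0, .base 101, .mul 299 1, .add 1 0, .mul 300 7, .add 1 0, 
   .base 100, .base 99, .mul 305 1, .add 1 0, .base 98, .mul 308 1, .add 1 0, .base 97, 
   .mul 311 1, .add 1 0, .mul 312 10, .add 1 0, .base 96, .base 95, .mul 317 1, .add 1 0, 
   .base 94, .mul 320 1, .add 1 0, .base 93, .mul 323 1, .add 1 0, .base 92, .mul 326 1, 
   .add 1 0, .mul 327 13, .add 1 0, .mul 322 322, .mul 314 314, .cst 257 8, .cst 1 16, 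
   .cst Qb 8, .mul 0 0, .mul 5 4, .mul 1 0, .mul 133 133, .mul 52 52, .add 1 0, .mul 0 8, 
   .sub 4 0, .cst 257 26, .sub 1 0, .base 136, .mul 0 223, .cst lam 6, .mul 0 331, 
   .mul 0 334, .mul 342 145, .mul 4 336, .add 1 0, .sub 3 0, .mul 5 342, .mul 347 68, 
   .mul 9 344, .add 1 0, .sub 3 0, .cst K0 14, .cst K1 14, .mul 0 375, .add 2 0, 
   .cst 4 0, .mul 16 0, .mul 357 33, .mul 1 0, .mul 4 36, .base 137, .sub 39 35, 
   .mul 1 0, .add 3 0, .mul 5 0, .cst Ph 10, .mul 20 20, .mul 16 16, .add 1 0, .mul 0 44, 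
   .cst 257 24, .add 1 0, .mul 6 0, .sub 8 0]

/-- value -/
noncomputable def vZB2_Q (β : ℕ → ℝ) (px py ex ey lam K0 K1 Ph Qb : Int) (r s : ℝ) : ℝ :=
  ((((((Qb : ℝ) / 2 ^ 8) * ((Qb : ℝ) / 2 ^ 8)) * (((zf β px py ex ey r s) * (zf β px py ex ey r s)) * ((zD2 β px py ex ey r s) * (zD2 β px py ex ey r s)))) - ((((hr2 β (zX β px ex r s) (zY β py ey r s) 36 6) * (hr2 β (zX β px ex r s) (zY β py ey r s) 36 6)) + ((hr2 β (zX β px ex r s) (zY β py ey r s) 64 6) * (hr2 β (zX β px ex r s) (zY β py ey r s) 64 6))) * (257 / 256 : ℝ))) - (257 / 67108864 : ℝ))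

/-- value -/
noncomputable def vZB2_W (β : ℕ → ℝ) (px py ex ey lam K0 K1 Ph Qb : Int) (r s : ℝ) : ℝ :=
  ((((((lam : ℝ) / 2 ^ 6) * (4 : ℝ)) * ((zf β px py ex ey r s) * ((zD2 β px py ex ey r s) * (zD2 β px py ex ey r s)))) * (((((K0 : ℝ) / 2 ^ 14) + (((K1 : ℝ) / 2 ^ 14) * r)) * ((zf β px py ex ey r s) * (zf β px py ex ey r s))) + ((β 137) * ((hr2 β (zX β px ex r s) (zY β py ey r s) 92 4) - (1 / 65536 : ℝ))))) - (((Ph : ℝ) / 2 ^ 10) * (((((((((lam : ℝ) / 2 ^ 6) * (zD2 β px py ex ey r s)) * ((β 128) + (zX β px ex r s))) - (((zf β px py ex ey r s) * (hr2 β (zX β px ex r s) (zY β py ey r s) 36 6)) + (((β 136) * (hr2 β (zX β px ex r s) (zY β py ey r s) 0 7)) * ((β 128) + (zX β px ex r s))))) * (((((lam : ℝ) / 2 ^ 6) * (zD2 β px py ex ey r s)) * ((β 128) + (zX β px ex r s))) - (((zf β px py ex ey r s) * (hr2 β (zX β px ex r s) (zY β py ey r s) 36 6)) + (((β 136) * (hr2 β (zX β px ex r s) (zY β py ey r s) 0 7)) * ((β 128) + (zX β px ex r s)))))) + ((((((lam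 : ℝ) / 2 ^ 6) * (zD2 β px py ex ey r s)) * ((β 129) + (zY β py ey r s))) - (((zf β px py ex ey r s) * (hr2 β (zX β px ex r s) (zY β py ey r s) 64 6)) + (((β 136) * (hr2 β (zX β px ex r s) (zY β py ey r s) 0 7)) * ((β 129) + (zY β py ey r s))))) * (((((lam : ℝ) / 2 ^ 6) * (zD2 β px py ex ey r s)) * ((β 129) + (zY β py ey r s))) - (((zf β px py ex ey r s) * (hr2 β (zX β px ex r s) (zY β py ey r s) 64 6)) + (((β 136) * (hr2 β (zX β px ex r s) (zY β py ey r s) 0 7)) * ((β 129) + (zY β py ey r s))))))) * (257 / 256 : ℝ)) + (257 / 16777216 : ℝ))))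

def qZB2_b24 {α : Type} (px py ex ey lam K0 K1 Ph Qb : Int) (A : Alg α) (v344 v347 v348 v359 v368 v373 v381 v382 v383 : α) : List α :=
  let v384 := A.sub v344 v348
  let v385 := A.mul v383 v384
  let v386 := A.add v382 v385
  let v387 := A.mul v381 v386
  let v388 := A.cst Ph 10
  let v389 := A.mul v368 v368
  let v390 := A.mul v373 v373
  let v391 := A.add v389 v390
  let v392 := A.mul v391 v347
  let v393 := A.cst (257) 24
  let v394 := A.add v392 v393
  let v395 := A.mul v388 v394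
  let v396 := A.sub v387 v395
  [v359, v396]

def qZB2_b23 {α : Type} (px py ex ey lam K0 K1 Ph Qb : Int) (A : Alg α) (v0 v22 v26 v301 v344 v345 v346 v347 v348 v359 v361 v362 v363 v364 v367 : α) : List α :=
  let v368 := A.sub v364 v367
  let v369 := A.mul v363 v26
  let v370 := A.mul v22 v301
  let v371 := A.mul v361 v26
  let v372 := A.add v370 v371
  let v373 := A.sub v369 v372
  let v374 := A.cst K0 14
  let v375 := A.cst K1 14
  let v376 := A.mul v375 v0
  let v377 := A.add v374 v376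
  let v378 := A.cst (4) 0
  let v379 := A.mul v362 v378
  let v380 := A.mul v22 v346
  let v381 := A.mul v379 v380
  let v382 := A.mul v377 v345
  let v383 := A.base 137
  qZB2_b24 px py ex ey lam K0 K1 Ph Qb A v344 v347 v348 v359 v368 v373 v381 v382 v383

def qZB2_b22 {α : Type} (px py ex ey lam K0 K1 Ph Qb : Int) (A : Alg α) (v0 v22 v26 v29 v31 v137 v219 v301 v344 v345 v346 v347 v348 v350 v351 : α) : List α :=
  let v352 := A.mul v350 v351
  let v353 := A.mul v219 v219
  let v354 := A.mul v301 v301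
  let v355 := A.add v353 v354
  let v356 := A.mul v355 v347
  let v357 := A.sub v352 v356
  let v358 := A.cst (257) 26
  let v359 := A.sub v357 v358
  let v360 := A.base 136
  let v361 := A.mul v360 v137
  let v362 := A.cst lam 6
  let v363 := A.mul v362 v31
  let v364 := A.mul v363 v29
  let v365 := A.mul v22 v219
  let v366 := A.mul v361 v29
  let v367 := A.add v365 v366
  qZB2_b23 px py ex ey lam K0 K1 Ph Qb A v0 v22 v26 v301 v344 v345 v346 v347 v348 v359 v361 v362 v363 v364 v367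

def qZB2_b21 {α : Type} (px py ex ey lam K0 K1 Ph Qb : Int) (A : Alg α) (v0 v14 v15 v22 v26 v29 v31 v137 v219 v301 v329 v334 v335 : α) : List α :=
  let v336 := A.add v334 v335
  let v337 := A.base 93
  let v338 := A.mul v14 v336
  let v339 := A.add v337 v338
  let v340 := A.base 92
  let v341 := A.mul v14 v339
  let v342 := A.add v340 v341
  let v343 := A.mul v15 v329
  let v344 := A.add v342 v343
  let v345 := A.mul v22 v22
  let v346 := A.mul v31 v31
  let v347 := A.cst (257) 8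
  let v348 := A.cst (1) 16
  let v349 := A.cst Qb 8
  let v350 := A.mul v349 v349
  let v351 := A.mul v345 v346
  qZB2_b22 px py ex ey lam K0 K1 Ph Qb A v0 v22 v26 v29 v31 v137 v219 v301 v344 v345 v346 v347 v348 v350 v351

def qZB2_b20 {α : Type} (px py ex ey lam K0 K1 Ph Qb : Int) (A : Alg α) (v0 v14 v15 v22 v26 v29 v31 v137 v219 v301 v317 v318 v319 : α) : List α :=
  let v320 := A.mul v14 v318
  let v321 := A.add v319 v320
  let v322 := A.base 98
  let v323 := A.mul v14 v321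
  let v324 := A.add v322 v323
  let v325 := A.base 97
  let v326 := A.mul v14 v324
  let v327 := A.add v325 v326
  let v328 := A.mul v15 v317
  let v329 := A.add v327 v328
  let v330 := A.base 96
  let v331 := A.base 95
  let v332 := A.mul v14 v330
  let v333 := A.add v331 v332
  let v334 := A.base 94
  let v335 := A.mul v14 v333
  qZB2_b21 px py ex ey lam K0 K1 Ph Qb A v0 v14 v15 v22 v26 v29 v31 v137 v219 v301 v329 v334 v335

def qZB2_b19 {α : Type} (px py ex ey lam K0 K1 Ph Qb : Int) (A : Alg α) (v0 v14 v15 v22 v26 v29 v31 v137 v219 v301 v302 v303 : α) : List α :=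
  let v304 := A.base 104
  let v305 := A.mul v14 v303
  let v306 := A.add v304 v305
  let v307 := A.mul v15 v302
  let v308 := A.add v306 v307
  let v309 := A.base 103
  let v310 := A.base 102
  let v311 := A.mul v14 v309
  let v312 := A.add v310 v311
  let v313 := A.base 101
  let v314 := A.mul v14 v312
  let v315 := A.add v313 v314
  let v316 := A.mul v15 v308
  let v317 := A.add v315 v316
  let v318 := A.base 100
  let v319 := A.base 99
  qZB2_b20 px py ex ey lam K0 K1 Ph Qb A v0 v14 v15 v22 v26 v29 v31 v137 v219 v301 v317 v318 v319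

def qZB2_b18 {α : Type} (px py ex ey lam K0 K1 Ph Qb : Int) (A : Alg α) (v0 v14 v15 v22 v26 v29 v31 v137 v219 v280 v287 : α) : List α :=
  let v288 := A.base 67
  let v289 := A.mul v14 v287
  let v290 := A.add v288 v289
  let v291 := A.base 66
  let v292 := A.mul v14 v290
  let v293 := A.add v291 v292
  let v294 := A.base 65
  let v295 := A.mul v14 v293
  let v296 := A.add v294 v295
  let v297 := A.base 64
  let v298 := A.mul v14 v296
  let v299 := A.add v297 v298
  let v300 := A.mul v15 v280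
  let v301 := A.add v299 v300
  let v302 := A.base 106
  let v303 := A.base 105
  qZB2_b19 px py ex ey lam K0 K1 Ph Qb A v0 v14 v15 v22 v26 v29 v31 v137 v219 v301 v302 v303

def qZB2_b17 {α : Type} (px py ex ey lam K0 K1 Ph Qb : Int) (A : Alg α) (v0 v14 v15 v22 v26 v29 v31 v137 v219 v262 v270 v271 : α) : List α :=
  let v272 := A.add v270 v271
  let v273 := A.base 72
  let v274 := A.mul v14 v272
  let v275 := A.add v273 v274
  let v276 := A.base 71
  let v277 := A.mul v14 v275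
  let v278 := A.add v276 v277
  let v279 := A.mul v15 v262
  let v280 := A.add v278 v279
  let v281 := A.base 70
  let v282 := A.base 69
  let v283 := A.mul v14 v281
  let v284 := A.add v282 v283
  let v285 := A.base 68
  let v286 := A.mul v14 v284
  let v287 := A.add v285 v286
  qZB2_b18 px py ex ey lam K0 K1 Ph Qb A v0 v14 v15 v22 v26 v29 v31 v137 v219 v280 v287

def qZB2_b16 {α : Type} (px py ex ey lam K0 K1 Ph Qb : Int) (A : Alg α) (v0 v14 v15 v22 v26 v29 v31 v137 v219 v247 v254 v255 : α) : List α :=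
  let v256 := A.mul v14 v254
  let v257 := A.add v255 v256
  let v258 := A.base 77
  let v259 := A.mul v14 v257
  let v260 := A.add v258 v259
  let v261 := A.mul v15 v247
  let v262 := A.add v260 v261
  let v263 := A.base 76
  let v264 := A.base 75
  let v265 := A.mul v14 v263
  let v266 := A.add v264 v265
  let v267 := A.base 74
  let v268 := A.mul v14 v266
  let v269 := A.add v267 v268
  let v270 := A.base 73
  let v271 := A.mul v14 v269
  qZB2_b17 px py ex ey lam K0 K1 Ph Qb A v0 v14 v15 v22 v26 v29 v31 v137 v219 v262 v270 v271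

def qZB2_b15 {α : Type} (px py ex ey lam K0 K1 Ph Qb : Int) (A : Alg α) (v0 v14 v15 v22 v26 v29 v31 v137 v219 v235 v239 : α) : List α :=
  let v240 := A.base 83
  let v241 := A.mul v14 v239
  let v242 := A.add v240 v241
  let v243 := A.base 82
  let v244 := A.mul v14 v242
  let v245 := A.add v243 v244
  let v246 := A.mul v15 v235
  let v247 := A.add v245 v246
  let v248 := A.base 81
  let v249 := A.base 80
  let v250 := A.mul v14 v248
  let v251 := A.add v249 v250
  let v252 := A.base 79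
  let v253 := A.mul v14 v251
  let v254 := A.add v252 v253
  let v255 := A.base 78
  qZB2_b16 px py ex ey lam K0 K1 Ph Qb A v0 v14 v15 v22 v26 v29 v31 v137 v219 v247 v254 v255

def qZB2_b14 {α : Type} (px py ex ey lam K0 K1 Ph Qb : Int) (A : Alg α) (v0 v14 v15 v22 v26 v29 v31 v137 v219 v220 v222 v223 : α) : List α :=
  let v224 := A.add v222 v223
  let v225 := A.mul v15 v220
  let v226 := A.add v224 v225
  let v227 := A.base 88
  let v228 := A.base 87
  let v229 := A.mul v14 v227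
  let v230 := A.add v228 v229
  let v231 := A.base 86
  let v232 := A.mul v14 v230
  let v233 := A.add v231 v232
  let v234 := A.mul v15 v226
  let v235 := A.add v233 v234
  let v236 := A.base 85
  let v237 := A.base 84
  let v238 := A.mul v14 v236
  let v239 := A.add v237 v238
  qZB2_b15 px py ex ey lam K0 K1 Ph Qb A v0 v14 v15 v22 v26 v29 v31 v137 v219 v235 v239

def qZB2_b13 {α : Type} (px py ex ey lam K0 K1 Ph Qb : Int) (A : Alg α) (v0 v14 v15 v22 v26 v29 v31 v137 v198 v206 v207 : α) : List α :=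
  let v208 := A.add v206 v207
  let v209 := A.base 38
  let v210 := A.mul v14 v208
  let v211 := A.add v209 v210
  let v212 := A.base 37
  let v213 := A.mul v14 v211
  let v214 := A.add v212 v213
  let v215 := A.base 36
  let v216 := A.mul v14 v214
  let v217 := A.add v215 v216
  let v218 := A.mul v15 v198
  let v219 := A.add v217 v218
  let v220 := A.base 91
  let v221 := A.base 90
  let v222 := A.base 89
  let v223 := A.mul v14 v221
  qZB2_b14 px py ex ey lam K0 K1 Ph Qb A v0 v14 v15 v22 v26 v29 v31 v137 v219 v220 v222 v223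

def qZB2_b12 {α : Type} (px py ex ey lam K0 K1 Ph Qb : Int) (A : Alg α) (v0 v14 v15 v22 v26 v29 v31 v137 v180 v190 v191 : α) : List α :=
  let v192 := A.mul v14 v190
  let v193 := A.add v191 v192
  let v194 := A.base 43
  let v195 := A.mul v14 v193
  let v196 := A.add v194 v195
  let v197 := A.mul v15 v180
  let v198 := A.add v196 v197
  let v199 := A.base 42
  let v200 := A.base 41
  let v201 := A.mul v14 v199
  let v202 := A.add v200 v201
  let v203 := A.base 40
  let v204 := A.mul v14 v202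
  let v205 := A.add v203 v204
  let v206 := A.base 39
  let v207 := A.mul v14 v205
  qZB2_b13 px py ex ey lam K0 K1 Ph Qb A v0 v14 v15 v22 v26 v29 v31 v137 v198 v206 v207

def qZB2_b11 {α : Type} (px py ex ey lam K0 K1 Ph Qb : Int) (A : Alg α) (v0 v14 v15 v22 v26 v29 v31 v137 v165 v175 : α) : List α :=
  let v176 := A.base 49
  let v177 := A.mul v14 v175
  let v178 := A.add v176 v177
  let v179 := A.mul v15 v165
  let v180 := A.add v178 v179
  let v181 := A.base 48
  let v182 := A.base 47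
  let v183 := A.mul v14 v181
  let v184 := A.add v182 v183
  let v185 := A.base 46
  let v186 := A.mul v14 v184
  let v187 := A.add v185 v186
  let v188 := A.base 45
  let v189 := A.mul v14 v187
  let v190 := A.add v188 v189
  let v191 := A.base 44
  qZB2_b12 px py ex ey lam K0 K1 Ph Qb A v0 v14 v15 v22 v26 v29 v31 v137 v180 v190 v191

def qZB2_b10 {α : Type} (px py ex ey lam K0 K1 Ph Qb : Int) (A : Alg α) (v0 v14 v15 v22 v26 v29 v31 v137 v153 v158 v159 : α) : List α :=
  let v160 := A.add v158 v159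
  let v161 := A.base 54
  let v162 := A.mul v14 v160
  let v163 := A.add v161 v162
  let v164 := A.mul v15 v153
  let v165 := A.add v163 v164
  let v166 := A.base 53
  let v167 := A.base 52
  let v168 := A.mul v14 v166
  let v169 := A.add v167 v168
  let v170 := A.base 51
  let v171 := A.mul v14 v169
  let v172 := A.add v170 v171
  let v173 := A.base 50
  let v174 := A.mul v14 v172
  let v175 := A.add v173 v174
  qZB2_b11 px py ex ey lam K0 K1 Ph Qb A v0 v14 v15 v22 v26 v29 v31 v137 v165 v175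

def qZB2_b9 {α : Type} (px py ex ey lam K0 K1 Ph Qb : Int) (A : Alg α) (v0 v14 v15 v22 v26 v29 v31 v137 v142 v143 : α) : List α :=
  let v144 := A.add v142 v143
  let v145 := A.base 60
  let v146 := A.base 59
  let v147 := A.mul v14 v145
  let v148 := A.add v146 v147
  let v149 := A.base 58
  let v150 := A.mul v14 v148
  let v151 := A.add v149 v150
  let v152 := A.mul v15 v144
  let v153 := A.add v151 v152
  let v154 := A.base 57
  let v155 := A.base 56
  let v156 := A.mul v14 v154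
  let v157 := A.add v155 v156
  let v158 := A.base 55
  let v159 := A.mul v14 v157
  qZB2_b10 px py ex ey lam K0 K1 Ph Qb A v0 v14 v15 v22 v26 v29 v31 v137 v153 v158 v159

def qZB2_b8 {α : Type} (px py ex ey lam K0 K1 Ph Qb : Int) (A : Alg α) (v0 v14 v15 v22 v26 v29 v31 v113 v126 v127 : α) : List α :=
  let v128 := A.mul v14 v126
  let v129 := A.add v127 v128
  let v130 := A.base 1
  let v131 := A.mul v14 v129
  let v132 := A.add v130 v131
  let v133 := A.base 0
  let v134 := A.mul v14 v132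
  let v135 := A.add v133 v134
  let v136 := A.mul v15 v113
  let v137 := A.add v135 v136
  let v138 := A.base 63
  let v139 := A.base 62
  let v140 := A.base 61
  let v141 := A.mul v14 v139
  let v142 := A.add v140 v141
  let v143 := A.mul v15 v138
  qZB2_b9 px py ex ey lam K0 K1 Ph Qb A v0 v14 v15 v22 v26 v29 v31 v137 v142 v143

def qZB2_b7 {α : Type} (px py ex ey lam K0 K1 Ph Qb : Int) (A : Alg α) (v0 v14 v15 v22 v26 v29 v31 v92 v111 : α) : List α :=
  let v112 := A.mul v15 v92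
  let v113 := A.add v111 v112
  let v114 := A.base 7
  let v115 := A.base 6
  let v116 := A.mul v14 v114
  let v117 := A.add v115 v116
  let v118 := A.base 5
  let v119 := A.mul v14 v117
  let v120 := A.add v118 v119
  let v121 := A.base 4
  let v122 := A.mul v14 v120
  let v123 := A.add v121 v122
  let v124 := A.base 3
  let v125 := A.mul v14 v123
  let v126 := A.add v124 v125
  let v127 := A.base 2
  qZB2_b8 px py ex ey lam K0 K1 Ph Qb A v0 v14 v15 v22 v26 v29 v31 v113 v126 v127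

def qZB2_b6 {α : Type} (px py ex ey lam K0 K1 Ph Qb : Int) (A : Alg α) (v0 v14 v15 v22 v26 v29 v31 v92 v94 v95 : α) : List α :=
  let v96 := A.add v94 v95
  let v97 := A.base 12
  let v98 := A.mul v14 v96
  let v99 := A.add v97 v98
  let v100 := A.base 11
  let v101 := A.mul v14 v99
  let v102 := A.add v100 v101
  let v103 := A.base 10
  let v104 := A.mul v14 v102
  let v105 := A.add v103 v104
  let v106 := A.base 9
  let v107 := A.mul v14 v105
  let v108 := A.add v106 v107
  let v109 := A.base 8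
  let v110 := A.mul v14 v108
  let v111 := A.add v109 v110
  qZB2_b7 px py ex ey lam K0 K1 Ph Qb A v0 v14 v15 v22 v26 v29 v31 v92 v111

def qZB2_b5 {α : Type} (px py ex ey lam K0 K1 Ph Qb : Int) (A : Alg α) (v0 v14 v15 v22 v26 v29 v31 v74 v78 v79 : α) : List α :=
  let v80 := A.mul v14 v78
  let v81 := A.add v79 v80
  let v82 := A.base 17
  let v83 := A.mul v14 v81
  let v84 := A.add v82 v83
  let v85 := A.base 16
  let v86 := A.mul v14 v84
  let v87 := A.add v85 v86
  let v88 := A.base 15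
  let v89 := A.mul v14 v87
  let v90 := A.add v88 v89
  let v91 := A.mul v15 v74
  let v92 := A.add v90 v91
  let v93 := A.base 14
  let v94 := A.base 13
  let v95 := A.mul v14 v93
  qZB2_b6 px py ex ey lam K0 K1 Ph Qb A v0 v14 v15 v22 v26 v29 v31 v92 v94 v95

def qZB2_b4 {α : Type} (px py ex ey lam K0 K1 Ph Qb : Int) (A : Alg α) (v0 v14 v15 v22 v26 v29 v31 v59 v63 : α) : List α :=
  let v64 := A.base 23
  let v65 := A.mul v14 v63
  let v66 := A.add v64 v65
  let v67 := A.base 22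
  let v68 := A.mul v14 v66
  let v69 := A.add v67 v68
  let v70 := A.base 21
  let v71 := A.mul v14 v69
  let v72 := A.add v70 v71
  let v73 := A.mul v15 v59
  let v74 := A.add v72 v73
  let v75 := A.base 20
  let v76 := A.base 19
  let v77 := A.mul v14 v75
  let v78 := A.add v76 v77
  let v79 := A.base 18
  qZB2_b5 px py ex ey lam K0 K1 Ph Qb A v0 v14 v15 v22 v26 v29 v31 v74 v78 v79

def qZB2_b3 {α : Type} (px py ex ey lam K0 K1 Ph Qb : Int) (A : Alg α) (v0 v14 v15 v22 v26 v29 v31 v47 : α) : List α :=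
  let v48 := A.base 29
  let v49 := A.base 28
  let v50 := A.mul v14 v48
  let v51 := A.add v49 v50
  let v52 := A.base 27
  let v53 := A.mul v14 v51
  let v54 := A.add v52 v53
  let v55 := A.base 26
  let v56 := A.mul v14 v54
  let v57 := A.add v55 v56
  let v58 := A.mul v15 v47
  let v59 := A.add v57 v58
  let v60 := A.base 25
  let v61 := A.base 24
  let v62 := A.mul v14 v60
  let v63 := A.add v61 v62
  qZB2_b4 px py ex ey lam K0 K1 Ph Qb A v0 v14 v15 v22 v26 v29 v31 v59 v63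

def qZB2_b2 {α : Type} (px py ex ey lam K0 K1 Ph Qb : Int) (A : Alg α) (v0 v14 v15 v22 v26 v29 v31 : α) : List α :=
  let v32 := A.base 35
  let v33 := A.base 34
  let v34 := A.base 33
  let v35 := A.mul v14 v33
  let v36 := A.add v34 v35
  let v37 := A.mul v15 v32
  let v38 := A.add v36 v37
  let v39 := A.base 32
  let v40 := A.base 31
  let v41 := A.mul v14 v39
  let v42 := A.add v40 v41
  let v43 := A.base 30
  let v44 := A.mul v14 v42
  let v45 := A.add v43 v44
  let v46 := A.mul v15 v38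
  let v47 := A.add v45 v46
  qZB2_b3 px py ex ey lam K0 K1 Ph Qb A v0 v14 v15 v22 v26 v29 v31 v47

def qZB2_b1 {α : Type} (px py ex ey lam K0 K1 Ph Qb : Int) (A : Alg α) (v0 v14 v15 : α) : List α :=
  let v16 := A.base 130
  let v17 := A.base 131
  let v18 := A.mul v17 v14
  let v19 := A.base 132
  let v20 := A.mul v19 v15
  let v21 := A.add v18 v20
  let v22 := A.add v16 v21
  let v23 := A.cst (1) 0
  let v24 := A.base 133
  let v25 := A.base 129
  let v26 := A.add v25 v15
  let v27 := A.mul v24 v26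
  let v28 := A.base 128
  let v29 := A.add v28 v14
  let v30 := A.add v23 v29
  let v31 := A.add v30 v27
  qZB2_b2 px py ex ey lam K0 K1 Ph Qb A v0 v14 v15 v22 v26 v29 v31

def qZB2_f {α : Type} (px py ex ey lam K0 K1 Ph Qb : Int) (A : Alg α) : List α :=
  let v0 := A.x
  let v1 := A.y
  let v2 := A.cst px 21
  let v3 := A.base 134
  let v4 := A.sub v2 v3
  let v5 := A.cst ex 21
  let v6 := A.mul v1 v5
  let v7 := A.add v4 v6
  let v8 := A.cst py 21
  let v9 := A.base 135
  let v10 := A.sub v8 v9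
  let v11 := A.cst ey 21
  let v12 := A.mul v1 v11
  let v13 := A.add v10 v12
  let v14 := A.mul v0 v7
  let v15 := A.mul v0 v13
  qZB2_b1 px py ex ey lam K0 K1 Ph Qb A v0 v14 v15

theorem qZB2_h {α : Type} (px py ex ey lam K0 K1 Ph Qb : Int) (A : Alg α) : qZB2_f px py ex ey lam K0 K1 Ph Qb A = outs A (pZB2 px py ex ey lam K0 K1 Ph Qb) [37, 0] := rfl

def qZB2 (px py ex ey lam K0 K1 Ph Qb : Int) : Prg :=
  ⟨pZB2 px py ex ey lam K0 K1 Ph Qb, [37, 0], qZB2_f px py ex ey lam K0 K1 Ph Qb, qZB2_h px py ex ey lam K0 K1 Ph Qb⟩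

set_option maxHeartbeats 4000000 in
theorem pZB2_val (β : ℕ → ℝ) (r s : ℝ) (px py ex ey lam K0 K1 Ph Qb : Int) :
    outs (realAlg β r s) (pZB2 px py ex ey lam K0 K1 Ph Qb) [37, 0] =
      [vZB2_Q β px py ex ey lam K0 K1 Ph Qb r s,
        vZB2_W β px py ex ey lam K0 K1 Ph Qb r s] := by
  unfold outs pZB2
  refine rco (v := r) rfl ?_
  refine rco (v := s) rfl ?_
  refine rco (v := ((px : ℝ) / 2 ^ 21)) rfl ?_
  refine rco (v := (β 134)) rfl ?_
  refine rco (v := (((px : ℝ) / 2 ^ 21) - (β 134))) rfl ?_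
  refine rco (v := ((ex : ℝ) / 2 ^ 21)) rfl ?_
  refine rco (v := (s * ((ex : ℝ) / 2 ^ 21))) rfl ?_
  refine rco (v := (zXh β px ex s)) rfl ?_
  refine rco (v := ((py : ℝ) / 2 ^ 21)) rfl ?_
  refine rco (v := (β 135)) rfl ?_
  refine rco (v := (((py : ℝ) / 2 ^ 21) - (β 135))) rfl ?_
  refine rco (v := ((ey : ℝ) / 2 ^ 21)) rfl ?_
  refine rco (v := (s * ((ey : ℝ) / 2 ^ 21))) rfl ?_
  refine rco (v := (zYh β py ey s)) rfl ?_
  refine rco (v := (zX β px ex r s)) rfl ?_
  refine rco (v := (zY β py ey r s)) rfl ?_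
  refine rco (v := (β 130)) rfl ?_
  refine rco (v := (β 131)) rfl ?_
  refine rco (v := ((β 131) * (zX β px ex r s))) rfl ?_
  refine rco (v := (β 132)) rfl ?_
  refine rco (v := ((β 132) * (zY β py ey r s))) rfl ?_
  refine rco (v := (((β 131) * (zX β px ex r s)) + ((β 132) * (zY β py ey r s)))) rfl ?_
  refine rco (v := (zf β px py ex ey r s)) rfl ?_
  refine rco (v := (1 : ℝ)) (by norm_num [step, realAlg]) ?_
  refine rco (v := (β 133)) rfl ?_
  refine rco (v := (β 129)) rfl ?_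
  refine rco (v := ((β 129) + (zY β py ey r s))) rfl ?_
  refine rco (v := ((β 133) * ((β 129) + (zY β py ey r s)))) rfl ?_
  refine rco (v := (β 128)) rfl ?_
  refine rco (v := ((β 128) + (zX β px ex r s))) rfl ?_
  refine rco (v := ((1 : ℝ) + ((β 128) + (zX β px ex r s)))) rfl ?_
  refine rco (v := (zD2 β px py ex ey r s)) rfl ?_
  refine rco (v := (β 35)) rfl ?_
  refine rco (v := (β 34)) rfl ?_
  refine rco (v := (β 33)) rfl ?_
  refine rco (v := ((zX β px ex r s) * (β 34))) rfl ?_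
  refine rco (v := (hr β (zX β px ex r s) 33 2)) rfl ?_
  refine rco (v := ((zY β py ey r s) * (β 35))) rfl ?_
  refine rco (v := (hr2 β (zX β px ex r s) (zY β py ey r s) 33 1)) rfl ?_
  refine rco (v := (β 32)) rfl ?_
  refine rco (v := (β 31)) rfl ?_
  refine rco (v := ((zX β px ex r s) * (β 32))) rfl ?_
  refine rco (v := (hr β (zX β px ex r s) 31 2)) rfl ?_
  refine rco (v := (β 30)) rfl ?_
  refine rco (v := ((zX β px ex r s) * (hr β (zX β px ex r s) 31 2))) rfl ?_
  refine rco (v := (hr β (zX β px ex r s) 30 3)) rfl ?_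
  refine rco (v := ((zY β py ey r s) * (hr2 β (zX β px ex r s) (zY β py ey r s) 33 1))) rfl ?_
  refine rco (v := (hr2 β (zX β px ex r s) (zY β py ey r s) 30 2)) rfl ?_
  refine rco (v := (β 29)) rfl ?_
  refine rco (v := (β 28)) rfl ?_
  refine rco (v := ((zX β px ex r s) * (β 29))) rfl ?_
  refine rco (v := (hr β (zX β px ex r s) 28 2)) rfl ?_
  refine rco (v := (β 27)) rfl ?_
  refine rco (v := ((zX β px ex r s) * (hr β (zX β px ex r s) 28 2))) rfl ?_
  refine rco (v := (hr β (zX β px ex r s) 27 3)) rfl ?_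
  refine rco (v := (β 26)) rfl ?_
  refine rco (v := ((zX β px ex r s) * (hr β (zX β px ex r s) 27 3))) rfl ?_
  refine rco (v := (hr β (zX β px ex r s) 26 4)) rfl ?_
  refine rco (v := ((zY β py ey r s) * (hr2 β (zX β px ex r s) (zY β py ey r s) 30 2))) rfl ?_
  refine rco (v := (hr2 β (zX β px ex r s) (zY β py ey r s) 26 3)) rfl ?_
  refine rco (v := (β 25)) rfl ?_
  refine rco (v := (β 24)) rfl ?_
  refine rco (v := ((zX β px ex r s) * (β 25))) rfl ?_
  refine rco (v := (hr β (zX β px ex r s) 24 2)) rfl ?_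
  refine rco (v := (β 23)) rfl ?_
  refine rco (v := ((zX β px ex r s) * (hr β (zX β px ex r s) 24 2))) rfl ?_
  refine rco (v := (hr β (zX β px ex r s) 23 3)) rfl ?_
  refine rco (v := (β 22)) rfl ?_
  refine rco (v := ((zX β px ex r s) * (hr β (zX β px ex r s) 23 3))) rfl ?_
  refine rco (v := (hr β (zX β px ex r s) 22 4)) rfl ?_
  refine rco (v := (β 21)) rfl ?_
  refine rco (v := ((zX β px ex r s) * (hr β (zX β px ex r s) 22 4))) rfl ?_
  refine rco (v := (hr β (zX β px ex r s) 21 5)) rfl ?_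
  refine rco (v := ((zY β py ey r s) * (hr2 β (zX β px ex r s) (zY β py ey r s) 26 3))) rfl ?_
  refine rco (v := (hr2 β (zX β px ex r s) (zY β py ey r s) 21 4)) rfl ?_
  refine rco (v := (β 20)) rfl ?_
  refine rco (v := (β 19)) rfl ?_
  refine rco (v := ((zX β px ex r s) * (β 20))) rfl ?_
  refine rco (v := (hr β (zX β px ex r s) 19 2)) rfl ?_
  refine rco (v := (β 18)) rfl ?_
  refine rco (v := ((zX β px ex r s) * (hr β (zX β px ex r s) 19 2))) rfl ?_
  refine rco (v := (hr β (zX β px ex r s) 18 3)) rfl ?_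
  refine rco (v := (β 17)) rfl ?_
  refine rco (v := ((zX β px ex r s) * (hr β (zX β px ex r s) 18 3))) rfl ?_
  refine rco (v := (hr β (zX β px ex r s) 17 4)) rfl ?_
  refine rco (v := (β 16)) rfl ?_
  refine rco (v := ((zX β px ex r s) * (hr β (zX β px ex r s) 17 4))) rfl ?_
  refine rco (v := (hr β (zX β px ex r s) 16 5)) rfl ?_
  refine rco (v := (β 15)) rfl ?_
  refine rco (v := ((zX β px ex r s) * (hr β (zX β px ex r s) 16 5))) rfl ?_
  refine rco (v := (hr β (zX β px ex r s) 15 6)) rfl ?_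
  refine rco (v := ((zY β py ey r s) * (hr2 β (zX β px ex r s) (zY β py ey r s) 21 4))) rfl ?_
  refine rco (v := (hr2 β (zX β px ex r s) (zY β py ey r s) 15 5)) rfl ?_
  refine rco (v := (β 14)) rfl ?_
  refine rco (v := (β 13)) rfl ?_
  refine rco (v := ((zX β px ex r s) * (β 14))) rfl ?_
  refine rco (v := (hr β (zX β px ex r s) 13 2)) rfl ?_
  refine rco (v := (β 12)) rfl ?_
  refine rco (v := ((zX β px ex r s) * (hr β (zX β px ex r s) 13 2))) rfl ?_
  refine rco (v := (hr β (zX β px ex r s) 12 3)) rfl ?_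
  refine rco (v := (β 11)) rfl ?_
  refine rco (v := ((zX β px ex r s) * (hr β (zX β px ex r s) 12 3))) rfl ?_
  refine rco (v := (hr β (zX β px ex r s) 11 4)) rfl ?_
  refine rco (v := (β 10)) rfl ?_
  refine rco (v := ((zX β px ex r s) * (hr β (zX β px ex r s) 11 4))) rfl ?_
  refine rco (v := (hr β (zX β px ex r s) 10 5)) rfl ?_
  refine rco (v := (β 9)) rfl ?_
  refine rco (v := ((zX β px ex r s) * (hr β (zX β px ex r s) 10 5))) rfl ?_
  refine rco (v := (hr β (zX β px ex r s) 9 6)) rfl ?_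
  refine rco (v := (β 8)) rfl ?_
  refine rco (v := ((zX β px ex r s) * (hr β (zX β px ex r s) 9 6))) rfl ?_
  refine rco (v := (hr β (zX β px ex r s) 8 7)) rfl ?_
  refine rco (v := ((zY β py ey r s) * (hr2 β (zX β px ex r s) (zY β py ey r s) 15 5))) rfl ?_
  refine rco (v := (hr2 β (zX β px ex r s) (zY β py ey r s) 8 6)) rfl ?_
  refine rco (v := (β 7)) rfl ?_
  refine rco (v := (β 6)) rfl ?_
  refine rco (v := ((zX β px ex r s) * (β 7))) rfl ?_
  refine rco (v := (hr β (zX β px ex r s) 6 2)) rfl ?_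
  refine rco (v := (β 5)) rfl ?_
  refine rco (v := ((zX β px ex r s) * (hr β (zX β px ex r s) 6 2))) rfl ?_
  refine rco (v := (hr β (zX β px ex r s) 5 3)) rfl ?_
  refine rco (v := (β 4)) rfl ?_
  refine rco (v := ((zX β px ex r s) * (hr β (zX β px ex r s) 5 3))) rfl ?_
  refine rco (v := (hr β (zX β px ex r s) 4 4)) rfl ?_
  refine rco (v := (β 3)) rfl ?_
  refine rco (v := ((zX β px ex r s) * (hr β (zX β px ex r s) 4 4))) rfl ?_
  refine rco (v := (hr β (zX β px ex r s) 3 5)) rfl ?_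
  refine rco (v := (β 2)) rfl ?_
  refine rco (v := ((zX β px ex r s) * (hr β (zX β px ex r s) 3 5))) rfl ?_
  refine rco (v := (hr β (zX β px ex r s) 2 6)) rfl ?_
  refine rco (v := (β 1)) rfl ?_
  refine rco (v := ((zX β px ex r s) * (hr β (zX β px ex r s) 2 6))) rfl ?_
  refine rco (v := (hr β (zX β px ex r s) 1 7)) rfl ?_
  refine rco (v := (β 0)) rfl ?_
  refine rco (v := ((zX β px ex r s) * (hr β (zX β px ex r s) 1 7))) rfl ?_
  refine rco (v := (hr β (zX β px ex r s) 0 8)) rfl ?_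
  refine rco (v := ((zY β py ey r s) * (hr2 β (zX β px ex r s) (zY β py ey r s) 8 6))) rfl ?_
  refine rco (v := (hr2 β (zX β px ex r s) (zY β py ey r s) 0 7)) rfl ?_
  refine rco (v := (β 63)) rfl ?_
  refine rco (v := (β 62)) rfl ?_
  refine rco (v := (β 61)) rfl ?_
  refine rco (v := ((zX β px ex r s) * (β 62))) rfl ?_
  refine rco (v := (hr β (zX β px ex r s) 61 2)) rfl ?_
  refine rco (v := ((zY β py ey r s) * (β 63))) rfl ?_
  refine rco (v := (hr2 β (zX β px ex r s) (zY β py ey r s) 61 1)) rfl ?_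
  refine rco (v := (β 60)) rfl ?_
  refine rco (v := (β 59)) rfl ?_
  refine rco (v := ((zX β px ex r s) * (β 60))) rfl ?_
  refine rco (v := (hr β (zX β px ex r s) 59 2)) rfl ?_
  refine rco (v := (β 58)) rfl ?_
  refine rco (v := ((zX β px ex r s) * (hr β (zX β px ex r s) 59 2))) rfl ?_
  refine rco (v := (hr β (zX β px ex r s) 58 3)) rfl ?_
  refine rco (v := ((zY β py ey r s) * (hr2 β (zX β px ex r s) (zY β py ey r s) 61 1))) rfl ?_
  refine rco (v := (hr2 β (zX β px ex r s) (zY β py ey r s) 58 2)) rfl ?_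
  refine rco (v := (β 57)) rfl ?_
  refine rco (v := (β 56)) rfl ?_
  refine rco (v := ((zX β px ex r s) * (β 57))) rfl ?_
  refine rco (v := (hr β (zX β px ex r s) 56 2)) rfl ?_
  refine rco (v := (β 55)) rfl ?_
  refine rco (v := ((zX β px ex r s) * (hr β (zX β px ex r s) 56 2))) rfl ?_
  refine rco (v := (hr β (zX β px ex r s) 55 3)) rfl ?_
  refine rco (v := (β 54)) rfl ?_
  refine rco (v := ((zX β px ex r s) * (hr β (zX β px ex r s) 55 3))) rfl ?_
  refine rco (v := (hr β (zX β px ex r s) 54 4)) rfl ?_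
  refine rco (v := ((zY β py ey r s) * (hr2 β (zX β px ex r s) (zY β py ey r s) 58 2))) rfl ?_
  refine rco (v := (hr2 β (zX β px ex r s) (zY β py ey r s) 54 3)) rfl ?_
  refine rco (v := (β 53)) rfl ?_
  refine rco (v := (β 52)) rfl ?_
  refine rco (v := ((zX β px ex r s) * (β 53))) rfl ?_
  refine rco (v := (hr β (zX β px ex r s) 52 2)) rfl ?_
  refine rco (v := (β 51)) rfl ?_
  refine rco (v := ((zX β px ex r s) * (hr β (zX β px ex r s) 52 2))) rfl ?_
  refine rco (v := (hr β (zX β px ex r s) 51 3)) rfl ?_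
  refine rco (v := (β 50)) rfl ?_
  refine rco (v := ((zX β px ex r s) * (hr β (zX β px ex r s) 51 3))) rfl ?_
  refine rco (v := (hr β (zX β px ex r s) 50 4)) rfl ?_
  refine rco (v := (β 49)) rfl ?_
  refine rco (v := ((zX β px ex r s) * (hr β (zX β px ex r s) 50 4))) rfl ?_
  refine rco (v := (hr β (zX β px ex r s) 49 5)) rfl ?_
  refine rco (v := ((zY β py ey r s) * (hr2 β (zX β px ex r s) (zY β py ey r s) 54 3))) rfl ?_
  refine rco (v := (hr2 β (zX β px ex r s) (zY β py ey r s) 49 4)) rfl ?_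
  refine rco (v := (β 48)) rfl ?_
  refine rco (v := (β 47)) rfl ?_
  refine rco (v := ((zX β px ex r s) * (β 48))) rfl ?_
  refine rco (v := (hr β (zX β px ex r s) 47 2)) rfl ?_
  refine rco (v := (β 46)) rfl ?_
  refine rco (v := ((zX β px ex r s) * (hr β (zX β px ex r s) 47 2))) rfl ?_
  refine rco (v := (hr β (zX β px ex r s) 46 3)) rfl ?_
  refine rco (v := (β 45)) rfl ?_
  refine rco (v := ((zX β px ex r s) * (hr β (zX β px ex r s) 46 3))) rfl ?_
  refine rco (v := (hr β (zX β px ex r s) 45 4)) rfl ?_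
  refine rco (v := (β 44)) rfl ?_
  refine rco (v := ((zX β px ex r s) * (hr β (zX β px ex r s) 45 4))) rfl ?_
  refine rco (v := (hr β (zX β px ex r s) 44 5)) rfl ?_
  refine rco (v := (β 43)) rfl ?_
  refine rco (v := ((zX β px ex r s) * (hr β (zX β px ex r s) 44 5))) rfl ?_
  refine rco (v := (hr β (zX β px ex r s) 43 6)) rfl ?_
  refine rco (v := ((zY β py ey r s) * (hr2 β (zX β px ex r s) (zY β py ey r s) 49 4))) rfl ?_
  refine rco (v := (hr2 β (zX β px ex r s) (zY β py ey r s) 43 5)) rfl ?_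
  refine rco (v := (β 42)) rfl ?_
  refine rco (v := (β 41)) rfl ?_
  refine rco (v := ((zX β px ex r s) * (β 42))) rfl ?_
  refine rco (v := (hr β (zX β px ex r s) 41 2)) rfl ?_
  refine rco (v := (β 40)) rfl ?_
  refine rco (v := ((zX β px ex r s) * (hr β (zX β px ex r s) 41 2))) rfl ?_
  refine rco (v := (hr β (zX β px ex r s) 40 3)) rfl ?_
  refine rco (v := (β 39)) rfl ?_
  refine rco (v := ((zX β px ex r s) * (hr β (zX β px ex r s) 40 3))) rfl ?_
  refine rco (v := (hr β (zX β px ex r s) 39 4)) rfl ?_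
  refine rco (v := (β 38)) rfl ?_
  refine rco (v := ((zX β px ex r s) * (hr β (zX β px ex r s) 39 4))) rfl ?_
  refine rco (v := (hr β (zX β px ex r s) 38 5)) rfl ?_
  refine rco (v := (β 37)) rfl ?_
  refine rco (v := ((zX β px ex r s) * (hr β (zX β px ex r s) 38 5))) rfl ?_
  refine rco (v := (hr β (zX β px ex r s) 37 6)) rfl ?_
  refine rco (v := (β 36)) rfl ?_
  refine rco (v := ((zX β px ex r s) * (hr β (zX β px ex r s) 37 6))) rfl ?_
  refine rco (v := (hr β (zX β px ex r s) 36 7)) rfl ?_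
  refine rco (v := ((zY β py ey r s) * (hr2 β (zX β px ex r s) (zY β py ey r s) 43 5))) rfl ?_
  refine rco (v := (hr2 β (zX β px ex r s) (zY β py ey r s) 36 6)) rfl ?_
  refine rco (v := (β 91)) rfl ?_
  refine rco (v := (β 90)) rfl ?_
  refine rco (v := (β 89)) rfl ?_
  refine rco (v := ((zX β px ex r s) * (β 90))) rfl ?_
  refine rco (v := (hr β (zX β px ex r s) 89 2)) rfl ?_
  refine rco (v := ((zY β py ey r s) * (β 91))) rfl ?_
  refine rco (v := (hr2 β (zX β px ex r s) (zY β py ey r s) 89 1)) rfl ?_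
  refine rco (v := (β 88)) rfl ?_
  refine rco (v := (β 87)) rfl ?_
  refine rco (v := ((zX β px ex r s) * (β 88))) rfl ?_
  refine rco (v := (hr β (zX β px ex r s) 87 2)) rfl ?_
  refine rco (v := (β 86)) rfl ?_
  refine rco (v := ((zX β px ex r s) * (hr β (zX β px ex r s) 87 2))) rfl ?_
  refine rco (v := (hr β (zX β px ex r s) 86 3)) rfl ?_
  refine rco (v := ((zY β py ey r s) * (hr2 β (zX β px ex r s) (zY β py ey r s) 89 1))) rfl ?_
  refine rco (v := (hr2 β (zX β px ex r s) (zY β py ey r s) 86 2)) rfl ?_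
  refine rco (v := (β 85)) rfl ?_
  refine rco (v := (β 84)) rfl ?_
  refine rco (v := ((zX β px ex r s) * (β 85))) rfl ?_
  refine rco (v := (hr β (zX β px ex r s) 84 2)) rfl ?_
  refine rco (v := (β 83)) rfl ?_
  refine rco (v := ((zX β px ex r s) * (hr β (zX β px ex r s) 84 2))) rfl ?_
  refine rco (v := (hr β (zX β px ex r s) 83 3)) rfl ?_
  refine rco (v := (β 82)) rfl ?_
  refine rco (v := ((zX β px ex r s) * (hr β (zX β px ex r s) 83 3))) rfl ?_
  refine rco (v := (hr β (zX β px ex r s) 82 4)) rfl ?_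
  refine rco (v := ((zY β py ey r s) * (hr2 β (zX β px ex r s) (zY β py ey r s) 86 2))) rfl ?_
  refine rco (v := (hr2 β (zX β px ex r s) (zY β py ey r s) 82 3)) rfl ?_
  refine rco (v := (β 81)) rfl ?_
  refine rco (v := (β 80)) rfl ?_
  refine rco (v := ((zX β px ex r s) * (β 81))) rfl ?_
  refine rco (v := (hr β (zX β px ex r s) 80 2)) rfl ?_
  refine rco (v := (β 79)) rfl ?_
  refine rco (v := ((zX β px ex r s) * (hr β (zX β px ex r s) 80 2))) rfl ?_
  refine rco (v := (hr β (zX β px ex r s) 79 3)) rfl ?_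
  refine rco (v := (β 78)) rfl ?_
  refine rco (v := ((zX β px ex r s) * (hr β (zX β px ex r s) 79 3))) rfl ?_
  refine rco (v := (hr β (zX β px ex r s) 78 4)) rfl ?_
  refine rco (v := (β 77)) rfl ?_
  refine rco (v := ((zX β px ex r s) * (hr β (zX β px ex r s) 78 4))) rfl ?_
  refine rco (v := (hr β (zX β px ex r s) 77 5)) rfl ?_
  refine rco (v := ((zY β py ey r s) * (hr2 β (zX β px ex r s) (zY β py ey r s) 82 3))) rfl ?_
  refine rco (v := (hr2 β (zX β px ex r s) (zY β py ey r s) 77 4)) rfl ?_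
  refine rco (v := (β 76)) rfl ?_
  refine rco (v := (β 75)) rfl ?_
  refine rco (v := ((zX β px ex r s) * (β 76))) rfl ?_
  refine rco (v := (hr β (zX β px ex r s) 75 2)) rfl ?_
  refine rco (v := (β 74)) rfl ?_
  refine rco (v := ((zX β px ex r s) * (hr β (zX β px ex r s) 75 2))) rfl ?_
  refine rco (v := (hr β (zX β px ex r s) 74 3)) rfl ?_
  refine rco (v := (β 73)) rfl ?_
  refine rco (v := ((zX β px ex r s) * (hr β (zX β px ex r s) 74 3))) rfl ?_
  refine rco (v := (hr β (zX β px ex r s) 73 4)) rfl ?_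
  refine rco (v := (β 72)) rfl ?_
  refine rco (v := ((zX β px ex r s) * (hr β (zX β px ex r s) 73 4))) rfl ?_
  refine rco (v := (hr β (zX β px ex r s) 72 5)) rfl ?_
  refine rco (v := (β 71)) rfl ?_
  refine rco (v := ((zX β px ex r s) * (hr β (zX β px ex r s) 72 5))) rfl ?_
  refine rco (v := (hr β (zX β px ex r s) 71 6)) rfl ?_
  refine rco (v := ((zY β py ey r s) * (hr2 β (zX β px ex r s) (zY β py ey r s) 77 4))) rfl ?_
  refine rco (v := (hr2 β (zX β px ex r s) (zY β py ey r s) 71 5)) rfl ?_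
  refine rco (v := (β 70)) rfl ?_
  refine rco (v := (β 69)) rfl ?_
  refine rco (v := ((zX β px ex r s) * (β 70))) rfl ?_
  refine rco (v := (hr β (zX β px ex r s) 69 2)) rfl ?_
  refine rco (v := (β 68)) rfl ?_
  refine rco (v := ((zX β px ex r s) * (hr β (zX β px ex r s) 69 2))) rfl ?_
  refine rco (v := (hr β (zX β px ex r s) 68 3)) rfl ?_
  refine rco (v := (β 67)) rfl ?_
  refine rco (v := ((zX β px ex r s) * (hr β (zX β px ex r s) 68 3))) rfl ?_
  refine rco (v := (hr β (zX β px ex r s) 67 4)) rfl ?_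
  refine rco (v := (β 66)) rfl ?_
  refine rco (v := ((zX β px ex r s) * (hr β (zX β px ex r s) 67 4))) rfl ?_
  refine rco (v := (hr β (zX β px ex r s) 66 5)) rfl ?_
  refine rco (v := (β 65)) rfl ?_
  refine rco (v := ((zX β px ex r s) * (hr β (zX β px ex r s) 66 5))) rfl ?_
  refine rco (v := (hr β (zX β px ex r s) 65 6)) rfl ?_
  refine rco (v := (β 64)) rfl ?_
  refine rco (v := ((zX β px ex r s) * (hr β (zX β px ex r s) 65 6))) rfl ?_
  refine rco (v := (hr β (zX β px ex r s) 64 7)) rfl ?_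
  refine rco (v := ((zY β py ey r s) * (hr2 β (zX β px ex r s) (zY β py ey r s) 71 5))) rfl ?_
  refine rco (v := (hr2 β (zX β px ex r s) (zY β py ey r s) 64 6)) rfl ?_
  refine rco (v := (β 106)) rfl ?_
  refine rco (v := (β 105)) rfl ?_
  refine rco (v := (β 104)) rfl ?_
  refine rco (v := ((zX β px ex r s) * (β 105))) rfl ?_
  refine rco (v := (hr β (zX β px ex r s) 104 2)) rfl ?_
  refine rco (v := ((zY β py ey r s) * (β 106))) rfl ?_
  refine rco (v := (hr2 β (zX β px ex r s) (zY β py ey r s) 104 1)) rfl ?_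
  refine rco (v := (β 103)) rfl ?_
  refine rco (v := (β 102)) rfl ?_
  refine rco (v := ((zX β px ex r s) * (β 103))) rfl ?_
  refine rco (v := (hr β (zX β px ex r s) 102 2)) rfl ?_
  refine rco (v := (β 101)) rfl ?_
  refine rco (v := ((zX β px ex r s) * (hr β (zX β px ex r s) 102 2))) rfl ?_
  refine rco (v := (hr β (zX β px ex r s) 101 3)) rfl ?_
  refine rco (v := ((zY β py ey r s) * (hr2 β (zX β px ex r s) (zY β py ey r s) 104 1))) rfl ?_
  refine rco (v := (hr2 β (zX β px ex r s) (zY β py ey r s) 101 2)) rfl ?_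
  refine rco (v := (β 100)) rfl ?_
  refine rco (v := (β 99)) rfl ?_
  refine rco (v := ((zX β px ex r s) * (β 100))) rfl ?_
  refine rco (v := (hr β (zX β px ex r s) 99 2)) rfl ?_
  refine rco (v := (β 98)) rfl ?_
  refine rco (v := ((zX β px ex r s) * (hr β (zX β px ex r s) 99 2))) rfl ?_
  refine rco (v := (hr β (zX β px ex r s) 98 3)) rfl ?_
  refine rco (v := (β 97)) rfl ?_
  refine rco (v := ((zX β px ex r s) * (hr β (zX β px ex r s) 98 3))) rfl ?_
  refine rco (v := (hr β (zX β px ex r s) 97 4)) rfl ?_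
  refine rco (v := ((zY β py ey r s) * (hr2 β (zX β px ex r s) (zY β py ey r s) 101 2))) rfl ?_
  refine rco (v := (hr2 β (zX β px ex r s) (zY β py ey r s) 97 3)) rfl ?_
  refine rco (v := (β 96)) rfl ?_
  refine rco (v := (β 95)) rfl ?_
  refine rco (v := ((zX β px ex r s) * (β 96))) rfl ?_
  refine rco (v := (hr β (zX β px ex r s) 95 2)) rfl ?_
  refine rco (v := (β 94)) rfl ?_
  refine rco (v := ((zX β px ex r s) * (hr β (zX β px ex r s) 95 2))) rfl ?_
  refine rco (v := (hr β (zX β px ex r s) 94 3)) rfl ?_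
  refine rco (v := (β 93)) rfl ?_
  refine rco (v := ((zX β px ex r s) * (hr β (zX β px ex r s) 94 3))) rfl ?_
  refine rco (v := (hr β (zX β px ex r s) 93 4)) rfl ?_
  refine rco (v := (β 92)) rfl ?_
  refine rco (v := ((zX β px ex r s) * (hr β (zX β px ex r s) 93 4))) rfl ?_
  refine rco (v := (hr β (zX β px ex r s) 92 5)) rfl ?_
  refine rco (v := ((zY β py ey r s) * (hr2 β (zX β px ex r s) (zY β py ey r s) 97 3))) rfl ?_
  refine rco (v := (hr2 β (zX β px ex r s) (zY β py ey r s) 92 4)) rfl ?_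
  refine rco (v := ((zf β px py ex ey r s) * (zf β px py ex ey r s))) rfl ?_
  refine rco (v := ((zD2 β px py ex ey r s) * (zD2 β px py ex ey r s))) rfl ?_
  refine rco (v := (257 / 256 : ℝ)) (by norm_num [step, realAlg]) ?_
  refine rco (v := (1 / 65536 : ℝ)) (by norm_num [step, realAlg]) ?_
  refine rco (v := ((Qb : ℝ) / 2 ^ 8)) rfl ?_
  refine rco (v := (((Qb : ℝ) / 2 ^ 8) * ((Qb : ℝ) / 2 ^ 8))) rfl ?_
  refine rco (v := (((zf β px py ex ey r s) * (zf β px py ex ey r s)) * ((zD2 β px py ex ey r s) * (zD2 β px py ex ey r s)))) rfl ?_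
  refine rco (v := ((((Qb : ℝ) / 2 ^ 8) * ((Qb : ℝ) / 2 ^ 8)) * (((zf β px py ex ey r s) * (zf β px py ex ey r s)) * ((zD2 β px py ex ey r s) * (zD2 β px py ex ey r s))))) rfl ?_
  refine rco (v := ((hr2 β (zX β px ex r s) (zY β py ey r s) 36 6) * (hr2 β (zX β px ex r s) (zY β py ey r s) 36 6))) rfl ?_
  refine rco (v := ((hr2 β (zX β px ex r s) (zY β py ey r s) 64 6) * (hr2 β (zX β px ex r s) (zY β py ey r s) 64 6))) rfl ?_
  refine rco (v := (((hr2 β (zX β px ex r s) (zY β py ey r s) 36 6) * (hr2 β (zX β px ex r s) (zY β py ey r s) 36 6)) + ((hr2 β (zX β px ex r s) (zY β py ey r s) 64 6) * (hr2 β (zX β px ex r s) (zY β py ey r s) 64 6)))) rfl ?_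
  refine rco (v := ((((hr2 β (zX β px ex r s) (zY β py ey r s) 36 6) * (hr2 β (zX β px ex r s) (zY β py ey r s) 36 6)) + ((hr2 β (zX β px ex r s) (zY β py ey r s) 64 6) * (hr2 β (zX β px ex r s) (zY β py ey r s) 64 6))) * (257 / 256 : ℝ))) rfl ?_
  refine rco (v := (((((Qb : ℝ) / 2 ^ 8) * ((Qb : ℝ) / 2 ^ 8)) * (((zf β px py ex ey r s) * (zf β px py ex ey r s)) * ((zD2 β px py ex ey r s) * (zD2 β px py ex ey r s)))) - ((((hr2 β (zX β px ex r s) (zY β py ey r s) 36 6) * (hr2 β (zX β px ex r s) (zY β py ey r s) 36 6)) + ((hr2 β (zX β px ex r s) (zY β py ey r s) 64 6) * (hr2 β (zX β px ex r s) (zY β py ey r s) 64 6))) * (257 / 256 : ℝ)))) rfl ?_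
  refine rco (v := (257 / 67108864 : ℝ)) (by norm_num [step, realAlg]) ?_
  refine rco (v := ((((((Qb : ℝ) / 2 ^ 8) * ((Qb : ℝ) / 2 ^ 8)) * (((zf β px py ex ey r s) * (zf β px py ex ey r s)) * ((zD2 β px py ex ey r s) * (zD2 β px py ex ey r s)))) - ((((hr2 β (zX β px ex r s) (zY β py ey r s) 36 6) * (hr2 β (zX β px ex r s) (zY β py ey r s) 36 6)) + ((hr2 β (zX β px ex r s) (zY β py ey r s) 64 6) * (hr2 β (zX β px ex r s) (zY β py ey r s) 64 6))) * (257 / 256 : ℝ))) - (257 / 67108864 : ℝ))) rfl ?_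
  refine rco (v := (β 136)) rfl ?_
  refine rco (v := ((β 136) * (hr2 β (zX β px ex r s) (zY β py ey r s) 0 7))) rfl ?_
  refine rco (v := ((lam : ℝ) / 2 ^ 6)) rfl ?_
  refine rco (v := (((lam : ℝ) / 2 ^ 6) * (zD2 β px py ex ey r s))) rfl ?_
  refine rco (v := ((((lam : ℝ) / 2 ^ 6) * (zD2 β px py ex ey r s)) * ((β 128) + (zX β px ex r s)))) rfl ?_
  refine rco (v := ((zf β px py ex ey r s) * (hr2 β (zX β px ex r s) (zY β py ey r s) 36 6))) rfl ?_
  refine rco (v := (((β 136) * (hr2 β (zX β px ex r s) (zY β py ey r s) 0 7)) * ((β 128) + (zX β px ex r s)))) rfl ?_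
  refine rco (v := (((zf β px py ex ey r s) * (hr2 β (zX β px ex r s) (zY β py ey r s) 36 6)) + (((β 136) * (hr2 β (zX β px ex r s) (zY β py ey r s) 0 7)) * ((β 128) + (zX β px ex r s))))) rfl ?_
  refine rco (v := (((((lam : ℝ) / 2 ^ 6) * (zD2 β px py ex ey r s)) * ((β 128) + (zX β px ex r s))) - (((zf β px py ex ey r s) * (hr2 β (zX β px ex r s) (zY β py ey r s) 36 6)) + (((β 136) * (hr2 β (zX β px ex r s) (zY β py ey r s) 0 7)) * ((β 128) + (zX β px ex r s)))))) rfl ?_
  refine rco (v := ((((lam : ℝ) / 2 ^ 6) * (zD2 β px py ex ey r s)) * ((β 129) + (zY β py ey r s)))) rfl ?_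
  refine rco (v := ((zf β px py ex ey r s) * (hr2 β (zX β px ex r s) (zY β py ey r s) 64 6))) rfl ?_
  refine rco (v := (((β 136) * (hr2 β (zX β px ex r s) (zY β py ey r s) 0 7)) * ((β 129) + (zY β py ey r s)))) rfl ?_
  refine rco (v := (((zf β px py ex ey r s) * (hr2 β (zX β px ex r s) (zY β py ey r s) 64 6)) + (((β 136) * (hr2 β (zX β px ex r s) (zY β py ey r s) 0 7)) * ((β 129) + (zY β py ey r s))))) rfl ?_
  refine rco (v := (((((lam : ℝ) / 2 ^ 6) * (zD2 β px py ex ey r s)) * ((β 129) + (zY β py ey r s))) - (((zf β px py ex ey r s) * (hr2 β (zX β px ex r s) (zY β py ey r s) 64 6)) + (((β 136) * (hr2 β (zX β px ex r s) (zY β py ey r s) 0 7)) * ((β 129) + (zY β py ey r s)))))) rfl ?_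
  refine rco (v := ((K0 : ℝ) / 2 ^ 14)) rfl ?_
  refine rco (v := ((K1 : ℝ) / 2 ^ 14)) rfl ?_
  refine rco (v := (((K1 : ℝ) / 2 ^ 14) * r)) rfl ?_
  refine rco (v := (((K0 : ℝ) / 2 ^ 14) + (((K1 : ℝ) / 2 ^ 14) * r))) rfl ?_
  refine rco (v := (4 : ℝ)) (by norm_num [step, realAlg]) ?_
  refine rco (v := (((lam : ℝ) / 2 ^ 6) * (4 : ℝ))) rfl ?_
  refine rco (v := ((zf β px py ex ey r s) * ((zD2 β px py ex ey r s) * (zD2 β px py ex ey r s)))) rfl ?_
  refine rco (v := ((((lam : ℝ) / 2 ^ 6) * (4 : ℝ)) * ((zf β px py ex ey r s) * ((zD2 β px py ex ey r s) * (zD2 β px py ex ey r s))))) rfl ?_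
  refine rco (v := ((((K0 : ℝ) / 2 ^ 14) + (((K1 : ℝ) / 2 ^ 14) * r)) * ((zf β px py ex ey r s) * (zf β px py ex ey r s)))) rfl ?_
  refine rco (v := (β 137)) rfl ?_
  refine rco (v := ((hr2 β (zX β px ex r s) (zY β py ey r s) 92 4) - (1 / 65536 : ℝ))) rfl ?_
  refine rco (v := ((β 137) * ((hr2 β (zX β px ex r s) (zY β py ey r s) 92 4) - (1 / 65536 : ℝ)))) rfl ?_
  refine rco (v := (((((K0 : ℝ) / 2 ^ 14) + (((K1 : ℝ) / 2 ^ 14) * r)) * ((zf β px py ex ey r s) * (zf β px py ex ey r s))) + ((β 137) * ((hr2 β (zX β px ex r s) (zY β py ey r s) 92 4) - (1 / 65536 : ℝ))))) rfl ?_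
  refine rco (v := (((((lam : ℝ) / 2 ^ 6) * (4 : ℝ)) * ((zf β px py ex ey r s) * ((zD2 β px py ex ey r s) * (zD2 β px py ex ey r s)))) * (((((K0 : ℝ) / 2 ^ 14) + (((K1 : ℝ) / 2 ^ 14) * r)) * ((zf β px py ex ey r s) * (zf β px py ex ey r s))) + ((β 137) * ((hr2 β (zX β px ex r s) (zY β py ey r s) 92 4) - (1 / 65536 : ℝ)))))) rfl ?_
  refine rco (v := ((Ph : ℝ) / 2 ^ 10)) rfl ?_
  refine rco (v := ((((((lam : ℝ) / 2 ^ 6) * (zD2 β px py ex ey r s)) * ((β 128) + (zX β px ex r s))) - (((zf β px py ex ey r s) * (hr2 β (zX β px ex r s) (zY β py ey r s) 36 6)) + (((β 136) * (hr2 β (zX β px ex r s) (zY β py ey r s) 0 7)) * ((β 128) + (zX β px ex r s))))) * (((((lam : ℝ) / 2 ^ 6) * (zD2 β px py ex ey r s)) * ((β 128) + (zX β px ex r s))) - (((zf β px py ex ey r s) * (hr2 β (zX β px ex r s) (zY β py ey r s) 36 6)) + (((β 136) * (hr2 β (zX β px ex r s) (zY β py ey r s) 0 7)) * ((β 128) + (zX β px ex r s))))))) rfl ?_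
  refine rco (v := ((((((lam : ℝ) / 2 ^ 6) * (zD2 β px py ex ey r s)) * ((β 129) + (zY β py ey r s))) - (((zf β px py ex ey r s) * (hr2 β (zX β px ex r s) (zY β py ey r s) 64 6)) + (((β 136) * (hr2 β (zX β px ex r s) (zY β py ey r s) 0 7)) * ((β 129) + (zY β py ey r s))))) * (((((lam : ℝ) / 2 ^ 6) * (zD2 β px py ex ey r s)) * ((β 129) + (zY β py ey r s))) - (((zf β px py ex ey r s) * (hr2 β (zX β px ex r s) (zY β py ey r s) 64 6)) + (((β 136) * (hr2 β (zX β px ex r s) (zY β py ey r s) 0 7)) * ((β 129) + (zY β py ey r s))))))) rfl ?_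
  refine rco (v := (((((((lam : ℝ) / 2 ^ 6) * (zD2 β px py ex ey r s)) * ((β 128) + (zX β px ex r s))) - (((zf β px py ex ey r s) * (hr2 β (zX β px ex r s) (zY β py ey r s) 36 6)) + (((β 136) * (hr2 β (zX β px ex r s) (zY β py ey r s) 0 7)) * ((β 128) + (zX β px ex r s))))) * (((((lam : ℝ) / 2 ^ 6) * (zD2 β px py ex ey r s)) * ((β 128) + (zX β px ex r s))) - (((zf β px py ex ey r s) * (hr2 β (zX β px ex r s) (zY β py ey r s) 36 6)) + (((β 136) * (hr2 β (zX β px ex r s) (zY β py ey r s) 0 7)) * ((β 128) + (zX β px ex r s)))))) + ((((((lam : ℝ) / 2 ^ 6) * (zD2 β px py ex ey r s)) * ((β 129) + (zY β py ey r s))) - (((zf β px py ex ey r s) * (hr2 β (zX β px ex r s) (zY β py ey r s) 64 6)) + (((β 136) * (hr2 β (zX β px ex r s) (zY β py ey r s) 0 7)) * ((β 129) + (zY β py ey r s))))) * (((((lam : ℝ) / 2 ^ 6) * (zD2 β px py ex ey r s)) * ((β 129) + (zY β py ey r s))) - (((zf β px py ex ey r s) * (hr2 β (zX β px ex r s) (zY β py ey r s) 64 6)) + (((β 136) *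 (hr2 β (zX β px ex r s) (zY β py ey r s) 0 7)) * ((β 129) + (zY β py ey r s)))))))) rfl ?_
  refine rco (v := ((((((((lam : ℝ) / 2 ^ 6) * (zD2 β px py ex ey r s)) * ((β 128) + (zX β px ex r s))) - (((zf β px py ex ey r s) * (hr2 β (zX β px ex r s) (zY β py ey r s) 36 6)) + (((β 136) * (hr2 β (zX β px ex r s) (zY β py ey r s) 0 7)) * ((β 128) + (zX β px ex r s))))) * (((((lam : ℝ) / 2 ^ 6) * (zD2 β px py ex ey r s)) * ((β 128) + (zX β px ex r s))) - (((zf β px py ex ey r s) * (hr2 β (zX β px ex r s) (zY β py ey r s) 36 6)) + (((β 136) * (hr2 β (zX β px ex r s) (zY β py ey r s) 0 7)) * ((β 128) + (zX β px ex r s)))))) + ((((((lam : ℝ) / 2 ^ 6) * (zD2 β px py ex ey r s)) * ((β 129) + (zY β py ey r s))) - (((zf β px py ex ey r s) * (hr2 β (zX β px ex r s) (zY β py ey r s) 64 6)) + (((β 136) * (hr2 β (zX β px ex r s) (zY β py ey r s) 0 7)) * ((β 129) + (zY β py ey r s))))) * (((((lam : ℝ) / 2 ^ 6) * (zD2 β px py ex ey r s)) * ((β 129) + (zY β py ey r s)))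 - (((zf β px py ex ey r s) * (hr2 β (zX β px ex r s) (zY β py ey r s) 64 6)) + (((β 136) * (hr2 β (zX β px ex r s) (zY β py ey r s) 0 7)) * ((β 129) + (zY β py ey r s))))))) * (257 / 256 : ℝ))) rfl ?_
  refine rco (v := (257 / 16777216 : ℝ)) (by norm_num [step, realAlg]) ?_
  refine rco (v := (((((((((lam : ℝ) / 2 ^ 6) * (zD2 β px py ex ey r s)) * ((β 128) + (zX β px ex r s))) - (((zf β px py ex ey r s) * (hr2 β (zX β px ex r s) (zY β py ey r s) 36 6)) + (((β 136) * (hr2 β (zX β px ex r s) (zY β py ey r s) 0 7)) * ((β 128) + (zX β px ex r s))))) * (((((lam : ℝ) / 2 ^ 6) * (zD2 β px py ex ey r s)) * ((β 128) + (zX β px ex r s))) - (((zf β px py ex ey r s) * (hr2 β (zX β px ex r s) (zY β py ey r s) 36 6)) + (((β 136) * (hr2 β (zX β px ex r s) (zY β py ey r s) 0 7)) * ((β 128) + (zX β px ex r s)))))) + ((((((lam : ℝ) / 2 ^ 6) * (zD2 β px py ex ey r s)) * ((β 129) + (zY β py ey r s))) - (((zf β px py ex ey r s) * (hr2 β (zX β px ex r s) (zY β py ey r s)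 64 6)) + (((β 136) * (hr2 β (zX β px ex r s) (zY β py ey r s) 0 7)) * ((β 129) + (zY β py ey r s))))) * (((((lam : ℝ) / 2 ^ 6) * (zD2 β px py ex ey r s)) * ((β 129) + (zY β py ey r s))) - (((zf β px py ex ey r s) * (hr2 β (zX β px ex r s) (zY β py ey r s) 64 6)) + (((β 136) * (hr2 β (zX β px ex r s) (zY β py ey r s) 0 7)) * ((β 129) + (zY β py ey r s))))))) * (257 / 256 : ℝ)) + (257 / 16777216 : ℝ))) rfl ?_
  refine rco (v := (((Ph : ℝ) / 2 ^ 10) * (((((((((lam : ℝ) / 2 ^ 6) * (zD2 β px py ex ey r s)) * ((β 128) + (zX β px ex r s))) - (((zf β px py ex ey r s) * (hr2 β (zX β px ex r s) (zY β py ey r s) 36 6)) + (((β 136) * (hr2 β (zX β px ex r s) (zY β py ey r s) 0 7)) * ((β 128) + (zX β px ex r s))))) * (((((lam : ℝ) / 2 ^ 6) * (zD2 β px py ex ey r s)) * ((β 128) + (zX β px ex r s))) - (((zf β px py ex ey r s) * (hr2 β (zX β px ex r s) (zY β py ey r s) 36 6)) + (((β 136) * (hr2 β (zX β px ex r s) (zY β py ey r s) 0 7)) * ((β 128) + (zX β px ex r s))))))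 + ((((((lam : ℝ) / 2 ^ 6) * (zD2 β px py ex ey r s)) * ((β 129) + (zY β py ey r s))) - (((zf β px py ex ey r s) * (hr2 β (zX β px ex r s) (zY β py ey r s) 64 6)) + (((β 136) * (hr2 β (zX β px ex r s) (zY β py ey r s) 0 7)) * ((β 129) + (zY β py ey r s))))) * (((((lam : ℝ) / 2 ^ 6) * (zD2 β px py ex ey r s)) * ((β 129) + (zY β py ey r s))) - (((zf β px py ex ey r s) * (hr2 β (zX β px ex r s) (zY β py ey r s) 64 6)) + (((β 136) * (hr2 β (zX β px ex r s) (zY β py ey r s) 0 7)) * ((β 129) + (zY β py ey r s))))))) * (257 / 256 : ℝ)) + (257 / 16777216 : ℝ)))) rfl ?_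
  refine rco (v := ((((((lam : ℝ) / 2 ^ 6) * (4 : ℝ)) * ((zf β px py ex ey r s) * ((zD2 β px py ex ey r s) * (zD2 β px py ex ey r s)))) * (((((K0 : ℝ) / 2 ^ 14) + (((K1 : ℝ) / 2 ^ 14) * r)) * ((zf β px py ex ey r s) * (zf β px py ex ey r s))) + ((β 137) * ((hr2 β (zX β px ex r s) (zY β py ey r s) 92 4) - (1 / 65536 : ℝ))))) - (((Ph : ℝ) / 2 ^ 10) * (((((((((lam : ℝ) / 2 ^ 6) * (zD2 β px py ex ey r s)) * ((β 128) + (zX β px ex r s))) - (((zf β px py ex ey r s) * (hr2 β (zX β px ex r s) (zY β py ey r s) 36 6)) + (((β 136) * (hr2 β (zX β px ex r s) (zY β py ey r s) 0 7)) * ((β 128) + (zX β px ex r s))))) * (((((lam : ℝ) / 2 ^ 6) * (zD2 β px py ex ey r s)) * ((β 128) + (zX β px ex r s))) - (((zf β px py ex ey r s) * (hr2 β (zX β px ex r s) (zY β py ey r s) 36 6)) + (((β 136) * (hr2 β (zX β px ex r s) (zY β py ey r s) 0 7)) * ((β 128) + (zX β px ex r s)))))) + ((((((lam : ℝ) / 2 ^ 6) * (zD2 β px py ex ey r s)) * ((β 129) + (zY β py ey r s))) - (((zf β px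 py ex ey r s) * (hr2 β (zX β px ex r s) (zY β py ey r s) 64 6)) + (((β 136) * (hr2 β (zX β px ex r s) (zY β py ey r s) 0 7)) * ((β 129) + (zY β py ey r s))))) * (((((lam : ℝ) / 2 ^ 6) * (zD2 β px py ex ey r s)) * ((β 129) + (zY β py ey r s))) - (((zf β px py ex ey r s) * (hr2 β (zX β px ex r s) (zY β py ey r s) 64 6)) + (((β 136) * (hr2 β (zX β px ex r s) (zY β py ey r s) 0 7)) * ((β 129) + (zY β py ey r s))))))) * (257 / 256 : ℝ)) + (257 / 16777216 : ℝ))))) rfl ?_
  rfl

theorem qZB2_val (β : ℕ → ℝ) (r s : ℝ) (px py ex ey lam K0 K1 Ph Qb : Int) (k : ℕ) :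
    (qZB2 px py ex ey lam K0 K1 Ph Qb).val (realAlg β r s) k = get2 0
      [vZB2_Q β px py ex ey lam K0 K1 Ph Qb r s,
        vZB2_W β px py ex ey lam K0 K1 Ph Qb r s] k := by
  unfold Prg.val
  rw [(qZB2 px py ex ey lam K0 K1 Ph Qb).h]
  show get2 0 (outs (realAlg β r s) (pZB2 px py ex ey lam K0 K1 Ph Qb) [37, 0]) k = _
  rw [pZB2_val]

end Pool.H61.Rh
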