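import Pool.Agent.H47.K3.Defs
import Pool.Agent.H81.Lv.Zf

/-! # generated: zone program, main inequality, vertex 0 -/

set_option autoImplicit false
set_option maxRecDepth 100000
set_option linter.unusedVariables false

namespace Pool.H61.Rh

open Pool.H47.Kc Pool.H47.K3

/-- program -/
def pZF0 (px py ex ey R0 R1 : Int) : List Op :=
  [.x, .y, .cst px 21, .base 134, .sub 1 0, .cst ex 21, .mul 4 0, .add 2 0, .cst py 21, 
   .base 135, .sub 1 0, .cst ey 21, .mul 10 0, .add 2 0, .mul 13 6, .mul 14 1, .base 130, 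
   .base 131, .mul 0 3, .base 132, .mul 0 4, .add 2 0, .add 5 0, .cst 1 0, .base 128, 
   .add 0 10, .add 0 0, .sub 3 0, .add 5 5, .sub 0 5, .cst R0 12, .cst R1 12, .mul 0 31, 
   .add 2 0, .mul 26 26, .mul 21 21, .add 1 0, .base 20, .base 19, .base 18, .mul 25 1, 
   .add 1 0, .mul 26 4, .add 1 0, .base 17, .base 16, .mul 31 1, .add 1 0, .base 15, 
   .mul 34 1, .add 1 0, .mul 35 7, .add 1 0, .base 14, .base 13, .mul 40 1, .add 1 0, 
   .base 12, .mul 43 1, .add 1 0, .base 11, .mul 46 1, .add 1 0, .mul 47 10, .add 1 0, 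
   .base 10, .base 9, .mul 52 1, .add 1 0, .base 8, .mul 55 1, .add 1 0, .base 7, 
   .mul 58 1, .add 1 0, .base 6, .mul 61 1, .add 1 0, .mul 62 13, .add 1 0, .base 5, 
   .base 4, .mul 67 1, .add 1 0, .base 3, .mul 70 1, .add 1 0, .base 2, .mul 73 1, 
   .add 1 0, .base 1, .mul 76 1, .add 1 0, .base 0, .mul 79 1, .add 1 0, .mul 80 16, 
   .add 1 0, .mul 63 0, .mul 91 85, .base 26, .base 25, .mul 86 1, .add 1 0, .base 24, 
   .mul 89 1, .add 1 0, .base 23, .mul 92 1, .add 1 0, .base 22, .mul 95 1, .add 1 0, 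
   .base 21, .mul 98 1, .add 1 0, .mul 16 0, .add 18 0, .base 32, .base 31, .mul 104 1, 
   .add 1 0, .base 30, .mul 107 1, .add 1 0, .base 29, .mul 110 1, .add 1 0, .base 28, 
   .mul 113 1, .add 1 0, .base 27, .mul 116 1, .add 1 0, .mul 98 0, .add 17 0, .base 68, 
   .base 67, .base 66, .mul 124 1, .add 1 0, .mul 125 4, .add 1 0, .base 65, .base 64, 
   .mul 130 1, .add 1 0, .base 63, .mul 133 1, .add 1 0, .mul 134 7, .add 1 0, .base 62, 
   .base 61, .mul 139 1, .add 1 0, .base 60, .mul 142 1, .add 1 0, .base 59, .mul 145 1, 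
   .add 1 0, .mul 146 10, .add 1 0, .base 58, .base 57, .mul 151 1, .add 1 0, .base 56, 
   .mul 154 1, .add 1 0, .base 55, .mul 157 1, .add 1 0, .base 54, .mul 160 1, .add 1 0, 
   .mul 161 13, .add 1 0, .base 53, .base 52, .mul 166 1, .add 1 0, .base 51, .mul 169 1, 
   .add 1 0, .base 50, .mul 172 1, .add 1 0, .base 49, .mul 175 1, .add 1 0, .base 48, 
   .mul 178 1, .add 1 0, .mul 179 16, .add 1 0, .base 47, .base 46, .mul 184 1, .add 1 0, 
   .base 45, .mul 187 1, .add 1 0, .base 44, .mul 190 1, .add 1 0, .base 43, .mul 193 1, 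
   .add 1 0, .base 42, .mul 196 1, .add 1 0, .base 41, .mul 199 1, .add 1 0, .mul 200 19, 
   .add 1 0, .base 40, .base 39, .mul 205 1, .add 1 0, .base 38, .mul 208 1, .add 1 0, 
   .base 37, .mul 211 1, .add 1 0, .base 36, .mul 214 1, .add 1 0, .base 35, .mul 217 1, 
   .add 1 0, .base 34, .mul 220 1, .add 1 0, .base 33, .mul 223 1, .add 1 0, .mul 224 22, 
   .add 1 0, .mul 234 0, .base 76, .base 75, .mul 229 1, .add 1 0, .base 74, .mul 232 1, 
   .add 1 0, .base 73, .mul 235 1, .add 1 0, .base 72, .mul 238 1, .add 1 0, .base 71, 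
   .mul 241 1, .add 1 0, .base 70, .mul 244 1, .add 1 0, .base 69, .mul 247 1, .add 1 0, 
   .mul 251 0, .add 23 0, .base 112, .base 111, .base 110, .mul 255 1, .add 1 0, 
   .mul 256 4, .add 1 0, .base 109, .base 108, .mul 261 1, .add 1 0, .base 107, 
   .mul 264 1, .add 1 0, .mul 265 7, .add 1 0, .base 106, .base 105, .mul 270 1, 
   .add 1 0, .base 104, .mul 273 1, .add 1 0, .base 103, .mul 276 1, .add 1 0, 
   .mul 277 10, .add 1 0, .base 102, .base 101, .mul 282 1, .add 1 0, .base 100, 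
   .mul 285 1, .add 1 0, .base 99, .mul 288 1, .add 1 0, .base 98, .mul 291 1, .add 1 0, 
   .mul 292 13, .add 1 0, .base 97, .base 96, .mul 297 1, .add 1 0, .base 95, .mul 300 1, 
   .add 1 0, .base 94, .mul 303 1, .add 1 0, .base 93, .mul 306 1, .add 1 0, .base 92, 
   .mul 309 1, .add 1 0, .mul 310 16, .add 1 0, .base 91, .base 90, .mul 315 1, .add 1 0, 
   .base 89, .mul 318 1, .add 1 0, .base 88, .mul 321 1, .add 1 0, .base 87, .mul 324 1, 
   .add 1 0, .base 86, .mul 327 1, .add 1 0, .base 85, .mul 330 1, .add 1 0, .mul 331 19, 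
   .add 1 0, .base 84, .base 83, .mul 336 1, .add 1 0, .base 82, .mul 339 1, .add 1 0, 
   .base 81, .mul 342 1, .add 1 0, .base 80, .mul 345 1, .add 1 0, .base 79, .mul 348 1, 
   .add 1 0, .base 78, .mul 351 1, .add 1 0, .base 77, .mul 354 1, .add 1 0, .mul 355 22, 
   .add 1 0, .mul 365 0, .base 120, .base 119, .mul 360 1, .add 1 0, .base 118, 
   .mul 363 1, .add 1 0, .base 117, .mul 366 1, .add 1 0, .base 116, .mul 369 1, 
   .add 1 0, .base 115, .mul 372 1, .add 1 0, .base 114, .mul 375 1, .add 1 0, .base 113, 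
   .mul 378 1, .add 1 0, .mul 382 0, .add 23 0, .mul 368 368, .mul 365 0, .mul 0 372, 
   .cst 1 20, .cst 137 20, .mul 0 375, .add 2 0, .mul 368 0, .sub 270 0, .mul 6 0, 
   .mul 141 141, .mul 11 11, .add 1 0, .cst 1025 10, .mul 1 0, .sub 5 0, .cst 1 25, 
   .mul 0 378, .sub 2 0]

/-- value -/
noncomputable def vZF0_F (β : ℕ → ℝ) (px py ex ey R0 R1 : Int) (r s : ℝ) : ℝ :=
  ((((((((R0 : ℝ) / 2 ^ 12) + (((R1 : ℝ) / 2 ^ 12) * r)) * ((((zf β px py ex ey r s) + (zf β px py ex ey r s)) - (1 : ℝ)) * (((zf β px py ex ey r s) + (zf β px py ex ey r s)) - (1 : ℝ)))) * (zD0 β px ex r s)) * ((E0h β 0 (zX β px ex r s) (zY β py ey r s) (zXh β px ex s) (zYh β py ey s)) - ((zn β px py ex ey s) * ((1 / 1048576 : ℝ) + ((137 / 1048576 : ℝ) * (zD0 β px ex r s)))))) - ((((G0h β 33 (zX β px ex r s) (zY β py ey r s) (zXh β px ex s) (zYh β py ey s)) * (G0h β 33 (zX β px ex r s) (zY β py ey r s) (zXh β px ex s) (zYh β py ey s))) + ((G0h β 77 (zX β px ex r s) (zY β py ey r s) (zXh β px ex s) (zYh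 β py ey s)) * (G0h β 77 (zX β px ex r s) (zY β py ey r s) (zXh β px ex s) (zYh β py ey s)))) * (1025 / 1024 : ℝ))) - ((1 / 33554432 : ℝ) * (zn β px py ex ey s)))

def qZF0_b26 {α : Type} (px py ex ey R0 R1 : Int) (A : Alg α) (v413 v415 : α) : List α :=
  let v416 := A.sub v413 v415
  [v416]

def qZF0_b25 {α : Type} (px py ex ey R0 R1 : Int) (A : Alg α) (v27 v36 v135 v266 v397 v399 : α) : List α :=
  let v400 := A.mul v399 v27
  let v401 := A.cst (1) 20
  let v402 := A.cst (137) 20
  let v403 := A.mul v402 v27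
  let v404 := A.add v401 v403
  let v405 := A.mul v36 v404
  let v406 := A.sub v135 v405
  let v407 := A.mul v400 v406
  let v408 := A.mul v266 v266
  let v409 := A.mul v397 v397
  let v410 := A.add v408 v409
  let v411 := A.cst (1025) 10
  let v412 := A.mul v410 v411
  let v413 := A.sub v407 v412
  let v414 := A.cst (1) 25
  let v415 := A.mul v414 v36
  qZF0_b26 px py ex ey R0 R1 A v413 v415

def qZF0_b24 {α : Type} (px py ex ey R0 R1 : Int) (A : Alg α) (v13 v15 v27 v29 v33 v36 v135 v266 v373 v383 : α) : List α :=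
  let v384 := A.base 116
  let v385 := A.mul v15 v383
  let v386 := A.add v384 v385
  let v387 := A.base 115
  let v388 := A.mul v15 v386
  let v389 := A.add v387 v388
  let v390 := A.base 114
  let v391 := A.mul v15 v389
  let v392 := A.add v390 v391
  let v393 := A.base 113
  let v394 := A.mul v15 v392
  let v395 := A.add v393 v394
  let v396 := A.mul v13 v395
  let v397 := A.add v373 v396
  let v398 := A.mul v29 v29
  let v399 := A.mul v33 v398
  qZF0_b25 px py ex ey R0 R1 A v27 v36 v135 v266 v397 v399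

def qZF0_b23 {α : Type} (px py ex ey R0 R1 : Int) (A : Alg α) (v7 v13 v14 v15 v27 v29 v33 v36 v135 v266 v348 v367 : α) : List α :=
  let v368 := A.base 77
  let v369 := A.mul v14 v367
  let v370 := A.add v368 v369
  let v371 := A.mul v15 v348
  let v372 := A.add v370 v371
  let v373 := A.mul v7 v372
  let v374 := A.base 120
  let v375 := A.base 119
  let v376 := A.mul v15 v374
  let v377 := A.add v375 v376
  let v378 := A.base 118
  let v379 := A.mul v15 v377
  let v380 := A.add v378 v379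
  let v381 := A.base 117
  let v382 := A.mul v15 v380
  let v383 := A.add v381 v382
  qZF0_b24 px py ex ey R0 R1 A v13 v15 v27 v29 v33 v36 v135 v266 v373 v383

def qZF0_b22 {α : Type} (px py ex ey R0 R1 : Int) (A : Alg α) (v7 v13 v14 v15 v27 v29 v33 v36 v135 v266 v348 v350 v351 : α) : List α :=
  let v352 := A.add v350 v351
  let v353 := A.base 82
  let v354 := A.mul v14 v352
  let v355 := A.add v353 v354
  let v356 := A.base 81
  let v357 := A.mul v14 v355
  let v358 := A.add v356 v357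
  let v359 := A.base 80
  let v360 := A.mul v14 v358
  let v361 := A.add v359 v360
  let v362 := A.base 79
  let v363 := A.mul v14 v361
  let v364 := A.add v362 v363
  let v365 := A.base 78
  let v366 := A.mul v14 v364
  let v367 := A.add v365 v366
  qZF0_b23 px py ex ey R0 R1 A v7 v13 v14 v15 v27 v29 v33 v36 v135 v266 v348 v367

def qZF0_b21 {α : Type} (px py ex ey R0 R1 : Int) (A : Alg α) (v7 v13 v14 v15 v27 v29 v33 v36 v135 v266 v327 v334 v335 : α) : List α :=
  let v336 := A.mul v14 v334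
  let v337 := A.add v335 v336
  let v338 := A.base 87
  let v339 := A.mul v14 v337
  let v340 := A.add v338 v339
  let v341 := A.base 86
  let v342 := A.mul v14 v340
  let v343 := A.add v341 v342
  let v344 := A.base 85
  let v345 := A.mul v14 v343
  let v346 := A.add v344 v345
  let v347 := A.mul v15 v327
  let v348 := A.add v346 v347
  let v349 := A.base 84
  let v350 := A.base 83
  let v351 := A.mul v14 v349
  qZF0_b22 px py ex ey R0 R1 A v7 v13 v14 v15 v27 v29 v33 v36 v135 v266 v348 v350 v351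

def qZF0_b20 {α : Type} (px py ex ey R0 R1 : Int) (A : Alg α) (v7 v13 v14 v15 v27 v29 v33 v36 v135 v266 v309 v319 : α) : List α :=
  let v320 := A.base 93
  let v321 := A.mul v14 v319
  let v322 := A.add v320 v321
  let v323 := A.base 92
  let v324 := A.mul v14 v322
  let v325 := A.add v323 v324
  let v326 := A.mul v15 v309
  let v327 := A.add v325 v326
  let v328 := A.base 91
  let v329 := A.base 90
  let v330 := A.mul v14 v328
  let v331 := A.add v329 v330
  let v332 := A.base 89
  let v333 := A.mul v14 v331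
  let v334 := A.add v332 v333
  let v335 := A.base 88
  qZF0_b21 px py ex ey R0 R1 A v7 v13 v14 v15 v27 v29 v33 v36 v135 v266 v327 v334 v335

def qZF0_b19 {α : Type} (px py ex ey R0 R1 : Int) (A : Alg α) (v7 v13 v14 v15 v27 v29 v33 v36 v135 v266 v294 v302 v303 : α) : List α :=
  let v304 := A.add v302 v303
  let v305 := A.base 98
  let v306 := A.mul v14 v304
  let v307 := A.add v305 v306
  let v308 := A.mul v15 v294
  let v309 := A.add v307 v308
  let v310 := A.base 97
  let v311 := A.base 96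
  let v312 := A.mul v14 v310
  let v313 := A.add v311 v312
  let v314 := A.base 95
  let v315 := A.mul v14 v313
  let v316 := A.add v314 v315
  let v317 := A.base 94
  let v318 := A.mul v14 v316
  let v319 := A.add v317 v318
  qZF0_b20 px py ex ey R0 R1 A v7 v13 v14 v15 v27 v29 v33 v36 v135 v266 v309 v319

def qZF0_b18 {α : Type} (px py ex ey R0 R1 : Int) (A : Alg α) (v7 v13 v14 v15 v27 v29 v33 v36 v135 v266 v282 v286 v287 : α) : List α :=
  let v288 := A.mul v14 v286
  let v289 := A.add v287 v288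
  let v290 := A.base 103
  let v291 := A.mul v14 v289
  let v292 := A.add v290 v291
  let v293 := A.mul v15 v282
  let v294 := A.add v292 v293
  let v295 := A.base 102
  let v296 := A.base 101
  let v297 := A.mul v14 v295
  let v298 := A.add v296 v297
  let v299 := A.base 100
  let v300 := A.mul v14 v298
  let v301 := A.add v299 v300
  let v302 := A.base 99
  let v303 := A.mul v14 v301
  qZF0_b19 px py ex ey R0 R1 A v7 v13 v14 v15 v27 v29 v33 v36 v135 v266 v294 v302 v303

def qZF0_b17 {α : Type} (px py ex ey R0 R1 : Int) (A : Alg α) (v7 v13 v14 v15 v27 v29 v33 v36 v135 v266 v267 v271 : α) : List α :=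
  let v272 := A.mul v15 v267
  let v273 := A.add v271 v272
  let v274 := A.base 109
  let v275 := A.base 108
  let v276 := A.mul v14 v274
  let v277 := A.add v275 v276
  let v278 := A.base 107
  let v279 := A.mul v14 v277
  let v280 := A.add v278 v279
  let v281 := A.mul v15 v273
  let v282 := A.add v280 v281
  let v283 := A.base 106
  let v284 := A.base 105
  let v285 := A.mul v14 v283
  let v286 := A.add v284 v285
  let v287 := A.base 104
  qZF0_b18 px py ex ey R0 R1 A v7 v13 v14 v15 v27 v29 v33 v36 v135 v266 v282 v286 v287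

def qZF0_b16 {α : Type} (px py ex ey R0 R1 : Int) (A : Alg α) (v7 v13 v14 v15 v27 v29 v33 v36 v135 v242 v255 : α) : List α :=
  let v256 := A.base 71
  let v257 := A.mul v15 v255
  let v258 := A.add v256 v257
  let v259 := A.base 70
  let v260 := A.mul v15 v258
  let v261 := A.add v259 v260
  let v262 := A.base 69
  let v263 := A.mul v15 v261
  let v264 := A.add v262 v263
  let v265 := A.mul v13 v264
  let v266 := A.add v242 v265
  let v267 := A.base 112
  let v268 := A.base 111
  let v269 := A.base 110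
  let v270 := A.mul v14 v268
  let v271 := A.add v269 v270
  qZF0_b17 px py ex ey R0 R1 A v7 v13 v14 v15 v27 v29 v33 v36 v135 v266 v267 v271

def qZF0_b15 {α : Type} (px py ex ey R0 R1 : Int) (A : Alg α) (v7 v13 v14 v15 v27 v29 v33 v36 v135 v217 v239 : α) : List α :=
  let v240 := A.mul v15 v217
  let v241 := A.add v239 v240
  let v242 := A.mul v7 v241
  let v243 := A.base 76
  let v244 := A.base 75
  let v245 := A.mul v15 v243
  let v246 := A.add v244 v245
  let v247 := A.base 74
  let v248 := A.mul v15 v246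
  let v249 := A.add v247 v248
  let v250 := A.base 73
  let v251 := A.mul v15 v249
  let v252 := A.add v250 v251
  let v253 := A.base 72
  let v254 := A.mul v15 v252
  let v255 := A.add v253 v254
  qZF0_b16 px py ex ey R0 R1 A v7 v13 v14 v15 v27 v29 v33 v36 v135 v242 v255

def qZF0_b14 {α : Type} (px py ex ey R0 R1 : Int) (A : Alg α) (v7 v13 v14 v15 v27 v29 v33 v36 v135 v217 v222 v223 : α) : List α :=
  let v224 := A.add v222 v223
  let v225 := A.base 37
  let v226 := A.mul v14 v224
  let v227 := A.add v225 v226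
  let v228 := A.base 36
  let v229 := A.mul v14 v227
  let v230 := A.add v228 v229
  let v231 := A.base 35
  let v232 := A.mul v14 v230
  let v233 := A.add v231 v232
  let v234 := A.base 34
  let v235 := A.mul v14 v233
  let v236 := A.add v234 v235
  let v237 := A.base 33
  let v238 := A.mul v14 v236
  let v239 := A.add v237 v238
  qZF0_b15 px py ex ey R0 R1 A v7 v13 v14 v15 v27 v29 v33 v36 v135 v217 v239

def qZF0_b13 {α : Type} (px py ex ey R0 R1 : Int) (A : Alg α) (v7 v13 v14 v15 v27 v29 v33 v36 v135 v196 v206 v207 : α) : List α :=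
  let v208 := A.mul v14 v206
  let v209 := A.add v207 v208
  let v210 := A.base 42
  let v211 := A.mul v14 v209
  let v212 := A.add v210 v211
  let v213 := A.base 41
  let v214 := A.mul v14 v212
  let v215 := A.add v213 v214
  let v216 := A.mul v15 v196
  let v217 := A.add v215 v216
  let v218 := A.base 40
  let v219 := A.base 39
  let v220 := A.mul v14 v218
  let v221 := A.add v219 v220
  let v222 := A.base 38
  let v223 := A.mul v14 v221
  qZF0_b14 px py ex ey R0 R1 A v7 v13 v14 v15 v27 v29 v33 v36 v135 v217 v222 v223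

def qZF0_b12 {α : Type} (px py ex ey R0 R1 : Int) (A : Alg α) (v7 v13 v14 v15 v27 v29 v33 v36 v135 v178 v191 : α) : List α :=
  let v192 := A.base 48
  let v193 := A.mul v14 v191
  let v194 := A.add v192 v193
  let v195 := A.mul v15 v178
  let v196 := A.add v194 v195
  let v197 := A.base 47
  let v198 := A.base 46
  let v199 := A.mul v14 v197
  let v200 := A.add v198 v199
  let v201 := A.base 45
  let v202 := A.mul v14 v200
  let v203 := A.add v201 v202
  let v204 := A.base 44
  let v205 := A.mul v14 v203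
  let v206 := A.add v204 v205
  let v207 := A.base 43
  qZF0_b13 px py ex ey R0 R1 A v7 v13 v14 v15 v27 v29 v33 v36 v135 v196 v206 v207

def qZF0_b11 {α : Type} (px py ex ey R0 R1 : Int) (A : Alg α) (v7 v13 v14 v15 v27 v29 v33 v36 v135 v163 v174 v175 : α) : List α :=
  let v176 := A.add v174 v175
  let v177 := A.mul v15 v163
  let v178 := A.add v176 v177
  let v179 := A.base 53
  let v180 := A.base 52
  let v181 := A.mul v14 v179
  let v182 := A.add v180 v181
  let v183 := A.base 51
  let v184 := A.mul v14 v182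
  let v185 := A.add v183 v184
  let v186 := A.base 50
  let v187 := A.mul v14 v185
  let v188 := A.add v186 v187
  let v189 := A.base 49
  let v190 := A.mul v14 v188
  let v191 := A.add v189 v190
  qZF0_b12 px py ex ey R0 R1 A v7 v13 v14 v15 v27 v29 v33 v36 v135 v178 v191

def qZF0_b10 {α : Type} (px py ex ey R0 R1 : Int) (A : Alg α) (v7 v13 v14 v15 v27 v29 v33 v36 v135 v151 v158 v159 : α) : List α :=
  let v160 := A.mul v14 v158
  let v161 := A.add v159 v160
  let v162 := A.mul v15 v151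
  let v163 := A.add v161 v162
  let v164 := A.base 58
  let v165 := A.base 57
  let v166 := A.mul v14 v164
  let v167 := A.add v165 v166
  let v168 := A.base 56
  let v169 := A.mul v14 v167
  let v170 := A.add v168 v169
  let v171 := A.base 55
  let v172 := A.mul v14 v170
  let v173 := A.add v171 v172
  let v174 := A.base 54
  let v175 := A.mul v14 v173
  qZF0_b11 px py ex ey R0 R1 A v7 v13 v14 v15 v27 v29 v33 v36 v135 v163 v174 v175

def qZF0_b9 {α : Type} (px py ex ey R0 R1 : Int) (A : Alg α) (v7 v13 v14 v15 v27 v29 v33 v36 v135 v142 v143 : α) : List α :=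
  let v144 := A.base 64
  let v145 := A.mul v14 v143
  let v146 := A.add v144 v145
  let v147 := A.base 63
  let v148 := A.mul v14 v146
  let v149 := A.add v147 v148
  let v150 := A.mul v15 v142
  let v151 := A.add v149 v150
  let v152 := A.base 62
  let v153 := A.base 61
  let v154 := A.mul v14 v152
  let v155 := A.add v153 v154
  let v156 := A.base 60
  let v157 := A.mul v14 v155
  let v158 := A.add v156 v157
  let v159 := A.base 59
  qZF0_b10 px py ex ey R0 R1 A v7 v13 v14 v15 v27 v29 v33 v36 v135 v151 v158 v159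

def qZF0_b8 {α : Type} (px py ex ey R0 R1 : Int) (A : Alg α) (v7 v13 v14 v15 v27 v29 v33 v35 v36 v117 v127 : α) : List α :=
  let v128 := A.base 28
  let v129 := A.mul v15 v127
  let v130 := A.add v128 v129
  let v131 := A.base 27
  let v132 := A.mul v15 v130
  let v133 := A.add v131 v132
  let v134 := A.mul v35 v133
  let v135 := A.add v117 v134
  let v136 := A.base 68
  let v137 := A.base 67
  let v138 := A.base 66
  let v139 := A.mul v14 v137
  let v140 := A.add v138 v139
  let v141 := A.mul v15 v136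
  let v142 := A.add v140 v141
  let v143 := A.base 65
  qZF0_b9 px py ex ey R0 R1 A v7 v13 v14 v15 v27 v29 v33 v36 v135 v142 v143

def qZF0_b7 {α : Type} (px py ex ey R0 R1 : Int) (A : Alg α) (v7 v13 v14 v15 v27 v29 v33 v35 v36 v98 v99 v110 v111 : α) : List α :=
  let v112 := A.add v110 v111
  let v113 := A.base 21
  let v114 := A.mul v15 v112
  let v115 := A.add v113 v114
  let v116 := A.mul v99 v115
  let v117 := A.add v98 v116
  let v118 := A.base 32
  let v119 := A.base 31
  let v120 := A.mul v15 v118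
  let v121 := A.add v119 v120
  let v122 := A.base 30
  let v123 := A.mul v15 v121
  let v124 := A.add v122 v123
  let v125 := A.base 29
  let v126 := A.mul v15 v124
  let v127 := A.add v125 v126
  qZF0_b8 px py ex ey R0 R1 A v7 v13 v14 v15 v27 v29 v33 v35 v36 v117 v127

def qZF0_b6 {α : Type} (px py ex ey R0 R1 : Int) (A : Alg α) (v7 v13 v14 v15 v27 v29 v33 v34 v35 v36 v79 v95 : α) : List α :=
  let v96 := A.mul v15 v79
  let v97 := A.add v95 v96
  let v98 := A.mul v34 v97
  let v99 := A.mul v7 v13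
  let v100 := A.base 26
  let v101 := A.base 25
  let v102 := A.mul v15 v100
  let v103 := A.add v101 v102
  let v104 := A.base 24
  let v105 := A.mul v15 v103
  let v106 := A.add v104 v105
  let v107 := A.base 23
  let v108 := A.mul v15 v106
  let v109 := A.add v107 v108
  let v110 := A.base 22
  let v111 := A.mul v15 v109
  qZF0_b7 px py ex ey R0 R1 A v7 v13 v14 v15 v27 v29 v33 v35 v36 v98 v99 v110 v111

def qZF0_b5 {α : Type} (px py ex ey R0 R1 : Int) (A : Alg α) (v7 v13 v14 v15 v27 v29 v33 v34 v35 v36 v79 : α) : List α :=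
  let v80 := A.base 5
  let v81 := A.base 4
  let v82 := A.mul v14 v80
  let v83 := A.add v81 v82
  let v84 := A.base 3
  let v85 := A.mul v14 v83
  let v86 := A.add v84 v85
  let v87 := A.base 2
  let v88 := A.mul v14 v86
  let v89 := A.add v87 v88
  let v90 := A.base 1
  let v91 := A.mul v14 v89
  let v92 := A.add v90 v91
  let v93 := A.base 0
  let v94 := A.mul v14 v92
  let v95 := A.add v93 v94
  qZF0_b6 px py ex ey R0 R1 A v7 v13 v14 v15 v27 v29 v33 v34 v35 v36 v79 v95

def qZF0_b4 {α : Type} (px py ex ey R0 R1 : Int) (A : Alg α) (v7 v13 v14 v15 v27 v29 v33 v34 v35 v36 v62 v63 : α) : List α :=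
  let v64 := A.add v62 v63
  let v65 := A.base 10
  let v66 := A.base 9
  let v67 := A.mul v14 v65
  let v68 := A.add v66 v67
  let v69 := A.base 8
  let v70 := A.mul v14 v68
  let v71 := A.add v69 v70
  let v72 := A.base 7
  let v73 := A.mul v14 v71
  let v74 := A.add v72 v73
  let v75 := A.base 6
  let v76 := A.mul v14 v74
  let v77 := A.add v75 v76
  let v78 := A.mul v15 v64
  let v79 := A.add v77 v78
  qZF0_b5 px py ex ey R0 R1 A v7 v13 v14 v15 v27 v29 v33 v34 v35 v36 v79

def qZF0_b3 {α : Type} (px py ex ey R0 R1 : Int) (A : Alg α) (v7 v13 v14 v15 v27 v29 v33 v34 v35 v36 v43 v47 : α) : List α :=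
  let v48 := A.base 15
  let v49 := A.mul v14 v47
  let v50 := A.add v48 v49
  let v51 := A.mul v15 v43
  let v52 := A.add v50 v51
  let v53 := A.base 14
  let v54 := A.base 13
  let v55 := A.mul v14 v53
  let v56 := A.add v54 v55
  let v57 := A.base 12
  let v58 := A.mul v14 v56
  let v59 := A.add v57 v58
  let v60 := A.base 11
  let v61 := A.mul v14 v59
  let v62 := A.add v60 v61
  let v63 := A.mul v15 v52
  qZF0_b4 px py ex ey R0 R1 A v7 v13 v14 v15 v27 v29 v33 v34 v35 v36 v62 v63

def qZF0_b2 {α : Type} (px py ex ey R0 R1 : Int) (A : Alg α) (v0 v7 v13 v14 v15 v27 v29 v30 v31 : α) : List α :=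
  let v32 := A.mul v31 v0
  let v33 := A.add v30 v32
  let v34 := A.mul v7 v7
  let v35 := A.mul v13 v13
  let v36 := A.add v34 v35
  let v37 := A.base 20
  let v38 := A.base 19
  let v39 := A.base 18
  let v40 := A.mul v14 v38
  let v41 := A.add v39 v40
  let v42 := A.mul v15 v37
  let v43 := A.add v41 v42
  let v44 := A.base 17
  let v45 := A.base 16
  let v46 := A.mul v14 v44
  let v47 := A.add v45 v46
  qZF0_b3 px py ex ey R0 R1 A v7 v13 v14 v15 v27 v29 v33 v34 v35 v36 v43 v47

def qZF0_b1 {α : Type} (px py ex ey R0 R1 : Int) (A : Alg α) (v0 v7 v13 v14 v15 : α) : List α :=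
  let v16 := A.base 130
  let v17 := A.base 131
  let v18 := A.mul v17 v14
  let v19 := A.base 132
  let v20 := A.mul v19 v15
  let v21 := A.add v18 v20
  let v22 := A.add v16 v21
  let v23 := A.cst (1) 0
  let v24 := A.base 128
  let v25 := A.add v24 v14
  let v26 := A.add v25 v25
  let v27 := A.sub v23 v26
  let v28 := A.add v22 v22
  let v29 := A.sub v28 v23
  let v30 := A.cst R0 12
  let v31 := A.cst R1 12
  qZF0_b2 px py ex ey R0 R1 A v0 v7 v13 v14 v15 v27 v29 v30 v31

def qZF0_f {α : Type} (px py ex ey R0 R1 : Int) (A : Alg α) : List α :=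
  let v0 := A.x
  let v1 := A.y
  let v2 := A.cst px 21
  let v3 := A.base 134
  let v4 := A.sub v2 v3
  let v5 := A.cst ex 21
  let v6 := A.mul v1 v5
  let v7 := A.add v4 v6
  let v8 := A.cst py 21
  let v9 := A.base 135
  let v10 := A.sub v8 v9
  let v11 := A.cst ey 21
  let v12 := A.mul v1 v11
  let v13 := A.add v10 v12
  let v14 := A.mul v0 v7
  let v15 := A.mul v0 v13
  qZF0_b1 px py ex ey R0 R1 A v0 v7 v13 v14 v15

theorem qZF0_h {α : Type} (px py ex ey R0 R1 : Int) (A : Alg α) : qZF0_f px py ex ey R0 R1 A = outs A (pZF0 px py ex ey R0 R1) [0] := rfl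

def qZF0 (px py ex ey R0 R1 : Int) : Prg :=
  ⟨pZF0 px py ex ey R0 R1, [0], qZF0_f px py ex ey R0 R1, qZF0_h px py ex ey R0 R1⟩

set_option maxHeartbeats 4000000 in
theorem pZF0_val (β : ℕ → ℝ) (r s : ℝ) (px py ex ey R0 R1 : Int) :
    outs (realAlg β r s) (pZF0 px py ex ey R0 R1) [0] =
      [vZF0_F β px py ex ey R0 R1 r s] := by
  unfold outs pZF0
  refine rco (v := r) rfl ?_
  refine rco (v := s) rfl ?_
  refine rco (v := ((px : ℝ) / 2 ^ 21)) rfl ?_
  refine rco (v := (β 134)) rfl ?_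
  refine rco (v := (((px : ℝ) / 2 ^ 21) - (β 134))) rfl ?_
  refine rco (v := ((ex : ℝ) / 2 ^ 21)) rfl ?_
  refine rco (v := (s * ((ex : ℝ) / 2 ^ 21))) rfl ?_
  refine rco (v := (zXh β px ex s)) rfl ?_
  refine rco (v := ((py : ℝ) / 2 ^ 21)) rfl ?_
  refine rco (v := (β 135)) rfl ?_
  refine rco (v := (((py : ℝ) / 2 ^ 21) - (β 135))) rfl ?_
  refine rco (v := ((ey : ℝ) / 2 ^ 21)) rfl ?_
  refine rco (v := (s * ((ey : ℝ) / 2 ^ 21))) rfl ?_
  refine rco (v := (zYh β py ey s)) rfl ?_
  refine rco (v := (zX β px ex r s)) rfl ?_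
  refine rco (v := (zY β py ey r s)) rfl ?_
  refine rco (v := (β 130)) rfl ?_
  refine rco (v := (β 131)) rfl ?_
  refine rco (v := ((β 131) * (zX β px ex r s))) rfl ?_
  refine rco (v := (β 132)) rfl ?_
  refine rco (v := ((β 132) * (zY β py ey r s))) rfl ?_
  refine rco (v := (((β 131) * (zX β px ex r s)) + ((β 132) * (zY β py ey r s)))) rfl ?_
  refine rco (v := (zf β px py ex ey r s)) rfl ?_
  refine rco (v := (1 : ℝ)) (by norm_num [step, realAlg]) ?_
  refine rco (v := (β 128)) rfl ?_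
  refine rco (v := ((β 128) + (zX β px ex r s))) rfl ?_
  refine rco (v := (((β 128) + (zX β px ex r s)) + ((β 128) + (zX β px ex r s)))) rfl ?_
  refine rco (v := (zD0 β px ex r s)) rfl ?_
  refine rco (v := ((zf β px py ex ey r s) + (zf β px py ex ey r s))) rfl ?_
  refine rco (v := (((zf β px py ex ey r s) + (zf β px py ex ey r s)) - (1 : ℝ))) rfl ?_
  refine rco (v := ((R0 : ℝ) / 2 ^ 12)) rfl ?_
  refine rco (v := ((R1 : ℝ) / 2 ^ 12)) rfl ?_
  refine rco (v := (((R1 : ℝ) / 2 ^ 12) * r)) rfl ?_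
  refine rco (v := (((R0 : ℝ) / 2 ^ 12) + (((R1 : ℝ) / 2 ^ 12) * r))) rfl ?_
  refine rco (v := ((zXh β px ex s) * (zXh β px ex s))) rfl ?_
  refine rco (v := ((zYh β py ey s) * (zYh β py ey s))) rfl ?_
  refine rco (v := (zn β px py ex ey s)) rfl ?_
  refine rco (v := (β 20)) rfl ?_
  refine rco (v := (β 19)) rfl ?_
  refine rco (v := (β 18)) rfl ?_
  refine rco (v := ((zX β px ex r s) * (β 19))) rfl ?_
  refine rco (v := (hr β (zX β px ex r s) 18 2)) rfl ?_
  refine rco (v := ((zY β py ey r s) * (β 20))) rfl ?_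
  refine rco (v := (hr2 β (zX β px ex r s) (zY β py ey r s) 18 1)) rfl ?_
  refine rco (v := (β 17)) rfl ?_
  refine rco (v := (β 16)) rfl ?_
  refine rco (v := ((zX β px ex r s) * (β 17))) rfl ?_
  refine rco (v := (hr β (zX β px ex r s) 16 2)) rfl ?_
  refine rco (v := (β 15)) rfl ?_
  refine rco (v := ((zX β px ex r s) * (hr β (zX β px ex r s) 16 2))) rfl ?_
  refine rco (v := (hr β (zX β px ex r s) 15 3)) rfl ?_
  refine rco (v := ((zY β py ey r s) * (hr2 β (zX β px ex r s) (zY β py ey r s) 18 1))) rfl ?_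
  refine rco (v := (hr2 β (zX β px ex r s) (zY β py ey r s) 15 2)) rfl ?_
  refine rco (v := (β 14)) rfl ?_
  refine rco (v := (β 13)) rfl ?_
  refine rco (v := ((zX β px ex r s) * (β 14))) rfl ?_
  refine rco (v := (hr β (zX β px ex r s) 13 2)) rfl ?_
  refine rco (v := (β 12)) rfl ?_
  refine rco (v := ((zX β px ex r s) * (hr β (zX β px ex r s) 13 2))) rfl ?_
  refine rco (v := (hr β (zX β px ex r s) 12 3)) rfl ?_
  refine rco (v := (β 11)) rfl ?_
  refine rco (v := ((zX β px ex r s) * (hr β (zX β px ex r s) 12 3))) rfl ?_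
  refine rco (v := (hr β (zX β px ex r s) 11 4)) rfl ?_
  refine rco (v := ((zY β py ey r s) * (hr2 β (zX β px ex r s) (zY β py ey r s) 15 2))) rfl ?_
  refine rco (v := (hr2 β (zX β px ex r s) (zY β py ey r s) 11 3)) rfl ?_
  refine rco (v := (β 10)) rfl ?_
  refine rco (v := (β 9)) rfl ?_
  refine rco (v := ((zX β px ex r s) * (β 10))) rfl ?_
  refine rco (v := (hr β (zX β px ex r s) 9 2)) rfl ?_
  refine rco (v := (β 8)) rfl ?_
  refine rco (v := ((zX β px ex r s) * (hr β (zX β px ex r s) 9 2))) rfl ?_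
  refine rco (v := (hr β (zX β px ex r s) 8 3)) rfl ?_
  refine rco (v := (β 7)) rfl ?_
  refine rco (v := ((zX β px ex r s) * (hr β (zX β px ex r s) 8 3))) rfl ?_
  refine rco (v := (hr β (zX β px ex r s) 7 4)) rfl ?_
  refine rco (v := (β 6)) rfl ?_
  refine rco (v := ((zX β px ex r s) * (hr β (zX β px ex r s) 7 4))) rfl ?_
  refine rco (v := (hr β (zX β px ex r s) 6 5)) rfl ?_
  refine rco (v := ((zY β py ey r s) * (hr2 β (zX β px ex r s) (zY β py ey r s) 11 3))) rfl ?_
  refine rco (v := (hr2 β (zX β px ex r s) (zY β py ey r s) 6 4)) rfl ?_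
  refine rco (v := (β 5)) rfl ?_
  refine rco (v := (β 4)) rfl ?_
  refine rco (v := ((zX β px ex r s) * (β 5))) rfl ?_
  refine rco (v := (hr β (zX β px ex r s) 4 2)) rfl ?_
  refine rco (v := (β 3)) rfl ?_
  refine rco (v := ((zX β px ex r s) * (hr β (zX β px ex r s) 4 2))) rfl ?_
  refine rco (v := (hr β (zX β px ex r s) 3 3)) rfl ?_
  refine rco (v := (β 2)) rfl ?_
  refine rco (v := ((zX β px ex r s) * (hr β (zX β px ex r s) 3 3))) rfl ?_
  refine rco (v := (hr β (zX β px ex r s) 2 4)) rfl ?_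
  refine rco (v := (β 1)) rfl ?_
  refine rco (v := ((zX β px ex r s) * (hr β (zX β px ex r s) 2 4))) rfl ?_
  refine rco (v := (hr β (zX β px ex r s) 1 5)) rfl ?_
  refine rco (v := (β 0)) rfl ?_
  refine rco (v := ((zX β px ex r s) * (hr β (zX β px ex r s) 1 5))) rfl ?_
  refine rco (v := (hr β (zX β px ex r s) 0 6)) rfl ?_
  refine rco (v := ((zY β py ey r s) * (hr2 β (zX β px ex r s) (zY β py ey r s) 6 4))) rfl ?_
  refine rco (v := (hr2 β (zX β px ex r s) (zY β py ey r s) 0 5)) rfl ?_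
  refine rco (v := (((zXh β px ex s) * (zXh β px ex s)) * (hr2 β (zX β px ex r s) (zY β py ey r s) 0 5))) rfl ?_
  refine rco (v := ((zXh β px ex s) * (zYh β py ey s))) rfl ?_
  refine rco (v := (β 26)) rfl ?_
  refine rco (v := (β 25)) rfl ?_
  refine rco (v := ((zY β py ey r s) * (β 26))) rfl ?_
  refine rco (v := (hr β (zY β py ey r s) 25 2)) rfl ?_
  refine rco (v := (β 24)) rfl ?_
  refine rco (v := ((zY β py ey r s) * (hr β (zY β py ey r s) 25 2))) rfl ?_
  refine rco (v := (hr β (zY β py ey r s) 24 3)) rfl ?_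
  refine rco (v := (β 23)) rfl ?_
  refine rco (v := ((zY β py ey r s) * (hr β (zY β py ey r s) 24 3))) rfl ?_
  refine rco (v := (hr β (zY β py ey r s) 23 4)) rfl ?_
  refine rco (v := (β 22)) rfl ?_
  refine rco (v := ((zY β py ey r s) * (hr β (zY β py ey r s) 23 4))) rfl ?_
  refine rco (v := (hr β (zY β py ey r s) 22 5)) rfl ?_
  refine rco (v := (β 21)) rfl ?_
  refine rco (v := ((zY β py ey r s) * (hr β (zY β py ey r s) 22 5))) rfl ?_
  refine rco (v := (hr β (zY β py ey r s) 21 6)) rfl ?_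
  refine rco (v := (((zXh β px ex s) * (zYh β py ey s)) * (hr β (zY β py ey r s) 21 6))) rfl ?_
  refine rco (v := ((((zXh β px ex s) * (zXh β px ex s)) * (hr2 β (zX β px ex r s) (zY β py ey r s) 0 5)) + (((zXh β px ex s) * (zYh β py ey s)) * (hr β (zY β py ey r s) 21 6)))) rfl ?_
  refine rco (v := (β 32)) rfl ?_
  refine rco (v := (β 31)) rfl ?_
  refine rco (v := ((zY β py ey r s) * (β 32))) rfl ?_
  refine rco (v := (hr β (zY β py ey r s) 31 2)) rfl ?_
  refine rco (v := (β 30)) rfl ?_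
  refine rco (v := ((zY β py ey r s) * (hr β (zY β py ey r s) 31 2))) rfl ?_
  refine rco (v := (hr β (zY β py ey r s) 30 3)) rfl ?_
  refine rco (v := (β 29)) rfl ?_
  refine rco (v := ((zY β py ey r s) * (hr β (zY β py ey r s) 30 3))) rfl ?_
  refine rco (v := (hr β (zY β py ey r s) 29 4)) rfl ?_
  refine rco (v := (β 28)) rfl ?_
  refine rco (v := ((zY β py ey r s) * (hr β (zY β py ey r s) 29 4))) rfl ?_
  refine rco (v := (hr β (zY β py ey r s) 28 5)) rfl ?_
  refine rco (v := (β 27)) rfl ?_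
  refine rco (v := ((zY β py ey r s) * (hr β (zY β py ey r s) 28 5))) rfl ?_
  refine rco (v := (hr β (zY β py ey r s) 27 6)) rfl ?_
  refine rco (v := (((zYh β py ey s) * (zYh β py ey s)) * (hr β (zY β py ey r s) 27 6))) rfl ?_
  refine rco (v := (E0h β 0 (zX β px ex r s) (zY β py ey r s) (zXh β px ex s) (zYh β py ey s))) rfl ?_
  refine rco (v := (β 68)) rfl ?_
  refine rco (v := (β 67)) rfl ?_
  refine rco (v := (β 66)) rfl ?_
  refine rco (v := ((zX β px ex r s) * (β 67))) rfl ?_
  refine rco (v := (hr β (zX β px ex r s) 66 2)) rfl ?_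
  refine rco (v := ((zY β py ey r s) * (β 68))) rfl ?_
  refine rco (v := (hr2 β (zX β px ex r s) (zY β py ey r s) 66 1)) rfl ?_
  refine rco (v := (β 65)) rfl ?_
  refine rco (v := (β 64)) rfl ?_
  refine rco (v := ((zX β px ex r s) * (β 65))) rfl ?_
  refine rco (v := (hr β (zX β px ex r s) 64 2)) rfl ?_
  refine rco (v := (β 63)) rfl ?_
  refine rco (v := ((zX β px ex r s) * (hr β (zX β px ex r s) 64 2))) rfl ?_
  refine rco (v := (hr β (zX β px ex r s) 63 3)) rfl ?_
  refine rco (v := ((zY β py ey r s) * (hr2 β (zX β px ex r s) (zY β py ey r s) 66 1))) rfl ?_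
  refine rco (v := (hr2 β (zX β px ex r s) (zY β py ey r s) 63 2)) rfl ?_
  refine rco (v := (β 62)) rfl ?_
  refine rco (v := (β 61)) rfl ?_
  refine rco (v := ((zX β px ex r s) * (β 62))) rfl ?_
  refine rco (v := (hr β (zX β px ex r s) 61 2)) rfl ?_
  refine rco (v := (β 60)) rfl ?_
  refine rco (v := ((zX β px ex r s) * (hr β (zX β px ex r s) 61 2))) rfl ?_
  refine rco (v := (hr β (zX β px ex r s) 60 3)) rfl ?_
  refine rco (v := (β 59)) rfl ?_
  refine rco (v := ((zX β px ex r s) * (hr β (zX β px ex r s) 60 3))) rfl ?_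
  refine rco (v := (hr β (zX β px ex r s) 59 4)) rfl ?_
  refine rco (v := ((zY β py ey r s) * (hr2 β (zX β px ex r s) (zY β py ey r s) 63 2))) rfl ?_
  refine rco (v := (hr2 β (zX β px ex r s) (zY β py ey r s) 59 3)) rfl ?_
  refine rco (v := (β 58)) rfl ?_
  refine rco (v := (β 57)) rfl ?_
  refine rco (v := ((zX β px ex r s) * (β 58))) rfl ?_
  refine rco (v := (hr β (zX β px ex r s) 57 2)) rfl ?_
  refine rco (v := (β 56)) rfl ?_
  refine rco (v := ((zX β px ex r s) * (hr β (zX β px ex r s) 57 2))) rfl ?_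
  refine rco (v := (hr β (zX β px ex r s) 56 3)) rfl ?_
  refine rco (v := (β 55)) rfl ?_
  refine rco (v := ((zX β px ex r s) * (hr β (zX β px ex r s) 56 3))) rfl ?_
  refine rco (v := (hr β (zX β px ex r s) 55 4)) rfl ?_
  refine rco (v := (β 54)) rfl ?_
  refine rco (v := ((zX β px ex r s) * (hr β (zX β px ex r s) 55 4))) rfl ?_
  refine rco (v := (hr β (zX β px ex r s) 54 5)) rfl ?_
  refine rco (v := ((zY β py ey r s) * (hr2 β (zX β px ex r s) (zY β py ey r s) 59 3))) rfl ?_
  refine rco (v := (hr2 β (zX β px ex r s) (zY β py ey r s) 54 4)) rfl ?_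
  refine rco (v := (β 53)) rfl ?_
  refine rco (v := (β 52)) rfl ?_
  refine rco (v := ((zX β px ex r s) * (β 53))) rfl ?_
  refine rco (v := (hr β (zX β px ex r s) 52 2)) rfl ?_
  refine rco (v := (β 51)) rfl ?_
  refine rco (v := ((zX β px ex r s) * (hr β (zX β px ex r s) 52 2))) rfl ?_
  refine rco (v := (hr β (zX β px ex r s) 51 3)) rfl ?_
  refine rco (v := (β 50)) rfl ?_
  refine rco (v := ((zX β px ex r s) * (hr β (zX β px ex r s) 51 3))) rfl ?_
  refine rco (v := (hr β (zX β px ex r s) 50 4)) rfl ?_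
  refine rco (v := (β 49)) rfl ?_
  refine rco (v := ((zX β px ex r s) * (hr β (zX β px ex r s) 50 4))) rfl ?_
  refine rco (v := (hr β (zX β px ex r s) 49 5)) rfl ?_
  refine rco (v := (β 48)) rfl ?_
  refine rco (v := ((zX β px ex r s) * (hr β (zX β px ex r s) 49 5))) rfl ?_
  refine rco (v := (hr β (zX β px ex r s) 48 6)) rfl ?_
  refine rco (v := ((zY β py ey r s) * (hr2 β (zX β px ex r s) (zY β py ey r s) 54 4))) rfl ?_
  refine rco (v := (hr2 β (zX β px ex r s) (zY β py ey r s) 48 5)) rfl ?_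
  refine rco (v := (β 47)) rfl ?_
  refine rco (v := (β 46)) rfl ?_
  refine rco (v := ((zX β px ex r s) * (β 47))) rfl ?_
  refine rco (v := (hr β (zX β px ex r s) 46 2)) rfl ?_
  refine rco (v := (β 45)) rfl ?_
  refine rco (v := ((zX β px ex r s) * (hr β (zX β px ex r s) 46 2))) rfl ?_
  refine rco (v := (hr β (zX β px ex r s) 45 3)) rfl ?_
  refine rco (v := (β 44)) rfl ?_
  refine rco (v := ((zX β px ex r s) * (hr β (zX β px ex r s) 45 3))) rfl ?_
  refine rco (v := (hr β (zX β px ex r s) 44 4)) rfl ?_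
  refine rco (v := (β 43)) rfl ?_
  refine rco (v := ((zX β px ex r s) * (hr β (zX β px ex r s) 44 4))) rfl ?_
  refine rco (v := (hr β (zX β px ex r s) 43 5)) rfl ?_
  refine rco (v := (β 42)) rfl ?_
  refine rco (v := ((zX β px ex r s) * (hr β (zX β px ex r s) 43 5))) rfl ?_
  refine rco (v := (hr β (zX β px ex r s) 42 6)) rfl ?_
  refine rco (v := (β 41)) rfl ?_
  refine rco (v := ((zX β px ex r s) * (hr β (zX β px ex r s) 42 6))) rfl ?_
  refine rco (v := (hr β (zX β px ex r s) 41 7)) rfl ?_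
  refine rco (v := ((zY β py ey r s) * (hr2 β (zX β px ex r s) (zY β py ey r s) 48 5))) rfl ?_
  refine rco (v := (hr2 β (zX β px ex r s) (zY β py ey r s) 41 6)) rfl ?_
  refine rco (v := (β 40)) rfl ?_
  refine rco (v := (β 39)) rfl ?_
  refine rco (v := ((zX β px ex r s) * (β 40))) rfl ?_
  refine rco (v := (hr β (zX β px ex r s) 39 2)) rfl ?_
  refine rco (v := (β 38)) rfl ?_
  refine rco (v := ((zX β px ex r s) * (hr β (zX β px ex r s) 39 2))) rfl ?_
  refine rco (v := (hr β (zX β px ex r s) 38 3)) rfl ?_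
  refine rco (v := (β 37)) rfl ?_
  refine rco (v := ((zX β px ex r s) * (hr β (zX β px ex r s) 38 3))) rfl ?_
  refine rco (v := (hr β (zX β px ex r s) 37 4)) rfl ?_
  refine rco (v := (β 36)) rfl ?_
  refine rco (v := ((zX β px ex r s) * (hr β (zX β px ex r s) 37 4))) rfl ?_
  refine rco (v := (hr β (zX β px ex r s) 36 5)) rfl ?_
  refine rco (v := (β 35)) rfl ?_
  refine rco (v := ((zX β px ex r s) * (hr β (zX β px ex r s) 36 5))) rfl ?_
  refine rco (v := (hr β (zX β px ex r s) 35 6)) rfl ?_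
  refine rco (v := (β 34)) rfl ?_
  refine rco (v := ((zX β px ex r s) * (hr β (zX β px ex r s) 35 6))) rfl ?_
  refine rco (v := (hr β (zX β px ex r s) 34 7)) rfl ?_
  refine rco (v := (β 33)) rfl ?_
  refine rco (v := ((zX β px ex r s) * (hr β (zX β px ex r s) 34 7))) rfl ?_
  refine rco (v := (hr β (zX β px ex r s) 33 8)) rfl ?_
  refine rco (v := ((zY β py ey r s) * (hr2 β (zX β px ex r s) (zY β py ey r s) 41 6))) rfl ?_
  refine rco (v := (hr2 β (zX β px ex r s) (zY β py ey r s) 33 7)) rfl ?_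
  refine rco (v := ((zXh β px ex s) * (hr2 β (zX β px ex r s) (zY β py ey r s) 33 7))) rfl ?_
  refine rco (v := (β 76)) rfl ?_
  refine rco (v := (β 75)) rfl ?_
  refine rco (v := ((zY β py ey r s) * (β 76))) rfl ?_
  refine rco (v := (hr β (zY β py ey r s) 75 2)) rfl ?_
  refine rco (v := (β 74)) rfl ?_
  refine rco (v := ((zY β py ey r s) * (hr β (zY β py ey r s) 75 2))) rfl ?_
  refine rco (v := (hr β (zY β py ey r s) 74 3)) rfl ?_
  refine rco (v := (β 73)) rfl ?_
  refine rco (v := ((zY β py ey r s) * (hr β (zY β py ey r s) 74 3))) rfl ?_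
  refine rco (v := (hr β (zY β py ey r s) 73 4)) rfl ?_
  refine rco (v := (β 72)) rfl ?_
  refine rco (v := ((zY β py ey r s) * (hr β (zY β py ey r s) 73 4))) rfl ?_
  refine rco (v := (hr β (zY β py ey r s) 72 5)) rfl ?_
  refine rco (v := (β 71)) rfl ?_
  refine rco (v := ((zY β py ey r s) * (hr β (zY β py ey r s) 72 5))) rfl ?_
  refine rco (v := (hr β (zY β py ey r s) 71 6)) rfl ?_
  refine rco (v := (β 70)) rfl ?_
  refine rco (v := ((zY β py ey r s) * (hr β (zY β py ey r s) 71 6))) rfl ?_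
  refine rco (v := (hr β (zY β py ey r s) 70 7)) rfl ?_
  refine rco (v := (β 69)) rfl ?_
  refine rco (v := ((zY β py ey r s) * (hr β (zY β py ey r s) 70 7))) rfl ?_
  refine rco (v := (hr β (zY β py ey r s) 69 8)) rfl ?_
  refine rco (v := ((zYh β py ey s) * (hr β (zY β py ey r s) 69 8))) rfl ?_
  refine rco (v := (G0h β 33 (zX β px ex r s) (zY β py ey r s) (zXh β px ex s) (zYh β py ey s))) rfl ?_
  refine rco (v := (β 112)) rfl ?_
  refine rco (v := (β 111)) rfl ?_
  refine rco (v := (β 110)) rfl ?_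
  refine rco (v := ((zX β px ex r s) * (β 111))) rfl ?_
  refine rco (v := (hr β (zX β px ex r s) 110 2)) rfl ?_
  refine rco (v := ((zY β py ey r s) * (β 112))) rfl ?_
  refine rco (v := (hr2 β (zX β px ex r s) (zY β py ey r s) 110 1)) rfl ?_
  refine rco (v := (β 109)) rfl ?_
  refine rco (v := (β 108)) rfl ?_
  refine rco (v := ((zX β px ex r s) * (β 109))) rfl ?_
  refine rco (v := (hr β (zX β px ex r s) 108 2)) rfl ?_
  refine rco (v := (β 107)) rfl ?_
  refine rco (v := ((zX β px ex r s) * (hr β (zX β px ex r s) 108 2))) rfl ?_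
  refine rco (v := (hr β (zX β px ex r s) 107 3)) rfl ?_
  refine rco (v := ((zY β py ey r s) * (hr2 β (zX β px ex r s) (zY β py ey r s) 110 1))) rfl ?_
  refine rco (v := (hr2 β (zX β px ex r s) (zY β py ey r s) 107 2)) rfl ?_
  refine rco (v := (β 106)) rfl ?_
  refine rco (v := (β 105)) rfl ?_
  refine rco (v := ((zX β px ex r s) * (β 106))) rfl ?_
  refine rco (v := (hr β (zX β px ex r s) 105 2)) rfl ?_
  refine rco (v := (β 104)) rfl ?_
  refine rco (v := ((zX β px ex r s) * (hr β (zX β px ex r s) 105 2))) rfl ?_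
  refine rco (v := (hr β (zX β px ex r s) 104 3)) rfl ?_
  refine rco (v := (β 103)) rfl ?_
  refine rco (v := ((zX β px ex r s) * (hr β (zX β px ex r s) 104 3))) rfl ?_
  refine rco (v := (hr β (zX β px ex r s) 103 4)) rfl ?_
  refine rco (v := ((zY β py ey r s) * (hr2 β (zX β px ex r s) (zY β py ey r s) 107 2))) rfl ?_
  refine rco (v := (hr2 β (zX β px ex r s) (zY β py ey r s) 103 3)) rfl ?_
  refine rco (v := (β 102)) rfl ?_
  refine rco (v := (β 101)) rfl ?_
  refine rco (v := ((zX β px ex r s) * (β 102))) rfl ?_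
  refine rco (v := (hr β (zX β px ex r s) 101 2)) rfl ?_
  refine rco (v := (β 100)) rfl ?_
  refine rco (v := ((zX β px ex r s) * (hr β (zX β px ex r s) 101 2))) rfl ?_
  refine rco (v := (hr β (zX β px ex r s) 100 3)) rfl ?_
  refine rco (v := (β 99)) rfl ?_
  refine rco (v := ((zX β px ex r s) * (hr β (zX β px ex r s) 100 3))) rfl ?_
  refine rco (v := (hr β (zX β px ex r s) 99 4)) rfl ?_
  refine rco (v := (β 98)) rfl ?_
  refine rco (v := ((zX β px ex r s) * (hr β (zX β px ex r s) 99 4))) rfl ?_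
  refine rco (v := (hr β (zX β px ex r s) 98 5)) rfl ?_
  refine rco (v := ((zY β py ey r s) * (hr2 β (zX β px ex r s) (zY β py ey r s) 103 3))) rfl ?_
  refine rco (v := (hr2 β (zX β px ex r s) (zY β py ey r s) 98 4)) rfl ?_
  refine rco (v := (β 97)) rfl ?_
  refine rco (v := (β 96)) rfl ?_
  refine rco (v := ((zX β px ex r s) * (β 97))) rfl ?_
  refine rco (v := (hr β (zX β px ex r s) 96 2)) rfl ?_
  refine rco (v := (β 95)) rfl ?_
  refine rco (v := ((zX β px ex r s) * (hr β (zX β px ex r s) 96 2))) rfl ?_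
  refine rco (v := (hr β (zX β px ex r s) 95 3)) rfl ?_
  refine rco (v := (β 94)) rfl ?_
  refine rco (v := ((zX β px ex r s) * (hr β (zX β px ex r s) 95 3))) rfl ?_
  refine rco (v := (hr β (zX β px ex r s) 94 4)) rfl ?_
  refine rco (v := (β 93)) rfl ?_
  refine rco (v := ((zX β px ex r s) * (hr β (zX β px ex r s) 94 4))) rfl ?_
  refine rco (v := (hr β (zX β px ex r s) 93 5)) rfl ?_
  refine rco (v := (β 92)) rfl ?_
  refine rco (v := ((zX β px ex r s) * (hr β (zX β px ex r s) 93 5))) rfl ?_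
  refine rco (v := (hr β (zX β px ex r s) 92 6)) rfl ?_
  refine rco (v := ((zY β py ey r s) * (hr2 β (zX β px ex r s) (zY β py ey r s) 98 4))) rfl ?_
  refine rco (v := (hr2 β (zX β px ex r s) (zY β py ey r s) 92 5)) rfl ?_
  refine rco (v := (β 91)) rfl ?_
  refine rco (v := (β 90)) rfl ?_
  refine rco (v := ((zX β px ex r s) * (β 91))) rfl ?_
  refine rco (v := (hr β (zX β px ex r s) 90 2)) rfl ?_
  refine rco (v := (β 89)) rfl ?_
  refine rco (v := ((zX β px ex r s) * (hr β (zX β px ex r s) 90 2))) rfl ?_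
  refine rco (v := (hr β (zX β px ex r s) 89 3)) rfl ?_
  refine rco (v := (β 88)) rfl ?_
  refine rco (v := ((zX β px ex r s) * (hr β (zX β px ex r s) 89 3))) rfl ?_
  refine rco (v := (hr β (zX β px ex r s) 88 4)) rfl ?_
  refine rco (v := (β 87)) rfl ?_
  refine rco (v := ((zX β px ex r s) * (hr β (zX β px ex r s) 88 4))) rfl ?_
  refine rco (v := (hr β (zX β px ex r s) 87 5)) rfl ?_
  refine rco (v := (β 86)) rfl ?_
  refine rco (v := ((zX β px ex r s) * (hr β (zX β px ex r s) 87 5))) rfl ?_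
  refine rco (v := (hr β (zX β px ex r s) 86 6)) rfl ?_
  refine rco (v := (β 85)) rfl ?_
  refine rco (v := ((zX β px ex r s) * (hr β (zX β px ex r s) 86 6))) rfl ?_
  refine rco (v := (hr β (zX β px ex r s) 85 7)) rfl ?_
  refine rco (v := ((zY β py ey r s) * (hr2 β (zX β px ex r s) (zY β py ey r s) 92 5))) rfl ?_
  refine rco (v := (hr2 β (zX β px ex r s) (zY β py ey r s) 85 6)) rfl ?_
  refine rco (v := (β 84)) rfl ?_
  refine rco (v := (β 83)) rfl ?_
  refine rco (v := ((zX β px ex r s) * (β 84))) rfl ?_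
  refine rco (v := (hr β (zX β px ex r s) 83 2)) rfl ?_
  refine rco (v := (β 82)) rfl ?_
  refine rco (v := ((zX β px ex r s) * (hr β (zX β px ex r s) 83 2))) rfl ?_
  refine rco (v := (hr β (zX β px ex r s) 82 3)) rfl ?_
  refine rco (v := (β 81)) rfl ?_
  refine rco (v := ((zX β px ex r s) * (hr β (zX β px ex r s) 82 3))) rfl ?_
  refine rco (v := (hr β (zX β px ex r s) 81 4)) rfl ?_
  refine rco (v := (β 80)) rfl ?_
  refine rco (v := ((zX β px ex r s) * (hr β (zX β px ex r s) 81 4))) rfl ?_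
  refine rco (v := (hr β (zX β px ex r s) 80 5)) rfl ?_
  refine rco (v := (β 79)) rfl ?_
  refine rco (v := ((zX β px ex r s) * (hr β (zX β px ex r s) 80 5))) rfl ?_
  refine rco (v := (hr β (zX β px ex r s) 79 6)) rfl ?_
  refine rco (v := (β 78)) rfl ?_
  refine rco (v := ((zX β px ex r s) * (hr β (zX β px ex r s) 79 6))) rfl ?_
  refine rco (v := (hr β (zX β px ex r s) 78 7)) rfl ?_
  refine rco (v := (β 77)) rfl ?_
  refine rco (v := ((zX β px ex r s) * (hr β (zX β px ex r s) 78 7))) rfl ?_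
  refine rco (v := (hr β (zX β px ex r s) 77 8)) rfl ?_
  refine rco (v := ((zY β py ey r s) * (hr2 β (zX β px ex r s) (zY β py ey r s) 85 6))) rfl ?_
  refine rco (v := (hr2 β (zX β px ex r s) (zY β py ey r s) 77 7)) rfl ?_
  refine rco (v := ((zXh β px ex s) * (hr2 β (zX β px ex r s) (zY β py ey r s) 77 7))) rfl ?_
  refine rco (v := (β 120)) rfl ?_
  refine rco (v := (β 119)) rfl ?_
  refine rco (v := ((zY β py ey r s) * (β 120))) rfl ?_
  refine rco (v := (hr β (zY β py ey r s) 119 2)) rfl ?_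
  refine rco (v := (β 118)) rfl ?_
  refine rco (v := ((zY β py ey r s) * (hr β (zY β py ey r s) 119 2))) rfl ?_
  refine rco (v := (hr β (zY β py ey r s) 118 3)) rfl ?_
  refine rco (v := (β 117)) rfl ?_
  refine rco (v := ((zY β py ey r s) * (hr β (zY β py ey r s) 118 3))) rfl ?_
  refine rco (v := (hr β (zY β py ey r s) 117 4)) rfl ?_
  refine rco (v := (β 116)) rfl ?_
  refine rco (v := ((zY β py ey r s) * (hr β (zY β py ey r s) 117 4))) rfl ?_
  refine rco (v := (hr β (zY β py ey r s) 116 5)) rfl ?_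
  refine rco (v := (β 115)) rfl ?_
  refine rco (v := ((zY β py ey r s) * (hr β (zY β py ey r s) 116 5))) rfl ?_
  refine rco (v := (hr β (zY β py ey r s) 115 6)) rfl ?_
  refine rco (v := (β 114)) rfl ?_
  refine rco (v := ((zY β py ey r s) * (hr β (zY β py ey r s) 115 6))) rfl ?_
  refine rco (v := (hr β (zY β py ey r s) 114 7)) rfl ?_
  refine rco (v := (β 113)) rfl ?_
  refine rco (v := ((zY β py ey r s) * (hr β (zY β py ey r s) 114 7))) rfl ?_
  refine rco (v := (hr β (zY β py ey r s) 113 8)) rfl ?_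
  refine rco (v := ((zYh β py ey s) * (hr β (zY β py ey r s) 113 8))) rfl ?_
  refine rco (v := (G0h β 77 (zX β px ex r s) (zY β py ey r s) (zXh β px ex s) (zYh β py ey s))) rfl ?_
  refine rco (v := ((((zf β px py ex ey r s) + (zf β px py ex ey r s)) - (1 : ℝ)) * (((zf β px py ex ey r s) + (zf β px py ex ey r s)) - (1 : ℝ)))) rfl ?_
  refine rco (v := ((((R0 : ℝ) / 2 ^ 12) + (((R1 : ℝ) / 2 ^ 12) * r)) * ((((zf β px py ex ey r s) + (zf β px py ex ey r s)) - (1 : ℝ)) * (((zf β px py ex ey r s) + (zf β px py ex ey r s)) - (1 : ℝ))))) rfl ?_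
  refine rco (v := (((((R0 : ℝ) / 2 ^ 12) + (((R1 : ℝ) / 2 ^ 12) * r)) * ((((zf β px py ex ey r s) + (zf β px py ex ey r s)) - (1 : ℝ)) * (((zf β px py ex ey r s) + (zf β px py ex ey r s)) - (1 : ℝ)))) * (zD0 β px ex r s))) rfl ?_
  refine rco (v := (1 / 1048576 : ℝ)) (by norm_num [step, realAlg]) ?_
  refine rco (v := (137 / 1048576 : ℝ)) (by norm_num [step, realAlg]) ?_
  refine rco (v := ((137 / 1048576 : ℝ) * (zD0 β px ex r s))) rfl ?_
  refine rco (v := ((1 / 1048576 : ℝ) + ((137 / 1048576 : ℝ) * (zD0 β px ex r s)))) rfl ?_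
  refine rco (v := ((zn β px py ex ey s) * ((1 / 1048576 : ℝ) + ((137 / 1048576 : ℝ) * (zD0 β px ex r s))))) rfl ?_
  refine rco (v := ((E0h β 0 (zX β px ex r s) (zY β py ey r s) (zXh β px ex s) (zYh β py ey s)) - ((zn β px py ex ey s) * ((1 / 1048576 : ℝ) + ((137 / 1048576 : ℝ) * (zD0 β px ex r s)))))) rfl ?_
  refine rco (v := ((((((R0 : ℝ) / 2 ^ 12) + (((R1 : ℝ) / 2 ^ 12) * r)) * ((((zf β px py ex ey r s) + (zf β px py ex ey r s)) - (1 : ℝ)) * (((zf β px py ex ey r s) + (zf β px py ex ey r s)) - (1 : ℝ)))) * (zD0 β px ex r s)) * ((E0h β 0 (zX β px ex r s) (zY β py ey r s) (zXh β px ex s) (zYh β py ey s)) - ((zn β px py ex ey s) * ((1 / 1048576 : ℝ) + ((137 / 1048576 : ℝ) * (zD0 β px ex r s))))))) rfl ?_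
  refine rco (v := ((G0h β 33 (zX β px ex r s) (zY β py ey r s) (zXh β px ex s) (zYh β py ey s)) * (G0h β 33 (zX β px ex r s) (zY β py ey r s) (zXh β px ex s) (zYh β py ey s)))) rfl ?_
  refine rco (v := ((G0h β 77 (zX β px ex r s) (zY β py ey r s) (zXh β px ex s) (zYh β py ey s)) * (G0h β 77 (zX β px ex r s) (zY β py ey r s) (zXh β px ex s) (zYh β py ey s)))) rfl ?_
  refine rco (v := (((G0h β 33 (zX β px ex r s) (zY β py ey r s) (zXh β px ex s) (zYh β py ey s)) * (G0h β 33 (zX β px ex r s) (zY β py ey r s) (zXh β px ex s) (zYh β py ey s))) + ((G0h β 77 (zX β px ex r s) (zY β py ey r s) (zXh β px ex s) (zYh β py ey s)) * (G0h β 77 (zX β px ex r s) (zY β py ey r s) (zXh β px ex s) (zYh β py ey s))))) rfl ?_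
  refine rco (v := (1025 / 1024 : ℝ)) (by norm_num [step, realAlg]) ?_
  refine rco (v := ((((G0h β 33 (zX β px ex r s) (zY β py ey r s) (zXh β px ex s) (zYh β py ey s)) * (G0h β 33 (zX β px ex r s) (zY β py ey r s) (zXh β px ex s) (zYh β py ey s))) + ((G0h β 77 (zX β px ex r s) (zY β py ey r s) (zXh β px ex s) (zYh β py ey s)) * (G0h β 77 (zX β px ex r s) (zY β py ey r s) (zXh β px ex s) (zYh β py ey s)))) * (1025 / 1024 : ℝ))) rfl ?_
  refine rco (v := (((((((R0 : ℝ) / 2 ^ 12) + (((R1 : ℝ) / 2 ^ 12) * r)) * ((((zf β px py ex ey r s) + (zf β px py ex ey r s)) - (1 : ℝ)) * (((zf β px py ex ey r s) + (zf β px py ex ey r s)) - (1 : ℝ)))) * (zD0 β px ex r s)) * ((E0h β 0 (zX β px ex r s) (zY β py ey r s) (zXh β px ex s) (zYh β py ey s)) - ((zn β px py ex ey s) * ((1 / 1048576 : ℝ) + ((137 / 1048576 : ℝ) * (zD0 β px ex r s)))))) - ((((G0h β 33 (zX β px ex r s) (zY β py ey r s) (zXh β px ex s) (zYh β py ey s)) * (G0h β 33 (zX β px ex r s) (zY β py ey r s) (zXh β px ex s) (zYh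 β py ey s))) + ((G0h β 77 (zX β px ex r s) (zY β py ey r s) (zXh β px ex s) (zYh β py ey s)) * (G0h β 77 (zX β px ex r s) (zY β py ey r s) (zXh β px ex s) (zYh β py ey s)))) * (1025 / 1024 : ℝ)))) rfl ?_
  refine rco (v := (1 / 33554432 : ℝ)) (by norm_num [step, realAlg]) ?_
  refine rco (v := ((1 / 33554432 : ℝ) * (zn β px py ex ey s))) rfl ?_
  refine rco (v := ((((((((R0 : ℝ) / 2 ^ 12) + (((R1 : ℝ) / 2 ^ 12) * r)) * ((((zf β px py ex ey r s) + (zf β px py ex ey r s)) - (1 : ℝ)) * (((zf β px py ex ey r s) + (zf β px py ex ey r s)) - (1 : ℝ)))) * (zD0 β px ex r s)) * ((E0h β 0 (zX β px ex r s) (zY β py ey r s) (zXh β px ex s) (zYh β py ey s)) - ((zn β px py ex ey s) * ((1 / 1048576 : ℝ) + ((137 / 1048576 : ℝ) * (zD0 β px ex r s)))))) - ((((G0h β 33 (zX β px ex r s) (zY β py ey r s) (zXh β px ex s) (zYh β py ey s)) * (G0h β 33 (zX β px ex r s) (zY β py ey r s) (zXh β px ex s) (zYh β py ey s))) + ((G0h β 77 (zX β px ex r s) (zY β py ey r s) (zXh β px ex s) (zYh β py ey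 s)) * (G0h β 77 (zX β px ex r s) (zY β py ey r s) (zXh β px ex s) (zYh β py ey s)))) * (1025 / 1024 : ℝ))) - ((1 / 33554432 : ℝ) * (zn β px py ex ey s)))) rfl ?_
  rfl

theorem qZF0_val (β : ℕ → ℝ) (r s : ℝ) (px py ex ey R0 R1 : Int) (k : ℕ) :
    (qZF0 px py ex ey R0 R1).val (realAlg β r s) k = get2 0
      [vZF0_F β px py ex ey R0 R1 r s] k := by
  unfold Prg.val
  rw [(qZF0 px py ex ey R0 R1).h]
  show get2 0 (outs (realAlg β r s) (pZF0 px py ex ey R0 R1) [0]) k = _
  rw [pZF0_val]

end Pool.H61.Rh
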