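import Pool.Agent.H47.K3.Defs
import Pool.Agent.H81.Lv.Zf

/-! # generated: zone program, main inequality, vertex 2 -/

set_option autoImplicit false
set_option maxRecDepth 100000
set_option linter.unusedVariables false

namespace Pool.H61.Rh

open Pool.H47.Kc Pool.H47.K3

/-- program -/
def pZF2 (px py ex ey R0 R1 : Int) : List Op :=
  [.x, .y, .cst px 21, .base 134, .sub 1 0, .cst ex 21, .mul 4 0, .add 2 0, .cst py 21, 
   .base 135, .sub 1 0, .cst ey 21, .mul 10 0, .add 2 0, .mul 13 6, .mul 14 1, .base 130, 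
   .base 131, .mul 0 3, .base 132, .mul 0 4, .add 2 0, .add 5 0, .cst 1 0, .base 133, 
   .base 129, .add 0 10, .mul 2 0, .base 128, .add 0 14, .add 6 0, .add 0 3, .add 9 9, 
   .sub 0 9, .cst R0 12, .cst R1 12, .mul 0 35, .add 2 0, .mul 23 23, .mul 23 23, 
   .add 1 0, .base 35, .base 34, .base 33, .mul 29 1, .add 1 0, .mul 30 4, .add 1 0, 
   .base 32, .base 31, .mul 35 1, .add 1 0, .base 30, .mul 38 1, .add 1 0, .mul 39 7, 
   .add 1 0, .base 29, .base 28, .mul 44 1, .add 1 0, .base 27, .mul 47 1, .add 1 0, 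
   .base 26, .mul 50 1, .add 1 0, .mul 51 10, .add 1 0, .base 25, .base 24, .mul 56 1, 
   .add 1 0, .base 23, .mul 59 1, .add 1 0, .base 22, .mul 62 1, .add 1 0, .base 21, 
   .mul 65 1, .add 1 0, .mul 66 13, .add 1 0, .base 20, .base 19, .mul 71 1, .add 1 0, 
   .base 18, .mul 74 1, .add 1 0, .base 17, .mul 77 1, .add 1 0, .base 16, .mul 80 1, 
   .add 1 0, .base 15, .mul 83 1, .add 1 0, .mul 84 16, .add 1 0, .base 14, .base 13, 
   .mul 89 1, .add 1 0, .base 12, .mul 92 1, .add 1 0, .base 11, .mul 95 1, .add 1 0, 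
   .base 10, .mul 98 1, .add 1 0, .base 9, .mul 101 1, .add 1 0, .base 8, .mul 104 1, 
   .add 1 0, .mul 105 19, .add 1 0, .base 7, .base 6, .mul 110 1, .add 1 0, .base 5, 
   .mul 113 1, .add 1 0, .base 4, .mul 116 1, .add 1 0, .base 3, .mul 119 1, .add 1 0, 
   .base 2, .mul 122 1, .add 1 0, .base 1, .mul 125 1, .add 1 0, .base 0, .mul 128 1, 
   .add 1 0, .mul 129 22, .add 1 0, .base 80, .base 79, .base 78, .mul 135 1, .add 1 0, 
   .mul 136 4, .add 1 0, .base 77, .base 76, .mul 141 1, .add 1 0, .base 75, .mul 144 1, 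
   .add 1 0, .mul 145 7, .add 1 0, .base 74, .base 73, .mul 150 1, .add 1 0, .base 72, 
   .mul 153 1, .add 1 0, .base 71, .mul 156 1, .add 1 0, .mul 157 10, .add 1 0, .base 70, 
   .base 69, .mul 162 1, .add 1 0, .base 68, .mul 165 1, .add 1 0, .base 67, .mul 168 1, 
   .add 1 0, .base 66, .mul 171 1, .add 1 0, .mul 172 13, .add 1 0, .base 65, .base 64, 
   .mul 177 1, .add 1 0, .base 63, .mul 180 1, .add 1 0, .base 62, .mul 183 1, .add 1 0, 
   .base 61, .mul 186 1, .add 1 0, .base 60, .mul 189 1, .add 1 0, .mul 190 16, .add 1 0, 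
   .base 59, .base 58, .mul 195 1, .add 1 0, .base 57, .mul 198 1, .add 1 0, .base 56, 
   .mul 201 1, .add 1 0, .base 55, .mul 204 1, .add 1 0, .base 54, .mul 207 1, .add 1 0, 
   .base 53, .mul 210 1, .add 1 0, .mul 211 19, .add 1 0, .base 52, .base 51, .mul 216 1, 
   .add 1 0, .base 50, .mul 219 1, .add 1 0, .base 49, .mul 222 1, .add 1 0, .base 48, 
   .mul 225 1, .add 1 0, .base 47, .mul 228 1, .add 1 0, .base 46, .mul 231 1, .add 1 0, 
   .base 45, .mul 234 1, .add 1 0, .mul 235 22, .add 1 0, .base 44, .base 43, .mul 240 1, 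
   .add 1 0, .base 42, .mul 243 1, .add 1 0, .base 41, .mul 246 1, .add 1 0, .base 40, 
   .mul 249 1, .add 1 0, .base 39, .mul 252 1, .add 1 0, .base 38, .mul 255 1, .add 1 0, 
   .base 37, .mul 258 1, .add 1 0, .base 36, .mul 261 1, .add 1 0, .mul 262 25, .add 1 0, 
   .base 125, .base 124, .base 123, .mul 268 1, .add 1 0, .mul 269 4, .add 1 0, 
   .base 122, .base 121, .mul 274 1, .add 1 0, .base 120, .mul 277 1, .add 1 0, 
   .mul 278 7, .add 1 0, .base 119, .base 118, .mul 283 1, .add 1 0, .base 117, 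
   .mul 286 1, .add 1 0, .base 116, .mul 289 1, .add 1 0, .mul 290 10, .add 1 0, 
   .base 115, .base 114, .mul 295 1, .add 1 0, .base 113, .mul 298 1, .add 1 0, 
   .base 112, .mul 301 1, .add 1 0, .base 111, .mul 304 1, .add 1 0, .mul 305 13, 
   .add 1 0, .base 110, .base 109, .mul 310 1, .add 1 0, .base 108, .mul 313 1, .add 1 0, 
   .base 107, .mul 316 1, .add 1 0, .base 106, .mul 319 1, .add 1 0, .base 105, 
   .mul 322 1, .add 1 0, .mul 323 16, .add 1 0, .base 104, .base 103, .mul 328 1, 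
   .add 1 0, .base 102, .mul 331 1, .add 1 0, .base 101, .mul 334 1, .add 1 0, .base 100, 
   .mul 337 1, .add 1 0, .base 99, .mul 340 1, .add 1 0, .base 98, .mul 343 1, .add 1 0, 
   .mul 344 19, .add 1 0, .base 97, .base 96, .mul 349 1, .add 1 0, .base 95, .mul 352 1, 
   .add 1 0, .base 94, .mul 355 1, .add 1 0, .base 93, .mul 358 1, .add 1 0, .base 92, 
   .mul 361 1, .add 1 0, .base 91, .mul 364 1, .add 1 0, .base 90, .mul 367 1, .add 1 0, 
   .mul 368 22, .add 1 0, .base 89, .base 88, .mul 373 1, .add 1 0, .base 87, .mul 376 1, 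
   .add 1 0, .base 86, .mul 379 1, .add 1 0, .base 85, .mul 382 1, .add 1 0, .base 84, 
   .mul 385 1, .add 1 0, .base 83, .mul 388 1, .add 1 0, .base 82, .mul 391 1, .add 1 0, 
   .base 81, .mul 394 1, .add 1 0, .mul 395 25, .add 1 0, .mul 379 379, .mul 376 0, 
   .mul 0 383, .cst 1 20, .sub 270 0, .cst 137 20, .mul 378 387, .mul 1 0, .sub 3 0, 
   .mul 6 0, .mul 143 143, .mul 11 11, .add 1 0, .cst 1025 10, .mul 1 0, .sub 5 0, 
   .cst 1 25, .sub 1 0]

/-- value -/
noncomputable def vZF2_F (β : ℕ → ℝ) (px py ex ey R0 R1 : Int) (r s : ℝ) : ℝ :=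
  ((((((((R0 : ℝ) / 2 ^ 12) + (((R1 : ℝ) / 2 ^ 12) * r)) * ((((zf β px py ex ey r s) + (zf β px py ex ey r s)) - (1 : ℝ)) * (((zf β px py ex ey r s) + (zf β px py ex ey r s)) - (1 : ℝ)))) * (zD2 β px py ex ey r s)) * (((hr2 β (zX β px ex r s) (zY β py ey r s) 0 7) - (1 / 1048576 : ℝ)) - ((137 / 1048576 : ℝ) * ((((zX β px ex r s) * (zX β px ex r s)) + ((zY β py ey r s) * (zY β py ey r s))) * (zD2 β px py ex ey r s))))) - ((((hr2 β (zX β px ex r s) (zY β py ey r s) 36 8) * (hr2 β (zX β px ex r s) (zY β py ey r s) 36 8)) + ((hr2 β (zX β px ex r s) (zY β py ey r s) 81 8) * (hr2 β (zX β px ex r s) (zY β py ey r s) 81 8))) * (1025 / 1024 : ℝ))) - (1 / 33554432 : ℝ))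

def qZF2_b26 {α : Type} (px py ex ey R0 R1 : Int) (A : Alg α) (v31 v40 v146 v279 v412 v415 : α) : List α :=
  let v416 := A.cst (1) 20
  let v417 := A.sub v146 v416
  let v418 := A.cst (137) 20
  let v419 := A.mul v40 v31
  let v420 := A.mul v418 v419
  let v421 := A.sub v417 v420
  let v422 := A.mul v415 v421
  let v423 := A.mul v279 v279
  let v424 := A.mul v412 v412
  let v425 := A.add v423 v424
  let v426 := A.cst (1025) 10
  let v427 := A.mul v425 v426
  let v428 := A.sub v422 v427
  let v429 := A.cst (1) 25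
  let v430 := A.sub v428 v429
  [v430]

def qZF2_b25 {α : Type} (px py ex ey R0 R1 : Int) (A : Alg α) (v14 v15 v31 v33 v37 v40 v146 v279 v385 v398 v399 : α) : List α :=
  let v400 := A.mul v14 v398
  let v401 := A.add v399 v400
  let v402 := A.base 83
  let v403 := A.mul v14 v401
  let v404 := A.add v402 v403
  let v405 := A.base 82
  let v406 := A.mul v14 v404
  let v407 := A.add v405 v406
  let v408 := A.base 81
  let v409 := A.mul v14 v407
  let v410 := A.add v408 v409
  let v411 := A.mul v15 v385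
  let v412 := A.add v410 v411
  let v413 := A.mul v33 v33
  let v414 := A.mul v37 v413
  let v415 := A.mul v414 v31
  qZF2_b26 px py ex ey R0 R1 A v31 v40 v146 v279 v412 v415

def qZF2_b24 {α : Type} (px py ex ey R0 R1 : Int) (A : Alg α) (v14 v15 v31 v33 v37 v40 v146 v279 v361 v383 : α) : List α :=
  let v384 := A.mul v15 v361
  let v385 := A.add v383 v384
  let v386 := A.base 89
  let v387 := A.base 88
  let v388 := A.mul v14 v386
  let v389 := A.add v387 v388
  let v390 := A.base 87
  let v391 := A.mul v14 v389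
  let v392 := A.add v390 v391
  let v393 := A.base 86
  let v394 := A.mul v14 v392
  let v395 := A.add v393 v394
  let v396 := A.base 85
  let v397 := A.mul v14 v395
  let v398 := A.add v396 v397
  let v399 := A.base 84
  qZF2_b25 px py ex ey R0 R1 A v14 v15 v31 v33 v37 v40 v146 v279 v385 v398 v399

def qZF2_b23 {α : Type} (px py ex ey R0 R1 : Int) (A : Alg α) (v14 v15 v31 v33 v37 v40 v146 v279 v361 v366 v367 : α) : List α :=
  let v368 := A.add v366 v367
  let v369 := A.base 94
  let v370 := A.mul v14 v368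
  let v371 := A.add v369 v370
  let v372 := A.base 93
  let v373 := A.mul v14 v371
  let v374 := A.add v372 v373
  let v375 := A.base 92
  let v376 := A.mul v14 v374
  let v377 := A.add v375 v376
  let v378 := A.base 91
  let v379 := A.mul v14 v377
  let v380 := A.add v378 v379
  let v381 := A.base 90
  let v382 := A.mul v14 v380
  let v383 := A.add v381 v382
  qZF2_b24 px py ex ey R0 R1 A v14 v15 v31 v33 v37 v40 v146 v279 v361 v383

def qZF2_b22 {α : Type} (px py ex ey R0 R1 : Int) (A : Alg α) (v14 v15 v31 v33 v37 v40 v146 v279 v340 v350 v351 : α) : List α :=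
  let v352 := A.mul v14 v350
  let v353 := A.add v351 v352
  let v354 := A.base 99
  let v355 := A.mul v14 v353
  let v356 := A.add v354 v355
  let v357 := A.base 98
  let v358 := A.mul v14 v356
  let v359 := A.add v357 v358
  let v360 := A.mul v15 v340
  let v361 := A.add v359 v360
  let v362 := A.base 97
  let v363 := A.base 96
  let v364 := A.mul v14 v362
  let v365 := A.add v363 v364
  let v366 := A.base 95
  let v367 := A.mul v14 v365
  qZF2_b23 px py ex ey R0 R1 A v14 v15 v31 v33 v37 v40 v146 v279 v361 v366 v367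

def qZF2_b21 {α : Type} (px py ex ey R0 R1 : Int) (A : Alg α) (v14 v15 v31 v33 v37 v40 v146 v279 v322 v335 : α) : List α :=
  let v336 := A.base 105
  let v337 := A.mul v14 v335
  let v338 := A.add v336 v337
  let v339 := A.mul v15 v322
  let v340 := A.add v338 v339
  let v341 := A.base 104
  let v342 := A.base 103
  let v343 := A.mul v14 v341
  let v344 := A.add v342 v343
  let v345 := A.base 102
  let v346 := A.mul v14 v344
  let v347 := A.add v345 v346
  let v348 := A.base 101
  let v349 := A.mul v14 v347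
  let v350 := A.add v348 v349
  let v351 := A.base 100
  qZF2_b22 px py ex ey R0 R1 A v14 v15 v31 v33 v37 v40 v146 v279 v340 v350 v351

def qZF2_b20 {α : Type} (px py ex ey R0 R1 : Int) (A : Alg α) (v14 v15 v31 v33 v37 v40 v146 v279 v307 v318 v319 : α) : List α :=
  let v320 := A.add v318 v319
  let v321 := A.mul v15 v307
  let v322 := A.add v320 v321
  let v323 := A.base 110
  let v324 := A.base 109
  let v325 := A.mul v14 v323
  let v326 := A.add v324 v325
  let v327 := A.base 108
  let v328 := A.mul v14 v326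
  let v329 := A.add v327 v328
  let v330 := A.base 107
  let v331 := A.mul v14 v329
  let v332 := A.add v330 v331
  let v333 := A.base 106
  let v334 := A.mul v14 v332
  let v335 := A.add v333 v334
  qZF2_b21 px py ex ey R0 R1 A v14 v15 v31 v33 v37 v40 v146 v279 v322 v335

def qZF2_b19 {α : Type} (px py ex ey R0 R1 : Int) (A : Alg α) (v14 v15 v31 v33 v37 v40 v146 v279 v295 v302 v303 : α) : List α :=
  let v304 := A.mul v14 v302
  let v305 := A.add v303 v304
  let v306 := A.mul v15 v295
  let v307 := A.add v305 v306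
  let v308 := A.base 115
  let v309 := A.base 114
  let v310 := A.mul v14 v308
  let v311 := A.add v309 v310
  let v312 := A.base 113
  let v313 := A.mul v14 v311
  let v314 := A.add v312 v313
  let v315 := A.base 112
  let v316 := A.mul v14 v314
  let v317 := A.add v315 v316
  let v318 := A.base 111
  let v319 := A.mul v14 v317
  qZF2_b20 px py ex ey R0 R1 A v14 v15 v31 v33 v37 v40 v146 v279 v307 v318 v319

def qZF2_b18 {α : Type} (px py ex ey R0 R1 : Int) (A : Alg α) (v14 v15 v31 v33 v37 v40 v146 v279 v286 v287 : α) : List α :=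
  let v288 := A.base 121
  let v289 := A.mul v14 v287
  let v290 := A.add v288 v289
  let v291 := A.base 120
  let v292 := A.mul v14 v290
  let v293 := A.add v291 v292
  let v294 := A.mul v15 v286
  let v295 := A.add v293 v294
  let v296 := A.base 119
  let v297 := A.base 118
  let v298 := A.mul v14 v296
  let v299 := A.add v297 v298
  let v300 := A.base 117
  let v301 := A.mul v14 v299
  let v302 := A.add v300 v301
  let v303 := A.base 116
  qZF2_b19 px py ex ey R0 R1 A v14 v15 v31 v33 v37 v40 v146 v279 v295 v302 v303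

def qZF2_b17 {α : Type} (px py ex ey R0 R1 : Int) (A : Alg α) (v14 v15 v31 v33 v37 v40 v146 v252 v271 : α) : List α :=
  let v272 := A.base 37
  let v273 := A.mul v14 v271
  let v274 := A.add v272 v273
  let v275 := A.base 36
  let v276 := A.mul v14 v274
  let v277 := A.add v275 v276
  let v278 := A.mul v15 v252
  let v279 := A.add v277 v278
  let v280 := A.base 125
  let v281 := A.base 124
  let v282 := A.base 123
  let v283 := A.mul v14 v281
  let v284 := A.add v282 v283
  let v285 := A.mul v15 v280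
  let v286 := A.add v284 v285
  let v287 := A.base 122
  qZF2_b18 px py ex ey R0 R1 A v14 v15 v31 v33 v37 v40 v146 v279 v286 v287

def qZF2_b16 {α : Type} (px py ex ey R0 R1 : Int) (A : Alg α) (v14 v15 v31 v33 v37 v40 v146 v252 v254 v255 : α) : List α :=
  let v256 := A.add v254 v255
  let v257 := A.base 42
  let v258 := A.mul v14 v256
  let v259 := A.add v257 v258
  let v260 := A.base 41
  let v261 := A.mul v14 v259
  let v262 := A.add v260 v261
  let v263 := A.base 40
  let v264 := A.mul v14 v262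
  let v265 := A.add v263 v264
  let v266 := A.base 39
  let v267 := A.mul v14 v265
  let v268 := A.add v266 v267
  let v269 := A.base 38
  let v270 := A.mul v14 v268
  let v271 := A.add v269 v270
  qZF2_b17 px py ex ey R0 R1 A v14 v15 v31 v33 v37 v40 v146 v252 v271

def qZF2_b15 {α : Type} (px py ex ey R0 R1 : Int) (A : Alg α) (v14 v15 v31 v33 v37 v40 v146 v228 v238 v239 : α) : List α :=
  let v240 := A.mul v14 v238
  let v241 := A.add v239 v240
  let v242 := A.base 47
  let v243 := A.mul v14 v241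
  let v244 := A.add v242 v243
  let v245 := A.base 46
  let v246 := A.mul v14 v244
  let v247 := A.add v245 v246
  let v248 := A.base 45
  let v249 := A.mul v14 v247
  let v250 := A.add v248 v249
  let v251 := A.mul v15 v228
  let v252 := A.add v250 v251
  let v253 := A.base 44
  let v254 := A.base 43
  let v255 := A.mul v14 v253
  qZF2_b16 px py ex ey R0 R1 A v14 v15 v31 v33 v37 v40 v146 v252 v254 v255

def qZF2_b14 {α : Type} (px py ex ey R0 R1 : Int) (A : Alg α) (v14 v15 v31 v33 v37 v40 v146 v207 v223 : α) : List α :=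
  let v224 := A.base 53
  let v225 := A.mul v14 v223
  let v226 := A.add v224 v225
  let v227 := A.mul v15 v207
  let v228 := A.add v226 v227
  let v229 := A.base 52
  let v230 := A.base 51
  let v231 := A.mul v14 v229
  let v232 := A.add v230 v231
  let v233 := A.base 50
  let v234 := A.mul v14 v232
  let v235 := A.add v233 v234
  let v236 := A.base 49
  let v237 := A.mul v14 v235
  let v238 := A.add v236 v237
  let v239 := A.base 48
  qZF2_b15 px py ex ey R0 R1 A v14 v15 v31 v33 v37 v40 v146 v228 v238 v239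

def qZF2_b13 {α : Type} (px py ex ey R0 R1 : Int) (A : Alg α) (v14 v15 v31 v33 v37 v40 v146 v207 : α) : List α :=
  let v208 := A.base 59
  let v209 := A.base 58
  let v210 := A.mul v14 v208
  let v211 := A.add v209 v210
  let v212 := A.base 57
  let v213 := A.mul v14 v211
  let v214 := A.add v212 v213
  let v215 := A.base 56
  let v216 := A.mul v14 v214
  let v217 := A.add v215 v216
  let v218 := A.base 55
  let v219 := A.mul v14 v217
  let v220 := A.add v218 v219
  let v221 := A.base 54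
  let v222 := A.mul v14 v220
  let v223 := A.add v221 v222
  qZF2_b14 px py ex ey R0 R1 A v14 v15 v31 v33 v37 v40 v146 v207 v223

def qZF2_b12 {α : Type} (px py ex ey R0 R1 : Int) (A : Alg α) (v14 v15 v31 v33 v37 v40 v146 v189 v190 v191 : α) : List α :=
  let v192 := A.mul v14 v190
  let v193 := A.add v191 v192
  let v194 := A.base 63
  let v195 := A.mul v14 v193
  let v196 := A.add v194 v195
  let v197 := A.base 62
  let v198 := A.mul v14 v196
  let v199 := A.add v197 v198
  let v200 := A.base 61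
  let v201 := A.mul v14 v199
  let v202 := A.add v200 v201
  let v203 := A.base 60
  let v204 := A.mul v14 v202
  let v205 := A.add v203 v204
  let v206 := A.mul v15 v189
  let v207 := A.add v205 v206
  qZF2_b13 px py ex ey R0 R1 A v14 v15 v31 v33 v37 v40 v146 v207

def qZF2_b11 {α : Type} (px py ex ey R0 R1 : Int) (A : Alg α) (v14 v15 v31 v33 v37 v40 v146 v174 v175 : α) : List α :=
  let v176 := A.base 69
  let v177 := A.mul v14 v175
  let v178 := A.add v176 v177
  let v179 := A.base 68
  let v180 := A.mul v14 v178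
  let v181 := A.add v179 v180
  let v182 := A.base 67
  let v183 := A.mul v14 v181
  let v184 := A.add v182 v183
  let v185 := A.base 66
  let v186 := A.mul v14 v184
  let v187 := A.add v185 v186
  let v188 := A.mul v15 v174
  let v189 := A.add v187 v188
  let v190 := A.base 65
  let v191 := A.base 64
  qZF2_b12 px py ex ey R0 R1 A v14 v15 v31 v33 v37 v40 v146 v189 v190 v191

def qZF2_b10 {α : Type} (px py ex ey R0 R1 : Int) (A : Alg α) (v14 v15 v31 v33 v37 v40 v146 v153 v158 v159 : α) : List α :=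
  let v160 := A.add v158 v159
  let v161 := A.mul v15 v153
  let v162 := A.add v160 v161
  let v163 := A.base 74
  let v164 := A.base 73
  let v165 := A.mul v14 v163
  let v166 := A.add v164 v165
  let v167 := A.base 72
  let v168 := A.mul v14 v166
  let v169 := A.add v167 v168
  let v170 := A.base 71
  let v171 := A.mul v14 v169
  let v172 := A.add v170 v171
  let v173 := A.mul v15 v162
  let v174 := A.add v172 v173
  let v175 := A.base 70
  qZF2_b11 px py ex ey R0 R1 A v14 v15 v31 v33 v37 v40 v146 v174 v175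

def qZF2_b9 {α : Type} (px py ex ey R0 R1 : Int) (A : Alg α) (v14 v15 v31 v33 v37 v40 v122 v142 v143 : α) : List α :=
  let v144 := A.add v142 v143
  let v145 := A.mul v15 v122
  let v146 := A.add v144 v145
  let v147 := A.base 80
  let v148 := A.base 79
  let v149 := A.base 78
  let v150 := A.mul v14 v148
  let v151 := A.add v149 v150
  let v152 := A.mul v15 v147
  let v153 := A.add v151 v152
  let v154 := A.base 77
  let v155 := A.base 76
  let v156 := A.mul v14 v154
  let v157 := A.add v155 v156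
  let v158 := A.base 75
  let v159 := A.mul v14 v157
  qZF2_b10 px py ex ey R0 R1 A v14 v15 v31 v33 v37 v40 v146 v153 v158 v159

def qZF2_b8 {α : Type} (px py ex ey R0 R1 : Int) (A : Alg α) (v14 v15 v31 v33 v37 v40 v122 v126 v127 : α) : List α :=
  let v128 := A.mul v14 v126
  let v129 := A.add v127 v128
  let v130 := A.base 4
  let v131 := A.mul v14 v129
  let v132 := A.add v130 v131
  let v133 := A.base 3
  let v134 := A.mul v14 v132
  let v135 := A.add v133 v134
  let v136 := A.base 2
  let v137 := A.mul v14 v135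
  let v138 := A.add v136 v137
  let v139 := A.base 1
  let v140 := A.mul v14 v138
  let v141 := A.add v139 v140
  let v142 := A.base 0
  let v143 := A.mul v14 v141
  qZF2_b9 px py ex ey R0 R1 A v14 v15 v31 v33 v37 v40 v122 v142 v143

def qZF2_b7 {α : Type} (px py ex ey R0 R1 : Int) (A : Alg α) (v14 v15 v31 v33 v37 v40 v101 v111 : α) : List α :=
  let v112 := A.base 10
  let v113 := A.mul v14 v111
  let v114 := A.add v112 v113
  let v115 := A.base 9
  let v116 := A.mul v14 v114
  let v117 := A.add v115 v116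
  let v118 := A.base 8
  let v119 := A.mul v14 v117
  let v120 := A.add v118 v119
  let v121 := A.mul v15 v101
  let v122 := A.add v120 v121
  let v123 := A.base 7
  let v124 := A.base 6
  let v125 := A.mul v14 v123
  let v126 := A.add v124 v125
  let v127 := A.base 5
  qZF2_b8 px py ex ey R0 R1 A v14 v15 v31 v33 v37 v40 v122 v126 v127

def qZF2_b6 {α : Type} (px py ex ey R0 R1 : Int) (A : Alg α) (v14 v15 v31 v33 v37 v40 v83 v94 v95 : α) : List α :=
  let v96 := A.add v94 v95
  let v97 := A.base 15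
  let v98 := A.mul v14 v96
  let v99 := A.add v97 v98
  let v100 := A.mul v15 v83
  let v101 := A.add v99 v100
  let v102 := A.base 14
  let v103 := A.base 13
  let v104 := A.mul v14 v102
  let v105 := A.add v103 v104
  let v106 := A.base 12
  let v107 := A.mul v14 v105
  let v108 := A.add v106 v107
  let v109 := A.base 11
  let v110 := A.mul v14 v108
  let v111 := A.add v109 v110
  qZF2_b7 px py ex ey R0 R1 A v14 v15 v31 v33 v37 v40 v101 v111

def qZF2_b5 {α : Type} (px py ex ey R0 R1 : Int) (A : Alg α) (v14 v15 v31 v33 v37 v40 v68 v78 v79 : α) : List α :=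
  let v80 := A.mul v14 v78
  let v81 := A.add v79 v80
  let v82 := A.mul v15 v68
  let v83 := A.add v81 v82
  let v84 := A.base 20
  let v85 := A.base 19
  let v86 := A.mul v14 v84
  let v87 := A.add v85 v86
  let v88 := A.base 18
  let v89 := A.mul v14 v87
  let v90 := A.add v88 v89
  let v91 := A.base 17
  let v92 := A.mul v14 v90
  let v93 := A.add v91 v92
  let v94 := A.base 16
  let v95 := A.mul v14 v93
  qZF2_b6 px py ex ey R0 R1 A v14 v15 v31 v33 v37 v40 v83 v94 v95

def qZF2_b4 {α : Type} (px py ex ey R0 R1 : Int) (A : Alg α) (v14 v15 v31 v33 v37 v40 v56 v63 : α) : List α :=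
  let v64 := A.base 26
  let v65 := A.mul v14 v63
  let v66 := A.add v64 v65
  let v67 := A.mul v15 v56
  let v68 := A.add v66 v67
  let v69 := A.base 25
  let v70 := A.base 24
  let v71 := A.mul v14 v69
  let v72 := A.add v70 v71
  let v73 := A.base 23
  let v74 := A.mul v14 v72
  let v75 := A.add v73 v74
  let v76 := A.base 22
  let v77 := A.mul v14 v75
  let v78 := A.add v76 v77
  let v79 := A.base 21
  qZF2_b5 px py ex ey R0 R1 A v14 v15 v31 v33 v37 v40 v68 v78 v79

def qZF2_b3 {α : Type} (px py ex ey R0 R1 : Int) (A : Alg α) (v14 v15 v31 v33 v37 v40 v47 : α) : List α :=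
  let v48 := A.base 32
  let v49 := A.base 31
  let v50 := A.mul v14 v48
  let v51 := A.add v49 v50
  let v52 := A.base 30
  let v53 := A.mul v14 v51
  let v54 := A.add v52 v53
  let v55 := A.mul v15 v47
  let v56 := A.add v54 v55
  let v57 := A.base 29
  let v58 := A.base 28
  let v59 := A.mul v14 v57
  let v60 := A.add v58 v59
  let v61 := A.base 27
  let v62 := A.mul v14 v60
  let v63 := A.add v61 v62
  qZF2_b4 px py ex ey R0 R1 A v14 v15 v31 v33 v37 v40 v56 v63

def qZF2_b2 {α : Type} (px py ex ey R0 R1 : Int) (A : Alg α) (v0 v14 v15 v22 v23 v31 : α) : List α :=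
  let v32 := A.add v22 v22
  let v33 := A.sub v32 v23
  let v34 := A.cst R0 12
  let v35 := A.cst R1 12
  let v36 := A.mul v35 v0
  let v37 := A.add v34 v36
  let v38 := A.mul v14 v14
  let v39 := A.mul v15 v15
  let v40 := A.add v38 v39
  let v41 := A.base 35
  let v42 := A.base 34
  let v43 := A.base 33
  let v44 := A.mul v14 v42
  let v45 := A.add v43 v44
  let v46 := A.mul v15 v41
  let v47 := A.add v45 v46
  qZF2_b3 px py ex ey R0 R1 A v14 v15 v31 v33 v37 v40 v47

def qZF2_b1 {α : Type} (px py ex ey R0 R1 : Int) (A : Alg α) (v0 v14 v15 : α) : List α :=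
  let v16 := A.base 130
  let v17 := A.base 131
  let v18 := A.mul v17 v14
  let v19 := A.base 132
  let v20 := A.mul v19 v15
  let v21 := A.add v18 v20
  let v22 := A.add v16 v21
  let v23 := A.cst (1) 0
  let v24 := A.base 133
  let v25 := A.base 129
  let v26 := A.add v25 v15
  let v27 := A.mul v24 v26
  let v28 := A.base 128
  let v29 := A.add v28 v14
  let v30 := A.add v23 v29
  let v31 := A.add v30 v27
  qZF2_b2 px py ex ey R0 R1 A v0 v14 v15 v22 v23 v31

def qZF2_f {α : Type} (px py ex ey R0 R1 : Int) (A : Alg α) : List α :=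
  let v0 := A.x
  let v1 := A.y
  let v2 := A.cst px 21
  let v3 := A.base 134
  let v4 := A.sub v2 v3
  let v5 := A.cst ex 21
  let v6 := A.mul v1 v5
  let v7 := A.add v4 v6
  let v8 := A.cst py 21
  let v9 := A.base 135
  let v10 := A.sub v8 v9
  let v11 := A.cst ey 21
  let v12 := A.mul v1 v11
  let v13 := A.add v10 v12
  let v14 := A.mul v0 v7
  let v15 := A.mul v0 v13
  qZF2_b1 px py ex ey R0 R1 A v0 v14 v15

theorem qZF2_h {α : Type} (px py ex ey R0 R1 : Int) (A : Alg α) : qZF2_f px py ex ey R0 R1 A = outs A (pZF2 px py ex ey R0 R1) [0] := rfl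

def qZF2 (px py ex ey R0 R1 : Int) : Prg :=
  ⟨pZF2 px py ex ey R0 R1, [0], qZF2_f px py ex ey R0 R1, qZF2_h px py ex ey R0 R1⟩

set_option maxHeartbeats 4000000 in
theorem pZF2_val (β : ℕ → ℝ) (r s : ℝ) (px py ex ey R0 R1 : Int) :
    outs (realAlg β r s) (pZF2 px py ex ey R0 R1) [0] =
      [vZF2_F β px py ex ey R0 R1 r s] := by
  unfold outs pZF2
  refine rco (v := r) rfl ?_
  refine rco (v := s) rfl ?_
  refine rco (v := ((px : ℝ) / 2 ^ 21)) rfl ?_
  refine rco (v := (β 134)) rfl ?_
  refine rco (v := (((px : ℝ) / 2 ^ 21) - (β 134))) rfl ?_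
  refine rco (v := ((ex : ℝ) / 2 ^ 21)) rfl ?_
  refine rco (v := (s * ((ex : ℝ) / 2 ^ 21))) rfl ?_
  refine rco (v := (zXh β px ex s)) rfl ?_
  refine rco (v := ((py : ℝ) / 2 ^ 21)) rfl ?_
  refine rco (v := (β 135)) rfl ?_
  refine rco (v := (((py : ℝ) / 2 ^ 21) - (β 135))) rfl ?_
  refine rco (v := ((ey : ℝ) / 2 ^ 21)) rfl ?_
  refine rco (v := (s * ((ey : ℝ) / 2 ^ 21))) rfl ?_
  refine rco (v := (zYh β py ey s)) rfl ?_
  refine rco (v := (zX β px ex r s)) rfl ?_
  refine rco (v := (zY β py ey r s)) rfl ?_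
  refine rco (v := (β 130)) rfl ?_
  refine rco (v := (β 131)) rfl ?_
  refine rco (v := ((β 131) * (zX β px ex r s))) rfl ?_
  refine rco (v := (β 132)) rfl ?_
  refine rco (v := ((β 132) * (zY β py ey r s))) rfl ?_
  refine rco (v := (((β 131) * (zX β px ex r s)) + ((β 132) * (zY β py ey r s)))) rfl ?_
  refine rco (v := (zf β px py ex ey r s)) rfl ?_
  refine rco (v := (1 : ℝ)) (by norm_num [step, realAlg]) ?_
  refine rco (v := (β 133)) rfl ?_
  refine rco (v := (β 129)) rfl ?_
  refine rco (v := ((β 129) + (zY β py ey r s))) rfl ?_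
  refine rco (v := ((β 133) * ((β 129) + (zY β py ey r s)))) rfl ?_
  refine rco (v := (β 128)) rfl ?_
  refine rco (v := ((β 128) + (zX β px ex r s))) rfl ?_
  refine rco (v := ((1 : ℝ) + ((β 128) + (zX β px ex r s)))) rfl ?_
  refine rco (v := (zD2 β px py ex ey r s)) rfl ?_
  refine rco (v := ((zf β px py ex ey r s) + (zf β px py ex ey r s))) rfl ?_
  refine rco (v := (((zf β px py ex ey r s) + (zf β px py ex ey r s)) - (1 : ℝ))) rfl ?_
  refine rco (v := ((R0 : ℝ) / 2 ^ 12)) rfl ?_
  refine rco (v := ((R1 : ℝ) / 2 ^ 12)) rfl ?_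
  refine rco (v := (((R1 : ℝ) / 2 ^ 12) * r)) rfl ?_
  refine rco (v := (((R0 : ℝ) / 2 ^ 12) + (((R1 : ℝ) / 2 ^ 12) * r))) rfl ?_
  refine rco (v := ((zX β px ex r s) * (zX β px ex r s))) rfl ?_
  refine rco (v := ((zY β py ey r s) * (zY β py ey r s))) rfl ?_
  refine rco (v := (((zX β px ex r s) * (zX β px ex r s)) + ((zY β py ey r s) * (zY β py ey r s)))) rfl ?_
  refine rco (v := (β 35)) rfl ?_
  refine rco (v := (β 34)) rfl ?_
  refine rco (v := (β 33)) rfl ?_
  refine rco (v := ((zX β px ex r s) * (β 34))) rfl ?_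
  refine rco (v := (hr β (zX β px ex r s) 33 2)) rfl ?_
  refine rco (v := ((zY β py ey r s) * (β 35))) rfl ?_
  refine rco (v := (hr2 β (zX β px ex r s) (zY β py ey r s) 33 1)) rfl ?_
  refine rco (v := (β 32)) rfl ?_
  refine rco (v := (β 31)) rfl ?_
  refine rco (v := ((zX β px ex r s) * (β 32))) rfl ?_
  refine rco (v := (hr β (zX β px ex r s) 31 2)) rfl ?_
  refine rco (v := (β 30)) rfl ?_
  refine rco (v := ((zX β px ex r s) * (hr β (zX β px ex r s) 31 2))) rfl ?_
  refine rco (v := (hr β (zX β px ex r s) 30 3)) rfl ?_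
  refine rco (v := ((zY β py ey r s) * (hr2 β (zX β px ex r s) (zY β py ey r s) 33 1))) rfl ?_
  refine rco (v := (hr2 β (zX β px ex r s) (zY β py ey r s) 30 2)) rfl ?_
  refine rco (v := (β 29)) rfl ?_
  refine rco (v := (β 28)) rfl ?_
  refine rco (v := ((zX β px ex r s) * (β 29))) rfl ?_
  refine rco (v := (hr β (zX β px ex r s) 28 2)) rfl ?_
  refine rco (v := (β 27)) rfl ?_
  refine rco (v := ((zX β px ex r s) * (hr β (zX β px ex r s) 28 2))) rfl ?_
  refine rco (v := (hr β (zX β px ex r s) 27 3)) rfl ?_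
  refine rco (v := (β 26)) rfl ?_
  refine rco (v := ((zX β px ex r s) * (hr β (zX β px ex r s) 27 3))) rfl ?_
  refine rco (v := (hr β (zX β px ex r s) 26 4)) rfl ?_
  refine rco (v := ((zY β py ey r s) * (hr2 β (zX β px ex r s) (zY β py ey r s) 30 2))) rfl ?_
  refine rco (v := (hr2 β (zX β px ex r s) (zY β py ey r s) 26 3)) rfl ?_
  refine rco (v := (β 25)) rfl ?_
  refine rco (v := (β 24)) rfl ?_
  refine rco (v := ((zX β px ex r s) * (β 25))) rfl ?_
  refine rco (v := (hr β (zX β px ex r s) 24 2)) rfl ?_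
  refine rco (v := (β 23)) rfl ?_
  refine rco (v := ((zX β px ex r s) * (hr β (zX β px ex r s) 24 2))) rfl ?_
  refine rco (v := (hr β (zX β px ex r s) 23 3)) rfl ?_
  refine rco (v := (β 22)) rfl ?_
  refine rco (v := ((zX β px ex r s) * (hr β (zX β px ex r s) 23 3))) rfl ?_
  refine rco (v := (hr β (zX β px ex r s) 22 4)) rfl ?_
  refine rco (v := (β 21)) rfl ?_
  refine rco (v := ((zX β px ex r s) * (hr β (zX β px ex r s) 22 4))) rfl ?_
  refine rco (v := (hr β (zX β px ex r s) 21 5)) rfl ?_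
  refine rco (v := ((zY β py ey r s) * (hr2 β (zX β px ex r s) (zY β py ey r s) 26 3))) rfl ?_
  refine rco (v := (hr2 β (zX β px ex r s) (zY β py ey r s) 21 4)) rfl ?_
  refine rco (v := (β 20)) rfl ?_
  refine rco (v := (β 19)) rfl ?_
  refine rco (v := ((zX β px ex r s) * (β 20))) rfl ?_
  refine rco (v := (hr β (zX β px ex r s) 19 2)) rfl ?_
  refine rco (v := (β 18)) rfl ?_
  refine rco (v := ((zX β px ex r s) * (hr β (zX β px ex r s) 19 2))) rfl ?_
  refine rco (v := (hr β (zX β px ex r s) 18 3)) rfl ?_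
  refine rco (v := (β 17)) rfl ?_
  refine rco (v := ((zX β px ex r s) * (hr β (zX β px ex r s) 18 3))) rfl ?_
  refine rco (v := (hr β (zX β px ex r s) 17 4)) rfl ?_
  refine rco (v := (β 16)) rfl ?_
  refine rco (v := ((zX β px ex r s) * (hr β (zX β px ex r s) 17 4))) rfl ?_
  refine rco (v := (hr β (zX β px ex r s) 16 5)) rfl ?_
  refine rco (v := (β 15)) rfl ?_
  refine rco (v := ((zX β px ex r s) * (hr β (zX β px ex r s) 16 5))) rfl ?_
  refine rco (v := (hr β (zX β px ex r s) 15 6)) rfl ?_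
  refine rco (v := ((zY β py ey r s) * (hr2 β (zX β px ex r s) (zY β py ey r s) 21 4))) rfl ?_
  refine rco (v := (hr2 β (zX β px ex r s) (zY β py ey r s) 15 5)) rfl ?_
  refine rco (v := (β 14)) rfl ?_
  refine rco (v := (β 13)) rfl ?_
  refine rco (v := ((zX β px ex r s) * (β 14))) rfl ?_
  refine rco (v := (hr β (zX β px ex r s) 13 2)) rfl ?_
  refine rco (v := (β 12)) rfl ?_
  refine rco (v := ((zX β px ex r s) * (hr β (zX β px ex r s) 13 2))) rfl ?_
  refine rco (v := (hr β (zX β px ex r s) 12 3)) rfl ?_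
  refine rco (v := (β 11)) rfl ?_
  refine rco (v := ((zX β px ex r s) * (hr β (zX β px ex r s) 12 3))) rfl ?_
  refine rco (v := (hr β (zX β px ex r s) 11 4)) rfl ?_
  refine rco (v := (β 10)) rfl ?_
  refine rco (v := ((zX β px ex r s) * (hr β (zX β px ex r s) 11 4))) rfl ?_
  refine rco (v := (hr β (zX β px ex r s) 10 5)) rfl ?_
  refine rco (v := (β 9)) rfl ?_
  refine rco (v := ((zX β px ex r s) * (hr β (zX β px ex r s) 10 5))) rfl ?_
  refine rco (v := (hr β (zX β px ex r s) 9 6)) rfl ?_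
  refine rco (v := (β 8)) rfl ?_
  refine rco (v := ((zX β px ex r s) * (hr β (zX β px ex r s) 9 6))) rfl ?_
  refine rco (v := (hr β (zX β px ex r s) 8 7)) rfl ?_
  refine rco (v := ((zY β py ey r s) * (hr2 β (zX β px ex r s) (zY β py ey r s) 15 5))) rfl ?_
  refine rco (v := (hr2 β (zX β px ex r s) (zY β py ey r s) 8 6)) rfl ?_
  refine rco (v := (β 7)) rfl ?_
  refine rco (v := (β 6)) rfl ?_
  refine rco (v := ((zX β px ex r s) * (β 7))) rfl ?_
  refine rco (v := (hr β (zX β px ex r s) 6 2)) rfl ?_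
  refine rco (v := (β 5)) rfl ?_
  refine rco (v := ((zX β px ex r s) * (hr β (zX β px ex r s) 6 2))) rfl ?_
  refine rco (v := (hr β (zX β px ex r s) 5 3)) rfl ?_
  refine rco (v := (β 4)) rfl ?_
  refine rco (v := ((zX β px ex r s) * (hr β (zX β px ex r s) 5 3))) rfl ?_
  refine rco (v := (hr β (zX β px ex r s) 4 4)) rfl ?_
  refine rco (v := (β 3)) rfl ?_
  refine rco (v := ((zX β px ex r s) * (hr β (zX β px ex r s) 4 4))) rfl ?_
  refine rco (v := (hr β (zX β px ex r s) 3 5)) rfl ?_
  refine rco (v := (β 2)) rfl ?_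
  refine rco (v := ((zX β px ex r s) * (hr β (zX β px ex r s) 3 5))) rfl ?_
  refine rco (v := (hr β (zX β px ex r s) 2 6)) rfl ?_
  refine rco (v := (β 1)) rfl ?_
  refine rco (v := ((zX β px ex r s) * (hr β (zX β px ex r s) 2 6))) rfl ?_
  refine rco (v := (hr β (zX β px ex r s) 1 7)) rfl ?_
  refine rco (v := (β 0)) rfl ?_
  refine rco (v := ((zX β px ex r s) * (hr β (zX β px ex r s) 1 7))) rfl ?_
  refine rco (v := (hr β (zX β px ex r s) 0 8)) rfl ?_
  refine rco (v := ((zY β py ey r s) * (hr2 β (zX β px ex r s) (zY β py ey r s) 8 6))) rfl ?_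
  refine rco (v := (hr2 β (zX β px ex r s) (zY β py ey r s) 0 7)) rfl ?_
  refine rco (v := (β 80)) rfl ?_
  refine rco (v := (β 79)) rfl ?_
  refine rco (v := (β 78)) rfl ?_
  refine rco (v := ((zX β px ex r s) * (β 79))) rfl ?_
  refine rco (v := (hr β (zX β px ex r s) 78 2)) rfl ?_
  refine rco (v := ((zY β py ey r s) * (β 80))) rfl ?_
  refine rco (v := (hr2 β (zX β px ex r s) (zY β py ey r s) 78 1)) rfl ?_
  refine rco (v := (β 77)) rfl ?_
  refine rco (v := (β 76)) rfl ?_
  refine rco (v := ((zX β px ex r s) * (β 77))) rfl ?_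
  refine rco (v := (hr β (zX β px ex r s) 76 2)) rfl ?_
  refine rco (v := (β 75)) rfl ?_
  refine rco (v := ((zX β px ex r s) * (hr β (zX β px ex r s) 76 2))) rfl ?_
  refine rco (v := (hr β (zX β px ex r s) 75 3)) rfl ?_
  refine rco (v := ((zY β py ey r s) * (hr2 β (zX β px ex r s) (zY β py ey r s) 78 1))) rfl ?_
  refine rco (v := (hr2 β (zX β px ex r s) (zY β py ey r s) 75 2)) rfl ?_
  refine rco (v := (β 74)) rfl ?_
  refine rco (v := (β 73)) rfl ?_
  refine rco (v := ((zX β px ex r s) * (β 74))) rfl ?_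
  refine rco (v := (hr β (zX β px ex r s) 73 2)) rfl ?_
  refine rco (v := (β 72)) rfl ?_
  refine rco (v := ((zX β px ex r s) * (hr β (zX β px ex r s) 73 2))) rfl ?_
  refine rco (v := (hr β (zX β px ex r s) 72 3)) rfl ?_
  refine rco (v := (β 71)) rfl ?_
  refine rco (v := ((zX β px ex r s) * (hr β (zX β px ex r s) 72 3))) rfl ?_
  refine rco (v := (hr β (zX β px ex r s) 71 4)) rfl ?_
  refine rco (v := ((zY β py ey r s) * (hr2 β (zX β px ex r s) (zY β py ey r s) 75 2))) rfl ?_
  refine rco (v := (hr2 β (zX β px ex r s) (zY β py ey r s) 71 3)) rfl ?_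
  refine rco (v := (β 70)) rfl ?_
  refine rco (v := (β 69)) rfl ?_
  refine rco (v := ((zX β px ex r s) * (β 70))) rfl ?_
  refine rco (v := (hr β (zX β px ex r s) 69 2)) rfl ?_
  refine rco (v := (β 68)) rfl ?_
  refine rco (v := ((zX β px ex r s) * (hr β (zX β px ex r s) 69 2))) rfl ?_
  refine rco (v := (hr β (zX β px ex r s) 68 3)) rfl ?_
  refine rco (v := (β 67)) rfl ?_
  refine rco (v := ((zX β px ex r s) * (hr β (zX β px ex r s) 68 3))) rfl ?_
  refine rco (v := (hr β (zX β px ex r s) 67 4)) rfl ?_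
  refine rco (v := (β 66)) rfl ?_
  refine rco (v := ((zX β px ex r s) * (hr β (zX β px ex r s) 67 4))) rfl ?_
  refine rco (v := (hr β (zX β px ex r s) 66 5)) rfl ?_
  refine rco (v := ((zY β py ey r s) * (hr2 β (zX β px ex r s) (zY β py ey r s) 71 3))) rfl ?_
  refine rco (v := (hr2 β (zX β px ex r s) (zY β py ey r s) 66 4)) rfl ?_
  refine rco (v := (β 65)) rfl ?_
  refine rco (v := (β 64)) rfl ?_
  refine rco (v := ((zX β px ex r s) * (β 65))) rfl ?_
  refine rco (v := (hr β (zX β px ex r s) 64 2)) rfl ?_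
  refine rco (v := (β 63)) rfl ?_
  refine rco (v := ((zX β px ex r s) * (hr β (zX β px ex r s) 64 2))) rfl ?_
  refine rco (v := (hr β (zX β px ex r s) 63 3)) rfl ?_
  refine rco (v := (β 62)) rfl ?_
  refine rco (v := ((zX β px ex r s) * (hr β (zX β px ex r s) 63 3))) rfl ?_
  refine rco (v := (hr β (zX β px ex r s) 62 4)) rfl ?_
  refine rco (v := (β 61)) rfl ?_
  refine rco (v := ((zX β px ex r s) * (hr β (zX β px ex r s) 62 4))) rfl ?_
  refine rco (v := (hr β (zX β px ex r s) 61 5)) rfl ?_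
  refine rco (v := (β 60)) rfl ?_
  refine rco (v := ((zX β px ex r s) * (hr β (zX β px ex r s) 61 5))) rfl ?_
  refine rco (v := (hr β (zX β px ex r s) 60 6)) rfl ?_
  refine rco (v := ((zY β py ey r s) * (hr2 β (zX β px ex r s) (zY β py ey r s) 66 4))) rfl ?_
  refine rco (v := (hr2 β (zX β px ex r s) (zY β py ey r s) 60 5)) rfl ?_
  refine rco (v := (β 59)) rfl ?_
  refine rco (v := (β 58)) rfl ?_
  refine rco (v := ((zX β px ex r s) * (β 59))) rfl ?_
  refine rco (v := (hr β (zX β px ex r s) 58 2)) rfl ?_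
  refine rco (v := (β 57)) rfl ?_
  refine rco (v := ((zX β px ex r s) * (hr β (zX β px ex r s) 58 2))) rfl ?_
  refine rco (v := (hr β (zX β px ex r s) 57 3)) rfl ?_
  refine rco (v := (β 56)) rfl ?_
  refine rco (v := ((zX β px ex r s) * (hr β (zX β px ex r s) 57 3))) rfl ?_
  refine rco (v := (hr β (zX β px ex r s) 56 4)) rfl ?_
  refine rco (v := (β 55)) rfl ?_
  refine rco (v := ((zX β px ex r s) * (hr β (zX β px ex r s) 56 4))) rfl ?_
  refine rco (v := (hr β (zX β px ex r s) 55 5)) rfl ?_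
  refine rco (v := (β 54)) rfl ?_
  refine rco (v := ((zX β px ex r s) * (hr β (zX β px ex r s) 55 5))) rfl ?_
  refine rco (v := (hr β (zX β px ex r s) 54 6)) rfl ?_
  refine rco (v := (β 53)) rfl ?_
  refine rco (v := ((zX β px ex r s) * (hr β (zX β px ex r s) 54 6))) rfl ?_
  refine rco (v := (hr β (zX β px ex r s) 53 7)) rfl ?_
  refine rco (v := ((zY β py ey r s) * (hr2 β (zX β px ex r s) (zY β py ey r s) 60 5))) rfl ?_
  refine rco (v := (hr2 β (zX β px ex r s) (zY β py ey r s) 53 6)) rfl ?_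
  refine rco (v := (β 52)) rfl ?_
  refine rco (v := (β 51)) rfl ?_
  refine rco (v := ((zX β px ex r s) * (β 52))) rfl ?_
  refine rco (v := (hr β (zX β px ex r s) 51 2)) rfl ?_
  refine rco (v := (β 50)) rfl ?_
  refine rco (v := ((zX β px ex r s) * (hr β (zX β px ex r s) 51 2))) rfl ?_
  refine rco (v := (hr β (zX β px ex r s) 50 3)) rfl ?_
  refine rco (v := (β 49)) rfl ?_
  refine rco (v := ((zX β px ex r s) * (hr β (zX β px ex r s) 50 3))) rfl ?_
  refine rco (v := (hr β (zX β px ex r s) 49 4)) rfl ?_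
  refine rco (v := (β 48)) rfl ?_
  refine rco (v := ((zX β px ex r s) * (hr β (zX β px ex r s) 49 4))) rfl ?_
  refine rco (v := (hr β (zX β px ex r s) 48 5)) rfl ?_
  refine rco (v := (β 47)) rfl ?_
  refine rco (v := ((zX β px ex r s) * (hr β (zX β px ex r s) 48 5))) rfl ?_
  refine rco (v := (hr β (zX β px ex r s) 47 6)) rfl ?_
  refine rco (v := (β 46)) rfl ?_
  refine rco (v := ((zX β px ex r s) * (hr β (zX β px ex r s) 47 6))) rfl ?_
  refine rco (v := (hr β (zX β px ex r s) 46 7)) rfl ?_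
  refine rco (v := (β 45)) rfl ?_
  refine rco (v := ((zX β px ex r s) * (hr β (zX β px ex r s) 46 7))) rfl ?_
  refine rco (v := (hr β (zX β px ex r s) 45 8)) rfl ?_
  refine rco (v := ((zY β py ey r s) * (hr2 β (zX β px ex r s) (zY β py ey r s) 53 6))) rfl ?_
  refine rco (v := (hr2 β (zX β px ex r s) (zY β py ey r s) 45 7)) rfl ?_
  refine rco (v := (β 44)) rfl ?_
  refine rco (v := (β 43)) rfl ?_
  refine rco (v := ((zX β px ex r s) * (β 44))) rfl ?_
  refine rco (v := (hr β (zX β px ex r s) 43 2)) rfl ?_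
  refine rco (v := (β 42)) rfl ?_
  refine rco (v := ((zX β px ex r s) * (hr β (zX β px ex r s) 43 2))) rfl ?_
  refine rco (v := (hr β (zX β px ex r s) 42 3)) rfl ?_
  refine rco (v := (β 41)) rfl ?_
  refine rco (v := ((zX β px ex r s) * (hr β (zX β px ex r s) 42 3))) rfl ?_
  refine rco (v := (hr β (zX β px ex r s) 41 4)) rfl ?_
  refine rco (v := (β 40)) rfl ?_
  refine rco (v := ((zX β px ex r s) * (hr β (zX β px ex r s) 41 4))) rfl ?_
  refine rco (v := (hr β (zX β px ex r s) 40 5)) rfl ?_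
  refine rco (v := (β 39)) rfl ?_
  refine rco (v := ((zX β px ex r s) * (hr β (zX β px ex r s) 40 5))) rfl ?_
  refine rco (v := (hr β (zX β px ex r s) 39 6)) rfl ?_
  refine rco (v := (β 38)) rfl ?_
  refine rco (v := ((zX β px ex r s) * (hr β (zX β px ex r s) 39 6))) rfl ?_
  refine rco (v := (hr β (zX β px ex r s) 38 7)) rfl ?_
  refine rco (v := (β 37)) rfl ?_
  refine rco (v := ((zX β px ex r s) * (hr β (zX β px ex r s) 38 7))) rfl ?_
  refine rco (v := (hr β (zX β px ex r s) 37 8)) rfl ?_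
  refine rco (v := (β 36)) rfl ?_
  refine rco (v := ((zX β px ex r s) * (hr β (zX β px ex r s) 37 8))) rfl ?_
  refine rco (v := (hr β (zX β px ex r s) 36 9)) rfl ?_
  refine rco (v := ((zY β py ey r s) * (hr2 β (zX β px ex r s) (zY β py ey r s) 45 7))) rfl ?_
  refine rco (v := (hr2 β (zX β px ex r s) (zY β py ey r s) 36 8)) rfl ?_
  refine rco (v := (β 125)) rfl ?_
  refine rco (v := (β 124)) rfl ?_
  refine rco (v := (β 123)) rfl ?_
  refine rco (v := ((zX β px ex r s) * (β 124))) rfl ?_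
  refine rco (v := (hr β (zX β px ex r s) 123 2)) rfl ?_
  refine rco (v := ((zY β py ey r s) * (β 125))) rfl ?_
  refine rco (v := (hr2 β (zX β px ex r s) (zY β py ey r s) 123 1)) rfl ?_
  refine rco (v := (β 122)) rfl ?_
  refine rco (v := (β 121)) rfl ?_
  refine rco (v := ((zX β px ex r s) * (β 122))) rfl ?_
  refine rco (v := (hr β (zX β px ex r s) 121 2)) rfl ?_
  refine rco (v := (β 120)) rfl ?_
  refine rco (v := ((zX β px ex r s) * (hr β (zX β px ex r s) 121 2))) rfl ?_
  refine rco (v := (hr β (zX β px ex r s) 120 3)) rfl ?_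
  refine rco (v := ((zY β py ey r s) * (hr2 β (zX β px ex r s) (zY β py ey r s) 123 1))) rfl ?_
  refine rco (v := (hr2 β (zX β px ex r s) (zY β py ey r s) 120 2)) rfl ?_
  refine rco (v := (β 119)) rfl ?_
  refine rco (v := (β 118)) rfl ?_
  refine rco (v := ((zX β px ex r s) * (β 119))) rfl ?_
  refine rco (v := (hr β (zX β px ex r s) 118 2)) rfl ?_
  refine rco (v := (β 117)) rfl ?_
  refine rco (v := ((zX β px ex r s) * (hr β (zX β px ex r s) 118 2))) rfl ?_
  refine rco (v := (hr β (zX β px ex r s) 117 3)) rfl ?_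
  refine rco (v := (β 116)) rfl ?_
  refine rco (v := ((zX β px ex r s) * (hr β (zX β px ex r s) 117 3))) rfl ?_
  refine rco (v := (hr β (zX β px ex r s) 116 4)) rfl ?_
  refine rco (v := ((zY β py ey r s) * (hr2 β (zX β px ex r s) (zY β py ey r s) 120 2))) rfl ?_
  refine rco (v := (hr2 β (zX β px ex r s) (zY β py ey r s) 116 3)) rfl ?_
  refine rco (v := (β 115)) rfl ?_
  refine rco (v := (β 114)) rfl ?_
  refine rco (v := ((zX β px ex r s) * (β 115))) rfl ?_
  refine rco (v := (hr β (zX β px ex r s) 114 2)) rfl ?_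
  refine rco (v := (β 113)) rfl ?_
  refine rco (v := ((zX β px ex r s) * (hr β (zX β px ex r s) 114 2))) rfl ?_
  refine rco (v := (hr β (zX β px ex r s) 113 3)) rfl ?_
  refine rco (v := (β 112)) rfl ?_
  refine rco (v := ((zX β px ex r s) * (hr β (zX β px ex r s) 113 3))) rfl ?_
  refine rco (v := (hr β (zX β px ex r s) 112 4)) rfl ?_
  refine rco (v := (β 111)) rfl ?_
  refine rco (v := ((zX β px ex r s) * (hr β (zX β px ex r s) 112 4))) rfl ?_
  refine rco (v := (hr β (zX β px ex r s) 111 5)) rfl ?_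
  refine rco (v := ((zY β py ey r s) * (hr2 β (zX β px ex r s) (zY β py ey r s) 116 3))) rfl ?_
  refine rco (v := (hr2 β (zX β px ex r s) (zY β py ey r s) 111 4)) rfl ?_
  refine rco (v := (β 110)) rfl ?_
  refine rco (v := (β 109)) rfl ?_
  refine rco (v := ((zX β px ex r s) * (β 110))) rfl ?_
  refine rco (v := (hr β (zX β px ex r s) 109 2)) rfl ?_
  refine rco (v := (β 108)) rfl ?_
  refine rco (v := ((zX β px ex r s) * (hr β (zX β px ex r s) 109 2))) rfl ?_
  refine rco (v := (hr β (zX β px ex r s) 108 3)) rfl ?_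
  refine rco (v := (β 107)) rfl ?_
  refine rco (v := ((zX β px ex r s) * (hr β (zX β px ex r s) 108 3))) rfl ?_
  refine rco (v := (hr β (zX β px ex r s) 107 4)) rfl ?_
  refine rco (v := (β 106)) rfl ?_
  refine rco (v := ((zX β px ex r s) * (hr β (zX β px ex r s) 107 4))) rfl ?_
  refine rco (v := (hr β (zX β px ex r s) 106 5)) rfl ?_
  refine rco (v := (β 105)) rfl ?_
  refine rco (v := ((zX β px ex r s) * (hr β (zX β px ex r s) 106 5))) rfl ?_
  refine rco (v := (hr β (zX β px ex r s) 105 6)) rfl ?_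
  refine rco (v := ((zY β py ey r s) * (hr2 β (zX β px ex r s) (zY β py ey r s) 111 4))) rfl ?_
  refine rco (v := (hr2 β (zX β px ex r s) (zY β py ey r s) 105 5)) rfl ?_
  refine rco (v := (β 104)) rfl ?_
  refine rco (v := (β 103)) rfl ?_
  refine rco (v := ((zX β px ex r s) * (β 104))) rfl ?_
  refine rco (v := (hr β (zX β px ex r s) 103 2)) rfl ?_
  refine rco (v := (β 102)) rfl ?_
  refine rco (v := ((zX β px ex r s) * (hr β (zX β px ex r s) 103 2))) rfl ?_
  refine rco (v := (hr β (zX β px ex r s) 102 3)) rfl ?_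
  refine rco (v := (β 101)) rfl ?_
  refine rco (v := ((zX β px ex r s) * (hr β (zX β px ex r s) 102 3))) rfl ?_
  refine rco (v := (hr β (zX β px ex r s) 101 4)) rfl ?_
  refine rco (v := (β 100)) rfl ?_
  refine rco (v := ((zX β px ex r s) * (hr β (zX β px ex r s) 101 4))) rfl ?_
  refine rco (v := (hr β (zX β px ex r s) 100 5)) rfl ?_
  refine rco (v := (β 99)) rfl ?_
  refine rco (v := ((zX β px ex r s) * (hr β (zX β px ex r s) 100 5))) rfl ?_
  refine rco (v := (hr β (zX β px ex r s) 99 6)) rfl ?_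
  refine rco (v := (β 98)) rfl ?_
  refine rco (v := ((zX β px ex r s) * (hr β (zX β px ex r s) 99 6))) rfl ?_
  refine rco (v := (hr β (zX β px ex r s) 98 7)) rfl ?_
  refine rco (v := ((zY β py ey r s) * (hr2 β (zX β px ex r s) (zY β py ey r s) 105 5))) rfl ?_
  refine rco (v := (hr2 β (zX β px ex r s) (zY β py ey r s) 98 6)) rfl ?_
  refine rco (v := (β 97)) rfl ?_
  refine rco (v := (β 96)) rfl ?_
  refine rco (v := ((zX β px ex r s) * (β 97))) rfl ?_
  refine rco (v := (hr β (zX β px ex r s) 96 2)) rfl ?_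
  refine rco (v := (β 95)) rfl ?_
  refine rco (v := ((zX β px ex r s) * (hr β (zX β px ex r s) 96 2))) rfl ?_
  refine rco (v := (hr β (zX β px ex r s) 95 3)) rfl ?_
  refine rco (v := (β 94)) rfl ?_
  refine rco (v := ((zX β px ex r s) * (hr β (zX β px ex r s) 95 3))) rfl ?_
  refine rco (v := (hr β (zX β px ex r s) 94 4)) rfl ?_
  refine rco (v := (β 93)) rfl ?_
  refine rco (v := ((zX β px ex r s) * (hr β (zX β px ex r s) 94 4))) rfl ?_
  refine rco (v := (hr β (zX β px ex r s) 93 5)) rfl ?_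
  refine rco (v := (β 92)) rfl ?_
  refine rco (v := ((zX β px ex r s) * (hr β (zX β px ex r s) 93 5))) rfl ?_
  refine rco (v := (hr β (zX β px ex r s) 92 6)) rfl ?_
  refine rco (v := (β 91)) rfl ?_
  refine rco (v := ((zX β px ex r s) * (hr β (zX β px ex r s) 92 6))) rfl ?_
  refine rco (v := (hr β (zX β px ex r s) 91 7)) rfl ?_
  refine rco (v := (β 90)) rfl ?_
  refine rco (v := ((zX β px ex r s) * (hr β (zX β px ex r s) 91 7))) rfl ?_
  refine rco (v := (hr β (zX β px ex r s) 90 8)) rfl ?_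
  refine rco (v := ((zY β py ey r s) * (hr2 β (zX β px ex r s) (zY β py ey r s) 98 6))) rfl ?_
  refine rco (v := (hr2 β (zX β px ex r s) (zY β py ey r s) 90 7)) rfl ?_
  refine rco (v := (β 89)) rfl ?_
  refine rco (v := (β 88)) rfl ?_
  refine rco (v := ((zX β px ex r s) * (β 89))) rfl ?_
  refine rco (v := (hr β (zX β px ex r s) 88 2)) rfl ?_
  refine rco (v := (β 87)) rfl ?_
  refine rco (v := ((zX β px ex r s) * (hr β (zX β px ex r s) 88 2))) rfl ?_
  refine rco (v := (hr β (zX β px ex r s) 87 3)) rfl ?_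
  refine rco (v := (β 86)) rfl ?_
  refine rco (v := ((zX β px ex r s) * (hr β (zX β px ex r s) 87 3))) rfl ?_
  refine rco (v := (hr β (zX β px ex r s) 86 4)) rfl ?_
  refine rco (v := (β 85)) rfl ?_
  refine rco (v := ((zX β px ex r s) * (hr β (zX β px ex r s) 86 4))) rfl ?_
  refine rco (v := (hr β (zX β px ex r s) 85 5)) rfl ?_
  refine rco (v := (β 84)) rfl ?_
  refine rco (v := ((zX β px ex r s) * (hr β (zX β px ex r s) 85 5))) rfl ?_
  refine rco (v := (hr β (zX β px ex r s) 84 6)) rfl ?_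
  refine rco (v := (β 83)) rfl ?_
  refine rco (v := ((zX β px ex r s) * (hr β (zX β px ex r s) 84 6))) rfl ?_
  refine rco (v := (hr β (zX β px ex r s) 83 7)) rfl ?_
  refine rco (v := (β 82)) rfl ?_
  refine rco (v := ((zX β px ex r s) * (hr β (zX β px ex r s) 83 7))) rfl ?_
  refine rco (v := (hr β (zX β px ex r s) 82 8)) rfl ?_
  refine rco (v := (β 81)) rfl ?_
  refine rco (v := ((zX β px ex r s) * (hr β (zX β px ex r s) 82 8))) rfl ?_
  refine rco (v := (hr β (zX β px ex r s) 81 9)) rfl ?_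
  refine rco (v := ((zY β py ey r s) * (hr2 β (zX β px ex r s) (zY β py ey r s) 90 7))) rfl ?_
  refine rco (v := (hr2 β (zX β px ex r s) (zY β py ey r s) 81 8)) rfl ?_
  refine rco (v := ((((zf β px py ex ey r s) + (zf β px py ex ey r s)) - (1 : ℝ)) * (((zf β px py ex ey r s) + (zf β px py ex ey r s)) - (1 : ℝ)))) rfl ?_
  refine rco (v := ((((R0 : ℝ) / 2 ^ 12) + (((R1 : ℝ) / 2 ^ 12) * r)) * ((((zf β px py ex ey r s) + (zf β px py ex ey r s)) - (1 : ℝ)) * (((zf β px py ex ey r s) + (zf β px py ex ey r s)) - (1 : ℝ))))) rfl ?_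
  refine rco (v := (((((R0 : ℝ) / 2 ^ 12) + (((R1 : ℝ) / 2 ^ 12) * r)) * ((((zf β px py ex ey r s) + (zf β px py ex ey r s)) - (1 : ℝ)) * (((zf β px py ex ey r s) + (zf β px py ex ey r s)) - (1 : ℝ)))) * (zD2 β px py ex ey r s))) rfl ?_
  refine rco (v := (1 / 1048576 : ℝ)) (by norm_num [step, realAlg]) ?_
  refine rco (v := ((hr2 β (zX β px ex r s) (zY β py ey r s) 0 7) - (1 / 1048576 : ℝ))) rfl ?_
  refine rco (v := (137 / 1048576 : ℝ)) (by norm_num [step, realAlg]) ?_
  refine rco (v := ((((zX β px ex r s) * (zX β px ex r s)) + ((zY β py ey r s) * (zY β py ey r s))) * (zD2 β px py ex ey r s))) rfl ?_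
  refine rco (v := ((137 / 1048576 : ℝ) * ((((zX β px ex r s) * (zX β px ex r s)) + ((zY β py ey r s) * (zY β py ey r s))) * (zD2 β px py ex ey r s)))) rfl ?_
  refine rco (v := (((hr2 β (zX β px ex r s) (zY β py ey r s) 0 7) - (1 / 1048576 : ℝ)) - ((137 / 1048576 : ℝ) * ((((zX β px ex r s) * (zX β px ex r s)) + ((zY β py ey r s) * (zY β py ey r s))) * (zD2 β px py ex ey r s))))) rfl ?_
  refine rco (v := ((((((R0 : ℝ) / 2 ^ 12) + (((R1 : ℝ) / 2 ^ 12) * r)) * ((((zf β px py ex ey r s) + (zf β px py ex ey r s)) - (1 : ℝ)) * (((zf β px py ex ey r s) + (zf β px py ex ey r s)) - (1 : ℝ)))) * (zD2 β px py ex ey r s)) * (((hr2 β (zX β px ex r s) (zY β py ey r s) 0 7) - (1 / 1048576 : ℝ)) - ((137 / 1048576 : ℝ) * ((((zX β px ex r s) * (zX β px ex r s)) + ((zY β py ey r s) * (zY β py ey r s))) * (zD2 β px py ex ey r s)))))) rfl ?_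
  refine rco (v := ((hr2 β (zX β px ex r s) (zY β py ey r s) 36 8) * (hr2 β (zX β px ex r s) (zY β py ey r s) 36 8))) rfl ?_
  refine rco (v := ((hr2 β (zX β px ex r s) (zY β py ey r s) 81 8) * (hr2 β (zX β px ex r s) (zY β py ey r s) 81 8))) rfl ?_
  refine rco (v := (((hr2 β (zX β px ex r s) (zY β py ey r s) 36 8) * (hr2 β (zX β px ex r s) (zY β py ey r s) 36 8)) + ((hr2 β (zX β px ex r s) (zY β py ey r s) 81 8) * (hr2 β (zX β px ex r s) (zY β py ey r s) 81 8)))) rfl ?_
  refine rco (v := (1025 / 1024 : ℝ)) (by norm_num [step, realAlg]) ?_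
  refine rco (v := ((((hr2 β (zX β px ex r s) (zY β py ey r s) 36 8) * (hr2 β (zX β px ex r s) (zY β py ey r s) 36 8)) + ((hr2 β (zX β px ex r s) (zY β py ey r s) 81 8) * (hr2 β (zX β px ex r s) (zY β py ey r s) 81 8))) * (1025 / 1024 : ℝ))) rfl ?_
  refine rco (v := (((((((R0 : ℝ) / 2 ^ 12) + (((R1 : ℝ) / 2 ^ 12) * r)) * ((((zf β px py ex ey r s) + (zf β px py ex ey r s)) - (1 : ℝ)) * (((zf β px py ex ey r s) + (zf β px py ex ey r s)) - (1 : ℝ)))) * (zD2 β px py ex ey r s)) * (((hr2 β (zX β px ex r s) (zY β py ey r s) 0 7) - (1 / 1048576 : ℝ)) - ((137 / 1048576 : ℝ) * ((((zX β px ex r s) * (zX β px ex r s)) + ((zY β py ey r s) * (zY β py ey r s))) * (zD2 β px py ex ey r s))))) - ((((hr2 β (zX β px ex r s) (zY β py ey r s) 36 8) * (hr2 β (zX β px ex r s) (zY β py ey r s) 36 8)) + ((hr2 β (zX β px ex r s) (zY β py ey r s) 81 8) * (hr2 β (zX β px ex r s) (zY β py ey r s) 81 8))) * (1025 / 1024 : ℝ)))) rfl ?_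
  refine rco (v := (1 / 33554432 : ℝ)) (by norm_num [step, realAlg]) ?_
  refine rco (v := ((((((((R0 : ℝ) / 2 ^ 12) + (((R1 : ℝ) / 2 ^ 12) * r)) * ((((zf β px py ex ey r s) + (zf β px py ex ey r s)) - (1 : ℝ)) * (((zf β px py ex ey r s) + (zf β px py ex ey r s)) - (1 : ℝ)))) * (zD2 β px py ex ey r s)) * (((hr2 β (zX β px ex r s) (zY β py ey r s) 0 7) - (1 / 1048576 : ℝ)) - ((137 / 1048576 : ℝ) * ((((zX β px ex r s) * (zX β px ex r s)) + ((zY β py ey r s) * (zY β py ey r s))) * (zD2 β px py ex ey r s))))) - ((((hr2 β (zX β px ex r s) (zY β py ey r s) 36 8) * (hr2 β (zX β px ex r s) (zY β py ey r s) 36 8)) + ((hr2 β (zX β px ex r s) (zY β py ey r s) 81 8) * (hr2 β (zX β px ex r s) (zY β py ey r s) 81 8))) * (1025 / 1024 : ℝ))) - (1 / 33554432 : ℝ))) rfl ?_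
  rfl

theorem qZF2_val (β : ℕ → ℝ) (r s : ℝ) (px py ex ey R0 R1 : Int) (k : ℕ) :
    (qZF2 px py ex ey R0 R1).val (realAlg β r s) k = get2 0
      [vZF2_F β px py ex ey R0 R1 r s] k := by
  unfold Prg.val
  rw [(qZF2 px py ex ey R0 R1).h]
  show get2 0 (outs (realAlg β r s) (pZF2 px py ex ey R0 R1) [0]) k = _
  rw [pZF2_val]

end Pool.H61.Rh
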