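import Pool.Agent.H81.Lv.Tree
import Pool.Agent.H81.Lv.PZF0
import Pool.Agent.H81.Lv.PZF1
import Pool.Agent.H81.Lv.PZF2
import Pool.Agent.H81.Lv.PZB0
import Pool.Agent.H81.Lv.PZB1
import Pool.Agent.H81.Lv.PZB2
import Pool.Agent.H81.Lv.PZA0
import Pool.Agent.H81.Lv.PZA1
import Pool.Agent.H81.Lv.PZA2

/-! # Zc: the checks of the zones and their soundness -/

set_option autoImplicit false

namespace Pool.H61.Rh

open Pool.H47.Kc Pool.H47.K3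

/-- a tree with several outputs -/
theorem BT.sound_val {S : Nat → Sym} {Q : Prg} {g : Dg} {l : List Nat} {q : Nat} {T : BT} {B : Bx}
    (h : T.chk (fun U V => posV U S Q g l V) q B = true) {t x y : ℝ} (hi : B.In t x y)
    {β : ℕ → ℝ} (hβ : EnclF S t β) :
    (∀ k ∈ l, 0 ≤ Q.val (realAlg β x y) k) ∨ (1 ≤ q ∧ 3 / 4 ≤ t ∧ x * 128 ≤ q) := by
  have := BT.sound (P := fun t x y => ∀ β, EnclF S t β → ∀ k ∈ l, 0 ≤ Q.val (realAlg β x y) k)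
    (f := fun U V => posV U S Q g l V) (q := q)
    (fun U V hUV t x y hm β hβ k hk => posV_sound U S Q g l V hUV t x y hm β hβ k hk) T B h t x y hi
  exact this.imp (fun h => h β hβ) id

/-- main inequality, vertex 0 -/
noncomputable def fF0 (S : Nat → Sym) (g : Dg) (d : ZD) (B : Bx) : Bool :=
  d.TF.chk (fun U V => posV U S (qZF0 d.px d.py d.ex d.ey d.R0 d.R1) g [0] V) d.q B

/-- `Q, W`, vertex 0 -/
noncomputable def fB0 (S : Nat → Sym) (g : Dg) (d : ZD) (B : Bx) : Bool :=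
  d.TB.chk (fun U V =>
    posV U S (qZB0 d.px d.py d.ex d.ey d.lam d.K0 d.K1 d.Ph d.Qb) g [0, 1] V) 0 B

/-- `C0, C1, P1, P2, H`, vertex 0 -/
noncomputable def fA0 (S : Nat → Sym) (g : Dg) (d : ZD) (B : Bx) : Bool :=
  d.TA.chk (fun U V => posV U S (qZA0 d.px d.py d.ex d.ey d.cb d.pb d.hb) g
    (cond d.far [0, 1, 2, 3] [0, 1, 2, 3, 4]) V) 0 B

theorem fF0_sound {S : Nat → Sym} {g : Dg} {d : ZD} {B : Bx} (h : fF0 S g d B = true)
    {t r s : ℝ} (hi : B.In t r s) {β : ℕ → ℝ} (hβ : EnclF S t β) :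
    0 ≤ vZF0_F β d.px d.py d.ex d.ey d.R0 d.R1 r s ∨ (1 ≤ d.q ∧ 3 / 4 ≤ t ∧ r * 128 ≤ d.q) := by
  refine (BT.sound_val h hi hβ).imp (fun h => ?_) id
  have := h 0 (by simp)
  rw [qZF0_val] at this
  exact this

theorem fB0_sound {S : Nat → Sym} {g : Dg} {d : ZD} {B : Bx} (h : fB0 S g d B = true)
    {t r s : ℝ} (hi : B.In t r s) {β : ℕ → ℝ} (hβ : EnclF S t β) :
    0 ≤ vZB0_Q β d.px d.py d.ex d.ey d.lam d.K0 d.K1 d.Ph d.Qb r s ∧
      0 ≤ vZB0_W β d.px d.py d.ex d.ey d.lam d.K0 d.K1 d.Ph d.Qb r s := by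
  rcases BT.sound_val h hi hβ with h | ⟨h, _⟩
  · have h0 := h 0 (by simp)
    have h1 := h 1 (by simp)
    rw [qZB0_val] at h0 h1
    exact ⟨h0, h1⟩
  · exact absurd h (by norm_num)

theorem fA0_sound {S : Nat → Sym} {g : Dg} {d : ZD} {B : Bx} (h : fA0 S g d B = true)
    {t r s : ℝ} (hi : B.In t r s) {β : ℕ → ℝ} (hβ : EnclF S t β) :
    0 ≤ vZA0_C0 β d.px d.py d.ex d.ey d.cb d.pb d.hb r s ∧
      0 ≤ vZA0_C1 β d.px d.py d.ex d.ey d.cb d.pb d.hb r s ∧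
      0 ≤ vZA0_P1 β d.px d.py d.ex d.ey d.cb d.pb d.hb r s ∧
      0 ≤ vZA0_P2 β d.px d.py d.ex d.ey d.cb d.pb d.hb r s ∧
      (d.far = false → 0 ≤ vZA0_H β d.px d.py d.ex d.ey d.cb d.pb d.hb r s) := by
  rcases BT.sound_val h hi hβ with h | ⟨h, _⟩
  · have hk : ∀ k < 4, k ∈ (cond d.far [0, 1, 2, 3] [0, 1, 2, 3, 4] : List ℕ) := by
      intro k hk
      cases d.far <;> simp <;> omega
    have h0 := h 0 (hk 0 (by norm_num))
    have h1 := h 1 (hk 1 (by norm_num))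
    have h2 := h 2 (hk 2 (by norm_num))
    have h3 := h 3 (hk 3 (by norm_num))
    have h4 : d.far = false → 0 ≤ (qZA0 d.px d.py d.ex d.ey d.cb d.pb d.hb).val
        (realAlg β r s) 4 := fun hf => h 4 (by rw [hf]; simp)
    rw [qZA0_val] at h0 h1 h2 h3 h4
    exact ⟨h0, h1, h2, h3, h4⟩
  · exact absurd h (by norm_num)

/-- main inequality, vertex 1 -/
noncomputable def fF1 (S : Nat → Sym) (g : Dg) (d : ZD) (B : Bx) : Bool :=
  d.TF.chk (fun U V => posV U S (qZF1 d.px d.py d.ex d.ey d.R0 d.R1) g [0] V) d.q B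

/-- `Q, W`, vertex 1 -/
noncomputable def fB1 (S : Nat → Sym) (g : Dg) (d : ZD) (B : Bx) : Bool :=
  d.TB.chk (fun U V =>
    posV U S (qZB1 d.px d.py d.ex d.ey d.lam d.K0 d.K1 d.Ph d.Qb) g [0, 1] V) 0 B

/-- `C0, C1, P1, P2, H`, vertex 1 -/
noncomputable def fA1 (S : Nat → Sym) (g : Dg) (d : ZD) (B : Bx) : Bool :=
  d.TA.chk (fun U V => posV U S (qZA1 d.px d.py d.ex d.ey d.cb d.pb d.hb) g
    (cond d.far [0, 1, 2, 3] [0, 1, 2, 3, 4]) V) 0 B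

theorem fF1_sound {S : Nat → Sym} {g : Dg} {d : ZD} {B : Bx} (h : fF1 S g d B = true)
    {t r s : ℝ} (hi : B.In t r s) {β : ℕ → ℝ} (hβ : EnclF S t β) :
    0 ≤ vZF1_F β d.px d.py d.ex d.ey d.R0 d.R1 r s ∨ (1 ≤ d.q ∧ 3 / 4 ≤ t ∧ r * 128 ≤ d.q) := by
  refine (BT.sound_val h hi hβ).imp (fun h => ?_) id
  have := h 0 (by simp)
  rw [qZF1_val] at this
  exact this

theorem fB1_sound {S : Nat → Sym} {g : Dg} {d : ZD} {B : Bx} (h : fB1 S g d B = true)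
    {t r s : ℝ} (hi : B.In t r s) {β : ℕ → ℝ} (hβ : EnclF S t β) :
    0 ≤ vZB1_Q β d.px d.py d.ex d.ey d.lam d.K0 d.K1 d.Ph d.Qb r s ∧
      0 ≤ vZB1_W β d.px d.py d.ex d.ey d.lam d.K0 d.K1 d.Ph d.Qb r s := by
  rcases BT.sound_val h hi hβ with h | ⟨h, _⟩
  · have h0 := h 0 (by simp)
    have h1 := h 1 (by simp)
    rw [qZB1_val] at h0 h1
    exact ⟨h0, h1⟩
  · exact absurd h (by norm_num)

theorem fA1_sound {S : Nat → Sym} {g : Dg} {d : ZD} {B : Bx} (h : fA1 S g d B = true)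
    {t r s : ℝ} (hi : B.In t r s) {β : ℕ → ℝ} (hβ : EnclF S t β) :
    0 ≤ vZA1_C0 β d.px d.py d.ex d.ey d.cb d.pb d.hb r s ∧
      0 ≤ vZA1_C1 β d.px d.py d.ex d.ey d.cb d.pb d.hb r s ∧
      0 ≤ vZA1_P1 β d.px d.py d.ex d.ey d.cb d.pb d.hb r s ∧
      0 ≤ vZA1_P2 β d.px d.py d.ex d.ey d.cb d.pb d.hb r s ∧
      (d.far = false → 0 ≤ vZA1_H β d.px d.py d.ex d.ey d.cb d.pb d.hb r s) := by
  rcases BT.sound_val h hi hβ with h | ⟨h, _⟩
  · have hk : ∀ k < 4, k ∈ (cond d.far [0, 1, 2, 3] [0, 1, 2, 3, 4] : List ℕ) := by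
      intro k hk
      cases d.far <;> simp <;> omega
    have h0 := h 0 (hk 0 (by norm_num))
    have h1 := h 1 (hk 1 (by norm_num))
    have h2 := h 2 (hk 2 (by norm_num))
    have h3 := h 3 (hk 3 (by norm_num))
    have h4 : d.far = false → 0 ≤ (qZA1 d.px d.py d.ex d.ey d.cb d.pb d.hb).val
        (realAlg β r s) 4 := fun hf => h 4 (by rw [hf]; simp)
    rw [qZA1_val] at h0 h1 h2 h3 h4
    exact ⟨h0, h1, h2, h3, h4⟩
  · exact absurd h (by norm_num)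

/-- main inequality, vertex 2 -/
noncomputable def fF2 (S : Nat → Sym) (g : Dg) (d : ZD) (B : Bx) : Bool :=
  d.TF.chk (fun U V => posV U S (qZF2 d.px d.py d.ex d.ey d.R0 d.R1) g [0] V) d.q B

/-- `Q, W`, vertex 2 -/
noncomputable def fB2 (S : Nat → Sym) (g : Dg) (d : ZD) (B : Bx) : Bool :=
  d.TB.chk (fun U V =>
    posV U S (qZB2 d.px d.py d.ex d.ey d.lam d.K0 d.K1 d.Ph d.Qb) g [0, 1] V) 0 B

/-- `C0, C1, P1, P2, H`, vertex 2 -/
noncomputable def fA2 (S : Nat → Sym) (g : Dg) (d : ZD) (B : Bx) : Bool :=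
  d.TA.chk (fun U V => posV U S (qZA2 d.px d.py d.ex d.ey d.cb d.pb d.hb) g
    (cond d.far [0, 1, 2, 3] [0, 1, 2, 3, 4]) V) 0 B

theorem fF2_sound {S : Nat → Sym} {g : Dg} {d : ZD} {B : Bx} (h : fF2 S g d B = true)
    {t r s : ℝ} (hi : B.In t r s) {β : ℕ → ℝ} (hβ : EnclF S t β) :
    0 ≤ vZF2_F β d.px d.py d.ex d.ey d.R0 d.R1 r s ∨ (1 ≤ d.q ∧ 3 / 4 ≤ t ∧ r * 128 ≤ d.q) := by
  refine (BT.sound_val h hi hβ).imp (fun h => ?_) id
  have := h 0 (by simp)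
  rw [qZF2_val] at this
  exact this

theorem fB2_sound {S : Nat → Sym} {g : Dg} {d : ZD} {B : Bx} (h : fB2 S g d B = true)
    {t r s : ℝ} (hi : B.In t r s) {β : ℕ → ℝ} (hβ : EnclF S t β) :
    0 ≤ vZB2_Q β d.px d.py d.ex d.ey d.lam d.K0 d.K1 d.Ph d.Qb r s ∧
      0 ≤ vZB2_W β d.px d.py d.ex d.ey d.lam d.K0 d.K1 d.Ph d.Qb r s := by
  rcases BT.sound_val h hi hβ with h | ⟨h, _⟩
  · have h0 := h 0 (by simp)
    have h1 := h 1 (by simp)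
    rw [qZB2_val] at h0 h1
    exact ⟨h0, h1⟩
  · exact absurd h (by norm_num)

theorem fA2_sound {S : Nat → Sym} {g : Dg} {d : ZD} {B : Bx} (h : fA2 S g d B = true)
    {t r s : ℝ} (hi : B.In t r s) {β : ℕ → ℝ} (hβ : EnclF S t β) :
    0 ≤ vZA2_C0 β d.px d.py d.ex d.ey d.cb d.pb d.hb r s ∧
      0 ≤ vZA2_C1 β d.px d.py d.ex d.ey d.cb d.pb d.hb r s ∧
      0 ≤ vZA2_P1 β d.px d.py d.ex d.ey d.cb d.pb d.hb r s ∧
      0 ≤ vZA2_P2 β d.px d.py d.ex d.ey d.cb d.pb d.hb r s ∧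
      (d.far = false → 0 ≤ vZA2_H β d.px d.py d.ex d.ey d.cb d.pb d.hb r s) := by
  rcases BT.sound_val h hi hβ with h | ⟨h, _⟩
  · have hk : ∀ k < 4, k ∈ (cond d.far [0, 1, 2, 3] [0, 1, 2, 3, 4] : List ℕ) := by
      intro k hk
      cases d.far <;> simp <;> omega
    have h0 := h 0 (hk 0 (by norm_num))
    have h1 := h 1 (hk 1 (by norm_num))
    have h2 := h 2 (hk 2 (by norm_num))
    have h3 := h 3 (hk 3 (by norm_num))
    have h4 : d.far = false → 0 ≤ (qZA2 d.px d.py d.ex d.ey d.cb d.pb d.hb).val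
        (realAlg β r s) 4 := fun hf => h 4 (by rw [hf]; simp)
    rw [qZA2_val] at h0 h1 h2 h3 h4
    exact ⟨h0, h1, h2, h3, h4⟩
  · exact absurd h (by norm_num)

end Pool.H61.Rh
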