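import Pool.Agent.H81.Lv.Zi
import Pool.Agent.H81.Lv.Zc
import Pool.Agent.H61.Rz.Ax4

/-! # Yt: the centre of the sectors is close to `oy m` -/

set_option autoImplicit false
set_option maxRecDepth 100000

namespace Pool.H61.Rh

open Complex Pool.H47.Kc Pool.H47.K3

/-- `c - |ys - yt|²` -/
def pYt : List Op :=
  [.base 128, .base 134, .sub 1 0, .mul 0 0, .base 129, .base 135, .sub 1 0, .mul 0 0, .add 4 0,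
   .cst 4358908 40, .sub 0 1]

def qYt : Prg :=
  ⟨pYt, [0], fun {_} A =>
    let v0 := A.base 128
    let v1 := A.base 134
    let v2 := A.sub v0 v1
    let v3 := A.mul v2 v2
    let v4 := A.base 129
    let v5 := A.base 135
    let v6 := A.sub v4 v5
    let v7 := A.mul v6 v6
    let v8 := A.add v3 v7
    let v9 := A.cst 4358908 40
    [A.sub v9 v8], fun {_} _ => rfl⟩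

def tYt : BT :=
  .nd 0 64 (.nd 0 32 (.nd 0 16 (.nd 0 8 (.nd 0 4 (.leaf ⟨6, 1, 1, 1, 600⟩ ⟨0, 0, 0, 0, 1, 1, 1, 1⟩) (.leaf ⟨6, 3, 1, 1, 600⟩ ⟨0, 0, 0, 0, 1, 1, 1, 1⟩)) (.nd 0 12 (.leaf ⟨6, 5, 1, 1, 600⟩ ⟨0, 0, 0, 0, 1, 1, 1, 1⟩) (.leaf ⟨6, 7, 1, 1, 600⟩ ⟨0, 0, 0, 0, 1, 1, 1, 1⟩))) (.nd 0 24 (.nd 0 20 (.leaf ⟨6, 9, 1, 1, 600⟩ ⟨0, 0, 0, 0, 1, 1, 1, 1⟩) (.leaf ⟨6, 11, 1, 1, 600⟩ ⟨0, 0, 0, 0, 1, 1, 1, 1⟩)) (.nd 0 28 (.leaf ⟨6, 13, 1, 1, 600⟩ ⟨0, 0, 0, 0, 1, 1, 1, 1⟩) (.leaf ⟨6, 15, 1, 1, 600⟩ ⟨0, 0, 0, 0, 1, 1, 1, 1⟩)))) (.nd 0 48 (.nd 0 40 (.nd 0 36 (.leaf ⟨6, 17, 1, 1, 600⟩ ⟨0, 0, 0, 0, 1, 1, 1, 1⟩) (.leaf ⟨6, 19, 1, 1, 600⟩ ⟨0, 0, 0, 0, 1, 1, 1, 1⟩)) (.nd 0 44 (.leaf ⟨6, 21, 1, 1, 600⟩ ⟨0, 0, 0, 0, 1, 1, 1, 1⟩)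 (.leaf ⟨6, 23, 1, 1, 600⟩ ⟨0, 0, 0, 0, 1, 1, 1, 1⟩))) (.nd 0 56 (.nd 0 52 (.leaf ⟨6, 25, 1, 1, 600⟩ ⟨0, 0, 0, 0, 1, 1, 1, 1⟩) (.leaf ⟨6, 27, 1, 1, 600⟩ ⟨0, 0, 0, 0, 1, 1, 1, 1⟩)) (.nd 0 60 (.leaf ⟨6, 29, 1, 1, 600⟩ ⟨0, 0, 0, 0, 1, 1, 1, 1⟩) (.leaf ⟨6, 31, 1, 1, 600⟩ ⟨0, 0, 0, 0, 1, 1, 1, 1⟩))))) (.nd 0 96 (.nd 0 80 (.nd 0 72 (.nd 0 68 (.leaf ⟨6, 33, 1, 1, 600⟩ ⟨0, 0, 0, 0, 1, 1, 1, 1⟩) (.leaf ⟨6, 35, 1, 1, 600⟩ ⟨0, 0, 0, 0, 1, 1, 1, 1⟩)) (.nd 0 76 (.leaf ⟨6, 37, 1, 1, 600⟩ ⟨0, 0, 0, 0, 1, 1, 1, 1⟩) (.leaf ⟨6, 39, 1, 1, 600⟩ ⟨0, 0, 0, 0, 1, 1, 1, 1⟩))) (.nd 0 88 (.nd 0 84 (.leaf ⟨6, 41, 1, 1, 600⟩ ⟨0, 0, 0, 0, 1, 1, 1, 1⟩) (.leaf ⟨6, 43, 1, 1, 600⟩ ⟨0, 0, 0, 0, 1, 1, 1, 1⟩)) (.nd 0 92 (.leaf ⟨6, 45, 1, 1, 600⟩ ⟨0,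 0, 0, 0, 1, 1, 1, 1⟩) (.leaf ⟨6, 47, 1, 1, 600⟩ ⟨0, 0, 0, 0, 1, 1, 1, 1⟩)))) (.nd 0 112 (.nd 0 104 (.nd 0 100 (.leaf ⟨6, 49, 1, 1, 600⟩ ⟨0, 0, 0, 0, 1, 1, 1, 1⟩) (.leaf ⟨6, 51, 1, 1, 600⟩ ⟨0, 0, 0, 0, 1, 1, 1, 1⟩)) (.nd 0 108 (.leaf ⟨6, 53, 1, 1, 600⟩ ⟨0, 0, 0, 0, 1, 1, 1, 1⟩) (.leaf ⟨6, 55, 1, 1, 600⟩ ⟨0, 0, 0, 0, 1, 1, 1, 1⟩))) (.nd 0 120 (.nd 0 116 (.leaf ⟨6, 57, 1, 1, 600⟩ ⟨0, 0, 0, 0, 1, 1, 1, 1⟩) (.leaf ⟨6, 59, 1, 1, 600⟩ ⟨0, 0, 0, 0, 1, 1, 1, 1⟩)) (.nd 0 124 (.leaf ⟨6, 61, 1, 1, 600⟩ ⟨0, 0, 0, 0, 1, 1, 1, 1⟩) (.leaf ⟨6, 63, 1, 1, 600⟩ ⟨0, 0, 0, 0, 1, 1, 1, 1⟩)))))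

theorem cYt : tYt.chk (fun U V => posV U SA0R qYt ⟨16, 1, 1⟩ [0] V) 0 ⟨0, 128, 0, 0, 0, 0⟩ = true := by
  decide +kernel

theorem qYt_val (β : ℕ → ℝ) : qYt.val (realAlg β 0 0) 0 =
    ((4358908 : ℤ) : ℝ) / 2 ^ 40 - ((β 128 - β 134) * (β 128 - β 134) +
      (β 129 - β 135) * (β 129 - β 135)) := rfl

theorem yt_close {m : ℝ} (m0 : 0 ≤ m) (mm : m ≤ m1) :
    ‖ytz (m / m1) - oy m‖ ≤ (kpz - 1) * (325 / 1000) := by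
  obtain ⟨t0, t1, -, -, -⟩ := th_mem m0 mm
  have hi : (⟨0, 128, 0, 0, 0, 0⟩ : Bx).In (m / m1) 0 0 := by
    refine ⟨⟨?_, ?_⟩, ⟨?_, ?_⟩, ?_, ?_⟩ <;> norm_num
    · exact t0
    · linarith
  have hb := bz_hd SA0R (dA.pt m) (m / m1)
  have hE : EnclF SA0R (m / m1) (bz SA0R (dA.pt m) (m / m1)) :=
    bz_encl (L := SA0R_L) rfl rfl (hdA_ok (enA m0 mm))
  rcases BT.sound_val cYt hi hE with h | ⟨h, -⟩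
  · have h1 := h 0 (by simp)
    rw [qYt_val, hb.h0, hb.h1, hb.h6, hb.h7] at h1
    have e1 : (dA.pt m).ys = oy m := rfl
    rw [e1] at h1
    have h2 : ‖ytz (m / m1) - oy m‖ ^ 2 ≤ ((kpz - 1) * (325 / 1000)) ^ 2 := by
      rw [← normSq_eq_norm_sq, normSq_apply, sub_re, sub_im]
      have e2 : (((4358908 : ℤ) : ℝ) / 2 ^ 40) ≤ ((kpz - 1) * (325 / 1000)) ^ 2 := by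
        unfold kpz; norm_num
      nlinarith
    exact le_of_sq_le_sq h2 (by unfold kpz; norm_num)
  · exact absurd h (by norm_num)

theorem yt_box {θ : ℝ} (t0 : 0 ≤ θ) (t1 : θ ≤ 1) : CB (ytz θ) := by
  have e1 : (ytz θ).re = (-1116 + 108 * θ) / 2 ^ 13 := rfl
  have e2 : (ytz θ).im = (6 + 1719 * θ) / 2 ^ 13 := rfl
  unfold CB
  rw [e1, e2]
  refine ⟨?_, ?_, ?_, ?_⟩ <;> norm_num <;> linarith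

/-- the property of the centre -/
def YtOk : Prop := ∀ m, 0 ≤ m → m ≤ m1 →
  CB (ytz (m / m1)) ∧ ‖ytz (m / m1) - oy m‖ ≤ (kpz - 1) * (325 / 1000)

theorem ytOk : YtOk := by
  intro m m0 mm
  obtain ⟨t0, t1, -, -, -⟩ := th_mem m0 mm
  exact ⟨yt_box t0 t1, yt_close m0 mm⟩

end Pool.H61.Rh
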