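import Pool.Agent.H61.Rz.SyA
import Pool.Agent.H81.Lv.LA0E
import Pool.Agent.H81.Lv.LA0R
import Pool.Agent.H81.Lv.LA1E
import Pool.Agent.H81.Lv.LA1R
import Pool.Agent.H81.Lv.LA2E
import Pool.Agent.H81.Lv.LA2R

/-! # generated: symbol tables of the zones, data A -/

set_option autoImplicit false

namespace Pool.H61.Rh

open Pool.H47.Kc Pool.H47.K3

/-- head symbols: `y*` (2), `f*`, `n*` (2), `√3`, `yt` (2), `.957`, `.493` -/
noncomputable def hdA : List Sym :=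
  [SyA 0, SyA 1, SyA 15, SyA 5, SyA 6, SyA 78,
   ⟨[⟨.negSucc 278, 11⟩, ⟨.ofNat 27, 11⟩], 0⟩, ⟨[⟨.ofNat 3, 12⟩, ⟨.ofNat 1719, 13⟩], 0⟩,
   SyA 79, SyA 80]

noncomputable def SA0E_L : List (List Sym) :=
  [LA0E_0, LA0E_1, LA0E_2, LA0E_3, LA0E_4, LA0E_5, LA0E_6, LA0E_7, hdA]

noncomputable def SA0E (i : Nat) : Sym := sym16 SA0E_L i

noncomputable def SA0R_L : List (List Sym) :=
  [LA0R_0, LA0R_1, LA0R_2, LA0R_3, LA0R_4, LA0R_5, LA0R_6, [], hdA]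

noncomputable def SA0R (i : Nat) : Sym := sym16 SA0R_L i

noncomputable def SA1E_L : List (List Sym) :=
  [LA1E_0, LA1E_1, LA1E_2, LA1E_3, LA1E_4, LA1E_5, LA1E_6, LA1E_7, hdA]

noncomputable def SA1E (i : Nat) : Sym := sym16 SA1E_L i

noncomputable def SA1R_L : List (List Sym) :=
  [LA1R_0, LA1R_1, LA1R_2, LA1R_3, LA1R_4, LA1R_5, LA1R_6, [], hdA]

noncomputable def SA1R (i : Nat) : Sym := sym16 SA1R_L i

noncomputable def SA2E_L : List (List Sym) :=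
  [LA2E_0, LA2E_1, LA2E_2, LA2E_3, LA2E_4, LA2E_5, LA2E_6, LA2E_7, hdA]

noncomputable def SA2E (i : Nat) : Sym := sym16 SA2E_L i

noncomputable def SA2R_L : List (List Sym) :=
  [LA2R_0, LA2R_1, LA2R_2, LA2R_3, LA2R_4, LA2R_5, LA2R_6, [], hdA]

noncomputable def SA2R (i : Nat) : Sym := sym16 SA2R_L i

end Pool.H61.Rh
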