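import Pool.Agent.H61.Rz.SyB
import Pool.Agent.H81.Lv.LB0E
import Pool.Agent.H81.Lv.LB0R
import Pool.Agent.H81.Lv.LB1E
import Pool.Agent.H81.Lv.LB1R
import Pool.Agent.H81.Lv.LB2E
import Pool.Agent.H81.Lv.LB2R

/-! # generated: symbol tables of the zones, data B -/

set_option autoImplicit false

namespace Pool.H61.Rh

open Pool.H47.Kc Pool.H47.K3

/-- head symbols: `y*` (2), `f*`, `n*` (2), `√3`, `yt` (2), `.957`, `.493` -/
noncomputable def hdB : List Sym :=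
  [SyB 0, SyB 1, SyB 15, SyB 5, SyB 6, SyB 78,
   ⟨[⟨.negSucc 278, 11⟩, ⟨.ofNat 27, 11⟩], 0⟩, ⟨[⟨.ofNat 3, 12⟩, ⟨.ofNat 1719, 13⟩], 0⟩,
   SyB 79, SyB 80]

noncomputable def SB0E_L : List (List Sym) :=
  [LB0E_0, LB0E_1, LB0E_2, LB0E_3, LB0E_4, LB0E_5, LB0E_6, LB0E_7, hdB]

noncomputable def SB0E (i : Nat) : Sym := sym16 SB0E_L i

noncomputable def SB0R_L : List (List Sym) :=
  [LB0R_0, LB0R_1, LB0R_2, LB0R_3, LB0R_4, LB0R_5, LB0R_6, [], hdB]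

noncomputable def SB0R (i : Nat) : Sym := sym16 SB0R_L i

noncomputable def SB1E_L : List (List Sym) :=
  [LB1E_0, LB1E_1, LB1E_2, LB1E_3, LB1E_4, LB1E_5, LB1E_6, LB1E_7, hdB]

noncomputable def SB1E (i : Nat) : Sym := sym16 SB1E_L i

noncomputable def SB1R_L : List (List Sym) :=
  [LB1R_0, LB1R_1, LB1R_2, LB1R_3, LB1R_4, LB1R_5, LB1R_6, [], hdB]

noncomputable def SB1R (i : Nat) : Sym := sym16 SB1R_L i

noncomputable def SB2E_L : List (List Sym) :=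
  [LB2E_0, LB2E_1, LB2E_2, LB2E_3, LB2E_4, LB2E_5, LB2E_6, LB2E_7, hdB]

noncomputable def SB2E (i : Nat) : Sym := sym16 SB2E_L i

noncomputable def SB2R_L : List (List Sym) :=
  [LB2R_0, LB2R_1, LB2R_2, LB2R_3, LB2R_4, LB2R_5, LB2R_6, [], hdB]

noncomputable def SB2R (i : Nat) : Sym := sym16 SB2R_L i

end Pool.H61.Rh
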