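import Pool.Agent.H81.Zn.TA0
import Pool.Agent.H81.Zn.TA1
import Pool.Agent.H81.Zn.TA2
import Pool.Agent.H81.Zn.TB0
import Pool.Agent.H81.Zn.TB1
import Pool.Agent.H81.Zn.TB2
import Pool.Agent.H81.Lv.Yt
import Pool.Agent.H61.Rz.Ax5
import Pool.Agent.H61.Rz.Fin

/-! # Zh: the inequalities of the zones for the two data -/

set_option autoImplicit false

namespace Pool.H61.Rh

open Complex Pool.H47.Kc Pool.H47.K3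

theorem kpz_ge : 1 ≤ kpz := by unfold kpz; norm_num

/-- the points of the near zone -/
theorem near_pt (hyt : YtOk) {m : ℝ} (m0 : 3 / 4 * m1 ≤ m) (mm : m ≤ m1) (l : Fin 12) {r s : ℝ}
    (r0 : 0 ≤ r) (s0 : 0 ≤ s) (s1 : s ≤ 1) {x : ℂ}
    (hx : x = (r : ℂ) * xk kpz (ytz (m / m1)) l s)
    (hr : r * (Kx l + (kpz - 1) * (5 / 4)) ≤ 1 / 16) : |x.re| ≤ 1 / 16 ∧ |x.im| ≤ 1 / 16 := by
  have h0 : 0 ≤ m := by have := m1_bounds.1; linarith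
  have hb := xk_bound kpz_ge (hyt m h0 mm).2 m0 mm l s0 s1
  constructor
  · rw [hx, Complex.re_ofReal_mul, abs_mul, abs_of_nonneg r0]
    exact (mul_le_mul_of_nonneg_left hb.1 r0).trans hr
  · rw [hx, Complex.im_ofReal_mul, abs_mul, abs_of_nonneg r0]
    exact (mul_le_mul_of_nonneg_left hb.2 r0).trans hr

theorem nmA0E (P : Pt) (θ : ℝ) (k : ℕ) (hk : k < 128) :
    bz SA0E P θ k = nomF LA0E θ k :=
  bz_nom (L := SA0E_L) (L' := LA0E_L) (fun q hq => by interval_cases q <;> rfl) P θ k hk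

theorem nmA0R (P : Pt) (θ : ℝ) (k : ℕ) (hk : k < 128) :
    bz SA0R P θ k = nomF LA0R θ k :=
  bz_nom (L := SA0R_L) (L' := LA0R_L) (fun q hq => by interval_cases q <;> rfl) P θ k hk

theorem hzA0 {m : ℝ} (m0 : 0 ≤ m) (mm : m ≤ m1) (l : Fin 12) {r s : ℝ} (r0 : 0 ≤ r)
    (r1 : r ≤ 1) (s0 : 0 ≤ s) (s1 : s ≤ 1) (x : ℂ)
    (hx : x = (r : ℂ) * xk kpz (ytz (m / m1)) l s) (hd : Dom (oy m + x)) :
    ∃ z : ZC, z.Ok (1 / 8192) ∧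
      (dA.pt m).Zn z x (Vx (oy m + x) 0) (1 - 2 * dt (uu 0) (oy m + x)) ∧
      (dA.pt m).FI (z.R - 1 / 8192) x 0 := by
  obtain ⟨b1, b2, b3, b4, b5, b6⟩ := zj_bd dA m0 mm hd
  obtain ⟨θ0, θ1, -, -, -⟩ := th_mem m0 mm
  have hE := enA m0 mm
  exact zone0 θ0 θ1 r0 r1 s0 s1 (tFA0 l) (tBA0 l) (tAA0 l) (tKA0 l)
    (bz_encl (L := SA0E_L) rfl rfl (hdA_ok hE))
    (bz_encl (L := SA0R_L) rfl rfl (hdA_ok hE)) (bz_hd _ _ _) (bz_hd _ _ _)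
    (nmA0E _ _) (nmA0R _ _) hx (b4 0) b1 b2 b3 (ApxA0 m0 mm x b5 b6 (b4 0).ne')

theorem nmA1E (P : Pt) (θ : ℝ) (k : ℕ) (hk : k < 128) :
    bz SA1E P θ k = nomF LA1E θ k :=
  bz_nom (L := SA1E_L) (L' := LA1E_L) (fun q hq => by interval_cases q <;> rfl) P θ k hk

theorem nmA1R (P : Pt) (θ : ℝ) (k : ℕ) (hk : k < 128) :
    bz SA1R P θ k = nomF LA1R θ k :=
  bz_nom (L := SA1R_L) (L' := LA1R_L) (fun q hq => by interval_cases q <;> rfl) P θ k hk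

theorem hzA1 {m : ℝ} (m0 : 0 ≤ m) (mm : m ≤ m1) (l : Fin 12) {r s : ℝ} (r0 : 0 ≤ r)
    (r1 : r ≤ 1) (s0 : 0 ≤ s) (s1 : s ≤ 1) (x : ℂ)
    (hx : x = (r : ℂ) * xk kpz (ytz (m / m1)) l s) (hd : Dom (oy m + x)) :
    ∃ z : ZC, z.Ok (1 / 8192) ∧
      (dA.pt m).Zn z x (Vx (oy m + x) 1) (1 - 2 * dt (uu 1) (oy m + x)) ∧
      (dA.pt m).FI (z.R - 1 / 8192) x 1 := by
  obtain ⟨b1, b2, b3, b4, b5, b6⟩ := zj_bd dA m0 mm hd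
  obtain ⟨θ0, θ1, -, -, -⟩ := th_mem m0 mm
  have hE := enA m0 mm
  exact zone1 θ0 θ1 r0 r1 s0 s1 (tFA1 l) (tBA1 l) (tAA1 l) (tKA1 l)
    (bz_encl (L := SA1E_L) rfl rfl (hdA_ok hE))
    (bz_encl (L := SA1R_L) rfl rfl (hdA_ok hE)) (bz_hd _ _ _) (bz_hd _ _ _)
    (nmA1E _ _) (nmA1R _ _) hx (b4 1) b1 b2 b3 (ApxA1 m0 mm x b5 b6 (b4 1).ne')

theorem nmA2E (P : Pt) (θ : ℝ) (k : ℕ) (hk : k < 128) :
    bz SA2E P θ k = nomF LA2E θ k :=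
  bz_nom (L := SA2E_L) (L' := LA2E_L) (fun q hq => by interval_cases q <;> rfl) P θ k hk

theorem nmA2R (P : Pt) (θ : ℝ) (k : ℕ) (hk : k < 128) :
    bz SA2R P θ k = nomF LA2R θ k :=
  bz_nom (L := SA2R_L) (L' := LA2R_L) (fun q hq => by interval_cases q <;> rfl) P θ k hk

theorem hzA2 (hyt : YtOk) {m : ℝ} (m0 : 0 ≤ m) (mm : m ≤ m1) (l : Fin 12) {r s : ℝ} (r0 : 0 ≤ r)
    (r1 : r ≤ 1) (s0 : 0 ≤ s) (s1 : s ≤ 1) (x : ℂ)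
    (hx : x = (r : ℂ) * xk kpz (ytz (m / m1)) l s) (hd : Dom (oy m + x)) :
    ∃ z : ZC, z.Ok (1 / 8192) ∧
      (dA.pt m).Zn z x (Vx (oy m + x) 2) (1 - 2 * dt (uu 2) (oy m + x)) ∧
      (dA.pt m).FI (z.R - 1 / 8192) x 2 := by
  obtain ⟨b1, b2, b3, b4, b5, b6⟩ := zj_bd dA m0 mm hd
  obtain ⟨θ0, θ1, -, -, -⟩ := th_mem m0 mm
  have hE := enA m0 mm
  exact zone2 θ0 θ1 r0 r1 s0 s1 (tFA2 l) (tBA2 l) (tAA2 l) (tKA2 l)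
    (bz_encl (L := SA2E_L) rfl rfl (hdA_ok hE))
    (bz_encl (L := SA2R_L) rfl rfl (hdA_ok hE)) (bz_hd _ _ _) (bz_hd _ _ _)
    (nmA2E _ _) (nmA2R _ _) hx (b4 2) b1 b2 b3 (ApxA2 m0 mm x b5 b6 (b4 2).ne')
    (fun h1 h2 => by
      have h3 : 3 / 4 * m1 ≤ m := by
        have h4 : 0 < m1 := by have := m1_bounds.1; linarith
        rwa [le_div_iff₀ h4] at h1
      obtain ⟨g1, g2⟩ := near_pt hyt h3 mm l r0 s0 s1 hx h2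
      exact nearA m x h3 mm g1 g2)

theorem zhA (hyt : YtOk) : ZH dA := by
  refine Z_of_all (yt := fun m => ytz (m / m1)) kpz_ge hyt ?_
  intro j l m r s m0 mm r0 r1 s0 s1 x hx hd
  match j with
  | 0 => exact hzA0 m0 mm l r0 r1 s0 s1 x hx hd
  | 1 => exact hzA1 m0 mm l r0 r1 s0 s1 x hx hd
  | 2 => exact hzA2 hyt m0 mm l r0 r1 s0 s1 x hx hd

theorem nmB0E (P : Pt) (θ : ℝ) (k : ℕ) (hk : k < 128) :
    bz SB0E P θ k = nomF LB0E θ k :=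
  bz_nom (L := SB0E_L) (L' := LB0E_L) (fun q hq => by interval_cases q <;> rfl) P θ k hk

theorem nmB0R (P : Pt) (θ : ℝ) (k : ℕ) (hk : k < 128) :
    bz SB0R P θ k = nomF LB0R θ k :=
  bz_nom (L := SB0R_L) (L' := LB0R_L) (fun q hq => by interval_cases q <;> rfl) P θ k hk

theorem hzB0 {m : ℝ} (m0 : 0 ≤ m) (mm : m ≤ m1) (l : Fin 12) {r s : ℝ} (r0 : 0 ≤ r)
    (r1 : r ≤ 1) (s0 : 0 ≤ s) (s1 : s ≤ 1) (x : ℂ)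
    (hx : x = (r : ℂ) * xk kpz (ytz (m / m1)) l s) (hd : Dom (oy m + x)) :
    ∃ z : ZC, z.Ok (1 / 8192) ∧
      (dB.pt m).Zn z x (Vx (oy m + x) 0) (1 - 2 * dt (uu 0) (oy m + x)) ∧
      (dB.pt m).FI (z.R - 1 / 8192) x 0 := by
  obtain ⟨b1, b2, b3, b4, b5, b6⟩ := zj_bd dB m0 mm hd
  obtain ⟨θ0, θ1, -, -, -⟩ := th_mem m0 mm
  have hE := enB m0 mm
  exact zone0 θ0 θ1 r0 r1 s0 s1 (tFB0 l) (tBB0 l) (tAB0 l) (tKB0 l)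
    (bz_encl (L := SB0E_L) rfl rfl (hdB_ok hE))
    (bz_encl (L := SB0R_L) rfl rfl (hdB_ok hE)) (bz_hd _ _ _) (bz_hd _ _ _)
    (nmB0E _ _) (nmB0R _ _) hx (b4 0) b1 b2 b3 (ApxB0 m0 mm x b5 b6 (b4 0).ne')

theorem nmB1E (P : Pt) (θ : ℝ) (k : ℕ) (hk : k < 128) :
    bz SB1E P θ k = nomF LB1E θ k :=
  bz_nom (L := SB1E_L) (L' := LB1E_L) (fun q hq => by interval_cases q <;> rfl) P θ k hk

theorem nmB1R (P : Pt) (θ : ℝ) (k : ℕ) (hk : k < 128) :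
    bz SB1R P θ k = nomF LB1R θ k :=
  bz_nom (L := SB1R_L) (L' := LB1R_L) (fun q hq => by interval_cases q <;> rfl) P θ k hk

theorem hzB1 {m : ℝ} (m0 : 0 ≤ m) (mm : m ≤ m1) (l : Fin 12) {r s : ℝ} (r0 : 0 ≤ r)
    (r1 : r ≤ 1) (s0 : 0 ≤ s) (s1 : s ≤ 1) (x : ℂ)
    (hx : x = (r : ℂ) * xk kpz (ytz (m / m1)) l s) (hd : Dom (oy m + x)) :
    ∃ z : ZC, z.Ok (1 / 8192) ∧
      (dB.pt m).Zn z x (Vx (oy m + x) 1) (1 - 2 * dt (uu 1) (oy m + x)) ∧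
      (dB.pt m).FI (z.R - 1 / 8192) x 1 := by
  obtain ⟨b1, b2, b3, b4, b5, b6⟩ := zj_bd dB m0 mm hd
  obtain ⟨θ0, θ1, -, -, -⟩ := th_mem m0 mm
  have hE := enB m0 mm
  exact zone1 θ0 θ1 r0 r1 s0 s1 (tFB1 l) (tBB1 l) (tAB1 l) (tKB1 l)
    (bz_encl (L := SB1E_L) rfl rfl (hdB_ok hE))
    (bz_encl (L := SB1R_L) rfl rfl (hdB_ok hE)) (bz_hd _ _ _) (bz_hd _ _ _)
    (nmB1E _ _) (nmB1R _ _) hx (b4 1) b1 b2 b3 (ApxB1 m0 mm x b5 b6 (b4 1).ne')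

theorem nmB2E (P : Pt) (θ : ℝ) (k : ℕ) (hk : k < 128) :
    bz SB2E P θ k = nomF LB2E θ k :=
  bz_nom (L := SB2E_L) (L' := LB2E_L) (fun q hq => by interval_cases q <;> rfl) P θ k hk

theorem nmB2R (P : Pt) (θ : ℝ) (k : ℕ) (hk : k < 128) :
    bz SB2R P θ k = nomF LB2R θ k :=
  bz_nom (L := SB2R_L) (L' := LB2R_L) (fun q hq => by interval_cases q <;> rfl) P θ k hk

theorem hzB2 (hyt : YtOk) {m : ℝ} (m0 : 0 ≤ m) (mm : m ≤ m1) (l : Fin 12) {r s : ℝ} (r0 : 0 ≤ r)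
    (r1 : r ≤ 1) (s0 : 0 ≤ s) (s1 : s ≤ 1) (x : ℂ)
    (hx : x = (r : ℂ) * xk kpz (ytz (m / m1)) l s) (hd : Dom (oy m + x)) :
    ∃ z : ZC, z.Ok (1 / 8192) ∧
      (dB.pt m).Zn z x (Vx (oy m + x) 2) (1 - 2 * dt (uu 2) (oy m + x)) ∧
      (dB.pt m).FI (z.R - 1 / 8192) x 2 := by
  obtain ⟨b1, b2, b3, b4, b5, b6⟩ := zj_bd dB m0 mm hd
  obtain ⟨θ0, θ1, -, -, -⟩ := th_mem m0 mm
  have hE := enB m0 mm
  exact zone2 θ0 θ1 r0 r1 s0 s1 (tFB2 l) (tBB2 l) (tAB2 l) (tKB2 l)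
    (bz_encl (L := SB2E_L) rfl rfl (hdB_ok hE))
    (bz_encl (L := SB2R_L) rfl rfl (hdB_ok hE)) (bz_hd _ _ _) (bz_hd _ _ _)
    (nmB2E _ _) (nmB2R _ _) hx (b4 2) b1 b2 b3 (ApxB2 m0 mm x b5 b6 (b4 2).ne')
    (fun h1 h2 => by
      have h3 : 3 / 4 * m1 ≤ m := by
        have h4 : 0 < m1 := by have := m1_bounds.1; linarith
        rwa [le_div_iff₀ h4] at h1
      obtain ⟨g1, g2⟩ := near_pt hyt h3 mm l r0 s0 s1 hx h2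
      exact nearB m x h3 mm g1 g2)

theorem zhB (hyt : YtOk) : ZH dB := by
  refine Z_of_all (yt := fun m => ytz (m / m1)) kpz_ge hyt ?_
  intro j l m r s m0 mm r0 r1 s0 s1 x hx hd
  match j with
  | 0 => exact hzB0 m0 mm l r0 r1 s0 s1 x hx hd
  | 1 => exact hzB1 m0 mm l r0 r1 s0 s1 x hx hd
  | 2 => exact hzB2 hyt m0 mm l r0 r1 s0 s1 x hx hd

end Pool.H61.Rh
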