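import Pool.Agent.H61.Re.C5
import Pool.Agent.H61.Re.L3
import Pool.Agent.H61.Rz.Ax0
import Pool.Agent.H81.Lv.Zf

/-! # Br: from inequalities of level 3 to the inequalities of a zone -/

set_option autoImplicit false

namespace Pool.H61.Rh

open Complex Pool.H47.Kc Pool.H47.K3

/-! ### congruence of the polynomials of level 3 -/

lemma zhr_congr {β γ : ℕ → ℝ} {N : ℕ} (h : ∀ k, k < N → β k = γ k) (x : ℝ) :
    ∀ n i : ℕ, i + n ≤ N → hr β x i n = hr γ x i n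
  | 0, _, _ => rfl
  | 1, i, hi => h i (by omega)
  | n + 2, i, hi => by
    show β i + x * hr β x (i + 1) (n + 1) = γ i + x * hr γ x (i + 1) (n + 1)
    rw [h i (by omega), zhr_congr h x (n + 1) (i + 1) (by omega)]

lemma zhr2_congr {β γ : ℕ → ℝ} {N : ℕ} (h : ∀ k, k < N → β k = γ k) (x y : ℝ) :
    ∀ n i : ℕ, 2 * i + (n + 1) * (n + 2) ≤ 2 * N → hr2 β x y i n = hr2 γ x y i n
  | 0, i, hi => h i (by omega)
  | n + 1, i, hi => by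
    show hr β x i (n + 2) + y * hr2 β x y (i + (n + 2)) n =
      hr γ x i (n + 2) + y * hr2 γ x y (i + (n + 2)) n
    have e : (n + 1 + 1) * (n + 1 + 2) = (n + 1) * (n + 2) + 2 * (n + 2) := by ring
    rw [e] at hi
    have h2 : 0 ≤ (n + 1) * (n + 2) := Nat.zero_le _
    rw [zhr_congr h x (n + 2) i (by omega), zhr2_congr h x y n (i + (n + 2)) (by omega)]

lemma zE0h_congr {β γ : ℕ → ℝ} (h : ∀ k, k < 128 → β k = γ k) (x y X Y : ℝ) :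
    E0h β 0 x y X Y = E0h γ 0 x y X Y := by
  unfold E0h
  rw [zhr2_congr h x y 5 0 (by norm_num), zhr_congr h y 6 (0 + 21) (by norm_num),
    zhr_congr h y 6 (0 + 27) (by norm_num)]

lemma zG0h_congr {β γ : ℕ → ℝ} (h : ∀ k, k < 128 → β k = γ k) (i : ℕ) (hi : i ≤ 77)
    (x y X Y : ℝ) : G0h β i x y X Y = G0h γ i x y X Y := by
  unfold G0h
  rw [zhr2_congr h x y 7 i (by omega), zhr_congr h y 8 (i + 36) (by omega)]

/-! ### the core of the main inequality -/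

theorem FI_core {P : Pt} {x : ℂ} {j : Fin 3} {D E3 dE dG Rm : ℝ} {G3 : ℂ}
    (hD : 1 - 2 * dt (uu j) (P.ys + x) = D) (hD0 : 0 < D)
    (hE : |P.Eh x (Vx (P.ys + x) j) * D - E3| ≤ dE)
    (hG : ‖P.Gh x (Vx (P.ys + x) j) * (D : ℂ) - G3‖ ≤ dG)
    (hR : 0 < Rm) (hf : 1 / 2 < P.f x) (hf2 : P.f x ^ 2 ≤ 137 / 128)
    (F : 0 ≤ 4 * Rm * (2 * P.f x - 1) ^ 2 * D * (E3 - dE - 137 / 2 ^ 20 * normSq x * D)
      - 1025 / 1024 * normSq G3 - 1025 * dG ^ 2) : P.FI Rm x j := by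
  have hg : 0 < 2 * P.f x - 1 := by linarith
  have hg1 : 2 * P.f x - 1 ≤ P.f x ^ 2 := by nlinarith [sq_nonneg (P.f x - 1)]
  have hg4 : (2 * P.f x - 1) ^ 2 ≤ P.f x ^ 4 := by
    have := pow_le_pow_left₀ hg.le hg1 2
    calc (2 * P.f x - 1) ^ 2 ≤ (P.f x ^ 2) ^ 2 := this
      _ = P.f x ^ 4 := by ring
  have hn := normSq_nonneg x
  have h1 := nsq_apx (t := 1 / 1024) (by norm_num) hG
  have e1 : normSq (P.Gh x (Vx (P.ys + x) j) * (D : ℂ)) =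
      normSq (P.Gh x (Vx (P.ys + x) j)) * D ^ 2 := by
    rw [normSq_mul, normSq_ofReal]; ring
  rw [e1] at h1
  rw [abs_le] at hE
  obtain ⟨B, hB⟩ : ∃ B, B = E3 - dE - 137 / 2 ^ 20 * normSq x * D := ⟨_, rfl⟩
  rw [← hB] at F
  have hA : B ≤ P.Eh x (Vx (P.ys + x) j) * D - 1 / 8192 * normSq x * P.f x ^ 2 * D := by
    have h3 : 1 / 8192 * normSq x * P.f x ^ 2 * D ≤ 137 / 2 ^ 20 * normSq x * D := by
      have h4 := mul_le_mul_of_nonneg_left hf2 (mul_nonneg hn hD0.le)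
      have e4 : 1 / 8192 * normSq x * P.f x ^ 2 * D =
          1 / 8192 * (normSq x * D * P.f x ^ 2) := by ring
      have e5 : 137 / 2 ^ 20 * normSq x * D = 1 / 8192 * (normSq x * D * (137 / 128)) := by
        norm_num; ring
      rw [e4, e5]
      linarith
    rw [hB]
    linarith [hE.1]
  have hG3 := normSq_nonneg G3
  have hdG := sq_nonneg dG
  unfold Pt.FI
  rw [hD]
  obtain ⟨EE, hEE⟩ : ∃ EE, EE = P.Eh x (Vx (P.ys + x) j) := ⟨_, rfl⟩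
  obtain ⟨GG, hGG⟩ : ∃ GG, GG = normSq (P.Gh x (Vx (P.ys + x) j)) := ⟨_, rfl⟩
  rw [← hEE] at hA ⊢
  rw [← hGG] at h1 ⊢
  have e2 : (4 * Rm * P.f x ^ 4 * (EE - 1 / 8192 * normSq x * P.f x ^ 2) - GG) * D ^ 2 =
      4 * Rm * P.f x ^ 4 * D * (EE * D - 1 / 8192 * normSq x * P.f x ^ 2 * D) - GG * D ^ 2 := by
    ring
  rw [e2]
  rcases le_or_gt 0 B with hB0 | hB0
  · have h5 : 4 * Rm * (2 * P.f x - 1) ^ 2 * D * B ≤ 4 * Rm * P.f x ^ 4 * D * B := by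
      have : (2 * P.f x - 1) ^ 2 * (4 * Rm * D * B) ≤ P.f x ^ 4 * (4 * Rm * D * B) :=
        mul_le_mul_of_nonneg_right hg4 (by positivity)
      linarith
    have h6 : 4 * Rm * P.f x ^ 4 * D * B ≤
        4 * Rm * P.f x ^ 4 * D * (EE * D - 1 / 8192 * normSq x * P.f x ^ 2 * D) :=
      mul_le_mul_of_nonneg_left hA (by positivity)
    have e7 : (1 + 1 / (1 / 1024 : ℝ)) = 1025 := by norm_num
    have e8 : (1 + (1 / 1024 : ℝ)) = 1025 / 1024 := by norm_num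
    rw [e7, e8] at h1
    linarith
  · exfalso
    have : 4 * Rm * (2 * P.f x - 1) ^ 2 * D * B < 0 := mul_neg_of_pos_of_neg (by positivity) hB0
    linarith

/-! ### the core of the other inequalities -/

theorem Zn_core {P : Pt} {x η : ℂ} {D E3 dE dG : ℝ} {G3 Q3 : ℂ} {C3 Y3 : ℝ}
    (h : P.Apx x η D E3 G3 C3 Q3 Y3 dE dG (1 / 2 ^ 14) (1 / 2 ^ 13) (1 / 2 ^ 16)) {z : ZC}
    {lz K : ℝ} (hD : 0 < D) (hl : z.lam * P.f x ^ 3 = lz) (hl0 : 0 ≤ z.lam) (hΦ : 0 ≤ z.Φ)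
    (hf0 : 0 < P.f x) (hf1 : P.f x ≤ 3 / 2) (hy1 : normSq (P.ys + x) ≤ 1)
    (hb : normSq (P.ys + x) ≤ z.hb ^ 2)
    (c0 : 0 ≤ C3 - 1 / 2 ^ 14)
    (c1 : 0 ≤ z.cb * P.f x ^ 3 * D - C3 - 1 / 2 ^ 14)
    (q : 0 ≤ z.Qb ^ 2 * P.f x ^ 2 * D ^ 2 - 257 / 256 * normSq Q3 - 257 / 2 ^ 26)
    (p0 : 0 ≤ z.pb * P.f x ^ 2 - Y3 - 1 / 2 ^ 16)
    (p1 : 0 ≤ z.pb * P.f x ^ 2 + Y3 - 1 / 2 ^ 16)
    (hK : K ≤ 6 - z.R - Kz z.hb z.Φ z.cb z.Qb z.pb)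
    (w : 0 ≤ 4 * lz * P.f x * D ^ 2 * (K * P.f x ^ 2 + 493 / 1000 * (Y3 - 1 / 2 ^ 16))
      - z.Φ * (257 / 256 * normSq (((lz * D : ℝ) : ℂ) * (P.ys + x)
          - ((P.f x : ℂ) * Q3 + ((957 / 1000 * C3 : ℝ) : ℂ) * (P.ys + x))) + 257 / 2 ^ 24)) :
    P.Zn z x η D := by
  obtain ⟨-, -, hC, hQ, hY⟩ := h
  have hC' := hC
  rw [abs_le] at hC hY
  have hD0 := hD.le
  refine ⟨hb, ?_, ?_, ?_, ?_, ?_, ?_⟩
  · linarith
  · have e : (z.cb * P.f x ^ 3 - P.ct x η) * D = z.cb * P.f x ^ 3 * D - P.ct x η * D := by ring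
    rw [e]; linarith
  · have h1 := nsq_apx (t := 1 / 256) (by norm_num) hQ
    have e1 : normSq (P.fq x η * (D : ℂ)) = normSq (P.fq x η) * D ^ 2 := by
      rw [normSq_mul, normSq_ofReal]; ring
    rw [e1] at h1
    have e : (z.Qb ^ 2 * P.f x ^ 2 - normSq (P.fq x η)) * D ^ 2 =
      z.Qb ^ 2 * P.f x ^ 2 * D ^ 2 - normSq (P.fq x η) * D ^ 2 := by ring
    have e2 : (1 + 1 / 256 : ℝ) * normSq Q3 + (1 + 1 / (1 / 256 : ℝ)) * (1 / 2 ^ 13) ^ 2 =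
        257 / 256 * normSq Q3 + 257 / 2 ^ 26 := by norm_num
    rw [e2] at h1
    rw [e]; linarith
  · linarith
  · linarith
  · -- the last inequality
    obtain ⟨y, hy⟩ : ∃ y, y = P.ys + x := ⟨_, rfl⟩
    rw [← hy] at hy1 hY w ⊢
    have hyn : ‖y‖ ≤ 1 := by
      rw [normSq_eq_norm_sq] at hy1
      have : ‖y‖ ^ 2 ≤ 1 ^ 2 := by linarith
      exact le_of_sq_le_sq this zero_le_one
    have hwd : ‖P.wh x η * (D : ℂ) - ((P.f x : ℂ) * Q3 + ((957 / 1000 * C3 : ℝ) : ℂ) * y)‖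
        ≤ 1 / 2 ^ 12 := by
      have e : P.wh x η * (D : ℂ) - ((P.f x : ℂ) * Q3 + ((957 / 1000 * C3 : ℝ) : ℂ) * y) =
          (P.f x : ℂ) * (P.fq x η * (D : ℂ) - Q3) +
          ((957 / 1000 * (P.ct x η * D - C3) : ℝ) : ℂ) * y := by
        unfold Pt.wh
        rw [← hy]
        push_cast
        ring
      rw [e]
      have b1 : ‖(P.f x : ℂ) * (P.fq x η * (D : ℂ) - Q3)‖ ≤ 3 / 2 * (1 / 2 ^ 13) := by
        rw [norm_mul, Complex.norm_real, Real.norm_eq_abs, abs_of_nonneg hf0.le]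
        exact mul_le_mul hf1 hQ (norm_nonneg _) (by norm_num)
      have b2 : ‖((957 / 1000 * (P.ct x η * D - C3) : ℝ) : ℂ) * y‖ ≤ 957 / 1000 * (1 / 2 ^ 14) := by
        rw [norm_mul, Complex.norm_real, Real.norm_eq_abs, abs_mul,
          abs_of_nonneg (by norm_num : (0 : ℝ) ≤ 957 / 1000), mul_assoc]
        refine mul_le_mul_of_nonneg_left ?_ (by norm_num)
        calc |P.ct x η * D - C3| * ‖y‖ ≤ 1 / 2 ^ 14 * 1 :=
              mul_le_mul hC' hyn (norm_nonneg _) (by norm_num)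
          _ = 1 / 2 ^ 14 := mul_one _
      refine (norm_add_le _ _).trans ((add_le_add b1 b2).trans ?_)
      norm_num
    have h2 : ‖(((z.lam * P.f x ^ 3 : ℝ) : ℂ) * y - P.wh x η) * (D : ℂ) -
        (((lz * D : ℝ) : ℂ) * y -
          ((P.f x : ℂ) * Q3 + ((957 / 1000 * C3 : ℝ) : ℂ) * y))‖ ≤ 1 / 2 ^ 12 := by
      have e : (((z.lam * P.f x ^ 3 : ℝ) : ℂ) * y - P.wh x η) * (D : ℂ) -
          (((lz * D : ℝ) : ℂ) * y -
            ((P.f x : ℂ) * Q3 + ((957 / 1000 * C3 : ℝ) : ℂ) * y)) =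
          -(P.wh x η * (D : ℂ) - ((P.f x : ℂ) * Q3 + ((957 / 1000 * C3 : ℝ) : ℂ) * y)) := by
        rw [hl]
        push_cast
        ring
      rw [e, norm_neg]
      exact hwd
    have h3 := nsq_apx (t := 1 / 256) (by norm_num) h2
    have e1 : normSq ((((z.lam * P.f x ^ 3 : ℝ) : ℂ) * y - P.wh x η) * (D : ℂ)) =
        normSq (((z.lam * P.f x ^ 3 : ℝ) : ℂ) * y - P.wh x η) * D ^ 2 := by
      rw [normSq_mul, normSq_ofReal]; ring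
    rw [e1] at h3
    obtain ⟨N3, hN3⟩ : ∃ N3, N3 = normSq (((lz * D : ℝ) : ℂ) * y -
          ((P.f x : ℂ) * Q3 + ((957 / 1000 * C3 : ℝ) : ℂ) * y)) := ⟨_, rfl⟩
    obtain ⟨NN, hNN⟩ : ∃ NN, NN = normSq (((z.lam * P.f x ^ 3 : ℝ) : ℂ) * y - P.wh x η) :=
      ⟨_, rfl⟩
    rw [← hN3] at h3 w
    rw [← hNN] at h3 ⊢
    have e2 : (1 + 1 / 256 : ℝ) * N3 + (1 + 1 / (1 / 256 : ℝ)) * (1 / 2 ^ 12) ^ 2 =
        257 / 256 * N3 + 257 / 2 ^ 24 := by norm_num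
    rw [e2] at h3
    have h4 := mul_le_mul_of_nonneg_left h3 hΦ
    obtain ⟨f, hf⟩ : ∃ f, f = P.f x := ⟨_, rfl⟩
    rw [← hf] at hl w hf0 ⊢
    obtain ⟨pp, hpp⟩ : ∃ pp, pp = dt (P.fp x) y := ⟨_, rfl⟩
    rw [← hpp] at hY ⊢
    obtain ⟨KK, hKK⟩ : ∃ KK, KK = 6 - z.R - Kz z.hb z.Φ z.cb z.Qb z.pb := ⟨_, rfl⟩
    rw [← hKK] at hK
    have h5 : 0 ≤ 4 * z.lam * f ^ 4 * D ^ 2 * ((KK - K) * f ^ 2 +
        493 / 1000 * (pp - (Y3 - 1 / 2 ^ 16))) := by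
      have a1 : 0 ≤ KK - K := by linarith
      have a2 : 0 ≤ pp - (Y3 - 1 / 2 ^ 16) := by linarith
      positivity
    have e5 : (4 * z.lam * KK * f ^ 6
        + 4 * z.lam * (493 / 1000) * f ^ 4 * pp
        - z.Φ * NN) * D ^ 2 =
        4 * z.lam * f ^ 4 * D ^ 2 * ((KK - K) * f ^ 2 + 493 / 1000 * (pp - (Y3 - 1 / 2 ^ 16))) +
        4 * (z.lam * f ^ 3) * f * D ^ 2 * (K * f ^ 2 + 493 / 1000 * (Y3 - 1 / 2 ^ 16)) -
        z.Φ * (NN * D ^ 2) := by ring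
    rw [hl] at e5
    rw [hKK] at e5
    rw [e5]
    rw [hKK] at h5
    linarith

end Pool.H61.Rh
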