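import Pool.Agent.H47.K3.Chk

/-! # Tree: boxes and trees of boxes

Points `(t, x, y)`, boxes with corners in units `1/128`.  A tree `BT` cuts a box into leaves, each
inside the zone of a check of `K3`. -/

set_option autoImplicit false

namespace Pool.H61.Rh

open Pool.H47.Kc Pool.H47.K3

/-- a box, unit `1/128` -/
structure Bx where
  t0 : Nat
  t1 : Nat
  x0 : Nat
  x1 : Nat
  y0 : Nat
  y1 : Nat

/-- points of a box -/
def Bx.In (B : Bx) (t x y : ℝ) : Prop :=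
  ((B.t0 : ℝ) ≤ t * 128 ∧ t * 128 ≤ B.t1) ∧ ((B.x0 : ℝ) ≤ x * 128 ∧ x * 128 ≤ B.x1) ∧
    ((B.y0 : ℝ) ≤ y * 128 ∧ y * 128 ≤ B.y1)

/-- coordinate number `d` -/
def crd (d : Nat) (t x y : ℝ) : ℝ := match d with | 0 => t | 1 => x | _ => y

/-- the lower part: coordinate `d` at most `p` -/
def Bx.lo (B : Bx) (d p : Nat) : Bx :=
  match d with
  | 0 => ⟨B.t0, p, B.x0, B.x1, B.y0, B.y1⟩
  | 1 => ⟨B.t0, B.t1, B.x0, p, B.y0, B.y1⟩
  | _ => ⟨B.t0, B.t1, B.x0, B.x1, B.y0, p⟩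

/-- the upper part -/
def Bx.hi (B : Bx) (d p : Nat) : Bx :=
  match d with
  | 0 => ⟨p, B.t1, B.x0, B.x1, B.y0, B.y1⟩
  | 1 => ⟨B.t0, B.t1, p, B.x1, B.y0, B.y1⟩
  | _ => ⟨B.t0, B.t1, B.x0, B.x1, p, B.y1⟩

lemma Bx.In.lo {B : Bx} {t x y : ℝ} (h : B.In t x y) {d p : Nat} (hp : crd d t x y * 128 ≤ p) :
    (B.lo d p).In t x y := by
  obtain ⟨⟨a1, a2⟩, ⟨b1, b2⟩, c1, c2⟩ := h
  match d, hp with
  | 0, hp => exact ⟨⟨a1, hp⟩, ⟨b1, b2⟩, c1, c2⟩
  | 1, hp => exact ⟨⟨a1, a2⟩, ⟨b1, hp⟩, c1, c2⟩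
  | n + 2, hp => exact ⟨⟨a1, a2⟩, ⟨b1, b2⟩, c1, hp⟩

lemma Bx.In.hi {B : Bx} {t x y : ℝ} (h : B.In t x y) {d p : Nat} (hp : (p : ℝ) < crd d t x y * 128) :
    (B.hi d p).In t x y := by
  obtain ⟨⟨a1, a2⟩, ⟨b1, b2⟩, c1, c2⟩ := h
  match d, hp with
  | 0, hp => exact ⟨⟨hp.le, a2⟩, ⟨b1, b2⟩, c1, c2⟩
  | 1, hp => exact ⟨⟨a1, a2⟩, ⟨hp.le, b2⟩, c1, c2⟩
  | n + 2, hp => exact ⟨⟨a1, a2⟩, ⟨b1, b2⟩, hp.le, c2⟩

/-- one coordinate: `[a/128, b/128]` is inside `[(c - s n)/2^e, (c + s n)/2^e]` -/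
def cov1 (a b c s n e : Nat) : Bool :=
  cond (Nat.ble (Nat.mul c 128) (Nat.add (Nat.mul a (Nat.pow 2 e)) (Nat.mul (Nat.mul s n) 128)))
    (Nat.ble (Nat.mul b (Nat.pow 2 e)) (Nat.mul (Nat.add c (Nat.mul s n)) 128)) false

lemma cond_true {a b : Bool} (h : cond a b false = true) : a = true ∧ b = true := by
  cases a
  · simp at h
  · exact ⟨rfl, h⟩

lemma cov1_sound {a b c s n e : Nat} (h : cov1 a b c s n e = true) {z : ℝ} (h0 : (a : ℝ) ≤ z * 128)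
    (h1 : z * 128 ≤ b) : |z * 2 ^ e - c| ≤ (s : ℝ) * n := by
  obtain ⟨k1, k2⟩ := cond_true h
  have k1' := Nat.le_of_ble_eq_true k1
  have k2' := Nat.le_of_ble_eq_true k2
  have e1 : ((c : ℝ) * 128) ≤ a * 2 ^ e + s * n * 128 := by
    have : ((Nat.mul c 128 : ℕ) : ℝ) ≤
        ((Nat.add (Nat.mul a (Nat.pow 2 e)) (Nat.mul (Nat.mul s n) 128) : ℕ) : ℝ) := by
      exact_mod_cast k1'
    have h2 : ((Nat.mul c 128 : ℕ) : ℝ) = (c : ℝ) * 128 := by
      show ((c * 128 : ℕ) : ℝ) = _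
      push_cast; ring
    have h3 : ((Nat.add (Nat.mul a (Nat.pow 2 e)) (Nat.mul (Nat.mul s n) 128) : ℕ) : ℝ) =
        a * 2 ^ e + s * n * 128 := by
      show ((a * 2 ^ e + s * n * 128 : ℕ) : ℝ) = _
      push_cast; ring
    rwa [h2, h3] at this
  have e2 : ((b : ℝ) * 2 ^ e) ≤ (c + s * n) * 128 := by
    have : ((Nat.mul b (Nat.pow 2 e) : ℕ) : ℝ) ≤
        ((Nat.mul (Nat.add c (Nat.mul s n)) 128 : ℕ) : ℝ) := by
      exact_mod_cast k2'
    have h2 : ((Nat.mul b (Nat.pow 2 e) : ℕ) : ℝ) = (b : ℝ) * 2 ^ e := by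
      show ((b * 2 ^ e : ℕ) : ℝ) = _
      push_cast; ring
    have h3 : ((Nat.mul (Nat.add c (Nat.mul s n)) 128 : ℕ) : ℝ) = (c + s * n) * 128 := by
      show (((c + s * n) * 128 : ℕ) : ℝ) = _
      push_cast; ring
    rwa [h2, h3] at this
  have hp : (0 : ℝ) < 2 ^ e := by positivity
  have m1 := mul_le_mul_of_nonneg_right h0 hp.le
  have m2 := mul_le_mul_of_nonneg_right h1 hp.le
  rw [abs_le]
  constructor
  · nlinarith
  · nlinarith

/-- the box is inside the zone -/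
def Bx.cov (B : Bx) (U : U3) (V : V3) : Bool :=
  cond (cov1 B.t0 B.t1 U.tc U.st U.nT U.eT)
    (cond (cov1 B.x0 B.x1 V.xc V.sx V.nX V.eX) (cov1 B.y0 B.y1 V.yc V.sy V.nY V.eY) false) false

lemma Bx.cov_sound {B : Bx} {U : U3} {V : V3} (h : B.cov U V = true) {t x y : ℝ}
    (hi : B.In t x y) : (zz U V).Mem t x y := by
  obtain ⟨h1, h2⟩ := cond_true h
  obtain ⟨h2, h3⟩ := cond_true h2
  exact ⟨cov1_sound h1 hi.1.1 hi.1.2, cov1_sound h2 hi.2.1.1 hi.2.1.2,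
    cov1_sound h3 hi.2.2.1 hi.2.2.2⟩

/-- a tree of zones; `skip` is allowed for `t ≥ 3/4`, `x ≤ p / 128` -/
inductive BT where
  | leaf (U : U3) (V : V3)
  | nd (d p : Nat) (a b : BT)
  | skip

/-- the check of a tree; `q` is the bound of the skipped part (`x ≤ q / 128`, `t ≥ 3/4`) -/
noncomputable def BT.chk (f : U3 → V3 → Bool) (q : Nat) (T : BT) : Bx → Bool :=
  BT.rec (motive := fun _ => Bx → Bool)
    (fun U V B => cond (B.cov U V) (f U V) false)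
    (fun d p _ _ iha ihb B => cond (iha (B.lo d p)) (ihb (B.hi d p)) false)
    (fun B => cond (Nat.ble 1 q) (cond (Nat.ble 96 B.t0) (Nat.ble B.x1 q) false) false) T

/-- soundness of a tree -/
theorem BT.sound {f : U3 → V3 → Bool} {q : Nat} {P : ℝ → ℝ → ℝ → Prop}
    (hf : ∀ U V, f U V = true → ∀ t x y, (zz U V).Mem t x y → P t x y) (T : BT) :
    ∀ B : Bx, T.chk f q B = true → ∀ t x y, B.In t x y →
      P t x y ∨ (1 ≤ q ∧ 3 / 4 ≤ t ∧ x * 128 ≤ q) := by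
  induction T with
  | leaf U V =>
    intro B h t x y hi
    obtain ⟨h1, h2⟩ := cond_true h
    exact Or.inl (hf U V h2 t x y (Bx.cov_sound h1 hi))
  | nd d p a b iha ihb =>
    intro B h t x y hi
    obtain ⟨h1, h2⟩ := cond_true h
    rcases le_or_gt (crd d t x y * 128) p with hc | hc
    · exact iha _ h1 t x y (hi.lo hc)
    · exact ihb _ h2 t x y (hi.hi hc)
  | skip =>
    intro B h t x y hi
    obtain ⟨h0, h1⟩ := cond_true h
    obtain ⟨h1, h2⟩ := cond_true h1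
    right
    have k1 : 96 ≤ B.t0 := Nat.le_of_ble_eq_true h1
    have k2 : B.x1 ≤ q := Nat.le_of_ble_eq_true h2
    have k1' : (96 : ℝ) ≤ B.t0 := by exact_mod_cast k1
    have k2' : (B.x1 : ℝ) ≤ q := by exact_mod_cast k2
    exact ⟨Nat.le_of_ble_eq_true h0, by linarith [hi.1.1], by linarith [hi.2.1.2]⟩

/-- the data of a zone: constants of the programs and three trees -/
structure ZD where
  (px py ex ey R0 R1 lam K0 K1 Ph cb Qb pb hb : Int)
  far : Bool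
  q : Nat
  TF : BT
  TB : BT
  TA : BT

/-- a tree of zones -/
inductive ZT where
  | z (d : ZD)
  | nd (d p : Nat) (a b : ZT)

/-- the zone of a point -/
inductive ZT.At (t x y : ℝ) : ZT → ZD → Prop
  | z (d : ZD) : ZT.At t x y (.z d) d
  | lo {d p : Nat} {a b : ZT} {z : ZD} (h : crd d t x y * 128 ≤ p) (ha : ZT.At t x y a z) :
      ZT.At t x y (.nd d p a b) z
  | hi {d p : Nat} {a b : ZT} {z : ZD} (h : (p : ℝ) < crd d t x y * 128) (hb : ZT.At t x y b z) :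
      ZT.At t x y (.nd d p a b) z

/-- check all the zones -/
noncomputable def ZT.chk (f : ZD → Bx → Bool) (T : ZT) : Bx → Bool :=
  ZT.rec (motive := fun _ => Bx → Bool) (fun d B => f d B)
    (fun d p _ _ iha ihb B => cond (iha (B.lo d p)) (ihb (B.hi d p)) false) T

theorem ZT.At_ex (t x y : ℝ) (T : ZT) : ∃ z, T.At t x y z := by
  induction T with
  | z d => exact ⟨d, .z d⟩
  | nd d p a b iha ihb =>
    rcases le_or_gt (crd d t x y * 128) p with hc | hc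
    · obtain ⟨z, hz⟩ := iha; exact ⟨z, .lo hc hz⟩
    · obtain ⟨z, hz⟩ := ihb; exact ⟨z, .hi hc hz⟩

theorem ZT.At.chk {t x y : ℝ} {T : ZT} {z : ZD} (h : T.At t x y z) {f : ZD → Bx → Bool} :
    ∀ B : Bx, T.chk f B = true → B.In t x y → ∃ B' : Bx, B'.In t x y ∧ f z B' = true := by
  induction h with
  | z d => intro B h hi; exact ⟨B, hi, h⟩
  | lo hc _ ih =>
    intro B h hi
    obtain ⟨h1, h2⟩ := cond_true h
    exact ih _ h1 (hi.lo hc)
  | hi hc _ ih =>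
    intro B h hi
    obtain ⟨h1, h2⟩ := cond_true h
    exact ih _ h2 (hi.hi hc)

/-- the unit cube -/
def top : Bx := ⟨0, 128, 0, 128, 0, 128⟩

lemma top_in {t x y : ℝ} (t0 : 0 ≤ t) (t1 : t ≤ 1) (x0 : 0 ≤ x) (x1 : x ≤ 1) (y0 : 0 ≤ y)
    (y1 : y ≤ 1) : top.In t x y := by
  refine ⟨⟨?_, ?_⟩, ⟨?_, ?_⟩, ?_, ?_⟩ <;> simp only [top] <;> norm_num <;> linarith

/-- all the trees of a list -/
noncomputable def allT (f : ZD → Bx → Bool) (L : List ZT) : Bool :=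
  List.rec (motive := fun _ => Bool) true (fun T _ ih => cond (T.chk f top) ih false) L

theorem allT_mem {f : ZD → Bx → Bool} {L : List ZT} (h : allT f L = true) {T : ZT} (hT : T ∈ L) :
    T.chk f top = true := by
  induction L with
  | nil => simp at hT
  | cons a l ih =>
    obtain ⟨h1, h2⟩ := cond_true h
    rcases List.mem_cons.1 hT with rfl | hT
    · exact h1
    · exact ih h2 hT

end Pool.H61.Rh
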