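import Pool.Agent.H81.Lv.Br
import Pool.Agent.H81.Lv.Zc

/-! # Zb: from the values of the zone programs to the inequalities of a zone -/

set_option autoImplicit false

namespace Pool.H61.Rh

open Complex Pool.H47.Kc Pool.H47.K3

/-- the scale of the polygon -/
noncomputable def kpz : ℝ := 2110000 / 2097152

/-- the values of the head symbols -/
structure HdB (P : Pt) (c : ℂ) (β : ℕ → ℝ) : Prop where
  h0 : β 128 = P.ys.re
  h1 : β 129 = P.ys.im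
  h2 : β 130 = P.fs
  h3 : β 131 = P.ns.re
  h4 : β 132 = P.ns.im
  h5 : β 133 = s3
  h6 : β 134 = c.re
  h7 : β 135 = c.im
  h8 : β 136 = 957 / 1000
  h9 : β 137 = 493 / 1000

/-- the constants of the coordinates belong to the edge `l` -/
structure EdI (l : Fin 12) (px py ex ey : Int) : Prop where
  px : px = 211 * pgX l
  py : py = 211 * pgY l
  ex : ex = 211 * (pgX (l + 1) - pgX l)
  ey : ey = 211 * (pgY (l + 1) - pgY l)

lemma z_xh {P : Pt} {c : ℂ} {β : ℕ → ℝ} {l : Fin 12} {px py ex ey : Int} {s : ℝ}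
    (hb : HdB P c β) (he : EdI l px py ex ey) : (xk kpz c l s).re = zXh β px ex s := by
  unfold zXh xk kpz
  rw [hb.h6, he.px, he.ex]
  have e1 : (pg l).re = (pgX l : ℝ) / 10000 := rfl
  have e2 : (pg (l + 1)).re = (pgX (l + 1) : ℝ) / 10000 := rfl
  simp only [sub_re, mul_re, add_re, ofReal_re, ofReal_im, e1, e2]
  push_cast
  ring

lemma z_yh {P : Pt} {c : ℂ} {β : ℕ → ℝ} {l : Fin 12} {px py ex ey : Int} {s : ℝ}
    (hb : HdB P c β) (he : EdI l px py ex ey) : (xk kpz c l s).im = zYh β py ey s := by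
  unfold zYh xk kpz
  rw [hb.h7, he.py, he.ey]
  have e1 : (pg l).im = (pgY l : ℝ) / 10000 := rfl
  have e2 : (pg (l + 1)).im = (pgY (l + 1) : ℝ) / 10000 := rfl
  simp only [sub_im, mul_im, add_im, sub_re, ofReal_re, ofReal_im, e1, e2]
  push_cast
  ring

/-- the coordinates of a point and the values of `f`, `D` -/
structure ZPt (P : Pt) (β : ℕ → ℝ) (px py ex ey : Int) (r s : ℝ) (x : ℂ) : Prop where
  xr : x.re = zX β px ex r s
  xi : x.im = zY β py ey r s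
  yr : (P.ys + x).re = β 128 + zX β px ex r s
  yi : (P.ys + x).im = β 129 + zY β py ey r s
  f : P.f x = zf β px py ex ey r s
  d0 : 1 - 2 * dt (uu 0) (P.ys + x) = zD0 β px ex r s
  d1 : 1 - 2 * dt (uu 1) (P.ys + x) = zD1 β px py ex ey r s
  d2 : 1 - 2 * dt (uu 2) (P.ys + x) = zD2 β px py ex ey r s

theorem zpt {P : Pt} {c : ℂ} {β : ℕ → ℝ} {l : Fin 12} {px py ex ey : Int} {r s : ℝ} {x : ℂ}
    (hb : HdB P c β) (he : EdI l px py ex ey) (hx : x = (r : ℂ) * xk kpz c l s) :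
    ZPt P β px py ex ey r s x := by
  have e1 : x.re = zX β px ex r s := by
    rw [hx, Complex.re_ofReal_mul, z_xh hb he]; rfl
  have e2 : x.im = zY β py ey r s := by
    rw [hx, Complex.im_ofReal_mul, z_yh hb he]; rfl
  have e3 : (P.ys + x).re = β 128 + zX β px ex r s := by rw [add_re, hb.h0, e1]
  have e4 : (P.ys + x).im = β 129 + zY β py ey r s := by rw [add_im, hb.h1, e2]
  refine ⟨e1, e2, e3, e4, ?_, ?_, ?_, ?_⟩
  · unfold Pt.f zf dt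
    rw [e1, e2, hb.h2, hb.h3, hb.h4]
  · have u1 : (uu 0).re = 1 := rfl
    have u2 : (uu 0).im = 0 := rfl
    unfold dt zD0
    rw [e3, e4, u1, u2]; ring
  · have u1 : (uu 1).re = -1 / 2 := rfl
    have u2 : (uu 1).im = s3 / 2 := rfl
    unfold dt zD1
    rw [e3, e4, u1, u2, hb.h5]; ring
  · have u1 : (uu 2).re = -1 / 2 := rfl
    have u2 : (uu 2).im = -(s3 / 2) := rfl
    unfold dt zD2
    rw [e3, e4, u1, u2, hb.h5]; ring

lemma normSq_mk (a b : ℝ) : normSq (⟨a, b⟩ : ℂ) = a * a + b * b := by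
  rw [normSq_apply]

lemma z_nsx {P : Pt} {β : ℕ → ℝ} {px py ex ey : Int} {r s : ℝ} {x : ℂ}
    (h : ZPt P β px py ex ey r s x) : normSq x = zX β px ex r s * zX β px ex r s +
      zY β py ey r s * zY β py ey r s := by
  rw [normSq_apply, h.xr, h.xi]

/-! ### the main inequality -/

theorem z_F0 {P : Pt} {β γ : ℕ → ℝ} {px py ex ey : Int} {r s : ℝ} {x : ℂ}
    (h : ZPt P β px py ex ey r s x) (hc : ∀ k, k < 128 → β k = γ k)
    (hD : 0 < 1 - 2 * dt (uu 0) (P.ys + x)) (hf : 1 / 2 < P.f x) (hf2 : P.f x ^ 2 ≤ 137 / 128)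
    {C3 : ℝ} {Q3 : ℂ} {Y3 dC dQ dY : ℝ}
    (hA : P.Apx x (Vx (P.ys + x) 0) (1 - 2 * dt (uu 0) (P.ys + x))
      (E0h γ 0 x.re x.im x.re x.im) ⟨G0h γ 33 x.re x.im x.re x.im, G0h γ 77 x.re x.im x.re x.im⟩
      C3 Q3 Y3 (normSq x / 2 ^ 20) (‖x‖ / 2 ^ 18) dC dQ dY)
    {R0 R1 : Int} (hR : 0 < ((R0 : ℝ) + R1 * r) / 2 ^ 14)
    (hv : 0 ≤ vZF0_F β px py ex ey R0 R1 r s) : P.FI (((R0 : ℝ) + R1 * r) / 2 ^ 14) x 0 := by
  refine FI_core rfl hD hA.E hA.G hR hf hf2 ?_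
  have hnx := z_nsx h
  have e1 : (‖x‖ / 2 ^ 18) ^ 2 = normSq x / 2 ^ 36 := by
    rw [normSq_eq_norm_sq]; ring
  rw [e1, hnx, normSq_mk, h.d0, h.f, h.xr, h.xi, ← zE0h_congr hc, ← zG0h_congr hc 33 (by norm_num),
    ← zG0h_congr hc 77 (by norm_num)]
  unfold vZF0_F at hv
  have a1 : zX β px ex r s = r * zXh β px ex s := rfl
  have a2 : zY β py ey r s = r * zYh β py ey s := rfl
  obtain ⟨X, hX⟩ : ∃ X, X = zXh β px ex s := ⟨_, rfl⟩
  obtain ⟨Y, hY⟩ : ∃ Y, Y = zYh β py ey s := ⟨_, rfl⟩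
  have a3 : zn β px py ex ey s = X * X + Y * Y := by rw [hX, hY]; rfl
  rw [← hX] at a1
  rw [← hY] at a2
  rw [← hX, ← hY, a3, a1, a2] at hv
  rw [a1, a2]
  rw [← E0h_scale, ← G0h_scale, ← G0h_scale]
  have h2 := mul_nonneg (sq_nonneg r) hv
  have h3 : 0 ≤ r ^ 2 * (X * X + Y * Y) * (1 / 33554432 - 1025 / 2 ^ 36) :=
    mul_nonneg (by nlinarith [mul_nonneg (sq_nonneg r) (add_nonneg (mul_self_nonneg X)
      (mul_self_nonneg Y))]) (by norm_num)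
  refine le_of_le_of_eq (add_nonneg h2 h3) ?_
  ring

theorem z_F1 {P : Pt} {β γ : ℕ → ℝ} {px py ex ey : Int} {r s : ℝ} {x : ℂ}
    (h : ZPt P β px py ex ey r s x) (hc : ∀ k, k < 128 → β k = γ k)
    (hD : 0 < 1 - 2 * dt (uu 1) (P.ys + x)) (hf : 1 / 2 < P.f x) (hf2 : P.f x ^ 2 ≤ 137 / 128)
    {C3 : ℝ} {Q3 : ℂ} {Y3 dC dQ dY : ℝ}
    (hA : P.Apx x (Vx (P.ys + x) 1) (1 - 2 * dt (uu 1) (P.ys + x))
      (E1f γ 0 x.re x.im) ⟨G1f γ 36 x.re x.im, G1f γ 81 x.re x.im⟩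
      C3 Q3 Y3 (1 / 2 ^ 20) (1 / 2 ^ 18) dC dQ dY)
    {R0 R1 : Int} (hR : 0 < ((R0 : ℝ) + R1 * r) / 2 ^ 14)
    (hv : 0 ≤ vZF1_F β px py ex ey R0 R1 r s) : P.FI (((R0 : ℝ) + R1 * r) / 2 ^ 14) x 1 := by
  refine FI_core rfl hD hA.E hA.G hR hf hf2 ?_
  have hnx := z_nsx h
  unfold E1f G1f
  rw [hnx, normSq_mk, h.d1, h.f, h.xr, h.xi, ← zhr2_congr hc _ _ 7 0 (by norm_num),
    ← zhr2_congr hc _ _ 8 36 (by norm_num), ← zhr2_congr hc _ _ 8 81 (by norm_num)]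
  unfold vZF1_F at hv
  have h3 : (0 : ℝ) ≤ 1 / 33554432 - 1025 / 2 ^ 36 := by norm_num
  refine le_of_le_of_eq (add_nonneg hv h3) ?_
  ring

theorem z_F2 {P : Pt} {β γ : ℕ → ℝ} {px py ex ey : Int} {r s : ℝ} {x : ℂ}
    (h : ZPt P β px py ex ey r s x) (hc : ∀ k, k < 128 → β k = γ k)
    (hD : 0 < 1 - 2 * dt (uu 2) (P.ys + x)) (hf : 1 / 2 < P.f x) (hf2 : P.f x ^ 2 ≤ 137 / 128)
    {C3 : ℝ} {Q3 : ℂ} {Y3 dC dQ dY : ℝ}
    (hA : P.Apx x (Vx (P.ys + x) 2) (1 - 2 * dt (uu 2) (P.ys + x))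
      (E1f γ 0 x.re x.im) ⟨G1f γ 36 x.re x.im, G1f γ 81 x.re x.im⟩
      C3 Q3 Y3 (1 / 2 ^ 20) (1 / 2 ^ 18) dC dQ dY)
    {R0 R1 : Int} (hR : 0 < ((R0 : ℝ) + R1 * r) / 2 ^ 14)
    (hv : 0 ≤ vZF2_F β px py ex ey R0 R1 r s) : P.FI (((R0 : ℝ) + R1 * r) / 2 ^ 14) x 2 := by
  refine FI_core rfl hD hA.E hA.G hR hf hf2 ?_
  have hnx := z_nsx h
  unfold E1f G1f
  rw [hnx, normSq_mk, h.d2, h.f, h.xr, h.xi, ← zhr2_congr hc _ _ 7 0 (by norm_num),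
    ← zhr2_congr hc _ _ 8 36 (by norm_num), ← zhr2_congr hc _ _ 8 81 (by norm_num)]
  unfold vZF2_F at hv
  have h3 : (0 : ℝ) ≤ 1 / 33554432 - 1025 / 2 ^ 36 := by norm_num
  refine le_of_le_of_eq (add_nonneg hv h3) ?_
  ring

end Pool.H61.Rh
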