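import Pool.Agent.H81.Lv.Zb

/-! # Ze: the inequalities of a zone from the values of the zone programs -/

set_option autoImplicit false

namespace Pool.H61.Rh

open Complex Pool.H47.Kc Pool.H47.K3

noncomputable def wQ (β : ℕ → ℝ) (px py ex ey Qb : Int) (D r s : ℝ) : ℝ :=
  ((((((Qb : ℝ) / 2 ^ 8) * ((Qb : ℝ) / 2 ^ 8)) * (((zf β px py ex ey r s) * (zf β px py ex ey r s)) * (D * D))) - ((((hr2 β (zX β px ex r s) (zY β py ey r s) 36 6) * (hr2 β (zX β px ex r s) (zY β py ey r s) 36 6)) + ((hr2 β (zX β px ex r s) (zY β py ey r s) 64 6) * (hr2 β (zX β px ex r s) (zY β py ey r s) 64 6))) * (257 / 256 : ℝ))) - (257 / 67108864 : ℝ))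

noncomputable def wW (β : ℕ → ℝ) (px py ex ey lam K0 K1 Ph : Int) (D r s : ℝ) : ℝ :=
  ((((((lam : ℝ) / 2 ^ 6) * (4 : ℝ)) * ((zf β px py ex ey r s) * (D * D))) * (((((K0 : ℝ) / 2 ^ 14) + (((K1 : ℝ) / 2 ^ 14) * r)) * ((zf β px py ex ey r s) * (zf β px py ex ey r s))) + ((β 137) * ((hr2 β (zX β px ex r s) (zY β py ey r s) 92 4) - (1 / 65536 : ℝ))))) - (((Ph : ℝ) / 2 ^ 10) * (((((((((lam : ℝ) / 2 ^ 6) * D) * ((β 128) + (zX β px ex r s))) - (((zf β px py ex ey r s) * (hr2 β (zX β px ex r s) (zY β py ey r s) 36 6)) + (((β 136) * (hr2 β (zX β px ex r s) (zY β py ey r s) 0 7)) * ((β 128) + (zX β px ex r s))))) * (((((lam : ℝ) / 2 ^ 6) * D) * ((β 128) + (zX β px ex r s))) - (((zf β px py ex ey r s) * (hr2 β (zX β px ex r s) (zY β py ey r s) 36 6)) + (((β 136) * (hr2 β (zX β px ex r s) (zY β py ey r s) 0 7)) * ((β 128)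 + (zX β px ex r s)))))) + ((((((lam : ℝ) / 2 ^ 6) * D) * ((β 129) + (zY β py ey r s))) - (((zf β px py ex ey r s) * (hr2 β (zX β px ex r s) (zY β py ey r s) 64 6)) + (((β 136) * (hr2 β (zX β px ex r s) (zY β py ey r s) 0 7)) * ((β 129) + (zY β py ey r s))))) * (((((lam : ℝ) / 2 ^ 6) * D) * ((β 129) + (zY β py ey r s))) - (((zf β px py ex ey r s) * (hr2 β (zX β px ex r s) (zY β py ey r s) 64 6)) + (((β 136) * (hr2 β (zX β px ex r s) (zY β py ey r s) 0 7)) * ((β 129) + (zY β py ey r s))))))) * (257 / 256 : ℝ)) + (257 / 16777216 : ℝ))))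

noncomputable def wC0 (β : ℕ → ℝ) (px py ex ey : Int) (r s : ℝ) : ℝ :=
  ((hr2 β (zX β px ex r s) (zY β py ey r s) 0 7) - (1 / 16384 : ℝ))

noncomputable def wC1 (β : ℕ → ℝ) (px py ex ey cb : Int) (D r s : ℝ) : ℝ :=
  (((((cb : ℝ) / 2 ^ 8) * ((((zf β px py ex ey r s) * (zf β px py ex ey r s)) * (zf β px py ex ey r s)) * D)) - (hr2 β (zX β px ex r s) (zY β py ey r s) 0 7)) - (1 / 16384 : ℝ))

noncomputable def wP1 (β : ℕ → ℝ) (px py ex ey pb : Int) (r s : ℝ) : ℝ :=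
  (((((pb : ℝ) / 2 ^ 8) * ((zf β px py ex ey r s) * (zf β px py ex ey r s))) - (hr2 β (zX β px ex r s) (zY β py ey r s) 92 4)) - (1 / 65536 : ℝ))

noncomputable def wP2 (β : ℕ → ℝ) (px py ex ey pb : Int) (r s : ℝ) : ℝ :=
  (((((pb : ℝ) / 2 ^ 8) * ((zf β px py ex ey r s) * (zf β px py ex ey r s))) + (hr2 β (zX β px ex r s) (zY β py ey r s) 92 4)) - (1 / 65536 : ℝ))

noncomputable def wH (β : ℕ → ℝ) (px py ex ey hb : Int) (r s : ℝ) : ℝ :=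
  ((((hb : ℝ) / 2 ^ 10) * ((hb : ℝ) / 2 ^ 10)) - ((((β 128) + (zX β px ex r s)) * ((β 128) + (zX β px ex r s))) + (((β 129) + (zY β py ey r s)) * ((β 129) + (zY β py ey r s)))))

/-- the constant `hb` of a zone -/
noncomputable def ZD.hbr (d : ZD) : ℝ := if d.far = true then 8887 / 10000 else (d.hb : ℝ) / 2 ^ 10

/-- the constants of a zone at `r`, for the value `f` -/
noncomputable def ZD.zc (d : ZD) (r f : ℝ) : ZC where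
  R := ((d.R0 : ℝ) + d.R1 * r) / 2 ^ 14 + 1 / 8192
  lam := ((d.lam : ℝ) / 2 ^ 6) / f ^ 3
  hb := d.hbr
  Φ := (d.Ph : ℝ) / 2 ^ 10
  cb := (d.cb : ℝ) / 2 ^ 8
  Qb := (d.Qb : ℝ) / 2 ^ 8
  pb := (d.pb : ℝ) / 2 ^ 8

/-- real conditions on the constants -/
structure ZD.Ok (d : ZD) : Prop where
  R0 : 0 < d.R0
  R1 : 0 < d.R0 + d.R1
  lam : 0 < d.lam
  Ph : 0 ≤ d.Ph
  Qb : 0 ≤ d.Qb
  K1 : d.K1 = -d.R1
  hb0 : 0 ≤ d.hbr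
  hb1 : d.hbr ≤ 8887 / 10000
  Φ : 1 ≤ (d.Ph : ℝ) / 2 ^ 10 * (1 - 2874 / 10000 * d.hbr)
  K : Kz d.hbr ((d.Ph : ℝ) / 2 ^ 10) ((d.cb : ℝ) / 2 ^ 8) ((d.Qb : ℝ) / 2 ^ 8)
    ((d.pb : ℝ) / 2 ^ 8) ≤ 6 - 1 / 8192 - ((d.R0 : ℝ) + d.K0) / 2 ^ 14

theorem ZD.Ok.rp {d : ZD} (h : d.Ok) {r : ℝ} (r0 : 0 ≤ r) (r1 : r ≤ 1) :
    0 < ((d.R0 : ℝ) + d.R1 * r) / 2 ^ 14 := by
  have h0 : (0 : ℝ) < d.R0 := by exact_mod_cast h.R0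
  have h1 : (0 : ℝ) < (d.R0 : ℝ) + d.R1 := by exact_mod_cast h.R1
  refine div_pos ?_ (by norm_num)
  have e : (d.R0 : ℝ) + d.R1 * r = (1 - r) * d.R0 + r * ((d.R0 : ℝ) + d.R1) := by ring
  rw [e]
  rcases le_or_gt r (1 / 2) with h2 | h2
  · have := mul_nonneg r0 h1.le
    nlinarith
  · have := mul_nonneg (by linarith : (0 : ℝ) ≤ 1 - r) h0.le
    nlinarith

theorem ZD.Ok.zok {d : ZD} (h : d.Ok) {r f : ℝ} (r0 : 0 ≤ r) (r1 : r ≤ 1) (hf : 0 < f) :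
    (d.zc r f).Ok (1 / 8192) := by
  refine ⟨?_, ?_, h.hb0, h.hb1, h.Φ, ?_⟩
  · show (1 : ℝ) / 8192 < ((d.R0 : ℝ) + d.R1 * r) / 2 ^ 14 + 1 / 8192
    linarith [h.rp r0 r1]
  · show (0 : ℝ) < ((d.lam : ℝ) / 2 ^ 6) / f ^ 3
    have : (0 : ℝ) < d.lam := by exact_mod_cast h.lam
    positivity
  · show (0 : ℝ) ≤ (d.Qb : ℝ) / 2 ^ 8
    have : (0 : ℝ) ≤ d.Qb := by exact_mod_cast h.Qb
    positivity

/-- **the inequalities of a zone** -/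
theorem zn_of {P : Pt} {c : ℂ} {β γ : ℕ → ℝ} {r s : ℝ} {x η : ℂ} {d : ZD}
    (h : ZPt P β d.px d.py d.ex d.ey r s x) (hb : HdB P c β) (hc : ∀ k, k < 128 → β k = γ k)
    (hd : d.Ok) (r0 : 0 ≤ r) (r1 : r ≤ 1) {D : ℝ} (hD : 0 < D) (hf : 1 / 2 < P.f x)
    (hf1 : P.f x ≤ 3 / 2) (hy : normSq (P.ys + x) ≤ (8887 / 10000) ^ 2)
    {E3 dE dG : ℝ} {G3 : ℂ}
    (hA : P.Apx x η D E3 G3 (C3f γ 0 x.re x.im) ⟨Q3f γ 36 x.re x.im, Q3f γ 64 x.re x.im⟩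
      (Y3f γ 92 x.re x.im) dE dG (1 / 2 ^ 14) (1 / 2 ^ 13) (1 / 2 ^ 16))
    (vQ : 0 ≤ wQ β d.px d.py d.ex d.ey d.Qb D r s)
    (vW : 0 ≤ wW β d.px d.py d.ex d.ey d.lam d.K0 d.K1 d.Ph D r s)
    (vC0 : 0 ≤ wC0 β d.px d.py d.ex d.ey r s)
    (vC1 : 0 ≤ wC1 β d.px d.py d.ex d.ey d.cb D r s)
    (vP1 : 0 ≤ wP1 β d.px d.py d.ex d.ey d.pb r s)
    (vP2 : 0 ≤ wP2 β d.px d.py d.ex d.ey d.pb r s)
    (vH : d.far = false → 0 ≤ wH β d.px d.py d.ex d.ey d.hb r s) :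
    P.Zn (d.zc r (P.f x)) x η D := by
  have hf0 : 0 < P.f x := by linarith
  have hf3 : P.f x ^ 3 ≠ 0 := by positivity
  have hlam : (0 : ℝ) < d.lam := by exact_mod_cast hd.lam
  have hPh : (0 : ℝ) ≤ d.Ph := by exact_mod_cast hd.Ph
  have hK1 : (d.K1 : ℝ) = -(d.R1 : ℝ) := by rw [hd.K1]; push_cast; ring
  have hns : normSq (P.ys + x) = (β 128 + zX β d.px d.ex r s) * (β 128 + zX β d.px d.ex r s) +
      (β 129 + zY β d.py d.ey r s) * (β 129 + zY β d.py d.ey r s) := by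
    rw [normSq_apply, h.yr, h.yi]
  have eC : C3f γ 0 x.re x.im = hr2 β (zX β d.px d.ex r s) (zY β d.py d.ey r s) 0 7 := by
    unfold C3f
    rw [h.xr, h.xi, zhr2_congr hc _ _ 7 0 (by norm_num)]
  have eQ1 : Q3f γ 36 x.re x.im = hr2 β (zX β d.px d.ex r s) (zY β d.py d.ey r s) 36 6 := by
    unfold Q3f
    rw [h.xr, h.xi, zhr2_congr hc _ _ 6 36 (by norm_num)]
  have eQ2 : Q3f γ 64 x.re x.im = hr2 β (zX β d.px d.ex r s) (zY β d.py d.ey r s) 64 6 := by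
    unfold Q3f
    rw [h.xr, h.xi, zhr2_congr hc _ _ 6 64 (by norm_num)]
  have eY : Y3f γ 92 x.re x.im = hr2 β (zX β d.px d.ex r s) (zY β d.py d.ey r s) 92 4 := by
    unfold Y3f
    rw [h.xr, h.xi, zhr2_congr hc _ _ 4 92 (by norm_num)]
  rw [eC, eQ1, eQ2, eY] at hA
  unfold wC0 at vC0
  unfold wC1 at vC1
  unfold wP1 at vP1
  unfold wP2 at vP2
  unfold wQ at vQ
  unfold wW at vW
  obtain ⟨C, hC⟩ : ∃ C, C = hr2 β (zX β d.px d.ex r s) (zY β d.py d.ey r s) 0 7 := ⟨_, rfl⟩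
  obtain ⟨Q1, hQ1⟩ : ∃ C, C = hr2 β (zX β d.px d.ex r s) (zY β d.py d.ey r s) 36 6 := ⟨_, rfl⟩
  obtain ⟨Q2, hQ2⟩ : ∃ C, C = hr2 β (zX β d.px d.ex r s) (zY β d.py d.ey r s) 64 6 := ⟨_, rfl⟩
  obtain ⟨Y, hY⟩ : ∃ C, C = hr2 β (zX β d.px d.ex r s) (zY β d.py d.ey r s) 92 4 := ⟨_, rfl⟩
  rw [← hC, ← hQ1, ← hQ2, ← hY] at hA vW
  rw [← hC] at vC0 vC1
  rw [← hQ1, ← hQ2] at vQ
  rw [← hY] at vP1 vP2
  rw [← h.f] at vC1 vP1 vP2 vQ vW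
  rw [hb.h8, hb.h9, ← h.yr, ← h.yi] at vW
  refine Zn_core hA (lz := (d.lam : ℝ) / 2 ^ 6) (K := ((d.K0 : ℝ) + d.K1 * r) / 2 ^ 14) hD
    (div_mul_cancel₀ _ hf3) ?_ ?_ hf0 hf1 (hy.trans (by norm_num)) ?_ ?_ ?_ ?_ ?_ ?_ ?_ ?_
  · show (0 : ℝ) ≤ ((d.lam : ℝ) / 2 ^ 6) / P.f x ^ 3
    positivity
  · show (0 : ℝ) ≤ (d.Ph : ℝ) / 2 ^ 10
    positivity
  · show normSq (P.ys + x) ≤ d.hbr ^ 2
    unfold ZD.hbr
    by_cases hfar : d.far = true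
    · rw [if_pos hfar]; exact hy
    · rw [if_neg hfar]
      have h0 := vH (by simpa using hfar)
      unfold wH at h0
      rw [hns]
      linarith
  · norm_num at vC0 ⊢; linarith
  · show 0 ≤ ((d.cb : ℝ) / 2 ^ 8) * P.f x ^ 3 * D - C - 1 / 2 ^ 14
    refine le_of_le_of_eq vC1 ?_
    ring
  · show 0 ≤ ((d.Qb : ℝ) / 2 ^ 8) ^ 2 * P.f x ^ 2 * D ^ 2 - 257 / 256 * normSq ⟨Q1, Q2⟩
      - 257 / 2 ^ 26
    rw [normSq_mk]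
    refine le_of_le_of_eq vQ ?_
    ring
  · show 0 ≤ ((d.pb : ℝ) / 2 ^ 8) * P.f x ^ 2 - Y - 1 / 2 ^ 16
    refine le_of_le_of_eq vP1 ?_
    ring
  · show 0 ≤ ((d.pb : ℝ) / 2 ^ 8) * P.f x ^ 2 + Y - 1 / 2 ^ 16
    refine le_of_le_of_eq vP2 ?_
    ring
  · show ((d.K0 : ℝ) + d.K1 * r) / 2 ^ 14 ≤ 6 - (((d.R0 : ℝ) + d.R1 * r) / 2 ^ 14 + 1 / 8192) -
      Kz d.hbr ((d.Ph : ℝ) / 2 ^ 10) ((d.cb : ℝ) / 2 ^ 8) ((d.Qb : ℝ) / 2 ^ 8) ((d.pb : ℝ) / 2 ^ 8)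
    have := hd.K
    rw [hK1]
    have e : ((d.K0 : ℝ) + -(d.R1 : ℝ) * r) / 2 ^ 14 + ((d.R0 : ℝ) + d.R1 * r) / 2 ^ 14 =
        ((d.R0 : ℝ) + d.K0) / 2 ^ 14 := by ring
    linarith
  · show 0 ≤ 4 * ((d.lam : ℝ) / 2 ^ 6) * P.f x * D ^ 2 * (((d.K0 : ℝ) + d.K1 * r) / 2 ^ 14 *
        P.f x ^ 2 + 493 / 1000 * (Y - 1 / 2 ^ 16))
      - (d.Ph : ℝ) / 2 ^ 10 * (257 / 256 * normSq ((((d.lam : ℝ) / 2 ^ 6 * D : ℝ) : ℂ) * (P.ys + x)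
          - ((P.f x : ℂ) * ⟨Q1, Q2⟩ + ((957 / 1000 * C : ℝ) : ℂ) * (P.ys + x))) + 257 / 2 ^ 24)
    have e1 : ((((d.lam : ℝ) / 2 ^ 6 * D : ℝ) : ℂ) * (P.ys + x)
          - ((P.f x : ℂ) * ⟨Q1, Q2⟩ + ((957 / 1000 * C : ℝ) : ℂ) * (P.ys + x))).re =
        (d.lam : ℝ) / 2 ^ 6 * D * (P.ys + x).re - (P.f x * Q1 + 957 / 1000 * C * (P.ys + x).re) := by
      rw [sub_re, add_re, re_ofReal_mul, re_ofReal_mul, re_ofReal_mul]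
    have e2 : ((((d.lam : ℝ) / 2 ^ 6 * D : ℝ) : ℂ) * (P.ys + x)
          - ((P.f x : ℂ) * ⟨Q1, Q2⟩ + ((957 / 1000 * C : ℝ) : ℂ) * (P.ys + x))).im =
        (d.lam : ℝ) / 2 ^ 6 * D * (P.ys + x).im - (P.f x * Q2 + 957 / 1000 * C * (P.ys + x).im) := by
      rw [sub_im, add_im, im_ofReal_mul, im_ofReal_mul, im_ofReal_mul]
    rw [normSq_apply, e1, e2]
    refine le_of_le_of_eq vW ?_
    ring

end Pool.H61.Rh
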