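import Pool.Agent.H81.Lv.Zk

/-! # Zg: the inequalities of the zones at a point of a sector -/

set_option autoImplicit false

namespace Pool.H61.Rh

open Complex Pool.H47.Kc Pool.H47.K3

/-- the zones of the vertex 0 -/
theorem zone0 {P : Pt} {c : ℂ} {θ r s : ℝ} {x : ℂ} {l : Fin 12} {SE SR : Nat → Sym}
    {gF gB gA : Dg} {T : ZT} (θ0 : 0 ≤ θ) (θ1 : θ ≤ 1) (r0 : 0 ≤ r) (r1 : r ≤ 1) (s0 : 0 ≤ s)
    (s1 : s ≤ 1) (kF : T.chk (fF0 SE gF) top = true) (kB : T.chk (fB0 SR gB) top = true)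
    (kA : T.chk (fA0 SR gA) top = true) (kK : T.chk (fun d _ => okZ l false d) top = true)
    {βE βR γE γR : ℕ → ℝ} (hE : EnclF SE θ βE) (hR : EnclF SR θ βR) (hbE : HdB P c βE)
    (hbR : HdB P c βR) (hcE : ∀ k, k < 128 → βE k = γE k) (hcR : ∀ k, k < 128 → βR k = γR k)
    (hx : x = (r : ℂ) * xk kpz c l s) (hD : 0 < 1 - 2 * dt (uu 0) (P.ys + x))
    (hf : 1 / 2 < P.f x) (hf2 : P.f x ^ 2 ≤ 137 / 128)
    (hy : normSq (P.ys + x) ≤ (8887 / 10000) ^ 2)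
    (hA : P.Apx x (Vx (P.ys + x) 0) (1 - 2 * dt (uu 0) (P.ys + x))
      (E0h γE 0 x.re x.im x.re x.im) ⟨G0h γE 33 x.re x.im x.re x.im, G0h γE 77 x.re x.im x.re x.im⟩
      (C3f γR 0 x.re x.im) ⟨Q3f γR 36 x.re x.im, Q3f γR 64 x.re x.im⟩ (Y3f γR 92 x.re x.im)
      (normSq x / 2 ^ 20) (‖x‖ / 2 ^ 18) (1 / 2 ^ 14) (1 / 2 ^ 13) (1 / 2 ^ 16)) :
    ∃ z : ZC, z.Ok (1 / 8192) ∧ P.Zn z x (Vx (P.ys + x) 0) (1 - 2 * dt (uu 0) (P.ys + x)) ∧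
      P.FI (z.R - 1 / 8192) x 0 := by
  have hi := top_in θ0 θ1 r0 r1 s0 s1
  obtain ⟨d, hd⟩ := ZT.At_ex θ r s T
  obtain ⟨BK, -, hK⟩ := hd.chk _ kK hi
  obtain ⟨BF, iF, hF⟩ := hd.chk _ kF hi
  obtain ⟨BB, iB, hB⟩ := hd.chk _ kB hi
  obtain ⟨BA, iA, hA'⟩ := hd.chk _ kA hi
  obtain ⟨hok, hed, hqz⟩ := okZ_sound hK
  have hzE := zpt hbE hed hx
  have hzR := zpt hbR hed hx
  have hvF := fF0_sound hF iF hE
  obtain ⟨vQ, vW⟩ := fB0_sound hB iB hR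
  obtain ⟨vC0, vC1, vP1, vP2, vH⟩ := fA0_sound hA' iA hR
  have hf1 : P.f x ≤ 3 / 2 := by nlinarith
  refine ⟨d.zc r (P.f x), hok.zok r0 r1 (by linarith), ?_, ?_⟩
  · refine zn_of hzR hbR hcR hok r0 r1 hD hf hf1 hy hA ?_ ?_ ?_ ?_ ?_ ?_ ?_
    · rw [hzR.d0]; exact vQ
    · rw [hzR.d0]; exact vW
    · exact vC0
    · rw [hzR.d0]; exact vC1
    · exact vP1
    · exact vP2
    · exact vH
  · have eR : (d.zc r (P.f x)).R - 1 / 8192 = ((d.R0 : ℝ) + d.R1 * r) / 2 ^ 14 := by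
      show ((d.R0 : ℝ) + d.R1 * r) / 2 ^ 14 + 1 / 8192 - 1 / 8192 = _
      ring
    rw [eR]
    rcases hvF with hv | ⟨k1, -, -⟩
    · exact z_F0 hzE hcE hD hf hf2 hA (hok.rp r0 r1) hv
    · -- the skipped part
      rcases hqz with hq | ⟨hq, -⟩
      · exact absurd k1 (by omega)
      · exact absurd hq (by simp)

/-- the zones of the vertex 1 -/
theorem zone1 {P : Pt} {c : ℂ} {θ r s : ℝ} {x : ℂ} {l : Fin 12} {SE SR : Nat → Sym}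
    {gF gB gA : Dg} {T : ZT} (θ0 : 0 ≤ θ) (θ1 : θ ≤ 1) (r0 : 0 ≤ r) (r1 : r ≤ 1) (s0 : 0 ≤ s)
    (s1 : s ≤ 1) (kF : T.chk (fF1 SE gF) top = true) (kB : T.chk (fB1 SR gB) top = true)
    (kA : T.chk (fA1 SR gA) top = true) (kK : T.chk (fun d _ => okZ l false d) top = true)
    {βE βR γE γR : ℕ → ℝ} (hE : EnclF SE θ βE) (hR : EnclF SR θ βR) (hbE : HdB P c βE)
    (hbR : HdB P c βR) (hcE : ∀ k, k < 128 → βE k = γE k) (hcR : ∀ k, k < 128 → βR k = γR k)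
    (hx : x = (r : ℂ) * xk kpz c l s) (hD : 0 < 1 - 2 * dt (uu 1) (P.ys + x))
    (hf : 1 / 2 < P.f x) (hf2 : P.f x ^ 2 ≤ 137 / 128)
    (hy : normSq (P.ys + x) ≤ (8887 / 10000) ^ 2)
    (hA : P.Apx x (Vx (P.ys + x) 1) (1 - 2 * dt (uu 1) (P.ys + x))
      (E1f γE 0 x.re x.im) ⟨G1f γE 36 x.re x.im, G1f γE 81 x.re x.im⟩
      (C3f γR 0 x.re x.im) ⟨Q3f γR 36 x.re x.im, Q3f γR 64 x.re x.im⟩ (Y3f γR 92 x.re x.im)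
      (1 / 2 ^ 20) (1 / 2 ^ 18) (1 / 2 ^ 14) (1 / 2 ^ 13) (1 / 2 ^ 16)) :
    ∃ z : ZC, z.Ok (1 / 8192) ∧ P.Zn z x (Vx (P.ys + x) 1) (1 - 2 * dt (uu 1) (P.ys + x)) ∧
      P.FI (z.R - 1 / 8192) x 1 := by
  have hi := top_in θ0 θ1 r0 r1 s0 s1
  obtain ⟨d, hd⟩ := ZT.At_ex θ r s T
  obtain ⟨BK, -, hK⟩ := hd.chk _ kK hi
  obtain ⟨BF, iF, hF⟩ := hd.chk _ kF hi
  obtain ⟨BB, iB, hB⟩ := hd.chk _ kB hi
  obtain ⟨BA, iA, hA'⟩ := hd.chk _ kA hi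
  obtain ⟨hok, hed, hqz⟩ := okZ_sound hK
  have hzE := zpt hbE hed hx
  have hzR := zpt hbR hed hx
  have hvF := fF1_sound hF iF hE
  obtain ⟨vQ, vW⟩ := fB1_sound hB iB hR
  obtain ⟨vC0, vC1, vP1, vP2, vH⟩ := fA1_sound hA' iA hR
  have hf1 : P.f x ≤ 3 / 2 := by nlinarith
  refine ⟨d.zc r (P.f x), hok.zok r0 r1 (by linarith), ?_, ?_⟩
  · refine zn_of hzR hbR hcR hok r0 r1 hD hf hf1 hy hA ?_ ?_ ?_ ?_ ?_ ?_ ?_
    · rw [hzR.d1]; exact vQ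
    · rw [hzR.d1]; exact vW
    · exact vC0
    · rw [hzR.d1]; exact vC1
    · exact vP1
    · exact vP2
    · exact vH
  · have eR : (d.zc r (P.f x)).R - 1 / 8192 = ((d.R0 : ℝ) + d.R1 * r) / 2 ^ 14 := by
      show ((d.R0 : ℝ) + d.R1 * r) / 2 ^ 14 + 1 / 8192 - 1 / 8192 = _
      ring
    rw [eR]
    rcases hvF with hv | ⟨k1, -, -⟩
    · exact z_F1 hzE hcE hD hf hf2 hA (hok.rp r0 r1) hv
    · -- the skipped part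
      rcases hqz with hq | ⟨hq, -⟩
      · exact absurd k1 (by omega)
      · exact absurd hq (by simp)

/-- the zones of the vertex 2 -/
theorem zone2 {P : Pt} {c : ℂ} {θ r s : ℝ} {x : ℂ} {l : Fin 12} {SE SR : Nat → Sym}
    {gF gB gA : Dg} {T : ZT} (θ0 : 0 ≤ θ) (θ1 : θ ≤ 1) (r0 : 0 ≤ r) (r1 : r ≤ 1) (s0 : 0 ≤ s)
    (s1 : s ≤ 1) (kF : T.chk (fF2 SE gF) top = true) (kB : T.chk (fB2 SR gB) top = true)
    (kA : T.chk (fA2 SR gA) top = true) (kK : T.chk (fun d _ => okZ l true d) top = true)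
    {βE βR γE γR : ℕ → ℝ} (hE : EnclF SE θ βE) (hR : EnclF SR θ βR) (hbE : HdB P c βE)
    (hbR : HdB P c βR) (hcE : ∀ k, k < 128 → βE k = γE k) (hcR : ∀ k, k < 128 → βR k = γR k)
    (hx : x = (r : ℂ) * xk kpz c l s) (hD : 0 < 1 - 2 * dt (uu 2) (P.ys + x))
    (hf : 1 / 2 < P.f x) (hf2 : P.f x ^ 2 ≤ 137 / 128)
    (hy : normSq (P.ys + x) ≤ (8887 / 10000) ^ 2)
    (hA : P.Apx x (Vx (P.ys + x) 2) (1 - 2 * dt (uu 2) (P.ys + x))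
      (E1f γE 0 x.re x.im) ⟨G1f γE 36 x.re x.im, G1f γE 81 x.re x.im⟩
      (C3f γR 0 x.re x.im) ⟨Q3f γR 36 x.re x.im, Q3f γR 64 x.re x.im⟩ (Y3f γR 92 x.re x.im)
      (1 / 2 ^ 20) (1 / 2 ^ 18) (1 / 2 ^ 14) (1 / 2 ^ 13) (1 / 2 ^ 16))
    (hN : 3 / 4 ≤ θ → r * (Kx l + (kpz - 1) * (5 / 4)) ≤ 1 / 16 → P.FI 5 x 2) :
    ∃ z : ZC, z.Ok (1 / 8192) ∧ P.Zn z x (Vx (P.ys + x) 2) (1 - 2 * dt (uu 2) (P.ys + x)) ∧
      P.FI (z.R - 1 / 8192) x 2 := by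
  have hi := top_in θ0 θ1 r0 r1 s0 s1
  obtain ⟨d, hd⟩ := ZT.At_ex θ r s T
  obtain ⟨BK, -, hK⟩ := hd.chk _ kK hi
  obtain ⟨BF, iF, hF⟩ := hd.chk _ kF hi
  obtain ⟨BB, iB, hB⟩ := hd.chk _ kB hi
  obtain ⟨BA, iA, hA'⟩ := hd.chk _ kA hi
  obtain ⟨hok, hed, hqz⟩ := okZ_sound hK
  have hzE := zpt hbE hed hx
  have hzR := zpt hbR hed hx
  have hvF := fF2_sound hF iF hE
  obtain ⟨vQ, vW⟩ := fB2_sound hB iB hR
  obtain ⟨vC0, vC1, vP1, vP2, vH⟩ := fA2_sound hA' iA hR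
  have hf1 : P.f x ≤ 3 / 2 := by nlinarith
  refine ⟨d.zc r (P.f x), hok.zok r0 r1 (by linarith), ?_, ?_⟩
  · refine zn_of hzR hbR hcR hok r0 r1 hD hf hf1 hy hA ?_ ?_ ?_ ?_ ?_ ?_ ?_
    · rw [hzR.d2]; exact vQ
    · rw [hzR.d2]; exact vW
    · exact vC0
    · rw [hzR.d2]; exact vC1
    · exact vP1
    · exact vP2
    · exact vH
  · have eR : (d.zc r (P.f x)).R - 1 / 8192 = ((d.R0 : ℝ) + d.R1 * r) / 2 ^ 14 := by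
      show ((d.R0 : ℝ) + d.R1 * r) / 2 ^ 14 + 1 / 8192 - 1 / 8192 = _
      ring
    rw [eR]
    rcases hvF with hv | ⟨k1, k2, k3⟩
    · exact z_F2 hzE hcE hD hf hf2 hA (hok.rp r0 r1) hv
    · -- the skipped part
      rcases hqz with hq | ⟨-, hq⟩
      · exact absurd k1 (by omega)
      · obtain ⟨g1, g2⟩ := okQ_sound hq r0 k3
        exact FI_mono (by norm_num) g2 (hN k2 g1)

end Pool.H61.Rh
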