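import Pool.Agent.H81.Lv.Zb
import Pool.Agent.H61.Rz.En
import Pool.Agent.H81.Lv.SymA
import Pool.Agent.H81.Lv.SymB

/-! # Zi: the symbols of the zones -/

set_option autoImplicit false

namespace Pool.H61.Rh

open Complex Pool.H47.Kc Pool.H47.K3

/-- the centre of the sectors -/
noncomputable def ytz (θ : ℝ) : ℂ := ⟨(-1116 + 108 * θ) / 2 ^ 13, (6 + 1719 * θ) / 2 ^ 13⟩

/-- the values of the head symbols -/
noncomputable def hdl (P : Pt) (θ : ℝ) : List ℝ :=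
  [P.ys.re, P.ys.im, P.fs, P.ns.re, P.ns.im, s3, (ytz θ).re, (ytz θ).im, 957 / 1000, 493 / 1000]

/-- the values of the symbols of the zones -/
noncomputable def bz (S : Nat → Sym) (P : Pt) (θ : ℝ) (i : ℕ) : ℝ :=
  if i < 128 then nomF S θ i else Pool.H47.Kc.get 0 (hdl P θ) (i - 128)

theorem bz_hd (S : Nat → Sym) (P : Pt) (θ : ℝ) : HdB P (ytz θ) (bz S P θ) where
  h0 := by unfold bz; rw [if_neg (by norm_num)]; rfl
  h1 := by unfold bz; rw [if_neg (by norm_num)]; rfl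
  h2 := by unfold bz; rw [if_neg (by norm_num)]; rfl
  h3 := by unfold bz; rw [if_neg (by norm_num)]; rfl
  h4 := by unfold bz; rw [if_neg (by norm_num)]; rfl
  h5 := by unfold bz; rw [if_neg (by norm_num)]; rfl
  h6 := by unfold bz; rw [if_neg (by norm_num)]; rfl
  h7 := by unfold bz; rw [if_neg (by norm_num)]; rfl
  h8 := by unfold bz; rw [if_neg (by norm_num)]; rfl
  h9 := by unfold bz; rw [if_neg (by norm_num)]; rfl

/-- enclosure of the head values -/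
def HdE (H : List Sym) (P : Pt) (θ : ℝ) : Prop :=
  ∀ k, |Pool.H47.Kc.get 0 (hdl P θ) k - pval (get2 ⟨[], 0⟩ H k).p θ| ≤
    ((get2 ⟨[], 0⟩ H k).eps : ℝ) / 2 ^ 60

theorem hdE_of {H : List Sym} {P : Pt} {θ : ℝ} {Sy : Nat → Sym} (hE : Encl81 Sy P θ)
    {e6 e7 : Sym} (h6 : |(ytz θ).re - pval e6.p θ| ≤ (e6.eps : ℝ) / 2 ^ 60)
    (h7 : |(ytz θ).im - pval e7.p θ| ≤ (e7.eps : ℝ) / 2 ^ 60)
    (hH : H = [Sy 0, Sy 1, Sy 15, Sy 5, Sy 6, Sy 78, e6, e7, Sy 79, Sy 80]) : HdE H P θ := by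
  subst hH
  intro k
  match k with
  | 0 => exact hE 0 (by norm_num)
  | 1 => exact hE 1 (by norm_num)
  | 2 => exact hE 15 (by norm_num)
  | 3 => exact hE 5 (by norm_num)
  | 4 => exact hE 6 (by norm_num)
  | 5 => exact hE 78 (by norm_num)
  | 6 => exact h6
  | 7 => exact h7
  | 8 => exact hE 79 (by norm_num)
  | 9 => exact hE 80 (by norm_num)
  | n + 10 =>
    show |(0 : ℝ) - pval [] θ| ≤ ((0 : ℕ) : ℝ) / 2 ^ 60
    rw [pval_nil]; norm_num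

theorem yt6 (θ : ℝ) : |(ytz θ).re - pval [(⟨.negSucc 278, 11⟩ : Fx), ⟨.ofNat 27, 11⟩] θ| ≤
    ((0 : ℕ) : ℝ) / 2 ^ 60 := by
  have e : pval [(⟨.negSucc 278, 11⟩ : Fx), ⟨.ofNat 27, 11⟩] θ =
      ((Int.negSucc 278 : ℤ) : ℝ) / 2 ^ 11 + θ * (((Int.ofNat 27 : ℤ) : ℝ) / 2 ^ 11 + θ * 0) := rfl
  have e2 : (ytz θ).re = (-1116 + 108 * θ) / 2 ^ 13 := rfl
  have e3 : ((Int.negSucc 278 : ℤ) : ℝ) = -279 := by norm_num [Int.negSucc_eq]
  have e4 : ((Int.ofNat 27 : ℤ) : ℝ) = 27 := by norm_num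
  rw [e, e2, e3, e4]
  have : (-1116 + 108 * θ) / 2 ^ 13 - (-279 / 2 ^ 11 + θ * (27 / 2 ^ 11 + θ * 0)) = 0 := by ring
  rw [this]; norm_num

theorem yt7 (θ : ℝ) : |(ytz θ).im - pval [(⟨.ofNat 3, 12⟩ : Fx), ⟨.ofNat 1719, 13⟩] θ| ≤
    ((0 : ℕ) : ℝ) / 2 ^ 60 := by
  have e : pval [(⟨.ofNat 3, 12⟩ : Fx), ⟨.ofNat 1719, 13⟩] θ =
      ((Int.ofNat 3 : ℤ) : ℝ) / 2 ^ 12 + θ * (((Int.ofNat 1719 : ℤ) : ℝ) / 2 ^ 13 + θ * 0) := rfl
  have e2 : (ytz θ).im = (6 + 1719 * θ) / 2 ^ 13 := rfl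
  have e3 : ((Int.ofNat 3 : ℤ) : ℝ) = 3 := by norm_num
  have e4 : ((Int.ofNat 1719 : ℤ) : ℝ) = 1719 := by norm_num
  rw [e, e2, e3, e4]
  have : (6 + 1719 * θ) / 2 ^ 13 - (3 / 2 ^ 12 + θ * (1719 / 2 ^ 13 + θ * 0)) = 0 := by ring
  rw [this]; norm_num

theorem hdA_ok {P : Pt} {θ : ℝ} (hE : Encl81 SyA P θ) : HdE hdA P θ :=
  hdE_of hE (e6 := ⟨[⟨.negSucc 278, 11⟩, ⟨.ofNat 27, 11⟩], 0⟩)
    (e7 := ⟨[⟨.ofNat 3, 12⟩, ⟨.ofNat 1719, 13⟩], 0⟩) (yt6 θ) (yt7 θ) rfl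

theorem hdB_ok {P : Pt} {θ : ℝ} (hE : Encl81 SyB P θ) : HdE hdB P θ :=
  hdE_of hE (e6 := ⟨[⟨.negSucc 278, 11⟩, ⟨.ofNat 27, 11⟩], 0⟩)
    (e7 := ⟨[⟨.ofNat 3, 12⟩, ⟨.ofNat 1719, 13⟩], 0⟩) (yt6 θ) (yt7 θ) rfl

theorem bz_encl {L : List (List Sym)} {H : List Sym} (hL : get2 [] L 8 = H) (hl : L.length = 9)
    {P : Pt} {θ : ℝ} (hH : HdE H P θ) :
    EnclF (fun i => sym16 L i) θ (bz (fun i => sym16 L i) P θ) := by
  intro i
  beta_reduce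
  unfold bz
  by_cases hi : i < 128
  · rw [if_pos hi]
    show |pval (sym16 L i).p θ - pval (sym16 L i).p θ| ≤ _
    rw [sub_self, abs_zero]; positivity
  · rw [if_neg hi]
    by_cases h2 : i < 144
    · have e : sym16 L i = get2 ⟨[], 0⟩ H (i - 128) := by
        have e1 : sym16 L i = get2 ⟨[], 0⟩ (get2 [] L (i / 16)) (i % 16) := rfl
        have e2 : i / 16 = 8 := by omega
        have e3 : i % 16 = i - 128 := by omega
        rw [e1, e2, e3, hL]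
      rw [e]
      exact hH (i - 128)
    · rw [sym16_big L i (by rw [hl]; omega)]
      have e : Pool.H47.Kc.get 0 (hdl P θ) (i - 128) = 0 := by
        obtain ⟨n, hn⟩ : ∃ n, i - 128 = n + 10 := ⟨i - 138, by omega⟩
        rw [hn]; rfl
      rw [e]
      show |(0 : ℝ) - pval [] θ| ≤ ((0 : ℕ) : ℝ) / 2 ^ 60
      rw [pval_nil]; norm_num

theorem bz_nom {L L' : List (List Sym)} (h : ∀ q, q < 8 → get2 [] L q = get2 [] L' q)
    (P : Pt) (θ : ℝ) (k : ℕ) (hk : k < 128) :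
    bz (fun i => sym16 L i) P θ k = nomF (fun i => sym16 L' i) θ k := by
  unfold bz
  rw [if_pos hk]
  have e : sym16 L k = sym16 L' k := by
    have e1 : sym16 L k = get2 ⟨[], 0⟩ (get2 [] L (k / 16)) (k % 16) := rfl
    have e2 : sym16 L' k = get2 ⟨[], 0⟩ (get2 [] L' (k / 16)) (k % 16) := rfl
    rw [e1, e2, h _ (by omega)]
  show pval (sym16 L k).p θ = pval (sym16 L' k).p θ
  rw [e]

end Pool.H61.Rh
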