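import Pool.Agent.H81.Lv.Zg
import Pool.Agent.H81.Lv.Zi

/-! # Zj: bounds at the points of the domain, assembly without the near zone -/

set_option autoImplicit false

namespace Pool.H61.Rh

open Complex Pool.H47.Kc Pool.H47.K3

theorem zj_bd (d : VD) {m : ℝ} (m0 : 0 ≤ m) (mm : m ≤ m1) {x : ℂ} (hd : Dom (oy m + x)) :
    1 / 2 < (d.pt m).f x ∧ (d.pt m).f x ^ 2 ≤ 137 / 128 ∧
      normSq ((d.pt m).ys + x) ≤ (8887 / 10000) ^ 2 ∧
      (∀ j : Fin 3, 0 < 1 - 2 * dt (uu j) ((d.pt m).ys + x)) ∧ |x.re| ≤ 9 / 8 ∧ |x.im| ≤ 9 / 8 := by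
  have hm : |m| ≤ m1 := by rw [abs_of_nonneg m0]; exact mm
  have hn := dom_norm hd
  have hov := ov_norm_le hm
  have hka := ka_abs' (y := oy m + x) hov
  have hf : (d.pt m).f x = 1 + ka (oy m + x) (ov m) := by rw [pt_f_eq, fs_eq]
  have hk2 : |ka (oy m + x) (ov m)| ≤ 306 / 10000 * (8887 / 10000) :=
    hka.trans (mul_le_mul_of_nonneg_left hn (by norm_num))
  rw [abs_le] at hk2
  have b1 : 1 / 2 < (d.pt m).f x := by rw [hf]; norm_num at hk2 ⊢; linarith [hk2.1]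
  have b2 : (d.pt m).f x ≤ 103 / 100 := by rw [hf]; norm_num at hk2 ⊢; linarith [hk2.2]
  obtain ⟨h1, h2, h3, h4⟩ := oy_box m0 mm
  have hre := (Complex.abs_re_le_norm (oy m + x)).trans hn
  have him := (Complex.abs_im_le_norm (oy m + x)).trans hn
  rw [abs_le, add_re] at hre
  rw [abs_le, add_im] at him
  refine ⟨b1, ?_, ?_, ?_, ?_, ?_⟩
  · nlinarith
  · show normSq (oy m + x) ≤ _
    rw [normSq_eq_norm_sq]
    exact pow_le_pow_left₀ (norm_nonneg _) hn 2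
  · intro j
    show 0 < 1 - 2 * dt (uu j) (oy m + x)
    have := (hd j).1
    linarith
  · rw [abs_le]; constructor <;> linarith [hre.1, hre.2]
  · rw [abs_le]; constructor <;> linarith [him.1, him.2]

/-- assembly for the scaled sectors, all the inequalities given -/
theorem Z_of_all {d : VD} {κ : ℝ} (hκ : 1 ≤ κ) {yt : ℝ → ℂ}
    (hyt : ∀ m, 0 ≤ m → m ≤ m1 → CB (yt m) ∧ ‖yt m - oy m‖ ≤ (κ - 1) * (325 / 1000))
    (hC : ∀ (j : Fin 3) (l : Fin 12) (m r s : ℝ), 0 ≤ m → m ≤ m1 → 0 ≤ r → r ≤ 1 → 0 ≤ s →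
      s ≤ 1 → ∀ x : ℂ, x = (r : ℂ) * xk κ (yt m) l s → Dom (oy m + x) →
      ∃ z : ZC, z.Ok (1 / 8192) ∧
        (d.pt m).Zn z x (Vx (oy m + x) j) (1 - 2 * dt (uu j) (oy m + x)) ∧
        (d.pt m).FI (z.R - 1 / 8192) x j) :
    ∀ m, 0 ≤ m → m ≤ m1 → ∀ y : ℂ, Dom y → ∀ j : Fin 3, ∃ z : ZC, z.Ok (1 / 8192) ∧
      (d.pt m).Z (1 / 8192) z (y - oy m) (Vx y j) (1 - 2 * dt (uu j) y) := by
  intro m m0 mm y hy j
  obtain ⟨hc, hδ⟩ := hyt m m0 mm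
  obtain ⟨l, r, s, r0', r1, s0, s1, hx⟩ := cover_move hκ hc hδ hy
  have hyx : y = oy m + (r : ℂ) * xk κ (yt m) l s := by rw [← hx]; ring
  obtain ⟨x, hxe⟩ : ∃ x, x = (r : ℂ) * xk κ (yt m) l s := ⟨_, rfl⟩
  rw [← hxe] at hx hyx
  have hys : (d.pt m).ys = oy m := rfl
  obtain ⟨z, hz, hZ, hF⟩ := hC j l m r s m0 mm r0' r1 s0 s1 x hxe (by rw [← hyx]; exact hy)
  refine ⟨z, hz, ?_⟩
  rw [hx, hyx]
  rw [← hys] at hZ ⊢
  exact hZ.z hF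

end Pool.H61.Rh
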