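import Pool.Agent.H81.Lv.Ze

/-! # Zk: the check of the constants of the zones -/

set_option autoImplicit false

namespace Pool.H61.Rh

open Complex Pool.H47.Kc Pool.H47.K3

/-- rational form of `Kz` -/
def KzQ (hb Φ cb Qb pb : ℚ) : ℚ :=
  Φ * (51 / 10000 * hb * (103 / 100 * Qb + 2 * cb * hb)) + 181 / 1000 * cb * hb
    + pb * (7 / 1000 + 1662 / 10000 * Φ * hb)
    + Φ * Φ / 12 * (hb * hb) * ((4835 / 10000 + 10353 / 10000 * hb) *
      (4835 / 10000 + 10353 / 10000 * hb))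

lemma KzQ_cast (a b c d e : ℚ) : ((KzQ a b c d e : ℚ) : ℝ) = Kz a b c d e := by
  unfold KzQ Kz
  push_cast
  ring

/-- rational form of `ZD.hbr` -/
def ZD.hbq (d : ZD) : ℚ := if d.far = true then 8887 / 10000 else (d.hb : ℚ) / 1024

lemma ZD.hbq_cast (d : ZD) : ((d.hbq : ℚ) : ℝ) = d.hbr := by
  unfold ZD.hbq ZD.hbr
  split_ifs
  · norm_num
  · push_cast; norm_num

/-- the part of the zone with `θ ≥ 3/4`, `r ≤ q/128` may be left to the near zone -/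
def okQ (l : Fin 12) (d : ZD) : Bool :=
  decide ((d.q : ℚ) * ((KxZ l : ℚ) / 10000 + 12848 / 2097152 * (5 / 4)) ≤ 8) &&
    (decide (81920 ≤ d.R0) && decide (81920 * 128 ≤ d.R0 * 128 + d.R1 * (d.q : Int)))

/-- the check of the constants -/
def okZ (l : Fin 12) (j2 : Bool) (d : ZD) : Bool :=
  (decide (0 < d.R0) && (decide (0 < d.R0 + d.R1) && (decide (0 < d.lam) && (decide (0 ≤ d.Ph) &&
    (decide (0 ≤ d.Qb) && decide (d.K1 = -d.R1)))))) &&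
  ((decide (0 ≤ d.hbq) && (decide (d.hbq ≤ 8887 / 10000) &&
    (decide (1 ≤ (d.Ph : ℚ) / 1024 * (1 - 2874 / 10000 * d.hbq)) &&
    decide (KzQ d.hbq ((d.Ph : ℚ) / 1024) ((d.cb : ℚ) / 256) ((d.Qb : ℚ) / 256)
      ((d.pb : ℚ) / 256) ≤ 6 - 1 / 8192 - ((d.R0 : ℚ) + (d.K0 : ℚ)) / 16384)))) &&
  ((decide (d.px = 211 * pgX l) && (decide (d.py = 211 * pgY l) &&
    (decide (d.ex = 211 * (pgX (l + 1) - pgX l)) && decide (d.ey = 211 * (pgY (l + 1) - pgY l))))) &&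
  (decide (d.q = 0) || (j2 && okQ l d))))

theorem okZ_sound {l : Fin 12} {j2 : Bool} {d : ZD} (h : okZ l j2 d = true) :
    d.Ok ∧ EdI l d.px d.py d.ex d.ey ∧ (d.q = 0 ∨ (j2 = true ∧ okQ l d = true)) := by
  unfold okZ at h
  simp only [Bool.and_eq_true, Bool.or_eq_true, decide_eq_true_eq] at h
  obtain ⟨⟨a1, a2, a3, a4, a5, a6⟩, ⟨b1, b2, b3, b4⟩, ⟨c1, c2, c3, c4⟩, hq⟩ := h
  refine ⟨⟨a1, a2, a3, a4, a5, a6, ?_, ?_, ?_, ?_⟩, ⟨c1, c2, c3, c4⟩, hq⟩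
  · rw [← ZD.hbq_cast]; exact_mod_cast b1
  · rw [← ZD.hbq_cast]
    have : ((d.hbq : ℚ) : ℝ) ≤ ((8887 / 10000 : ℚ) : ℝ) := by exact_mod_cast b2
    refine this.trans_eq (by norm_num)
  · have : ((1 : ℚ) : ℝ) ≤ (((d.Ph : ℚ) / 1024 * (1 - 2874 / 10000 * d.hbq) : ℚ) : ℝ) := by
      exact_mod_cast b3
    rw [← ZD.hbq_cast]
    push_cast at this
    norm_num at this ⊢
    linarith
  · have : ((KzQ d.hbq ((d.Ph : ℚ) / 1024) ((d.cb : ℚ) / 256) ((d.Qb : ℚ) / 256)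
      ((d.pb : ℚ) / 256) : ℚ) : ℝ) ≤
        ((6 - 1 / 8192 - ((d.R0 : ℚ) + (d.K0 : ℚ)) / 16384 : ℚ) : ℝ) := by exact_mod_cast b4
    rw [KzQ_cast, ZD.hbq_cast] at this
    push_cast at this
    have e1 : ((2 : ℝ) ^ 10) = 1024 := by norm_num
    have e2 : ((2 : ℝ) ^ 8) = 256 := by norm_num
    have e3 : ((2 : ℝ) ^ 14) = 16384 := by norm_num
    rw [e1, e2, e3]
    exact this

theorem okQ_sound {l : Fin 12} {d : ZD} (h : okQ l d = true) {r : ℝ} (r0 : 0 ≤ r)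
    (hr : r * 128 ≤ (d.q : ℝ)) :
    r * (Kx l + (kpz - 1) * (5 / 4)) ≤ 1 / 16 ∧ 5 ≤ ((d.R0 : ℝ) + d.R1 * r) / 2 ^ 14 := by
  unfold okQ at h
  simp only [Bool.and_eq_true, decide_eq_true_eq] at h
  obtain ⟨a1, a2, a3⟩ := h
  have b1 : (((d.q : ℚ) * ((KxZ l : ℚ) / 10000 + 12848 / 2097152 * (5 / 4)) : ℚ) : ℝ) ≤
      ((8 : ℚ) : ℝ) := by exact_mod_cast a1
  push_cast at b1
  have b2 : (81920 : ℝ) ≤ d.R0 := by exact_mod_cast a2
  have b3 : (81920 * 128 : ℝ) ≤ d.R0 * 128 + d.R1 * (d.q : ℝ) := by exact_mod_cast a3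
  have ek : Kx l + (kpz - 1) * (5 / 4) = (KxZ l : ℝ) / 10000 + 12848 / 2097152 * (5 / 4) := by
    unfold Kx kpz; norm_num
  have hK0 : 0 ≤ Kx l + (kpz - 1) * (5 / 4) := by
    have h0 : ∀ l : Fin 12, 0 ≤ KxZ l := by decide
    have h1 : (0 : ℝ) ≤ KxZ l := by exact_mod_cast h0 l
    rw [ek]; positivity
  constructor
  · have h2 := mul_le_mul_of_nonneg_right hr hK0
    rw [ek] at h2 ⊢
    linarith
  · rw [le_div_iff₀ (by norm_num)]
    rcases le_or_gt 0 (d.R1 : ℝ) with h2 | h2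
    · have := mul_nonneg h2 r0
      linarith
    · have := mul_le_mul_of_nonpos_left hr h2.le
      have e : (5 : ℝ) * 2 ^ 14 = 81920 := by norm_num
      rw [e]
      nlinarith

end Pool.H61.Rh
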